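import Pool.Agent.TK.Targets3

set_option autoImplicit false

/-!
# TK-AFREE: elements of `Γ` without fixed points keep having no fixed points
-/

namespace TK

open Subgroup

namespace AFREE_

theorem exists_min {G : Type} [Group G] (K : Subgroup G) (f : G → ℕ) (z : G) :
    ∃ k0 ∈ K, ∀ k ∈ K, f (z * k0) ≤ f (z * k) := by
  classical
  have hex : ∃ n, ∃ k ∈ K, f (z * k) = n := ⟨_, 1, one_mem K, rfl⟩
  obtain ⟨k0, hk0, h⟩ := Nat.find_spec hex
  refine ⟨k0, hk0, fun k hk => ?_⟩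
  rw [h]
  exact Nat.find_min' hex ⟨k, hk, rfl⟩

end AFREE_

theorem p_AFREE (hBR : T_BR) (hFH : T_FH) (hFAPI : T_FAPI) : T_AFREE := by
  intro Γ Γ' _ _ φ x rw H s t hFS c hc z0 hz0
  obtain ⟨k0, hk0, hmin⟩ := AFREE_.exists_min (Hn φ x H s t) (fun y => (rw y).2.length) z0
  obtain ⟨z, hz⟩ : ∃ z, z = z0 * k0 := ⟨_, rfl⟩
  have hzm : ∀ k ∈ Hn φ x H s t, (rw z).2.length ≤ (rw (z * k)).2.length := by
    intro k hk
    have := hmin (k0 * k) (mul_mem hk0 hk)
    rwa [← mul_assoc, ← hz] at this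
  have hmem : z⁻¹ * φ c * z ∈ Hn φ x H s t := by
    have := mul_mem (mul_mem (inv_mem hk0) hz0) hk0
    have e : k0⁻¹ * (z0⁻¹ * φ c * z0) * k0 = z⁻¹ * φ c * z := by rw [hz]; group
    rwa [e] at this
  obtain ⟨hA1, hA2, -⟩ := hFAPI Γ Γ' φ x rw hFS.free
  have hprod := hFS.free.prod z
  obtain ⟨w, hw⟩ : ∃ w, rw z = w := ⟨_, rfl⟩
  obtain ⟨g, l⟩ := w
  rcases l with _ | ⟨⟨ε, h⟩, l⟩
  · rw [hw] at hprod
    have hzg : z = φ g := by rw [← hprod]; simp [wprod, lprod]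
    rw [hzg, ← map_inv, ← map_mul, ← map_mul] at hmem
    exact hc g ((hFH Γ Γ' φ x rw H s t hFS).1 _ |>.1 hmem)
  · have hc1 : c ≠ 1 := by
      rintro rfl
      exact hc 1 (by simp)
    have hwz : rw (φ c * z) = (c * g, (ε, h) :: l) := by rw [hA2, hw]
    have := hBR Γ Γ' φ x rw H s t hFS z (φ c * z) g ε h l hzm hw (by rw [hwz]; simp)
      (by
        intro h' l' h2
        rw [hwz] at h2
        have h3 := congrArg Prod.fst h2
        exact hc1 (by simpa using h3)) (z⁻¹ * φ c * z) hmem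
    have e : (φ c * z)⁻¹ * z * (z⁻¹ * φ c * z) = φ 1 := by rw [map_one]; group
    rw [e, hA1, hwz, hw] at this
    simp at this

end TK
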