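import Pool.Agent.TK.Targets4

set_option autoImplicit false
set_option linter.unusedVariables false

/-!
# TK-ASM: the limit of the construction
-/

namespace TK

open Subgroup

namespace ASM_

/-- the subgroup of the free group generated by the first `n + 2` letters -/
def Fn (n : ℕ) : Subgroup (FreeGroup ℕ) := closure (FreeGroup.of '' {k | k < n + 2})

lemma of_mem {k n : ℕ} (h : k < n + 2) : FreeGroup.of k ∈ Fn n := subset_closure ⟨k, h, rfl⟩

lemma Fn_mono {n m : ℕ} (h : n ≤ m) : Fn n ≤ Fn m := by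
  apply Subgroup.closure_mono
  rintro _ ⟨k, hk, rfl⟩
  refine ⟨k, ?_, rfl⟩
  simp only [Set.mem_setOf_eq] at hk ⊢
  omega

lemma exists_Fn (g : FreeGroup ℕ) : ∃ n, g ∈ Fn n := by
  refine FreeGroup.induction_on g ⟨0, one_mem _⟩ (fun k => ⟨k, of_mem (by omega)⟩)
    (fun k hk => ⟨k, inv_mem (of_mem (by omega))⟩) ?_
  rintro x y ⟨n, hn⟩ ⟨m, hm⟩
  exact ⟨max n m, mul_mem (Fn_mono (le_max_left _ _) hn) (Fn_mono (le_max_right _ _) hm)⟩

lemma exists_Fn_fam {k : ℕ} (s : Fin k → FreeGroup ℕ) : ∃ n, ∀ i, s i ∈ Fn n := by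
  choose f hf using fun i => exists_Fn (s i)
  exact ⟨Finset.univ.sup f, fun i => Fn_mono (Finset.le_sup (Finset.mem_univ i)) (hf i)⟩

/-- a stage of the construction -/
structure St : Type 1 where
  Γ : Type
  [grp : Group Γ]
  H : Subgroup Γ
  ψ : FreeGroup ℕ →* Γ
  P : Finset (FreeGroup ℕ)

attribute [instance] St.grp

/-- the invariants of a stage -/
structure Ok (n : ℕ) (S : St) : Prop where
  good : Good S.Γ S.H (S.ψ (FreeGroup.of 0)) (S.ψ (FreeGroup.of 1))
  sub : ∀ p ∈ S.P, p ∈ Fn n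
  card : n + 6 ≤ S.P.card
  sep : ∀ p ∈ S.P, ∀ q ∈ S.P, p ≠ q → (S.ψ p)⁻¹ * S.ψ q ∉ S.H

/-- the next stage -/
structure Nx (n : ℕ) (w : FreeGroup ℕ) (s t : Fin 5 → FreeGroup ℕ) (S S' : St) : Prop where
  memH : ∀ g ∈ Fn n, S.ψ g ∈ S.H → S'.ψ g ∈ S'.H
  one : ∀ g ∈ Fn n, S.ψ g = 1 → S'.ψ g = 1
  P : S.P ⊆ S'.P
  kill : w ∈ Fn n → ∃ N : ℕ, Odd N ∧
    S'.ψ (vw (FreeGroup.of 0) (w * FreeGroup.of 1 * w⁻¹) ^ N) = 1
  tr : (∀ i, s i ∈ Fn n) → (∀ i, t i ∈ Fn n) →
    (∀ i j, i ≠ j → S'.ψ ((s i)⁻¹ * s j) ∉ S'.H) → (∀ i j, i ≠ j → S'.ψ ((t i)⁻¹ * t j) ∉ S'.H) →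
    ∀ i, S'.ψ ((t i)⁻¹ * FreeGroup.of (n + 2) * s i) ∈ S'.H

lemma map_vw {G K : Type} [Group G] [Group K] (f : G →* K) (x y : G) :
    f (vw x y) = vw (f x) (f y) := by
  unfold vw
  simp only [map_mul, map_inv]

lemma step_exists (hM : T_MACRO) (n : ℕ) (S : St) (hS : Ok n S) (w : FreeGroup ℕ)
    (s t : Fin 5 → FreeGroup ℕ) : ∃ S' : St, Ok (n + 1) S' ∧ Nx n w s t S S' := by
  classical
  have hinj : Set.InjOn S.ψ (S.P : Set (FreeGroup ℕ)) := by
    intro p hp q hq h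
    by_contra hne
    apply hS.sep p hp q hq hne
    rw [h, inv_mul_cancel]
    exact one_mem _
  have hc : (S.P.image S.ψ).card = S.P.card := Finset.card_image_of_injOn hinj
  obtain ⟨Γ', hΓ', φ, H', x, hgood, hH, hsep, hkill, htr, p', k, hp', hx⟩ :=
    hM S.Γ S.H _ _ hS.good (S.ψ w) (fun i => S.ψ (s i)) (fun i => S.ψ (t i)) (S.P.image S.ψ)
      (by have := hS.card; omega) (by
        intro p hp q hq hne
        obtain ⟨p0, hp0, rfl⟩ := Finset.mem_image.1 hp
        obtain ⟨q0, hq0, rfl⟩ := Finset.mem_image.1 hq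
        exact hS.sep p0 hp0 q0 hq0 (fun h => hne (by rw [h])))
  obtain ⟨p0, hp0, hpp⟩ := Finset.mem_image.1 hp'
  set ψ' : FreeGroup ℕ →* Γ' := FreeGroup.lift (fun j => if j < n + 2 then φ (S.ψ (FreeGroup.of j))
    else if j = n + 2 then x else 1) with hψ'
  have hof : ∀ j, ψ' (FreeGroup.of j) = if j < n + 2 then φ (S.ψ (FreeGroup.of j))
      else if j = n + 2 then x else 1 := by
    intro j
    rw [hψ', FreeGroup.lift_apply_of]
  have hx' : ψ' (FreeGroup.of (n + 2)) = x := by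
    rw [hof]; simp
  have heq : ∀ g ∈ Fn n, ψ' g = φ (S.ψ g) := by
    have h1 : Set.EqOn ψ' (φ.comp S.ψ) (FreeGroup.of '' {k | k < n + 2}) := by
      rintro _ ⟨j, hj, rfl⟩
      simp only [Set.mem_setOf_eq] at hj
      rw [hof, if_pos hj]
      rfl
    intro g hg
    exact MonoidHom.eqOn_closure h1 hg
  set new : FreeGroup ℕ := FreeGroup.of (n + 2) ^ k * p0 with hnew
  have hψnew : ψ' new = x ^ k * φ p' := by
    rw [hnew, map_mul, map_pow, hx', heq p0 (hS.sub p0 hp0), hpp]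
  have hxq : ∀ q ∈ S.P, (ψ' q)⁻¹ * ψ' new ∉ H' := by
    intro q hq
    rw [hψnew, heq q (hS.sub q hq)]
    exact hx _ (Finset.mem_image_of_mem _ hq)
  have hnotin : new ∉ S.P := by
    intro h
    apply hxq new h
    rw [inv_mul_cancel]
    exact one_mem _
  refine ⟨⟨Γ', H', ψ', insert new S.P⟩, ⟨?_, ?_, ?_, ?_⟩, ⟨?_, ?_, ?_, ?_, ?_⟩⟩
  · show Good Γ' H' (ψ' (FreeGroup.of 0)) (ψ' (FreeGroup.of 1))
    rw [heq _ (of_mem (by omega)), heq _ (of_mem (by omega))]
    exact hgood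
  · intro q hq
    rcases Finset.mem_insert.1 hq with rfl | hq
    · exact mul_mem (pow_mem (of_mem (by omega)) _) (Fn_mono (Nat.le_succ n) (hS.sub p0 hp0))
    · exact Fn_mono (Nat.le_succ n) (hS.sub q hq)
  · show n + 1 + 6 ≤ (insert new S.P).card
    rw [Finset.card_insert_of_notMem hnotin]
    have := hS.card
    omega
  · intro p hp q hq hne
    show (ψ' p)⁻¹ * ψ' q ∉ H'
    rcases Finset.mem_insert.1 hp with rfl | hp <;> rcases Finset.mem_insert.1 hq with hq | hq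
    · exact absurd hq.symm hne
    · intro h
      apply hxq q hq
      have := inv_mem h
      rw [mul_inv_rev, inv_inv] at this
      exact this
    · rw [hq]; exact hxq p hp
    · rw [heq p (hS.sub p hp), heq q (hS.sub q hq)]
      refine hsep _ (Finset.mem_image_of_mem _ hp) _ (Finset.mem_image_of_mem _ hq) ?_
      intro h
      exact hne (hinj hp hq h)
  · intro g hg hgH
    show ψ' g ∈ H'
    rw [heq g hg]
    exact hH _ hgH
  · intro g hg hg1
    show ψ' g = 1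
    rw [heq g hg, hg1, map_one]
  · exact Finset.subset_insert _ _
  · intro hw
    obtain ⟨N, hN, h1⟩ := hkill
    refine ⟨N, hN, ?_⟩
    show ψ' _ = 1
    rw [map_pow, map_vw, map_mul, map_mul, map_inv, heq _ (of_mem (by omega)),
      heq _ (of_mem (by omega)), heq w hw]
    exact h1
  · intro hs ht h1 h2 i
    have h1' : ∀ i j, i ≠ j → ψ' ((s i)⁻¹ * s j) ∉ H' := h1
    have h2' : ∀ i j, i ≠ j → ψ' ((t i)⁻¹ * t j) ∉ H' := h2
    show ψ' ((t i)⁻¹ * FreeGroup.of (n + 2) * s i) ∈ H'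
    rw [map_mul, map_mul, map_inv, hx', heq _ (ht i), heq _ (hs i)]
    refine htr ⟨fun i j hij => ?_, fun i j hij => ?_⟩ i
    · have := h1' i j hij
      rw [map_mul, map_inv, heq _ (hs i), heq _ (hs j)] at this
      exact this
    · have := h2' i j hij
      rw [map_mul, map_inv, heq _ (ht i), heq _ (ht j)] at this
      exact this

/-- the first stage -/
def ps0 : Fin 6 → FreeGroup ℕ :=
  ![1, FreeGroup.of 0, FreeGroup.of 0 ^ 2, FreeGroup.of 0 ^ 3, FreeGroup.of 0 ^ 4, FreeGroup.of 1]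

lemma base_exists (hB : T_BASE) : ∃ S : St, Ok 0 S := by
  classical
  set ψ : FreeGroup ℕ →* Multiplicative (ZMod 15) := FreeGroup.lift (fun j =>
    if j = 0 then Multiplicative.ofAdd (3 : ZMod 15) else
      if j = 1 then Multiplicative.ofAdd (5 : ZMod 15) else 1) with hψ
  have h0 : ψ (FreeGroup.of 0) = Multiplicative.ofAdd (3 : ZMod 15) := by
    rw [hψ, FreeGroup.lift_apply_of]; simp
  have h1 : ψ (FreeGroup.of 1) = Multiplicative.ofAdd (5 : ZMod 15) := by
    rw [hψ, FreeGroup.lift_apply_of]; simp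
  have hval : ∀ i, ψ (ps0 i) = Multiplicative.ofAdd ((![0, 3, 6, 9, 12, 5] : Fin 6 → ZMod 15) i) := by
    intro i
    fin_cases i
    · show ψ 1 = _
      rw [map_one]; rfl
    · exact h0
    · show ψ (FreeGroup.of 0 ^ 2) = _
      rw [map_pow, h0]; rfl
    · show ψ (FreeGroup.of 0 ^ 3) = _
      rw [map_pow, h0]; rfl
    · show ψ (FreeGroup.of 0 ^ 4) = _
      rw [map_pow, h0]; rfl
    · exact h1
  have hinj6 : Function.Injective (![0, 3, 6, 9, 12, 5] : Fin 6 → ZMod 15) := by decide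
  have hinj : Function.Injective (fun i => ψ (ps0 i)) := by
    intro i j h
    simp only [hval] at h
    exact hinj6 (Multiplicative.ofAdd.injective h)
  have hinj' : Function.Injective ps0 := by
    intro i j h
    exact hinj (by simp only [h])
  refine ⟨⟨Multiplicative (ZMod 15), ⊥, ψ, Finset.univ.image ps0⟩, ⟨?_, ?_, ?_, ?_⟩⟩
  · show Good (Multiplicative (ZMod 15)) ⊥ (ψ (FreeGroup.of 0)) (ψ (FreeGroup.of 1))
    rw [h0, h1]
    exact hB
  · intro p hp
    obtain ⟨i, -, rfl⟩ := Finset.mem_image.1 hp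
    have a0 : FreeGroup.of 0 ∈ Fn 0 := of_mem (by omega)
    have a1 : FreeGroup.of 1 ∈ Fn 0 := of_mem (by omega)
    fin_cases i
    · exact one_mem _
    · exact a0
    · exact pow_mem a0 2
    · exact pow_mem a0 3
    · exact pow_mem a0 4
    · exact a1
  · show 0 + 6 ≤ (Finset.univ.image ps0).card
    rw [Finset.card_image_of_injective _ hinj', Finset.card_univ, Fintype.card_fin]
  · intro p hp q hq hne
    obtain ⟨i, -, rfl⟩ := Finset.mem_image.1 hp
    obtain ⟨j, -, rfl⟩ := Finset.mem_image.1 hq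
    show (ψ (ps0 i))⁻¹ * ψ (ps0 j) ∉ (⊥ : Subgroup (Multiplicative (ZMod 15)))
    rw [Subgroup.mem_bot, inv_mul_eq_one]
    intro h
    exact hne (by rw [hinj h])

end ASM_

open ASM_ in
theorem p_ASM (hBASE : T_BASE) (hMACRO : T_MACRO) : T_ASM := by
  classical
  obtain ⟨S0, hS0⟩ := base_exists hBASE
  -- the tasks
  obtain ⟨e, he⟩ := exists_surjective_nat
    (FreeGroup ℕ × (Fin 5 → FreeGroup ℕ) × (Fin 5 → FreeGroup ℕ))
  -- the sequence
  have hstep : ∀ (n : ℕ) (S : {S : St // Ok n S}), ∃ S' : {S : St // Ok (n + 1) S},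
      Nx n (e n.unpair.1).1 (e n.unpair.1).2.1 (e n.unpair.1).2.2 S.1 S'.1 := by
    intro n S
    obtain ⟨S', h1, h2⟩ := step_exists hMACRO n S.1 S.2 (e n.unpair.1).1 (e n.unpair.1).2.1
      (e n.unpair.1).2.2
    exact ⟨⟨S', h1⟩, h2⟩
  choose nxt hnxt using hstep
  set sq : (n : ℕ) → {S : St // Ok n S} := fun n => Nat.rec ⟨S0, hS0⟩ (fun n S => nxt n S) n with hsq
  have hN : ∀ n, Nx n (e n.unpair.1).1 (e n.unpair.1).2.1 (e n.unpair.1).2.2 (sq n).1
      (sq (n + 1)).1 := fun n => hnxt n (sq n)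
  have hmono : ∀ n m, n ≤ m → ∀ g ∈ Fn n, ((sq n).1.ψ g ∈ (sq n).1.H → (sq m).1.ψ g ∈ (sq m).1.H) ∧
      ((sq n).1.ψ g = 1 → (sq m).1.ψ g = 1) := by
    intro n m hnm
    induction m, hnm using Nat.le_induction with
    | base => exact fun g _ => ⟨id, id⟩
    | succ m hm ih =>
      intro g hg
      exact ⟨fun h => (hN m).memH g (Fn_mono hm hg) ((ih g hg).1 h),
        fun h => (hN m).one g (Fn_mono hm hg) ((ih g hg).2 h)⟩
  have hP : ∀ n m, n ≤ m → (sq n).1.P ⊆ (sq m).1.P := by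
    intro n m hnm
    induction m, hnm using Nat.le_induction with
    | base => exact fun _ h => h
    | succ m hm ih => exact fun p hp => (hN m).P (ih hp)
  -- the subgroup
  let L : Subgroup (FreeGroup ℕ) :=
    { carrier := {g | ∃ n0, ∀ m, n0 ≤ m → (sq m).1.ψ g ∈ (sq m).1.H}
      one_mem' := ⟨0, fun m _ => by rw [map_one]; exact one_mem _⟩
      mul_mem' := by
        rintro g h ⟨n, hn⟩ ⟨m, hm⟩
        refine ⟨max n m, fun k hk => ?_⟩
        rw [map_mul]
        exact mul_mem (hn k (le_trans (le_max_left _ _) hk)) (hm k (le_trans (le_max_right _ _) hk))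
      inv_mem' := by
        rintro g ⟨n, hn⟩
        refine ⟨n, fun k hk => ?_⟩
        rw [map_inv]
        exact inv_mem (hn k hk) }
  have hL : ∀ g, g ∈ L ↔ ∃ n0, ∀ m, n0 ≤ m → (sq m).1.ψ g ∈ (sq m).1.H := fun g => Iff.rfl
  have hL1 : ∀ n, ∀ g ∈ Fn n, (sq n).1.ψ g ∈ (sq n).1.H → g ∈ L := by
    intro n g hg h
    exact (hL g).2 ⟨n, fun m hm => (hmono n m hm g hg).1 h⟩
  refine ⟨L, ?_, ?_, ?_, ?_, ?_, ?_, ?_⟩
  · intro s t hs ht
    obtain ⟨n1, hn1⟩ := exists_Fn_fam s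
    obtain ⟨n2, hn2⟩ := exists_Fn_fam t
    obtain ⟨j, hj⟩ := he (1, s, t)
    set n := Nat.pair j (max n1 n2) with hn
    have hjn : n.unpair.1 = j := by rw [hn, Nat.unpair_pair]
    have hle : max n1 n2 ≤ n := Nat.right_le_pair _ _
    have hs' : ∀ i, s i ∈ Fn n := fun i => Fn_mono ((le_max_left _ _).trans hle) (hn1 i)
    have ht' : ∀ i, t i ∈ Fn n := fun i => Fn_mono ((le_max_right _ _).trans hle) (hn2 i)
    have h := hN n
    rw [hjn, hj] at h
    refine ⟨FreeGroup.of (n + 2), fun i => hL1 (n + 1) _ ?_ (h.tr hs' ht' ?_ ?_ i)⟩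
    · exact mul_mem (mul_mem (inv_mem (Fn_mono (Nat.le_succ n) (ht' i))) (of_mem (by omega)))
        (Fn_mono (Nat.le_succ n) (hs' i))
    · intro i j hij hmem
      exact hs i j hij (hL1 (n + 1) _ (Fn_mono (Nat.le_succ n) (mul_mem (inv_mem (hs' i)) (hs' j)))
        hmem)
    · intro i j hij hmem
      exact ht i j hij (hL1 (n + 1) _ (Fn_mono (Nat.le_succ n) (mul_mem (inv_mem (ht' i)) (ht' j)))
        hmem)
  · have hsep : ∀ n, ∀ p ∈ (sq n).1.P, ∀ q ∈ (sq n).1.P, p ≠ q → p⁻¹ * q ∉ L := by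
      intro n p hp q hq hne hmem
      obtain ⟨n0, h0⟩ := (hL _).1 hmem
      have h1 := h0 (max n n0) (le_max_right _ _)
      rw [map_mul, map_inv] at h1
      exact (sq (max n n0)).2.sep p (hP n _ (le_max_left _ _) hp) q (hP n _ (le_max_left _ _) hq)
        hne h1
    rw [← not_finite_iff_infinite]
    intro hfin
    set N := Nat.card (FreeGroup ℕ ⧸ L) with hNdef
    have h1 : Function.Injective (fun p : {p // p ∈ (sq N).1.P} =>
        (QuotientGroup.mk p.1 : FreeGroup ℕ ⧸ L)) := by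
      intro p q h
      by_contra hne
      exact hsep N p.1 p.2 q.1 q.2 (fun h' => hne (Subtype.ext h')) (QuotientGroup.eq.1 h)
    have h2 := Nat.card_le_card_of_injective _ h1
    rw [← hNdef, Nat.card_eq_fintype_card, Fintype.card_coe] at h2
    have h3 := (sq N).2.card
    omega
  · intro g
    refine (hL _).2 ⟨0, fun m _ => ?_⟩
    have := (sq m).2.good.a5
    rw [map_mul, map_mul, map_pow, this, mul_one, map_inv, inv_mul_cancel]
    exact one_mem _
  · intro g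
    refine (hL _).2 ⟨0, fun m _ => ?_⟩
    have := (sq m).2.good.b3
    rw [map_mul, map_mul, map_pow, this, mul_one, map_inv, inv_mul_cancel]
    exact one_mem _
  · intro h
    obtain ⟨n0, h0⟩ := (hL _).1 h
    have := (sq n0).2.good.afree 1
    rw [inv_one, one_mul, mul_one] at this
    exact this (h0 n0 le_rfl)
  · intro h
    obtain ⟨n0, h0⟩ := (hL _).1 h
    have := (sq n0).2.good.bfree 1
    rw [inv_one, one_mul, mul_one] at this
    exact this (h0 n0 le_rfl)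
  · intro w
    obtain ⟨n1, hn1⟩ := exists_Fn w
    obtain ⟨j, hj⟩ := he (w, fun _ => 1, fun _ => 1)
    set n := Nat.pair j n1 with hn
    have hjn : n.unpair.1 = j := by rw [hn, Nat.unpair_pair]
    have hw : w ∈ Fn n := Fn_mono (Nat.right_le_pair _ _) hn1
    have h := hN n
    rw [hjn, hj] at h
    obtain ⟨N, hNo, hN1⟩ := h.kill hw
    refine ⟨N, hNo, fun g => (hL _).2 ⟨n + 1, fun m hm => ?_⟩⟩
    have hmem : vw (FreeGroup.of 0) (w * FreeGroup.of 1 * w⁻¹) ^ N ∈ Fn (n + 1) := by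
      have a0 : FreeGroup.of 0 ∈ Fn (n + 1) := of_mem (by omega)
      have a1 : FreeGroup.of 1 ∈ Fn (n + 1) := of_mem (by omega)
      have a2 : w ∈ Fn (n + 1) := Fn_mono (Nat.le_succ n) hw
      have a3 : w * FreeGroup.of 1 * w⁻¹ ∈ Fn (n + 1) := mul_mem (mul_mem a2 a1) (inv_mem a2)
      apply pow_mem
      unfold vw
      exact mul_mem (mul_mem (mul_mem (mul_mem (mul_mem (mul_mem (mul_mem a3 a0) (inv_mem a3)) a0)
        a3) (inv_mem a0)) (inv_mem a3)) a0
    have h2 := (hmono (n + 1) m hm _ hmem).2 hN1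
    rw [map_mul, map_mul, h2, mul_one, map_inv, inv_mul_cancel]
    exact one_mem _

end TK
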