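import Pool.Agent.TK.Targets3

set_option autoImplicit false
set_option linter.unusedVariables false

/-!
# Project TK, job TK-BAL: the balanced product
-/

namespace TK

namespace BAL_

variable {Γ Γ' V : Type} [Group Γ] [Group Γ'] [MulAction Γ V]

/-- the relation defining the balanced product -/
def bsetoid (V : Type) [MulAction Γ V] (φ : Γ →* Γ') : Setoid (Γ' × V) where
  r a b := ∃ γ : Γ, b.1 = a.1 * φ γ ∧ a.2 = γ • b.2
  iseqv :=
    { refl := fun a => ⟨1, by simp, by simp⟩
      symm := by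
        rintro ⟨g, v⟩ ⟨h, v'⟩ ⟨γ, h1, h2⟩
        simp only at h1 h2
        refine ⟨γ⁻¹, ?_, ?_⟩
        · rw [h1]; simp
        · rw [h2, inv_smul_smul]
      trans := by
        rintro ⟨g, v⟩ ⟨h, v'⟩ ⟨l, v''⟩ ⟨γ, h1, h2⟩ ⟨γ', h3, h4⟩
        simp only at h1 h2 h3 h4
        refine ⟨γ * γ', ?_, ?_⟩
        · simp only
          rw [h3, h1, map_mul, mul_assoc]
        · simp only
          rw [h2, h4, mul_smul] }

/-- the action of `Γ'` on the balanced product -/
@[instance_reducible] def bact (V : Type) [MulAction Γ V] (φ : Γ →* Γ') : MulAction Γ' (Quotient (bsetoid V φ)) where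
  smul h p := Quotient.map (sa := bsetoid V φ) (sb := bsetoid V φ)
    (fun a : Γ' × V => (h * a.1, a.2)) (by
      rintro ⟨g, v⟩ ⟨g', v'⟩ ⟨γ, h1, h2⟩
      exact ⟨γ, by simp only at h1 ⊢; rw [h1, mul_assoc], h2⟩) p
  one_smul p := by
    induction p using Quotient.inductionOn with
    | _ a =>
      obtain ⟨g, v⟩ := a
      show Quotient.mk (bsetoid V φ) ((1 : Γ') * g, v) = Quotient.mk (bsetoid V φ) (g, v)
      rw [one_mul]
  mul_smul h h' p := by
    induction p using Quotient.inductionOn with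
    | _ a =>
      obtain ⟨g, v⟩ := a
      show Quotient.mk (bsetoid V φ) (h * h' * g, v) =
        Quotient.mk (bsetoid V φ) (h * (h' * g), v)
      rw [mul_assoc]

end BAL_

open BAL_ in
/-- TK-BAL existence of the balanced product -/
theorem p_BAL : T_BAL := by
  intro Γ Γ' V _ _ _ φ _
  refine ⟨Quotient (bsetoid V φ), bact V φ, fun g v => Quotient.mk (bsetoid V φ) (g, v), ?_⟩
  letI : MulAction Γ' (Quotient (bsetoid V φ)) := bact V φ
  refine ⟨?_, ?_, ?_, ?_⟩
  · intro p
    induction p using Quotient.inductionOn with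
    | _ a => exact ⟨a.1, a.2, rfl⟩
  · intro g γ v
    refine Quotient.sound (s := bsetoid V φ) ⟨γ⁻¹, ?_, ?_⟩
    · simp
    · simp
  · intro h g v
    rfl
  · intro g h v v' hq
    exact Quotient.exact (s := bsetoid V φ) hq

end TK
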