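import Pool.Agent.TK.Targets4

set_option autoImplicit false

/-!
# TK-BASE: the first group
-/

namespace TK

theorem p_BASE : T_BASE where
  act := by
    refine ⟨Unit, { smul := fun _ x => x, one_smul := fun _ => rfl, mul_smul := fun _ _ _ => rfl },
      fun _ _ => 0, (), ⟨⟨fun _ => rfl, fun _ _ _ => rfl, fun _ _ => rfl, fun _ _ _ => le_rfl, ?_⟩,
      ⟨0, ?_⟩, fun _ _ _ => rfl, fun _ _ => Set.toFinite _, fun _ => Set.toFinite _,
      ⟨0, fun _ => ⟨1, le_rfl⟩⟩⟩, fun _ _ => ⟨(), rfl⟩, 0, fun h hh _ _ => ⟨h, hh, le_rfl⟩⟩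
    · intro x y n hn
      exact ⟨(), (Nat.le_zero.1 hn).symm, by simpa using hn⟩
    · intro x y z p _
      exact ⟨(), Or.inl rfl, le_rfl⟩
  odd := by
    intro t _
    have h := orderOf_dvd_natCard t
    have hc : Nat.card (Multiplicative (ZMod 15)) = 15 := by
      rw [Nat.card_eq_fintype_card, Fintype.card_multiplicative, ZMod.card]
    rw [hc] at h
    exact Odd.of_dvd_nat (by decide) h
  cent := fun _ _ _ => Set.toFinite _
  a5 := by decide
  b3 := by decide
  afree := by
    intro g hg
    rw [Subgroup.mem_bot, mul_assoc, mul_comm _ g, inv_mul_cancel_left] at hg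
    exact absurd hg (by decide)
  bfree := by
    intro g hg
    rw [Subgroup.mem_bot, mul_assoc, mul_comm _ g, inv_mul_cancel_left] at hg
    exact absurd hg (by decide)
  vfree := fun _ _ _ _ _ => isOfFinOrder_of_finite _

end TK
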