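import Pool.Agent.TK.FAPI

set_option autoImplicit false
set_option linter.unusedVariables false

/-!
# TK-BR: minimal representatives of the cosets of `Hn`
-/

namespace TK

open Subgroup

namespace BR_

variable {Γ Γ' : Type} [Group Γ] [Group Γ']

/-- the innermost step of the list is readable from the base coset -/
def RdI (H : Subgroup Γ) (s t : Fin 5 → Γ) (l : List (Bool × Γ)) : Prop :=
  ∃ p : Bool × Γ, l.getLast? = some p ∧
    ∃ ω' : Γ ⧸ H, Xr H s t p.1 (p.2 • (QuotientGroup.mk (1 : Γ) : Γ ⧸ H)) ω'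

theorem rdi_cons (H : Subgroup Γ) (s t : Fin 5 → Γ) (q : Bool × Γ) (l : List (Bool × Γ))
    (h : RdI H s t l) : RdI H s t (q :: l) := by
  obtain ⟨p, hp, h⟩ := h
  refine ⟨p, ?_, h⟩
  rw [List.getLast?_cons, hp]
  rfl

theorem rdi_append (H : Subgroup Γ) (s t : Fin 5 → Γ) (m l : List (Bool × Γ)) (hl : l ≠ [])
    (h : RdI H s t (m ++ l)) : RdI H s t l := by
  obtain ⟨p, hp, h⟩ := h
  refine ⟨p, ?_, h⟩
  rw [List.getLast?_append] at hp
  cases hc : l.getLast? with
  | none => exact absurd (List.getLast?_eq_none_iff.mp hc) hl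
  | some y =>
    rw [hc] at hp
    simpa using hp

theorem rd_rdi (H : Subgroup Γ) (s t : Fin 5 → Γ) (l : List (Bool × Γ)) :
    ∀ (g : Γ) (ω' : Γ ⧸ H), l ≠ [] → Rd H s t g l (QuotientGroup.mk 1) ω' → RdI H s t l := by
  induction l with
  | nil =>
    intro g ω' h
    exact absurd rfl h
  | cons p l ih =>
    intro g ω' _ h
    obtain ⟨ω1, ω2, h1, h2, -⟩ := h
    rcases eq_or_ne l [] with rfl | hl
    · refine ⟨p, rfl, ω2, ?_⟩
      have h3 : ω1 = p.2 • (QuotientGroup.mk (1 : Γ) : Γ ⧸ H) := h1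
      rw [← h3]
      exact h2
    · exact rdi_cons H s t p l (ih p.2 ω1 hl h1)

theorem cat_snd (g : Γ) (l : List (Bool × Γ)) (w : Wd Γ) :
    ∃ m, (cat g l w).2 = m ++ w.2 := by
  induction l generalizing g with
  | nil => exact ⟨[], by simp [cat]⟩
  | cons p l ih =>
    obtain ⟨m, hm⟩ := ih p.2
    refine ⟨(p.1, (cat p.2 l w).1) :: m, ?_⟩
    simp [cat, hm]

/-- the length of the reduced word is at most the length of any word -/
theorem len_le (hFAPI : T_FAPI) (φ : Γ →* Γ') (x : Γ') (rw : Γ' → Wd Γ)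
    (hF : FreeExt φ x rw) (l : List (Bool × Γ)) :
    ∀ g : Γ, (rw (wprod φ x (g, l))).2.length ≤ l.length := by
  obtain ⟨h1, h2, h3, h4, -⟩ := hFAPI Γ Γ' φ x rw hF
  induction l with
  | nil =>
    intro g
    rw [FAPI_.wprod_nil, h1]
  | cons p l ih =>
    intro g
    rw [FAPI_.wprod_cons, h2]
    have hi := ih p.2
    by_cases hc : ∃ (h : Γ) (l' : List (Bool × Γ)),
        rw (wprod φ x (p.2, l)) = (1, (!p.1, h) :: l')
    · obtain ⟨h, l', hc⟩ := hc
      rw [h3 p.1 _ h l' hc]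
      rw [hc] at hi
      simp only [List.length_cons] at hi ⊢
      omega
    · rw [h4 p.1 _ (fun h l' h' => hc ⟨h, l', h'⟩)]
      simp only [List.length_cons]
      omega

/-- a minimal representative has no readable innermost step -/
theorem min_not (hFAPI : T_FAPI) (φ : Γ →* Γ') (x : Γ') (rw : Γ' → Wd Γ) (H : Subgroup Γ)
    (s t : Fin 5 → Γ) (hFS : FS φ x rw H s t) (z : Γ')
    (hz : ∀ k ∈ Hn φ x H s t, (rw z).2.length ≤ (rw (z * k)).2.length) :
    ¬ RdI H s t (rw z).2 := by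
  rintro ⟨⟨e, k⟩, hp, ω', i, hX⟩
  obtain ⟨m, hm⟩ := List.getLast?_eq_some_iff.mp hp
  have hzp := hFS.free.prod z
  have hw : wprod φ x (rw z) = wprod φ x ((rw z).1, m) * (sg x e * φ k) := by
    have h1 : rw z = cat (rw z).1 m (1, [(e, k)]) := by
      rw [FAPI_.cat_one]
      exact Prod.ext rfl hm
    have h2 := (FAPI_.cat_prod φ x (rw z).1 m (1, [(e, k)])).1
    rw [← h1] at h2
    rw [h2]
    simp [wprod, lprod]
  rw [hzp] at hw
  have hlen : (rw z).2.length = m.length + 1 := by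
    rw [hm]; simp
  -- a general closing step
  have key : ∀ (c : Γ) (k' : Γ'), k' ∈ Hn φ x H s t → sg x e * φ k * k' = φ c → False := by
    intro c k' hk' hc
    have h1 := hz k' hk'
    have h2 : z * k' = wprod φ x (cat (rw z).1 m (c, [])) := by
      rw [(FAPI_.cat_prod φ x (rw z).1 m (c, [])).1, FAPI_.wprod_nil, ← hc]
      conv_lhs => rw [hw]
      simp only [mul_assoc]
    have h3 := len_le hFAPI φ x rw hFS.free (cat (rw z).1 m (c, [])).2 (cat (rw z).1 m (c, [])).1
    have h4 : wprod φ x ((cat (rw z).1 m (c, [])).1, (cat (rw z).1 m (c, [])).2) = z * k' :=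
      h2.symm
    rw [h4, (FAPI_.cat_prod φ x (rw z).1 m (c, [])).2] at h3
    simp only [List.length_nil] at h3
    omega
  have hgen : (φ (t i))⁻¹ * x * φ (s i) ∈ Hn φ x H s t :=
    subset_closure (Or.inr ⟨i, rfl⟩)
  cases e
  · have h1 : k • (QuotientGroup.mk (1 : Γ) : Γ ⧸ H) = QuotientGroup.mk (t i) := by
      simpa using hX.1
    have h2 : (QuotientGroup.mk (t i) : Γ ⧸ H) = QuotientGroup.mk k := by
      rw [← h1]
      show (QuotientGroup.mk (k * 1) : Γ ⧸ H) = _
      rw [mul_one]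
    rw [QuotientGroup.eq] at h2
    have h3 : φ ((t i)⁻¹ * k) ∈ Hn φ x H s t := subset_closure (Or.inl ⟨_, h2, rfl⟩)
    refine key (s i) ((φ ((t i)⁻¹ * k))⁻¹ * ((φ (t i))⁻¹ * x * φ (s i)))
      (mul_mem (inv_mem h3) hgen) ?_
    simp only [sg, map_mul, map_inv]
    group
    simp
  · have h1 : k • (QuotientGroup.mk (1 : Γ) : Γ ⧸ H) = QuotientGroup.mk (s i) := by
      simpa using hX.1
    have h2 : (QuotientGroup.mk (s i) : Γ ⧸ H) = QuotientGroup.mk k := by
      rw [← h1]
      show (QuotientGroup.mk (k * 1) : Γ ⧸ H) = _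
      rw [mul_one]
    rw [QuotientGroup.eq] at h2
    have h3 : φ ((s i)⁻¹ * k) ∈ Hn φ x H s t := subset_closure (Or.inl ⟨_, h2, rfl⟩)
    refine key (t i) ((φ ((s i)⁻¹ * k))⁻¹ * ((φ (t i))⁻¹ * x * φ (s i))⁻¹)
      (mul_mem (inv_mem h3) (inv_mem hgen)) ?_
    simp only [sg, map_mul, map_inv]
    group
    simp

/-- words whose innermost step is not readable are shortest in their coset -/
theorem shortest (hRD : T_RD) (hFAPI : T_FAPI) (φ : Γ →* Γ') (x : Γ') (rw : Γ' → Wd Γ)
    (H : Subgroup Γ) (s t : Fin 5 → Γ) (hFS : FS φ x rw H s t) (n : ℕ) :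
    ∀ u u' : Γ', (rw u).2.length = n → ¬ RdI H s t (rw u).2 → u⁻¹ * u' ∈ Hn φ x H s t →
      (rw u).2.length ≤ (rw u').2.length := by
  obtain ⟨-, -, -, -, -, -, -, h8⟩ := hFAPI Γ Γ' φ x rw hFS.free
  obtain ⟨r1, r2, r3⟩ := hRD Γ Γ' φ x rw H s t hFS
  induction n with
  | zero =>
    intro u u' h _ _
    omega
  | succ n ih =>
    intro u u' hn hI hk
    obtain ⟨g, l0, hu⟩ : ∃ g l0, rw u = (g, l0) := ⟨_, _, rfl⟩
    rcases l0 with _ | ⟨⟨ε, h⟩, l⟩
    · rw [hu] at hn
      simp at hn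
    · by_cases hc : ∃ (h' : Γ) (l' : List (Bool × Γ)), rw u' = (g, (ε, h') :: l')
      · obtain ⟨h', l', hu'⟩ := hc
        have hr := hFS.free.red u
        rw [hu] at hr
        have hr' := hFS.free.red u'
        rw [hu'] at hr'
        have e1 := hFS.free.uniq (h, l) (by unfold Rdc at hr ⊢; exact hr.tail)
        have e1' := hFS.free.uniq (h', l') (by unfold Rdc at hr' ⊢; exact hr'.tail)
        have p1 := hFS.free.prod u
        rw [hu, FAPI_.wprod_cons] at p1
        have p1' := hFS.free.prod u'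
        rw [hu', FAPI_.wprod_cons] at p1'
        have h1 : (wprod φ x (h, l))⁻¹ * wprod φ x (h', l') ∈ Hn φ x H s t := by
          have e : u⁻¹ * u' = (wprod φ x (h, l))⁻¹ * wprod φ x (h', l') := by
            rw [← p1, ← p1']
            group
          rwa [← e]
        have h2 := ih (wprod φ x (h, l)) (wprod φ x (h', l'))
          (by rw [e1]; rw [hu] at hn; simpa using hn)
          (by
            rw [e1]
            intro hh
            apply hI
            rw [hu]
            exact rdi_cons H s t _ _ hh) h1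
        rw [e1, e1'] at h2
        rw [hu, hu']
        simp only [List.length_cons] at h2 ⊢
        omega
      · exfalso
        have hne : ∀ (h' : Γ) (l' : List (Bool × Γ)), rw u' ≠ (g, (ε, h') :: l') :=
          fun h' l' hh => hc ⟨h', l', hh⟩
        have h1 := (h8 u u' g ε h l hu hne).1
        have h2 := (r1 (u⁻¹ * u') 1 1).mp (by simpa using hk)
        rw [h1, r2] at h2
        obtain ⟨ω1, -, h3⟩ := h2
        rw [r3] at h3
        apply hI
        rw [hu]
        exact rd_rdi H s t _ g ω1 (by simp) h3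

end BR_

open BR_ in
theorem p_BR (hRD : T_RD) (hFAPI : T_FAPI) : T_BR := by
  intro Γ Γ' _ _ φ x rw H s t hFS z w g ε h l hmin hz hw hne k hk
  obtain ⟨-, -, -, -, -, -, -, h8⟩ := hFAPI Γ Γ' φ x rw hFS.free
  obtain ⟨g', l0, hw'⟩ : ∃ g' l0, rw w = (g', l0) := ⟨_, _, rfl⟩
  rcases l0 with _ | ⟨⟨ε', h'⟩, l'⟩
  · rw [hw'] at hw
    exact absurd rfl hw
  · have hb : ∀ (h'' : Γ) (l'' : List (Bool × Γ)), rw z ≠ (g', (ε', h'') :: l'') := by
      intro h'' l'' hh
      rw [hz] at hh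
      simp only [Prod.mk.injEq, List.cons.injEq] at hh
      obtain ⟨rfl, ⟨rfl, -⟩, -⟩ := hh
      exact hne h' l' hw'
    obtain ⟨c1, c2⟩ := h8 w z g' ε' h' l' hw' hb
    have hI := min_not hFAPI φ x rw H s t hFS z hmin
    have h1 := shortest hRD hFAPI φ x rw H s t hFS _ (w⁻¹ * z) (w⁻¹ * z * k) rfl (by
      intro hh
      apply hI
      rw [c1] at hh
      obtain ⟨m, hm⟩ := cat_snd (winv g' ((ε', h') :: l')).1 (winv g' ((ε', h') :: l')).2 (rw z)
      rw [hm] at hh
      exact rdi_append H s t _ _ (by rw [hz]; simp) hh) (by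
        have e : (w⁻¹ * z)⁻¹ * (w⁻¹ * z * k) = k := by group
        rw [e]
        exact hk)
    rw [c2] at h1
    exact h1

end TK
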