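import Pool.Agent.TK.Targets3

set_option autoImplicit false

/-!
# TK-E6: reading `v` repeatedly visits at least six points
-/

namespace TK

namespace E6_

/-! ## The search -/

/-- lookup -/
def nxt : List (ℕ × ℕ) → ℕ → Option ℕ
  | [], _ => none
  | p :: l, u => if p.1 = u then some p.2 else nxt l u

/-- iteration -/
def itr (l : List (ℕ × ℕ)) : ℕ → ℕ → Option ℕ
  | 0, u => some u
  | k + 1, u => match nxt l u with
    | none => none
    | some v => itr l k v

/-- injective function -/
def fn (l : List (ℕ × ℕ)) : Bool := l.all fun p => l.all fun q => (p.1 == q.1) == (p.2 == q.2)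

/-- no cycle of length `k` -/
def cyc (l : List (ℕ × ℕ)) (u : ℕ) (k : ℕ) : Bool := !(itr l k u == some u)

/-- closes after `k` steps -/
def cls (l : List (ℕ × ℕ)) (u : ℕ) (k : ℕ) : Bool := match itr l k u with
  | none => true
  | some v => v == u

/-- conditions on the pairs for `a` -/
def okA (l : List (ℕ × ℕ)) : Bool := fn l && (List.range 5).all fun u =>
  cyc l u 1 && cyc l u 2 && cyc l u 3 && cyc l u 4 && cls l u 5

/-- conditions on the pairs for `b` -/
def okB (l : List (ℕ × ℕ)) : Bool := fn l && (List.range 5).all fun u =>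
  cyc l u 1 && cyc l u 2 && cls l u 3

/-- new pairs for `a` -/
def sA (i u v : ℕ) (l : List (ℕ × ℕ)) : List (ℕ × ℕ) :=
  if i = 0 ∨ i = 4 ∨ i = 6 then (u, v) :: l else if i = 2 then (v, u) :: l else l

/-- new pairs for `b` -/
def sB (i u v : ℕ) (l : List (ℕ × ℕ)) : List (ℕ × ℕ) :=
  if i = 3 ∨ i = 7 then (u, v) :: l else if i = 1 ∨ i = 5 then (v, u) :: l else l

/-- the search -/
def srch : ℕ → ℕ → ℕ → ℕ → List (ℕ × ℕ) → List (ℕ × ℕ) → Bool
  | 0, _, _, _, _, _ => true
  | m + 1, i, n, c, pa, pb => (List.range (min (n + 1) 5)).any fun v =>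
      okA (sA (i % 8) c v pa) && (okB (sB (i % 8) c v pb) &&
        srch m (i + 1) (max n (v + 1)) v (sA (i % 8) c v pa) (sB (i % 8) c v pb))

set_option maxRecDepth 100000 in
theorem srch_false : srch 23 0 1 0 [] [] = false := by decide +kernel

/-! ## Soundness -/

section

variable {G X : Type} [Group G] [MulAction G X]

/-- the pairs are correct -/
def Val (g : G) (n : ℕ) (f : ℕ → X) (l : List (ℕ × ℕ)) : Prop :=
  ∀ q ∈ l, q.1 < n ∧ q.2 < n ∧ g • f q.1 = f q.2

/-- the labels are injective -/
def Inj (n : ℕ) (f : ℕ → X) : Prop := ∀ u < n, ∀ v < n, f u = f v → u = v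

theorem nxt_spec {g : G} {n : ℕ} {f : ℕ → X} {l : List (ℕ × ℕ)} (hl : Val g n f l) {u v : ℕ}
    (h : nxt l u = some v) : u < n ∧ v < n ∧ g • f u = f v := by
  induction l with
  | nil => simp [nxt] at h
  | cons p l ih =>
    rw [nxt] at h
    split_ifs at h with hp
    · have h1 := hl p (by simp)
      rw [hp] at h1
      have h2 : p.2 = v := by simpa using h
      rw [h2] at h1
      exact h1
    · exact ih (fun q hq => hl q (List.mem_cons_of_mem _ hq)) h

theorem itr_spec {g : G} {n : ℕ} {f : ℕ → X} {l : List (ℕ × ℕ)} (hl : Val g n f l) (k : ℕ) :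
    ∀ {u v : ℕ}, itr l (k + 1) u = some v → u < n ∧ v < n ∧ g ^ (k + 1) • f u = f v := by
  induction k with
  | zero =>
    intro u v h
    rw [itr] at h
    cases hn : nxt l u with
    | none => rw [hn] at h; simp at h
    | some w =>
      rw [hn] at h
      have h1 : w = v := by simpa [itr] using h
      have h2 := nxt_spec hl hn
      rw [h1] at h2
      simpa using h2
  | succ k ih =>
    intro u v h
    rw [itr] at h
    cases hn : nxt l u with
    | none => rw [hn] at h; simp at h
    | some w =>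
      rw [hn] at h
      have h1 : itr l (k + 1) w = some v := by simpa using h
      have h2 := nxt_spec hl hn
      have h3 := ih h1
      refine ⟨h2.1, h3.2.1, ?_⟩
      rw [pow_succ, mul_smul, h2.2.2]
      exact h3.2.2

theorem fn_true {g : G} {n : ℕ} {f : ℕ → X} {l : List (ℕ × ℕ)} (hl : Val g n f l)
    (hf : Inj n f) : fn l = true := by
  rw [fn, List.all_eq_true]
  intro p hp
  rw [List.all_eq_true]
  intro q hq
  have h1 := hl p hp
  have h2 := hl q hq
  have h3 : p.1 = q.1 ↔ p.2 = q.2 := by
    constructor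
    · intro h
      apply hf _ h1.2.1 _ h2.2.1
      rw [← h1.2.2, ← h2.2.2, h]
    · intro h
      apply hf _ h1.1 _ h2.1
      have : g • f p.1 = g • f q.1 := by rw [h1.2.2, h2.2.2, h]
      exact (smul_left_cancel_iff g).1 this
  by_cases h : p.1 = q.1
  · simp [h, h3.1 h]
  · have h' : p.2 ≠ q.2 := fun h' => h (h3.2 h')
    simp [h, h']

theorem cyc_true {g : G} {n : ℕ} {f : ℕ → X} {l : List (ℕ × ℕ)} (hl : Val g n f l) (k : ℕ)
    (hk : ∀ x : X, g ^ (k + 1) • x ≠ x) (u : ℕ) : cyc l u (k + 1) = true := by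
  rw [cyc, Bool.not_eq_true', beq_eq_false_iff_ne]
  intro h
  exact hk _ (itr_spec hl k h).2.2

theorem cls_true {g : G} {n : ℕ} {f : ℕ → X} {l : List (ℕ × ℕ)} (hl : Val g n f l)
    (hf : Inj n f) (k : ℕ) (hk : g ^ (k + 1) = 1) (u : ℕ) : cls l u (k + 1) = true := by
  rw [cls]
  cases h : itr l (k + 1) u with
  | none => rfl
  | some v =>
    have h1 := itr_spec hl k h
    rw [hk, one_smul] at h1
    have := hf _ h1.1 _ h1.2.1 h1.2.2
    simp [this]

theorem okA_true {g : G} {n : ℕ} {f : ℕ → X} {l : List (ℕ × ℕ)} (hl : Val g n f l)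
    (hf : Inj n f) (h5 : g ^ 5 = 1) (h1 : ∀ x : X, g • x ≠ x) : okA l = true := by
  have e1 : ∀ x : X, g ^ (0 + 1) • x ≠ x := fun x => by simpa using h1 x
  have e2 : ∀ x : X, g ^ (1 + 1) • x ≠ x := by
    intro x h
    apply h1 x
    have h' : g ^ 4 • x = x := by
      rw [show (4 : ℕ) = (1 + 1) + (1 + 1) from rfl, pow_add, mul_smul, h, h]
    calc g • x = g • g ^ 4 • x := by rw [h']
      _ = g ^ 5 • x := by rw [smul_smul, ← pow_succ']
      _ = x := by rw [h5, one_smul]
  have e3 : ∀ x : X, g ^ (2 + 1) • x ≠ x := by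
    intro x h
    apply h1 x
    have h' : g ^ 6 • x = x := by
      rw [show (6 : ℕ) = (2 + 1) + (2 + 1) from rfl, pow_add, mul_smul, h, h]
    calc g • x = g • g ^ 5 • x := by rw [h5, one_smul]
      _ = g ^ 6 • x := by rw [smul_smul, ← pow_succ']
      _ = x := h'
  have e4 : ∀ x : X, g ^ (3 + 1) • x ≠ x := by
    intro x h
    apply h1 x
    calc g • x = g • g ^ (3 + 1) • x := by rw [h]
      _ = g ^ 5 • x := by rw [smul_smul, ← pow_succ']
      _ = x := by rw [h5, one_smul]
  rw [okA, fn_true hl hf, Bool.true_and, List.all_eq_true]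
  intro u _
  have k1 := cyc_true hl 0 e1 u
  have k2 := cyc_true hl 1 e2 u
  have k3 := cyc_true hl 2 e3 u
  have k4 := cyc_true hl 3 e4 u
  have k5 := cls_true hl hf 4 h5 u
  norm_num at k1 k2 k3 k4 k5
  rw [k1, k2, k3, k4, k5]
  rfl

theorem okB_true {g : G} {n : ℕ} {f : ℕ → X} {l : List (ℕ × ℕ)} (hl : Val g n f l)
    (hf : Inj n f) (h3 : g ^ 3 = 1) (h1 : ∀ x : X, g • x ≠ x) : okB l = true := by
  have e1 : ∀ x : X, g ^ (0 + 1) • x ≠ x := fun x => by simpa using h1 x
  have e2 : ∀ x : X, g ^ (1 + 1) • x ≠ x := by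
    intro x h
    apply h1 x
    calc g • x = g • g ^ (1 + 1) • x := by rw [h]
      _ = g ^ 3 • x := by rw [smul_smul, ← pow_succ']
      _ = x := by rw [h3, one_smul]
  rw [okB, fn_true hl hf, Bool.true_and, List.all_eq_true]
  intro u _
  have k1 := cyc_true hl 0 e1 u
  have k2 := cyc_true hl 1 e2 u
  have k5 := cls_true hl hf 2 h3 u
  norm_num at k1 k2 k5
  rw [k1, k2, k5]
  rfl

/-- the letter of the step `i` -/
def gk (a b : G) : ℕ → G
  | 0 => a
  | 1 => b⁻¹
  | 2 => a⁻¹
  | 3 => b
  | 4 => a
  | 5 => b⁻¹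
  | 6 => a
  | _ => b

theorem srch_true {a b : G} (ha5 : a ^ 5 = 1) (hb3 : b ^ 3 = 1) (ha : ∀ x : X, a • x ≠ x)
    (hb : ∀ x : X, b • x ≠ x) {S : Finset X} (hS5 : S.card ≤ 5) {P : ℕ → X}
    (hrel : ∀ j, P (j + 1) = gk a b (j % 8) • P j) (hPS : ∀ j, P j ∈ S) (m : ℕ) :
    ∀ (i n c : ℕ) (pa pb : List (ℕ × ℕ)) (f : ℕ → X), n ≤ 5 → Inj n f → (∀ u < n, f u ∈ S) →
    c < n → P i = f c → Val a n f pa → Val b n f pb → srch m i n c pa pb = true := by
  classical
  induction m with
  | zero => intros; rfl
  | succ m ih =>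
    intro i n c pa pb f hn hf hfS hc hPc hA hB
    obtain ⟨f', n', v, hv, hn', hn5, hf', hfS', hff, hfv, hvn⟩ : ∃ (f' : ℕ → X) (n' v : ℕ),
        v < min (n + 1) 5 ∧ n' = max n (v + 1) ∧ n' ≤ 5 ∧ Inj n' f' ∧ (∀ u < n', f' u ∈ S) ∧
        (∀ u < n, f' u = f u) ∧ P (i + 1) = f' v ∧ v < n' := by
      by_cases h : ∃ v < n, f v = P (i + 1)
      · obtain ⟨v, hv, hfv⟩ := h
        exact ⟨f, n, v, by omega, by omega, hn, hf, hfS, fun _ _ => rfl, hfv.symm, hv⟩
      · push Not at h
        have hcard : n + 1 ≤ 5 := by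
          have h1 : (insert (P (i + 1)) ((Finset.range n).image f)) ⊆ S := by
            intro x hx
            rw [Finset.mem_insert, Finset.mem_image] at hx
            rcases hx with rfl | ⟨u, hu, rfl⟩
            · exact hPS _
            · exact hfS u (Finset.mem_range.1 hu)
          have h2 : (insert (P (i + 1)) ((Finset.range n).image f)).card = n + 1 := by
            rw [Finset.card_insert_of_notMem, Finset.card_image_of_injOn, Finset.card_range]
            · intro u hu v hv huv
              exact hf u (by simpa using hu) v (by simpa using hv) huv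
            · intro hx
              rw [Finset.mem_image] at hx
              obtain ⟨u, hu, hu'⟩ := hx
              exact h u (Finset.mem_range.1 hu) hu'
          rw [← h2]
          exact (Finset.card_le_card h1).trans hS5
        have hu : ∀ u < n, Function.update f n (P (i + 1)) u = f u := fun u hu =>
          Function.update_of_ne (by omega) _ _
        refine ⟨Function.update f n (P (i + 1)), n + 1, n, by omega, by omega, hcard, ?_, ?_, hu,
          by rw [Function.update_self], by omega⟩
        · intro u hu' v hv' huv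
          rcases Nat.lt_succ_iff_lt_or_eq.1 hu' with h1 | h1 <;>
            rcases Nat.lt_succ_iff_lt_or_eq.1 hv' with h2 | h2
          · rw [hu u h1, hu v h2] at huv
            exact hf u h1 v h2 huv
          · rw [hu u h1, h2, Function.update_self] at huv
            exact absurd huv (h u h1)
          · rw [hu v h2, h1, Function.update_self] at huv
            exact absurd huv.symm (h v h2)
          · rw [h1, h2]
        · intro u hu'
          rcases Nat.lt_succ_iff_lt_or_eq.1 hu' with h1 | h1
          · rw [hu u h1]; exact hfS u h1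
          · rw [h1, Function.update_self]; exact hPS _
    have hnn : n ≤ n' := by omega
    have hcn : c < n' := by omega
    have hfc : f' c = P i := by rw [hff c hc, hPc]
    have hA' : Val a n' f' pa := fun q hq => by
      obtain ⟨h1, h2, h3⟩ := hA q hq
      exact ⟨h1.trans_le hnn, h2.trans_le hnn, by rw [hff _ h1, hff _ h2, h3]⟩
    have hB' : Val b n' f' pb := fun q hq => by
      obtain ⟨h1, h2, h3⟩ := hB q hq
      exact ⟨h1.trans_le hnn, h2.trans_le hnn, by rw [hff _ h1, hff _ h2, h3]⟩
    have hr := hrel i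
    rw [hfv, ← hfc] at hr
    have hi : i % 8 < 8 := Nat.mod_lt _ (by norm_num)
    have hA2 : Val a n' f' (sA (i % 8) c v pa) := by
      rw [sA]
      split_ifs with h1 h2
      · intro q hq
        rcases List.mem_cons.1 hq with rfl | hq
        · refine ⟨hcn, hvn, ?_⟩
          show a • f' c = f' v
          rw [hr]
          rcases h1 with h1 | h1 | h1 <;> rw [h1] <;> rfl
        · exact hA' q hq
      · intro q hq
        rcases List.mem_cons.1 hq with rfl | hq
        · refine ⟨hvn, hcn, ?_⟩
          show a • f' v = f' c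
          rw [hr, h2]
          show a • a⁻¹ • f' c = f' c
          rw [smul_inv_smul]
        · exact hA' q hq
      · exact hA'
    have hB2 : Val b n' f' (sB (i % 8) c v pb) := by
      rw [sB]
      split_ifs with h1 h2
      · intro q hq
        rcases List.mem_cons.1 hq with rfl | hq
        · refine ⟨hcn, hvn, ?_⟩
          show b • f' c = f' v
          rw [hr]
          rcases h1 with h1 | h1 <;> rw [h1] <;> rfl
        · exact hB' q hq
      · intro q hq
        rcases List.mem_cons.1 hq with rfl | hq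
        · refine ⟨hvn, hcn, ?_⟩
          show b • f' v = f' c
          rw [hr]
          rcases h2 with h2 | h2 <;> rw [h2] <;> exact smul_inv_smul b (f' c)
        · exact hB' q hq
      · exact hB'
    rw [srch, List.any_eq_true]
    refine ⟨v, List.mem_range.2 hv, ?_⟩
    rw [okA_true hA2 hf' ha5 ha, okB_true hB2 hf' hb3 hb, Bool.true_and, Bool.true_and, ← hn']
    exact ih (i + 1) n' v _ _ f' hn5 hf' hfS' hvn hfv hA2 hB2

end

end E6_

open E6_ in
theorem p_E6 : T_E6 := by
  intro G X _ _ a b ha5 hb3 ha hb y S hS hcon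
  set P : ℕ → X := fun j => ((sufs a b).getD (j % 8) 1 * vw a b ^ (j / 8)) • y with hP
  have hPS : ∀ j, P j ∈ S := by
    intro j
    refine hcon (j / 8) _ ?_
    have hj : j % 8 < 8 := Nat.mod_lt _ (by norm_num)
    have hlen : (sufs a b).length = 8 := rfl
    rw [List.getD_eq_getElem _ _ (by rw [hlen]; exact hj)]
    exact List.getElem_mem _
  have hrel : ∀ j, P (j + 1) = gk a b (j % 8) • P j := by
    intro j
    have hj : j % 8 < 8 := Nat.mod_lt _ (by norm_num)
    simp only [hP]
    rw [smul_smul]
    by_cases h7 : j % 8 = 7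
    · have e1 : (j + 1) % 8 = 0 := by omega
      have e2 : (j + 1) / 8 = j / 8 + 1 := by omega
      rw [e1, e2, h7]
      congr 1
      simp only [sufs, gk, vw, List.getD_cons_zero, List.getD_cons_succ, one_mul]
      rw [pow_succ']
      group
    · have e2 : (j + 1) / 8 = j / 8 := by omega
      have e1 : (j + 1) % 8 = j % 8 + 1 := by omega
      rw [e1, e2]
      congr 1
      have h8 : j % 8 = 0 ∨ j % 8 = 1 ∨ j % 8 = 2 ∨ j % 8 = 3 ∨ j % 8 = 4 ∨ j % 8 = 5 ∨
        j % 8 = 6 := by omega
      rcases h8 with h | h | h | h | h | h | h <;> rw [h] <;>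
        simp only [sufs, gk, List.getD_cons_zero, List.getD_cons_succ] <;> group
  have h0 : P 0 ∈ S := hPS 0
  have := srch_true ha5 hb3 ha hb hS hrel hPS 23 0 1 0 [] [] (fun _ => P 0) (by norm_num)
    (by intro u hu v hv _; omega) (fun _ _ => h0) (by norm_num) rfl
    (by intro q hq; simp at hq) (by intro q hq; simp at hq)
  rw [srch_false] at this
  exact absurd this (by simp)

end TK
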