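import Pool.Agent.TK.Targets3

set_option autoImplicit false
set_option linter.unusedVariables false

/-!
# Project TK, target FAPI: basic facts on words
-/

namespace TK

namespace FAPI_

variable {Γ Γ' : Type} [Group Γ] [Group Γ']

theorem sg_not (x : Γ') (ε : Bool) : sg x (!ε) = (sg x ε)⁻¹ := by
  cases ε <;> simp [sg]

theorem wprod_nil (φ : Γ →* Γ') (x : Γ') (g : Γ) : wprod φ x (g, []) = φ g := by
  simp [wprod, lprod]

theorem wprod_cons (φ : Γ →* Γ') (x : Γ') (g : Γ) (p : Bool × Γ) (l : List (Bool × Γ)) :
    wprod φ x (g, p :: l) = φ g * (sg x p.1 * wprod φ x (p.2, l)) := by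
  simp [wprod, lprod, mul_assoc]

theorem wprod_head (φ : Γ →* Γ') (x : Γ') (g h : Γ) (l : List (Bool × Γ)) :
    wprod φ x (g * h, l) = φ g * wprod φ x (h, l) := by
  simp [wprod, mul_assoc]

/-- concatenation with a word of trivial head -/
theorem cat_one (g : Γ) (l m : List (Bool × Γ)) : cat g l (1, m) = (g, l ++ m) := by
  induction l generalizing g with
  | nil => simp [cat]
  | cons p l ih => simp [cat, ih]

/-- concatenation in terms of the last letter -/
theorem cat_concat (g : Γ) (m : List (Bool × Γ)) (e : Bool) (k : Γ) (w : Wd Γ) :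
    cat g (m ++ [(e, k)]) w = (g, m ++ (e, k * w.1) :: w.2) := by
  induction m generalizing g with
  | nil => simp [cat]
  | cons p l ih => simp [cat, ih]

theorem cat_prod (φ : Γ →* Γ') (x : Γ') (g : Γ) (l : List (Bool × Γ)) (w : Wd Γ) :
    wprod φ x (cat g l w) = wprod φ x (g, l) * wprod φ x w ∧
      (cat g l w).2.length = l.length + w.2.length := by
  induction l generalizing g with
  | nil =>
    constructor
    · simp [cat, wprod, lprod, mul_assoc]
    · simp [cat]
  | cons p l ih =>
    obtain ⟨h1, h2⟩ := ih p.2
    constructor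
    · have e : cat g (p :: l) w = (g, (p.1, (cat p.2 l w).1) :: (cat p.2 l w).2) := rfl
      rw [e, wprod_cons, wprod_cons]
      have h3 : wprod φ x ((cat p.2 l w).1, (cat p.2 l w).2) = wprod φ x (cat p.2 l w) := rfl
      rw [h3, h1]
      simp only [mul_assoc]
    · have e : cat g (p :: l) w = (g, (p.1, (cat p.2 l w).1) :: (cat p.2 l w).2) := rfl
      rw [e]
      simp only [List.length_cons]
      omega

theorem winv_cons (g : Γ) (p : Bool × Γ) (l : List (Bool × Γ)) :
    winv g (p :: l) = ((winv p.2 l).1, (winv p.2 l).2 ++ [(!p.1, g⁻¹)]) := by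
  show cat (winv p.2 l).1 (winv p.2 l).2 (1, [(!p.1, g⁻¹)]) = _
  rw [cat_one]

theorem winv_prod (φ : Γ →* Γ') (x : Γ') (g : Γ) (l : List (Bool × Γ)) :
    wprod φ x (winv g l) = (wprod φ x (g, l))⁻¹ := by
  induction l generalizing g with
  | nil => simp [winv, wprod, lprod]
  | cons p l ih =>
    show wprod φ x (cat (winv p.2 l).1 (winv p.2 l).2 (1, [(!p.1, g⁻¹)])) = _
    rw [(cat_prod φ x _ _ _).1]
    have h3 : wprod φ x ((winv p.2 l).1, (winv p.2 l).2) = wprod φ x (winv p.2 l) := rfl
    rw [h3, ih, wprod_cons, wprod_cons, wprod_nil, sg_not]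
    simp [mul_inv_rev, mul_assoc]

theorem winv_length (g : Γ) (l : List (Bool × Γ)) : (winv g l).2.length = l.length := by
  induction l generalizing g with
  | nil => simp [winv]
  | cons p l ih =>
    rw [winv_cons]
    simp [ih]

theorem winv_red (g : Γ) (l : List (Bool × Γ)) (h : Rdc l) : Rdc (winv g l).2 := by
  induction l generalizing g with
  | nil => simp [winv, Rdc]
  | cons p l ih =>
    rw [winv_cons]
    have hl : Rdc l := by
      unfold Rdc at h ⊢
      exact h.tail
    have h1 := ih p.2 hl
    unfold Rdc at h1 ⊢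
    rw [List.isChain_append]
    refine ⟨h1, by simp, ?_⟩
    intro a ha b hb
    cases l with
    | nil => simp [winv] at ha
    | cons q l' =>
      rw [winv_cons] at ha
      simp only [List.getLast?_append, List.getLast?_singleton, Option.some_or,
        Option.mem_def, Option.some.injEq, List.head?_cons] at ha hb
      subst ha
      subst hb
      intro h2
      simp only [inv_eq_one] at h2
      have h3 : p.1 = q.1 := by
        unfold Rdc at h
        rw [List.isChain_cons_cons] at h
        exact h.1 h2
      simp [h3]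

end FAPI_

open FAPI_ in
theorem p_FAPI : T_FAPI := by
  intro Γ Γ' _ _ φ x rw hF
  have hpr : ∀ z, φ (rw z).1 * lprod φ x (rw z).2 = z := hF.prod
  have h2 : ∀ (g : Γ) (z : Γ'), rw (φ g * z) = (g * (rw z).1, (rw z).2) := by
    intro g z
    have h := hF.uniq (g * (rw z).1, (rw z).2) (hF.red z)
    rw [wprod_head] at h
    have h3 : wprod φ x ((rw z).1, (rw z).2) = z := hF.prod z
    rw [h3] at h
    exact h
  have h7 : ∀ z : Γ', rw z⁻¹ = winv (rw z).1 (rw z).2 := by
    intro z
    have h := hF.uniq (winv (rw z).1 (rw z).2) (winv_red _ _ (hF.red z))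
    rw [winv_prod] at h
    have h3 : wprod φ x ((rw z).1, (rw z).2) = z := hF.prod z
    rw [h3] at h
    exact h
  refine ⟨?_, h2, ?_, ?_, cat_prod φ x, ?_, ?_, ?_⟩
  · intro g
    have h := hF.uniq (g, []) (by simp [Rdc])
    rw [wprod_nil] at h
    exact h
  · intro ε z h l hz
    have hz' := hF.prod z
    rw [hz, wprod_cons] at hz'
    simp only [map_one, one_mul, sg_not] at hz'
    have hr := hF.red z
    rw [hz] at hr
    have hl : Rdc l := by
      unfold Rdc at hr ⊢
      exact hr.tail
    have hu := hF.uniq (h, l) hl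
    rw [← hz', mul_inv_cancel_left]
    exact hu
  · intro ε z hne
    have hr := hF.red z
    have hred : Rdc ((ε, (rw z).1) :: (rw z).2) := by
      unfold Rdc at hr ⊢
      rw [List.isChain_cons]
      refine ⟨?_, hr⟩
      intro q hq h1
      simp only at h1
      by_contra hc
      have hq1 : q.1 = !ε := by
        cases hb : q.1 <;> cases ε <;> simp_all
      cases hl : (rw z).2 with
      | nil => rw [hl] at hq; simp at hq
      | cons q' l' =>
        rw [hl] at hq
        simp only [List.head?_cons, Option.mem_def, Option.some.injEq] at hq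
        subst hq
        apply hne q'.2 l'
        rw [← hq1]
        exact Prod.ext h1 hl
    have hu := hF.uniq (1, (ε, (rw z).1) :: (rw z).2) hred
    rw [wprod_cons] at hu
    have h3 : wprod φ x ((rw z).1, (rw z).2) = z := hF.prod z
    simp only [map_one, one_mul, h3] at hu
    exact hu
  · intro g l
    exact ⟨winv_prod φ x g l, winv_length g l, winv_red g l⟩
  · intro z
    rw [h7, winv_length]
  · intro u u' g ε h l hu hne
    have hru := hF.red u
    have hru' := hF.red u'
    have hwi : Rdc (winv g ((ε, h) :: l)).2 := by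
      rw [hu] at hru
      exact winv_red g _ hru
    have hred : Rdc (cat (winv g ((ε, h) :: l)).1 (winv g ((ε, h) :: l)).2 (rw u')).2 := by
      rw [winv_cons] at hwi ⊢
      rw [cat_concat]
      simp only at hwi ⊢
      unfold Rdc at hwi hru' ⊢
      rw [List.isChain_append] at hwi ⊢
      refine ⟨hwi.1, ?_, ?_⟩
      · rw [List.isChain_cons]
        refine ⟨?_, hru'⟩
        intro q hq h1
        simp only at h1
        have h1' : (rw u').1 = g := by
          have h4 : g⁻¹ * (rw u').1 = 1 := h1
          rw [inv_mul_eq_one] at h4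
          exact h4.symm
        by_contra hc
        have hq1 : q.1 = ε := by
          cases hb : q.1 <;> cases ε <;> simp_all
        cases hl : (rw u').2 with
        | nil => rw [hl] at hq; simp at hq
        | cons q' l' =>
          rw [hl] at hq
          simp only [List.head?_cons, Option.mem_def, Option.some.injEq] at hq
          subst hq
          apply hne q'.2 l'
          rw [← hq1]
          exact Prod.ext h1' hl
      · intro a ha b hb
        simp only [List.head?_cons, Option.mem_def, Option.some.injEq] at hb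
        subst hb
        have h5 := hwi.2.2 a ha (!ε, g⁻¹) (by simp)
        intro h6
        exact h5 h6
    have hq := hF.uniq _ hred
    have hp := cat_prod φ x (winv g ((ε, h) :: l)).1 (winv g ((ε, h) :: l)).2 (rw u')
    have h3 : wprod φ x ((winv g ((ε, h) :: l)).1, (winv g ((ε, h) :: l)).2) =
        (wprod φ x (g, (ε, h) :: l))⁻¹ := winv_prod φ x g _
    rw [h3, ← hu, hF.prod u, hF.prod u'] at hp
    rw [hp.1] at hq
    refine ⟨hq, ?_⟩
    rw [hq, hp.2, winv_length, hu]

end TK
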