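import Pool.Agent.TK.Targets3

set_option autoImplicit false

/-!
# TK-FH: elementary properties of the new subgroup
-/

namespace TK

open Subgroup

namespace FH_

variable {Γ Γ' : Type} [Group Γ] [Group Γ']

theorem lprod_rep (φ : Γ →* Γ') (x : Γ') (n : ℕ) :
    lprod φ x (List.replicate n (true, (1 : Γ))) = x ^ n := by
  induction n with
  | zero => simp [lprod]
  | succ n ih =>
    rw [List.replicate_succ, lprod, ih, pow_succ']
    simp [sg]

theorem rdc_rep (n : ℕ) : Rdc (List.replicate n (true, (1 : Γ))) := by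
  unfold Rdc
  induction n with
  | zero => simp
  | succ n ih =>
    rw [List.replicate_succ]
    cases n with
    | zero => simp
    | succ m =>
      rw [List.replicate_succ] at ih ⊢
      rw [List.isChain_cons_cons]
      exact ⟨fun _ => rfl, ih⟩

theorem rw_pow (φ : Γ →* Γ') (x : Γ') (rw : Γ' → Wd Γ) (h : FreeExt φ x rw) (n : ℕ) :
    rw (x ^ n) = (1, List.replicate n (true, (1 : Γ))) := by
  have h1 := h.uniq (1, List.replicate n (true, (1 : Γ))) (rdc_rep n)
  have h2 : wprod φ x (1, List.replicate n (true, (1 : Γ))) = x ^ n := by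
    unfold wprod
    rw [lprod_rep]
    simp
  rw [h2] at h1
  exact h1

theorem rd_rep (H : Subgroup Γ) (s t : Fin 5 → Γ) (n : ℕ) (ω : Γ ⧸ H) : ∀ ω' : Γ ⧸ H,
    Rd H s t 1 (List.replicate (n + 1) (true, (1 : Γ))) ω ω' →
    ∃ i, ω = QuotientGroup.mk (s i) := by
  induction n with
  | zero =>
    intro ω' h
    simp only [List.replicate, Rd] at h
    obtain ⟨ω1, ω2, h1, ⟨i, hi⟩, -⟩ := h
    rw [if_pos rfl] at hi
    refine ⟨i, ?_⟩
    rw [one_smul] at h1
    rw [← h1]
    exact hi.1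
  | succ n ih =>
    intro ω' h
    rw [List.replicate_succ, Rd] at h
    obtain ⟨ω1, ω2, h1, -, -⟩ := h
    exact ih ω1 h1

end FH_

open FH_ in
theorem p_FH (hRD : T_RD) (hFAPI : T_FAPI) : T_FH := by
  intro Γ Γ' _ _ φ x rw H s t hFS
  obtain ⟨hR1, -, -⟩ := hRD Γ Γ' φ x rw H s t hFS
  obtain ⟨hA1, -⟩ := hFAPI Γ Γ' φ x rw hFS.free
  refine ⟨?_, ?_, ?_⟩
  · intro g
    have h := hR1 (φ g) 1 1
    rw [map_one, inv_one, one_mul, mul_one, hA1 g] at h
    rw [h]
    simp only [Rd]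
    rw [show g • (QuotientGroup.mk (1 : Γ) : Γ ⧸ H) = QuotientGroup.mk g by
      rw [MulAction.Quotient.smul_mk, smul_eq_mul, mul_one], QuotientGroup.eq]
    simp
  · intro i
    apply Subgroup.subset_closure
    right
    exact ⟨i, rfl⟩
  · intro σ hσ
    have key : ∀ n : ℕ, (φ σ)⁻¹ * x ^ (n + 1) * φ σ ∉ Hn φ x H s t := by
      intro n hn
      rw [hR1 (x ^ (n + 1)) σ σ, rw_pow φ x rw hFS.free (n + 1)] at hn
      obtain ⟨i, hi⟩ := rd_rep H s t n _ _ hn
      apply hσ i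
      exact QuotientGroup.eq.1 hi.symm
    have key2 : ∀ i j : ℕ, i < j → (x ^ i * φ σ)⁻¹ * (x ^ j * φ σ) ∉ Hn φ x H s t := by
      intro i j hij
      obtain ⟨n, rfl⟩ : ∃ n, j = i + (n + 1) := ⟨j - i - 1, by omega⟩
      have h1 : (x ^ i * φ σ)⁻¹ * (x ^ (i + (n + 1)) * φ σ) = (φ σ)⁻¹ * x ^ (n + 1) * φ σ := by
        rw [pow_add x i (n + 1)]
        group
      rw [h1]
      exact key n
    intro i j hij
    rcases Nat.lt_or_gt_of_ne hij with h | h
    · exact key2 i j h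
    · intro hmem
      apply key2 j i h
      have h2 := (Hn φ x H s t).inv_mem hmem
      have h3 : ((x ^ i * φ σ)⁻¹ * (x ^ j * φ σ))⁻¹ = (x ^ j * φ σ)⁻¹ * (x ^ i * φ σ) := by
        group
      rwa [h3] at h2

end TK
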