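import Pool.Agent.TK.Targets3

set_option autoImplicit false
set_option linter.unusedVariables false

/-!
# TK-FIVE: at most five points have depth zero seen from `1` and from `w`
-/

namespace TK

open Subgroup

theorem p_FIVE (hRD : T_RD) (hFAPI : T_FAPI) : T_FIVE := by
  classical
  intro Γ Γ' _ _ φ x rw H s t hFS w hw
  obtain ⟨w0, l0⟩ : ∃ w0 l0, rw w = (w0, l0) := ⟨_, _, rfl⟩
  obtain ⟨l0, hw0⟩ := l0
  rcases l0 with _ | ⟨⟨ε, h⟩, l⟩
  · rw [hw0] at hw
    exact absurd rfl hw
  · refine ⟨Finset.univ.image fun i : Fin 5 =>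
      (QuotientGroup.mk (φ (w0 * (if ε then t i else s i))) : Γ' ⧸ Hn φ x H s t), ?_, ?_⟩
    · exact (Finset.card_image_le).trans (by simp)
    · intro g g' hg
      have h1 : (φ g)⁻¹ * w * φ g' ∈ Hn φ x H s t := by
        have := inv_mem hg
        have e : ((φ g')⁻¹ * w⁻¹ * φ g)⁻¹ = (φ g)⁻¹ * w * φ g' := by group
        rwa [e] at this
      rw [(hRD Γ Γ' φ x rw H s t hFS).1 w g' g, hw0] at h1
      obtain ⟨ω1, ω2, -, ⟨i, hX⟩, h3⟩ := h1
      rw [Finset.mem_image]
      refine ⟨i, Finset.mem_univ _, ?_⟩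
      have h4 : ω2 = QuotientGroup.mk (if ε then t i else s i) := by
        cases ε
        · simpa using hX.2
        · simpa using hX.2
      rw [h4] at h3
      have h5 : (QuotientGroup.mk g : Γ ⧸ H) =
          QuotientGroup.mk (w0 * (if ε then t i else s i)) := h3
      rw [eq_comm, QuotientGroup.eq] at h5
      rw [QuotientGroup.eq, ← map_inv, ← map_mul]
      exact subset_closure (Or.inl ⟨_, h5, rfl⟩)

end TK
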