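import Pool.Agent.TK.Targets3

set_option autoImplicit false
set_option linter.unusedVariables false

/-!
# TK-FQC: quasiconvexity of the new subgroup
-/

namespace TK

open Subgroup

namespace FQC_

section

variable {Γ V : Type} [Group Γ] [MulAction Γ V] {d : V → V → ℕ} {x0 : V}

/-- quadrilaterals -/
theorem quad (hd : Geo d) {δ : ℕ} (ht : Thin d δ)
    (hinv : ∀ (g : Γ) (x y : V), d (g • x) (g • y) = d x y) (H : Subgroup Γ) (κ R : ℕ)
    (hqc : ∀ h ∈ H, ∀ p, Btw d x0 p (h • x0) → ∃ h' ∈ H, d p (h' • x0) ≤ κ)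
    (σ σ' h : Γ) (hσ : d x0 (σ • x0) ≤ R) (hσ' : d x0 (σ' • x0) ≤ R) (hh : h ∈ H) (v : V)
    (hv : Btw d x0 v ((σ' * h * σ⁻¹) • x0)) :
    ∃ h' ∈ H, d v ((σ' * h') • x0) ≤ κ + 2 * δ + R := by
  have hR : d ((σ' * h) • x0) ((σ' * h * σ⁻¹) • x0) ≤ R := by
    rw [mul_smul (σ' * h) σ⁻¹, hinv]
    have := hinv σ x0 (σ⁻¹ • x0)
    rw [smul_inv_smul] at this
    rw [← this, hd.symm]
    exact hσ
  obtain ⟨q1, hq1, hvq1⟩ := ht x0 _ (σ' • x0) v hv
  rcases hq1 with hq1 | hq1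
  · refine ⟨1, H.one_mem, ?_⟩
    rw [mul_one]
    unfold Btw at hq1
    have h1 := hd.tri v q1 (σ' • x0)
    omega
  · obtain ⟨q2, hq2, hq12⟩ := ht (σ' • x0) _ ((σ' * h) • x0) q1 hq1
    rcases hq2 with hq2 | hq2
    · have h2 : Btw d x0 (σ'⁻¹ • q2) (h • x0) := by
        unfold Btw at hq2 ⊢
        have e1 := hinv σ' x0 (σ'⁻¹ • q2)
        have e2 := hinv σ' (σ'⁻¹ • q2) (h • x0)
        have e3 := hinv σ' x0 (h • x0)
        rw [smul_inv_smul] at e1 e2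
        rw [← mul_smul] at e2 e3
        omega
      obtain ⟨h', hh', hd'⟩ := hqc h hh _ h2
      refine ⟨h', hh', ?_⟩
      have e1 := hinv σ' (σ'⁻¹ • q2) (h' • x0)
      rw [smul_inv_smul, ← mul_smul] at e1
      have t1 := hd.tri v q1 ((σ' * h') • x0)
      have t2 := hd.tri q1 q2 ((σ' * h') • x0)
      omega
    · refine ⟨h, hh, ?_⟩
      unfold Btw at hq2
      have t1 := hd.tri v q1 ((σ' * h) • x0)
      have t2 := hd.tri q1 q2 ((σ' * h) • x0)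
      have t3 := hd.symm ((σ' * h) • x0) q2
      omega

end

end FQC_

open FQC_

theorem p_FQC (hTSTEP : T_TSTEP) (hRD : T_RD) (hFAPI : T_FAPI) : T_FQC := by
  intro Γ Γ' V X' _ _ _ _ φ x rw d x0 q D H s t κ hT hFS hA hqc
  have hd := hA.geo
  obtain ⟨δ, hδ⟩ := hA.thin
  have hinv := hA.inv
  obtain ⟨hstep1, hstep2⟩ := hTSTEP Γ Γ' V X' φ x rw d x0 q D hT hd hinv
  obtain ⟨hRD1, -, -⟩ := hRD Γ Γ' φ x rw H s t hFS
  obtain ⟨hF1, -⟩ := hFAPI Γ Γ' φ x rw hT.free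
  have hrw1 : rw 1 = (1, []) := by
    have := hF1 1
    rwa [map_one] at this
  -- distances in a copy
  have hcopy : ∀ (ζ : Γ') (u v : V), D (q ζ u) (q ζ v) = d u v := by
    intro ζ u v
    rw [hT.formula, inv_mul_cancel, hrw1]
    simp only [Ld, one_smul]
  have hDinv : ∀ (z : Γ') (p p' : X'), D (z • p) (z • p') = D p p' := by
    intro z p p'
    obtain ⟨g, v, rfl⟩ := hT.bal.surj p
    obtain ⟨g', v', rfl⟩ := hT.bal.surj p'
    rw [hT.bal.smul, hT.bal.smul, hT.formula, hT.formula]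
    have : (z * g)⁻¹ * (z * g') = g⁻¹ * g' := by group
    rw [this]
  -- the constant
  obtain ⟨R, hRs, hRt⟩ : ∃ R : ℕ, (∀ i, d x0 (s i • x0) ≤ R) ∧ ∀ i, d x0 (t i • x0) ≤ R := by
    refine ⟨(Finset.univ.sup fun i => d x0 (s i • x0)) + Finset.univ.sup fun i => d x0 (t i • x0),
      fun i => ?_, fun i => ?_⟩
    · have := Finset.le_sup (f := fun i => d x0 (s i • x0)) (Finset.mem_univ i)
      omega
    · have := Finset.le_sup (f := fun i => d x0 (t i • x0)) (Finset.mem_univ i)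
      omega
  have hR1 : d x0 ((1 : Γ) • x0) ≤ R := by rw [one_smul, hd.self]; omega
  have hHφ : ∀ h ∈ H, φ h ∈ Hn φ x H s t := fun h hh => subset_closure (Or.inl ⟨h, hh, rfl⟩)
  have hHx : ∀ i, (φ (t i))⁻¹ * x * φ (s i) ∈ Hn φ x H s t :=
    fun i => subset_closure (Or.inr ⟨i, rfl⟩)
  -- near points in the first copy
  have hfirst : ∀ (σ σ' g : Γ) (u : V), d x0 (σ • x0) ≤ R → d x0 (σ' • x0) ≤ R →
      σ'⁻¹ * (g * σ) ∈ H → Btw d x0 u (g • x0) →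
      ∃ ζ : Γ', (φ σ')⁻¹ * ζ ∈ Hn φ x H s t ∧ D (q 1 u) (q ζ x0) ≤ κ + 2 * δ + R := by
    intro σ σ' g u hσ hσ' hh hu
    have hg : g = σ' * (σ'⁻¹ * (g * σ)) * σ⁻¹ := by group
    rw [hg] at hu
    obtain ⟨h', hh', hd'⟩ := quad hd hδ hinv H κ R hqc σ σ' _ hσ hσ' hh u hu
    refine ⟨φ (σ' * h'), ?_, ?_⟩
    · rw [map_mul, inv_mul_cancel_left]
      exact hHφ h' hh'
    · have e1 := hT.bal.bal 1 (σ' * h') x0
      rw [one_mul] at e1
      rw [e1, hcopy]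
      exact hd'
  -- the induction
  have key : ∀ (l : List (Bool × Γ)) (g σ' : Γ), d x0 (σ' • x0) ≤ R → Rdc l →
      Rd H s t g l (QuotientGroup.mk 1) (QuotientGroup.mk σ') → ∀ p : X',
      Btw D (q 1 x0) p (q (wprod φ x (g, l)) x0) →
      ∃ ζ : Γ', (φ σ')⁻¹ * ζ ∈ Hn φ x H s t ∧ D p (q ζ x0) ≤ κ + 2 * δ + R := by
    intro l
    induction l with
    | nil =>
      intro g σ' hσ' _ hr p hp
      have e1 : wprod φ x (g, []) = φ g := by simp [wprod, lprod]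
      rw [e1] at hp
      obtain ⟨u, rfl, hu⟩ := hstep1 g x0 x0 p hp
      refine hfirst 1 σ' g u hR1 hσ' ?_ hu
      have h2 : (QuotientGroup.mk σ' : Γ ⧸ H) = QuotientGroup.mk (g * 1) := hr
      exact QuotientGroup.eq.1 h2
    | cons p1 l ih =>
      intro g σ' hσ' hl hr p hp
      obtain ⟨ω1, ω2, hr1, ⟨i, hx⟩, hr3⟩ := hr
      obtain ⟨σ1, σ2, hσ1, hσ2, rfl, rfl, hmem⟩ : ∃ σ1 σ2 : Γ, d x0 (σ1 • x0) ≤ R ∧
          d x0 (σ2 • x0) ≤ R ∧ ω1 = QuotientGroup.mk σ1 ∧ ω2 = QuotientGroup.mk σ2 ∧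
          (φ σ2)⁻¹ * sg x p1.1 * φ σ1 ∈ Hn φ x H s t := by
        by_cases hb : p1.1 = true
        · rw [if_pos hb] at hx
          refine ⟨s i, t i, hRs i, hRt i, hx.1, hx.2, ?_⟩
          rw [sg, if_pos hb]
          exact hHx i
        · rw [if_neg hb] at hx
          refine ⟨t i, s i, hRt i, hRs i, hx.1, hx.2, ?_⟩
          rw [sg, if_neg hb]
          have := (Hn φ x H s t).inv_mem (hHx i)
          have e : ((φ (t i))⁻¹ * x * φ (s i))⁻¹ = (φ (s i))⁻¹ * x⁻¹ * φ (t i) := by group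
          rwa [e] at this
      have hh : σ'⁻¹ * (g * σ2) ∈ H := by
        have h2 : (QuotientGroup.mk σ' : Γ ⧸ H) = QuotientGroup.mk (g * σ2) := hr3
        exact QuotientGroup.eq.1 h2
      rcases hstep2 g p1 l x0 x0 p hl hp with ⟨u, rfl, hu⟩ | ⟨p', rfl, hp'⟩
      · exact hfirst σ2 σ' g u hσ2 hσ' hh hu
      · have hl' : Rdc l := List.IsChain.tail hl
        obtain ⟨ζ1, hζ1, hd1⟩ := ih p1.2 σ1 hσ1 hl' hr1 p' hp'
        refine ⟨φ g * sg x p1.1 * ζ1, ?_, ?_⟩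
        · have e : (φ σ')⁻¹ * (φ g * sg x p1.1 * ζ1) = φ (σ'⁻¹ * (g * σ2)) *
              ((φ σ2)⁻¹ * sg x p1.1 * φ σ1) * ((φ σ1)⁻¹ * ζ1) := by
            simp only [map_mul, map_inv]
            group
          rw [e]
          exact mul_mem (mul_mem (hHφ _ hh) hmem) hζ1
        · rw [← hT.bal.smul, hDinv]
          exact hd1
  refine ⟨κ + 2 * δ + R, fun h hh p hp => ?_⟩
  have e1 : h • q 1 x0 = q h x0 := by rw [hT.bal.smul, mul_one]
  rw [e1] at hp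
  have hr : Rd H s t (rw h).1 (rw h).2 (QuotientGroup.mk 1) (QuotientGroup.mk 1) := by
    refine (hRD1 h 1 1).1 ?_
    rw [map_one, inv_one, one_mul, mul_one]
    exact hh
  have hprod : wprod φ x ((rw h).1, (rw h).2) = h := hT.free.prod h
  obtain ⟨ζ, hζ, hd'⟩ := key (rw h).2 (rw h).1 1 hR1 (hT.free.red h) hr p (by rw [hprod]; exact hp)
  refine ⟨ζ, ?_, ?_⟩
  · rwa [map_one, inv_one, one_mul] at hζ
  · rw [hT.bal.smul, mul_one]
    exact hd'

end TK
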