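import Pool.Agent.TK.Targets3

set_option autoImplicit false
set_option linter.unusedVariables false

namespace TK

open Subgroup

namespace FREE_

theorem lprod_mem {Γ Γ' : Type} [Group Γ] [Group Γ'] (φ : Γ →* Γ') (x : Γ')
    (l : List (Bool × Γ)) : lprod φ x l ∈ closure (Set.range φ ∪ {x}) := by
  induction l with
  | nil => exact one_mem _
  | cons p l ih =>
    have h1 : sg x p.1 ∈ closure (Set.range φ ∪ {x}) := by
      unfold sg
      split
      · exact subset_closure (Or.inr rfl)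
      · exact inv_mem (subset_closure (Or.inr rfl))
    exact mul_mem (mul_mem h1 (subset_closure (Or.inl ⟨_, rfl⟩))) ih

theorem conj_order {Γ Γ' : Type} [Group Γ] [Group Γ'] (φ : Γ →* Γ') (hφ : Function.Injective φ)
    (z : Γ') (g : Γ) : orderOf (z * φ g * z⁻¹) = orderOf g := by
  have h1 : z * φ g * z⁻¹ = MulAut.conj z (φ g) := rfl
  rw [h1, MulEquiv.orderOf_eq, orderOf_injective φ hφ]

theorem conj_fin {Γ Γ' : Type} [Group Γ] [Group Γ'] (φ : Γ →* Γ') (hφ : Function.Injective φ)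
    (z : Γ') (g : Γ) (h : IsOfFinOrder (z * φ g * z⁻¹)) : IsOfFinOrder g := by
  rw [← orderOf_pos_iff] at h ⊢
  rwa [conj_order φ hφ] at h

end FREE_

open FREE_

theorem p_FREE (hFEX : T_FEX) (hFAPI : T_FAPI) (hBAL : T_BAL) (hTDIST : T_TDIST)
    (hTTHIN : T_TTHIN) (hTGEO : T_TGEO) (hFQC : T_FQC) (hTORS : T_TORS) (hAFREE : T_AFREE)
    (hVFREE : T_VFREE) (hFH : T_FH) : T_FREE := by
  intro Γ instΓ H a b hG s t hs ht
  obtain ⟨Γ', instΓ', φ, x, rw_, hF⟩ := hFEX Γ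
  have hinj : Function.Injective φ := by
    have h1 := (hFAPI Γ Γ' φ x rw_ hF).1
    intro g g' h
    have h2 := h1 g
    have h3 := h1 g'
    rw [h] at h2
    have h4 := h2.symm.trans h3
    exact (Prod.ext_iff.1 h4).1
  obtain ⟨V, instV, d, x0, hgeo, hfix, κ, hqc⟩ := hG.act
  obtain ⟨X', instX', q, hq⟩ := hBAL Γ Γ' V φ hinj
  obtain ⟨D, hT⟩ := hTDIST Γ Γ' V X' φ x rw_ d x0 q hF hq hgeo.geo hgeo.inv
  have hFS : FS φ x rw_ H s t := ⟨hF, hs, ht⟩
  obtain ⟨κ', hκ'⟩ := hFQC Γ Γ' V X' φ x rw_ d x0 q D H s t κ hT hFS hgeo hqc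
  have hgeo' := hTGEO Γ Γ' V X' φ x rw_ d x0 q D hT hgeo
  obtain ⟨hT1, hT2⟩ := hTORS Γ Γ' φ x rw_ hF
  obtain ⟨hH1, hH2, hH3⟩ := hFH Γ Γ' φ x rw_ H s t hFS
  refine ⟨Γ', instΓ', φ, Hn φ x H s t, x, ?_, hH1, hH2, ?_, hH3⟩
  · constructor
    · refine ⟨X', instX', D, q 1 x0, hgeo', ?_, κ', fun h hh p hp => hκ' h hh p hp⟩
      intro u hu
      obtain ⟨z, g, rfl⟩ := hT1 u hu
      obtain ⟨v, hv⟩ := hfix g (conj_fin φ hinj z g hu)
      refine ⟨q z v, ?_⟩
      rw [hq.smul, show z * φ g * z⁻¹ * z = z * φ g by group, hq.bal, hv]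
    · intro u hu
      obtain ⟨z, g, rfl⟩ := hT1 u hu
      rw [conj_order φ hinj]
      exact hG.odd g (conj_fin φ hinj z g hu)
    · intro u hu1 hu
      obtain ⟨z, g, rfl⟩ := hT1 u hu
      have hg1 : g ≠ 1 := by
        rintro rfl
        exact hu1 (by simp)
      have hfin := hG.cent g hg1 (conj_fin φ hinj z g hu)
      refine (hfin.image (fun g' => z * φ g' * z⁻¹)).subset ?_
      intro y hy
      have hy' : y * (z * φ g * z⁻¹) = z * φ g * z⁻¹ * y := hy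
      have h1 : (z⁻¹ * y * z) * φ g = φ g * (z⁻¹ * y * z) := by
        calc (z⁻¹ * y * z) * φ g = z⁻¹ * (y * (z * φ g * z⁻¹)) * z := by group
          _ = z⁻¹ * (z * φ g * z⁻¹ * y) * z := by rw [hy']
          _ = φ g * (z⁻¹ * y * z) := by group
      obtain ⟨g', hg'⟩ := hT2 g hg1 _ h1
      refine ⟨g', ?_, ?_⟩
      · rw [hg', ← map_mul, ← map_mul] at h1
        exact hinj h1
      · simp only
        rw [← hg']
        group
    · rw [← map_pow, hG.a5, map_one]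
    · rw [← map_pow, hG.b3, map_one]
    · intro z
      exact hAFREE Γ Γ' φ x rw_ H s t hFS a hG.afree z
    · intro z
      exact hAFREE Γ Γ' φ x rw_ H s t hFS b hG.bfree z
    · exact hVFREE Γ Γ' φ x rw_ H s t hFS a b hG.a5 hG.b3 hG.afree hG.bfree hG.vfree
  · intro z
    rw [← hF.prod z]
    exact mul_mem (subset_closure (Or.inl ⟨_, rfl⟩)) (lprod_mem φ x _)

end TK
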