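import Pool.Agent.TK.Targets4

set_option autoImplicit false
set_option linter.unusedVariables false

/-!
# Project TK (MP_3ae405_al, `k = 5`): TK-K1, the infinite cyclic group has transitivity degree `1`
-/

namespace TK

namespace K1_

/-- an embedding of `Fin 2` from two distinct points -/
def emb {X : Type} (x y : X) (h : x ≠ y) : Fin 2 ↪ X where
  toFun := ![x, y]
  inj' := by
    intro i j hij
    fin_cases i <;> fin_cases j
    · rfl
    · exact absurd hij h
    · exact absurd hij (Ne.symm h)
    · rfl

end K1_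

theorem p_K1 : T_K1 := by
  refine ⟨Multiplicative ℤ, inferInstance, inferInstance, inferInstance,
    ⟨Multiplicative ℤ, inferInstance, ⟨⟨fun _ => 1, fun i j _ => Subsingleton.elim i j⟩⟩, ?_, ?_⟩,
    ?_⟩
  · intro g hg
    have := hg 1
    simpa using this
  · intro x y
    refine ⟨y 0 * (x 0)⁻¹, fun i => ?_⟩
    have hi : i = 0 := Subsingleton.elim i 0
    subst hi
    simp
  · intro X _ hne hf ht
    obtain ⟨e⟩ := hne
    have hxy : e 0 ≠ e 1 := fun h => by
      have := e.injective h
      exact absurd this (by decide)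
    obtain ⟨g, hg⟩ := ht (K1_.emb (e 0) (e 1) hxy) (K1_.emb (e 1) (e 0) hxy.symm)
    have h0 : g • e 0 = e 1 := hg 0
    have h1 : g • e 1 = e 0 := hg 1
    have h2 : (g * g) • e 0 = e 0 := by rw [mul_smul, h0, h1]
    have h3 : g * g = 1 := by
      refine hf _ fun z => ?_
      have hz : ∃ w, w ≠ z := by
        by_cases h : e 0 = z
        · exact ⟨e 1, fun h' => hxy (h.trans h'.symm)⟩
        · exact ⟨e 0, h⟩
      obtain ⟨w, hw⟩ := hz
      obtain ⟨k, hk⟩ := ht (K1_.emb (e 0) (e 1) hxy) (K1_.emb z w hw.symm)
      have hk0 : k • e 0 = z := hk 0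
      rw [← hk0, smul_smul, mul_comm (g * g) k, mul_smul, h2]
    have h4 : g = 1 := by
      have h5 : Multiplicative.toAdd g + Multiplicative.toAdd g = 0 := by
        rw [← toAdd_mul, h3, toAdd_one]
      have h6 : Multiplicative.toAdd g = 0 := by omega
      exact Multiplicative.toAdd.injective (by rw [h6, toAdd_one])
    rw [h4, one_smul] at h0
    exact hxy h0

end TK
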