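import Pool.Agent.TK.Targets4
import Pool.Agent.TD.Avoid

set_option autoImplicit false
set_option linter.unusedVariables false

/-!
# Project TK: an infinite countable group of transitivity degree `2`
-/

namespace TK

namespace K2_

open Pool.Agent.TD

/-- A group all of whose elements have finite order prime to `p` has no `m`-transitive action for
`m ≥ p`. -/
theorem no_action_of_tor {G : Type} [Group G] {p : ℕ} (hp : 2 ≤ p)
    (hG : ∀ g : G, ∃ n : ℕ, ¬ p ∣ n ∧ g ^ n = 1) {m : ℕ}
    (hm : p ≤ m) (X : Type) [MulAction G X] (hne : Nonempty (Fin m ↪ X))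
    (h : ∀ x y : Fin m ↪ X, ∃ g : G, ∀ i, g • x i = y i) : False := by
  obtain ⟨x⟩ := hne
  have hp0 : 0 < p := by omega
  let σ : Equiv.Perm (Fin m) := (finRotate p).viaFintypeEmbedding (Fin.castLEEmb hm)
  have hσ : ∀ i : Fin p, σ (Fin.castLE hm i) = Fin.castLE hm (finRotate p i) := fun i =>
    Equiv.Perm.viaFintypeEmbedding_apply_image _ (Fin.castLEEmb hm) i
  obtain ⟨g, hg⟩ := h x (σ.toEmbedding.trans x)
  obtain ⟨n, hn, hgn⟩ := hG g
  have h1 : ∀ (j : ℕ) (i : Fin p), g ^ j • x (Fin.castLE hm i) =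
      x (Fin.castLE hm (((finRotate p) ^ j) i)) := by
    intro j
    induction j with
    | zero => intro i; simp
    | succ j ih =>
      intro i
      rw [pow_succ, mul_smul, hg]
      show g ^ j • x (σ (Fin.castLE hm i)) = _
      rw [hσ, ih, pow_succ, Equiv.Perm.mul_apply]
  have h2 : ((finRotate p) ^ n) = 1 := by
    ext i
    have h3 := h1 n i
    rw [hgn, one_smul] at h3
    have h4 := Fin.castLE_injective hm (x.injective h3)
    rw [← h4]; rfl
  have h5 : orderOf (finRotate p) = p := by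
    obtain ⟨q, rfl⟩ : ∃ q, p = q + 2 := ⟨p - 2, by omega⟩
    have h6 := (isCycle_finRotate (n := q)).orderOf
    rw [h6, support_finRotate]
    simp
  have h7 := orderOf_dvd_of_pow_eq_one h2
  rw [h5] at h7
  exact hn h7

end K2_

open Pool.Agent.TD in
theorem p_K2 : T_K2 := by
  have hpr : (3 : ℕ).Prime := by norm_num
  have hloc : Local (avoid 3 hpr) 2 := local_avoid 3 hpr 1 (by omega) (by omega)
  obtain ⟨G, iG, hP, hinf, hcount, X, iX, hX, hfaith, htr⟩ :=
    exists_limit_faithful (avoid 3 hpr) 2 (by omega) hloc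
  have hemb : Nonempty (Fin 2 ↪ X) := ⟨Fin.valEmbedding.trans (Infinite.natEmbedding X)⟩
  exact ⟨G, iG, hinf, hcount, ⟨X, iX, hemb, hfaith, htr⟩, fun Y iY hne _ h =>
    K2_.no_action_of_tor (by omega) hP le_rfl Y hne h⟩

end TK
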