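import Pool.Agent.TK.Targets4

set_option autoImplicit false
set_option linter.unusedVariables false

/-!
# TK-K3: a group of transitivity degree 3
-/

namespace TK

namespace K3_

/-- the vector space -/
abbrev V := ℕ →₀ ZMod 2

/-- the affine group -/
abbrev Aff := V ≃ᵃ[ZMod 2] V

lemma add_self (v : V) : v + v = 0 := by
  ext i
  simp only [Finsupp.coe_add, Pi.add_apply, Finsupp.coe_zero, Pi.zero_apply]
  exact CharTwo.add_self_eq_zero _

lemma add_eq_zero {u v : V} (h : u + v = 0) : u = v := by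
  have := add_self v
  calc u = u + (v + v) := by rw [this, add_zero]
    _ = (u + v) + v := by rw [add_assoc]
    _ = v := by rw [h, zero_add]

/-- a transvection moving `a` to `a + c` and fixing a subspace -/
lemma exists_tv (W : Submodule (ZMod 2) V) (a c : V) (ha : a ∉ W) (hc : c ∈ W) :
    ∃ T : V ≃ₗ[ZMod 2] V, T a = a + c ∧ ∀ w ∈ W, T w = w := by
  obtain ⟨f, hf, hW⟩ := Submodule.exists_dual_map_eq_bot_of_notMem ha inferInstance
  have hW' : ∀ w ∈ W, f w = 0 := fun w hw => by
    have : f w ∈ W.map f := Submodule.mem_map_of_mem hw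
    rw [hW] at this
    exact (Submodule.mem_bot _).1 this
  have h1 : ∀ z : ZMod 2, z ≠ 0 → z = 1 := by decide
  refine ⟨LinearEquiv.transvection (hW' c hc), ?_, fun w hw => ?_⟩
  · rw [LinearEquiv.transvection.apply, h1 _ hf, one_smul]
  · rw [LinearEquiv.transvection.apply, hW' w hw, zero_smul, add_zero]

lemma exists_lin (u v u' v' : V) (hu : u ≠ 0) (hv : v ≠ 0) (huv : u ≠ v) (hu' : u' ≠ 0)
    (hv' : v' ≠ 0) (huv' : u' ≠ v') : ∃ T : V ≃ₗ[ZMod 2] V, T u = u' ∧ T v = v' := by
  have h2 : ∀ z : ZMod 2, z = 0 ∨ z = 1 := by decide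
  obtain ⟨T1, h1, -⟩ := exists_tv (Submodule.span (ZMod 2) {u + u'}) u (u + u') (by
    rw [Submodule.mem_span_singleton]
    rintro ⟨z, hz⟩
    rcases h2 z with rfl | rfl
    · rw [zero_smul] at hz; exact hu hz.symm
    · rw [one_smul] at hz
      exact hu' (by simpa using hz)) (Submodule.mem_span_singleton_self _)
  have h1' : T1 u = u' := by rw [h1, ← add_assoc, add_self, zero_add]
  have hv1 : T1 v ≠ 0 := fun h => hv (by simpa using h)
  have huv1 : u' ≠ T1 v := by
    rw [← h1']; exact fun h => huv (T1.injective h)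
  obtain ⟨T2, h3, h4⟩ := exists_tv (Submodule.span (ZMod 2) {u', T1 v + v'}) (T1 v) (T1 v + v') (by
    rw [Submodule.mem_span_pair]
    rintro ⟨z, w, hz⟩
    rcases h2 z with rfl | rfl <;> rcases h2 w with rfl | rfl
    · simp only [zero_smul, add_zero] at hz; exact hv1 hz.symm
    · simp only [zero_smul, zero_add, one_smul] at hz
      exact hv' (by simpa using hz)
    · simp only [zero_smul, add_zero, one_smul] at hz; exact huv1 hz
    · simp only [one_smul] at hz
      apply huv'
      apply add_eq_zero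
      have : u' + v' + T1 v = 0 + T1 v := by
        rw [zero_add]
        calc u' + v' + T1 v = u' + (T1 v + v') := by abel
          _ = T1 v := hz
      exact add_right_cancel this)
    (Submodule.subset_span (by simp))
  refine ⟨T1.trans T2, ?_, ?_⟩
  · rw [LinearEquiv.trans_apply, h1']
    exact h4 u' (Submodule.subset_span (by simp))
  · rw [LinearEquiv.trans_apply, h3, ← add_assoc, add_self, zero_add]

open Classical in
/-- the chosen linear maps -/
noncomputable def lin (x : V × V × V × V) : V ≃ₗ[ZMod 2] V :=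
  if h : ∃ T : V ≃ₗ[ZMod 2] V, T x.1 = x.2.2.1 ∧ T x.2.1 = x.2.2.2 then h.choose else 1

lemma lin_spec {u v u' v' : V} (hu : u ≠ 0) (hv : v ≠ 0) (huv : u ≠ v) (hu' : u' ≠ 0)
    (hv' : v' ≠ 0) (huv' : u' ≠ v') :
    lin (u, v, u', v') u = u' ∧ lin (u, v, u', v') v = v' := by
  have h : ∃ T : V ≃ₗ[ZMod 2] V, T (u, v, u', v').1 = (u, v, u', v').2.2.1 ∧
      T (u, v, u', v').2.1 = (u, v, u', v').2.2.2 := exists_lin u v u' v' hu hv huv hu' hv' huv'
  rw [lin, dif_pos h]
  exact h.choose_spec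

/-- generators -/
noncomputable def gen : V ⊕ (V × V × V × V) → Aff :=
  Sum.elim (fun c => AffineEquiv.constVAdd (ZMod 2) V c) fun x => (lin x).toAffineEquiv

/-- the group -/
noncomputable def GG : Subgroup Aff := (FreeGroup.lift gen).range

lemma gen_mem (x : V ⊕ (V × V × V × V)) : gen x ∈ GG := by
  refine ⟨FreeGroup.of x, ?_⟩
  rw [FreeGroup.lift_apply_of]

/-- translations -/
noncomputable def tr (c : V) : GG := ⟨gen (Sum.inl c), gen_mem _⟩

/-- linear maps -/
noncomputable def ln (x : V × V × V × V) : GG := ⟨gen (Sum.inr x), gen_mem _⟩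

lemma tr_app (c z : V) : ((tr c : GG) : Aff) z = c + z := rfl

lemma ln_app (x : V × V × V × V) (z : V) : ((ln x : GG) : Aff) z = lin x z := rfl

lemma GG_ext {g h : GG} (H : ∀ z : V, (g : Aff) z = (h : Aff) z) : g = h :=
  Subtype.ext (AffineEquiv.ext H)

lemma mul_app (g h : GG) (z : V) : ((g * h : GG) : Aff) z = (g : Aff) ((h : Aff) z) := rfl

lemma tr_add (c d : V) : tr (c + d) = tr c * tr d := by
  apply GG_ext
  intro z
  rw [mul_app, tr_app, tr_app, tr_app, add_assoc]

lemma tr_comm (c d : V) : tr c * tr d = tr d * tr c := by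
  rw [← tr_add, ← tr_add, add_comm]

lemma tr_zero : tr 0 = 1 := by
  apply GG_ext
  intro z
  rw [tr_app, zero_add]
  rfl

lemma tr_inj {c d : V} (h : tr c = tr d) : c = d := by
  have : ((tr c : GG) : Aff) 0 = ((tr d : GG) : Aff) 0 := by rw [h]
  rwa [tr_app, tr_app, add_zero, add_zero] at this

lemma tr_sq (c : V) : tr c * tr c = 1 := by
  rw [← tr_add, add_self, tr_zero]

lemma conj (g : GG) (c : V) : ∃ d, g * tr c = tr d * g := by
  refine ⟨(g : Aff).linear c, ?_⟩
  apply GG_ext
  intro z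
  rw [mul_app, mul_app, tr_app, tr_app]
  exact (g : Aff).map_vadd z c

noncomputable instance : MulAction GG V where
  smul g z := (g : Aff) z
  one_smul _ := rfl
  mul_smul _ _ _ := rfl

lemma smul_def (g : GG) (z : V) : g • z = (g : Aff) z := rfl

lemma trans3 (x y : Fin 3 ↪ V) : ∃ g : GG, ∀ i, g • x i = y i := by
  have hx : ∀ i j : Fin 3, i ≠ j → x i ≠ x j := fun i j h h' => h (x.injective h')
  have hy : ∀ i j : Fin 3, i ≠ j → y i ≠ y j := fun i j h h' => h (y.injective h')
  have nz : ∀ {a b : V}, a ≠ b → a + b ≠ 0 := fun h h' => h (add_eq_zero h')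
  have nz' : ∀ {a b c : V}, b ≠ c → a + b ≠ a + c := fun h h' => h (add_left_cancel h')
  obtain ⟨h1, h2⟩ := lin_spec (nz (hx 0 1 (by decide))) (nz (hx 0 2 (by decide)))
    (nz' (a := x 0) (hx 1 2 (by decide))) (nz (hy 0 1 (by decide))) (nz (hy 0 2 (by decide)))
    (nz' (a := y 0) (hy 1 2 (by decide)))
  refine ⟨tr (y 0) * ln (x 0 + x 1, x 0 + x 2, y 0 + y 1, y 0 + y 2) * tr (x 0), ?_⟩
  have key : ∀ i, (tr (y 0) * ln (x 0 + x 1, x 0 + x 2, y 0 + y 1, y 0 + y 2) * tr (x 0)) • x i =
      y 0 + lin (x 0 + x 1, x 0 + x 2, y 0 + y 1, y 0 + y 2) (x 0 + x i) := fun i => by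
    rw [smul_def, mul_app, mul_app, tr_app, tr_app, ln_app]
  intro i
  rw [key]
  fin_cases i
  · simp only [Fin.zero_eta, Fin.isValue]
    rw [add_self, LinearEquiv.map_zero, add_zero]
  · simp only [Fin.mk_one, Fin.isValue]
    rw [h1, ← add_assoc, add_self, zero_add]
  · simp only [Fin.reduceFinMk, Fin.isValue]
    rw [h2, ← add_assoc, add_self, zero_add]

/-- no faithful 4-transitive action -/
lemma not4 (X : Type) [MulAction GG X] (hX : Nonempty (Fin 4 ↪ X))
    (hf : ∀ g : GG, (∀ x : X, g • x = x) → g = 1)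
    (h4 : ∀ x y : Fin 4 ↪ X, ∃ g : GG, ∀ i, g • x i = y i) : False := by
  classical
  obtain ⟨e⟩ := hX
  have i4 : MulAction.IsMultiplyPretransitive GG X 4 := by
    rw [MulAction.isMultiplyPretransitive_iff]
    intro x y
    obtain ⟨g, hg⟩ := h4 x y
    exact ⟨g, Function.Embedding.ext hg⟩
  have hcard : ((4 : ℕ) : ℕ∞) ≤ ENat.card X := by
    have := ENat.card_le_card_of_injective e.injective
    simpa using this
  have i2 : MulAction.IsMultiplyPretransitive GG X 2 :=
    MulAction.isMultiplyPretransitive_of_le' (by norm_num) hcard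
  rw [MulAction.is_two_pretransitive_iff] at i2
  -- three vectors
  set b : ℕ → V := fun n => Finsupp.single n 1 with hb
  have b01 : b 0 ≠ b 1 := by
    intro h
    have := DFunLike.congr_fun h 0
    simp [hb] at this
  have b0 : b 0 ≠ 0 := by
    intro h
    have := DFunLike.congr_fun h 0
    simp [hb] at this
  have b1 : b 1 ≠ 0 := by
    intro h
    have := DFunLike.congr_fun h 1
    simp [hb] at this
  have b2 : b 2 ≠ 0 := by
    intro h
    have := DFunLike.congr_fun h 2
    simp [hb] at this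
  have b20 : b 2 ≠ b 0 := by
    intro h
    have := DFunLike.congr_fun h 2
    simp [hb] at this
  have b21 : b 2 ≠ b 1 := by
    intro h
    have := DFunLike.congr_fun h 2
    simp [hb] at this
  have b2s : b 0 + b 1 ≠ b 2 := by
    intro h
    have := DFunLike.congr_fun h 2
    simp [hb] at this
  -- transitivity of the translations
  have ht0 : tr (b 0) ≠ 1 := fun h => b0 (tr_inj (h.trans tr_zero.symm))
  obtain ⟨x, hx⟩ : ∃ x : X, tr (b 0) • x ≠ x := by
    by_contra h
    push Not at h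
    exact ht0 (hf _ h)
  have htr : ∀ y : X, ∃ c, tr c • x = y := by
    intro y
    by_cases hy : y = x
    · exact ⟨0, by rw [tr_zero, one_smul, hy]⟩
    · obtain ⟨g, hg1, hg2⟩ := i2 (Ne.symm hx) (Ne.symm hy)
      obtain ⟨d, hd⟩ := conj g (b 0)
      refine ⟨d, ?_⟩
      rw [← hg2, ← mul_smul, hd, mul_smul, hg1]
  -- regularity
  have hreg : ∀ c, tr c • x = x → c = 0 := by
    intro c hc
    apply tr_inj
    rw [tr_zero]
    apply hf
    intro y
    obtain ⟨d, rfl⟩ := htr y
    rw [← mul_smul, tr_comm, mul_smul, hc]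
  have hreg' : ∀ c d, tr c • x = tr d • x → c = d := by
    intro c d h
    apply add_eq_zero
    apply hreg
    rw [tr_add, mul_smul, ← h, ← mul_smul, tr_sq, one_smul]
  -- the four points
  have n0 : ∀ c, c ≠ 0 → tr c • x ≠ x := fun c hc h => hc (hreg c h)
  have n1 : ∀ c d, c ≠ d → tr c • x ≠ tr d • x := fun c d hc h => hc (hreg' c d h)
  have hs : b 0 + b 1 ≠ 0 := fun h => b01 (add_eq_zero h)
  have hs0 : b 0 + b 1 ≠ b 0 := fun h => b1 (by simpa using h)
  have hs1 : b 0 + b 1 ≠ b 1 := fun h => b0 (by simpa using h)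
  have mk : ∀ c, c ≠ 0 → c ≠ b 0 → c ≠ b 1 →
      Function.Injective (![x, tr (b 0) • x, tr (b 1) • x, tr c • x] : Fin 4 → X) := by
    intro c c0 c1 c2 i j hij
    fin_cases i <;> fin_cases j <;> first | rfl | (exfalso; simp at hij)
    · exact n0 _ b0 hij.symm
    · exact n0 _ b1 hij.symm
    · exact n0 _ c0 hij.symm
    · exact n0 _ b0 hij
    · exact n1 _ _ b01 hij
    · exact n1 _ _ c1 hij.symm
    · exact n0 _ b1 hij
    · exact n1 _ _ b01 hij.symm
    · exact n1 _ _ c2 hij.symm
    · exact n0 _ c0 hij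
    · exact n1 _ _ c1 hij
    · exact n1 _ _ c2 hij
  obtain ⟨g, hg⟩ := h4 ⟨_, mk (b 0 + b 1) hs hs0 hs1⟩ ⟨_, mk (b 2) b2 b20 b21⟩
  have g0 : g • x = x := hg 0
  have g1 : g • tr (b 0) • x = tr (b 0) • x := hg 1
  have g2 : g • tr (b 1) • x = tr (b 1) • x := hg 2
  have g3 : g • tr (b 0 + b 1) • x = tr (b 2) • x := hg 3
  have hfix : ∀ c, g • tr c • x = tr c • x → g * tr c = tr c * g := by
    intro c hc
    obtain ⟨d, hd⟩ := conj g c
    have : d = c := by
      apply hreg'
      rw [← hc, ← mul_smul g, hd, mul_smul, g0]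
    rw [hd, this]
  have e1 := hfix _ g1
  have e2 := hfix _ g2
  have e3 : g • tr (b 0 + b 1) • x = tr (b 0 + b 1) • x := by
    rw [tr_add, ← mul_smul, ← mul_assoc, e1, mul_assoc, e2, ← mul_assoc, mul_smul, g0]
  exact n1 _ _ b2s (e3.symm.trans g3)

end K3_

open K3_ in
theorem p_K3 : T_K3 := by
  refine ⟨GG, inferInstance, ?_, ?_, ?_, ?_⟩
  · exact Infinite.of_injective tr fun c d h => tr_inj h
  · have : Function.Surjective (FreeGroup.lift gen).rangeRestrict :=
      MonoidHom.rangeRestrict_surjective _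
    exact this.countable
  · refine ⟨V, inferInstance, ?_, ?_, trans3⟩
    · exact ⟨⟨fun i => Finsupp.single (i : ℕ) 1, fun i j h => by
        have := Finsupp.single_left_injective (one_ne_zero : (1 : ZMod 2) ≠ 0) h
        exact Fin.ext this⟩⟩
    · intro g hg
      exact GG_ext hg
  · intro X _ hX hf h4
    exact not4 X hX hf h4

end TK
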