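import Pool.Agent.TK.Defs

set_option autoImplicit false
set_option linter.unusedVariables false

/-!
# Project TK (MP_3ae405_al, `k = 5`): targets, block 4 (assembly)
-/

namespace TK

open Subgroup

/-- TK-BASE the first group -/
def T_BASE : Prop := Good (Multiplicative (ZMod 15)) ⊥ (Multiplicative.ofAdd (3 : ZMod 15))
  (Multiplicative.ofAdd (5 : ZMod 15))

/-- TK-UP the upper bound: permutation combinatorics -/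
def T_UP : Prop := ∀ (G X : Type) [Group G] [MulAction G X] [Infinite X] (a b : G),
  (∃ y : X, a • y ≠ y) → (∃ y : X, b • y ≠ y) → a ^ 5 = 1 → b ^ 3 = 1 →
  (∀ p q : Fin 6 ↪ X, ∃ g : G, ∀ i, g • p i = q i) →
  ∃ (x : G) (z : X), (vw a (x * b * x⁻¹)) ^ 2 • z = z ∧ vw a (x * b * x⁻¹) • z ≠ z

/-- the kill step (same as in Targets2) -/
def T_KILL' : Prop := ∀ (Γ : Type) [Group Γ] (H : Subgroup Γ) (a b : Γ), Good Γ H a b →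
  ∀ (w : Γ) (F : Finset Γ), (∀ f ∈ F, f ∉ H) →
  ∃ (Γ' : Type) (_ : Group Γ') (φ : Γ →* Γ') (H' : Subgroup Γ'), Good Γ' H' (φ a) (φ b) ∧
    Function.Surjective φ ∧ (∀ h ∈ H, φ h ∈ H') ∧ (∀ f ∈ F, φ f ∉ H') ∧
    ∃ n : ℕ, Odd n ∧ vw (φ a) (φ w * φ b * (φ w)⁻¹) ^ n = 1

/-- the free step (same as in Targets3) -/
def T_FREE' : Prop := ∀ (Γ : Type) [Group Γ] (H : Subgroup Γ) (a b : Γ), Good Γ H a b →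
  ∀ s t : Fin 5 → Γ, (∀ i j, i ≠ j → (s i)⁻¹ * s j ∉ H) → (∀ i j, i ≠ j → (t i)⁻¹ * t j ∉ H) →
  ∃ (Γ' : Type) (_ : Group Γ') (φ : Γ →* Γ') (H' : Subgroup Γ') (x : Γ'),
    Good Γ' H' (φ a) (φ b) ∧ (∀ g, φ g ∈ H' ↔ g ∈ H) ∧
    (∀ i, (φ (t i))⁻¹ * x * φ (s i) ∈ H') ∧
    (∀ z : Γ', z ∈ closure (Set.range φ ∪ {x})) ∧
    ∀ σ : Γ, (∀ i, (s i)⁻¹ * σ ∉ H) → ∀ i j : ℕ, i ≠ j →
      (x ^ i * φ σ)⁻¹ * (x ^ j * φ σ) ∉ H'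

/-- TK-MACRO one round of the construction -/
def T_MACRO : Prop := ∀ (Γ : Type) [Group Γ] (H : Subgroup Γ) (a b : Γ), Good Γ H a b →
  ∀ (w : Γ) (s t : Fin 5 → Γ) (P : Finset Γ), 6 ≤ P.card →
  (∀ p ∈ P, ∀ q ∈ P, p ≠ q → p⁻¹ * q ∉ H) →
  ∃ (Γ' : Type) (_ : Group Γ') (φ : Γ →* Γ') (H' : Subgroup Γ') (x : Γ'),
    Good Γ' H' (φ a) (φ b) ∧ (∀ h ∈ H, φ h ∈ H') ∧
    (∀ p ∈ P, ∀ q ∈ P, p ≠ q → (φ p)⁻¹ * φ q ∉ H') ∧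
    (∃ n : ℕ, Odd n ∧ vw (φ a) (φ w * φ b * (φ w)⁻¹) ^ n = 1) ∧
    (((∀ i j, i ≠ j → (φ (s i))⁻¹ * φ (s j) ∉ H') ∧ (∀ i j, i ≠ j → (φ (t i))⁻¹ * φ (t j) ∉ H')) →
      ∀ i, (φ (t i))⁻¹ * x * φ (s i) ∈ H') ∧
    ∃ (p : Γ) (k : ℕ), p ∈ P ∧ ∀ q ∈ P, (φ q)⁻¹ * (x ^ k * φ p) ∉ H'

/-- TK-ASM the limit -/
def T_ASM : Prop := ∃ L : Subgroup (FreeGroup ℕ),
  (∀ s t : Fin 5 → FreeGroup ℕ, (∀ i j, i ≠ j → (s i)⁻¹ * s j ∉ L) →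
    (∀ i j, i ≠ j → (t i)⁻¹ * t j ∉ L) → ∃ x, ∀ i, (t i)⁻¹ * x * s i ∈ L) ∧
  Infinite (FreeGroup ℕ ⧸ L) ∧
  (∀ g, g⁻¹ * (FreeGroup.of 0) ^ 5 * g ∈ L) ∧ (∀ g, g⁻¹ * (FreeGroup.of 1) ^ 3 * g ∈ L) ∧
  FreeGroup.of 0 ∉ L ∧ FreeGroup.of 1 ∉ L ∧
  ∀ w : FreeGroup ℕ, ∃ n : ℕ, Odd n ∧ ∀ g,
    g⁻¹ * (vw (FreeGroup.of 0) (w * FreeGroup.of 1 * w⁻¹)) ^ n * g ∈ L

/-- an infinite countable group of transitivity degree `k` -/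
def HasK (k : ℕ) : Prop :=
  ∃ (G : Type) (_ : Group G), Infinite G ∧ Countable G ∧
    (∃ (X : Type) (_ : MulAction G X), Nonempty (Fin k ↪ X) ∧
      (∀ g : G, (∀ x : X, g • x = x) → g = 1) ∧
      ∀ x y : Fin k ↪ X, ∃ g : G, ∀ i, g • x i = y i) ∧
    ∀ (X : Type) (_ : MulAction G X), Nonempty (Fin (k + 1) ↪ X) →
      (∀ g : G, (∀ x : X, g • x = x) → g = 1) →
      ¬ ∀ x y : Fin (k + 1) ↪ X, ∃ g : G, ∀ i, g • x i = y i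

/-- TK-K1, TK-K2, TK-K3, TK-K5 -/
def T_K1 : Prop := HasK 1
def T_K2 : Prop := HasK 2
def T_K3 : Prop := HasK 3
def T_K5 : Prop := HasK 5

end TK
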