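import Mathlib
import Pool.Agent.TK.Targets4

set_option autoImplicit false

/-!
# TK-K5: the group of transitivity degree five
-/

namespace TK

open Subgroup

namespace K5_

theorem map_vw {G G' : Type} [Group G] [Group G'] (φ : G →* G') (a b : G) :
    φ (vw a b) = vw (φ a) (φ b) := by
  simp only [vw, map_mul, map_inv]

/-- An element all of whose conjugates are in `L` acts trivially. -/
theorem hom_one {F : Type} [Group F] (L : Subgroup F) (u : F) (h : ∀ g, g⁻¹ * u * g ∈ L) :
    MulAction.toPermHom F (F ⧸ L) u = 1 := by
  ext x
  induction x using QuotientGroup.induction_on with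
  | H g =>
    rw [MulAction.toPermHom_apply, MulAction.toPerm_apply, Equiv.Perm.one_apply,
      MulAction.Quotient.smul_mk, smul_eq_mul]
    refine (QuotientGroup.eq.2 ?_).symm
    rw [← mul_assoc]
    exact h g

end K5_

open K5_

theorem p_K5 (hASM : T_ASM) (hUP : T_UP) : T_K5 := by
  obtain ⟨L, htr, hinf, ha5, hb3, haL, hbL, hv⟩ := hASM
  set F := FreeGroup ℕ with hF
  set X := F ⧸ L with hX
  set φ : F →* (MulAction.toPermHom F X).range := (MulAction.toPermHom F X).rangeRestrict with hφ
  have hφs : Function.Surjective φ := (MulAction.toPermHom F X).rangeRestrict_surjective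
  have hact : ∀ (f : F) (x : X), φ f • x = f • x := fun f x => rfl
  have hone : ∀ u : F, (∀ g, g⁻¹ * u * g ∈ L) → φ u = 1 := by
    intro u hu
    apply Subtype.ext
    exact hom_one L u hu
  have hne : ∀ u : F, u ∉ L → φ u ≠ 1 := by
    intro u hu h
    apply hu
    have h1 : φ u • ((1 : F) : X) = ((1 : F) : X) := by rw [h, one_smul]
    rw [hact, MulAction.Quotient.smul_mk, smul_eq_mul, mul_one] at h1
    have h2 := QuotientGroup.eq.1 h1.symm
    simpa using h2
  have hGinf : Infinite (MulAction.toPermHom F X).range := by
    refine Infinite.of_surjective (fun g : (MulAction.toPermHom F X).range => g • ((1 : F) : X)) ?_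
    intro x
    induction x using QuotientGroup.induction_on with
    | H g =>
      refine ⟨φ g, ?_⟩
      simp only
      rw [hact, MulAction.Quotient.smul_mk, smul_eq_mul, mul_one]
  refine ⟨(MulAction.toPermHom F X).range, inferInstance, hGinf, ?_, ?_, ?_⟩
  · exact hφs.countable
  · refine ⟨X, inferInstance, ?_, ?_, ?_⟩
    · exact ⟨(Fin.valEmbedding.trans (Infinite.natEmbedding X))⟩
    · intro g hg
      apply Subtype.ext
      ext x
      exact hg x
    · intro x y
      have hxs : ∀ i, ((x i).out : X) = x i := fun i => Quotient.out_eq' _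
      have hys : ∀ i, ((y i).out : X) = y i := fun i => Quotient.out_eq' _
      obtain ⟨z, hz⟩ := htr (fun i => (x i).out) (fun i => (y i).out)
        (fun i j hij h => by
          apply hij
          apply x.injective
          rw [← hxs i, ← hxs j]
          exact QuotientGroup.eq.2 h)
        (fun i j hij h => by
          apply hij
          apply y.injective
          rw [← hys i, ← hys j]
          exact QuotientGroup.eq.2 h)
      refine ⟨φ z, fun i => ?_⟩
      rw [hact, ← hxs i, ← hys i, MulAction.Quotient.smul_mk, smul_eq_mul]
      refine (QuotientGroup.eq.2 ?_).symm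
      rw [← mul_assoc]
      exact hz i
  · intro X' _ _ hfaith htrans
    have hX' : Infinite X' := by
      by_contra hfin
      rw [not_infinite_iff_finite] at hfin
      have : Finite (MulAction.toPermHom F X).range := by
        refine Finite.of_injective (MulAction.toPermHom (MulAction.toPermHom F X).range X') ?_
        rw [injective_iff_map_eq_one]
        intro g hg
        apply hfaith
        intro x
        have := congrArg (fun e : Equiv.Perm X' => e x) hg
        exact this
      exact not_finite (MulAction.toPermHom F X).range
    have hmove : ∀ u : F, u ∉ L → ∃ y : X', φ u • y ≠ y := by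
      intro u hu
      by_contra h
      push Not at h
      exact hne u hu (hfaith _ h)
    obtain ⟨x, z, hz1, hz2⟩ := hUP (MulAction.toPermHom F X).range X' (φ (FreeGroup.of 0))
      (φ (FreeGroup.of 1)) (hmove _ haL) (hmove _ hbL)
      (by rw [← map_pow]; exact hone _ ha5) (by rw [← map_pow]; exact hone _ hb3) htrans
    obtain ⟨w, rfl⟩ := hφs x
    obtain ⟨n, ⟨m, hm⟩, hn⟩ := hv w
    have h1 := hone _ hn
    rw [map_pow, map_vw, map_mul, map_mul, map_inv] at h1
    set v := vw (φ (FreeGroup.of 0)) (φ w * φ (FreeGroup.of 1) * (φ w)⁻¹) with hvdef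
    have h2 : ∀ k : ℕ, (v ^ 2) ^ k • z = z := by
      intro k
      induction k with
      | zero => rw [pow_zero, one_smul]
      | succ k ih => rw [pow_succ, mul_smul, hz1, ih]
    apply hz2
    have h3 : v ^ n • z = v • z := by
      rw [hm, pow_succ', pow_mul, mul_smul, h2]
    rw [h1, one_smul] at h3
    exact h3.symm

end TK
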