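import Pool.Agent.TK.Targets4

set_option autoImplicit false

/-!
# Project TK (MP_3ae405_al, `k = 5`): one round of the construction
-/

namespace TK

open Subgroup

namespace MACRO_

theorem map_vw {G G' : Type} [Group G] [Group G'] (φ : G →* G') (a b : G) :
    φ (vw a b) = vw (φ a) (φ b) := by
  simp [vw]

end MACRO_

open MACRO_ in
theorem p_MACRO (hKILL' : T_KILL') (hFREE' : T_FREE') : T_MACRO := by
  classical
  intro Γ _ H a b hG w s t P hP hPd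
  obtain ⟨Γ1, _, φ1, H1, hG1, hsurj, hH1, hF1, n, hn, hvn⟩ := hKILL' Γ H a b hG w
    (((P ×ˢ P).filter fun x => x.1 ≠ x.2).image fun x => x.1⁻¹ * x.2) (by
      intro f hf
      rw [Finset.mem_image] at hf
      obtain ⟨⟨p, q⟩, hx, rfl⟩ := hf
      rw [Finset.mem_filter, Finset.mem_product] at hx
      exact hPd p hx.1.1 q hx.1.2 hx.2)
  have hd1 : ∀ p ∈ P, ∀ q ∈ P, p ≠ q → (φ1 p)⁻¹ * φ1 q ∉ H1 := by
    intro p hp q hq hpq
    have := hF1 (p⁻¹ * q) (by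
      rw [Finset.mem_image]
      exact ⟨(p, q), by rw [Finset.mem_filter, Finset.mem_product]; exact ⟨⟨hp, hq⟩, hpq⟩, rfl⟩)
    rwa [map_mul, map_inv] at this
  have hst : ∃ s' t' : Fin 5 → Γ1, (∀ i j, i ≠ j → (s' i)⁻¹ * s' j ∉ H1) ∧
      (∀ i j, i ≠ j → (t' i)⁻¹ * t' j ∉ H1) ∧
      (((∀ i j, i ≠ j → (φ1 (s i))⁻¹ * φ1 (s j) ∉ H1) ∧
        (∀ i j, i ≠ j → (φ1 (t i))⁻¹ * φ1 (t j) ∉ H1)) →
        (∀ i, s' i = φ1 (s i)) ∧ ∀ i, t' i = φ1 (t i)) := by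
    by_cases h : (∀ i j, i ≠ j → (φ1 (s i))⁻¹ * φ1 (s j) ∉ H1) ∧
        (∀ i j, i ≠ j → (φ1 (t i))⁻¹ * φ1 (t j) ∉ H1)
    · exact ⟨fun i => φ1 (s i), fun i => φ1 (t i), h.1, h.2, fun _ => ⟨fun _ => rfl, fun _ => rfl⟩⟩
    · obtain ⟨Q, hQP, hQ⟩ := Finset.exists_subset_card_eq (show 5 ≤ P.card by omega)
      let e : Fin 5 ≃ Q := (Finset.equivFinOfCardEq hQ).symm
      have he : ∀ i j, i ≠ j → (φ1 (e i).1)⁻¹ * φ1 (e j).1 ∉ H1 := fun i j hij =>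
        hd1 _ (hQP (e i).2) _ (hQP (e j).2) fun h' => hij (e.injective (Subtype.ext h'))
      exact ⟨fun i => φ1 (e i).1, fun i => φ1 (e i).1, he, he, fun h' => absurd h' h⟩
  obtain ⟨s', t', hs', ht', hst'⟩ := hst
  obtain ⟨Γ2, _, φ2, H2, x, hG2, hiff, hx, -, hfree⟩ := hFREE' Γ1 H1 (φ1 a) (φ1 b) hG1 s' t' hs' ht'
  have hmem : ∀ g h : Γ, (φ2.comp φ1 g)⁻¹ * φ2.comp φ1 h ∈ H2 ↔ (φ1 g)⁻¹ * φ1 h ∈ H1 := by
    intro g h
    rw [← hiff, map_mul, map_inv]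
    rfl
  refine ⟨Γ2, inferInstance, φ2.comp φ1, H2, x, hG2, fun h hh => (hiff _).2 (hH1 h hh), ?_, ?_, ?_,
    ?_⟩
  · intro p hp q hq hpq h
    exact hd1 p hp q hq hpq ((hmem p q).1 h)
  · refine ⟨n, hn, ?_⟩
    have := congrArg φ2 hvn
    rw [map_pow, map_vw, map_one, map_mul, map_mul, map_inv] at this
    exact this
  · rintro ⟨h1, h2⟩ i
    have h3 := hst' ⟨fun i j hij h => h1 i j hij ((hmem _ _).2 h),
      fun i j hij h => h2 i j hij ((hmem _ _).2 h)⟩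
    have h4 := hx i
    rw [h3.1 i, h3.2 i] at h4
    exact h4
  · obtain ⟨p, hp, hps⟩ : ∃ p ∈ P, ∀ i, (s' i)⁻¹ * φ1 p ∉ H1 := by
      by_contra hne
      push Not at hne
      choose! c hc using hne
      obtain ⟨p, hp, q, hq, hpq, hcc⟩ := Finset.exists_ne_map_eq_of_card_lt_of_maps_to
        (s := P) (t := (Finset.univ : Finset (Fin 5))) (f := c) (by simp; omega)
        (fun _ _ => Finset.mem_univ _)
      refine hd1 p hp q hq hpq ?_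
      have h1 := H1.mul_mem (H1.inv_mem (hc p hp)) (hcc ▸ hc q hq)
      have h2 : ((s' (c p))⁻¹ * φ1 p)⁻¹ * ((s' (c p))⁻¹ * φ1 q) = (φ1 p)⁻¹ * φ1 q := by group
      rwa [h2] at h1
    have hk : ∃ k : ℕ, ∀ q ∈ P, (φ2.comp φ1 q)⁻¹ * (x ^ k * φ2.comp φ1 p) ∉ H2 := by
      by_contra hne
      push Not at hne
      choose c hc1 hc2 using hne
      obtain ⟨i, hi, j, hj, hij, hcc⟩ := Finset.exists_ne_map_eq_of_card_lt_of_maps_to
        (s := Finset.range (P.card + 1)) (t := P) (f := c) (by simp)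
        (fun i _ => hc1 i)
      refine hfree (φ1 p) hps i j hij ?_
      have h1 := H2.mul_mem (H2.inv_mem (hc2 i)) (hcc ▸ hc2 j)
      have h2 : ((φ2.comp φ1 (c i))⁻¹ * (x ^ i * φ2.comp φ1 p))⁻¹ *
          ((φ2.comp φ1 (c i))⁻¹ * (x ^ j * φ2.comp φ1 p)) =
          (x ^ i * φ2.comp φ1 p)⁻¹ * (x ^ j * φ2.comp φ1 p) := by group
      rw [h2] at h1
      exact h1
    obtain ⟨k, hk⟩ := hk
    exact ⟨p, k, hp, hk⟩

end TK
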