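import Pool.Agent.TK.Targets3

set_option autoImplicit false
set_option linter.unusedVariables false

/-! TK-RD: the subgroup `Hn` is the stabilizer of the partial action. -/

namespace TK

open Subgroup

namespace RD_

variable {Γ : Type} [Group Γ] {H : Subgroup Γ} {s t : Fin 5 → Γ}

lemma Xr_not (ε : Bool) (ω ω' : Γ ⧸ H) : Xr H s t (!ε) ω ω' ↔ Xr H s t ε ω' ω := by
  unfold Xr
  cases ε
  · simp only [Bool.not_false, if_true, Bool.false_eq_true, if_false]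
    exact exists_congr fun i => and_comm
  · simp only [Bool.not_true, if_true, Bool.false_eq_true, if_false]
    exact exists_congr fun i => and_comm

lemma Xr_func (hs : ∀ i j, i ≠ j → (s i)⁻¹ * s j ∉ H) (ht : ∀ i j, i ≠ j → (t i)⁻¹ * t j ∉ H)
    {ε : Bool} {a b b' : Γ ⧸ H} (h : Xr H s t ε a b) (h' : Xr H s t ε a b') : b = b' := by
  obtain ⟨i, hi⟩ := h
  obtain ⟨j, hj⟩ := h'
  cases ε
  · simp only [Bool.false_eq_true, if_false] at hi hj
    have h1 : (QuotientGroup.mk (t i) : Γ ⧸ H) = QuotientGroup.mk (t j) := by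
      rw [← hi.1, hj.1]
    have h2 : i = j := by
      by_contra hij
      exact ht i j hij (QuotientGroup.eq.mp h1)
    rw [hi.2, hj.2, h2]
  · simp only [if_true] at hi hj
    have h1 : (QuotientGroup.mk (s i) : Γ ⧸ H) = QuotientGroup.mk (s j) := by
      rw [← hi.1, hj.1]
    have h2 : i = j := by
      by_contra hij
      exact hs i j hij (QuotientGroup.eq.mp h1)
    rw [hi.2, hj.2, h2]

lemma Rd_mul (g h : Γ) (l : List (Bool × Γ)) (ω ω' : Γ ⧸ H) :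
    Rd H s t (g * h) l ω ω' ↔ ∃ ω1, Rd H s t h l ω ω1 ∧ ω' = g • ω1 := by
  cases l with
  | nil =>
    simp only [Rd]
    constructor
    · intro e
      exact ⟨_, rfl, by rw [e, mul_smul]⟩
    · rintro ⟨ω1, rfl, rfl⟩
      rw [mul_smul]
  | cons p l =>
    simp only [Rd]
    constructor
    · rintro ⟨ω1, ω2, h1, h2, rfl⟩
      exact ⟨h • ω2, ⟨ω1, ω2, h1, h2, rfl⟩, by rw [mul_smul]⟩
    · rintro ⟨_, ⟨ω1, ω2, h1, h2, rfl⟩, rfl⟩
      exact ⟨ω1, ω2, h1, h2, by rw [mul_smul]⟩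

lemma Rd_cat (g : Γ) (l : List (Bool × Γ)) (w : Wd Γ) (ω ω' : Γ ⧸ H) :
    Rd H s t (cat g l w).1 (cat g l w).2 ω ω' ↔
      ∃ ω1, Rd H s t w.1 w.2 ω ω1 ∧ Rd H s t g l ω1 ω' := by
  induction l generalizing g ω' with
  | nil =>
    rw [cat]
    exact Rd_mul g w.1 w.2 ω ω'
  | cons p l ih =>
    rw [cat]
    simp only [Rd]
    constructor
    · rintro ⟨ω1, ω2, h1, h2, h3⟩
      obtain ⟨ω3, h4, h5⟩ := (ih p.2 ω1).mp h1
      exact ⟨ω3, h4, ω1, ω2, h5, h2, h3⟩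
    · rintro ⟨ω3, h4, ω1, ω2, h5, h2, h3⟩
      exact ⟨ω1, ω2, (ih p.2 ω1).mpr ⟨ω3, h4, h5⟩, h2, h3⟩

lemma Rd_winv (g : Γ) (l : List (Bool × Γ)) (ω ω' : Γ ⧸ H) :
    Rd H s t (winv g l).1 (winv g l).2 ω ω' ↔ Rd H s t g l ω' ω := by
  induction l generalizing g ω with
  | nil =>
    simp only [winv, Rd]
    constructor
    · rintro rfl
      rw [smul_inv_smul]
    · rintro rfl
      rw [inv_smul_smul]
  | cons p l ih =>
    rw [winv, Rd_cat]
    simp only [Rd]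
    constructor
    · rintro ⟨ω1, ⟨a, b, rfl, h2, h3⟩, h4⟩
      rw [one_smul] at h3
      subst h3
      rw [Xr_not] at h2
      exact ⟨ω1, g⁻¹ • ω, (ih p.2 ω1).mp h4, h2, by rw [smul_inv_smul]⟩
    · rintro ⟨ω1, ω2, h1, h2, rfl⟩
      refine ⟨ω1, ⟨g⁻¹ • g • ω2, ω1, rfl, ?_, by rw [one_smul]⟩, (ih p.2 ω1).mpr h1⟩
      rw [Xr_not, inv_smul_smul]
      exact h2

variable {Γ' : Type} [Group Γ'] {φ : Γ →* Γ'} {x : Γ'} {rw_ : Γ' → Wd Γ}

lemma red_read (hFAPI : T_FAPI) (hF : FS φ x rw_ H s t) (g : Γ) (l : List (Bool × Γ))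
    (ω ω' : Γ ⧸ H) (h : Rd H s t g l ω ω') :
    Rd H s t (rw_ (wprod φ x (g, l))).1 (rw_ (wprod φ x (g, l))).2 ω ω' := by
  obtain ⟨f1, f2, f3, f4, -⟩ := hFAPI Γ Γ' φ x rw_ hF.free
  induction l generalizing g ω' with
  | nil =>
    have e1 : wprod φ x (g, []) = φ g := by simp [wprod, lprod]
    rw [e1, f1]
    exact h
  | cons p l ih =>
    obtain ⟨ε, h0⟩ := p
    simp only [Rd] at h
    obtain ⟨ω1, ω2, h1, h2, rfl⟩ := h
    have ih1 := ih h0 ω1 h1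
    have e1 : wprod φ x (g, (ε, h0) :: l) = φ g * (sg x ε * wprod φ x (h0, l)) := by
      simp [wprod, lprod, mul_assoc]
    rw [e1]
    generalize wprod φ x (h0, l) = z1 at ih1
    rw [f2, Rd_mul]
    refine ⟨ω2, ?_, rfl⟩
    by_cases hc : ∃ (h' : Γ) (l' : List (Bool × Γ)), rw_ z1 = (1, (!ε, h') :: l')
    · obtain ⟨h', l', hz⟩ := hc
      rw [f3 ε z1 h' l' hz]
      rw [hz] at ih1
      simp only [Rd] at ih1
      obtain ⟨ω3, ω4, h3, h4, h5⟩ := ih1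
      rw [one_smul] at h5
      subst h5
      rw [Xr_not] at h4
      rw [Xr_func hF.hs hF.ht h2 h4]
      exact h3
    · push Not at hc
      rw [f4 ε z1 hc]
      simp only [Rd]
      exact ⟨ω1, ω2, ih1, h2, by rw [one_smul]⟩

lemma read_mul (hFAPI : T_FAPI) (hF : FS φ x rw_ H s t) {z1 z2 : Γ'} {ω ω1 ω' : Γ ⧸ H}
    (h1 : Rd H s t (rw_ z1).1 (rw_ z1).2 ω1 ω') (h2 : Rd H s t (rw_ z2).1 (rw_ z2).2 ω ω1) :
    Rd H s t (rw_ (z1 * z2)).1 (rw_ (z1 * z2)).2 ω ω' := by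
  obtain ⟨-, -, -, -, f5, -⟩ := hFAPI Γ Γ' φ x rw_ hF.free
  have h3 := (Rd_cat (H := H) (s := s) (t := t) (rw_ z1).1 (rw_ z1).2 (rw_ z2) ω ω').mpr
    ⟨ω1, h2, h1⟩
  have h4 := red_read hFAPI hF _ _ _ _ h3
  have h5 := (f5 (rw_ z1).1 (rw_ z1).2 (rw_ z2)).1
  rw [Prod.mk.eta, h5, Prod.mk.eta, hF.free.prod, hF.free.prod] at h4
  exact h4

lemma read_inv (hFAPI : T_FAPI) (hF : FS φ x rw_ H s t) {z : Γ'} {ω ω' : Γ ⧸ H}
    (h1 : Rd H s t (rw_ z).1 (rw_ z).2 ω ω') :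
    Rd H s t (rw_ z⁻¹).1 (rw_ z⁻¹).2 ω' ω := by
  obtain ⟨-, -, -, -, -, f6, -⟩ := hFAPI Γ Γ' φ x rw_ hF.free
  have h3 := (Rd_winv (H := H) (s := s) (t := t) (rw_ z).1 (rw_ z).2 ω' ω).mpr h1
  have h4 := red_read hFAPI hF _ _ _ _ h3
  have h5 := (f6 (rw_ z).1 (rw_ z).2).1
  rw [Prod.mk.eta, h5, Prod.mk.eta, hF.free.prod] at h4
  exact h4

lemma read_phi (hFAPI : T_FAPI) (hF : FS φ x rw_ H s t) (g : Γ) (ω : Γ ⧸ H) :
    Rd H s t (rw_ (φ g)).1 (rw_ (φ g)).2 ω (g • ω) := by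
  obtain ⟨f1, -⟩ := hFAPI Γ Γ' φ x rw_ hF.free
  rw [f1]
  rfl

lemma mem_read (hFAPI : T_FAPI) (hF : FS φ x rw_ H s t) {z : Γ'} (hz : z ∈ Hn φ x H s t) :
    Rd H s t (rw_ z).1 (rw_ z).2 (QuotientGroup.mk 1) (QuotientGroup.mk 1) := by
  unfold Hn at hz
  induction hz using Subgroup.closure_induction with
  | mem z hz =>
    rcases hz with ⟨h, hh, rfl⟩ | ⟨i, rfl⟩
    · have h1 := read_phi hFAPI hF h (QuotientGroup.mk 1 : Γ ⧸ H)
      have h2 : h • (QuotientGroup.mk 1 : Γ ⧸ H) = QuotientGroup.mk 1 := by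
        rw [MulAction.Quotient.smul_mk]
        apply QuotientGroup.eq.mpr
        rw [smul_eq_mul, mul_one, mul_one]
        exact H.inv_mem hh
      rwa [h2] at h1
    · have h1 : Rd H s t (t i)⁻¹ [(true, s i)] (QuotientGroup.mk 1 : Γ ⧸ H)
          (QuotientGroup.mk 1) := by
        simp only [Rd]
        refine ⟨_, QuotientGroup.mk (t i), rfl, ⟨i, ?_⟩, ?_⟩
        · rw [if_pos rfl, MulAction.Quotient.smul_mk, smul_eq_mul, mul_one]
          exact ⟨rfl, rfl⟩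
        · rw [MulAction.Quotient.smul_mk, smul_eq_mul, inv_mul_cancel]
      have h2 := red_read hFAPI hF _ _ _ _ h1
      have h3 : wprod φ x ((t i)⁻¹, [(true, s i)]) = (φ (t i))⁻¹ * x * φ (s i) := by
        simp [wprod, lprod, sg, mul_assoc]
      rwa [h3] at h2
  | one =>
    have h1 := read_phi hFAPI hF 1 (QuotientGroup.mk 1 : Γ ⧸ H)
    rwa [one_smul, map_one] at h1
  | mul a b _ _ ha hb => exact read_mul hFAPI hF ha hb
  | inv a _ ha => exact read_inv hFAPI hF ha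

lemma mem_phi {h : Γ} (hh : h ∈ H) : φ h ∈ Hn φ x H s t :=
  Subgroup.subset_closure (Or.inl ⟨h, hh, rfl⟩)

lemma mem_gen (i : Fin 5) : (φ (t i))⁻¹ * x * φ (s i) ∈ Hn φ x H s t :=
  Subgroup.subset_closure (Or.inr ⟨i, rfl⟩)

lemma read_mem (g : Γ) (l : List (Bool × Γ)) (g1 g2 : Γ)
    (h : Rd H s t g l (QuotientGroup.mk g1) (QuotientGroup.mk g2)) :
    (φ g2)⁻¹ * wprod φ x (g, l) * φ g1 ∈ Hn φ x H s t := by
  induction l generalizing g g2 with
  | nil =>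
    simp only [Rd, MulAction.Quotient.smul_mk, smul_eq_mul] at h
    have h1 := mem_phi (φ := φ) (x := x) (s := s) (t := t) (QuotientGroup.eq.mp h)
    have h2 : (φ g2)⁻¹ * wprod φ x (g, []) * φ g1 = φ (g2⁻¹ * (g * g1)) := by
      simp [wprod, lprod, mul_assoc]
    rw [h2]
    exact h1
  | cons p l ih =>
    obtain ⟨ε, h0⟩ := p
    simp only [Rd] at h
    obtain ⟨ω1, ω2, h1, ⟨i, hi⟩, h3⟩ := h
    cases ε
    · simp only [Bool.false_eq_true, if_false] at hi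
      obtain ⟨rfl, rfl⟩ := hi
      rw [MulAction.Quotient.smul_mk, smul_eq_mul] at h3
      have a1 := mem_phi (φ := φ) (x := x) (s := s) (t := t) (QuotientGroup.eq.mp h3)
      have a2 := (Hn φ x H s t).inv_mem (mem_gen (φ := φ) (x := x) (H := H) (s := s) (t := t) i)
      have a3 := ih h0 (t i) h1
      have a4 := (Hn φ x H s t).mul_mem a1 ((Hn φ x H s t).mul_mem a2 a3)
      have a5 : (φ g2)⁻¹ * wprod φ x (g, (false, h0) :: l) * φ g1 =
          φ (g2⁻¹ * (g * s i)) * (((φ (t i))⁻¹ * x * φ (s i))⁻¹ *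
            ((φ (t i))⁻¹ * wprod φ x (h0, l) * φ g1)) := by
        simp only [wprod, lprod, sg, map_mul, map_inv, Bool.false_eq_true, if_false]
        group
      rw [a5]
      exact a4
    · simp only [if_true] at hi
      obtain ⟨rfl, rfl⟩ := hi
      rw [MulAction.Quotient.smul_mk, smul_eq_mul] at h3
      have a1 := mem_phi (φ := φ) (x := x) (s := s) (t := t) (QuotientGroup.eq.mp h3)
      have a2 := mem_gen (φ := φ) (x := x) (H := H) (s := s) (t := t) i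
      have a3 := ih h0 (s i) h1
      have a4 := (Hn φ x H s t).mul_mem a1 ((Hn φ x H s t).mul_mem a2 a3)
      have a5 : (φ g2)⁻¹ * wprod φ x (g, (true, h0) :: l) * φ g1 =
          φ (g2⁻¹ * (g * t i)) * (((φ (t i))⁻¹ * x * φ (s i)) *
            ((φ (s i))⁻¹ * wprod φ x (h0, l) * φ g1)) := by
        simp only [wprod, lprod, sg, map_mul, map_inv, if_true]
        group
      rw [a5]
      exact a4

end RD_

open RD_ in
theorem p_RD (hFAPI : T_FAPI) : T_RD := by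
  intro Γ Γ' _ _ φ x rw_ H s t hF
  refine ⟨fun z g g' => ⟨fun h => ?_, fun h => ?_⟩, fun g l w ω ω' => Rd_cat g l w ω ω',
    fun g l ω ω' => Rd_winv g l ω ω'⟩
  · have h1 := mem_read hFAPI hF h
    have h2 := read_phi hFAPI hF g⁻¹ (QuotientGroup.mk g : Γ ⧸ H)
    rw [MulAction.Quotient.smul_mk, smul_eq_mul, inv_mul_cancel] at h2
    have h3 := read_phi hFAPI hF g' (QuotientGroup.mk 1 : Γ ⧸ H)
    rw [MulAction.Quotient.smul_mk, smul_eq_mul, mul_one] at h3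
    have h4 := read_mul hFAPI hF h3 (read_mul hFAPI hF h1 h2)
    have h5 : φ g' * ((φ g')⁻¹ * z * φ g * φ g⁻¹) = z := by
      rw [map_inv]
      group
    rwa [h5] at h4
  · have h1 := read_mem (φ := φ) (x := x) (rw_ z).1 (rw_ z).2 g g' h
    rwa [Prod.mk.eta, hF.free.prod] at h1

end TK
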