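import Pool.Agent.TK.Targets1

set_option autoImplicit false
set_option linter.unusedVariables false

/-!
# TK-CONE: existence of the cone-off metric
-/

namespace TK

namespace CONE_

variable {V J : Type}

/-- the generating relation of the cone-off graph -/
def rl (d : V → V → ℕ) (Y : J → Set V) : V ⊕ J → V ⊕ J → Prop
  | Sum.inl x, Sum.inl y => d x y = 1
  | Sum.inl x, Sum.inr j => x ∈ Y j
  | Sum.inr _, _ => False

/-- the cone-off graph -/
def gr (d : V → V → ℕ) (Y : J → Set V) : SimpleGraph (V ⊕ J) := SimpleGraph.fromRel (rl d Y)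

theorem reach_inl {d : V → V → ℕ} (Y : J → Set V) (hd : Geo d) :
    ∀ (n : ℕ) (x y : V), d x y = n → (gr d Y).Reachable (Sum.inl x) (Sum.inl y) := by
  intro n
  induction n with
  | zero =>
    intro x y h
    rw [hd.eq x y h]
  | succ n ih =>
    intro x y h
    obtain ⟨z, hz1, hz2⟩ := hd.geod x y n (by omega)
    have h1 := ih x z hz1
    have hzy : d z y = 1 := by omega
    have h2 : (gr d Y).Adj (Sum.inl z) (Sum.inl y) := by
      unfold gr
      rw [SimpleGraph.fromRel_adj]
      refine ⟨?_, Or.inl hzy⟩
      intro he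
      have : z = y := Sum.inl.inj he
      subst this
      rw [hd.self] at hzy
      omega
    exact h1.trans h2.reachable

theorem preconn {d : V → V → ℕ} {Y : J → Set V} (hd : Geo d) (hY : ∀ j, (Y j).Nonempty) :
    (gr d Y).Preconnected := by
  have h1 : ∀ u : V ⊕ J, ∃ x : V, (gr d Y).Reachable u (Sum.inl x) := by
    intro u
    rcases u with x | j
    · exact ⟨x, SimpleGraph.Reachable.refl _⟩
    · obtain ⟨y, hy⟩ := hY j
      refine ⟨y, SimpleGraph.Adj.reachable ?_⟩
      unfold gr
      rw [SimpleGraph.fromRel_adj]
      exact ⟨by simp, Or.inr hy⟩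
  intro u w
  obtain ⟨x, hx⟩ := h1 u
  obtain ⟨y, hy⟩ := h1 w
  exact (hx.trans (reach_inl Y hd _ x y rfl)).trans hy.symm

theorem geo_dist {W : Type} (G : SimpleGraph W) (hG : G.Preconnected) :
    Geo (fun u w => G.dist u w) where
  self := fun x => SimpleGraph.dist_self
  eq := fun x y h => by
    have := (hG x y).dist_eq_zero_iff.1 h
    exact this
  symm := fun x y => SimpleGraph.dist_comm
  tri := fun x y z => by
    have hne : Nonempty W := ⟨x⟩
    have hc : G.Connected := ⟨hG⟩
    exact hc.dist_triangle
  geod := fun x y n hn => by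
    have hne : Nonempty W := ⟨x⟩
    have hc : G.Connected := ⟨hG⟩
    obtain ⟨p, hp⟩ := hc.exists_walk_length_eq_dist x y
    have h1 : G.dist x (p.getVert n) ≤ (p.take n).length := SimpleGraph.dist_le _
    have h2 : G.dist (p.getVert n) y ≤ (p.drop n).length := SimpleGraph.dist_le _
    have h3 : G.dist x y ≤ G.dist x (p.getVert n) + G.dist (p.getVert n) y := hc.dist_triangle
    have h4 : (p.take n).length ≤ n := by
      rw [SimpleGraph.Walk.take_length]
      exact min_le_left _ _
    have h5 : (p.drop n).length = p.length - n := SimpleGraph.Walk.drop_length _ _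
    have hn' : n ≤ G.dist x y := hn
    refine ⟨p.getVert n, ?_, ?_⟩
    · show G.dist x (p.getVert n) = n
      omega
    · show n + G.dist (p.getVert n) y = G.dist x y
      omega

end CONE_

open CONE_ in
theorem p_CONE : T_CONE := by
  intro V J d Y hd hY
  refine ⟨fun u w => (gr d Y).dist u w, geo_dist _ (preconn hd hY), ?_, ?_, ?_⟩
  · intro x y
    rw [SimpleGraph.dist_eq_one_iff_adj]
    unfold gr
    rw [SimpleGraph.fromRel_adj]
    constructor
    · rintro ⟨-, h | h⟩
      · exact h
      · rw [hd.symm]
        exact h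
    · intro h
      refine ⟨?_, Or.inl h⟩
      intro he
      have : x = y := Sum.inl.inj he
      subst this
      rw [hd.self] at h
      omega
  · intro x j
    rw [SimpleGraph.dist_eq_one_iff_adj]
    unfold gr
    rw [SimpleGraph.fromRel_adj]
    constructor
    · rintro ⟨-, h | h⟩
      · exact h
      · exact h.elim
    · intro h
      exact ⟨by simp, Or.inl h⟩
  · intro i j h
    rw [SimpleGraph.dist_eq_one_iff_adj] at h
    unfold gr at h
    rw [SimpleGraph.fromRel_adj] at h
    rcases h.2 with h | h
    · exact h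
    · exact h

end TK
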