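import Pool.Agent.TK.Targets3
import Pool.Agent.TK.CONE

set_option autoImplicit false
set_option linter.unusedVariables false

/-!
# Project TK (MP_3ae405_al, `k = 5`): target TK-TDIST, the metric of the tree of spaces
-/

namespace TK

open Subgroup

namespace TDIST_

variable {Γ Γ' V X' : Type} [Group Γ] [Group Γ'] [MulAction Γ V] [MulAction Γ' X']

/-- the generating relation of the graph -/
def rl (x : Γ') (d : V → V → ℕ) (x0 : V) (q : Γ' → V → X') (p p' : X') : Prop :=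
  (∃ (g : Γ') (v v' : V), d v v' = 1 ∧ p = q g v ∧ p' = q g v') ∨
  ∃ g : Γ', p = q g x0 ∧ p' = q (g * x) x0

/-- the graph -/
def gr (x : Γ') (d : V → V → ℕ) (x0 : V) (q : Γ' → V → X') : SimpleGraph X' :=
  SimpleGraph.fromRel (rl x d x0 q)

/-- distance at most `n` -/
def Rn (G : SimpleGraph X') (n : ℕ) (p p' : X') : Prop := ∃ w : G.Walk p p', w.length ≤ n

omit [MulAction Γ' X'] in
theorem Rn.refl (G : SimpleGraph X') (n : ℕ) (p : X') : Rn G n p p :=
  ⟨SimpleGraph.Walk.nil, Nat.zero_le _⟩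

omit [MulAction Γ' X'] in
theorem Rn.trans {G : SimpleGraph X'} {n m : ℕ} {p p' p'' : X'} (h : Rn G n p p')
    (h' : Rn G m p' p'') : Rn G (n + m) p p'' := by
  obtain ⟨w, hw⟩ := h
  obtain ⟨w', hw'⟩ := h'
  exact ⟨w.append w', by rw [SimpleGraph.Walk.length_append]; omega⟩

omit [MulAction Γ' X'] in
theorem Rn.adj {G : SimpleGraph X'} {p p' : X'} (h : p ≠ p' → G.Adj p p') : Rn G 1 p p' := by
  by_cases he : p = p'
  · rw [he]
    exact Rn.refl _ _ _
  · exact ⟨(h he).toWalk, by simp⟩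

section

variable {x : Γ'} {d : V → V → ℕ} {x0 : V} {q : Γ' → V → X'}

theorem copy_le (hd : Geo d) (g : Γ') : ∀ (n : ℕ) (v v' : V), d v v' = n →
    Rn (gr x d x0 q) n (q g v) (q g v') := by
  intro n
  induction n with
  | zero =>
    intro v v' h
    rw [hd.eq v v' h]
    exact Rn.refl _ _ _
  | succ n ih =>
    intro v v' h
    obtain ⟨z, hz1, hz2⟩ := hd.geod v v' n (by omega)
    have h1 := ih v z hz1
    have hzy : d z v' = 1 := by omega
    refine h1.trans (Rn.adj fun hne => ?_)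
    unfold gr
    rw [SimpleGraph.fromRel_adj]
    exact ⟨hne, Or.inl (Or.inl ⟨g, z, v', hzy, rfl, rfl⟩)⟩

theorem bridge_le (g : Γ') (ε : Bool) :
    Rn (gr x d x0 q) 1 (q g x0) (q (g * sg x ε) x0) := by
  refine Rn.adj fun hne => ?_
  unfold gr
  rw [SimpleGraph.fromRel_adj]
  refine ⟨hne, ?_⟩
  cases ε
  · right
    right
    exact ⟨g * sg x false, rfl, by simp [sg]⟩
  · left
    right
    exact ⟨g, rfl, by simp [sg]⟩

theorem upper {φ : Γ →* Γ'} (hB : IsBal φ q) (hd : Geo d) : ∀ (l : List (Bool × Γ)) (g0 : Γ)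
    (g : Γ') (v v' : V),
    Rn (gr x d x0 q) (Ld d x0 v g0 l v') (q g v) (q (g * wprod φ x (g0, l)) v') := by
  intro l
  induction l with
  | nil =>
    intro g0 g v v'
    have h1 : q (g * wprod φ x (g0, [])) v' = q g (g0 • v') := by
      simp only [wprod, lprod, mul_one]
      exact hB.bal g g0 v'
    rw [h1]
    exact copy_le hd g _ _ _ rfl
  | cons p l ih =>
    intro g0 g v v'
    have h1 : Rn (gr x d x0 q) (d v (g0 • x0)) (q g v) (q (g * φ g0) x0) := by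
      rw [hB.bal g g0 x0]
      exact copy_le hd g _ _ _ rfl
    have h2 : Rn (gr x d x0 q) 1 (q (g * φ g0) x0) (q (g * φ g0 * sg x p.1) x0) :=
      bridge_le _ _
    have h3 := ih p.2 (g * φ g0 * sg x p.1) x0 v'
    have h4 : g * φ g0 * sg x p.1 * wprod φ x (p.2, l) = g * wprod φ x (g0, p :: l) := by
      simp only [wprod, lprod, mul_assoc]
    rw [h4] at h3
    exact (h1.trans h2).trans h3

end

section

variable {φ : Γ →* Γ'} {x : Γ'} {rw : Γ' → Wd Γ} {d : V → V → ℕ} {x0 : V} {q : Γ' → V → X'}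

/-- the distance formula -/
def Lz (rw : Γ' → Wd Γ) (d : V → V → ℕ) (x0 : V) (z : Γ') (v v' : V) : ℕ :=
  Ld d x0 v (rw z).1 (rw z).2 v'

omit [Group Γ'] in
theorem ld_smul (hinv : ∀ (g : Γ) (v v' : V), d (g • v) (g • v') = d v v') (γ g0 : Γ)
    (l : List (Bool × Γ)) (v v' : V) :
    Ld d x0 (γ • v) (γ * g0) l v' = Ld d x0 v g0 l v' := by
  cases l with
  | nil => simp only [Ld, mul_smul, hinv]
  | cons p l => simp only [Ld, mul_smul, hinv]

theorem lz_smul (h2 : ∀ (g : Γ) (z : Γ'), rw (φ g * z) = (g * (rw z).1, (rw z).2))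
    (hinv : ∀ (g : Γ) (v v' : V), d (g • v) (g • v') = d v v') (γ : Γ) (z : Γ') (v v' : V) :
    Lz rw d x0 (φ γ * z) (γ • v) v' = Lz rw d x0 z v v' := by
  unfold Lz
  rw [h2]
  exact ld_smul hinv _ _ _ _ _

theorem lz_wd (hB : IsBal φ q) (h2 : ∀ (g : Γ) (z : Γ'), rw (φ g * z) = (g * (rw z).1, (rw z).2))
    (hinv : ∀ (g : Γ) (v v' : V), d (g • v) (g • v') = d v v') {g g1 : Γ'} {v v1 : V}
    (h : q g v = q g1 v1) (k : Γ') (v' : V) :
    Lz rw d x0 (g⁻¹ * k) v v' = Lz rw d x0 (g1⁻¹ * k) v1 v' := by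
  obtain ⟨γ, rfl, rfl⟩ := hB.inj g g1 v v1 h
  rw [← lz_smul (x0 := x0) h2 hinv γ ((g * φ γ)⁻¹ * k) v1 v']
  congr 1
  group

omit [Group Γ'] in
theorem ld_lip (hd : Geo d) (g0 : Γ) (l : List (Bool × Γ)) (v w v' : V) :
    Ld d x0 v g0 l v' ≤ d v w + Ld d x0 w g0 l v' := by
  cases l with
  | nil =>
    simp only [Ld]
    exact hd.tri _ _ _
  | cons p l =>
    simp only [Ld]
    have := hd.tri v w (g0 • x0)
    omega

theorem bridge (hd : Geo d)
    (h3 : ∀ (ε : Bool) (z : Γ') (h : Γ) (l : List (Bool × Γ)), rw z = (1, (!ε, h) :: l) →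
      rw (sg x ε * z) = (h, l))
    (h4 : ∀ (ε : Bool) (z : Γ'), (∀ (h : Γ) (l : List (Bool × Γ)), rw z ≠ (1, (!ε, h) :: l)) →
      rw (sg x ε * z) = (1, (ε, (rw z).1) :: (rw z).2)) (ε : Bool) (z : Γ') (v' : V) :
    Lz rw d x0 (sg x ε * z) x0 v' ≤ Lz rw d x0 z x0 v' + 1 ∧
      Lz rw d x0 z x0 v' ≤ Lz rw d x0 (sg x ε * z) x0 v' + 1 := by
  by_cases hc : ∃ (h : Γ) (l : List (Bool × Γ)), rw z = (1, (!ε, h) :: l)
  · obtain ⟨h, l, hz⟩ := hc
    have h5 := h3 ε z h l hz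
    unfold Lz
    rw [h5, hz]
    simp only [Ld, one_smul, hd.self]
    omega
  · push Not at hc
    have h5 := h4 ε z hc
    unfold Lz
    rw [h5]
    simp only [Ld, one_smul, hd.self]
    omega

theorem lower (hB : IsBal φ q) (hd : Geo d)
    (hinv : ∀ (g : Γ) (v v' : V), d (g • v) (g • v') = d v v')
    (h2 : ∀ (g : Γ) (z : Γ'), rw (φ g * z) = (g * (rw z).1, (rw z).2))
    (h3 : ∀ (ε : Bool) (z : Γ') (h : Γ) (l : List (Bool × Γ)), rw z = (1, (!ε, h) :: l) →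
      rw (sg x ε * z) = (h, l))
    (h4 : ∀ (ε : Bool) (z : Γ'), (∀ (h : Γ) (l : List (Bool × Γ)), rw z ≠ (1, (!ε, h) :: l)) →
      rw (sg x ε * z) = (1, (ε, (rw z).1) :: (rw z).2)) (k : Γ') (v' : V) {p p' : X'}
    (w : (gr x d x0 q).Walk p p') : ∀ (g : Γ') (v : V), p = q g v → ∀ (g' : Γ') (u : V),
    p' = q g' u → Lz rw d x0 (g⁻¹ * k) v v' ≤ w.length + Lz rw d x0 (g'⁻¹ * k) u v' := by
  induction w with
  | nil =>
    intro g v hp g' u hp'
    rw [lz_wd hB h2 hinv (hp.symm.trans hp') k v']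
    omega
  | cons hadj w ih =>
    intro g v hp g' u hp'
    rw [SimpleGraph.Walk.length_cons]
    unfold gr at hadj
    rw [SimpleGraph.fromRel_adj] at hadj
    rcases hadj.2 with (⟨g1, v1, w1, hdv, e1, e2⟩ | ⟨g1, e1, e2⟩) |
      (⟨g1, w1, v1, hdv, e2, e1⟩ | ⟨g1, e2, e1⟩)
    · have h5 := ih g1 w1 e2 g' u hp'
      rw [lz_wd hB h2 hinv (hp.symm.trans e1) k v']
      have h6 := ld_lip (x0 := x0) hd (rw (g1⁻¹ * k)).1 (rw (g1⁻¹ * k)).2 v1 w1 v'
      unfold Lz at h5 ⊢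
      omega
    · have h5 := ih (g1 * x) x0 e2 g' u hp'
      rw [lz_wd hB h2 hinv (hp.symm.trans e1) k v']
      have h6 := (bridge (x0 := x0) hd h3 h4 false (g1⁻¹ * k) v').2
      have h7 : sg x false * (g1⁻¹ * k) = (g1 * x)⁻¹ * k := by simp [sg, mul_assoc]
      rw [h7] at h6
      omega
    · have h5 := ih g1 w1 e2 g' u hp'
      rw [lz_wd hB h2 hinv (hp.symm.trans e1) k v']
      have h6 := ld_lip (x0 := x0) hd (rw (g1⁻¹ * k)).1 (rw (g1⁻¹ * k)).2 v1 w1 v'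
      have h7 := hd.symm v1 w1
      unfold Lz at h5 ⊢
      omega
    · have h5 := ih g1 x0 e2 g' u hp'
      rw [lz_wd hB h2 hinv (hp.symm.trans e1) k v']
      have h6 := (bridge (x0 := x0) hd h3 h4 false (g1⁻¹ * k) v').1
      have h7 : sg x false * (g1⁻¹ * k) = (g1 * x)⁻¹ * k := by simp [sg, mul_assoc]
      rw [h7] at h6
      omega

end

end TDIST_

open TDIST_ in
theorem p_TDIST (hFAPI : T_FAPI) : T_TDIST := by
  intro Γ Γ' V X' _ _ _ _ φ x rw d x0 q hF hB hd hinv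
  obtain ⟨h1, h2, h3, h4, _⟩ := hFAPI Γ Γ' φ x rw hF
  have hup : ∀ (g h : Γ') (v v' : V), Rn (gr x d x0 q)
      (Ld d x0 v (rw (g⁻¹ * h)).1 (rw (g⁻¹ * h)).2 v') (q g v) (q h v') := by
    intro g h v v'
    have h5 := upper (x := x) (x0 := x0) hB hd (rw (g⁻¹ * h)).2 (rw (g⁻¹ * h)).1 g v v'
    have h6 : wprod φ x ((rw (g⁻¹ * h)).1, (rw (g⁻¹ * h)).2) = g⁻¹ * h := hF.prod (g⁻¹ * h)
    rw [h6, mul_inv_cancel_left] at h5
    exact h5
  have hpre : (gr x d x0 q).Preconnected := by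
    intro p p'
    obtain ⟨g, v, rfl⟩ := hB.surj p
    obtain ⟨h, v', rfl⟩ := hB.surj p'
    obtain ⟨w, _⟩ := hup g h v v'
    exact ⟨w⟩
  refine ⟨fun p p' => (gr x d x0 q).dist p p', hF, hB, CONE_.geo_dist _ hpre, ?_⟩
  intro g h v v'
  apply le_antisymm
  · obtain ⟨w, hw⟩ := hup g h v v'
    exact (SimpleGraph.dist_le w).trans hw
  · obtain ⟨w, hw⟩ := (hpre (q g v) (q h v')).exists_walk_length_eq_dist
    have h5 := lower hB hd hinv h2 h3 h4 h v' w g v rfl h v' rfl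
    have h6 : Lz rw d x0 (h⁻¹ * h) v' v' = 0 := by
      unfold Lz
      have h7 := h1 1
      rw [map_one] at h7
      rw [inv_mul_cancel, h7]
      simp only [Ld, one_smul, hd.self]
    rw [h6, hw] at h5
    exact h5

end TK
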