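import Pool.Agent.TK.Targets3

set_option autoImplicit false
set_option linter.unusedVariables false

/-!
# TK-TG: abstract thinness lemma
-/

namespace TK

theorem p_TG : T_TG := by
  intro X β D δ hD h x y z p hp
  obtain ⟨S, G, br, hpS, hG, h3, h4, h5, h6⟩ := h p
  unfold Btw at hp ⊢
  have sy : ∀ u w, D u w = D w u := hD.symm
  have ex := h3 x p hpS
  have ey := h3 y p hpS
  have e1 := sy y p
  have e2 := sy (G y) p
  have e3 := sy y (G y)
  have e4 := sy z (G z)
  have hxy : ¬ (br x = br y ∧ br x ≠ none) := by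
    rintro ⟨h1, h2⟩
    obtain ⟨h7, h8⟩ := h5 x y h1 h2
    rw [← h7] at ey e2 e3
    have := sy (G x) y
    omega
  have hxy' : br x ≠ br y ∨ br x = none := by
    by_cases h1 : br x = br y
    · right
      by_contra h2
      exact hxy ⟨h1, h2⟩
    · exact Or.inl h1
  have exy := h4 x y hxy'
  have hGp : D (G x) p + D p (G y) = D (G x) (G y) := by omega
  obtain ⟨q, hqS, hq, hpq⟩ := h6 (G x) (hG x) (G y) (hG y) (G z) (hG z) p hpS hGp
  unfold Btw at hq
  have fx := h3 x q hqS
  have fy := h3 y q hqS
  have fz := h3 z q hqS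
  have gz := h3 z p hpS
  have e5 := sy q z
  have e6 := sy (G z) q
  have e7 := sy y q
  have e8 := sy (G y) q
  rcases hq with hq | hq
  · by_cases hxz : br x ≠ br z ∨ br x = none
    · have exz := h4 x z hxz
      exact ⟨q, Or.inl (by omega), hpq⟩
    · push Not at hxz
      obtain ⟨h7, _⟩ := h5 x z hxz.1 hxz.2
      have hzy : br z ≠ br y ∨ br z = none := by
        left
        intro h8
        exact hxy ⟨hxz.1.trans h8, hxz.2⟩
      have ezy := h4 z y hzy
      rw [← h7] at ezy gz
      refine ⟨p, Or.inr (by omega), ?_⟩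
      rw [hD.self]
      omega
  · by_cases hyz : br y ≠ br z ∨ br y = none
    · have eyz := h4 y z hyz
      have e9 := sy y z
      have e10 := sy (G y) (G z)
      exact ⟨q, Or.inr (by omega), hpq⟩
    · push Not at hyz
      obtain ⟨h7, _⟩ := h5 y z hyz.1 hyz.2
      have hxz : br x ≠ br z ∨ br x = none := by
        left
        intro h8
        rw [← hyz.1] at h8
        exact hxy ⟨h8, by rw [h8]; exact hyz.2⟩
      have exz := h4 x z hxz
      rw [← h7] at exz gz
      have e9 := sy z p
      rw [← h7] at e4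
      refine ⟨p, Or.inl (by omega), ?_⟩
      rw [hD.self]
      omega

end TK
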