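import Pool.Agent.TK.Targets3

set_option autoImplicit false

/-!
# Project TK, TK-TGATE: paths between different branches pass through the gate
-/

namespace TK

namespace TGATE_

variable {Γ V : Type} [Group Γ] [MulAction Γ V] {d : V → V → ℕ}

/-- Left translation of a word. -/
theorem Ld_mul (hinv : ∀ (g : Γ) (v v' : V), d (g • v) (g • v') = d v v') (x0 v : V) (γ g : Γ)
    (l : List (Bool × Γ)) (v' : V) : Ld d x0 v (γ * g) l v' = Ld d x0 (γ⁻¹ • v) g l v' := by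
  have h : ∀ y : V, d v ((γ * g) • y) = d (γ⁻¹ • v) (g • y) := by
    intro y
    rw [← hinv γ (γ⁻¹ • v), smul_inv_smul, mul_smul]
  cases l with
  | nil => exact h v'
  | cons p l =>
    show d v ((γ * g) • x0) + 1 + _ = d (γ⁻¹ • v) (g • x0) + 1 + _
    rw [h]

/-- Length of a path which leaves its last copy at the gate. -/
theorem Ld_cat (hd : ∀ v, d v v = 0) (hinv : ∀ (g : Γ) (v v' : V), d (g • v) (g • v') = d v v')
    (x0 : V) (e : Bool) (γ : Γ) (w : Wd Γ) (v' : V) (L : List (Bool × Γ)) : ∀ (a : Γ) (v : V),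
    Ld d x0 v (cat (cat a L (1, [(e, γ)])).1 (cat a L (1, [(e, γ)])).2 w).1
      (cat (cat a L (1, [(e, γ)])).1 (cat a L (1, [(e, γ)])).2 w).2 v' =
    Ld d x0 v (cat a L (1, [(e, γ)])).1 (cat a L (1, [(e, γ)])).2 (γ⁻¹ • x0) +
      Ld d x0 (γ⁻¹ • x0) w.1 w.2 v' := by
  induction L with
  | nil =>
    intro a v
    show d v ((a * 1) • x0) + 1 + Ld d x0 x0 (γ * w.1) w.2 v' =
      d v ((a * 1) • x0) + 1 + d x0 (γ • γ⁻¹ • x0) + Ld d x0 (γ⁻¹ • x0) w.1 w.2 v'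
    rw [Ld_mul hinv, smul_inv_smul, hd, add_zero]
  | cons p L ih =>
    intro a v
    have h := ih p.2 x0
    show d v (a • x0) + 1 + Ld d x0 x0 (cat (cat p.2 L (1, [(e, γ)])).1
      (cat p.2 L (1, [(e, γ)])).2 w).1 (cat (cat p.2 L (1, [(e, γ)])).1
      (cat p.2 L (1, [(e, γ)])).2 w).2 v' =
      d v (a • x0) + 1 + Ld d x0 x0 (cat p.2 L (1, [(e, γ)])).1
      (cat p.2 L (1, [(e, γ)])).2 (γ⁻¹ • x0) + Ld d x0 (γ⁻¹ • x0) w.1 w.2 v'
    rw [h]
    omega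

end TGATE_

theorem p_TGATE (hFAPI : T_FAPI) : T_TGATE := by
  intro Γ Γ' V X' _ _ _ _ φ x rw d x0 q D hT hd hinv z z' g ε h l hz hz' v v'
  obtain ⟨f1, -, -, -, -, -, -, f8⟩ := hFAPI Γ Γ' φ x rw hT.free
  have h1 : rw 1 = (1, []) := by
    have := f1 1
    rwa [map_one] at this
  have e1 := (f8 z z' g ε h l hz hz').1
  have e2 := (f8 z 1 g ε h l hz (by
    intro h' l' h3
    rw [h1] at h3
    cases h3)).1
  have k1 := TGATE_.Ld_cat hd.self hinv x0 (!ε) g⁻¹ (rw z') v'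
    (winv h l).2 (winv h l).1 v
  have k2 := TGATE_.Ld_cat hd.self hinv x0 (!ε) g⁻¹ (rw 1) (g • x0)
    (winv h l).2 (winv h l).1 v
  rw [inv_inv] at k1 k2
  rw [hT.formula, hT.formula, hT.formula, e1, e2, inv_one, one_mul]
  have k3 : Ld d x0 (g • x0) (rw 1).1 (rw 1).2 (g • x0) = 0 := by
    rw [h1]
    show d (g • x0) ((1 : Γ) • g • x0) = 0
    rw [one_smul]
    exact hd.self _
  rw [k3, add_zero] at k2
  exact k1.trans (by rw [← k2]; rfl)

end TK
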