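import Pool.Agent.TK.Targets3

set_option autoImplicit false
set_option linter.unusedVariables false

namespace TK

namespace TGEO_

/-- finiteness of the balls from finiteness of the balls of radius one -/
theorem ball_of_one {X : Type} {D : X → X → ℕ} (hD : Geo D) (h1 : ∀ p, {y | D p y ≤ 1}.Finite)
    (p : X) (n : ℕ) : {y | D p y ≤ n}.Finite := by
  induction n with
  | zero =>
    refine (Set.finite_singleton p).subset ?_
    intro y hy
    exact (hD.eq p y (Nat.le_zero.1 hy)).symm
  | succ n ih =>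
    refine (ih.biUnion (t := fun z => {y | D z y ≤ 1}) fun z _ => h1 z).subset ?_
    intro y hy
    have hy' : D p y ≤ n + 1 := hy
    by_cases hn : D p y ≤ n
    · refine Set.mem_biUnion (x := y) hn ?_
      show D y y ≤ 1
      rw [hD.self]
      omega
    · obtain ⟨z, hz1, hz2⟩ := hD.geod p y n (by omega)
      refine Set.mem_biUnion (x := z) (show D p z ≤ n by omega) ?_
      show D z y ≤ 1
      omega

/-- the set of the elements moving `x` to `v` is finite -/
theorem coset_finite {Γ V : Type} [Group Γ] [MulAction Γ V] (x v : V)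
    (h : {g : Γ | g • x = x}.Finite) : {g : Γ | g • x = v}.Finite := by
  by_cases hne : ∃ g0 : Γ, g0 • x = v
  · obtain ⟨g0, hg0⟩ := hne
    refine (h.image fun g => g0 * g).subset ?_
    intro g hg
    refine ⟨g0⁻¹ * g, ?_, by simp⟩
    show (g0⁻¹ * g) • x = x
    rw [mul_smul, show g • x = v from hg, ← hg0, inv_smul_smul]
  · have : {g : Γ | g • x = v} = ∅ := by
      ext g
      simp only [Set.mem_ofPred_eq, Set.mem_empty_iff_false, iff_false]
      exact fun hg => hne ⟨g, hg⟩
    rw [this]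
    exact Set.finite_empty

theorem Ld_cons_pos {Γ V : Type} [Group Γ] [MulAction Γ V] (d : V → V → ℕ) (x0 v : V) (g : Γ)
    (p : Bool × Γ) (l : List (Bool × Γ)) (v' : V) : 1 ≤ Ld d x0 v g (p :: l) v' := by
  rw [Ld]
  omega

end TGEO_

open TGEO_ in
theorem p_TGEO (hTTHIN : T_TTHIN) (hFAPI : T_FAPI) : T_TGEO := by
  intro Γ Γ' V X' _ _ _ _ φ x rw d x0 q D hT hA
  have hF := hFAPI Γ Γ' φ x rw hT.free
  have rw1 : rw 1 = (1, []) := by
    have := hF.1 1
    rwa [map_one] at this
  have hsame : ∀ (g : Γ') (v v' : V), D (q g v) (q g v') = d v v' := by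
    intro g v v'
    rw [hT.formula, inv_mul_cancel, rw1]
    simp [Ld]
  refine ⟨hT.geo, ?_, ?_, ?_, ?_, ?_⟩
  · obtain ⟨δ, hδ⟩ := hA.thin
    exact ⟨δ, hTTHIN Γ Γ' V X' φ x rw d x0 q D δ hT hA.geo hA.inv hδ⟩
  · intro k p p'
    obtain ⟨g, v, rfl⟩ := hT.bal.surj p
    obtain ⟨h, v', rfl⟩ := hT.bal.surj p'
    rw [hT.bal.smul, hT.bal.smul, hT.formula, hT.formula]
    have : (k * g)⁻¹ * (k * h) = g⁻¹ * h := by group
    rw [this]
  · refine ball_of_one hT.geo ?_
    intro p
    obtain ⟨g, v, rfl⟩ := hT.bal.surj p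
    have hfin1 : (q g '' {u | d v u ≤ 1}).Finite := (hA.ball v 1).image _
    have hfin2 : ((fun γ : Γ => q (g * φ γ * sg x true) x0) '' {γ : Γ | γ • x0 = v}).Finite :=
      (coset_finite x0 v (hA.stab x0)).image _
    have hfin3 : ((fun γ : Γ => q (g * φ γ * sg x false) x0) '' {γ : Γ | γ • x0 = v}).Finite :=
      (coset_finite x0 v (hA.stab x0)).image _
    refine ((hfin1.union hfin2).union hfin3).subset ?_
    intro y hy
    have hy' : D (q g v) y ≤ 1 := hy
    obtain ⟨h, v', rfl⟩ := hT.bal.surj y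
    rw [hT.formula] at hy'
    have hprod := hT.free.prod (g⁻¹ * h)
    have hh : h = g * wprod φ x (rw (g⁻¹ * h)) := by
      rw [hprod]
      group
    rcases hw : rw (g⁻¹ * h) with ⟨g0, l0⟩
    rw [hw] at hy' hh
    rcases l0 with _ | ⟨⟨ε, g1⟩, l⟩
    · left; left
      refine ⟨g0 • v', ?_, ?_⟩
      · simpa [Ld] using hy'
      · rw [← hT.bal.bal]
        congr 1
        rw [hh]
        simp [wprod, lprod]
    · rcases l with _ | ⟨p2, l⟩
      · simp only [Ld] at hy'
        have e1 : d v (g0 • x0) = 0 := by omega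
        have e2 : d x0 (g1 • v') = 0 := by omega
        have e1' := hA.geo.eq _ _ e1
        have e2' := hA.geo.eq _ _ e2
        have e3 : q h v' = q (g * φ g0 * sg x ε) x0 := by
          rw [hh, e2', ← hT.bal.bal]
          congr 1
          simp [wprod, lprod, mul_assoc]
        rw [e3]
        cases ε
        · right
          exact ⟨g0, e1'.symm, rfl⟩
        · left; right
          exact ⟨g0, e1'.symm, rfl⟩
      · exfalso
        have h2 := Ld_cons_pos d x0 x0 g1 p2 l v'
        have h3 : Ld d x0 v g0 ((ε, g1) :: p2 :: l) v' =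
          d v (g0 • x0) + 1 + Ld d x0 x0 g1 (p2 :: l) v' := by
          conv_lhs => rw [Ld]
        have hy2 : Ld d x0 v g0 ((ε, g1) :: p2 :: l) v' ≤ 1 := hy'
        omega
  · intro p
    obtain ⟨g, v, rfl⟩ := hT.bal.surj p
    refine ((hA.stab v).image fun γ => g * (φ γ)⁻¹ * g⁻¹).subset ?_
    intro k hk
    have hk' : k • q g v = q g v := hk
    rw [hT.bal.smul] at hk'
    obtain ⟨γ, h1, h2⟩ := hT.bal.inj _ _ _ _ hk'
    refine ⟨γ, h2.symm, ?_⟩
    show g * (φ γ)⁻¹ * g⁻¹ = k
    have h3 : (φ γ)⁻¹ = g⁻¹ * k * g := by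
      have : g⁻¹ * (k * g * φ γ) = 1 := by
        rw [← h1]
        group
      have h4 : (g⁻¹ * k * g) * φ γ = 1 := by
        rw [← this]
        group
      exact (eq_inv_of_mul_eq_one_left h4).symm
    rw [h3]
    group
  · obtain ⟨D0, hD0⟩ := hA.coc
    refine ⟨D0, fun y => ?_⟩
    obtain ⟨g, v, rfl⟩ := hT.bal.surj y
    obtain ⟨γ, hγ⟩ := hD0 v
    refine ⟨g * φ γ, ?_⟩
    rw [hT.bal.smul, mul_one, hT.bal.bal, hsame]
    exact hγ

end TK
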