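import Pool.Agent.TK.Targets3

set_option autoImplicit false

/-!
# Project TK (MP_3ae405_al): torsion and centralizers in the free product (TK-TORS)
-/

namespace TK

open Subgroup

namespace TORS_

variable {Γ Γ' : Type} [Group Γ] [Group Γ'] {φ : Γ →* Γ'} {x : Γ'}

theorem lprod_append (l l' : List (Bool × Γ)) :
    lprod φ x (l ++ l') = lprod φ x l * lprod φ x l' := by
  induction l with
  | nil => simp [lprod]
  | cons p l ih =>
    rw [List.cons_append]
    simp only [lprod]
    rw [ih]
    simp only [mul_assoc]

theorem wprod_cat (g : Γ) (l : List (Bool × Γ)) (h : Γ) :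
    wprod φ x (cat g l (h, [])) = wprod φ x (g, l) * φ h := by
  induction l generalizing g with
  | nil => simp [cat, wprod, lprod]
  | cons p l ih =>
    have h1 := ih p.2
    simp only [wprod] at h1 ⊢
    simp only [cat, lprod]
    rw [mul_assoc (sg x p.1), h1]
    simp only [mul_assoc]

theorem cat_fst (g : Γ) (l : List (Bool × Γ)) (h : Γ) (hl : l ≠ []) :
    (cat g l (h, [])).1 = g := by
  cases l with
  | nil => exact absurd rfl hl
  | cons p l => rfl

theorem cat_length (g : Γ) (l : List (Bool × Γ)) (h : Γ) :
    (cat g l (h, [])).2.length = l.length := by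
  induction l generalizing g with
  | nil => rfl
  | cons p l ih => simp [cat, ih]

theorem cat_rdc (g : Γ) (l : List (Bool × Γ)) (h : Γ) (hl : Rdc l) :
    Rdc (cat g l (h, [])).2 := by
  induction l generalizing g with
  | nil => exact hl
  | cons p l ih =>
    cases l with
    | nil => simp [cat, Rdc]
    | cons q l =>
      have h1 : Rdc (q :: l) := by
        unfold Rdc at hl ⊢
        exact (List.isChain_cons_cons.1 hl).2
      have h2 : p.2 = 1 → p.1 = q.1 := by
        unfold Rdc at hl
        exact (List.isChain_cons_cons.1 hl).1
      have h3 := ih p.2 h1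
      show Rdc ((p.1, p.2) :: (cat p.2 (q :: l) (h, [])).2)
      have h4 : (cat p.2 (q :: l) (h, [])).2 =
          (q.1, (cat q.2 l (h, [])).1) :: (cat q.2 l (h, [])).2 := rfl
      rw [h4] at h3 ⊢
      unfold Rdc at h3 ⊢
      exact List.isChain_cons_cons.2 ⟨h2, h3⟩

end TORS_

open TORS_

theorem p_TORS (hFAPI : T_FAPI) : T_TORS := by
  intro Γ Γ' _ _ φ x rw hF
  obtain ⟨F1, F2, -⟩ := hFAPI Γ Γ' φ x rw hF
  have hrw1 : rw 1 = (1, []) := by
    have := F1 1
    rwa [map_one] at this
  refine ⟨fun t ht => ?_, fun g hg z hz => ?_⟩
  · -- a conjugate of minimal length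
    obtain ⟨z, -, hz⟩ := WellFounded.has_min
      (measure fun z : Γ' => (rw (z⁻¹ * t * z)).2.length).wf Set.univ ⟨1, trivial⟩
    have hmin : ∀ z', (rw (z⁻¹ * t * z)).2.length ≤ (rw (z'⁻¹ * t * z')).2.length := by
      intro z'
      exact not_lt.1 (hz z' trivial)
    rcases hw : rw (z⁻¹ * t * z) with ⟨h, l⟩
    have hu : φ h * lprod φ x l = z⁻¹ * t * z := by
      have := hF.prod (z⁻¹ * t * z)
      rw [hw] at this
      exact this
    have hred : Rdc l := by
      have := hF.red (z⁻¹ * t * z)
      rw [hw] at this
      exact this
    rw [hw] at hmin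
    by_cases hl : l = []
    · refine ⟨z, h, ?_⟩
      rw [hl] at hu
      simp only [lprod, mul_one] at hu
      rw [hu]
      group
    · exfalso
      set L := (cat 1 l (h, [])).2 with hL
      have hLlen : L.length = l.length := cat_length _ _ _
      have hLred : Rdc L := cat_rdc _ _ _ hred
      have hLne : L ≠ [] := by
        intro h0
        rw [h0] at hLlen
        exact hl (List.length_eq_zero_iff.1 hLlen.symm)
      -- the conjugate
      have hu' : lprod φ x L = (φ h)⁻¹ * (z⁻¹ * t * z) * φ h := by
        have h1 := wprod_cat (φ := φ) (x := x) 1 l h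
        have h2 : wprod φ x (cat 1 l (h, [])) = lprod φ x L := by
          unfold wprod
          rw [cat_fst 1 l h hl, map_one, one_mul]
        rw [h2] at h1
        rw [h1]
        unfold wprod
        rw [map_one, one_mul, ← hu]
        group
      have hmin' : ∀ z', L.length ≤ (rw (z'⁻¹ * lprod φ x L * z')).2.length := by
        intro z'
        rw [hLlen]
        have h1 := hmin (z * φ h * z')
        have h2 : (z * φ h * z')⁻¹ * t * (z * φ h * z') = z'⁻¹ * lprod φ x L * z' := by
          rw [hu']
          group
        rw [h2] at h1
        exact h1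
      -- finite order
      have hfin : IsOfFinOrder (lprod φ x L) := by
        rw [hu']
        have h1 : (φ h)⁻¹ * (z⁻¹ * t * z) * φ h = (z * φ h)⁻¹ * t * ((z * φ h)⁻¹)⁻¹ := by group
        rw [h1]
        rw [isOfFinOrder_iff_pow_eq_one] at ht ⊢
        obtain ⟨n, hn, hn1⟩ := ht
        refine ⟨n, hn, ?_⟩
        rw [conj_pow, hn1]
        group
      by_cases hj : ∀ a ∈ L.getLast?, ∀ b ∈ L.head?, a.2 = 1 → a.1 = b.1
      · -- powers are reduced
        have hpow : ∀ n : ℕ, ∃ M : List (Bool × Γ), lprod φ x M = lprod φ x L ^ (n + 1) ∧ Rdc M ∧
            L.length ≤ M.length ∧ M.head? = L.head? := by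
          intro n
          induction n with
          | zero => exact ⟨L, by simp, hLred, le_rfl, rfl⟩
          | succ n ih =>
            obtain ⟨M, hM1, hM2, hM3, hM4⟩ := ih
            refine ⟨L ++ M, ?_, ?_, ?_, ?_⟩
            · rw [lprod_append, hM1, pow_succ' _ (n + 1)]
            · unfold Rdc at hLred hM2 ⊢
              rw [List.isChain_append]
              refine ⟨hLred, hM2, ?_⟩
              intro a ha b hb
              rw [hM4] at hb
              exact hj a ha b hb
            · rw [List.length_append]
              omega
            · rw [List.head?_append_of_ne_nil _ hLne]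
        rw [isOfFinOrder_iff_pow_eq_one] at hfin
        obtain ⟨n, hn, hn1⟩ := hfin
        obtain ⟨M, hM1, hM2, hM3, -⟩ := hpow (n - 1)
        have h1 : n - 1 + 1 = n := by omega
        rw [h1, hn1] at hM1
        have h2 := hF.uniq (1, M) hM2
        have h3 : wprod φ x (1, M) = 1 := by
          unfold wprod
          rw [map_one, one_mul]
          exact hM1
        rw [h3, hrw1] at h2
        have h4 : M = [] := (congrArg Prod.snd h2).symm
        rw [h4] at hM3
        exact hLne (List.length_eq_zero_iff.1 (Nat.le_zero.1 hM3))
      · push Not at hj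
        obtain ⟨a, ha, b, hb, ha1, hab⟩ := hj
        -- decompose
        obtain ⟨L', hL'⟩ : ∃ L', L = b :: L' := by
          cases hLc : L with
          | nil => exact absurd hLc hLne
          | cons c L' =>
            rw [hLc] at hb
            simp only [List.head?_cons, Option.mem_def, Option.some.injEq] at hb
            exact ⟨L', by rw [hb]⟩
        have hL'ne : L' ≠ [] := by
          intro h0
          rw [hL', h0] at ha
          simp only [List.getLast?_singleton, Option.mem_def, Option.some.injEq] at ha
          exact hab (by rw [ha])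
        obtain ⟨M, hM⟩ : ∃ M, L' = M ++ [a] := by
          refine ⟨L'.dropLast, ?_⟩
          have h1 : L'.getLast hL'ne = a := by
            rw [hL', List.getLast?_cons_of_ne_nil hL'ne] at ha
            rw [List.getLast?_eq_some_getLast hL'ne] at ha
            simpa using ha
          rw [← h1]
          exact (List.dropLast_append_getLast hL'ne).symm
        have hMred : Rdc M := by
          unfold Rdc at hLred ⊢
          rw [hL', hM] at hLred
          have h1 : (b :: (M ++ [a])) = [b] ++ (M ++ [a]) := rfl
          rw [h1, List.isChain_append] at hLred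
          have h2 := hLred.2.1
          rw [List.isChain_append] at h2
          exact h2.1
        have hsg : sg x a.1 = (sg x b.1)⁻¹ := by
          unfold sg
          cases ha2 : a.1 <;> cases hb2 : b.1
          · exact absurd (ha2.trans hb2.symm) hab
          · simp
          · simp
          · exact absurd (ha2.trans hb2.symm) hab
        have hval : (sg x b.1)⁻¹ * lprod φ x L * sg x b.1 = wprod φ x (b.2, M) := by
          rw [hL', hM]
          simp only [lprod, wprod]
          rw [lprod_append]
          simp only [lprod]
          rw [ha1, hsg, map_one]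
          group
        have h1 := hmin' (sg x b.1)
        rw [hval, hF.uniq (b.2, M) hMred] at h1
        rw [hL', hM] at h1
        simp at h1
  · -- centralizers
    rcases hw : rw z with ⟨h, l⟩
    have hzp : φ h * lprod φ x l = z := by
      have := hF.prod z
      rw [hw] at this
      exact this
    by_cases hl : l = []
    · refine ⟨h, ?_⟩
      rw [hl] at hzp
      simpa [lprod] using hzp.symm
    · exfalso
      have hred : Rdc l := by
        have := hF.red z
        rw [hw] at this
        exact this
      have h1 := F2 g z
      rw [hw] at h1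
      have h2 := hF.uniq (cat h l (g, [])) (cat_rdc _ _ _ hred)
      have h3 : wprod φ x (cat h l (g, [])) = φ g * z := by
        rw [wprod_cat, ← hz]
        congr 1
      rw [h3, h1] at h2
      have h4 := congrArg Prod.fst h2
      rw [cat_fst _ _ _ hl] at h4
      simp only at h4
      exact hg (by simpa using h4)

end TK
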