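import Pool.Agent.TK.Targets3

set_option autoImplicit false
set_option linter.unusedVariables false

/-!
# Project TK: entry TSTEP, first step of a geodesic in the tree of spaces
-/

namespace TK

open Subgroup

namespace TSTEP_

variable {Γ Γ' V X' : Type} [Group Γ] [Group Γ'] [MulAction Γ V] [MulAction Γ' X']
  {φ : Γ →* Γ'} {x : Γ'} {rw : Γ' → Wd Γ} {d : V → V → ℕ} {x0 : V} {q : Γ' → V → X'}
  {D : X' → X' → ℕ}

theorem rw_phi (hT : IsTree φ x rw d x0 q D) (g : Γ) : rw (φ g) = (g, []) := by
  have h := hT.free.uniq (g, []) List.isChain_nil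
  have e : wprod φ x (g, []) = φ g := by simp [wprod, lprod]
  rw [e] at h
  exact h

/-- distances from the copy `1` -/
theorem dist_one (hT : IsTree φ x rw d x0 q D) (v : V) (z : Γ') (v' : V) :
    D (q 1 v) (q z v') = Ld d x0 v (rw z).1 (rw z).2 v' := by
  rw [hT.formula, inv_one, one_mul]

theorem dist_smul (hT : IsTree φ x rw d x0 q D) (h z z' : Γ') (v v' : V) :
    D (q (h * z) v) (q (h * z') v') = D (q z v) (q z' v') := by
  rw [hT.formula, hT.formula]
  have : (h * z)⁻¹ * (h * z') = z⁻¹ * z' := by group
  rw [this]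

theorem q_phi (hT : IsTree φ x rw d x0 q D) (g : Γ) (v : V) : q (φ g) v = q 1 (g • v) := by
  have := hT.bal.bal 1 g v
  rwa [one_mul] at this

theorem eq_phi (hT : IsTree φ x rw d x0 q D) {z : Γ'} {g : Γ} (h : rw z = (g, [])) : z = φ g := by
  have := hT.free.prod z
  rw [h] at this
  rw [← this]
  simp [wprod, lprod]

end TSTEP_

open TSTEP_ in
theorem p_TSTEP (hTGATE : T_TGATE) (hFAPI : T_FAPI) : T_TSTEP := by
  intro Γ Γ' V X' _ _ _ _ φ x rw d x0 q D hT hd hinv
  have gate := hTGATE Γ Γ' V X' φ x rw d x0 q D hT hd hinv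
  have hD := hT.geo
  refine ⟨fun g v v' p hp => ?_, fun g p1 l v v' p hr hp => ?_⟩
  · obtain ⟨z, u, rfl⟩ := hT.bal.surj p
    rcases hz : rw z with ⟨g0, l0⟩
    unfold Btw at hp
    rw [dist_one hT, dist_one hT, rw_phi hT, hz] at hp
    cases l0 with
    | nil =>
      have hzg := eq_phi hT hz
      subst hzg
      refine ⟨g0 • u, q_phi hT g0 u, ?_⟩
      rw [q_phi hT g0 u, dist_one hT, rw_phi hT] at hp
      simp only [Ld] at hp
      exact hp
    | cons e l0 =>
      obtain ⟨ε, h⟩ := e
      exfalso
      have h1 := gate z (φ g) g0 ε h l0 hz (by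
        intro h' l' hc
        rw [rw_phi hT] at hc
        simp at hc) u v'
      have h2 : D (q 1 (g0 • x0)) (q (φ g) v') = d (g0 • x0) (g • v') := by
        rw [dist_one hT, rw_phi hT]
        rfl
      have h3 : D (q z u) (q 1 (g0 • x0)) = d (g0 • x0) (g0 • x0) + 1 + Ld d x0 x0 h l0 u := by
        rw [hD.symm, dist_one hT, hz]
        rfl
      rw [h1, h2, h3] at hp
      simp only [Ld] at hp
      have t := hd.tri v (g0 • x0) (g • v')
      omega
  · obtain ⟨z, u, rfl⟩ := hT.bal.surj p
    rcases hz : rw z with ⟨g0, l0⟩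
    have hy := hT.free.uniq (g, p1 :: l) hr
    have hrl : Rdc l := by
      unfold Rdc at hr ⊢
      exact hr.tail
    have hy' := hT.free.uniq (p1.2, l) hrl
    cases l0 with
    | nil =>
      left
      have hzg := eq_phi hT hz
      subst hzg
      refine ⟨g0 • u, q_phi hT g0 u, ?_⟩
      unfold Btw at hp
      rw [dist_one hT, dist_one hT, rw_phi hT, hy, q_phi hT g0 u, dist_one hT, hy] at hp
      simp only [Ld] at hp
      unfold Btw
      omega
    | cons e l0 =>
      obtain ⟨ε, h⟩ := e
      by_cases hb : g0 = g ∧ ε = p1.1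
      · right
        obtain ⟨rfl, rfl⟩ := hb
        have hrz := hT.free.red z
        rw [hz] at hrz
        have hrl0 : Rdc l0 := by
          unfold Rdc at hrz ⊢
          exact hrz.tail
        have hz1 := hT.free.uniq (h, l0) hrl0
        have ez : z = (φ g0 * sg x p1.1) * wprod φ x (h, l0) := by
          have := hT.free.prod z
          rw [hz] at this
          rw [← this]
          simp only [wprod, lprod]
          group
        have ey : wprod φ x (g0, p1 :: l) = (φ g0 * sg x p1.1) * wprod φ x (p1.2, l) := by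
          simp only [wprod, lprod]
          group
        refine ⟨q (wprod φ x (h, l0)) u, ?_, ?_⟩
        · rw [hT.bal.smul, ← ez]
        · unfold Btw at hp ⊢
          have e1 : D (q z u) (q (wprod φ x (g0, p1 :: l)) v') =
              D (q (wprod φ x (h, l0)) u) (q (wprod φ x (p1.2, l)) v') := by
            rw [ey, ez, dist_smul hT]
          rw [e1, dist_one hT, dist_one hT, hz, hy] at hp
          rw [dist_one hT, dist_one hT, hz1, hy']
          simp only [Ld] at hp ⊢
          omega
      · exfalso
        have h1 := gate z (wprod φ x (g, p1 :: l)) g0 ε h l0 hz (by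
          intro h' l' hc
          rw [hy] at hc
          apply hb
          simp only [Prod.mk.injEq, List.cons.injEq] at hc
          exact ⟨hc.1.symm, by rw [hc.2.1]⟩) u v'
        have h3 : D (q z u) (q 1 (g0 • x0)) =
            d (g0 • x0) (g0 • x0) + 1 + Ld d x0 x0 h l0 u := by
          rw [hD.symm, dist_one hT, hz]
          rfl
        have h4 : D (q 1 v) (q z u) = d v (g0 • x0) + 1 + Ld d x0 x0 h l0 u := by
          rw [dist_one hT, hz]
          rfl
        have h5 : D (q 1 v) (q 1 (g0 • x0)) = d v (g0 • x0) := by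
          rw [dist_one hT, ← φ.map_one, rw_phi hT]
          simp [Ld]
        have t := hD.tri (q 1 v) (q 1 (g0 • x0)) (q (wprod φ x (g, p1 :: l)) v')
        unfold Btw at hp
        omega

end TK
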