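import Pool.Agent.TK.Targets3

set_option autoImplicit false
set_option linter.unusedVariables false

/-!
# TK-TTHIN: the tree of spaces is thin with the same constant
-/

namespace TK

open Subgroup

namespace TTHIN_

variable {Γ X' : Type}

/-- the gate, from the reduced word -/
def gt (y0 : Γ → X') (w : X') : Wd Γ → X'
  | (_, []) => w
  | (g0, _ :: _) => y0 g0

/-- the branch -/
def brn : Wd Γ → Option (Γ × Bool)
  | (_, []) => none
  | (g0, p :: _) => some (g0, p.1)

end TTHIN_

open TTHIN_ in
theorem p_TTHIN (hTG : T_TG) (hTGATE : T_TGATE) (hFAPI : T_FAPI) : T_TTHIN := by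
  intro Γ Γ' V X' _ _ _ _ φ x rw d x0 q D δ hT hd hinv hthin
  obtain ⟨hF, hB, hG, hform⟩ := id hT
  have hrw1 : rw 1 = (1, []) := by
    have := (hFAPI Γ Γ' φ x rw hF).1 1
    rwa [map_one] at this
  refine hTG X' (Γ × Bool) D δ hG fun p => ?_
  obtain ⟨g, v, hp⟩ := hB.surj p
  choose H U hHU using hB.surj
  -- distances in the copy
  have hcopy : ∀ a b : V, D (q g a) (q g b) = d a b := by
    intro a b
    rw [hform, inv_mul_cancel, hrw1]
    simp [Ld]
  have htrans : ∀ (z z' : Γ') (a b : V), D (q (g * z) a) (q (g * z') b) = D (q z a) (q z' b) := by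
    intro z z' a b
    rw [hform, hform]
    congr 2 <;> group
  have hw : ∀ w, w = q (g * (g⁻¹ * H w)) (U w) := by
    intro w
    rw [mul_inv_cancel_left]
    exact hHU w
  obtain ⟨W, hWdef⟩ : ∃ W : X' → Wd Γ, ∀ w, W w = rw (g⁻¹ * H w) := ⟨_, fun w => rfl⟩
  have hWprod : ∀ w, wprod φ x (W w) = g⁻¹ * H w := fun w => by rw [hWdef]; exact hF.prod _
  have hWred : ∀ w, Rdc (W w).2 := fun w => by rw [hWdef]; exact hF.red _
  have hDform : ∀ (a : V) (w : X'), D (q g a) w = Ld d x0 a (W w).1 (W w).2 (U w) := by
    intro a w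
    conv_lhs => rw [hHU w]
    rw [hform, hWdef]
  refine ⟨Set.range (q g), fun w => gt (fun g0 => q g (g0 • x0)) w (W w), fun w => brn (W w),
    ⟨v, hp.symm⟩, ?_, ?_, ?_, ?_, ?_⟩
  · -- the gate is in the copy
    intro w
    show gt (fun g0 => q g (g0 • x0)) w (W w) ∈ Set.range (q g)
    rcases hWw : W w with ⟨g0, _ | ⟨p1, l⟩⟩
    · have h1 := hWprod w
      rw [hWw] at h1
      simp only [wprod, lprod, mul_one] at h1
      refine ⟨g0 • U w, ?_⟩
      show q g (g0 • U w) = w
      rw [← hB.bal, h1]
      exact (hw w).symm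
    · exact ⟨g0 • x0, rfl⟩
  · -- the gate
    rintro u _ ⟨a, rfl⟩
    show D u (q g a) = D u (gt (fun g0 => q g (g0 • x0)) u (W u)) +
      D (gt (fun g0 => q g (g0 • x0)) u (W u)) (q g a)
    have h1 := hDform a u
    rcases hWw : W u with ⟨g0, _ | ⟨p1, l⟩⟩
    · show D u (q g a) = D u u + D u (q g a)
      rw [hG.self]; omega
    · show D u (q g a) = D u (q g (g0 • x0)) + D (q g (g0 • x0)) (q g a)
      have h2 := hDform (g0 • x0) u
      rw [hWw] at h1 h2
      simp only [Ld] at h1 h2
      rw [hG.symm u (q g a), hG.symm u (q g (g0 • x0)), h1, h2, hcopy, hd.self, hd.symm]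
      omega
  · -- different branches
    intro u w hbr
    have hgate : ∀ (u : X') (a : V), D u (q g a) = D u (gt (fun g0 => q g (g0 • x0)) u (W u)) +
      D (gt (fun g0 => q g (g0 • x0)) u (W u)) (q g a) := by
      intro u a
      have h1 := hDform a u
      rcases hWw : W u with ⟨g0, _ | ⟨p1, l⟩⟩
      · show D u (q g a) = D u u + D u (q g a)
        rw [hG.self]; omega
      · show D u (q g a) = D u (q g (g0 • x0)) + D (q g (g0 • x0)) (q g a)
        have h2 := hDform (g0 • x0) u
        rw [hWw] at h1 h2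
        simp only [Ld] at h1 h2
        rw [hG.symm u (q g a), hG.symm u (q g (g0 • x0)), h1, h2, hcopy, hd.self, hd.symm]
        omega
    have hinS : ∀ w : X', ∀ g0, W w = (g0, []) → w = q g (g0 • U w) := by
      intro w g0 hWw
      have h1 := hWprod w
      rw [hWw] at h1
      simp only [wprod, lprod, mul_one] at h1
      rw [← hB.bal, h1]
      exact hw w
    show D u w = D u (gt (fun g0 => q g (g0 • x0)) u (W u)) +
      D (gt (fun g0 => q g (g0 • x0)) u (W u)) (gt (fun g0 => q g (g0 • x0)) w (W w)) +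
      D (gt (fun g0 => q g (g0 • x0)) w (W w)) w
    rcases hWu : W u with ⟨g0, _ | ⟨p1, l⟩⟩
    · -- `u` in the copy
      have h1 := hinS u g0 hWu
      have h2 := hgate w (g0 • U u)
      rw [← h1] at h2
      show D u w = D u u + D u (gt (fun g0 => q g (g0 • x0)) w (W w)) +
        D (gt (fun g0 => q g (g0 • x0)) w (W w)) w
      rw [hG.self, hG.symm u w, h2, hG.symm w, hG.symm u]
      omega
    · rcases hWw : W w with ⟨g1, _ | ⟨p2, l'⟩⟩
      · have h1 := hinS w g1 hWw
        have h2 := hgate u (g1 • U w)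
        rw [← h1, hWu] at h2
        show D u w = D u (q g (g0 • x0)) + D (q g (g0 • x0)) w + D w w
        rw [hG.self, h2]
        show D u (q g (g0 • x0)) + D (q g (g0 • x0)) w = _
        omega
      · -- both outside
        show D u w = D u (q g (g0 • x0)) + D (q g (g0 • x0)) (q g (g1 • x0)) +
          D (q g (g1 • x0)) w
        have hne : ∀ (h' : Γ) (l'' : List (Bool × Γ)),
            rw (g⁻¹ * H w) ≠ (g0, (p1.1, h') :: l'') := by
          intro h' l'' he
          rw [← hWdef, hWw] at he
          rcases hbr with hbr | hbr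
          · apply hbr
            show brn (W u) = brn (W w)
            rw [hWu, hWw, he]
            rfl
          · change brn (W u) = none at hbr
            rw [hWu] at hbr
            exact absurd hbr (by simp [brn])
        have h1 := hTGATE Γ Γ' V X' φ x rw d x0 q D hT hd hinv (g⁻¹ * H u) (g⁻¹ * H w) g0 p1.1 p1.2
          l (by rw [← hWdef, hWu]) hne (U u) (U w)
        rw [← htrans, ← htrans (g⁻¹ * H u) 1, ← htrans 1, ← hw u, ← hw w, mul_one] at h1
        have h2 := hgate w (g0 • x0)
        rw [hWw] at h2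
        change D w (q g (g0 • x0)) = D w (q g (g1 • x0)) + D (q g (g1 • x0)) (q g (g0 • x0)) at h2
        rw [h1, hG.symm (q g (g0 • x0)) w, h2, hG.symm w, hG.symm (q g (g1 • x0)) (q g (g0 • x0))]
        omega
  · -- the same branch
    intro u w hbr hne
    change brn (W u) = brn (W w) at hbr
    change brn (W u) ≠ none at hne
    show gt (fun g0 => q g (g0 • x0)) u (W u) = gt (fun g0 => q g (g0 • x0)) w (W w) ∧
      D u w < D u (gt (fun g0 => q g (g0 • x0)) u (W u)) +
        D (gt (fun g0 => q g (g0 • x0)) u (W u)) w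
    rcases hWu : W u with ⟨g0, _ | ⟨p1, l⟩⟩
    · rw [hWu] at hne; exact absurd rfl hne
    · rcases hWw : W w with ⟨g1, _ | ⟨p2, l'⟩⟩
      · rw [hWu, hWw] at hbr; simp [brn] at hbr
      · rw [hWu, hWw] at hbr
        simp only [brn, Option.some.injEq, Prod.mk.injEq] at hbr
        obtain ⟨hg, hp12⟩ := hbr
        subst hg
        refine ⟨rfl, ?_⟩
        show D u w < D u (q g (g0 • x0)) + D (q g (g0 • x0)) w
        have key : ∀ (u : X') (p1 : Bool × Γ) (l : List (Bool × Γ)), W u = (g0, p1 :: l) →
            D (q g (g0 • x0)) u = 1 + D (q (g * φ g0 * sg x p1.1) x0) u := by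
          intro u p1 l hWu
          have h1 := hDform (g0 • x0) u
          rw [hWu] at h1
          simp only [Ld, hd.self] at h1
          have h2 : (g * φ g0 * sg x p1.1)⁻¹ * H u = wprod φ x (p1.2, l) := by
            have h3 := hWprod u
            rw [hWu] at h3
            simp only [wprod, lprod] at h3
            have h4 : H u = g * (φ g0 * (sg x p1.1 * φ p1.2 * lprod φ x l)) := by
              rw [h3]; group
            rw [h4]
            simp only [wprod]
            group
          have hred : Rdc l := by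
            have h3 := hWred u
            rw [hWu] at h3
            exact h3.tail
          have h5 : D (q (g * φ g0 * sg x p1.1) x0) u = Ld d x0 x0 p1.2 l (U u) := by
            conv_lhs => rw [hHU u]
            rw [hform, h2, hF.uniq (p1.2, l) hred]
          rw [h1, h5]
        have k1 := key u p1 l hWu
        have k2 := key w p2 l' hWw
        rw [← hp12] at k2
        have k3 := hG.tri u (q (g * φ g0 * sg x p1.1) x0) w
        rw [hG.symm u (q g (g0 • x0))]
        rw [hG.symm u (q (g * φ g0 * sg x p1.1) x0)] at k3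
        omega
  · -- thin in the copy
    rintro _ ⟨a, rfl⟩ _ ⟨b, rfl⟩ _ ⟨c, rfl⟩ _ ⟨e, rfl⟩ hbt
    unfold Btw at hbt
    rw [hcopy, hcopy, hcopy] at hbt
    obtain ⟨r, hr, hr'⟩ := hthin a b c e hbt
    refine ⟨q g r, ⟨r, rfl⟩, ?_, by rw [hcopy]; exact hr'⟩
    unfold Btw at hr ⊢
    simp only [hcopy]
    exact hr

end TK
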