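import Pool.Agent.TK.Targets4

set_option autoImplicit false
set_option linter.unusedVariables false

/-!
# Project TK, job TK-UP: the upper bound (permutation combinatorics)
-/

namespace TK

namespace UP_

variable {G X : Type} [Group G] [MulAction G X]

theorem vw_smul (a b : G) (z : X) :
    vw a b • z = b • a • b⁻¹ • a • b • a⁻¹ • b⁻¹ • a • z := by
  simp [vw, mul_smul]

theorem per {p : ℕ} (hp : p.Prime) {a : G} (ha : a ^ p = 1) {α : X} (hα : a • α ≠ α) (i : ℤ) :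
    a ^ i • α = α ↔ (p : ℤ) ∣ i := by
  have h1 : MulAction.period a α ∣ p := by
    rw [← MulAction.pow_smul_eq_iff_period_dvd, ha, one_smul]
  have h2 : MulAction.period a α = p := by
    rcases (Nat.dvd_prime hp).mp h1 with h | h
    · exfalso
      apply hα
      have : a ^ 1 • α = α := by
        rw [MulAction.pow_smul_eq_iff_period_dvd, h]
      simpa using this
    · exact h
  rw [MulAction.zpow_smul_eq_iff_period_dvd, h2]

theorem eqv {p : ℕ} (hp : p.Prime) {a : G} (ha : a ^ p = 1) {α : X} (hα : a • α ≠ α) (i j : ℤ) :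
    a ^ i • α = a ^ j • α ↔ (p : ℤ) ∣ i - j := by
  rw [← per hp ha hα, ← smul_left_cancel_iff (a ^ (-j)), ← mul_smul, ← mul_smul, ← zpow_add,
    ← zpow_add, neg_add_cancel, zpow_zero, one_smul, neg_add_eq_sub]

theorem step {a : G} {α : X} (i : ℤ) : a • a ^ i • α = a ^ (i + 1) • α := by
  rw [← mul_smul, ← zpow_one_add, add_comm]

theorem step' {a : G} {α : X} (i : ℤ) : a⁻¹ • a ^ i • α = a ^ (i - 1) • α := by
  rw [inv_smul_eq_iff, step]
  congr 2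
  ring

theorem mv {b x : G} {g1 g2 p q : X} (h : b • g1 = g2) (h1 : x • g1 = p) (h2 : x • g2 = q) :
    (x * b * x⁻¹) • p = q ∧ (x * b * x⁻¹)⁻¹ • q = p := by
  have h3 : (x * b * x⁻¹) • p = q := by
    rw [← h1, mul_smul, mul_smul, inv_smul_smul, h, h2]
  exact ⟨h3, by rw [← h3, inv_smul_smul]⟩

theorem fx {b x : G} {y : X} (h : b • x⁻¹ • y = x⁻¹ • y) :
    (x * b * x⁻¹) • y = y ∧ (x * b * x⁻¹)⁻¹ • y = y := by
  have h3 : (x * b * x⁻¹) • y = y := by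
    rw [mul_smul, mul_smul, h, smul_inv_smul]
  exact ⟨h3, by conv_lhs => rw [← h3, inv_smul_smul]⟩

theorem inj6 {p : Fin 6 → X} (h01 : p 0 ≠ p 1) (h02 : p 0 ≠ p 2) (h03 : p 0 ≠ p 3)
    (h04 : p 0 ≠ p 4) (h05 : p 0 ≠ p 5) (h12 : p 1 ≠ p 2) (h13 : p 1 ≠ p 3) (h14 : p 1 ≠ p 4)
    (h15 : p 1 ≠ p 5) (h23 : p 2 ≠ p 3) (h24 : p 2 ≠ p 4) (h25 : p 2 ≠ p 5) (h34 : p 3 ≠ p 4)
    (h35 : p 3 ≠ p 5) (h45 : p 4 ≠ p 5) : Function.Injective p := by
  intro i j hij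
  fin_cases i <;> fin_cases j <;> first | rfl | exact absurd hij ‹_› | exact absurd hij.symm ‹_›

theorem inj3 {p : Fin 3 → X} (h01 : p 0 ≠ p 1) (h02 : p 0 ≠ p 2) (h12 : p 1 ≠ p 2) :
    Function.Injective p := by
  intro i j hij
  fin_cases i <;> fin_cases j <;> first | rfl | exact absurd hij ‹_› | exact absurd hij.symm ‹_›

theorem final {v : G} {z w : X} (h1 : v • z = w) (h2 : v • w = z) (hne : z ≠ w) :
    v ^ 2 • z = z ∧ v • z ≠ z := by
  refine ⟨by rw [pow_two, mul_smul, h1, h2], ?_⟩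
  rw [h1]
  exact hne.symm

/-- a point outside the orbit of `α` -/
theorem outside [Infinite X] {p : ℕ} (hp : p.Prime) {a : G} (ha : a ^ p = 1) (α : X)
    (hα : a • α ≠ α) : ∃ y : X, ∀ i : ℤ, a ^ i • α ≠ y := by
  classical
  obtain ⟨y, hy⟩ := Infinite.exists_notMem_finset
    ((Finset.range p).image fun i : ℕ => a ^ (i : ℤ) • α)
  refine ⟨y, fun i hi => hy ?_⟩
  rw [Finset.mem_image]
  have hp0 : (p : ℤ) ≠ 0 := by exact_mod_cast hp.ne_zero
  have h1 : 0 ≤ i % p := Int.emod_nonneg _ hp0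
  have h2 : i % p < p := Int.emod_lt_of_pos _ (by exact_mod_cast hp.pos)
  refine ⟨(i % p).toNat, Finset.mem_range.2 (by omega), ?_⟩
  rw [Int.toNat_of_nonneg h1, ← hi, eqv hp ha hα]
  exact ⟨-(i / p), by have := Int.emod_add_mul_ediv i p; linarith⟩

/-- a point different from the three images is fixed -/
theorem fix3 {b x : G} {γ : X} (hb : b ^ 3 = 1) (hγ : b • γ ≠ γ)
    (hfix : ∀ y : X, (∀ i : ℤ, b ^ i • γ ≠ y) → b • y = y) {y : X}
    (h0 : x • b ^ (0 : ℤ) • γ ≠ y) (h1 : x • b ^ (1 : ℤ) • γ ≠ y) (h2 : x • b ^ (2 : ℤ) • γ ≠ y) :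
    (x * b * x⁻¹) • y = y ∧ (x * b * x⁻¹)⁻¹ • y = y := by
  refine fx (hfix _ fun i hi => ?_)
  have hi' : x • b ^ i • γ = y := by rw [hi, smul_inv_smul]
  have h3 : i % 3 = 0 ∨ i % 3 = 1 ∨ i % 3 = 2 := by omega
  rcases h3 with h | h | h
  · apply h0
    rw [← hi', (eqv Nat.prime_three hb hγ i 0).2 (by push_cast; omega)]
  · apply h1
    rw [← hi', (eqv Nat.prime_three hb hγ i 1).2 (by push_cast; omega)]
  · apply h2
    rw [← hi', (eqv Nat.prime_three hb hγ i 2).2 (by push_cast; omega)]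

end UP_

open UP_ in
/-- TK-UP the upper bound: permutation combinatorics -/
theorem p_UP : T_UP := by
  intro G X _ _ _ a b ⟨α, hα⟩ ⟨γ, hγ⟩ ha hb htr
  have p5 : Nat.Prime 5 := by norm_num
  have p3 : Nat.Prime 3 := by norm_num
  have tr6 : ∀ p q : Fin 6 → X, Function.Injective p → Function.Injective q →
      ∃ g : G, ∀ i, g • p i = q i := fun p q hp hq => htr ⟨p, hp⟩ ⟨q, hq⟩
  have tr3 : ∀ p q : Fin 3 → X, Function.Injective p → Function.Injective q →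
      ∃ g : G, ∀ i, g • p i = q i := by
    have h6 : MulAction.IsMultiplyPretransitive G X 6 := by
      refine ⟨fun p q => ?_⟩
      obtain ⟨g, hg⟩ := htr p q
      exact ⟨g, by ext i; exact hg i⟩
    have h3 : MulAction.IsMultiplyPretransitive G X 3 :=
      MulAction.isMultiplyPretransitive_of_le' (m := 3) (n := 6) (by norm_num)
        (by rw [ENat.card_eq_top_of_infinite]; exact le_top)
    intro p q hp hq
    obtain ⟨g, hg⟩ := h3.exists_smul_eq ⟨p, hp⟩ ⟨q, hq⟩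
    exact ⟨g, fun i => by simpa using DFunLike.congr_fun hg i⟩
  -- moves
  have mA : ∀ (β : X) (_ : a • β ≠ β) (i j : ℤ), (5 : ℤ) ∣ i + 1 - j →
      a • a ^ i • β = a ^ j • β := by
    intro β hβ i j h
    rw [step, eqv p5 ha hβ]
    exact_mod_cast h
  have mA' : ∀ (β : X) (_ : a • β ≠ β) (i j : ℤ), (5 : ℤ) ∣ i - 1 - j →
      a⁻¹ • a ^ i • β = a ^ j • β := by
    intro β hβ i j h
    rw [step', eqv p5 ha hβ]
    exact_mod_cast h
  have mB : ∀ (β : X) (_ : b • β ≠ β) (i j : ℤ), (3 : ℤ) ∣ i + 1 - j →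
      b • b ^ i • β = b ^ j • β := by
    intro β hβ i j h
    rw [step, eqv p3 hb hβ]
    exact_mod_cast h
  have nA : ∀ (β : X) (_ : a • β ≠ β) (i j : ℤ), ¬ (5 : ℤ) ∣ i - j →
      a ^ i • β ≠ a ^ j • β := by
    intro β hβ i j h h'
    rw [eqv p5 ha hβ] at h'
    exact h (by exact_mod_cast h')
  have nB : ∀ (β : X) (_ : b • β ≠ β) (i j : ℤ), ¬ (3 : ℤ) ∣ i - j →
      b ^ i • β ≠ b ^ j • β := by
    intro β hβ i j h h'
    rw [eqv p3 hb hβ] at h'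
    exact h (by exact_mod_cast h')
  have nAA : ∀ β : X, (∀ i : ℤ, a ^ i • α ≠ β) → ∀ i j : ℤ, a ^ i • α ≠ a ^ j • β := by
    intro β h i j h'
    apply h (-j + i)
    rw [zpow_add, mul_smul, h', ← mul_smul, ← zpow_add, neg_add_cancel, zpow_zero, one_smul]
  have nBB : ∀ β : X, (∀ i : ℤ, b ^ i • γ ≠ β) → ∀ i j : ℤ, b ^ i • γ ≠ b ^ j • β := by
    intro β h i j h'
    apply h (-j + i)
    rw [zpow_add, mul_smul, h', ← mul_smul, ← zpow_add, neg_add_cancel, zpow_zero, one_smul]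
  by_cases h1 : ∃ β, (∀ i : ℤ, a ^ i • α ≠ β) ∧ a • β ≠ β
  · obtain ⟨β, hβ1, hβ⟩ := h1
    by_cases h2 : ∃ γ', (∀ i : ℤ, b ^ i • γ ≠ γ') ∧ b • γ' ≠ γ'
    · -- case 1
      obtain ⟨γ', hγ1, hγ'⟩ := h2
      obtain ⟨x, hx⟩ := tr6
        ![b ^ (0 : ℤ) • γ, b ^ (1 : ℤ) • γ, b ^ (2 : ℤ) • γ,
          b ^ (0 : ℤ) • γ', b ^ (1 : ℤ) • γ', b ^ (2 : ℤ) • γ']
        ![a ^ (1 : ℤ) • α, a ^ (0 : ℤ) • β, a ^ (2 : ℤ) • α,
          a ^ (0 : ℤ) • α, a ^ (4 : ℤ) • β, a ^ (4 : ℤ) • α]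
        (inj6 (nB γ hγ 0 1 (by decide)) (nB γ hγ 0 2 (by decide)) (nBB γ' hγ1 0 0)
          (nBB γ' hγ1 0 1) (nBB γ' hγ1 0 2) (nB γ hγ 1 2 (by decide)) (nBB γ' hγ1 1 0)
          (nBB γ' hγ1 1 1) (nBB γ' hγ1 1 2) (nBB γ' hγ1 2 0) (nBB γ' hγ1 2 1) (nBB γ' hγ1 2 2)
          (nB γ' hγ' 0 1 (by decide)) (nB γ' hγ' 0 2 (by decide)) (nB γ' hγ' 1 2 (by decide)))
        (inj6 (nAA β hβ1 1 0) (nA α hα 1 2 (by decide)) (nA α hα 1 0 (by decide))
          (nAA β hβ1 1 4) (nA α hα 1 4 (by decide)) (nAA β hβ1 2 0).symm (nAA β hβ1 0 0).symm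
          (nA β hβ 0 4 (by decide)) (nAA β hβ1 4 0).symm (nA α hα 2 0 (by decide))
          (nAA β hβ1 2 4) (nA α hα 2 4 (by decide)) (nAA β hβ1 0 4) (nA α hα 0 4 (by decide))
          (nAA β hβ1 4 4).symm)
      have e0 := hx 0
      have e1 := hx 1
      have e2 := hx 2
      have e3 := hx 3
      have e4 := hx 4
      have e5 := hx 5
      simp only [Matrix.cons_val] at e0 e1 e2 e3 e4 e5
      have b0 := mv (mB γ hγ 0 1 (by decide)) e0 e1
      have b1 := mv (mB γ hγ 1 2 (by decide)) e1 e2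
      have b2 := mv (mB γ hγ 2 0 (by decide)) e2 e0
      have b3 := mv (mB γ' hγ' 0 1 (by decide)) e3 e4
      have b4 := mv (mB γ' hγ' 1 2 (by decide)) e4 e5
      have b5 := mv (mB γ' hγ' 2 0 (by decide)) e5 e3
      refine ⟨x, a ^ (1 : ℤ) • α, final (w := a ^ (4 : ℤ) • β) ?_ ?_ (nAA β hβ1 1 4)⟩
      · rw [vw_smul, mA α hα 1 2 (by decide), b1.2, mA' β hβ 0 4 (by decide), b4.1,
          mA α hα 4 0 (by decide), b5.2, mA α hα 4 0 (by decide), b3.1]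
      · rw [vw_smul, mA β hβ 4 0 (by decide), b0.2, mA' α hα 1 0 (by decide), b3.1,
          mA β hβ 4 0 (by decide), b0.2, mA α hα 1 2 (by decide), b2.1]
    · -- case 3
      have hfix : ∀ y : X, (∀ i : ℤ, b ^ i • γ ≠ y) → b • y = y := by
        intro y hy
        by_contra hcon
        exact h2 ⟨y, hy, hcon⟩
      obtain ⟨x, hx⟩ := tr3 ![b ^ (0 : ℤ) • γ, b ^ (1 : ℤ) • γ, b ^ (2 : ℤ) • γ]
        ![a ^ (0 : ℤ) • α, a ^ (1 : ℤ) • α, a ^ (0 : ℤ) • β]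
        (inj3 (nB γ hγ 0 1 (by decide)) (nB γ hγ 0 2 (by decide)) (nB γ hγ 1 2 (by decide)))
        (inj3 (nA α hα 0 1 (by decide)) (nAA β hβ1 0 0) (nAA β hβ1 1 0))
      have e0 := hx 0
      have e1 := hx 1
      have e2 := hx 2
      simp only [Matrix.cons_val] at e0 e1 e2
      have b0 := mv (mB γ hγ 0 1 (by decide)) e0 e1
      have b1 := mv (mB γ hγ 1 2 (by decide)) e1 e2
      have b2 := mv (mB γ hγ 2 0 (by decide)) e2 e0
      have f2 : _ := fix3 hb hγ hfix (x := x) (y := a ^ (2 : ℤ) • α)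
        (by rw [e0]; exact nA α hα 0 2 (by decide)) (by rw [e1]; exact nA α hα 1 2 (by decide))
        (by rw [e2]; exact (nAA β hβ1 2 0).symm)
      have f3 : _ := fix3 hb hγ hfix (x := x) (y := a ^ (3 : ℤ) • α)
        (by rw [e0]; exact nA α hα 0 3 (by decide)) (by rw [e1]; exact nA α hα 1 3 (by decide))
        (by rw [e2]; exact (nAA β hβ1 3 0).symm)
      have f4 : _ := fix3 hb hγ hfix (x := x) (y := a ^ (4 : ℤ) • α)
        (by rw [e0]; exact nA α hα 0 4 (by decide)) (by rw [e1]; exact nA α hα 1 4 (by decide))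
        (by rw [e2]; exact (nAA β hβ1 4 0).symm)
      have f9 : _ := fix3 hb hγ hfix (x := x) (y := a ^ (4 : ℤ) • β)
        (by rw [e0]; exact nAA β hβ1 0 4) (by rw [e1]; exact nAA β hβ1 1 4)
        (by rw [e2]; exact nA β hβ 0 4 (by decide))
      refine ⟨x, a ^ (2 : ℤ) • α, final (w := a ^ (4 : ℤ) • α) ?_ ?_ (nA α hα 2 4 (by decide))⟩
      · rw [vw_smul, mA α hα 2 3 (by decide), f3.2, mA' α hα 3 2 (by decide), f2.1,
          mA α hα 2 3 (by decide), f3.2, mA α hα 3 4 (by decide), f4.1]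
      · rw [vw_smul, mA α hα 4 0 (by decide), b2.2, mA' β hβ 0 4 (by decide), f9.1,
          mA β hβ 4 0 (by decide), b1.2, mA α hα 1 2 (by decide), f2.1]
  · obtain ⟨δ, hδ⟩ := outside p5 ha α hα
    have hδf : a • δ = δ := by
      by_contra hcon
      exact h1 ⟨δ, hδ, hcon⟩
    have hδf' : a⁻¹ • δ = δ := by rw [inv_smul_eq_iff, hδf]
    by_cases h2 : ∃ γ', (∀ i : ℤ, b ^ i • γ ≠ γ') ∧ b • γ' ≠ γ'
    · -- case 2
      obtain ⟨γ', hγ1, hγ'⟩ := h2
      obtain ⟨x, hx⟩ := tr6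
        ![b ^ (0 : ℤ) • γ, b ^ (1 : ℤ) • γ, b ^ (2 : ℤ) • γ,
          b ^ (0 : ℤ) • γ', b ^ (1 : ℤ) • γ', b ^ (2 : ℤ) • γ']
        ![a ^ (0 : ℤ) • α, a ^ (1 : ℤ) • α, a ^ (2 : ℤ) • α,
          a ^ (3 : ℤ) • α, a ^ (4 : ℤ) • α, δ]
        (inj6 (nB γ hγ 0 1 (by decide)) (nB γ hγ 0 2 (by decide)) (nBB γ' hγ1 0 0)
          (nBB γ' hγ1 0 1) (nBB γ' hγ1 0 2) (nB γ hγ 1 2 (by decide)) (nBB γ' hγ1 1 0)
          (nBB γ' hγ1 1 1) (nBB γ' hγ1 1 2) (nBB γ' hγ1 2 0) (nBB γ' hγ1 2 1) (nBB γ' hγ1 2 2)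
          (nB γ' hγ' 0 1 (by decide)) (nB γ' hγ' 0 2 (by decide)) (nB γ' hγ' 1 2 (by decide)))
        (inj6 (nA α hα 0 1 (by decide)) (nA α hα 0 2 (by decide)) (nA α hα 0 3 (by decide))
          (nA α hα 0 4 (by decide)) (hδ 0) (nA α hα 1 2 (by decide)) (nA α hα 1 3 (by decide))
          (nA α hα 1 4 (by decide)) (hδ 1) (nA α hα 2 3 (by decide)) (nA α hα 2 4 (by decide))
          (hδ 2) (nA α hα 3 4 (by decide)) (hδ 3) (hδ 4))
      have e0 := hx 0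
      have e1 := hx 1
      have e2 := hx 2
      have e3 := hx 3
      have e4 := hx 4
      have e5 := hx 5
      simp only [Matrix.cons_val] at e0 e1 e2 e3 e4 e5
      have b0 := mv (mB γ hγ 0 1 (by decide)) e0 e1
      have b1 := mv (mB γ hγ 1 2 (by decide)) e1 e2
      have b2 := mv (mB γ hγ 2 0 (by decide)) e2 e0
      have b3 := mv (mB γ' hγ' 0 1 (by decide)) e3 e4
      have b4 := mv (mB γ' hγ' 1 2 (by decide)) e4 e5
      have b5 := mv (mB γ' hγ' 2 0 (by decide)) e5 e3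
      refine ⟨x, a ^ (0 : ℤ) • α, final (w := a ^ (1 : ℤ) • α) ?_ ?_ (nA α hα 0 1 (by decide))⟩
      · rw [vw_smul, mA α hα 0 1 (by decide), b0.2, mA' α hα 0 4 (by decide), b4.1, hδf, b4.2,
          mA α hα 4 0 (by decide), b0.1]
      · rw [vw_smul, mA α hα 1 2 (by decide), b1.2, mA' α hα 1 0 (by decide), b0.1,
          mA α hα 1 2 (by decide), b1.2, mA α hα 1 2 (by decide), b2.1]
    · -- case 4
      have hfix : ∀ y : X, (∀ i : ℤ, b ^ i • γ ≠ y) → b • y = y := by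
        intro y hy
        by_contra hcon
        exact h2 ⟨y, hy, hcon⟩
      obtain ⟨x, hx⟩ := tr3 ![b ^ (0 : ℤ) • γ, b ^ (1 : ℤ) • γ, b ^ (2 : ℤ) • γ]
        ![a ^ (0 : ℤ) • α, a ^ (2 : ℤ) • α, δ]
        (inj3 (nB γ hγ 0 1 (by decide)) (nB γ hγ 0 2 (by decide)) (nB γ hγ 1 2 (by decide)))
        (inj3 (nA α hα 0 2 (by decide)) (hδ 0) (hδ 2))
      have e0 := hx 0
      have e1 := hx 1
      have e2 := hx 2
      simp only [Matrix.cons_val] at e0 e1 e2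
      have b0 := mv (mB γ hγ 0 1 (by decide)) e0 e1
      have b1 := mv (mB γ hγ 1 2 (by decide)) e1 e2
      have b2 := mv (mB γ hγ 2 0 (by decide)) e2 e0
      have f3 : _ := fix3 hb hγ hfix (x := x) (y := a ^ (3 : ℤ) • α)
        (by rw [e0]; exact nA α hα 0 3 (by decide)) (by rw [e1]; exact nA α hα 2 3 (by decide))
        (by rw [e2]; exact (hδ 3).symm)
      have f4 : _ := fix3 hb hγ hfix (x := x) (y := a ^ (4 : ℤ) • α)
        (by rw [e0]; exact nA α hα 0 4 (by decide)) (by rw [e1]; exact nA α hα 2 4 (by decide))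
        (by rw [e2]; exact (hδ 4).symm)
      refine ⟨x, a ^ (2 : ℤ) • α, final (w := a ^ (3 : ℤ) • α) ?_ ?_ (nA α hα 2 3 (by decide))⟩
      · rw [vw_smul, mA α hα 2 3 (by decide), f3.2, mA' α hα 3 2 (by decide), b1.1, hδf, b1.2,
          mA α hα 2 3 (by decide), f3.1]
      · rw [vw_smul, mA α hα 3 4 (by decide), f4.2, mA' α hα 4 3 (by decide), f3.1,
          mA α hα 3 4 (by decide), f4.2, mA α hα 4 0 (by decide), b0.1]

end TK
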