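import Pool.Agent.TK.FEX
import Pool.Agent.TK.FAPI
import Pool.Agent.TK.BAL
import Pool.Agent.TK.TDIST
import Pool.Agent.TK.TGATE
import Pool.Agent.TK.TG
import Pool.Agent.TK.TTHIN
import Pool.Agent.TK.TGEO
import Pool.Agent.TK.TSTEP
import Pool.Agent.TK.RD
import Pool.Agent.TK.FH
import Pool.Agent.TK.FQC
import Pool.Agent.TK.TORS
import Pool.Agent.TK.BR
import Pool.Agent.TK.AFREE
import Pool.Agent.TK.FIVE
import Pool.Agent.TK.E6
import Pool.Agent.TK.VFREE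
import Pool.Agent.TK.FREE
import Pool.Agent.TK.BASE
import Pool.Agent.TK.UP
import Pool.Agent.TK.MACRO
import Pool.Agent.TK.ASM
import Pool.Agent.TK.K5
import Pool.Agent.TK.K1
import Pool.Agent.TK.K2
import Pool.Agent.TK.K3

set_option autoImplicit false

/-! Project TK: the free step, assembled. -/

namespace TK

theorem m_TTHIN : T_TTHIN := p_TTHIN p_TG (p_TGATE p_FAPI) p_FAPI
theorem m_RD : T_RD := p_RD p_FAPI
theorem m_FH : T_FH := p_FH m_RD p_FAPI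
theorem m_BR : T_BR := p_BR m_RD p_FAPI
theorem m_AFREE : T_AFREE := p_AFREE m_BR m_FH p_FAPI
theorem m_FQC : T_FQC := p_FQC (p_TSTEP (p_TGATE p_FAPI) p_FAPI) m_RD p_FAPI
theorem m_VFREE : T_VFREE := tk_vfree m_AFREE m_BR (p_FIVE m_RD p_FAPI) p_E6 p_FAPI

theorem m_FREE : T_FREE := p_FREE p_FEX p_FAPI p_BAL (p_TDIST p_FAPI) m_TTHIN
  (p_TGEO m_TTHIN p_FAPI) m_FQC (p_TORS p_FAPI) m_AFREE m_VFREE m_FH

theorem m_K5_of (hKILL : T_KILL') : T_K5 :=
  p_K5 (p_ASM p_BASE (p_MACRO hKILL m_FREE)) p_UP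

end TK

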