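import Pool.Agent.TK.Targets1

/-!
# TK-ALG: the maximal cyclic subgroup (pure group theory)
-/

set_option autoImplicit false

namespace TK.ALG_

open Subgroup

/-- the commensurator of `⟨h⟩` -/
def Com {Γ : Type} [Group Γ] (h : Γ) : Subgroup Γ where
  carrier := {g | ∃ i j : ℤ, i ≠ 0 ∧ j ≠ 0 ∧ g * h ^ i * g⁻¹ = h ^ j}
  one_mem' := ⟨1, 1, one_ne_zero, one_ne_zero, by simp⟩
  mul_mem' := by
    rintro a b ⟨i, j, hi, hj, hij⟩ ⟨k, l, hk, hl, hkl⟩
    refine ⟨k * i, j * l, mul_ne_zero hk hi, mul_ne_zero hj hl, ?_⟩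
    have h1 : b * h ^ (k * i) * b⁻¹ = h ^ (l * i) := by
      rw [zpow_mul, ← conj_zpow, hkl, ← zpow_mul]
    have h2 : a * h ^ (i * l) * a⁻¹ = h ^ (j * l) := by
      rw [zpow_mul, ← conj_zpow, hij, ← zpow_mul]
    calc a * b * h ^ (k * i) * (a * b)⁻¹ = a * (b * h ^ (k * i) * b⁻¹) * a⁻¹ := by group
      _ = h ^ (j * l) := by rw [h1, mul_comm l i, h2]
  inv_mem' := by
    rintro a ⟨i, j, hi, hj, hij⟩
    refine ⟨j, i, hj, hi, ?_⟩
    rw [← hij]
    group

lemma mem_Com {Γ : Type} [Group Γ] {h g : Γ} :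
    g ∈ Com h ↔ ∃ i j : ℤ, i ≠ 0 ∧ j ≠ 0 ∧ g * h ^ i * g⁻¹ = h ^ j := Iff.rfl

lemma zpow_inj {Γ : Type} [Group Γ] {h : Γ} (hh : ¬ IsOfFinOrder h) {i j : ℤ}
    (hij : h ^ i = h ^ j) : i = j :=
  (injective_zpow_iff_not_isOfFinOrder.mpr hh) hij

section
variable {Γ : Type} [Group Γ] {h : Γ}

/-- elements of `Com h` commute with a power of `h` -/
lemma commutes (hh : ¬ IsOfFinOrder h) (hodd : ∀ t : Γ, IsOfFinOrder t → Odd (orderOf t))
    (S : Finset Γ) (hS : ∀ (g : Γ) (i j : ℤ), i ≠ 0 → g * h ^ i * g⁻¹ = h ^ j →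
      (i = j ∨ i = -j) ∧ ∃ s ∈ S, ∃ k : ℤ, g = h ^ k * s) (g : Γ) (hg : g ∈ Com h) :
    ∃ i : ℤ, i ≠ 0 ∧ g * h ^ i = h ^ i * g := by
  obtain ⟨i, j, hi, hj, hij⟩ := hg
  rcases (hS g i j hi hij).1 with h1 | h1
  · refine ⟨i, hi, ?_⟩
    rw [← h1] at hij
    calc g * h ^ i = (g * h ^ i * g⁻¹) * g := by group
      _ = h ^ i * g := by rw [hij]
  have hj' : j = -i := by omega
  subst hj'
  -- pigeonhole on the powers of `g`
  have hmem : ∀ n : ℕ, ∃ s ∈ S, ∃ k : ℤ, g ^ n = h ^ k * s := by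
    intro n
    have hn : g ^ n ∈ Com h := (Com h).pow_mem (mem_Com.mpr ⟨i, -i, hi, hj, hij⟩) n
    obtain ⟨a, b, ha, hb, hab⟩ := hn
    exact (hS (g ^ n) a b ha hab).2
  choose s hs k hk using hmem
  obtain ⟨n1, n2, hne, hss⟩ : ∃ n1 n2 : ℕ, n1 ≠ n2 ∧ s n1 = s n2 := by
    have hinf := Finite.exists_ne_map_eq_of_infinite (fun n : ℕ => (⟨s n, hs n⟩ : S))
    obtain ⟨a, b, hab, hh2⟩ := hinf
    exact ⟨a, b, hab, congrArg Subtype.val hh2⟩
  wlog hlt : n1 < n2 generalizing n1 n2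
  · exact this n2 n1 hne.symm hss.symm (by omega)
  have hpow : g ^ (n2 - n1) = h ^ (k n2 - k n1) := by
    have e1 : g ^ (n2 - n1) = g ^ n2 * (g ^ n1)⁻¹ := by
      rw [eq_mul_inv_iff_mul_eq, ← pow_add]
      congr 1
      omega
    rw [e1, hk n2, hk n1, hss, zpow_sub]
    group
  by_cases hl : k n2 - k n1 = 0
  · exfalso
    rw [hl, zpow_zero] at hpow
    have hfin : IsOfFinOrder g := isOfFinOrder_iff_pow_eq_one.mpr ⟨n2 - n1, by omega, hpow⟩
    obtain ⟨r, hr⟩ := hodd g hfin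
    have hconj : ∀ m : ℕ, g ^ m * h ^ i * (g ^ m)⁻¹ = h ^ ((-1) ^ m * i) := by
      intro m
      induction m with
      | zero => simp
      | succ m ih =>
        have e2 : g ^ (m + 1) * h ^ i * (g ^ (m + 1))⁻¹ =
            g * (g ^ m * h ^ i * (g ^ m)⁻¹) * g⁻¹ := by
          rw [pow_succ']
          group
        rw [e2, ih]
        have e3 : (-1 : ℤ) ^ m * i = i * (-1) ^ m := mul_comm _ _
        rw [e3, zpow_mul, ← conj_zpow, hij, ← zpow_mul]
        congr 1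
        rw [pow_succ]
        ring
    have h5 := hconj (orderOf g)
    rw [pow_orderOf_eq_one, hr] at h5
    have h6 : (-1 : ℤ) ^ (2 * r + 1) = -1 := by
      rw [pow_succ, pow_mul]
      simp
    rw [h6] at h5
    have h7 : h ^ i = h ^ (-1 * i) := by
      rw [← h5]
      group
    have h8 := zpow_inj hh h7
    omega
  · refine ⟨k n2 - k n1, hl, ?_⟩
    rw [← hpow]
    exact ((Commute.refl g).pow_right _).eq

/-- `Com h` is torsion free -/
lemma torsion_free (hh : ¬ IsOfFinOrder h) (hodd : ∀ t : Γ, IsOfFinOrder t → Odd (orderOf t))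
    (hcent : ∀ t : Γ, t ≠ 1 → IsOfFinOrder t → {g : Γ | g * t = t * g}.Finite)
    (S : Finset Γ) (hS : ∀ (g : Γ) (i j : ℤ), i ≠ 0 → g * h ^ i * g⁻¹ = h ^ j →
      (i = j ∨ i = -j) ∧ ∃ s ∈ S, ∃ k : ℤ, g = h ^ k * s) (g : Γ) (hg : g ∈ Com h)
    (hgf : IsOfFinOrder g) : g = 1 := by
  by_contra hne
  obtain ⟨i, hi, hc⟩ := commutes hh hodd S hS g hg
  have hfin := hcent g hne hgf
  have hinj : Function.Injective (fun n : ℤ => h ^ (i * n)) := by
    intro a b hab
    have := zpow_inj hh hab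
    exact mul_left_cancel₀ hi this
  refine Set.infinite_univ (hfin.of_injOn (f := fun n : ℤ => h ^ (i * n)) (s := Set.univ) ?_ ?_)
  · intro n _
    have hc' : Commute (h ^ i) g := hc.symm
    have := hc'.zpow_left n
    rw [← zpow_mul] at this
    exact this.eq
  · exact hinj.injOn

/-- a common central power of `h` -/
lemma central (hh : ¬ IsOfFinOrder h) (hodd : ∀ t : Γ, IsOfFinOrder t → Odd (orderOf t))
    (S : Finset Γ) (hS : ∀ (g : Γ) (i j : ℤ), i ≠ 0 → g * h ^ i * g⁻¹ = h ^ j →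
      (i = j ∨ i = -j) ∧ ∃ s ∈ S, ∃ k : ℤ, g = h ^ k * s) :
    ∃ i : ℤ, i ≠ 0 ∧ ∀ g ∈ Com h, g * h ^ i = h ^ i * g := by
  classical
  have hch : ∀ s : Γ, ∃ i : ℤ, i ≠ 0 ∧ (s ∈ Com h → s * h ^ i = h ^ i * s) := by
    intro s
    by_cases hs : s ∈ Com h
    · obtain ⟨i, hi, hc⟩ := commutes hh hodd S hS s hs
      exact ⟨i, hi, fun _ => hc⟩
    · exact ⟨1, one_ne_zero, fun h => absurd h hs⟩
  choose f hf0 hf using hch
  refine ⟨∏ s ∈ S, f s, Finset.prod_ne_zero_iff.mpr (fun s _ => hf0 s), ?_⟩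
  intro g hg
  obtain ⟨a, b, ha, hb, hab⟩ := hg
  obtain ⟨s, hs, k, hk⟩ := (hS g a b ha hab).2
  have hhC : h ∈ Com h := mem_Com.mpr ⟨1, 1, one_ne_zero, one_ne_zero, by group⟩
  have hsC : s ∈ Com h := by
    have : s = (h ^ k)⁻¹ * g := by rw [hk]; group
    rw [this]
    exact (Com h).mul_mem ((Com h).inv_mem ((Com h).zpow_mem hhC k))
      (mem_Com.mpr ⟨a, b, ha, hb, hab⟩)
  have hcs : Commute s (h ^ (∏ s ∈ S, f s)) := by
    rw [← Finset.mul_prod_erase S f hs, zpow_mul]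
    exact (Commute.zpow_right (hf s hsC) _)
  have hck : Commute (h ^ k) (h ^ (∏ s ∈ S, f s)) :=
    ((Commute.refl h).zpow_left _).zpow_right _
  have := hck.mul_left hcs
  rw [← hk] at this
  exact this.eq

end

end TK.ALG_

namespace TK

open Subgroup TK.ALG_

theorem p_ALG : T_ALG := by
  intro Γ _ h hh hodd hcent hSex
  obtain ⟨S, hS⟩ := hSex
  classical
  have hhC : h ∈ Com h := mem_Com.mpr ⟨1, 1, one_ne_zero, one_ne_zero, by group⟩
  obtain ⟨i0, hi0, hcen⟩ := central hh hodd S hS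
  have htf : ∀ g : Com h, IsOfFinOrder g → g = 1 := by
    intro g hg
    apply Subtype.ext
    refine torsion_free hh hodd hcent S hS g g.2 ?_
    obtain ⟨n, hn, hgn⟩ := isOfFinOrder_iff_pow_eq_one.mp hg
    exact isOfFinOrder_iff_pow_eq_one.mpr ⟨n, hn, by
      have := congrArg (Subtype.val) hgn
      simpa using this⟩
  set h' : Com h := ⟨h, hhC⟩ with hh'
  -- coset representatives
  have hrep : ∀ x : Com h, ∃ s ∈ S, ∃ k : ℤ, (x : Γ) = h ^ k * s := by
    intro x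
    obtain ⟨a, b, ha, hb, hab⟩ := x.2
    exact (hS x a b ha hab).2
  -- the center has finite index
  have hcenidx : (center (Com h)).FiniteIndex := by
    rw [finiteIndex_iff_finite_quotient]
    have hmemc : h' ^ i0 ∈ center (Com h) := by
      rw [mem_center_iff]
      intro g
      apply Subtype.ext
      exact hcen g g.2
    let T : Finset Γ := S
    let f : (T × Fin i0.natAbs) → Com h ⧸ center (Com h) := fun p =>
      if hp : (p.1 : Γ) ∈ Com h then
        QuotientGroup.mk ((⟨p.1, hp⟩ : Com h)⁻¹ * (h' ^ ((p.2 : ℕ) : ℤ))⁻¹) else 1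
    refine Finite.of_surjective f ?_
    intro q
    obtain ⟨x, rfl⟩ := QuotientGroup.mk_surjective q
    obtain ⟨s, hs, k, hk⟩ := hrep x⁻¹
    have hsC : s ∈ Com h := by
      have : s = (h ^ k)⁻¹ * (x⁻¹ : Com h) := by rw [hk]; group
      rw [this]
      exact (Com h).mul_mem ((Com h).inv_mem ((Com h).zpow_mem hhC k)) (x⁻¹).2
    have hr0 : 0 ≤ k % i0 := Int.emod_nonneg _ hi0
    have hr1 : (k % i0).toNat < i0.natAbs := by
      have := Int.emod_lt_abs k hi0
      rw [Int.abs_eq_natAbs] at this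
      omega
    refine ⟨(⟨s, hs⟩, ⟨(k % i0).toNat, hr1⟩), ?_⟩
    simp only [f]
    rw [dif_pos hsC, QuotientGroup.eq]
    have hxe : x = (⟨s, hsC⟩ : Com h)⁻¹ * (h' ^ k)⁻¹ := by
      have : x⁻¹ = h' ^ k * ⟨s, hsC⟩ := by
        apply Subtype.ext
        simpa using hk
      rw [← inv_inv x, this]
      group
    have hcast : (((k % i0).toNat : ℕ) : ℤ) = k % i0 := Int.toNat_of_nonneg hr0
    have hdecomp : h' ^ k = h' ^ (k % i0) * (h' ^ i0) ^ (k / i0) := by
      rw [← zpow_mul, ← zpow_add, Int.emod_add_mul_ediv]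
    rw [hcast, hxe, hdecomp]
    have : ((⟨s, hsC⟩ : Com h)⁻¹ * (h' ^ (k % i0))⁻¹)⁻¹ *
        ((⟨s, hsC⟩ : Com h)⁻¹ * (h' ^ (k % i0) * (h' ^ i0) ^ (k / i0))⁻¹) =
        h' ^ (k % i0) * ((h' ^ i0) ^ (k / i0))⁻¹ * (h' ^ (k % i0))⁻¹ := by
      group
    rw [this]
    exact (inferInstance : (center (Com h)).Normal).conj_mem _
      (inv_mem (zpow_mem hmemc _)) _
  -- commutative
  have hinj1 : Function.Injective (MonoidHom.transferCenterPow (Com h)) := by
    rw [injective_iff_map_eq_one]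
    intro g hg
    have h1 := congrArg (Subtype.val) hg
    rw [MonoidHom.transferCenterPow_apply] at h1
    apply htf
    exact isOfFinOrder_iff_pow_eq_one.mpr ⟨(center (Com h)).index,
      Nat.pos_of_ne_zero hcenidx.index_ne_zero, by simpa using h1⟩
  have hcomm : ∀ a b : Com h, a * b = b * a := by
    intro a b
    apply hinj1
    rw [map_mul, map_mul]
    apply Subtype.ext
    exact (mem_center_iff.mp (MonoidHom.transferCenterPow (Com h) a).2 _).symm
  let _ : CommGroup (Com h) := { (inferInstance : Group (Com h)) with mul_comm := hcomm }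
  -- finite index of `⟨h⟩`
  have hidx : (zpowers h').FiniteIndex := by
    rw [finiteIndex_iff_finite_quotient]
    let f : S → Com h ⧸ zpowers h' := fun p =>
      if hp : (p : Γ) ∈ Com h then QuotientGroup.mk ((⟨p, hp⟩ : Com h)⁻¹) else 1
    refine Finite.of_surjective f ?_
    intro q
    obtain ⟨x, rfl⟩ := QuotientGroup.mk_surjective q
    obtain ⟨s, hs, k, hk⟩ := hrep x⁻¹
    have hsC : s ∈ Com h := by
      have : s = (h ^ k)⁻¹ * (x⁻¹ : Com h) := by rw [hk]; group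
      rw [this]
      exact (Com h).mul_mem ((Com h).inv_mem ((Com h).zpow_mem hhC k)) (x⁻¹).2
    refine ⟨⟨s, hs⟩, ?_⟩
    simp only [f]
    rw [dif_pos hsC, QuotientGroup.eq]
    have hxe : x⁻¹ = h' ^ k * ⟨s, hsC⟩ := by
      apply Subtype.ext
      simpa using hk
    have : ((⟨s, hsC⟩ : Com h)⁻¹)⁻¹ * x = (h' ^ k)⁻¹ := by
      rw [inv_inv, ← inv_inj, mul_inv_rev, hxe, inv_inv]
      group
    rw [this]
    exact inv_mem (zpow_mem (mem_zpowers h') k)
  let φ : Com h →* zpowers h' :=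
    { toFun := fun g => ⟨g ^ (zpowers h').index, pow_index_mem (zpowers h') g⟩
      map_one' := Subtype.ext (one_pow _)
      map_mul' := fun a b => Subtype.ext (mul_pow _ _ _) }
  have hφ : Function.Injective φ := by
    rw [injective_iff_map_eq_one]
    intro g hg
    have h1 : g ^ (zpowers h').index = 1 := congrArg Subtype.val hg
    exact htf g (isOfFinOrder_iff_pow_eq_one.mpr ⟨(zpowers h').index,
      Nat.pos_of_ne_zero hidx.index_ne_zero, h1⟩)
  have hcyc : IsCyclic (Com h) := isCyclic_of_injective φ hφ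
  obtain ⟨e, he⟩ := hcyc.exists_generator
  have heC : ∀ g ∈ Com h, g ∈ zpowers (e : Γ) := by
    intro g hg
    obtain ⟨k, hk⟩ := mem_zpowers_iff.mp (he ⟨g, hg⟩)
    rw [mem_zpowers_iff]
    exact ⟨k, by simpa using congrArg Subtype.val hk⟩
  refine ⟨e, heC h hhC, ?_⟩
  intro g i j hi hij
  obtain ⟨s, hs⟩ := mem_zpowers_iff.mp (heC h hhC)
  have hs0 : s ≠ 0 := by
    rintro rfl
    rw [zpow_zero] at hs
    apply hh
    rw [← hs]
    exact IsOfFinOrder.one
  have h3 : g * h ^ i * g⁻¹ = h ^ j := by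
    rw [← hs, ← zpow_mul, ← zpow_mul, mul_comm s i, mul_comm s j, zpow_mul, zpow_mul,
      ← conj_zpow, hij]
  have h4 := (hS g i j hi h3).1
  exact heC g (mem_Com.mpr ⟨i, j, hi, by omega, h3⟩)

end TK
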