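import Pool.Agent.TK.Targets2

set_option autoImplicit false
set_option linter.unusedVariables false

/-!
# Project TK (MP_3ae405_al, `k = 5`): invariant quasiconvex sets for `v(a, w b w⁻¹)`
-/

namespace TK

open Subgroup

namespace AW_

theorem qc_mono {V : Type} {d : V → V → ℕ} {κ κ' : ℕ} {Y : Set V} (h : QC d κ Y) (hk : κ ≤ κ') :
    QC d κ' Y := by
  intro y hy y' hy' p hp
  obtain ⟨q, hq, hpq⟩ := h y hy y' hy' p hp
  exact ⟨q, hq, hpq.trans hk⟩

/-- An upper bound for the projection distance of two points of `V`. -/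
theorem pd_le {V J : Type} {d : V → V → ℕ} {Y : J → Set V} {j : J} (hne : (Y j).Nonempty)
    {x x' : V} {m : ℕ} (h : ∀ y y', Near d (Y j) x y → Near d (Y j) x' y' → d y y' ≤ m) :
    PD d Y j (Sum.inl x) (Sum.inl x') ≤ m := by
  unfold PD
  apply csSup_le
  · obtain ⟨y, hy⟩ := exists_near (d := d) hne x
    obtain ⟨y', hy'⟩ := exists_near (d := d) hne x'
    exact ⟨_, y, y', hy, hy', rfl⟩
  · rintro n ⟨y, y', hy, hy', rfl⟩
    exact h y y' hy hy'

/-- Translation of nearest points. -/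
theorem near_smul {V Γ J : Type} [Group Γ] [MulAction Γ V] [MulAction Γ J] {d : V → V → ℕ}
    {Y : J → Set V} (hinv : ∀ (g : Γ) (x y : V), d (g • x) (g • y) = d x y)
    (hY : ∀ (g : Γ) (x : V) (j : J), x ∈ Y j → g • x ∈ Y (g • j)) {j : J} {x y : V} (g : Γ)
    (h : Near d (Y j) (g • x) y) : Near d (Y (g⁻¹ • j)) x (g⁻¹ • y) := by
  refine ⟨hY g⁻¹ y j h.1, fun z hz => ?_⟩
  have h1 := hY g z _ hz
  rw [smul_inv_smul] at h1
  have h2 := h.2 _ h1
  rw [hinv] at h2
  have h3 := hinv g x (g⁻¹ • y)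
  rw [smul_inv_smul] at h3
  omega

/-- `v` moves a fixed point `ca` of `a` by at most `8 |ca c'|`. -/
theorem move {V Γ : Type} [Group Γ] [MulAction Γ V] {d : V → V → ℕ} (hg : Geo d)
    (hinv : ∀ (g : Γ) (x y : V), d (g • x) (g • y) = d x y) {a b : Γ} {ca c' : V}
    (ha : a • ca = ca) (hb : b • c' = c') : d ca (vw a b • ca) ≤ 8 * d ca c' := by
  have hmul : ∀ g h : Γ, d ca ((g * h) • ca) ≤ d ca (g • ca) + d ca (h • ca) := by
    intro g h
    have h1 := hg.tri ca (g • ca) ((g * h) • ca)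
    rw [mul_smul, hinv g ca (h • ca)] at h1
    rw [mul_smul]
    exact h1
  have hinvd : ∀ g : Γ, d ca (g⁻¹ • ca) = d ca (g • ca) := by
    intro g
    have h1 := hinv g ca (g⁻¹ • ca)
    rw [smul_inv_smul] at h1
    rw [← h1, hg.symm]
  have ha0 : d ca (a • ca) = 0 := by rw [ha]; exact hg.self ca
  have hb0 : d ca (b • ca) ≤ 2 * d ca c' := by
    have h1 := hg.tri ca c' (b • ca)
    have h2 := hinv b c' ca
    rw [hb] at h2
    have h3 := hg.symm c' ca
    omega
  have ha1 := hinvd a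
  have hb1 := hinvd b
  unfold vw
  have e1 := hmul (b * a * b⁻¹ * a * b * a⁻¹ * b⁻¹) a
  have e2 := hmul (b * a * b⁻¹ * a * b * a⁻¹) b⁻¹
  have e3 := hmul (b * a * b⁻¹ * a * b) a⁻¹
  have e4 := hmul (b * a * b⁻¹ * a) b
  have e5 := hmul (b * a * b⁻¹) a
  have e6 := hmul (b * a) b⁻¹
  have e7 := hmul b a
  omega

/-- Elements of finite order different from one fix no coset of `zpowers e`. -/
theorem no_fix {Γ : Type} [Group Γ] {e : Γ} (he : ¬ IsOfFinOrder e) {s : Γ} (hs : IsOfFinOrder s)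
    (h1 : s ≠ 1) (j : Γ ⧸ zpowers e) : s • j ≠ j := by
  intro hj
  obtain ⟨g, rfl⟩ := QuotientGroup.mk_surjective j
  have h2 : (QuotientGroup.mk (s * g) : Γ ⧸ zpowers e) = QuotientGroup.mk g := hj
  rw [eq_comm, QuotientGroup.eq] at h2
  obtain ⟨k, hk⟩ := h2
  have hk' : e ^ k = g⁻¹ * (s * g) := hk
  have hfin : IsOfFinOrder (e ^ k) := by
    rw [hk']
    have : g⁻¹ * (s * g) = MulAut.conj g⁻¹ s := by
      rw [MulAut.conj_apply, inv_inv, mul_assoc]
    rw [this]
    exact (MulAut.conj g⁻¹ : Γ ≃* Γ).toMonoidHom.isOfFinOrder hs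
  have hk0 : k = 0 := by
    by_contra hne
    apply he
    rw [isOfFinOrder_iff_zpow_eq_one] at hfin ⊢
    obtain ⟨n, hn, hn1⟩ := hfin
    exact ⟨k * n, mul_ne_zero hne hn, by rw [zpow_mul]; exact hn1⟩
  rw [hk0, zpow_zero] at hk'
  apply h1
  have : s = g * (g⁻¹ * (s * g)) * g⁻¹ := by group
  rw [this, ← hk']
  group

/-- The corner constant for all non trivial powers of an element of finite order. -/
theorem corner (hCB : T_CB) {Γ : Type} [Group Γ] {V : Type} [MulAction Γ V] {d : V → V → ℕ}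
    {x0 : V} (hact : GeoAct Γ V d x0)
    (hc : ∀ t : Γ, t ≠ 1 → IsOfFinOrder t → {g : Γ | g * t = t * g}.Finite)
    {a : Γ} (ha : IsOfFinOrder a) : ∃ E : ℕ, ∀ i : ℤ, a ^ i ≠ 1 → ∀ c z : V, a ^ i • c = c →
      d z c + d c (a ^ i • z) ≤ d z (a ^ i • z) + E := by
  have h1 : ∀ s : Γ, ∃ E : ℕ, s ∈ zpowers a → s ≠ 1 → ∀ c z : V, s • c = c →
      d z c + d c (s • z) ≤ d z (s • z) + E := by
    intro s
    by_cases hs : s ∈ zpowers a ∧ s ≠ 1
    · have hf : IsOfFinOrder s := by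
        obtain ⟨k, hk⟩ := hs.1
        have hk' : a ^ k = s := hk
        rw [← hk']
        exact ha.zpow
      obtain ⟨E, hE⟩ := hCB Γ V d x0 hact s (hc s hs.2 hf)
      exact ⟨E, fun _ _ => hE⟩
    · exact ⟨0, fun h2 h3 => absurd ⟨h2, h3⟩ hs⟩
  choose f hf using h1
  have hfin : ((zpowers a : Set Γ)).Finite := finite_zpowers.2 ha
  obtain ⟨E, hE⟩ := (hfin.image f).bddAbove
  refine ⟨E, fun i hi c z hcz => ?_⟩
  have hm : a ^ i ∈ zpowers a := ⟨i, rfl⟩
  have h2 := hf (a ^ i) hm hi c z hcz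
  have h3 : f (a ^ i) ≤ E := hE ⟨_, hm, rfl⟩
  omega

end AW_

open AW_ in
theorem p_AW (hCB : T_CB) (hQBQ : T_QBQ) (hQBO : T_QBO) (hGPG : T_GPG) (hPD : T_PD) (hYR : T_YR)
    (hCINV : T_CINV) (hCONE : T_CONE) : T_AW := by
  intro Γ _ V _ d x0 H e δ κ c B hKE hcen a b ca cb ha5 hb3 haca hbcb
  have haf : IsOfFinOrder a := isOfFinOrder_iff_pow_eq_one.2 ⟨5, by norm_num, ha5⟩
  have hbf : IsOfFinOrder b := isOfFinOrder_iff_pow_eq_one.2 ⟨3, by norm_num, hb3⟩
  have hg := hKE.act.geo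
  have hinv := hKE.act.inv
  obtain ⟨Ea, hEa⟩ := corner hCB hKE.act hcen haf
  obtain ⟨Eb, hEb⟩ := corner hCB hKE.act hcen hbf
  set E1 := max Ea Eb with hE1
  obtain ⟨EG, hEG⟩ := hGPG Γ V d x0 H e δ κ c B hKE 0 0
  obtain ⟨κA1, M1, hQ⟩ := hQBQ δ E1
  obtain ⟨M2, E2, hO⟩ := hQBO δ κ B E1 EG
  obtain ⟨B', hB'⟩ := hKE.inf (8 * (max M1 M2))
  obtain ⟨EP, hEP⟩ := hPD δ κ B
  obtain ⟨hy1, hy2, -, -⟩ := hYR Γ V e x0
  refine ⟨max κA1 B', max (max EG E2) (2 * B'), fun N hN hℓ w hw => ?_⟩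
  set b' := w * b * w⁻¹ with hb'
  set c' := w • cb with hc'
  set v := vw a b' with hv
  set ℓ := d x0 (e ^ N • x0) with hℓd
  have hb'c' : b' • c' = c' := by
    rw [hb', hc', ← mul_smul]
    have : w * b * w⁻¹ * w = w * b := by group
    rw [this, mul_smul, hbcb]
  by_cases hvf : IsOfFinOrder v
  · exact Or.inl hvf
  by_cases hvj : ∃ j : Γ ⧸ zpowers e, v • j = j
  · exact Or.inr (Or.inl hvj)
  right; right
  by_cases hcase : d ca c' < max M1 M2
  · -- short distance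
    have hmove : d ca (v • ca) ≤ 8 * max M1 M2 := by
      have h1 : d ca (v • ca) ≤ 8 * d ca c' := move hg hinv haca hb'c'
      omega
    have hmove2 : ∀ i : ℤ, d (v ^ i • ca) (v • v ^ i • ca) ≤ 8 * max M1 M2 := by
      intro i
      have h1 : v • v ^ i • ca = v ^ i • v • ca := by
        rw [← mul_smul, ← mul_smul, (Commute.self_zpow v i).eq]
      rw [h1, hinv]
      exact hmove
    refine ⟨Set.range fun i : ℤ => v ^ i • ca, ⟨_, 0, rfl⟩,
      qc_mono (hB' v hvf ca hmove).1 (le_max_right _ _), ?_, ?_⟩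
    · rintro u ⟨i, rfl⟩
      refine ⟨⟨i + 1, ?_⟩, ⟨i - 1, ?_⟩⟩
      · show v ^ (i + 1) • ca = v • v ^ i • ca
        rw [← mul_smul, add_comm, zpow_add, zpow_one]
      · show v ^ (i - 1) • ca = v⁻¹ • v ^ i • ca
        rw [← mul_smul, sub_eq_neg_add, zpow_add, zpow_neg_one]
    · rintro u ⟨i, rfl⟩ n j
      obtain ⟨g, rfl⟩ := QuotientGroup.mk_surjective j
      have hng : g⁻¹ * v * g ∉ zpowers e := by
        intro h
        apply hvj
        refine ⟨QuotientGroup.mk g, ?_⟩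
        show (QuotientGroup.mk (v * g) : Γ ⧸ zpowers e) = QuotientGroup.mk g
        rw [eq_comm, QuotientGroup.eq, ← mul_assoc]
        exact h
      have h2 := (hB' v hvf (v ^ i • ca) (hmove2 i)).2 g hng n
      have h3 : PD d (Yf e x0) (QuotientGroup.mk g) (Sum.inl (v ^ i • ca))
          (Sum.inl (v ^ n • v ^ i • ca)) ≤ B' := by
        apply pd_le (hKE.fam.ne _)
        intro y y' hy hy'
        rw [hy1 g] at hy hy'
        exact h2 y y' hy hy'
      have h4 := le_max_right (max EG E2) (2 * B')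
      show 4 * PD d (Yf e x0) (QuotientGroup.mk g) (Sum.inl (v ^ i • ca))
          (Sum.inl (v ^ n • v ^ i • ca)) ≤ 3 * ℓ
      omega
  · -- large distance
    push Not at hcase
    have hcor1 : ∀ i : ℤ, a ^ i ≠ 1 → d c' ca + d ca (a ^ i • c') ≤ d c' (a ^ i • c') + E1 := by
      intro i hi
      have hfix : a ^ i • ca = ca := by
        have : a ^ i ∈ MulAction.stabilizer Γ ca := zpow_mem (MulAction.mem_stabilizer_iff.2 haca) i
        exact this
      have := hEa i hi ca c' hfix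
      have := le_max_left Ea Eb
      omega
    have hpow : ∀ i : ℤ, b' ^ i = w * b ^ i * w⁻¹ := by
      intro i
      rw [hb', conj_zpow]
    have hcor2 : ∀ i : ℤ, b' ^ i ≠ 1 → d ca c' + d c' (b' ^ i • ca) ≤ d ca (b' ^ i • ca) + E1 := by
      intro i hi
      have hbi : b ^ i ≠ 1 := by
        intro h
        apply hi
        rw [hpow, h]
        group
      have hfix : b ^ i • cb = cb := by
        have : b ^ i ∈ MulAction.stabilizer Γ cb := zpow_mem (MulAction.mem_stabilizer_iff.2 hbcb) i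
        exact this
      have h1 := hEb i hbi cb (w⁻¹ • ca) hfix
      have h2 : d ca c' = d (w⁻¹ • ca) cb := by
        rw [← hinv w (w⁻¹ • ca) cb, smul_inv_smul]
      have h3 : d c' (b' ^ i • ca) = d cb (b ^ i • w⁻¹ • ca) := by
        rw [← hinv w cb (b ^ i • w⁻¹ • ca), hpow, ← mul_smul, ← mul_smul]
      have h4 : d ca (b' ^ i • ca) = d (w⁻¹ • ca) (b ^ i • w⁻¹ • ca) := by
        rw [← hinv w (w⁻¹ • ca) (b ^ i • w⁻¹ • ca), smul_inv_smul, hpow, ← mul_smul, ← mul_smul]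
      have := le_max_right Ea Eb
      omega
    have hmem_a : a ∈ closure ({a, b'} : Set Γ) := subset_closure (by simp)
    have hmem_b : b' ∈ closure ({a, b'} : Set Γ) := subset_closure (by simp)
    have hvm : v ∈ closure ({a, b'} : Set Γ) := by
      rw [hv]
      unfold vw
      have ia := inv_mem hmem_a
      have ib := inv_mem hmem_b
      exact mul_mem (mul_mem (mul_mem (mul_mem (mul_mem (mul_mem (mul_mem hmem_b hmem_a) ib)
        hmem_a) hmem_b) ia) ib) hmem_a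
    have hAinv : ∀ g ∈ closure ({a, b'} : Set Γ), ∀ u ∈ AW d a b' ca c', g • u ∈ AW d a b' ca c' := by
      rintro g hg' u ⟨g1, hg1, hu⟩
      refine ⟨g * g1, mul_mem hg' hg1, ?_⟩
      unfold Btw at hu ⊢
      rw [mul_smul, mul_smul, hinv, hinv, hinv]
      exact hu
    have hsfix : ∀ g s : Γ, (∃ i : ℤ, (a ^ i ≠ 1 ∧ s = g * a ^ i * g⁻¹) ∨
        (b' ^ i ≠ 1 ∧ s = g * b' ^ i * g⁻¹)) → ∀ j : Γ ⧸ zpowers e, s • j ≠ j := by
      have hconj : ∀ (g t : Γ), IsOfFinOrder t → IsOfFinOrder (g * t * g⁻¹) := by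
        intro g t ht
        exact (MulAut.conj g : Γ ≃* Γ).toMonoidHom.isOfFinOrder ht
      have hconj1 : ∀ (g t : Γ), t ≠ 1 → g * t * g⁻¹ ≠ 1 := by
        intro g t ht h
        apply ht
        have : t = g⁻¹ * (g * t * g⁻¹) * g := by group
        rw [this, h]
        group
      rintro g s ⟨i, ⟨hi, rfl⟩ | ⟨hi, rfl⟩⟩ j
      · exact no_fix hKE.einf (hconj g _ haf.zpow) (hconj1 g _ hi) j
      · have hb'f : IsOfFinOrder b' := hconj w b hbf
        exact no_fix hKE.einf (hconj g _ hb'f.zpow) (hconj1 g _ hi) j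
    refine ⟨AW d a b' ca c', ⟨ca, 1, one_mem _, ?_⟩,
      qc_mono (hQ V Γ d hg hKE.fam.thin hinv a b' ca c' haca hb'c' hcor1 hcor2
        (le_trans (le_max_left _ _) hcase)) (le_max_left _ _), ?_, ?_⟩
    · rw [one_smul, one_smul]
      exact btw_left hg ca c'
    · intro u hu
      exact ⟨hAinv v hvm u hu, hAinv v⁻¹ (inv_mem hvm) u hu⟩
    · intro u hu n j
      have hu' : v ^ n • u ∈ AW d a b' ca c' := hAinv _ (zpow_mem hvm n) u hu
      have hE2 : E2 ≤ ℓ := le_trans (le_trans (le_max_right _ _) (le_max_left _ _)) hℓ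
      have hEGℓ : EG ≤ ℓ := le_trans (le_trans (le_max_left _ _) (le_max_left _ _)) hℓ
      have hmain := hO V Γ d hg hKE.fam.thin hinv a b' ca c' haca hb'c' hcor1 hcor2
        (le_trans (le_max_right _ _) hcase) (Yf e x0 j) ℓ (hKE.fam.qc j) hE2 ?_ ?_ u hu _ hu'
      · have h3 : PD d (Yf e x0) j (Sum.inl u) (Sum.inl (v ^ n • u)) ≤ 3 * ℓ / 4 := by
          apply pd_le (hKE.fam.ne _)
          intro y y' hy hy'
          have := hmain y y' hy hy'
          omega
        omega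
      · intro g hgm q q' hq hq'
        have n1 := near_smul hinv hy2 g hq
        have n2 := near_smul hinv hy2 g hq'
        have h1 := ((hEP V (Γ ⧸ zpowers e) d (Yf e x0) hKE.fam (g⁻¹ • j)).2.2.1 (Sum.inl ca)
          (Sum.inl c') (by simp) (by simp) _ _ n1 n2).1
        rw [hinv] at h1
        have h2 := (hEG N hN hEGℓ).1 ca c' (g⁻¹ • j) (by
          intro r hr
          have := hw r hr
          rw [mul_smul] at this
          exact this)
        omega
      · intro g hgm s hs z hz z' hz' w1 w1' hw1 hw1'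
        have hne := hsfix g s hs j
        exact hKE.fam.bo (s • j) j hne (s • z) (hy2 s z j hz) (s • z') (hy2 s z' j hz') w1 w1'
          hw1 hw1'

end TK
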