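import Pool.Agent.TK.Targets1

set_option autoImplicit false
set_option linter.unusedVariables false

/-!
# TK-AX: the axes of a maximal infinite order element
-/

namespace TK

open Subgroup

namespace AX_

theorem qc_mono {V : Type} {d : V → V → ℕ} {k k' : ℕ} (h : k ≤ k') {Y : Set V}
    (hY : QC d k Y) : QC d k' Y := by
  intro y hy y' hy' p hp
  obtain ⟨q, hq, hpq⟩ := hY y hy y' hy' p hp
  exact ⟨q, hq, hpq.trans h⟩

theorem orb_zpowers {Γ V : Type} [Group Γ] [MulAction Γ V] (e : Γ) (x : V) :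
    orb (zpowers e) 1 x = Set.range fun i : ℤ => e ^ i • x := by
  ext y
  constructor
  · rintro ⟨p, hp, rfl⟩
    obtain ⟨i, rfl⟩ := Subgroup.mem_zpowers_iff.1 hp
    exact ⟨i, by simp⟩
  · rintro ⟨i, rfl⟩
    exact ⟨e ^ i, Subgroup.mem_zpowers_iff.2 ⟨i, rfl⟩, by simp⟩

theorem qc_orb {Γ V : Type} [Group Γ] [MulAction Γ V] {d : V → V → ℕ}
    (hinv : ∀ (g : Γ) (x y : V), d (g • x) (g • y) = d x y) {k : ℕ} {P : Subgroup Γ} {x : V}
    (h : QC d k (orb P 1 x)) (g : Γ) : QC d k (orb P g x) := by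
  rintro y ⟨p, hp, rfl⟩ y' ⟨p', hp', rfl⟩ q hq
  have h1 : Btw d ((1 * p) • x) (g⁻¹ • q) ((1 * p') • x) := by
    unfold Btw at *
    rw [← hinv g ((1 * p) • x), ← hinv g _ ((1 * p') • x), ← hinv g ((1 * p) • x) ((1 * p') • x)]
    simpa [smul_smul] using hq
  obtain ⟨r, ⟨s, hs, rfl⟩, hr⟩ := h _ ⟨p, hp, rfl⟩ _ ⟨p', hp', rfl⟩ _ h1
  refine ⟨(g * s) • x, ⟨s, hs, rfl⟩, ?_⟩
  rw [← hinv g] at hr
  simpa [smul_smul] using hr

theorem orb_ne {Γ V : Type} [Group Γ] [MulAction Γ V] (P : Subgroup Γ) (g : Γ) (x : V) :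
    (orb P g x).Nonempty := ⟨(g * 1) • x, 1, P.one_mem, rfl⟩

/-- geodesics with close endpoints -/
theorem close {V : Type} {d : V → V → ℕ} {δ D0 : ℕ} (hd : Geo d) (hδ : Thin d δ) {y y' a b q : V}
    (h1 : d y a ≤ D0) (h2 : d y' b ≤ D0) (hq : Btw d y q y') :
    ∃ r, Btw d a r b ∧ d q r ≤ 2 * δ + D0 := by
  obtain ⟨q1, hq1, hqq1⟩ := hδ y y' b q hq
  rcases hq1 with hq1 | hq1
  · obtain ⟨q2, hq2, hqq2⟩ := hδ y b a q1 hq1
    rcases hq2 with hq2 | hq2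
    · refine ⟨a, btw_left hd a b, ?_⟩
      unfold Btw at hq2
      have := hd.tri q q1 a
      have := hd.tri q1 q2 a
      omega
    · refine ⟨q2, hq2, ?_⟩
      have := hd.tri q q1 q2
      omega
  · refine ⟨b, btw_right hd a b, ?_⟩
    unfold Btw at hq1
    have := hd.tri q q1 b
    have := hd.symm q1 b
    have := hd.symm b y'
    omega

theorem conj_zpow' {Γ : Type} [Group Γ] (k t : Γ) (n : ℤ) :
    (k⁻¹ * t * k) ^ n = k⁻¹ * t ^ n * k := by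
  have := conj_zpow (a := k⁻¹) (b := t) (i := n)
  simpa using this

theorem conj_infinite {Γ : Type} [Group Γ] (k t : Γ) (ht : ¬ IsOfFinOrder t) :
    ¬ IsOfFinOrder (k⁻¹ * t * k) := by
  intro h
  apply ht
  obtain ⟨n, hn, h1⟩ := isOfFinOrder_iff_pow_eq_one.1 h
  refine isOfFinOrder_iff_pow_eq_one.2 ⟨n, hn, ?_⟩
  have h2 := conj_zpow' k t (n : ℤ)
  rw [zpow_natCast, zpow_natCast, h1] at h2
  have h3 : t ^ n = k * (k⁻¹ * t ^ n * k) * k⁻¹ := by group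
  rw [h3, ← h2]; group

end AX_

open AX_ in
theorem p_AX (hQL : T_QL) (hPH : T_PH) (hCNT : T_CNT) : T_AX := by
  intro Γ _ V _ d x0 hA H e he hmax ⟨κH, hκH⟩ hH
  obtain ⟨hd, ⟨δ, hδ⟩, hinv, hball, hstab, ⟨D0, hD0⟩⟩ := id hA
  have hC : Four d (4 * δ + 2) := four_of_thin hd hδ
  obtain ⟨⟨c, hc⟩, -, ⟨κ0, hκ0⟩⟩ := hQL Γ V d x0 hA e he x0
  rw [← orb_zpowers] at hκ0
  obtain ⟨κ, hκ⟩ : ∃ κ, κ = max κ0 κH := ⟨_, rfl⟩
  have hκe : QC d κ (orb (zpowers e) 1 x0) := qc_mono (by omega) hκ0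
  have hκH' : QC d κ (orb H 1 x0) := qc_mono (by omega) hκH
  obtain ⟨M, hM⟩ := hPH Γ V d x0 hA κ
  refine ⟨κ, c, M, hc, hκe, ?_, ?_, ?_⟩
  · intro g g' hg z hz z' hz' y y' hy hy'
    by_contra hcon
    push Not at hcon
    obtain ⟨p, hp, q, hq, hp1, hpq⟩ :=
      hM (zpowers e) (zpowers e) hκe hκe g g' z hz z' hz' y y' hy hy' hcon
    obtain ⟨i, rfl⟩ := Subgroup.mem_zpowers_iff.1 hp
    obtain ⟨j, rfl⟩ := Subgroup.mem_zpowers_iff.1 hq
    have hi : i ≠ 0 := by rintro rfl; simp at hp1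
    have h1 : (g'⁻¹ * g) * e ^ i * (g'⁻¹ * g)⁻¹ = e ^ j := by
      calc (g'⁻¹ * g) * e ^ i * (g'⁻¹ * g)⁻¹ = g'⁻¹ * (g * e ^ i * g⁻¹) * g' := by group
        _ = e ^ j := by rw [hpq]; group
    have h2 := hmax _ i j hi h1
    apply hg
    have h3 := (zpowers e).inv_mem h2
    simpa using h3
  · intro g g' z hz z' hz' y y' hy hy'
    by_contra hcon
    push Not at hcon
    obtain ⟨p, hp, q, hq, hp1, hpq⟩ :=
      hM (zpowers e) H hκe hκH' g g' z hz z' hz' y y' hy hy' hcon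
    obtain ⟨i, rfl⟩ := Subgroup.mem_zpowers_iff.1 hp
    have hi : i ≠ 0 := by rintro rfl; simp at hp1
    apply hH (g⁻¹ * g') i hi
    have h1 : (g⁻¹ * g')⁻¹ * e ^ i * (g⁻¹ * g') = q := by
      calc (g⁻¹ * g')⁻¹ * e ^ i * (g⁻¹ * g') = g'⁻¹ * (g * e ^ i * g⁻¹) * g' := by group
        _ = q := by rw [hpq]; group
    rw [h1]; exact hq
  · intro M0
    have hS : {s : Γ | d x0 (s • x0) ≤ M0 + 2 * D0}.Finite := by
      obtain ⟨N, hN, -⟩ := hCNT Γ V d x0 hA (M0 + 2 * D0)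
      exact (hN x0 x0).1
    have hex : ∀ s : Γ, ∃ k : ℕ, ¬ IsOfFinOrder s → QC d k (orb (zpowers s) 1 x0) := by
      intro s
      by_cases hs : IsOfFinOrder s
      · exact ⟨0, fun h => absurd hs h⟩
      · obtain ⟨-, -, ⟨k, hk⟩⟩ := hQL Γ V d x0 hA s hs x0
        exact ⟨k, fun _ => by rw [orb_zpowers]; exact hk⟩
    choose f hf using hex
    obtain ⟨κ', hκ'⟩ := (hS.image f).bddAbove
    obtain ⟨κ2, hκ2⟩ : ∃ κ2, κ2 = max κ κ' := ⟨_, rfl⟩
    obtain ⟨M2, hM2⟩ := hPH Γ V d x0 hA κ2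
    refine ⟨2 * δ + 2 * D0 + κ' + (M2 + 2 * (D0 + (5 * (4 * δ + 2) + 4 * κ + 2))), ?_⟩
    intro t ht p hp
    obtain ⟨k, hk⟩ := hD0 p
    have ht' : ¬ IsOfFinOrder (k⁻¹ * t * k) := conj_infinite k t ht
    have hmem : (k⁻¹ * t * k) ∈ {s : Γ | d x0 (s • x0) ≤ M0 + 2 * D0} := by
      show d x0 ((k⁻¹ * t * k) • x0) ≤ M0 + 2 * D0
      have e1 : d x0 ((k⁻¹ * t * k) • x0) = d (k • x0) (t • k • x0) := by
        rw [← hinv k x0]
        simp [smul_smul, mul_assoc]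
      have e2 := hd.tri (k • x0) p (t • k • x0)
      have e3 := hd.tri p (t • p) (t • k • x0)
      have e4 := hinv t p (k • x0)
      have e5 := hd.symm (k • x0) p
      omega
    have hft : f (k⁻¹ * t * k) ≤ κ' := hκ' ⟨_, hmem, rfl⟩
    have hQt : QC d κ' (orb (zpowers (k⁻¹ * t * k)) 1 x0) := qc_mono hft (hf _ ht')
    have hclose : ∀ i : ℤ, d (t ^ i • p) ((k * (k⁻¹ * t * k) ^ i) • x0) ≤ D0 := by
      intro i
      have e1 : (k * (k⁻¹ * t * k) ^ i) • x0 = t ^ i • k • x0 := by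
        rw [conj_zpow', smul_smul]
        congr 1
        group
      rw [e1, hinv]; exact hk
    constructor
    · rintro _ ⟨i, rfl⟩ _ ⟨j, rfl⟩ q hq
      obtain ⟨r, hr, hqr⟩ := close hd hδ (hclose i) (hclose j) hq
      obtain ⟨s, ⟨w, hw, rfl⟩, hs⟩ := (qc_orb hinv hQt k) _
        ⟨_, Subgroup.mem_zpowers_iff.2 ⟨i, rfl⟩, rfl⟩ _
        ⟨_, Subgroup.mem_zpowers_iff.2 ⟨j, rfl⟩, rfl⟩ r hr
      obtain ⟨m, rfl⟩ := Subgroup.mem_zpowers_iff.1 hw
      refine ⟨_, ⟨m, rfl⟩, ?_⟩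
      have e1 := hclose m
      have e2 := hd.tri q r (t ^ m • p)
      have e3 := hd.tri r ((k * (k⁻¹ * t * k) ^ m) • x0) (t ^ m • p)
      have e4 := hd.symm ((k * (k⁻¹ * t * k) ^ m) • x0) (t ^ m • p)
      show d q (t ^ m • p) ≤ _
      omega
    · intro g hg n y y' hy hy'
      obtain ⟨u, hu⟩ := exists_near (d := d) (orb_ne (zpowers e) g x0)
        ((k * (k⁻¹ * t * k) ^ (0 : ℤ)) • x0)
      obtain ⟨u', hu'⟩ := exists_near (d := d) (orb_ne (zpowers e) g x0)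
        ((k * (k⁻¹ * t * k) ^ n) • x0)
      have huu : d u u' ≤ M2 := by
        by_contra hcon
        push Not at hcon
        obtain ⟨a, ha, b, hb, ha1, hab⟩ :=
          hM2 (zpowers e) (zpowers (k⁻¹ * t * k)) (qc_mono (by omega) hκe)
            (qc_mono (by omega) hQt) g k _
            ⟨_, Subgroup.mem_zpowers_iff.2 ⟨0, rfl⟩, rfl⟩ _
            ⟨_, Subgroup.mem_zpowers_iff.2 ⟨n, rfl⟩, rfl⟩ u u' hu hu' hcon
        obtain ⟨i, rfl⟩ := Subgroup.mem_zpowers_iff.1 ha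
        obtain ⟨m, rfl⟩ := Subgroup.mem_zpowers_iff.1 hb
        have hi : i ≠ 0 := by rintro rfl; simp at ha1
        have h1 : g * e ^ i * g⁻¹ = t ^ m := by
          rw [hab, conj_zpow']; group
        apply hg
        refine hmax _ i i hi ?_
        calc (g⁻¹ * t * g) * e ^ i * (g⁻¹ * t * g)⁻¹ = g⁻¹ * t * (g * e ^ i * g⁻¹) * t⁻¹ * g := by
              group
          _ = g⁻¹ * t ^ m * g := by rw [h1]; group
          _ = e ^ i := by rw [← h1]; group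
      have hQg := qc_orb hinv hκe g
      have f1 := P4 hd hC hQg hy hu
      have f2 := P4 hd hC hQg hy' hu'
      have e0 : d p ((k * (k⁻¹ * t * k) ^ (0 : ℤ)) • x0) ≤ D0 := by simpa using hclose 0
      have e1 := hclose n
      have e2 := hd.tri y u y'
      have e3 := hd.tri u u' y'
      have e4 := hd.symm u' y'
      omega

end TK
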