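import Pool.Agent.TK.Targets1

set_option autoImplicit false

/-!
# Project TK (MP_3ae405_al, `k = 5`): the bounded geodesic image theorem
-/

namespace TK

namespace BGI_

variable {V J : Type} {d : V → V → ℕ} {Y : J → Set V} {D : V ⊕ J → V ⊕ J → ℕ}

/-- the part of `T_PD` that is used -/
structure PDProp (d : V → V → ℕ) (Y : J → Set V) (E : ℕ) (j : J) : Prop where
  ex : ∀ u : V ⊕ J, ∃ y, Pr d Y j u y
  le : ∀ u w : V ⊕ J, u ≠ Sum.inr j → w ≠ Sum.inr j → ∀ y y', Pr d Y j u y → Pr d Y j w y' →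
    PD d Y j u w ≤ d y y' + E
  symm : ∀ u w : V ⊕ J, PD d Y j u w = PD d Y j w u
  tri : ∀ u z w : V ⊕ J, u ≠ Sum.inr j → z ≠ Sum.inr j → w ≠ Sum.inr j →
    PD d Y j u w ≤ PD d Y j u z + PD d Y j z w
  lip : ∀ x y : V, PD d Y j (Sum.inl x) (Sum.inl y) ≤ d x y + E

theorem step {E : ℕ} {j : J} (hd : Geo d) (hD : IsCone d Y D) (hP : PDProp d Y E j)
    (a b : V ⊕ J) (ha : a ≠ Sum.inr j) (hb : b ≠ Sum.inr j) (hab : D a b ≤ 1) :
    PD d Y j a b ≤ E + 1 := by
  have h01 : D a b = 0 ∨ D a b = 1 := by omega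
  rcases h01 with h | h
  · have := hD.geo.eq a b h
    subst this
    obtain ⟨y, hy⟩ := hP.ex a
    have h1 := hP.le a a ha ha y y hy hy
    rw [hd.self] at h1
    omega
  · rcases a with x | i
    · rcases b with y | i
      · have h1 := (hD.vv x y).1 h
        have h2 := hP.lip x y
        omega
      · have h1 := (hD.vj x i).1 h
        obtain ⟨y, hy⟩ := hP.ex (Sum.inl x)
        have hy' : Pr d Y j (Sum.inr i) y := ⟨x, h1, hy⟩
        have h2 := hP.le _ _ ha hb y y hy hy'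
        rw [hd.self] at h2
        omega
    · rcases b with x | i'
      · have h0 : D (Sum.inl x) (Sum.inr i) = 1 := by rw [hD.geo.symm]; exact h
        have h1 := (hD.vj x i).1 h0
        obtain ⟨y, hy⟩ := hP.ex (Sum.inl x)
        have hy' : Pr d Y j (Sum.inr i) y := ⟨x, h1, hy⟩
        have h2 := hP.le _ _ ha hb y y hy' hy
        rw [hd.self] at h2
        omega
      · exact absurd h (hD.jj i i')

theorem near_of_rep {j : J} (rep : V ⊕ J → V) (h1 : ∀ x : V, rep (Sum.inl x) = x)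
    (h2 : ∀ j : J, rep (Sum.inr j) ∈ Y j) (u : V ⊕ J) (y : V) (hy : Near d (Y j) (rep u) y) :
    Pr d Y j u y := by
  rcases u with x | i
  · rw [h1] at hy
    exact hy
  · exact ⟨_, h2 i, hy⟩

/-- a long projection forces a geodesic to come close to the apex -/
theorem close {δ κ B E t : ℕ} {j : J} (hF : Fam d Y δ κ B) (hD : IsCone d Y D)
    (hP : PDProp d Y E j) (hle : ∀ x y : V, D (Sum.inl x) (Sum.inl y) ≤ d x y)
    (rep : V ⊕ J → V) (hr1 : ∀ x : V, rep (Sum.inl x) = x) (hr2 : ∀ j : J, rep (Sum.inr j) ∈ Y j)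
    (n : ℕ) (γ : ℕ → V ⊕ J)
    (ht : ∀ p : V, Btw d (rep (γ 0)) p (rep (γ n)) → ∃ i, i ≤ n ∧ D (Sum.inl p) (γ i) ≤ t)
    (h0 : γ 0 ≠ Sum.inr j) (hn : γ n ≠ Sum.inr j)
    (hbig : 3 * (4 * δ + 2) + 2 * κ + 2 + E ≤ PD d Y j (γ 0) (γ n)) :
    ∃ i, i ≤ n ∧ D (γ i) (Sum.inr j) ≤
      t + 2 * (5 * (4 * δ + 2) + 4 * κ + 2) + (4 * δ + 2) + 1 := by
  have hd := hF.geo
  have hC := four_of_thin hd hF.thin
  generalize 4 * δ + 2 = C at *
  obtain ⟨y, hy⟩ := exists_near (d := d) (hF.ne j) (rep (γ 0))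
  obtain ⟨y', hy'⟩ := exists_near (d := d) (hF.ne j) (rep (γ n))
  have h1 := hP.le _ _ h0 hn y y' (near_of_rep rep hr1 hr2 _ _ hy) (near_of_rep rep hr1 hr2 _ _ hy')
  have h3 := P3 hd hC (hF.qc j) hy hy' (by omega)
  set x := rep (γ 0) with hx
  set x' := rep (γ n) with hx'
  have h4 := hd.tri y y' x'
  have h5 := hd.tri x y x'
  obtain ⟨z, hz1, hz2⟩ := hd.geod x x' (min (d x y) (d x x')) (min_le_right _ _)
  have h6 : d y z ≤ (5 * C + 4 * κ + 2) + (5 * C + 4 * κ + 2) + C := by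
    refine fellow hd hC (x := x) (y := x') ?_ ?_ ?_ ?_
    · omega
    · omega
    · rw [hz1]
      rcases le_total (d x y) (d x x') with h | h
      · rw [min_eq_left h]; omega
      · rw [min_eq_right h]; omega
    · rw [hz1]
      have := min_le_left (d x y) (d x x')
      omega
  obtain ⟨i, hi, hi'⟩ := ht z (by unfold Btw; omega)
  refine ⟨i, hi, ?_⟩
  have h7 : D (Sum.inl y) (Sum.inr j) = 1 := (hD.vj y j).2 hy.1
  have h8 := hle y z
  have g1 := hD.geo.tri (γ i) (Sum.inl z) (Sum.inr j)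
  have g2 := hD.geo.tri (Sum.inl z) (Sum.inl y) (Sum.inr j)
  have g3 := hD.geo.symm (γ i) (Sum.inl z)
  have g4 := hD.geo.symm (Sum.inl z) (Sum.inl y)
  omega

end BGI_

open BGI_ in
theorem p_BGI (hCLOSE : T_CLOSE) (hPD : T_PD) (hCINV : T_CINV) : T_BGI := by
  intro δ κ B
  obtain ⟨t, ht⟩ := hCLOSE δ κ
  obtain ⟨E, hE⟩ := hPD δ κ B
  obtain ⟨s, hs⟩ : ∃ s, s = t + 2 * (5 * (4 * δ + 2) + 4 * κ + 2) + (4 * δ + 2) + 1 := ⟨_, rfl⟩
  obtain ⟨M, hM⟩ : ∃ M, M = 3 * (4 * δ + 2) + 2 * κ + 2 + E := ⟨_, rfl⟩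
  refine ⟨2 * M + (2 * s + 4) * (E + 1), ?_⟩
  intro V J d Y D hF hD j u w hu hw hK
  have hd := hF.geo
  obtain ⟨e1, -, e3, e4, e5, e6⟩ := hE V J d Y hF j
  have hP : PDProp d Y E j :=
    ⟨e1, fun u w hu hw y y' hy hy' => (e3 u w hu hw y y' hy hy').2, e4, e5, e6⟩
  have hle := (hCINV V J d Y D hd hD).1
  choose f hf using hF.ne
  have hr1 : ∀ x : V, (Sum.elim id f : V ⊕ J → V) (Sum.inl x) = x := fun x => rfl
  have hr2 : ∀ j : J, (Sum.elim id f : V ⊕ J → V) (Sum.inr j) ∈ Y j := fun j => hf j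
  -- the closeness statement for geodesic sequences
  have hcl : ∀ (n : ℕ) (γ : ℕ → V ⊕ J), (∀ i k, i ≤ k → k ≤ n → D (γ i) (γ k) = k - i) →
      γ 0 ≠ Sum.inr j → γ n ≠ Sum.inr j → M ≤ PD d Y j (γ 0) (γ n) →
      ∃ i, i ≤ n ∧ D (γ i) (Sum.inr j) ≤ s := by
    intro n γ hγ h0 hn hbig
    rw [hs]
    rw [hM] at hbig
    exact close hF hD hP hle (Sum.elim id f) hr1 hr2 n γ
      (ht V J d Y D B (Sum.elim id f) hF hD hr1 hr2 n γ hγ).1 h0 hn hbig
  obtain ⟨γ, g0, g1, g2⟩ := exists_geod hD.geo u w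
  obtain ⟨n, hn⟩ : ∃ n, n = D u w := ⟨_, rfl⟩
  rw [← hn] at g1 g2
  by_contra hcon
  have hne : ∀ i, i ≤ n → γ i ≠ Sum.inr j := by
    intro i hi he
    apply hcon
    have a1 := g2 0 i (by omega) hi
    have a2 := g2 i n hi le_rfl
    rw [g0, he] at a1
    rw [g1, he] at a2
    unfold Btw
    omega
  have hstep : ∀ i, i + 1 ≤ n → PD d Y j (γ i) (γ (i + 1)) ≤ E + 1 := by
    intro i hi
    refine step hd hD hP _ _ (hne i (by omega)) (hne _ hi) ?_
    rw [g2 i (i + 1) (by omega) hi]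
    omega
  have hself : ∀ i, i ≤ n → PD d Y j (γ i) (γ i) ≤ E + 1 := by
    intro i hi
    refine step hd hD hP _ _ (hne i (by omega)) (hne _ hi) ?_
    rw [hD.geo.self]
    omega
  have hEK : 1 ≤ E + 1 := by omega
  -- the close indices
  have hexp : ∃ i, i ≤ n ∧ D (γ i) (Sum.inr j) ≤ s := by
    refine hcl n γ g2 (hne 0 (by omega)) (hne n le_rfl) ?_
    rw [g0, g1]
    nlinarith
  classical
  obtain ⟨a, ⟨han, hap⟩, hamin⟩ : ∃ a, (a ≤ n ∧ D (γ a) (Sum.inr j) ≤ s) ∧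
      ∀ i, i < a → ¬ (i ≤ n ∧ D (γ i) (Sum.inr j) ≤ s) :=
    ⟨Nat.find hexp, Nat.find_spec hexp, fun i hi => Nat.find_min hexp hi⟩
  obtain ⟨b, ⟨hbn, hbp⟩, hbmax⟩ : ∃ b, (b ≤ n ∧ D (γ b) (Sum.inr j) ≤ s) ∧
      ∀ i, b < i → i ≤ n → ¬ (D (γ i) (Sum.inr j) ≤ s) := by
    refine ⟨Nat.findGreatest (fun i => D (γ i) (Sum.inr j) ≤ s) n,
      ⟨Nat.findGreatest_le n, ?_⟩, fun i hi hin =>
        Nat.findGreatest_is_greatest (P := fun i => D (γ i) (Sum.inr j) ≤ s) hi hin⟩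
    exact Nat.findGreatest_spec (P := fun i => D (γ i) (Sum.inr j) ≤ s) han hap
  have hab : a ≤ b := by
    by_contra h
    push Not at h
    exact hamin b h ⟨hbn, hbp⟩
  have hba : b - a ≤ 2 * s := by
    have h1 := g2 a b hab hbn
    have h2 := hD.geo.tri (γ a) (Sum.inr j) (γ b)
    have h3 := hD.geo.symm (γ b) (Sum.inr j)
    omega
  have hA : PD d Y j (γ 0) (γ a) ≤ M + (E + 1) := by
    rcases Nat.eq_zero_or_pos a with h | h
    · rw [h]
      have := hself 0 (by omega)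
      omega
    · obtain ⟨a', rfl⟩ : ∃ a', a = a' + 1 := ⟨a - 1, by omega⟩
      have h1 : PD d Y j (γ 0) (γ a') < M := by
        by_contra h2
        push Not at h2
        obtain ⟨i, hi, hi'⟩ := hcl a' γ (fun i k hik hk => g2 i k hik (by omega))
          (hne 0 (by omega)) (hne a' (by omega)) h2
        exact hamin i (by omega) ⟨by omega, hi'⟩
      have h2 := hP.tri (γ 0) (γ a') (γ (a' + 1)) (hne 0 (by omega)) (hne _ (by omega))
        (hne _ (by omega))
      have h3 := hstep a' (by omega)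
      omega
  have hB : PD d Y j (γ b) (γ n) ≤ M + (E + 1) := by
    rcases Nat.eq_or_lt_of_le hbn with h | h
    · rw [h]
      have := hself n (by omega)
      omega
    · have h1 : PD d Y j (γ (b + 1)) (γ n) < M := by
        by_contra h2
        push Not at h2
        have hnb : b + 1 + (n - (b + 1)) = n := by omega
        obtain ⟨i, hi, hi'⟩ := hcl (n - (b + 1)) (fun i => γ (b + 1 + i))
          (fun i k hik hk => by
            have := g2 (b + 1 + i) (b + 1 + k) (by omega) (by omega)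
            rw [this]; omega)
          (hne _ (by omega)) (by simp only [hnb]; exact hne n le_rfl)
          (by simp only [hnb, Nat.add_zero]; exact h2)
        exact hbmax (b + 1 + i) (by omega) (by omega) hi'
      have h2 := hP.tri (γ b) (γ (b + 1)) (γ n) (hne b (by omega)) (hne _ (by omega))
        (hne _ (by omega))
      have h3 := hstep b (by omega)
      omega
  have hC : ∀ k, a + k ≤ n → PD d Y j (γ a) (γ (a + k)) ≤ (k + 1) * (E + 1) := by
    intro k
    induction k with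
    | zero =>
      intro h
      have := hself a han
      simpa using this
    | succ k ih =>
      intro h
      have h1 := ih (by omega)
      have h2 := hstep (a + k) (by omega)
      have h3 := hP.tri (γ a) (γ (a + k)) (γ (a + (k + 1))) (hne _ (by omega)) (hne _ (by omega))
        (hne _ (by omega))
      have h4 : a + k + 1 = a + (k + 1) := by omega
      rw [h4] at h2
      calc _ ≤ _ := h3
        _ ≤ (k + 1) * (E + 1) + (E + 1) := add_le_add h1 h2
        _ = _ := by ring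
  have hC' := hC (b - a) (by omega)
  have hab' : a + (b - a) = b := by omega
  rw [hab'] at hC'
  have hC2 : (b - a + 1) * (E + 1) ≤ (2 * s + 1) * (E + 1) :=
    Nat.mul_le_mul_right _ (by omega)
  have t1 := hP.tri (γ 0) (γ a) (γ b) (hne 0 (by omega)) (hne _ han) (hne _ hbn)
  have t2 := hP.tri (γ 0) (γ b) (γ n) (hne 0 (by omega)) (hne _ hbn) (hne _ le_rfl)
  rw [g0, g1] at t2
  rw [g0] at t1
  rw [g0] at hA
  rw [g1] at hB
  have hfin : (2 * s + 4) * (E + 1) = (2 * s + 1) * (E + 1) + 3 * (E + 1) := by ring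
  omega

end TK
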