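import Pool.Agent.TK.Targets2

set_option autoImplicit false
set_option linter.unusedVariables false

/-!
# TK-CB: corner bound from finite centralizers
-/

namespace TK

open Subgroup

namespace CB_

/-- Points at the same position on `[c, z]` and `[c, s z]` before the branching are close. -/
theorem close {V : Type} {d : V → V → ℕ} {C : ℕ} (hd : Geo d) (hC : Four d C) {c z z' a b : V}
    {i : ℕ} (h1 : d c z' = d c z) (ha : Btw d c a z) (hb : Btw d c b z') (hai : d c a = i)
    (hbi : d c b = i) (hi : 2 * i + d z z' ≤ 2 * d c z) : d a b ≤ 2 * C := by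
  unfold Btw at ha hb
  have h2 := hC b z c z'
  have s1 := hd.symm b c
  have s2 := hd.symm z c
  have h3 : d b z ≤ d c z - i + C := by omega
  have h4 := fellow hd hC (x := c) (y := z) (p := a) (q := b) (c := C) (e := 0)
    (by omega) (by omega) (by omega) (by omega)
  omega

/-- Finitely many conjugators into a finite set. -/
theorem fin_conj {Γ : Type} [Group Γ] (s : Γ) (hs : {g : Γ | g * s = s * g}.Finite) (F : Set Γ)
    (hF : F.Finite) : {g : Γ | g⁻¹ * s * g ∈ F}.Finite := by
  have h1 : {g : Γ | g⁻¹ * s * g ∈ F} = (fun g : Γ => g⁻¹ * s * g) ⁻¹' F := rfl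
  rw [h1]
  apply hF.preimage'
  intro f _
  by_cases hne : ((fun g : Γ => g⁻¹ * s * g) ⁻¹' {f}).Nonempty
  · obtain ⟨g0, hg0⟩ := hne
    apply (hs.image (fun g => g * g0)).subset
    intro g hg
    refine ⟨g * g0⁻¹, ?_, by group⟩
    have e1 : g⁻¹ * s * g = f := hg
    have e2 : g0⁻¹ * s * g0 = f := hg0
    show g * g0⁻¹ * s = s * (g * g0⁻¹)
    have e3 : s = g * f * g⁻¹ := by rw [← e1]; group
    have e4 : s = g0 * f * g0⁻¹ := by rw [← e2]; group
    calc g * g0⁻¹ * s = g * g0⁻¹ * (g0 * f * g0⁻¹) := by rw [← e4]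
      _ = (g * f * g⁻¹) * (g * g0⁻¹) := by group
      _ = s * (g * g0⁻¹) := by rw [← e3]
  · rw [Set.not_nonempty_iff_eq_empty.1 hne]
    exact Set.finite_empty

end CB_

open CB_ in
theorem p_CB (hCNT : T_CNT) : T_CB := by
  classical
  intro Γ _ V _ d x0 hG s hs
  have hd := hG.geo
  obtain ⟨δ, hδ⟩ := hG.thin
  have hC := four_of_thin hd hδ
  set C := 4 * δ + 2 with hCdef
  obtain ⟨D, hD⟩ := hG.coc
  obtain ⟨N, hN, _⟩ := hCNT Γ V d x0 hG (2 * C + 2 * D)
  have hSfin := fin_conj s hs _ (hN x0 x0).1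
  set S := hSfin.toFinset with hS
  refine ⟨2 * ((2 * D + 1) * (S.card + 1)), ?_⟩
  intro c z hc
  by_contra hcon
  push Not at hcon
  have e1 : d c (s • z) = d c z := by
    conv_lhs => rw [← hc]
    exact hG.inv s c z
  have e2 := hd.symm z c
  obtain ⟨γ, g0, g1, g2⟩ := exists_geod hd c z
  have hlen : ∀ i, i ≤ S.card → (2 * D + 1) * i ≤ (2 * D + 1) * (S.card + 1) := fun i hi =>
    Nat.mul_le_mul_left _ (by omega)
  have hch : ∀ i : ℕ, ∃ g : Γ, d (γ ((2 * D + 1) * i)) (g • x0) ≤ D := fun i => hD _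
  choose g hg using hch
  have hmem : ∀ i, i ≤ S.card → g i ∈ S := by
    intro i hi
    have h1 := hlen i hi
    have h2 : (2 * D + 1) * i ≤ d c z := by omega
    have a1 := g2 0 _ (Nat.zero_le _) h2
    have a2 := g2 _ _ h2 le_rfl
    rw [g0] at a1
    rw [g1] at a2
    have a3 : d c (s • γ ((2 * D + 1) * i)) = (2 * D + 1) * i := by
      conv_lhs => rw [← hc]
      rw [hG.inv]
      omega
    have a4 : d (s • γ ((2 * D + 1) * i)) (s • z) = d c z - (2 * D + 1) * i := by
      rw [hG.inv]
      omega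
    have h3 : d (γ ((2 * D + 1) * i)) (s • γ ((2 * D + 1) * i)) ≤ 2 * C := by
      apply close hd hC (c := c) (z := z) (z' := s • z) (i := (2 * D + 1) * i) e1
      · unfold Btw; omega
      · unfold Btw; omega
      · omega
      · exact a3
      · omega
    rw [hS, Set.Finite.mem_toFinset]
    show d x0 (((g i)⁻¹ * s * g i) • x0) ≤ 2 * C + 2 * D
    have h4 : d x0 (((g i)⁻¹ * s * g i) • x0) = d (g i • x0) (s • g i • x0) := by
      rw [← hG.inv (g i)]
      congr 1
      rw [smul_smul, smul_smul]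
      congr 1
      group
    rw [h4]
    have h5 := hg i
    have h6 : d (s • γ ((2 * D + 1) * i)) (s • g i • x0) ≤ D := by rw [hG.inv]; exact h5
    have h7 := hd.tri (g i • x0) (γ ((2 * D + 1) * i)) (s • g i • x0)
    have h8 := hd.tri (γ ((2 * D + 1) * i)) (s • γ ((2 * D + 1) * i)) (s • g i • x0)
    have h9 := hd.symm (g i • x0) (γ ((2 * D + 1) * i))
    omega
  have hinj : ∀ i k, i < k → k ≤ S.card → g i ≠ g k := by
    intro i k hik hk heq
    have h1 := hlen k hk
    have h2 : (2 * D + 1) * k ≤ d c z := by omega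
    have h3 : (2 * D + 1) * i + (2 * D + 1) ≤ (2 * D + 1) * k := by
      have : (2 * D + 1) * (i + 1) ≤ (2 * D + 1) * k := Nat.mul_le_mul_left _ hik
      rw [mul_add, mul_one] at this
      exact this
    have h4 := g2 ((2 * D + 1) * i) ((2 * D + 1) * k) (by omega) h2
    have h5 := hg i
    have h6 := hg k
    rw [heq] at h5
    have h7 := hd.tri (γ ((2 * D + 1) * i)) (g k • x0) (γ ((2 * D + 1) * k))
    have h8 := hd.symm (g k • x0) (γ ((2 * D + 1) * k))
    omega
  have hcard : (Finset.range (S.card + 1)).card ≤ S.card := by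
    apply Finset.card_le_card_of_injOn g
    · intro i hi
      have := Finset.mem_range.1 (Finset.mem_coe.1 hi)
      exact hmem i (by omega)
    · intro i hi k hk heq
      have h1 := Finset.mem_range.1 (Finset.mem_coe.1 hi)
      have h2 := Finset.mem_range.1 (Finset.mem_coe.1 hk)
      rcases lt_trichotomy i k with h | h | h
      · exact absurd heq (hinj i k h (by omega))
      · exact h
      · exact absurd heq.symm (hinj k i h (by omega))
  rw [Finset.card_range] at hcard
  omega

end TK
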