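import Pool.Agent.TK.Targets2

set_option autoImplicit false
set_option linter.unusedVariables false

/-!
# Project TK (MP_3ae405_al, `k = 5`): TK-CENT, centralizers of torsion elements of the quotient
-/

namespace TK
namespace CENT_

open Subgroup

theorem exists_min {α : Type*} (p : α → Prop) (f : α → ℕ) (h : ∃ a, p a) :
    ∃ a, p a ∧ ∀ b, p b → f a ≤ f b := by
  classical
  obtain ⟨a0, ha0⟩ := h
  have h : ∃ n, ∃ a, p a ∧ f a = n := ⟨_, a0, ha0, rfl⟩
  obtain ⟨a, ha, hn⟩ := Nat.find_spec h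
  refine ⟨a, ha, fun b hb => ?_⟩
  rw [hn]
  exact Nat.find_min' h ⟨b, hb, rfl⟩

theorem red_cases {P J G : Type} [Group G] [MulAction G P] {v : J → P}
    {D : J → P → P → ℕ} {R : J → Subgroup G} {M : ℕ} {x : P} {r : G}
    (h : Red v D R M x r) : r = 1 ∨ (∃ j, x = v j ∧ r ∈ R j) ∨
      ∃ j, x ≠ v j ∧ r • x ≠ v j ∧ M ≤ D j x (r • x) := by
  cases h with
  | one => exact Or.inl rfl
  | base j _ h1 h2 => exact Or.inr (Or.inl ⟨j, h1, h2⟩)
  | step j ρ _ h1 h2 h3 h4 h5 => exact Or.inr (Or.inr ⟨j, h1, h2, h4⟩)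

section

variable {Γ : Type} [Group Γ]

theorem fix_iff (e t g : Γ) : t • (QuotientGroup.mk g : Γ ⧸ zpowers e) = QuotientGroup.mk g ↔
    g⁻¹ * t * g ∈ zpowers e := by
  have h1 : t • (QuotientGroup.mk g : Γ ⧸ zpowers e) = QuotientGroup.mk (t * g) := rfl
  rw [h1, QuotientGroup.eq, ← inv_mem_iff]
  have h2 : ((t * g)⁻¹ * g)⁻¹ = g⁻¹ * t * g := by group
  rw [h2]

theorem no_fix {e t : Γ} (he : ¬ IsOfFinOrder e) (ht : IsOfFinOrder t) (ht1 : t ≠ 1)
    (j : Γ ⧸ zpowers e) : t • j ≠ j := by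
  intro h
  obtain ⟨g, rfl⟩ := QuotientGroup.mk_surjective j
  rw [fix_iff, mem_zpowers_iff] at h
  obtain ⟨i, hi⟩ := h
  obtain ⟨n, hn, hn1⟩ := isOfFinOrder_iff_pow_eq_one.mp ht
  have h1 : t = g * e ^ i * g⁻¹ := by rw [hi]; group
  by_cases hi0 : i = 0
  · apply ht1
    rw [h1, hi0]
    simp
  · apply he
    rw [isOfFinOrder_iff_zpow_eq_one]
    refine ⟨i * n, by positivity, ?_⟩
    rw [h1, conj_pow, conj_eq_one_iff] at hn1
    rw [zpow_mul, zpow_natCast]
    exact hn1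

end

section Main

variable {Γ : Type} [Group Γ] {V : Type} [MulAction Γ V] {d : V → V → ℕ} {x0 : V}
  {H : Subgroup Γ} {e : Γ} {δ κ c B : ℕ}

theorem fin_map (hst : ∀ x : V, {g : Γ | g • x = x}.Finite) (x : V) (S : Set V)
    (hS : S.Finite) : {g : Γ | g • x ∈ S}.Finite := by
  refine Set.Finite.preimage' (f := fun g : Γ => g • x) hS ?_
  intro b _
  by_cases hb : ∃ g1 : Γ, g1 • x = b
  · obtain ⟨g1, rfl⟩ := hb
    refine ((hst x).image (fun g => g1 * g)).subset ?_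
    intro g hg
    have hg' : g • x = g1 • x := hg
    refine ⟨g1⁻¹ * g, ?_, by simp⟩
    show (g1⁻¹ * g) • x = x
    rw [mul_smul, hg', inv_smul_smul]
  · have : ((fun g : Γ => g • x) ⁻¹' {b}) = ∅ := by
      ext g
      simp only [Set.mem_preimage, Set.mem_singleton_iff, Set.mem_empty_iff_false, iff_false]
      exact fun h => hb ⟨g, h⟩
    rw [this]
    exact Set.finite_empty

/-- the relation between two commuting classes -/
theorem comm_lift (M : Subgroup Γ) [hM : M.Normal] (g t : Γ)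
    (h : (QuotientGroup.mk g : Γ ⧸ M) * QuotientGroup.mk t =
      QuotientGroup.mk t * QuotientGroup.mk g) :
    ∃ r ∈ M, t * g = r * (g * t) := by
  rw [← QuotientGroup.mk_mul, ← QuotientGroup.mk_mul] at h
  have h1 := (QuotientGroup.eq.mp h)
  refine ⟨t * g * (g * t)⁻¹, ?_, by group⟩
  have h2 := hM.conj_mem _ h1 (g * t)
  have h3 : g * t * ((g * t)⁻¹ * (t * g)) * (g * t)⁻¹ = t * g * (g * t)⁻¹ := by group
  rw [h3] at h2
  exact h2

/-- first case: the lift has finite order -/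
theorem case_one (ke : KE Γ V d x0 H e δ κ c B) {EP K N : ℕ}
    (hEP : ∀ j : Γ ⧸ zpowers e, ∀ x y : V,
      PD d (Yf e x0) j (Sum.inl x) (Sum.inl y) ≤ d x y + EP)
    (hG : ∀ (A : Set V) (g : Γ) (x a : V) (j : Γ ⧸ zpowers e), QC d 0 A →
      (∀ u ∈ A, g • u ∈ A ∧ g⁻¹ • u ∈ A) → a ∈ A →
      (∀ r ∈ normalClosure ({e ^ N} : Set Γ), ∀ u ∈ A, d x a ≤ d (r • x) u) →
      d x0 (e ^ N • x0) ≤ PD d (Yf e x0) j (Sum.inl x) (Sum.inl (g • x)) + 13 * K →
      4 * PD d (Yf e x0) j (Sum.inl a) (Sum.inl (g • a)) ≤ 3 * d x0 (e ^ N • x0) → g • j = j)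
    (hl : 4 * EP ≤ 3 * d x0 (e ^ N • x0)) (hW : Wind d x0 e K N)
    (M : Subgroup Γ) [M.Normal] (hM : M = normalClosure ({e ^ N} : Set Γ))
    (t : Γ) (ht : t ≠ 1) (hto : IsOfFinOrder t) (c0 : V) (hc0 : t • c0 = c0)
    (hfin : {x : V | t • x = x}.Finite) :
    {g : Γ ⧸ M | g * QuotientGroup.mk t = QuotientGroup.mk t * g}.Finite := by
  have hd := ke.fam.geo
  refine ((fin_map ke.act.stab c0 _ hfin).image (fun g => (QuotientGroup.mk g : Γ ⧸ M))).subset ?_
  intro gb hgb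
  obtain ⟨g, hg, hmin⟩ := exists_min (fun g : Γ => (QuotientGroup.mk g : Γ ⧸ M) = gb)
    (fun g => d (g • c0) c0) (QuotientGroup.mk_surjective gb)
  refine ⟨g, ?_, hg⟩
  show t • (g • c0) = g • c0
  have hcomm : (QuotientGroup.mk g : Γ ⧸ M) * QuotientGroup.mk t =
      QuotientGroup.mk t * QuotientGroup.mk g := by rw [hg]; exact hgb
  obtain ⟨r, hr, hrt⟩ := comm_lift M g t hcomm
  have h1 : t • (g • c0) = r • (g • c0) := by
    rw [smul_smul, hrt, mul_smul, mul_smul, hc0]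
  rw [h1]
  have hW1 := hW (Sum.inl (g • c0)) r (by rw [← hM]; exact hr)
  rcases red_cases hW1 with h | ⟨j, h, -⟩ | ⟨j, h2, h3, h4⟩
  · rw [h, one_smul]
  · exact absurd h (by simp)
  · exfalso
    have h5 : r • (Sum.inl (g • c0) : V ⊕ (Γ ⧸ zpowers e)) = Sum.inl (t • (g • c0)) := by
      rw [Sum.smul_inl, h1]
    rw [h5] at h4
    refine no_fix ke.einf hto ht j (hG {c0} t (g • c0) c0 j ?_ ?_ rfl ?_ (by omega) ?_)
    · rintro y rfl y' rfl p hp
      refine ⟨_, rfl, ?_⟩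
      unfold Btw at hp
      rw [hd.self] at hp
      have := hd.symm p y'
      omega
    · rintro u rfl
      refine ⟨hc0, ?_⟩
      show t⁻¹ • u = u
      conv_lhs => rw [← hc0]
      rw [inv_smul_smul]
    · rintro r' hr' u rfl
      have := hmin (r' * g) (by
        rw [← hg]
        exact (QuotientGroup.eq.mpr (by
          have h6 : (r' * g)⁻¹ * g = g⁻¹ * r'⁻¹ * g := by group
          rw [h6]
          have h7 := ‹M.Normal›.conj_mem r'⁻¹ (M.inv_mem (by rw [hM]; exact hr')) g⁻¹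
          rw [inv_inv] at h7
          exact h7)))
      rw [mul_smul] at this
      exact this
    · rw [hc0]
      have := hEP j c0 c0
      rw [hd.self] at this
      omega

/-- powers of `e` -/
theorem d_zpow (hinv : ∀ (g : Γ) (x y : V), d (g • x) (g • y) = d x y) (i j : ℤ) :
    d (e ^ i • x0) (e ^ j • x0) = d x0 (e ^ (j - i) • x0) := by
  have h := hinv (e ^ i) x0 (e ^ (j - i) • x0)
  rw [smul_smul, ← zpow_add] at h
  rw [← h]
  congr 3
  ring

/-- the half of the axis -/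
theorem half (ke : KE Γ V d x0 H e δ κ c B) {N : ℕ} (s : ℤ) (hs : 2 * |s| ≤ N) :
    2 * d x0 (e ^ s • x0) ≤ d x0 (e ^ N • x0) + 2 * c := by
  have hinv := ke.act.inv
  have hd := ke.act.geo
  have key : d x0 (e ^ s • x0) = d x0 (e ^ |s| • x0) := by
    rcases abs_cases s with ⟨h, _⟩ | ⟨h, _⟩
    · rw [h]
    · rw [h]
      have h1 := hinv (e ^ (-s)) x0 (e ^ s • x0)
      rw [smul_smul, ← zpow_add, neg_add_cancel, zpow_zero, one_smul] at h1
      rw [← h1, hd.symm]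
  rw [key]
  have hs0 := abs_nonneg s
  generalize |s| = k at hs hs0
  have q1 := ke.ql 0 k N hs0 (by omega)
  have q2 := ke.ql 0 k (N - k) hs0 (by omega)
  simp only [d_zpow hinv, sub_zero] at q1 q2
  have e1 : e ^ (N : ℤ) • x0 = e ^ N • x0 := by rw [zpow_natCast]
  rw [e1] at q1
  omega

/-- the fixed cosets of a power of `e` -/
theorem fix_zpow (ke : KE Γ V d x0 H e δ κ c B) {s : ℤ} (hs : s ≠ 0) (g : Γ)
    (h : e ^ s • (QuotientGroup.mk g : Γ ⧸ zpowers e) = QuotientGroup.mk g) :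
    g ∈ zpowers e := by
  rw [fix_iff, mem_zpowers_iff] at h
  obtain ⟨i, hi⟩ := h
  have h1 := ke.mal g⁻¹ s i hs (by rw [inv_inv, hi])
  exact inv_mem_iff.mp h1

/-- second case: powers of `e` -/
theorem case_two (ke : KE Γ V d x0 H e δ κ c B) {EP K N : ℕ} (hYR : T_YR)
    (hEP : ∀ j : Γ ⧸ zpowers e,
      (∀ u : V ⊕ (Γ ⧸ zpowers e), ∃ y, Pr d (Yf e x0) j u y) ∧
      (∀ u w : V ⊕ (Γ ⧸ zpowers e), u ≠ Sum.inr j → w ≠ Sum.inr j → ∀ y y',
        Pr d (Yf e x0) j u y → Pr d (Yf e x0) j w y' →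
        d y y' ≤ PD d (Yf e x0) j u w ∧ PD d (Yf e x0) j u w ≤ d y y' + EP) ∧
      (∀ u w : V ⊕ (Γ ⧸ zpowers e), PD d (Yf e x0) j u w = PD d (Yf e x0) j w u) ∧
      (∀ u z w : V ⊕ (Γ ⧸ zpowers e), u ≠ Sum.inr j → z ≠ Sum.inr j → w ≠ Sum.inr j →
        PD d (Yf e x0) j u w ≤ PD d (Yf e x0) j u z + PD d (Yf e x0) j z w))
    (hG : ∀ (A : Set V) (g : Γ) (x a : V) (j : Γ ⧸ zpowers e), QC d κ A →
      (∀ u ∈ A, g • u ∈ A ∧ g⁻¹ • u ∈ A) → a ∈ A →
      (∀ r ∈ normalClosure ({e ^ N} : Set Γ), ∀ u ∈ A, d x a ≤ d (r • x) u) →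
      d x0 (e ^ N • x0) ≤ PD d (Yf e x0) j (Sum.inl x) (Sum.inl (g • x)) + (13 * K + 2 * EP) →
      4 * PD d (Yf e x0) j (Sum.inl a) (Sum.inl (g • a)) ≤ 3 * d x0 (e ^ N • x0) → g • j = j)
    (hl : 4 * (B + EP) ≤ 3 * d x0 (e ^ N • x0))
    (hl2 : 2 * (13 * K + c + EP) < d x0 (e ^ N • x0)) (hW : Wind d x0 e K N)
    (M : Subgroup Γ) [M.Normal] (hM : M = normalClosure ({e ^ N} : Set Γ)) (hN : 1 ≤ N)
    (s : ℤ) (hs0 : s ≠ 0) (hs : 2 * |s| ≤ N) :
    {g : Γ ⧸ M | g * QuotientGroup.mk (e ^ s) = QuotientGroup.mk (e ^ s) * g}.Finite := by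
  have hd := ke.fam.geo
  have hinv := ke.act.inv
  obtain ⟨yr1, yr2, yr3, -⟩ := hYR Γ V e x0
  set t : Γ := e ^ s with ht
  set j0 : Γ ⧸ zpowers e := QuotientGroup.mk 1 with hj0
  have htj0 : t • j0 = j0 := by
    rw [hj0, fix_iff]
    rw [inv_one, one_mul, mul_one]
    exact zpow_mem (mem_zpowers e) s
  -- it is enough to lift to a power of `e`
  have hfo : IsOfFinOrder (QuotientGroup.mk e : Γ ⧸ M) := by
    rw [isOfFinOrder_iff_pow_eq_one]
    refine ⟨N, hN, ?_⟩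
    rw [← QuotientGroup.mk_pow, QuotientGroup.eq_one_iff, hM]
    exact subset_normalClosure (Set.mem_singleton _)
  refine (hfo.finite_zpowers).subset ?_
  intro gb hgb
  have himg : ∀ g : Γ, g ∈ zpowers e → (QuotientGroup.mk g : Γ ⧸ M) ∈
      (zpowers (QuotientGroup.mk e : Γ ⧸ M) : Set (Γ ⧸ M)) := by
    intro g hg
    obtain ⟨k, rfl⟩ := mem_zpowers_iff.mp hg
    rw [QuotientGroup.mk_zpow]
    exact zpow_mem (mem_zpowers _) k
  -- the minimal choice
  obtain ⟨⟨g, x, a⟩, ⟨hg, hx, ha⟩, hmin⟩ := exists_min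
    (fun q : Γ × V × V => (QuotientGroup.mk q.1 : Γ ⧸ M) = gb ∧
      q.2.1 ∈ Yf e x0 (QuotientGroup.mk q.1) ∧ q.2.2 ∈ Yf e x0 j0)
    (fun q => d q.2.1 q.2.2) (by
      obtain ⟨g, hg⟩ := QuotientGroup.mk_surjective gb
      obtain ⟨x, hx⟩ := ke.fam.ne (QuotientGroup.mk g)
      obtain ⟨a, ha⟩ := ke.fam.ne j0
      exact ⟨(g, x, a), hg, hx, ha⟩)
  simp only at hg hx ha
  rw [← hg]
  apply himg
  set i : Γ ⧸ zpowers e := QuotientGroup.mk g with hi
  have hcomm : (QuotientGroup.mk g : Γ ⧸ M) * QuotientGroup.mk t =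
      QuotientGroup.mk t * QuotientGroup.mk g := by rw [hg]; exact hgb
  obtain ⟨r, hr, hrt⟩ := comm_lift M g t hcomm
  have hti : t • i = r • i := by
    have h1 : i = g • j0 := by
      show (QuotientGroup.mk g : Γ ⧸ zpowers e) = QuotientGroup.mk (g * 1)
      rw [mul_one]
    rw [h1, smul_smul, hrt, mul_smul, mul_smul, htj0]
  have hWi := hW (Sum.inr i) r (by rw [← hM]; exact hr)
  have hfixi : t • i = i → g ∈ zpowers e := fix_zpow ke hs0 g
  rcases red_cases hWi with h | ⟨j, h, hrj⟩ | ⟨j, h2, h3, h4⟩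
  · apply hfixi
    rw [hti, h, one_smul]
  · apply hfixi
    have hij : i = j := Sum.inr_injective h
    rw [← hij] at hrj
    obtain ⟨k, rfl⟩ := (yr3 N g r).mp hrj
    rw [hti, hi, fix_iff]
    have h5 : g⁻¹ * (g * e ^ ((N : ℤ) * k) * g⁻¹) * g = e ^ ((N : ℤ) * k) := by group
    rw [h5]
    exact zpow_mem (mem_zpowers e) _
  · exfalso
    obtain ⟨p1, p3, p4, p5⟩ := hEP j
    rw [Sum.smul_inr, ← hti] at h3 h4
    have h2' : (Sum.inr i : V ⊕ (Γ ⧸ zpowers e)) ≠ Sum.inr j := h2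
    have h3' : (Sum.inr (t • i) : V ⊕ (Γ ⧸ zpowers e)) ≠ Sum.inr j := h3
    by_cases hjj : j = j0
    · obtain ⟨y, hy⟩ := p1 (Sum.inr i)
      have hy2 := hy
      obtain ⟨w, hw, hwy⟩ := hy2
      have hyt : Pr d (Yf e x0) j (Sum.inr (t • i)) (t • y) := by
        refine ⟨t • w, yr2 t w i hw, ?_, ?_⟩
        · have := yr2 t y j hwy.1
          rw [hjj, htj0] at this
          rw [hjj]
          exact this
        · intro y' hy'
          have h6 : t⁻¹ • y' ∈ Yf e x0 j := by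
            have h7 := yr2 t⁻¹ y' j hy'
            have h8 : t⁻¹ • j = j := by
              rw [hjj]
              conv_lhs => rw [← htj0]
              rw [inv_smul_smul]
            rw [h8] at h7
            exact h7
          have h9 := hwy.2 _ h6
          have h10 := hinv t w (t⁻¹ • y')
          rw [smul_inv_smul] at h10
          rw [hinv, h10]
          exact h9
      have h11 := (p3 _ _ h2' h3' y (t • y) hy hyt).2
      have h12 : d y (t • y) = d x0 (t • x0) := by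
        have h13 := hwy.1
        rw [hjj, hj0, yr1] at h13
        obtain ⟨q, hq, rfl⟩ := h13
        obtain ⟨m, rfl⟩ := mem_zpowers_iff.mp hq
        rw [one_mul, ht, smul_smul, ← zpow_add, d_zpow hinv]
        congr 3
        ring
      have h14 := half ke s hs
      rw [← ht] at h14
      omega
    · -- projections of `v_i` and `t v_i`
      have hij : i ≠ j := fun h => h2' (by rw [h])
      have htij : t • i ≠ j := fun h => h3' (by rw [h])
      obtain ⟨z, hz⟩ := exists_near (ke.fam.ne j) x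
      obtain ⟨z', hz'⟩ := exists_near (ke.fam.ne j) (t • x)
      have hn : ∀ v : V, (Sum.inl v : V ⊕ (Γ ⧸ zpowers e)) ≠ Sum.inr j := by
        intro v h
        exact absurd h (by simp)
      have b1 := (p3 (Sum.inr i) (Sum.inl x) h2' (hn _) z z ⟨x, hx, hz⟩ hz).2
      have b2 := (p3 (Sum.inr (t • i)) (Sum.inl (t • x)) h3' (hn _) z' z'
        ⟨t • x, yr2 t x i hx, hz'⟩ hz').2
      rw [hd.self] at b1 b2
      have b3 := p5 (Sum.inr i) (Sum.inl x) (Sum.inr (t • i)) h2' (hn _) h3'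
      have b4 := p5 (Sum.inl x) (Sum.inl (t • x)) (Sum.inr (t • i)) (hn _) (hn _) h3'
      have b5 := p4 (Sum.inl (t • x)) (Sum.inr (t • i))
      -- the set
      have hA : ∀ u ∈ Yf e x0 j0, t • u ∈ Yf e x0 j0 ∧ t⁻¹ • u ∈ Yf e x0 j0 := by
        intro u hu
        have h8 : t⁻¹ • j0 = j0 := by
          conv_lhs => rw [← htj0]
          rw [inv_smul_smul]
        have h9 := yr2 t u j0 hu
        have h10 := yr2 t⁻¹ u j0 hu
        rw [htj0] at h9
        rw [h8] at h10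
        exact ⟨h9, h10⟩
      have hfix := hG (Yf e x0 j0) t x a j (ke.fam.qc j0) hA ha ?_ (by omega) ?_
      · obtain ⟨g', rfl⟩ := QuotientGroup.mk_surjective j
        have := fix_zpow ke hs0 g' hfix
        apply hjj
        rw [hj0, QuotientGroup.eq, mul_one]
        exact inv_mem this
      · intro r' hr' u hu
        have := hmin (r' * g, r' • x, u) ⟨?_, ?_, hu⟩
        · exact this
        · rw [← hg]
          refine (QuotientGroup.eq.mpr ?_)
          have h6 : (r' * g)⁻¹ * g = g⁻¹ * r'⁻¹ * g := by group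
          rw [h6]
          have h7 := ‹M.Normal›.conj_mem r'⁻¹ (M.inv_mem (by rw [hM]; exact hr')) g⁻¹
          rw [inv_inv] at h7
          exact h7
        · exact yr2 r' x i hx
      · obtain ⟨w, hw⟩ := exists_near (ke.fam.ne j) a
        obtain ⟨w', hw'⟩ := exists_near (ke.fam.ne j) (t • a)
        have h15 := (p3 (Sum.inl a) (Sum.inl (t • a)) (hn _) (hn _) w w' hw hw').2
        have h16 := ke.fam.bo j0 j (Ne.symm hjj) a ha (t • a) (hA a ha).1 w w' hw hw'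
        omega

end Main

end CENT_

open CENT_ Subgroup in
theorem p_CENT (hTOR : T_TOR) (hFIX : T_FIX) (hGPG : T_GPG) (hPD : T_PD) (hYR : T_YR)
    (hCINV : T_CINV) (hCONE : T_CONE) : T_CENT := by
  intro Γ _ V _ d x0 H e δ κ c B ke hcent hvert K
  obtain ⟨EP, hEP⟩ := hPD δ κ B
  obtain ⟨E1, hE1⟩ := hGPG Γ V d x0 H e δ κ c B ke 0 (13 * K)
  obtain ⟨E2, hE2⟩ := hGPG Γ V d x0 H e δ κ c B ke κ (13 * K + 2 * EP)
  obtain ⟨E3, hE3⟩ := hTOR Γ V d x0 H e δ κ c B ke K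
  refine ⟨E1 + E2 + E3 + 26 * K + 2 * c + 6 * EP + 4 * B + 1, ?_⟩
  intro N hN hE hW M _ hM tb htb1 htbo
  have hP := hEP V (Γ ⧸ zpowers e) d (Yf e x0) ke.fam
  obtain ⟨t1, rfl⟩ := QuotientGroup.mk_surjective tb
  -- a good lift
  obtain ⟨n, hn, hn1⟩ := isOfFinOrder_iff_pow_eq_one.mp htbo
  rw [← QuotientGroup.mk_pow, QuotientGroup.eq_one_iff, hM] at hn1
  obtain ⟨r, hr, hrt⟩ := hE3 N hN (by omega) hW t1 n hn hn1
  have hmk : (QuotientGroup.mk t1 : Γ ⧸ M) = QuotientGroup.mk (r * t1) := by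
    rw [QuotientGroup.mk_mul, (QuotientGroup.eq_one_iff r).mpr (by rw [hM]; exact hr), one_mul]
  rw [hmk] at htb1 ⊢
  generalize r * t1 = t at htb1 hrt
  have ht1 : t ≠ 1 := by
    rintro rfl
    exact htb1 rfl
  by_cases hto : IsOfFinOrder t
  · obtain ⟨c0, hc0⟩ := hvert t hto
    exact case_one ke (fun j x y => (hP j).2.2.2.2.2 x y) (hE1 N hN (by omega)).2 (by omega) hW M hM
      t ht1 hto c0 hc0 (hFIX Γ V d x0 ke.act t (hcent t ht1 hto))
  · obtain ⟨j, hj⟩ := hrt.resolve_left hto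
    obtain ⟨g, rfl⟩ := QuotientGroup.mk_surjective j
    rw [fix_iff, mem_zpowers_iff] at hj
    obtain ⟨s0, hs0⟩ := hj
    -- reduction of the exponent
    obtain ⟨s, k, hsk, hsN⟩ : ∃ s k : ℤ, s0 = s + N * k ∧ 2 * |s| ≤ N := by
      have hNz : (N : ℤ) ≠ 0 := by omega
      have a1 := Int.emod_nonneg s0 hNz
      have a2 := Int.emod_lt_of_pos s0 (by omega : (0 : ℤ) < N)
      have a3 := Int.emod_add_mul_ediv s0 N
      by_cases h : 2 * (s0 % N) ≤ N
      · exact ⟨s0 % N, s0 / N, a3.symm, by rw [abs_of_nonneg a1]; exact h⟩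
      · refine ⟨s0 % N - N, s0 / N + 1, ?_, ?_⟩
        · linarith
        · rw [abs_of_nonpos (by omega)]
          omega
    have hmk2 : (QuotientGroup.mk (e ^ s0) : Γ ⧸ M) = QuotientGroup.mk (e ^ s) := by
      rw [hsk, zpow_add, QuotientGroup.mk_mul]
      have : (QuotientGroup.mk (e ^ ((N : ℤ) * k)) : Γ ⧸ M) = 1 := by
        rw [QuotientGroup.eq_one_iff, hM, zpow_mul, zpow_natCast]
        exact zpow_mem (subset_normalClosure (Set.mem_singleton _)) k
      rw [this, mul_one]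
    have hts : (QuotientGroup.mk t : Γ ⧸ M) = QuotientGroup.mk g * QuotientGroup.mk (e ^ s) *
        (QuotientGroup.mk g)⁻¹ := by
      rw [← hmk2, ← QuotientGroup.mk_inv, ← QuotientGroup.mk_mul, ← QuotientGroup.mk_mul, hs0]
      congr 1
      group
    have hs1 : s ≠ 0 := by
      rintro rfl
      apply htb1
      rw [hts]
      simp
    have hfin := case_two ke (EP := EP) (K := K) hYR
      (fun j => ⟨(hP j).1, (hP j).2.2.1, (hP j).2.2.2.1, (hP j).2.2.2.2.1⟩)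
      (hE2 N hN (by omega)).2 (by omega) (by omega) hW M hM hN s hs1 hsN
    refine (hfin.image (fun h => QuotientGroup.mk g * h * (QuotientGroup.mk g)⁻¹)).subset ?_
    intro h hh
    refine ⟨(QuotientGroup.mk g)⁻¹ * h * QuotientGroup.mk g, ?_, by group⟩
    have hh' : h * QuotientGroup.mk t = QuotientGroup.mk t * h := hh
    rw [hts] at hh'
    show (QuotientGroup.mk g)⁻¹ * h * QuotientGroup.mk g * QuotientGroup.mk (e ^ s) =
      QuotientGroup.mk (e ^ s) * ((QuotientGroup.mk g)⁻¹ * h * QuotientGroup.mk g)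
    generalize (QuotientGroup.mk (e ^ s) : Γ ⧸ M) = u at hh'
    generalize (QuotientGroup.mk g : Γ ⧸ M) = g' at hh'
    calc g'⁻¹ * h * g' * u = g'⁻¹ * (h * (g' * u * g'⁻¹)) * g' := by group
      _ = g'⁻¹ * (g' * u * g'⁻¹ * h) * g' := by rw [hh']
      _ = u * (g'⁻¹ * h * g') := by group

end TK
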