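import Pool.Agent.TK.Targets1

set_option autoImplicit false

/-!
# TK-CINV: comparison and invariance of the cone-off metric
-/

namespace TK

namespace CINV_

variable {V J : Type} {d : V → V → ℕ} {Y : J → Set V} {D : V ⊕ J → V ⊕ J → ℕ}

theorem le (hd : Geo d) (hD : IsCone d Y D) : ∀ (n : ℕ) (x y : V), d x y = n →
    D (Sum.inl x) (Sum.inl y) ≤ n := by
  intro n
  induction n with
  | zero =>
    intro x y h
    have := hd.eq x y h
    subst this
    rw [hD.geo.self]
  | succ n ih =>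
    intro x y h
    obtain ⟨z, h1, h2⟩ := hd.geod x y n (by omega)
    have h3 : d z y = 1 := by omega
    have h4 := (hD.vv z y).mpr h3
    have h5 := ih x z h1
    have h6 := hD.geo.tri (Sum.inl x) (Sum.inl z) (Sum.inl y)
    omega

variable {Γ : Type} [Group Γ] [MulAction Γ V] [MulAction Γ J]

theorem one (hD : IsCone d Y D) (hinv : ∀ (g : Γ) (x y : V), d (g • x) (g • y) = d x y)
    (hY : ∀ (g : Γ) (x : V) (j : J), x ∈ Y j → g • x ∈ Y (g • j)) (g : Γ) (u w : V ⊕ J)
    (h : D u w = 1) : D (g • u) (g • w) = 1 := by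
  rcases u with x | i <;> rcases w with y | j
  · rw [Sum.smul_inl, Sum.smul_inl, hD.vv, hinv]
    exact (hD.vv x y).mp h
  · rw [Sum.smul_inl, Sum.smul_inr, hD.vj]
    exact hY g x j ((hD.vj x j).mp h)
  · rw [Sum.smul_inl, Sum.smul_inr, hD.geo.symm, hD.vj]
    rw [hD.geo.symm] at h
    exact hY g y i ((hD.vj y i).mp h)
  · exact absurd h (hD.jj i j)

theorem inv_le (hD : IsCone d Y D) (hinv : ∀ (g : Γ) (x y : V), d (g • x) (g • y) = d x y)
    (hY : ∀ (g : Γ) (x : V) (j : J), x ∈ Y j → g • x ∈ Y (g • j)) (g : Γ) :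
    ∀ (n : ℕ) (u w : V ⊕ J), D u w = n → D (g • u) (g • w) ≤ n := by
  intro n
  induction n with
  | zero =>
    intro u w h
    have := hD.geo.eq u w h
    subst this
    rw [hD.geo.self]
  | succ n ih =>
    intro u w h
    obtain ⟨z, h1, h2⟩ := hD.geo.geod u w n (by omega)
    have h3 : D z w = 1 := by omega
    have h4 := one hD hinv hY g z w h3
    have h5 := ih u z h1
    have h6 := hD.geo.tri (g • u) (g • z) (g • w)
    omega

theorem near (hinv : ∀ (g : Γ) (x y : V), d (g • x) (g • y) = d x y)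
    (hY : ∀ (g : Γ) (x : V) (j : J), x ∈ Y j → g • x ∈ Y (g • j)) (g : Γ) {j : J} {x y : V}
    (h : Near d (Y j) x y) : Near d (Y (g • j)) (g • x) (g • y) := by
  refine ⟨hY g y j h.1, fun y' hy' => ?_⟩
  have h1 := hY g⁻¹ y' (g • j) hy'
  rw [inv_smul_smul] at h1
  have h2 := h.2 _ h1
  have h3 := hinv g x (g⁻¹ • y')
  rw [smul_inv_smul] at h3
  rw [hinv, h3]
  exact h2

theorem pr (hinv : ∀ (g : Γ) (x y : V), d (g • x) (g • y) = d x y)
    (hY : ∀ (g : Γ) (x : V) (j : J), x ∈ Y j → g • x ∈ Y (g • j)) (g : Γ) {j : J} {u : V ⊕ J}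
    {y : V} (h : Pr d Y j u y) : Pr d Y (g • j) (g • u) (g • y) := by
  rcases u with x | i
  · exact near hinv hY g h
  · obtain ⟨x, hx, hn⟩ := h
    exact ⟨g • x, hY g x i hx, near hinv hY g hn⟩

end CINV_

/-- **TK-CINV** -/
theorem p_CINV : T_CINV := by
  intro V J d Y D hd hD
  refine ⟨fun x y => CINV_.le hd hD _ x y rfl, ?_⟩
  intro Γ _ _ _ hinv hY
  refine ⟨fun g u w => ?_, fun g j u w => ?_⟩
  · apply le_antisymm
    · exact CINV_.inv_le hD hinv hY g _ u w rfl
    · have h := CINV_.inv_le hD hinv hY g⁻¹ _ (g • u) (g • w) rfl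
      rw [inv_smul_smul, inv_smul_smul] at h
      exact h
  · unfold PD
    congr 1
    ext n
    constructor
    · rintro ⟨y, y', h1, h2, h3⟩
      refine ⟨g⁻¹ • y, g⁻¹ • y', ?_, ?_, ?_⟩
      · have := CINV_.pr hinv hY g⁻¹ h1
        rwa [inv_smul_smul, inv_smul_smul] at this
      · have := CINV_.pr hinv hY g⁻¹ h2
        rwa [inv_smul_smul, inv_smul_smul] at this
      · rw [hinv, h3]
    · rintro ⟨y, y', h1, h2, h3⟩
      exact ⟨g • y, g • y', CINV_.pr hinv hY g h1, CINV_.pr hinv hY g h2, by rw [hinv, h3]⟩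

end TK
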