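import Pool.Agent.TK.Targets1

set_option autoImplicit false
set_option linter.unusedVariables false

/-!
# Project TK (MP_3ae405_al, `k = 5`): TK-CLOSE, `V`-geodesics and cone-off geodesics are close
-/

namespace TK
namespace CLOSE_

/-- a path with unit steps inside a set -/
def Path {P : Type} (D : P → P → ℕ) (S : Set P) (N : ℕ) (u w : P) : Prop :=
  ∃ γ : ℕ → P, γ 0 = u ∧ γ N = w ∧ (∀ i, i < N → D (γ i) (γ (i+1)) ≤ 1) ∧ ∀ i, i ≤ N → γ i ∈ S

theorem Path.trans {P : Type} {D : P → P → ℕ} {S : Set P} {N M : ℕ} {u v w : P}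
    (h : Path D S N u v) (h' : Path D S M v w) : Path D S (N + M) u w := by
  obtain ⟨γ, a0, a1, a2, a3⟩ := h
  obtain ⟨γ', b0, b1, b2, b3⟩ := h'
  refine ⟨fun i => if i ≤ N then γ i else γ' (i - N), by simp [a0], ?_, ?_, ?_⟩
  · by_cases hM : M = 0
    · subst hM
      simp only [Nat.add_zero, le_refl, if_true]
      rw [a1, ← b0, b1]
    · have : ¬ (N + M ≤ N) := by omega
      simp only [this, if_false]
      rw [Nat.add_sub_cancel_left, b1]
  · intro i hi
    by_cases h1 : i + 1 ≤ N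
    · have h2 : i ≤ N := by omega
      simp only [h1, h2, if_true]
      exact a2 i (by omega)
    · by_cases h2 : i ≤ N
      · have h3 : i = N := by omega
        subst h3
        simp only [h1, le_refl, if_true, if_false]
        have h4 : i + 1 - i = 0 + 1 := by omega
        rw [h4, a1, ← b0]
        exact b2 0 (by omega)
      · simp only [h1, h2, if_false]
        have h4 : i + 1 - N = (i - N) + 1 := by omega
        rw [h4]
        exact b2 (i - N) (by omega)
  · intro i hi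
    by_cases h2 : i ≤ N
    · simp only [h2, if_true]
      exact a3 i h2
    · simp only [h2, if_false]
      exact b3 (i - N) (by omega)

theorem path_geo {P : Type} {D : P → P → ℕ} (hD : Geo D) (S : Set P) (u w : P)
    (hS : ∀ z, Btw D u z w → z ∈ S) : Path D S (D u w) u w := by
  obtain ⟨γ, h0, h1, h2⟩ := exists_geod hD u w
  refine ⟨γ, h0, h1, fun i hi => ?_, fun i hi => hS _ ?_⟩
  · rw [h2 i (i+1) (by omega) hi]; omega
  · have a1 := h2 0 i (by omega) hi
    have a2 := h2 i _ hi le_rfl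
    rw [h0] at a1
    rw [h1] at a2
    unfold Btw
    omega

theorem path_sub {P : Type} {D : P → P → ℕ} (hD : Geo D) (S : Set P) (n : ℕ) (γ : ℕ → P)
    (hγ : ∀ i k, i ≤ k → k ≤ n → D (γ i) (γ k) = k - i) (hS : ∀ i, i ≤ n → γ i ∈ S)
    (a b : ℕ) (ha : a ≤ n) (hb : b ≤ n) : Path D S (D (γ a) (γ b)) (γ a) (γ b) := by
  rcases le_total a b with h | h
  · have e := hγ a b h hb
    refine ⟨fun i => γ (a + i), by simp, ?_, ?_, ?_⟩
    · show γ (a + D (γ a) (γ b)) = γ b
      rw [e]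
      congr 1
      omega
    · intro i hi
      show D (γ (a + i)) (γ (a + (i + 1))) ≤ 1
      rw [hγ (a+i) (a+(i+1)) (by omega) (by omega)]
      omega
    · intro i hi
      exact hS _ (by omega)
  · have e := hγ b a h ha
    have e' := hD.symm (γ a) (γ b)
    refine ⟨fun i => γ (a - i), by simp, ?_, ?_, ?_⟩
    · show γ (a - D (γ a) (γ b)) = γ b
      rw [e', e]
      congr 1
      omega
    · intro i hi
      show D (γ (a - i)) (γ (a - (i + 1))) ≤ 1
      rw [hD.symm, hγ (a-(i+1)) (a-i) (by omega) (by omega)]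
      omega
    · intro i hi
      exact hS _ (by omega)

/-- discrete intermediate values for the cone-off distance along a geodesic -/
theorem ivt {V J : Type} {d : V → V → ℕ} {D : V ⊕ J → V ⊕ J → ℕ} (hd : Geo d) (hD : Geo D)
    (hle : ∀ x y : V, D (Sum.inl x) (Sum.inl y) ≤ d x y) (p q : V) (c : ℕ) :
    ∃ y, Btw d p y q ∧ ((y = q ∧ D (Sum.inl q) (Sum.inl p) ≤ c) ∨
      D (Sum.inl y) (Sum.inl p) = c) := by
  classical
  by_cases h : D (Sum.inl q) (Sum.inl p) ≤ c
  · exact ⟨q, btw_right hd p q, Or.inl ⟨rfl, h⟩⟩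
  · obtain ⟨σ, h0, h1, h2⟩ := exists_geod hd p q
    have hex : ∃ s, c ≤ D (Sum.inl (σ s)) (Sum.inl p) := ⟨d p q, by rw [h1]; omega⟩
    have hs := Nat.find_spec hex
    have hsT : Nat.find hex ≤ d p q := Nat.find_min' hex (by rw [h1]; omega)
    generalize hsd : Nat.find hex = s at hs hsT
    refine ⟨σ s, ?_, Or.inr ?_⟩
    · have a1 := h2 0 s (by omega) hsT
      have a2 := h2 s _ hsT le_rfl
      rw [h0] at a1
      rw [h1] at a2
      unfold Btw
      omega
    · rcases Nat.eq_zero_or_pos s with hz | hz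
      · subst hz
        rw [h0] at hs ⊢
        have := hD.self (Sum.inl p)
        omega
      · have hlt := Nat.find_min hex (m := s - 1) (by omega)
        have a1 := h2 (s-1) s (by omega) hsT
        have a2 := hle (σ s) (σ (s-1))
        have a3 := hD.tri (Sum.inl (σ s)) (Sum.inl (σ (s-1))) (Sum.inl p)
        have a4 := hd.symm (σ s) (σ (s-1))
        omega

/-- growth -/
theorem growth (c l : ℕ) (h : c * c + c ≤ l) : c * (l + 1) ≤ 2 ^ l := by
  have h1 : l = (l - c) + c := by omega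
  have h2 : l - c + 1 ≤ 2 ^ (l - c) := Nat.lt_two_pow_self
  have h3 : c + 1 ≤ 2 ^ c := Nat.lt_two_pow_self
  have h4 : (l - c + 1) * (c + 1) ≤ 2 ^ (l - c) * 2 ^ c := Nat.mul_le_mul h2 h3
  rw [← pow_add, ← h1] at h4
  refine le_trans ?_ h4
  obtain ⟨r, rfl⟩ := Nat.exists_eq_add_of_le h
  have h5 : c * c + c + r - c = c * c + r := by omega
  rw [h5]
  nlinarith

theorem exists_t (δ κ : ℕ) : ∃ t : ℕ, 1 ≤ t ∧ ∀ m, t < m → ∃ k, 8 * m ≤ 2 ^ k ∧
    k * δ + κ + 4 ≤ m := by
  refine ⟨2 ^ ((4*δ+κ+4) * (4*δ+κ+4) + (4*δ+κ+4)), Nat.one_le_two_pow, fun m hm => ?_⟩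
  have hm0 : m ≠ 0 := by
    have := Nat.one_le_two_pow (n := (4*δ+κ+4) * (4*δ+κ+4) + (4*δ+κ+4))
    omega
  refine ⟨Nat.log 2 m + 4, ?_, ?_⟩
  · have := Nat.lt_pow_succ_log_self (b := 2) (by norm_num) m
    rw [pow_succ] at this
    rw [pow_add]
    norm_num
    omega
  · have h1 : 2 ^ Nat.log 2 m ≤ m := Nat.pow_log_le_self 2 hm0
    have h2 : (4*δ+κ+4) * (4*δ+κ+4) + (4*δ+κ+4) ≤ Nat.log 2 m :=
      Nat.le_log_of_pow_le (by norm_num) hm.le
    have h3 := growth _ _ h2
    generalize Nat.log 2 m = l at h1 h3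
    have h4 : (l + 4) * δ + κ + 4 ≤ (4*δ+κ+4) * (l + 1) := by nlinarith
    omega

section Main

variable {V J : Type} {d : V → V → ℕ} {D : V ⊕ J → V ⊕ J → ℕ}

/-- one side of the polygon -/
theorem side (hd : Geo d) (hD : Geo D) (hle : ∀ x y : V, D (Sum.inl x) (Sum.inl y) ≤ d x y)
    {n : ℕ} {γ : ℕ → V ⊕ J} {m : ℕ} (hm : 1 ≤ m) {p q : V} {e : ℕ} (he : e ≤ n)
    (hq : D (Sum.inl q) (γ e) ≤ 1) (hp : ∀ i, i ≤ n → m ≤ D (Sum.inl p) (γ i))
    (hmax : ∀ y : V, Btw d p y q → ∃ i, i ≤ n ∧ D (Sum.inl y) (γ i) ≤ m) :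
    ∃ y a, Btw d p y q ∧ a ≤ n ∧ D (Sum.inl y) (γ a) ≤ m ∧ D (Sum.inl y) (Sum.inl p) ≤ 2 * m ∧
      ∀ w, Btw D (Sum.inl y) w (γ a) → m ≤ D (Sum.inl p) w + 1 := by
  obtain ⟨y, hy, h | h⟩ := ivt hd hD hle p q (2 * m)
  · obtain ⟨rfl, h⟩ := h
    refine ⟨y, e, hy, he, by omega, h, fun w hw => ?_⟩
    unfold Btw at hw
    have h1 := hp e he
    have h2 := hD.tri (Sum.inl p) w (γ e)
    omega
  · obtain ⟨a, ha, ha'⟩ := hmax y hy
    refine ⟨y, a, hy, ha, ha', by omega, fun w hw => ?_⟩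
    unfold Btw at hw
    have h2 := hD.tri (Sum.inl y) w (Sum.inl p)
    have h3 := hD.symm w (Sum.inl p)
    omega

end Main

end CLOSE_

open CLOSE_ in
theorem p_CLOSE (hLOG : T_LOG) (hCINV : T_CINV) : T_CLOSE := by
  classical
  intro δ κ
  obtain ⟨t0, ht1, ht0⟩ := exists_t δ κ
  refine ⟨3 * t0 + 5, ?_⟩
  intro V J d Y D B rep hF hc hr1 hr2 n γ hγ
  have hd := hF.geo
  have hD := hc.geo
  have hle : ∀ x y : V, D (Sum.inl x) (Sum.inl y) ≤ d x y := (hCINV V J d Y D hd hc).1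
  -- representatives are close
  have hrep : ∀ u : V ⊕ J, D (Sum.inl (rep u)) u ≤ 1 := by
    intro u
    rcases u with x | j
    · rw [hr1, hD.self]; omega
    · exact le_of_eq ((hc.vj _ _).2 (hr2 j))
  -- the first claim
  have first : ∀ p : V, Btw d (rep (γ 0)) p (rep (γ n)) →
      ∃ i, i ≤ n ∧ D (Sum.inl p) (γ i) ≤ t0 := by
    by_contra hcon
    push Not at hcon
    obtain ⟨p0, hp0, hp0'⟩ := hcon
    set x0 := rep (γ 0) with hx0
    set xn := rep (γ n) with hxn
    let P : ℕ → Prop := fun m => ∃ p, Btw d x0 p xn ∧ ∀ i, i ≤ n → m ≤ D (Sum.inl p) (γ i)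
    have hbd : ∀ m, P m → m ≤ d x0 xn + 1 := by
      rintro m ⟨p, hp, hpm⟩
      have h1 := hpm 0 (by omega)
      have h2 := hD.tri (Sum.inl p) (Sum.inl x0) (γ 0)
      have h3 := hrep (γ 0)
      have h4 := hle p x0
      have h5 := hd.symm p x0
      unfold Btw at hp
      rw [← hx0] at h3
      omega
    have hP0 : P (t0 + 1) := ⟨p0, hp0, fun i hi => hp0' i hi⟩
    set m := Nat.findGreatest P (d x0 xn + 1) with hm
    have hm1 : t0 + 1 ≤ m := Nat.le_findGreatest (hbd _ hP0) hP0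
    have hPm : P m := Nat.findGreatest_spec (hbd _ hP0) hP0
    have hPm1 : ¬ P (m + 1) := by
      intro h
      have h1 := Nat.le_findGreatest (hbd _ h) h
      rw [← hm] at h1
      omega
    have hmax : ∀ p, Btw d x0 p xn → ∃ i, i ≤ n ∧ D (Sum.inl p) (γ i) ≤ m := by
      intro p hp
      by_contra hcon
      push Not at hcon
      exact hPm1 ⟨p, hp, fun i hi => hcon i hi⟩
    obtain ⟨p, hp, hpm⟩ := hPm
    obtain ⟨k, hk1, hk2⟩ := ht0 m (by omega)
    -- the two sides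
    obtain ⟨y, a, hy, ha, hya, hyp, hyw⟩ := side hd hD hle (by omega : 1 ≤ m)
      (Nat.zero_le n) (hrep (γ 0)) hpm (q := x0) (fun y hy => hmax y
        (Btw.trans_left hd hp (Btw.symm hd hy)).1)
    obtain ⟨z, b, hz, hb, hzb, hzp, hzw⟩ := side hd hD hle (by omega : 1 ≤ m)
      (le_refl n) (hrep (γ n)) hpm (q := xn) (fun y hy => hmax y
        (Btw.trans_right hd hp hy).1)
    have hyp' := (Btw.trans_left hd hp (Btw.symm hd hy)).2
    have hypz := (Btw.trans_right hd hyp' hz).2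
    -- the path
    have hS : ∀ i, i ≤ n → γ i ∈ {w | m ≤ D (Sum.inl p) w + 1} := by
      intro i hi
      have := hpm i hi
      show m ≤ D (Sum.inl p) (γ i) + 1
      omega
    have q1 : Path D {w | m ≤ D (Sum.inl p) w + 1} _ (Sum.inl y) (γ a) :=
      path_geo hD _ _ _ hyw
    have q2 : Path D {w | m ≤ D (Sum.inl p) w + 1} _ (γ a) (γ b) :=
      path_sub hD _ n γ hγ hS a b ha hb
    have q3 : Path D {w | m ≤ D (Sum.inl p) w + 1} _ (γ b) (Sum.inl z) :=
      path_geo hD _ _ _ (fun w hw => hzw w (Btw.symm hD hw))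
    obtain ⟨σ, s0, s1, s2, s3⟩ := (q1.trans q2).trans q3
    have hlen : D (Sum.inl y) (γ a) + D (γ a) (γ b) + D (γ b) (Sum.inl z) ≤ 8 * m := by
      have e1 := hD.tri (γ a) (Sum.inl y) (γ b)
      have e2 := hD.tri (Sum.inl y) (Sum.inl p) (γ b)
      have e3 := hD.tri (Sum.inl p) (Sum.inl z) (γ b)
      have e4 := hD.symm (γ a) (Sum.inl y)
      have e5 := hD.symm (γ b) (Sum.inl z)
      have e6 := hD.symm (Sum.inl z) (Sum.inl p)
      omega
    obtain ⟨i, hi, hi'⟩ := hLOG V J d Y D δ κ B rep hF hc hr1 hr2 k _ σ (le_trans hlen hk1) s2 p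
      (by rw [s0, s1, hr1, hr1]; exact hypz)
    have h7 : m ≤ D (Sum.inl p) (σ i) + 1 := s3 i hi
    omega
  refine ⟨fun p hp => ?_, fun i hi => ?_⟩
  · obtain ⟨i, hi, hi'⟩ := first p hp
    exact ⟨i, hi, by omega⟩
  · -- the second claim
    obtain ⟨σ, h0, h1, h2⟩ := exists_geod hd (rep (γ 0)) (rep (γ n))
    set T := d (rep (γ 0)) (rep (γ n)) with hT
    have hb : ∀ s, s ≤ T → Btw d (rep (γ 0)) (σ s) (rep (γ n)) := by
      intro s hs
      have a1 := h2 0 s (by omega) hs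
      have a2 := h2 s _ hs le_rfl
      rw [h0] at a1
      rw [h1] at a2
      unfold Btw
      omega
    let P : ℕ → Prop := fun s => ∃ l, l ≤ i ∧ D (Sum.inl (σ s)) (γ l) ≤ t0 + 1
    have hP0 : P 0 := ⟨0, by omega, by rw [h0]; have := hrep (γ 0); omega⟩
    set s := Nat.findGreatest P T with hs
    have hsT : s ≤ T := Nat.findGreatest_le T
    obtain ⟨l, hl, hl'⟩ : P s := Nat.findGreatest_spec (Nat.zero_le T) hP0
    refine ⟨σ s, hb s hsT, ?_⟩
    rcases Nat.lt_or_ge s T with hlt | hge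
    · obtain ⟨r, hr, hr'⟩ := first (σ (s+1)) (hb _ hlt)
      have hnP : ¬ P (s+1) := by
        intro hPs
        have := Nat.le_findGreatest (m := s+1) (n := T) (P := P) (by omega) hPs
        omega
      have hir : i < r := by
        by_contra hcon
        exact hnP ⟨r, by omega, by omega⟩
      have e1 := hγ l r (by omega) hr
      have e2 := hγ l i hl hi
      have e3 := hD.tri (γ l) (Sum.inl (σ s)) (γ r)
      have e4 := hD.tri (Sum.inl (σ s)) (Sum.inl (σ (s+1))) (γ r)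
      have e5 := hle (σ s) (σ (s+1))
      have e6 := h2 s (s+1) (by omega) (by omega)
      have e7 := hD.symm (γ l) (Sum.inl (σ s))
      have e8 := hD.tri (Sum.inl (σ s)) (γ l) (γ i)
      omega
    · have hsT' : s = T := by omega
      have hn := hrep (γ n)
      rw [hsT', h1] at hl' ⊢
      have e1 := hγ l n (by omega) le_rfl
      have e2 := hγ i n hi le_rfl
      have e3 := hD.tri (γ l) (Sum.inl (rep (γ n))) (γ n)
      have e4 := hD.symm (γ l) (Sum.inl (rep (γ n)))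
      have e5 := hD.tri (Sum.inl (rep (γ n))) (γ n) (γ i)
      have e6 := hD.symm (γ n) (γ i)
      omega

end TK
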