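import Pool.Agent.TK.Targets1

set_option autoImplicit false
set_option linter.unusedVariables false

/-!
# Project TK: job TK-CNT, uniform counting for geometric actions
-/

namespace TK

namespace CNT_

variable {Γ : Type} [Group Γ] {V : Type} [MulAction Γ V] {d : V → V → ℕ} {x0 : V}

theorem fiber_finite (hA : GeoAct Γ V d x0) (y : V) : {k : Γ | k • x0 = y}.Finite := by
  rcases Set.eq_empty_or_nonempty {k : Γ | k • x0 = y} with h | ⟨k0, hk0⟩
  · rw [h]; exact Set.finite_empty
  · refine ((hA.stab x0).image (fun s => k0 * s)).subset ?_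
    intro k hk
    refine ⟨k0⁻¹ * k, ?_, by simp⟩
    simp only [Set.mem_setOf_eq] at hk hk0 ⊢
    rw [mul_smul, hk, ← hk0, inv_smul_smul]

theorem S_finite (hA : GeoAct Γ V d x0) (n : ℕ) : {k : Γ | d x0 (k • x0) ≤ n}.Finite := by
  have h := (hA.ball x0 n).biUnion (fun y _ => fiber_finite hA y)
  refine h.subset ?_
  intro k hk
  simp only [Set.mem_iUnion, Set.mem_setOf_eq, exists_prop, exists_eq_right'] at hk ⊢
  exact hk

end CNT_

theorem p_CNT : T_CNT := by
  intro Γ _ V _ d x0 hA n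
  obtain ⟨D0, hD⟩ := hA.coc
  have hS := CNT_.S_finite hA (n + 2 * D0)
  have hB := hA.ball x0 (n + D0)
  refine ⟨{k : Γ | d x0 (k • x0) ≤ n + 2 * D0}.ncard + {y | d x0 y ≤ n + D0}.ncard, ?_, ?_⟩
  · intro x y
    obtain ⟨g1, h1⟩ := hD x
    obtain ⟨g2, h2⟩ := hD y
    have hsub : {g : Γ | d x (g • y) ≤ n} ⊆
        (fun s => g1 * s * g2⁻¹) '' {k : Γ | d x0 (k • x0) ≤ n + 2 * D0} := by
      intro g hg
      refine ⟨g1⁻¹ * g * g2, ?_, by group⟩
      simp only [Set.mem_setOf_eq] at hg ⊢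
      have e1 : d x0 ((g1⁻¹ * g * g2) • x0) = d (g1 • x0) (g • g2 • x0) := by
        rw [← hA.inv g1 x0, smul_smul, smul_smul]
        congr 2
        group
      rw [e1]
      have t1 := hA.geo.tri (g1 • x0) x (g • g2 • x0)
      have t2 := hA.geo.tri x (g • y) (g • g2 • x0)
      have t3 := hA.inv g y (g2 • x0)
      have t4 := hA.geo.symm (g1 • x0) x
      omega
    refine ⟨(hS.image _).subset hsub, ?_⟩
    have c1 := Set.ncard_le_ncard hsub (hS.image _)
    have c2 := Set.ncard_image_le (f := fun s => g1 * s * g2⁻¹) hS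
    omega
  · intro x
    obtain ⟨g1, h1⟩ := hD x
    have hsub : {y | d x y ≤ n} ⊆ (fun y => g1 • y) '' {y | d x0 y ≤ n + D0} := by
      intro y hy
      refine ⟨g1⁻¹ • y, ?_, by simp⟩
      simp only [Set.mem_setOf_eq] at hy ⊢
      have e1 : d x0 (g1⁻¹ • y) = d (g1 • x0) y := by
        rw [← hA.inv g1 x0, smul_inv_smul]
      rw [e1]
      have t1 := hA.geo.tri (g1 • x0) x y
      have t4 := hA.geo.symm (g1 • x0) x
      omega
    have c1 := Set.ncard_le_ncard hsub (hB.image _)
    have c2 := Set.ncard_image_le (f := fun y => g1 • y) hB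
    omega

end TK
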