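import Pool.Agent.TK.Targets1

set_option autoImplicit false
set_option linter.unusedVariables false

/-!
# Project TK, job TK-COM: commensurating elements are close to the quasi-line
-/

open Filter Topology

namespace TK

namespace COM_

/-- exponential growth beats smaller exponential growth -/
theorem growth (A D F b : ℕ) (hb : 1 ≤ b)
    (h : ∀ n : ℕ, (b + 1) ^ n ≤ A * (2 * n * D + b ^ n * F) + A) : False := by
  have hb1 : (0 : ℝ) < (b : ℝ) + 1 := by positivity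
  have hb2 : (1 : ℝ) ≤ b := by exact_mod_cast hb
  set r : ℝ := 1 / ((b : ℝ) + 1) with hr
  set s : ℝ := (b : ℝ) / ((b : ℝ) + 1) with hs
  have hr0 : 0 ≤ r := by positivity
  have hs0 : 0 ≤ s := by positivity
  have hr1 : r < 1 := by
    rw [hr, div_lt_one hb1]; linarith
  have hs1 : s < 1 := by
    rw [hs, div_lt_one hb1]; linarith
  have t1 : Tendsto (fun n : ℕ => (n : ℝ) * r ^ n) atTop (𝓝 0) :=
    tendsto_self_mul_const_pow_of_lt_one hr0 hr1
  have t2 : Tendsto (fun n : ℕ => s ^ n) atTop (𝓝 0) :=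
    tendsto_pow_atTop_nhds_zero_of_lt_one hs0 hs1
  have t3 : Tendsto (fun n : ℕ => r ^ n) atTop (𝓝 0) :=
    tendsto_pow_atTop_nhds_zero_of_lt_one hr0 hr1
  have t4 : Tendsto (fun n : ℕ => (A * 2 * D : ℝ) * ((n : ℝ) * r ^ n) + (A * F : ℝ) * s ^ n +
      (A : ℝ) * r ^ n) atTop (𝓝 ((A * 2 * D : ℝ) * 0 + (A * F : ℝ) * 0 + (A : ℝ) * 0)) :=
    ((t1.const_mul _).add (t2.const_mul _)).add (t3.const_mul _)
  have h1 : ∀ n : ℕ, (1 : ℝ) ≤ (A * 2 * D : ℝ) * ((n : ℝ) * r ^ n) + (A * F : ℝ) * s ^ n +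
      (A : ℝ) * r ^ n := by
    intro n
    have hn : (((b : ℝ) + 1) ^ n) ≤ A * (2 * n * D + (b : ℝ) ^ n * F) + A := by
      exact_mod_cast h n
    have hp : (0 : ℝ) < ((b : ℝ) + 1) ^ n := by positivity
    have e1 : (A * 2 * D : ℝ) * ((n : ℝ) * r ^ n) + (A * F : ℝ) * s ^ n + (A : ℝ) * r ^ n =
        (A * (2 * n * D + (b : ℝ) ^ n * F) + A) / ((b : ℝ) + 1) ^ n := by
      rw [hr, hs, div_pow, div_pow, one_pow]
      field_simp
    rw [e1, one_le_div hp]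
    exact hn
  have h2 : (1 : ℝ) ≤ (A * 2 * D : ℝ) * 0 + (A * F : ℝ) * 0 + (A : ℝ) * 0 :=
    ge_of_tendsto' t4 h1
  norm_num at h2

section

variable {Γ V : Type} [Group Γ] [MulAction Γ V] {d : V → V → ℕ} {x0 : V}

theorem conj_pow {g h : Γ} {i j : ℤ} (hg : g * h ^ i * g⁻¹ = h ^ j) (n : ℕ) :
    g ^ n * h ^ (i ^ n) * (g ^ n)⁻¹ = h ^ (j ^ n) := by
  induction n with
  | zero => simp
  | succ n ih =>
    have e1 : g * h ^ (i ^ (n + 1)) * g⁻¹ = h ^ (j * i ^ n) := by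
      rw [pow_succ, mul_comm (i ^ n) i, zpow_mul, zpow_mul, ← hg, conj_zpow]
    calc g ^ (n + 1) * h ^ (i ^ (n + 1)) * (g ^ (n + 1))⁻¹
        = g ^ n * (g * h ^ (i ^ (n + 1)) * g⁻¹) * (g ^ n)⁻¹ := by
          rw [pow_succ g n]; group
      _ = g ^ n * (h ^ (i ^ n)) ^ j * (g ^ n)⁻¹ := by
          rw [e1, mul_comm j, zpow_mul]
      _ = (g ^ n * h ^ (i ^ n) * (g ^ n)⁻¹) ^ j := by rw [conj_zpow]
      _ = (h ^ (j ^ n)) ^ j := by rw [ih]
      _ = h ^ (j ^ (n + 1)) := by rw [← zpow_mul, pow_succ]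

theorem dist_pow_le (hG : GeoAct Γ V d x0) (g : Γ) (n : ℕ) :
    d x0 (g ^ n • x0) ≤ n * d x0 (g • x0) := by
  induction n with
  | zero => simp [hG.geo.self]
  | succ n ih =>
    have h1 := hG.geo.tri x0 (g ^ n • x0) (g ^ (n + 1) • x0)
    have h2 : d (g ^ n • x0) (g ^ (n + 1) • x0) = d x0 (g • x0) := by
      rw [pow_succ, mul_smul]
      exact hG.inv _ _ _
    rw [Nat.succ_mul]
    omega

theorem dist_inv (hG : GeoAct Γ V d x0) (g : Γ) : d x0 (g⁻¹ • x0) = d x0 (g • x0) := by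
  have h := hG.inv g x0 (g⁻¹ • x0)
  rw [smul_inv_smul] at h
  rw [← h, hG.geo.symm]

theorem dist_zpow_le (hG : GeoAct Γ V d x0) (g : Γ) (m : ℤ) :
    d x0 (g ^ m • x0) ≤ m.natAbs * d x0 (g • x0) := by
  rcases Int.natAbs_eq m with hm | hm
  · conv_lhs => rw [hm]
    rw [zpow_natCast]
    exact dist_pow_le hG g _
  · conv_lhs => rw [hm]
    rw [zpow_neg, zpow_natCast, dist_inv hG]
    exact dist_pow_le hG g _

theorem natAbs_le (hG : GeoAct Γ V d x0) {h : Γ} (hh : ¬ IsOfFinOrder h) {A : ℕ}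
    (hA : ∀ i : ℤ, i.natAbs ≤ A * d x0 (h ^ i • x0) + A) {g : Γ} {i j : ℤ} (hi : i ≠ 0)
    (hg : g * h ^ i * g⁻¹ = h ^ j) : i.natAbs ≤ j.natAbs := by
  by_contra hcon
  push Not at hcon
  have hj : j ≠ 0 := by
    intro hj
    rw [hj, zpow_zero] at hg
    have : h ^ i = 1 := by
      have := congrArg (fun x => g⁻¹ * x * g) hg
      simpa [mul_assoc] using this
    exact hh (isOfFinOrder_iff_zpow_eq_one.mpr ⟨i, hi, this⟩)
  refine growth A (d x0 (g • x0)) (d x0 (h • x0)) j.natAbs (by omega) ?_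
  intro n
  have h1 := hA (i ^ n)
  have h2 : d x0 (h ^ (i ^ n) • x0) ≤ 2 * n * d x0 (g • x0) + j.natAbs ^ n * d x0 (h • x0) := by
    have e := conj_pow hg n
    have e2 : g ^ n * h ^ (i ^ n) = h ^ (j ^ n) * g ^ n := by
      rw [← e]; group
    have e3 : d x0 (h ^ (i ^ n) • x0) = d (g ^ n • x0) (h ^ (j ^ n) • (g ^ n • x0)) := by
      rw [← hG.inv (g ^ n) x0 (h ^ (i ^ n) • x0), ← mul_smul, ← mul_smul, e2]
    rw [e3]
    have t1 := hG.geo.tri (g ^ n • x0) x0 (h ^ (j ^ n) • (g ^ n • x0))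
    have t2 := hG.geo.tri x0 (h ^ (j ^ n) • x0) (h ^ (j ^ n) • (g ^ n • x0))
    have t3 := hG.inv (h ^ (j ^ n)) x0 (g ^ n • x0)
    have t4 := dist_pow_le hG g n
    have t5 := dist_zpow_le hG h (j ^ n)
    have t6 := hG.geo.symm (g ^ n • x0) x0
    rw [Int.natAbs_pow] at t5
    have t7 : 2 * n * d x0 (g • x0) = n * d x0 (g • x0) + n * d x0 (g • x0) := by ring
    omega
  calc (j.natAbs + 1) ^ n ≤ i.natAbs ^ n := Nat.pow_le_pow_left (by omega) n
    _ = (i ^ n).natAbs := (Int.natAbs_pow i n).symm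
    _ ≤ A * d x0 (h ^ (i ^ n) • x0) + A := h1
    _ ≤ _ := by
      have := Nat.mul_le_mul_left A h2
      omega

theorem close (hG : GeoAct Γ V d x0) {h : Γ} {A c κ δ : ℕ}
    (hthin : Thin d δ)
    (hA : ∀ i : ℤ, i.natAbs ≤ A * d x0 (h ^ i • x0) + A)
    (hql : QL d c (fun i : ℤ => h ^ i • x0))
    (hqc : QC d κ (Set.range fun i : ℤ => h ^ i • x0))
    {g : Γ} {i j : ℤ} (hi : 1 ≤ i)
    (hg : g * h ^ i * g⁻¹ = h ^ j) :
    ∃ k : ℤ, d (g • x0) (h ^ k • x0) ≤ 2 * c + (4 * δ + 2) + 2 * δ + κ := by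
  have hd := hG.geo
  have hC : Four d (4 * δ + 2) := four_of_thin hd hthin
  set C := 4 * δ + 2 with hCdef
  set D := d x0 (g • x0) with hD
  set T := D + 2 * δ + 2 * c + C with hT
  set n : ℕ := A * T + A + 1 with hn
  -- the four points
  have hcomm : ∀ m : ℤ, g * h ^ (i * m) = h ^ (j * m) * g := by
    intro m
    have : g * h ^ (i * m) * g⁻¹ = h ^ (j * m) := by
      rw [zpow_mul, zpow_mul, ← hg, conj_zpow]
    rw [← this]; group
  set P : V := h ^ (j * (-(n : ℤ))) • x0 with hP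
  set Q : V := h ^ (j * (n : ℤ)) • x0 with hQ
  set P' : V := g • (h ^ (i * (-(n : ℤ))) • x0) with hP'
  set Q' : V := g • (h ^ (i * (n : ℤ)) • x0) with hQ'
  have dP : d P P' = D := by
    rw [hP', ← mul_smul, hcomm, mul_smul, hP]
    exact hG.inv _ _ _
  have dQ : d Q Q' = D := by
    rw [hQ', ← mul_smul, hcomm, mul_smul, hQ]
    exact hG.inv _ _ _
  -- quasi-line
  have hin : (0 : ℤ) ≤ i * (n : ℤ) := by positivity
  have q1 := hql (i * (-(n : ℤ))) 0 (i * (n : ℤ)) (by rw [mul_neg]; omega) hin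
  simp only [zpow_zero, one_smul] at q1
  have s1 := hG.inv g (h ^ (i * (-(n : ℤ))) • x0) x0
  have s2 := hG.inv g x0 (h ^ (i * (n : ℤ)) • x0)
  have s3 := hG.inv g (h ^ (i * (-(n : ℤ))) • x0) (h ^ (i * (n : ℤ)) • x0)
  have q2 : d P' (g • x0) + d (g • x0) Q' ≤ d P' Q' + c := by
    rw [hP', hQ', s1, s2, s3]; exact q1
  -- lengths
  have hbig : T < d x0 (h ^ (i * (n : ℤ)) • x0) := by
    by_contra hcon
    push Not at hcon
    have h1 := hA (i * (n : ℤ))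
    have h2 := Nat.mul_le_mul_left A hcon
    have h3 : n ≤ (i * (n : ℤ)).natAbs := by
      rw [Int.natAbs_mul, Int.natAbs_natCast]
      have : 1 ≤ i.natAbs := by omega
      nlinarith
    omega
  have l2 : T < d (g • x0) Q' := by rw [hQ', s2]; exact hbig
  have l1 : T < d P' (g • x0) := by
    rw [hP', s1]
    have e : d (h ^ (i * (-(n : ℤ))) • x0) x0 = d x0 (h ^ (i * (n : ℤ)) • x0) := by
      rw [← hG.inv (h ^ (i * (n : ℤ))) (h ^ (i * (-(n : ℤ))) • x0) x0, ← mul_smul, ← zpow_add]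
      have : i * (n : ℤ) + i * (-(n : ℤ)) = 0 := by ring
      rw [this, zpow_zero, one_smul]
    rw [e]; exact hbig
  -- the point `z`
  obtain ⟨z, hz1, hz2⟩ := hd.geod P' Q' (min (d P' (g • x0)) (d P' Q')) (min_le_right _ _)
  have hgz : d (g • x0) z ≤ c + c + C := by
    refine fellow hd hC (x := P') (y := Q') (c := c) (e := c) q2 (by omega) ?_ ?_
    · have := hd.symm z Q'
      omega
    · omega
  -- thin twice
  have y1 := hd.tri P' z (g • x0)
  have y2 := hd.tri (g • x0) z Q'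
  have y3 := hd.symm z (g • x0)
  obtain ⟨q, hq, hzq⟩ := hthin P' Q' P z (by unfold Btw; omega)
  have hq' : Btw d P q Q' := by
    rcases hq with hq | hq
    · exfalso
      unfold Btw at hq
      have := hd.symm P P'
      have := hd.tri P' q z
      have := hd.symm q z
      omega
    · exact hq
  obtain ⟨q', hq2, hqq⟩ := hthin P Q' Q q hq'
  have hq3 : Btw d P q' Q := by
    rcases hq2 with hq2 | hq2
    · exact hq2
    · exfalso
      unfold Btw at hq2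
      have := hd.tri z q Q'
      have := hd.tri q q' Q'
      omega
  obtain ⟨r, ⟨k, hk⟩, hr⟩ := hqc P ⟨j * (-(n : ℤ)), rfl⟩ Q ⟨j * (n : ℤ), rfl⟩ q' hq3
  refine ⟨k, ?_⟩
  have hk' : h ^ k • x0 = r := hk
  rw [hk']
  have t1 := hd.tri (g • x0) z r
  have t2 := hd.tri z q r
  have t3 := hd.tri q q' r
  omega

end

end COM_

open COM_ in
/-- TK-COM commensurating elements -/
theorem p_COM (hQL : T_QL) (hCNT : T_CNT) : T_COM := by
  intro Γ _ V _ d x0 hG h hh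
  obtain ⟨⟨c, hql⟩, ⟨A, hA⟩, ⟨κ, hqc⟩⟩ := hQL Γ V d x0 hG h hh x0
  obtain ⟨δ, hthin⟩ := hG.thin
  set M := 2 * c + (4 * δ + 2) + 2 * δ + κ with hM
  obtain ⟨N, hN, -⟩ := hCNT Γ V d x0 hG M
  have hfin : {g : Γ | d x0 (g • x0) ≤ M}.Finite := (hN x0 x0).1
  refine ⟨hfin.toFinset, fun g i j hi hg => ?_⟩
  have hj : j ≠ 0 := by
    intro hj
    rw [hj, zpow_zero] at hg
    have : h ^ i = 1 := by
      have := congrArg (fun x => g⁻¹ * x * g) hg
      simpa [mul_assoc] using this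
    exact hh (isOfFinOrder_iff_zpow_eq_one.mpr ⟨i, hi, this⟩)
  have hg' : g⁻¹ * h ^ j * g⁻¹⁻¹ = h ^ i := by
    rw [← hg]; group
  have h1 := natAbs_le hG hh hA hi hg
  have h2 := natAbs_le hG hh hA hj hg'
  refine ⟨Int.natAbs_eq_natAbs_iff.mp (le_antisymm h1 h2), ?_⟩
  have hex : ∃ k : ℤ, d (g • x0) (h ^ k • x0) ≤ M := by
    rcases lt_trichotomy i 0 with h0 | h0 | h0
    · have hg2 : g * h ^ (-i) * g⁻¹ = h ^ (-j) := by
        rw [zpow_neg, zpow_neg, ← hg]; group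
      exact close hG hthin hA hql hqc (by omega) hg2
    · exact absurd h0 hi
    · exact close hG hthin hA hql hqc (by omega) hg
  obtain ⟨k, hk⟩ := hex
  refine ⟨h ^ (-k) * g, ?_, k, ?_⟩
  · rw [Set.Finite.mem_toFinset]
    show d x0 ((h ^ (-k) * g) • x0) ≤ M
    rw [← hG.inv (h ^ k) x0 ((h ^ (-k) * g) • x0), ← mul_smul, ← mul_assoc, ← zpow_add,
      add_neg_cancel, zpow_zero, one_mul, hG.geo.symm]
    exact hk
  · rw [← mul_assoc, ← zpow_add, add_neg_cancel, zpow_zero, one_mul]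

end TK
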