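import Pool.Agent.TK.Targets2

set_option autoImplicit false
set_option linter.unusedVariables false

/-!
# TK-CONJ: conjugacy into `H` modulo the rotations
-/

namespace TK

open Subgroup

namespace CONJ_

/-- a minimal pair -/
lemma exists_min {Γ V : Type} [Group Γ] [MulAction Γ V] (d : V → V → ℕ) (M : Subgroup Γ)
    (A : Set V) (hA : A.Nonempty) (z : V) :
    ∃ r1 ∈ M, ∃ a ∈ A, ∀ r ∈ M, ∀ u ∈ A, d (r1 • z) a ≤ d (r • (r1 • z)) u := by
  classical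
  obtain ⟨u0, hu0⟩ := hA
  have h : ∃ n, ∃ r ∈ M, ∃ a ∈ A, d (r • z) a = n := ⟨_, 1, M.one_mem, u0, hu0, rfl⟩
  obtain ⟨r1, hr1, a, ha, hn⟩ := Nat.find_spec h
  refine ⟨r1, hr1, a, ha, fun r hr u hu => ?_⟩
  rw [hn]
  refine Nat.find_min' h ⟨r * r1, M.mul_mem hr hr1, u, hu, ?_⟩
  rw [mul_smul]

/-- a step of the windmill theorem at a point of `V` -/
lemma wind_step {Γ : Type} [Group Γ] {V : Type} [MulAction Γ V] {d : V → V → ℕ} {x0 : V} {e : Γ}
    {K N : ℕ} (hw : Wind d x0 e K N) (x : V) (r : Γ)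
    (hr : r ∈ normalClosure ({e ^ N} : Set Γ)) (h1 : r ≠ 1) :
    ∃ j : Γ ⧸ zpowers e, d x0 (e ^ N • x0) - 13 * K ≤
      PD d (Yf e x0) j (Sum.inl x) (Sum.inl (r • x)) := by
  have h := hw (Sum.inl x) r hr
  cases h with
  | one => exact absurd rfl h1
  | base j _ hx _ => exact absurd hx (by simp)
  | step j ρ _ _ _ _ hM _ => exact ⟨j, hM⟩

end CONJ_

open CONJ_ in
theorem p_CONJ (hGPG : T_GPG) (hPD : T_PD) (hYR : T_YR) : T_CONJ := by
  intro Γ _ V _ d x0 H e δ κ c B hK κA K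
  obtain ⟨EP, hEP⟩ := hPD δ κ B
  obtain ⟨EG, hEG⟩ := hGPG Γ V d x0 H e δ κ c B hK κA (13 * K + B + EP)
  refine ⟨EG, ?_⟩
  intro N hN hE hW s A hAne hAq hAs hAj g h r hh hr hgs
  set M : Subgroup Γ := normalClosure ({e ^ N} : Set Γ) with hM
  have hnorm : M.Normal := normalClosure_normal
  obtain ⟨r1, hr1, a, ha, hmin⟩ := exists_min d M A hAne (g • x0)
  set g1 := r1 * g with hg1
  set r2 := h⁻¹ * (g1⁻¹ * s * g1) with hr2
  have hr2M : r2 ∈ M := by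
    have e1 : r2 = (h⁻¹ * (g⁻¹ * r1⁻¹ * g⁻¹⁻¹) * h⁻¹⁻¹) * r * (g⁻¹ * r1 * g⁻¹⁻¹) := by
      have e2 : r = h⁻¹ * (g⁻¹ * s * g) := by rw [hgs]; group
      rw [hr2, hg1, e2]
      group
    rw [e1]
    exact M.mul_mem (M.mul_mem (hnorm.conj_mem _ (hnorm.conj_mem _ (M.inv_mem hr1) _) _) hr)
      (hnorm.conj_mem _ hr1 _)
  by_cases h1 : r2 = 1
  · left
    refine ⟨g1, ?_⟩
    have e3 : g1⁻¹ * s * g1 = h * r2 := by rw [hr2]; group
    rw [e3, h1, mul_one]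
    exact hh
  · right
    set x := g1 • x0 with hx
    set x2 := (g1 * h) • x0 with hx2
    set r3 := (g1 * h) * r2 * (g1 * h)⁻¹ with hr3
    have hr3M : r3 ∈ M := hnorm.conj_mem _ hr2M _
    have hr31 : r3 ≠ 1 := by
      intro h3
      apply h1
      have e4 : r2 = (g1 * h)⁻¹ * r3 * (g1 * h) := by rw [hr3]; group
      rw [e4, h3]; group
    have hsx : r3 • x2 = s • x := by
      rw [hr3, hx2, hx, ← mul_smul, ← mul_smul, hr2]
      congr 1
      group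
    obtain ⟨j, hj⟩ := wind_step hW x2 r3 hr3M hr31
    rw [hsx] at hj
    obtain ⟨p1, p2, p3, p4, p5, p6⟩ := hEP V (Γ ⧸ zpowers e) d (Yf e x0) hK.fam j
    have htri := p5 (Sum.inl x2) (Sum.inl x) (Sum.inl (s • x)) (by simp) (by simp) (by simp)
    obtain ⟨y, hy⟩ := p1 (Sum.inl x2)
    obtain ⟨y', hy'⟩ := p1 (Sum.inl x)
    have hyy := (p3 (Sum.inl x2) (Sum.inl x) (by simp) (by simp) y y' hy hy').2
    have hnb := hK.nb (Quotient.out j) g1 x2 ⟨h, hh, rfl⟩ x ⟨1, H.one_mem, by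
      rw [mul_one]⟩ y y' hy hy'
    refine ⟨j, (hEG N hN hE).2 A s x a j hAq hAs ha ?_ ?_ (hAj a ha j)⟩
    · intro r' hr' u hu
      have := hmin r' hr' u hu
      rw [← mul_smul r1 g x0] at this
      exact this
    · omega

end TK
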