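import Pool.Agent.TK.Targets1

set_option autoImplicit false

/-!
# Project TK: the cone-off is hyperbolic
-/

namespace TK

namespace CTHIN_

/-- a geodesic sequence through a given point between the end points -/
theorem exists_geod_through {V : Type} {d : V → V → ℕ} (hd : Geo d) (x p y : V)
    (h : Btw d x p y) : ∃ γ : ℕ → V, γ 0 = x ∧ γ (d x y) = y ∧ γ (d x p) = p ∧
    ∀ i k, i ≤ k → k ≤ d x y → d (γ i) (γ k) = k - i := by
  obtain ⟨γ1, a0, a1, a2⟩ := exists_geod hd x p
  obtain ⟨γ2, b0, b1, b2⟩ := exists_geod hd p y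
  unfold Btw at h
  have hend : (fun i => if i ≤ d x p then γ1 i else γ2 (i - d x p)) (d x y) = y := by
    by_cases hle : d x y ≤ d x p
    · have e1 : d p y = 0 := by omega
      have e2 : p = y := hd.eq _ _ e1
      have e3 : d x y = d x p := by omega
      show (if d x y ≤ d x p then γ1 (d x y) else γ2 (d x y - d x p)) = y
      rw [if_pos hle, e3, a1, e2]
    · show (if d x y ≤ d x p then γ1 (d x y) else γ2 (d x y - d x p)) = y
      rw [if_neg hle]
      have e1 : d x y - d x p = d p y := by omega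
      rw [e1, b1]
  refine ⟨fun i => if i ≤ d x p then γ1 i else γ2 (i - d x p), ?_, hend, ?_, ?_⟩
  · show (if 0 ≤ d x p then γ1 0 else γ2 (0 - d x p)) = x
    rw [if_pos (Nat.zero_le _), a0]
  · show (if d x p ≤ d x p then γ1 (d x p) else γ2 (d x p - d x p)) = p
    rw [if_pos le_rfl, a1]
  · intro i k hik hk
    show d (if i ≤ d x p then γ1 i else γ2 (i - d x p))
      (if k ≤ d x p then γ1 k else γ2 (k - d x p)) = k - i
    by_cases hk1 : k ≤ d x p
    · rw [if_pos hk1, if_pos (hik.trans hk1)]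
      exact a2 i k hik hk1
    · rw [if_neg hk1]
      by_cases hi1 : i ≤ d x p
      · rw [if_pos hi1]
        have c1 := a2 i (d x p) hi1 le_rfl
        rw [a1] at c1
        have c2 := b2 0 (k - d x p) (Nat.zero_le _) (by omega)
        rw [b0] at c2
        have c3 := hd.tri (γ1 i) p (γ2 (k - d x p))
        have c4 := a2 0 i (Nat.zero_le _) hi1
        rw [a0] at c4
        have c5 := b2 (k - d x p) (d p y) (by omega) le_rfl
        rw [b1] at c5
        have c6 := hd.tri x (γ1 i) y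
        have c7 := hd.tri (γ1 i) (γ2 (k - d x p)) y
        omega
      · rw [if_neg hi1]
        have c1 := b2 (i - d x p) (k - d x p) (by omega) (by omega)
        omega

/-- the members of a geodesic sequence are between the end points -/
theorem btw_of_geod {V : Type} {d : V → V → ℕ} {x y : V} {γ : ℕ → V} (h0 : γ 0 = x)
    (h1 : γ (d x y) = y) (h2 : ∀ i k, i ≤ k → k ≤ d x y → d (γ i) (γ k) = k - i) (i : ℕ)
    (hi : i ≤ d x y) : Btw d x (γ i) y := by
  have c1 := h2 0 i (Nat.zero_le _) hi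
  have c2 := h2 i (d x y) hi le_rfl
  rw [h0] at c1
  rw [h1] at c2
  unfold Btw
  omega

end CTHIN_

open CTHIN_ in
theorem p_CTHIN (hCLOSE : T_CLOSE) (hCINV : T_CINV) : T_CTHIN := by
  classical
  intro δ κ
  obtain ⟨t, ht⟩ := hCLOSE δ κ
  refine ⟨2 * t + δ, ?_⟩
  intro V J d Y D B hF hD
  have hle := (hCINV V J d Y D hF.geo hD).1
  -- representatives
  choose r hr using hF.ne
  set rep : V ⊕ J → V := Sum.elim id r with hrep
  have hrep1 : ∀ x : V, rep (Sum.inl x) = x := fun x => rfl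
  have hrep2 : ∀ j : J, rep (Sum.inr j) ∈ Y j := fun j => hr j
  have hcl := ht V J d Y D B rep hF hD hrep1 hrep2
  intro u w z p hp
  obtain ⟨γ, g0, g1, g2, g3⟩ := exists_geod_through hD.geo u p w hp
  obtain ⟨p1, hp1, hp2⟩ := (hcl (D u w) γ g3).2 (D u p) (by unfold Btw at hp; omega)
  rw [g0, g1] at hp1
  rw [g2] at hp2
  obtain ⟨q1, hq1, hq2⟩ := hF.thin (rep u) (rep w) (rep z) p1 hp1
  have hpq := hle p1 q1
  have s1 := hD.geo.symm p (Sum.inl p1)
  rcases hq1 with hq1 | hq1
  · obtain ⟨η, e0, e1, e2⟩ := exists_geod hD.geo u z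
    have h1 := (hcl (D u z) η e2).1 q1 (by rw [e0, e1]; exact hq1)
    obtain ⟨i, hi, hi2⟩ := h1
    refine ⟨η i, Or.inl (btw_of_geod e0 e1 e2 i hi), ?_⟩
    have t1 := hD.geo.tri p (Sum.inl p1) (η i)
    have t2 := hD.geo.tri (Sum.inl p1) (Sum.inl q1) (η i)
    omega
  · obtain ⟨η, e0, e1, e2⟩ := exists_geod hD.geo z w
    have h1 := (hcl (D z w) η e2).1 q1 (by rw [e0, e1]; exact hq1)
    obtain ⟨i, hi, hi2⟩ := h1
    refine ⟨η i, Or.inr (btw_of_geod e0 e1 e2 i hi), ?_⟩
    have t1 := hD.geo.tri p (Sum.inl p1) (η i)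
    have t2 := hD.geo.tri (Sum.inl p1) (Sum.inl q1) (η i)
    omega

end TK
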