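import Pool.Agent.TK.Targets1

set_option autoImplicit false
set_option linter.unusedVariables false

/-!
# Project TK: TK-CYC, the orbit of an element of infinite order meets a ball of radius `L` in
`O(L)` points
-/

namespace TK

namespace CYC_

/-- one value of `m`: the middle point is close to a translate of a point of the geodesic -/
theorem step {Γ V : Type} [Group Γ] [MulAction Γ V] {d : V → V → ℕ} {δ : ℕ} (hd : Geo d)
    (ht : Thin d δ) (inv : ∀ (g : Γ) (x y : V), d (g • x) (g • y) = d x y)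
    {x y : V} {γ : ℕ → V} (h0 : γ 0 = x) (h1 : γ (d x y) = y)
    (h2 : ∀ i k, i ≤ k → k ≤ d x y → d (γ i) (γ k) = k - i) {L : ℕ}
    (hbig : 2 * (L + 2 * δ) + 2 < d x y) (g : Γ) (hgx : d x (g • x) ≤ L)
    (hgy : d y (g • y) ≤ L) :
    ∃ k, d x y / 2 ≤ k + (L + 2 * δ) ∧ k ≤ d x y / 2 + (L + 2 * δ) ∧
      d (γ (d x y / 2)) (g • γ k) ≤ 2 * δ + (4 * δ + 2) := by
  have hC := four_of_thin hd ht
  set T := d x y with hT
  set p := γ (T / 2) with hp
  have hxp : d x p = T / 2 := by
    have := h2 0 (T / 2) (by omega) (by omega)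
    rw [h0] at this
    omega
  have hpy : d p y = T - T / 2 := by
    have := h2 (T / 2) T (by omega) le_rfl
    rw [h1] at this
    exact this
  have hb : Btw d x p y := by
    unfold Btw
    rw [hxp, hpy, ← hT]
    omega
  obtain ⟨q1, hq1, hpq1⟩ := ht x y (g • y) p hb
  rcases hq1 with hq1 | hq1
  swap
  · exfalso
    unfold Btw at hq1
    have a1 := hd.symm (g • y) y
    have a2 := hd.tri p q1 y
    omega
  obtain ⟨q2, hq2, hpq2⟩ := ht x (g • y) (g • x) q1 hq1
  have hpq : d p q2 ≤ 2 * δ := by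
    have := hd.tri p q1 q2
    omega
  rcases hq2 with hq2 | hq2
  · exfalso
    unfold Btw at hq2
    have a2 := hd.tri x q2 p
    have a3 := hd.symm q2 p
    omega
  -- `q2 = g • q`
  have hq' : g • (g⁻¹ • q2) = q2 := smul_inv_smul g q2
  set q := g⁻¹ • q2 with hq
  have e1 : d x q = d (g • x) q2 := by rw [← inv g x q, hq']
  have e2 : d q y = d q2 (g • y) := by rw [← inv g q y, hq']
  have e3 : d (g • x) (g • y) = T := by rw [inv, ← hT]
  unfold Btw at hq2
  have hk1 : d x q ≤ T := by omega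
  have hxk : d x (γ (d x q)) = d x q := by
    have := h2 0 (d x q) (by omega) hk1
    rw [h0] at this
    omega
  have hky : d (γ (d x q)) y = T - d x q := by
    have := h2 (d x q) T hk1 le_rfl
    rw [h1] at this
    exact this
  have hf : d q (γ (d x q)) ≤ 0 + 0 + (4 * δ + 2) := by
    apply fellow hd hC (x := x) (y := y)
    · omega
    · omega
    · omega
    · omega
  refine ⟨d x q, ?_, ?_, ?_⟩
  · have a1 := hd.tri x (g • x) p
    have a2 := hd.tri (g • x) q2 p
    have a3 := hd.symm q2 p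
    omega
  · have a1 := hd.tri (g • x) x q2
    have a2 := hd.tri x p q2
    have a3 := hd.symm (g • x) x
    omega
  · have a1 := hd.tri p q2 (g • γ (d x q))
    have a2 : d q2 (g • γ (d x q)) = d q (γ (d x q)) := by
      rw [← hq', inv, hq]
    omega

end CYC_

theorem p_CYC (hCNT : T_CNT) : T_CYC := by
  classical
  intro Γ _ V _ d x0 hG h hh x
  obtain ⟨δ, ht⟩ := hG.thin
  have hd := hG.geo
  obtain ⟨N, hN, -⟩ := hCNT Γ V d x0 hG (2 * δ + (4 * δ + 2))
  have hinj : Function.Injective (fun m : ℤ => h ^ m) :=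
    injective_zpow_iff_not_isOfFinOrder.2 hh
  have hfin : ∀ (u v : V) (n : ℕ), {m : ℤ | d u (h ^ m • v) ≤ n}.Finite := by
    intro u v n
    obtain ⟨N', hN', -⟩ := hCNT Γ V d x0 hG n
    exact (hN' u v).1.preimage (hinj.injOn)
  have hcard : ∀ (u v : V), {m : ℤ | d u (h ^ m • v) ≤ 2 * δ + (4 * δ + 2)}.ncard ≤ N := by
    intro u v
    refine le_trans ?_ (hN u v).2
    exact Set.ncard_le_ncard_of_injOn (fun m : ℤ => h ^ m) (fun m hm => hm) hinj.injOn (hN u v).1
  refine ⟨(4 * δ + 2) * N, fun L => ⟨hfin x x L, ?_⟩⟩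
  -- a far point of the orbit
  obtain ⟨M, hM⟩ : ∃ M : ℤ, 2 * (L + 2 * δ) + 2 < d x (h ^ M • x) := by
    by_contra hcon
    push Not at hcon
    have h1 : (Set.univ : Set ℤ).Finite :=
      (hfin x x (2 * (L + 2 * δ) + 2)).subset (fun m _ => hcon m)
    exact Set.infinite_univ h1
  set y := h ^ M • x with hy
  obtain ⟨γ, h0, h1, h2⟩ := exists_geod hd x y
  have hsub : (hfin x x L).toFinset ⊆
      (Finset.Icc (d x y / 2 - (L + 2 * δ)) (d x y / 2 + (L + 2 * δ))).biUnion
        (fun k => (hfin (γ (d x y / 2)) (γ k) (2 * δ + (4 * δ + 2))).toFinset) := by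
    intro m hm
    rw [Set.Finite.mem_toFinset] at hm
    have hm' : d x (h ^ m • x) ≤ L := hm
    have hmy : d y (h ^ m • y) ≤ L := by
      have e : h ^ m • y = h ^ M • (h ^ m • x) := by
        rw [hy, smul_smul, smul_smul, ← zpow_add, ← zpow_add, add_comm]
      rw [e, hy, hG.inv]
      exact hm'
    obtain ⟨k, hk1, hk2, hk3⟩ := CYC_.step hd ht hG.inv h0 h1 h2 hM (h ^ m) hm' hmy
    rw [Finset.mem_biUnion]
    refine ⟨k, ?_, ?_⟩
    · rw [Finset.mem_Icc]
      omega
    · rw [Set.Finite.mem_toFinset]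
      exact hk3
  have hc := Finset.card_le_card hsub
  have hc2 := Finset.card_biUnion_le_card_mul
    (Finset.Icc (d x y / 2 - (L + 2 * δ)) (d x y / 2 + (L + 2 * δ)))
    (fun k => (hfin (γ (d x y / 2)) (γ k) (2 * δ + (4 * δ + 2))).toFinset) N (by
      intro k _
      rw [← Set.ncard_eq_toFinset_card _ (hfin (γ (d x y / 2)) (γ k) (2 * δ + (4 * δ + 2)))]
      exact hcard _ _)
  rw [Set.ncard_eq_toFinset_card _ (hfin x x L)]
  refine (hc.trans hc2).trans ?_
  rw [Nat.card_Icc]
  have h3 : d x y / 2 + (L + 2 * δ) + 1 - (d x y / 2 - (L + 2 * δ)) ≤ 2 * (L + 2 * δ) + 1 := by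
    omega
  calc (d x y / 2 + (L + 2 * δ) + 1 - (d x y / 2 - (L + 2 * δ))) * N
      ≤ (2 * (L + 2 * δ) + 1) * N := Nat.mul_le_mul_right _ h3
    _ ≤ ((4 * δ + 2) * L + (4 * δ + 2)) * N := by
        apply Nat.mul_le_mul_right
        nlinarith [Nat.zero_le (δ * L)]
    _ = (4 * δ + 2) * N * L + (4 * δ + 2) * N := by ring

end TK
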