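import Pool.Agent.TK.Targets1

namespace TK

namespace DBL_

lemma pow_bd (f : ℕ → ℕ) (c : ℕ) (hc : ∀ n, 1 ≤ n → f (2 * n) ≤ f n + c) (i : ℕ) :
    f (2 ^ i) ≤ f 1 + i * c := by
  induction i with
  | zero => simp
  | succ i ih =>
    have h1 := hc (2 ^ i) (Nat.one_le_two_pow)
    have h2 : (2 : ℕ) ^ (i + 1) = 2 * 2 ^ i := by ring
    rw [h2]
    have h3 : (i + 1) * c = i * c + c := by ring
    omega

lemma all_bd (f : ℕ → ℕ) (hs : ∀ m n, f (m + n) ≤ f m + f n) (c : ℕ)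
    (hc : ∀ n, 1 ≤ n → f (2 * n) ≤ f n + c) (k : ℕ) :
    ∀ m, 1 ≤ m → m < 2 ^ k → f m ≤ k * (f 1 + k * c) := by
  induction k with
  | zero => intro m h1 h2; simp at h2; omega
  | succ k ih =>
    intro m h1 h2
    have h3 : (k + 1) * (f 1 + (k + 1) * c) = k * (f 1 + k * c) + (f 1 + k * c) + (k * c + c) := by
      ring
    by_cases hm : m < 2 ^ k
    · have := ih m h1 hm
      omega
    · have hp := pow_bd f c hc k
      by_cases he : m = 2 ^ k
      · rw [he]; omega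
      · have h4 : m = 2 ^ k + (m - 2 ^ k) := by omega
        have h5 : m - 2 ^ k < 2 ^ k := by
          have : (2 : ℕ) ^ (k + 1) = 2 * 2 ^ k := by ring
          omega
        have h6 := ih (m - 2 ^ k) (by omega) h5
        have h7 := hs (2 ^ k) (m - 2 ^ k)
        rw [← h4] at h7
        omega

lemma big (B : ℕ) : ∃ k : ℕ, B * (k + 1) ^ 2 < 2 ^ k := by
  set n := 16 * B + 1 with hn
  refine ⟨3 * n, ?_⟩
  have h1 : n < 2 ^ n := Nat.lt_two_pow_self
  have h2 : (2 : ℕ) ^ (3 * n) = 2 ^ n * 2 ^ n * 2 ^ n := by rw [← pow_add, ← pow_add]; congr 1; ring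
  have h3 : n * n * n < 2 ^ n * 2 ^ n * 2 ^ n := by gcongr
  have h4 : B * (3 * n + 1) ^ 2 ≤ n * n * n := by
    have h5 : 3 * n + 1 ≤ 4 * n := by omega
    calc B * (3 * n + 1) ^ 2 ≤ B * (4 * n) ^ 2 := by gcongr
      _ = (16 * B) * (n * n) := by ring
      _ ≤ n * (n * n) := Nat.mul_le_mul_right _ (by omega)
      _ = n * n * n := by ring
  omega

end DBL_

open DBL_ in
theorem p_DBL : T_DBL := by
  intro f hs hA c
  obtain ⟨A, hA⟩ := hA
  by_contra hcon
  push Not at hcon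
  obtain ⟨k, hk⟩ := big (A * (f 1 + c) + A + 1)
  obtain ⟨hfin, hcard⟩ := hA (k * (f 1 + k * c))
  have h1 : ((Finset.Ico 1 (2 ^ k) : Finset ℕ) : Set ℕ) ⊆ {m : ℕ | f m ≤ k * (f 1 + k * c)} := by
    intro m hm
    rw [Finset.coe_Ico, Set.mem_Ico] at hm
    exact all_bd f hs c hcon k m hm.1 hm.2
  have h2 := Set.ncard_le_ncard h1 hfin
  rw [Set.ncard_coe_finset, Nat.card_Ico] at h2
  have h3 : A * (k * (f 1 + k * c)) + A + 1 ≤ (A * (f 1 + c) + A + 1) * (k + 1) ^ 2 := by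
    have e : (A * (f 1 + c) + A + 1) * (k + 1) ^ 2 = A * (k * (f 1 + k * c)) + A + 1 +
      (A * f 1 * (k * k + k + 1) + A * c * (2 * k + 1) + A * (k * k + 2 * k) +
        (k * k + 2 * k)) := by ring
    omega
  omega

end TK
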