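import Pool.Agent.TK.Targets2

set_option autoImplicit false
set_option linter.unusedVariables false

/-!
# Project TK: job TK-FIX, finiteness of the fixed point set
-/

namespace TK

namespace FIX_

/-- The elements conjugating `s` to `f` form a finite set. -/
theorem conj_finite {Γ : Type} [Group Γ] {s : Γ} (hs : {g : Γ | g * s = s * g}.Finite) (f : Γ) :
    {g : Γ | g⁻¹ * s * g = f}.Finite := by
  rcases Set.eq_empty_or_nonempty {g : Γ | g⁻¹ * s * g = f} with h | ⟨g0, hg0⟩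
  · rw [h]; exact Set.finite_empty
  · refine (hs.image (fun c => c * g0)).subset ?_
    intro g hg
    have hg0' : g0⁻¹ * s * g0 = f := hg0
    have hg' : g⁻¹ * s * g = f := hg
    refine ⟨g * g0⁻¹, ?_, by simp⟩
    change g * g0⁻¹ * s = s * (g * g0⁻¹)
    have e1 : s = g0 * f * g0⁻¹ := by rw [← hg0']; group
    have e2 : g * f = s * g := by rw [← hg']; group
    calc g * g0⁻¹ * s = g * g0⁻¹ * (g0 * f * g0⁻¹) := by rw [← e1]
      _ = g * f * g0⁻¹ := by group
      _ = s * (g * g0⁻¹) := by rw [e2, mul_assoc]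

end FIX_

theorem p_FIX (hCNT : T_CNT) : T_FIX := by
  intro Γ _ V _ d x0 hA s hs
  obtain ⟨D0, hD⟩ := hA.coc
  obtain ⟨N, hN, -⟩ := hCNT Γ V d x0 hA (2 * D0)
  have hF := (hN x0 x0).1
  have hfin : (⋃ f ∈ {g : Γ | d x0 (g • x0) ≤ 2 * D0}, ⋃ g ∈ {g : Γ | g⁻¹ * s * g = f},
      {y | d (g • x0) y ≤ D0}).Finite :=
    hF.biUnion fun f _ => (FIX_.conj_finite hs f).biUnion fun g _ => hA.ball _ _
  refine hfin.subset ?_
  intro x hx
  have hx : s • x = x := hx
  obtain ⟨g, hg⟩ := hD x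
  refine Set.mem_iUnion₂.2 ⟨g⁻¹ * s * g, ?_, Set.mem_iUnion₂.2 ⟨g, rfl, ?_⟩⟩
  · change d x0 ((g⁻¹ * s * g) • x0) ≤ 2 * D0
    have e1 : d x0 ((g⁻¹ * s * g) • x0) = d (g • x0) (s • g • x0) := by
      rw [← hA.inv g x0, smul_smul, smul_smul]
      congr 2
      group
    have t1 := hA.geo.tri (g • x0) x (s • g • x0)
    have t2 := hA.inv s x (g • x0)
    rw [hx] at t2
    have t3 := hA.geo.symm (g • x0) x
    omega
  · change d (g • x0) x ≤ D0
    rw [hA.geo.symm]; exact hg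

end TK
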