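import Pool.Agent.TK.Targets2

set_option autoImplicit false
set_option linter.unusedVariables false

/-!
# Project TK: TK-GP, the Greendlinger-type propagation lemma
-/

namespace TK

namespace GP_

section

variable {V G : Type} [Group G] [MulAction G V] {d : V → V → ℕ}

theorem nearg (inv : ∀ (g : G) (x y : V), d (g • x) (g • y) = d x y) {y y' : ℤ → V} {g : G}
    (h1 : ∀ m, g • y' m ∈ Set.range y) (h2 : ∀ m, g⁻¹ • y m ∈ Set.range y') {v w : V}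
    (h : Near d (Set.range y) (g • v) w) : Near d (Set.range y') v (g⁻¹ • w) := by
  obtain ⟨⟨m, rfl⟩, hw⟩ := h
  refine ⟨h2 m, ?_⟩
  rintro _ ⟨k, rfl⟩
  have e1 : d v (g⁻¹ • y m) = d (g • v) (y m) := by rw [← inv g v, smul_inv_smul]
  rw [e1, ← inv g v (y' k)]
  exact hw _ (h1 k)

theorem nearg' (inv : ∀ (g : G) (x y : V), d (g • x) (g • y) = d x y) {y y' : ℤ → V} {g : G}
    (h1 : ∀ m, g • y' m ∈ Set.range y) (h2 : ∀ m, g⁻¹ • y m ∈ Set.range y') {v w : V}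
    (h : Near d (Set.range y) v w) : Near d (Set.range y') (g⁻¹ • v) (g⁻¹ • w) := by
  apply nearg inv h1 h2
  rwa [smul_inv_smul]

end

variable {V : Type} {d : V → V → ℕ} {C : ℕ}

/-- both points are almost between `a` and `x`, at comparable distance from `a` -/
theorem fel (hd : Geo d) (hC : Four d C) {a x u v : V} {c e : ℕ}
    (h1 : d x u + d u a ≤ d x a + c) (h2 : d x v + d v a ≤ d x a + c)
    (h3 : d u a ≤ d v a + e) (h4 : d v a ≤ d u a + e) : d u v ≤ c + e + C := by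
  apply fellow hd hC (x := a) (y := x)
  · rw [hd.symm a u, hd.symm u x, hd.symm a x]
    omega
  · rw [hd.symm a v, hd.symm v x, hd.symm a x]
    omega
  · rw [hd.symm a u, hd.symm a v]
    omega
  · rw [hd.symm a u, hd.symm a v]
    omega

/-- a point of `[q, p]` at distance `β` from `q` -/
theorem pt (hd : Geo d) {x a p q : V} {c3 β : ℕ} (hβ : β ≤ d p q)
    (hP : d x p + d p q + d q a ≤ d x a + c3) :
    ∃ u, Btw d q u p ∧ d q u = β ∧ d x u + d u a ≤ d x a + c3 ∧ d u a ≤ d q a + β ∧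
      d q a + β ≤ d u a + c3 := by
  obtain ⟨u, hu1, hu2⟩ := hd.geod q p β (by rw [hd.symm q p]; exact hβ)
  have y1 := hd.symm q p
  have y2 := hd.symm u p
  have y3 := hd.symm q u
  have t1 := hd.tri x p u
  have t2 := hd.tri u q a
  have t3 := hd.tri x u a
  refine ⟨u, ?_, hu1, ?_, ?_, ?_⟩
  · unfold Btw
    omega
  · omega
  · omega
  · omega

/-- the points on the two axes -/
theorem fin2 (hd : Geo d) (hC : Four d C) {Y Y' : Set V} {κ : ℕ} (hY : QC d κ Y)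
    (hY' : QC d κ Y') {x a p q p1 q1 : V} {c3 β e : ℕ} (hp : p ∈ Y) (hq : q ∈ Y) (hp1 : p1 ∈ Y')
    (hq1 : q1 ∈ Y') (hβ : β ≤ d p q) (hβ1 : β ≤ d p1 q1)
    (hP : d x p + d p q + d q a ≤ d x a + c3) (hP1 : d x p1 + d p1 q1 + d q1 a ≤ d x a + c3)
    (h1 : d q a ≤ d q1 a + e) (h2 : d q1 a ≤ d q a + e) :
    ∃ z ∈ Y', ∃ z' ∈ Y', ∃ w w' : V, Near d Y z w ∧ Near d Y z' w' ∧
      β ≤ d w w' + (3 * κ + (c3 + e + C) + (c3 + (e + c3) + C)) := by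
  have f1 : d q q1 ≤ c3 + e + C := by
    have t1 := hd.tri x p q
    have t2 := hd.tri x p1 q1
    exact fel hd hC (x := x) (a := a) (by omega) (by omega) h1 h2
  obtain ⟨u, hu1, hu2, hu3, hu4, hu5⟩ := pt hd hβ hP
  obtain ⟨u1, hv1, hv2, hv3, hv4, hv5⟩ := pt hd hβ1 hP1
  have f2 : d u u1 ≤ c3 + (e + c3) + C := fel hd hC hu3 hv3 (by omega) (by omega)
  obtain ⟨v, hv, huv⟩ := hY q hq p hp u hu1
  obtain ⟨z', hz', huz⟩ := hY' q1 hq1 p1 hp1 u1 hv1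
  obtain ⟨w, hw⟩ := exists_near (d := d) ⟨q, hq⟩ q1
  obtain ⟨w', hw'⟩ := exists_near (d := d) ⟨q, hq⟩ z'
  refine ⟨q1, hq1, z', hz', w, w', hw, hw', ?_⟩
  have a1 := hw.2 q hq
  have a2 := hw'.2 v hv
  have a3 := hd.symm q1 q
  have b1 : d z' v ≤ κ + (c3 + (e + c3) + C) + κ := by
    have a4 := hd.tri z' u1 v
    have a5 := hd.tri u1 u v
    have a6 := hd.symm u1 u
    have a7 := hd.symm z' u1
    omega
  have b2 : d q1 u1 ≤ d q1 z' + κ := by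
    have a7 := hd.symm z' u1
    have a8 := hd.tri q1 z' u1
    omega
  have b3 : d q1 z' ≤ d q1 w + d w w' + d z' w' := by
    have a9 := hd.tri q1 w z'
    have a10 := hd.tri w w' z'
    have a11 := hd.symm w' z'
    omega
  omega

/-- arithmetic -/
theorem arith {β1 β2 β3 pp ℓ C1 E1 T0 : ℕ} (h1 : 2 * β1 + β2 ≤ ℓ + E1)
    (h2 : 2 * β3 + β2 ≤ ℓ + E1) (h3 : pp ≤ β1 + β2 + β3) (h4 : ℓ ≤ pp + C1)
    (h5 : 4 * β2 ≤ 3 * ℓ) (h6 : 8 * T0 + 8 * C1 + 5 * E1 ≤ ℓ) : T0 ≤ β1 ∧ T0 ≤ β3 := by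
  constructor <;> omega

end GP_

open GP_ in
theorem p_GP (hSH : T_SHAD) (hGPB : T_GPB) : T_GP := by
  intro δ κ c B κA C1
  obtain ⟨E1, hS⟩ := hSH δ κ c κA
  obtain ⟨E2, hB⟩ := hGPB δ κ κA
  obtain ⟨C, hCd⟩ : ∃ C, C = 4 * δ + 2 := ⟨_, rfl⟩
  obtain ⟨c3, hc3⟩ : ∃ c3, c3 = 5 * C + 4 * κ + 2 := ⟨_, rfl⟩
  obtain ⟨T0, hT0⟩ : ∃ T0, T0 = E2 + B + (3 * C + 2 * κ + 1) +
    (3 * κ + (c3 + E2 + C) + (c3 + (E2 + c3) + C)) + 1 := ⟨_, rfl⟩
  have k1 : E2 ≤ T0 := by omega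
  have k2 : 3 * C + 2 * κ + 1 < T0 := by omega
  have k3 : B + (3 * κ + (c3 + E2 + C) + (c3 + (E2 + c3) + C)) < T0 := by omega
  clear hT0
  refine ⟨8 * T0 + 8 * C1 + 5 * E1, ?_⟩
  intro V G _ _ d hd ht inv y y' ρ ρ' g N ℓ hax hax' hg1 hg2 hE A hA hAg x a hn hu p p' q q'
    hp hp' hq hq' hpp hqq
  have hC : Four d C := by
    rw [hCd]
    exact four_of_thin hd ht
  have ha := hn.1
  have n1 := nearg inv hg1 hg2 hp'
  have n2 := nearg inv hg1 hg2 hq'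
  have n3 := nearg' inv hg1 hg2 hq
  have hE1 : E1 ≤ ℓ := by omega
  have s1 := hS V G d hd ht inv y ρ N ℓ hax hE1 A hA x a (g • a) hn (hAg a ha).1
    (fun u hu' => ⟨(hu u hu').1, (hu u hu').2.1⟩) p q q' hp hq hq' hqq
  have e1 : d (g⁻¹ • q') (g⁻¹ • q) = d q q' := by rw [inv, hd.symm]
  have e2 : d (g⁻¹ • p') (g⁻¹ • q') = d p' q' := by rw [inv]
  have s2 := hS V G d hd ht inv y' ρ' N ℓ hax' hE1 A hA x a (g⁻¹ • a) hn (hAg a ha).2
    (fun u hu' => ⟨(hu u hu').2.2.1, (hu u hu').2.2.2⟩) _ _ _ n1 n2 n3 (by rw [e1]; exact hqq)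
  rw [e1, e2] at s2
  have t1 : d p p' ≤ d p q + d q q' + d p' q' := by
    have t1 := hd.tri p q p'
    have t2 := hd.tri q q' p'
    have t3 := hd.symm q' p'
    omega
  obtain ⟨hb1, hb3⟩ := arith s1 s2 t1 hpp hqq hE
  -- GPB
  have g1 := hB V d hd ht (Set.range y) A hax.qc hA x a (g • a) p q q' hn (hAg a ha).1 hp hq hq'
    (k1.trans hb1)
  have g2 := hB V d hd ht (Set.range y') A hax'.qc hA x a (g⁻¹ • a) _ _ _ hn (hAg a ha).2 n1 n2 n3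
    (by rw [e2]; exact k1.trans hb3)
  have e3 : d (g • a) q' = d a (g⁻¹ • q') := by rw [← inv g a, smul_inv_smul]
  have e4 : d (g⁻¹ • a) (g⁻¹ • q) = d a q := inv _ _ _
  rw [e3] at g1
  rw [e4] at g2
  -- P3
  have p1 := P3 hd hC hax.qc hp hq (by omega)
  have p2 := P3 hd hC hax'.qc n1 n2 (by rw [e2]; omega)
  rw [← hc3] at p1 p2
  rw [hd.symm a q, hd.symm a (g⁻¹ • q')] at g1 g2
  obtain ⟨z, hz, z', hz', w, w', hw, hw', hfin⟩ := fin2 hd hC (β := T0) hax.qc hax'.qc hp.1 hq.1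
    n1.1 n2.1 hb1 (by rw [e2]; exact hb3) p1 p2 g1 g2
  refine ⟨z, hz, z', hz', w, w', hw, hw', ?_⟩
  omega

end TK
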