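import Pool.Agent.TK.Targets2

set_option autoImplicit false
set_option linter.unusedVariables false

/-!
# Project TK: TK-GPB
-/

namespace TK

theorem p_GPB : T_GPB := by
  intro δ κ κA
  refine ⟨(3 * (4 * δ + 2) + 2 * κ + 1) + 1 + 2 * (5 * (4 * δ + 2) + 4 * κ + 2) +
    (2 * (4 * δ + 2) + 2 * κA + 1), ?_⟩
  intro V d hd ht Y A hY hA x a a' p q q' hn ha' hp hq hq' hE
  have hC := four_of_thin hd ht
  have h1 := P1 hd hC hA hn ha'
  have h2 := P3 hd hC hY hp hq (by omega)
  have h3 := hd.tri x p a'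
  have h4 := hd.tri p q a'
  have h5 := hd.tri q q' a'
  have e1 := hd.symm q a
  have e2 := hd.symm q' a'
  by_cases h : 3 * (4 * δ + 2) + 2 * κ + 1 < d q q'
  · have h6 := P3 hd hC hY hq hq' h
    omega
  · omega

end TK
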