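import Pool.Agent.TK.Targets2

set_option autoImplicit false

/-!
# Project TK: TK-GPG, group level versions of the shadow lemma and of the propagation lemma
-/

namespace TK

open Subgroup

namespace GPG_

theorem range_eq {Γ V : Type} [Group Γ] [MulAction Γ V] (e g1 : Γ) (x0 : V) :
    Set.range (fun m : ℤ => (g1 * e ^ m) • x0) = orb (zpowers e) g1 x0 := by
  ext y
  constructor
  · rintro ⟨m, rfl⟩
    exact ⟨e ^ m, zpow_mem_zpowers e m, rfl⟩
  · rintro ⟨p, hp, rfl⟩
    obtain ⟨m, rfl⟩ := mem_zpowers_iff.1 hp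
    exact ⟨m, rfl⟩

theorem axis {Γ V : Type} [Group Γ] [MulAction Γ V] {d : V → V → ℕ} {x0 : V} {H : Subgroup Γ}
    {e : Γ} {δ κ c B : ℕ} (hYR : T_YR) (hK : KE Γ V d x0 H e δ κ c B) {N : ℕ} (hN : 1 ≤ N)
    (g1 : Γ) : Axis d κ c (fun m : ℤ => (g1 * e ^ m) • x0) (g1 * e ^ N * g1⁻¹) (N : ℤ)
      (d x0 (e ^ N • x0)) where
  ql := by
    intro i j k hij hjk
    have h := hK.ql i j k hij hjk
    simp only [mul_smul]
    simpa only [hK.act.inv] using h
  qc := by
    rw [range_eq, ← (hYR Γ V e x0).1 g1]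
    exact hK.fam.qc _
  pos := by exact_mod_cast hN
  shift := by
    intro m
    rw [← mul_smul]
    congr 1
    rw [mul_assoc, mul_assoc, inv_mul_cancel_left, ← zpow_natCast e N, ← zpow_add, add_comm]
  len := by
    intro m
    have h1 : (g1 * e ^ (m + (N : ℤ))) • x0 = (g1 * e ^ m) • (e ^ N • x0) := by
      rw [← mul_smul, zpow_add, zpow_natCast, mul_assoc]
    show d ((g1 * e ^ m) • x0) ((g1 * e ^ (m + (N : ℤ))) • x0) = _
    rw [h1, hK.act.inv]

theorem rho_mem {Γ : Type} [Group Γ] (e g1 : Γ) (N : ℕ) :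
    g1 * e ^ N * g1⁻¹ ∈ normalClosure ({e ^ N} : Set Γ) :=
  normalClosure_normal.conj_mem _ (subset_normalClosure (Set.mem_singleton _)) g1

theorem qc_single {V : Type} {d : V → V → ℕ} (hd : Geo d) (w : V) : QC d 0 ({w} : Set V) := by
  intro y hy y' hy' p hp
  rw [Set.mem_singleton_iff] at hy hy'
  rw [hy, hy'] at hp
  refine ⟨w, Set.mem_singleton _, ?_⟩
  unfold Btw at hp
  rw [hd.self w] at hp
  omega

end GPG_

open GPG_ in
theorem p_GPG (hSHAD : T_SHAD) (hGP : T_GP) (hPD : T_PD) (hYR : T_YR) : T_GPG := by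
  intro Γ _ V _ d x0 H e δ κ c B hK κA C1
  obtain ⟨E1, hE1⟩ := hPD δ κ B
  obtain ⟨E2, hE2⟩ := hSHAD δ κ c 0
  obtain ⟨E3, hE3⟩ := hGP δ κ c B κA (C1 + E1)
  refine ⟨E2 + E3 + 2 * E1, fun N hN hE => ⟨?_, ?_⟩⟩
  · -- the shadow lemma
    intro x w j hmin
    obtain ⟨g1, rfl⟩ : ∃ g1 : Γ, (QuotientGroup.mk g1 : Γ ⧸ zpowers e) = j :=
      QuotientGroup.mk_surjective j
    have hax := axis hYR hK hN g1
    have hY : Yf e x0 (QuotientGroup.mk g1 : Γ ⧸ zpowers e) =
        Set.range (fun m : ℤ => (g1 * e ^ m) • x0) := by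
      rw [range_eq, (hYR Γ V e x0).1 g1]
    obtain ⟨p, hp⟩ := exists_near (hK.fam.ne (QuotientGroup.mk g1)) (d := d) x
    obtain ⟨q, hq⟩ := exists_near (hK.fam.ne (QuotientGroup.mk g1)) (d := d) w
    have hpd := ((hE1 V (Γ ⧸ zpowers e) d (Yf e x0) hK.fam (QuotientGroup.mk g1)).2.2.1
      (Sum.inl x) (Sum.inl w) (by simp) (by simp) p q hp hq).2
    have hgeo := hK.fam.geo
    have hr1 := rho_mem e g1 N
    have hr2 := inv_mem hr1
    have key := hE2 V Γ d hgeo hK.fam.thin hK.act.inv _ _ _ _ hax (by omega) ({w} : Set V)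
      (qc_single hgeo w) x w w ⟨Set.mem_singleton _, fun y' hy' => by rw [Set.mem_singleton_iff.1 hy']⟩
      (Set.mem_singleton _)
      (by
        intro u hu
        rw [Set.mem_singleton_iff.1 hu]
        constructor
        · have h := hmin _ hr2
          have h2 := hK.act.inv (g1 * e ^ N * g1⁻¹) x ((g1 * e ^ N * g1⁻¹)⁻¹ • w)
          rw [smul_inv_smul] at h2
          omega
        · have h := hmin _ hr1
          have h2 := hK.act.inv (g1 * e ^ N * g1⁻¹)⁻¹ x ((g1 * e ^ N * g1⁻¹) • w)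
          rw [inv_smul_smul] at h2
          omega)
      p q q (hY ▸ hp) (hY ▸ hq) (hY ▸ hq) (by rw [hgeo.self]; omega)
    rw [hgeo.self q] at key
    omega
  · -- the propagation lemma
    intro A g x a j hA hinv ha hmin hbig hsmall
    by_contra hgj
    obtain ⟨g1, rfl⟩ : ∃ g1 : Γ, (QuotientGroup.mk g1 : Γ ⧸ zpowers e) = j :=
      QuotientGroup.mk_surjective j
    have hax := axis hYR hK hN g1
    have hax' := axis hYR hK hN (g⁻¹ * g1)
    have hY : Yf e x0 (QuotientGroup.mk g1 : Γ ⧸ zpowers e) =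
        Set.range (fun m : ℤ => (g1 * e ^ m) • x0) := by
      rw [range_eq, (hYR Γ V e x0).1 g1]
    have hY' : Yf e x0 (QuotientGroup.mk (g⁻¹ * g1) : Γ ⧸ zpowers e) =
        Set.range (fun m : ℤ => (g⁻¹ * g1 * e ^ m) • x0) := by
      rw [range_eq, (hYR Γ V e x0).1]
    have hne : (QuotientGroup.mk (g⁻¹ * g1) : Γ ⧸ zpowers e) ≠ QuotientGroup.mk g1 := by
      intro h
      apply hgj
      have h2 : (QuotientGroup.mk (g⁻¹ * g1) : Γ ⧸ zpowers e) = g⁻¹ • QuotientGroup.mk g1 := rfl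
      rw [h2] at h
      conv_lhs => rw [← h]
      rw [smul_inv_smul]
    obtain ⟨p, hp⟩ := exists_near (hK.fam.ne (QuotientGroup.mk g1)) (d := d) x
    obtain ⟨p', hp'⟩ := exists_near (hK.fam.ne (QuotientGroup.mk g1)) (d := d) (g • x)
    obtain ⟨q, hq⟩ := exists_near (hK.fam.ne (QuotientGroup.mk g1)) (d := d) a
    obtain ⟨q', hq'⟩ := exists_near (hK.fam.ne (QuotientGroup.mk g1)) (d := d) (g • a)
    have hP := (hE1 V (Γ ⧸ zpowers e) d (Yf e x0) hK.fam (QuotientGroup.mk g1)).2.2.1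
    have hpd1 := (hP (Sum.inl x) (Sum.inl (g • x)) (by simp) (by simp) p p' hp hp').2
    have hpd2 := (hP (Sum.inl a) (Sum.inl (g • a)) (by simp) (by simp) q q' hq hq').1
    have hgeo := hK.fam.geo
    have hr1 := rho_mem e g1 N
    have hr2 := inv_mem hr1
    have hr3 := rho_mem e (g⁻¹ * g1) N
    have hr4 := inv_mem hr3
    obtain ⟨z, hz, z', hz', w, w', hw, hw', hB⟩ :=
      hE3 V Γ d hgeo hK.fam.thin hK.act.inv _ _ _ _ g _ _ hax hax'
        (by
          intro m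
          refine ⟨m, ?_⟩
          show (g1 * e ^ m) • x0 = g • ((g⁻¹ * g1 * e ^ m) • x0)
          rw [← mul_smul]
          congr 1
          group)
        (by
          intro m
          refine ⟨m, ?_⟩
          show (g⁻¹ * g1 * e ^ m) • x0 = g⁻¹ • ((g1 * e ^ m) • x0)
          rw [← mul_smul]
          congr 1
          group)
        (by omega) A hA hinv x a
        ⟨ha, fun u hu => by
          have := hmin 1 (one_mem _) u hu
          rwa [one_smul] at this⟩
        (fun u hu => ⟨hmin _ hr1 u hu, hmin _ hr2 u hu, hmin _ hr3 u hu, hmin _ hr4 u hu⟩)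
        p p' q q' (hY ▸ hp) (hY ▸ hp') (hY ▸ hq) (hY ▸ hq') (by omega) (by omega)
    have := hK.fam.bo _ _ hne z (hY' ▸ hz) z' (hY' ▸ hz') w w' (hY ▸ hw) (hY ▸ hw')
    omega

end TK
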