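import Pool.Agent.TK.Targets2

set_option autoImplicit false
set_option linter.unusedVariables false

/-!
# Project TK (MP_3ae405_al, `k = 5`): TK-HQ, quasiconvexity of the image of `H`
-/

namespace TK

open Subgroup

namespace HQ_

/-- a geodesic sequence through a point between the ends -/
theorem geod_through {V : Type} {d : V → V → ℕ} (hd : Geo d) {x z y : V} (h : Btw d x z y) :
    ∃ γ : ℕ → V, γ 0 = x ∧ γ (d x y) = y ∧ γ (d x z) = z ∧
      ∀ i k, i ≤ k → k ≤ d x y → d (γ i) (γ k) = k - i := by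
  obtain ⟨γ1, a0, a1, a2⟩ := exists_geod hd x z
  obtain ⟨γ2, b0, b1, b2⟩ := exists_geod hd z y
  unfold Btw at h
  refine ⟨fun m => if m ≤ d x z then γ1 m else γ2 (m - d x z), ?_, ?_, ?_, ?_⟩
  · simp [a0]
  · by_cases hy : d x y ≤ d x z
    · have h0 : d z y = 0 := by omega
      have h1 := hd.eq z y h0
      have h2 : d x y = d x z := by omega
      simp only [hy, if_true]
      rw [h2, a1, h1]
    · simp only [hy, if_false]
      have : d x y - d x z = d z y := by omega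
      rw [this, b1]
  · simp [a1]
  · intro i k hik hk
    by_cases hkz : k ≤ d x z
    · have hiz : i ≤ d x z := by omega
      simp only [hkz, hiz, if_true]
      exact a2 i k hik hkz
    · by_cases hiz : i ≤ d x z
      · simp only [hkz, hiz, if_true, if_false]
        have c1 := a2 0 i (by omega) hiz
        have c2 := a2 i _ hiz le_rfl
        have c3 := b2 0 (k - d x z) (by omega) (by omega)
        have c4 := b2 (k - d x z) _ (by omega : k - d x z ≤ d z y) le_rfl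
        rw [a0] at c1
        rw [a1] at c2
        rw [b0] at c3
        rw [b1] at c4
        have t1 := hd.tri (γ1 i) z (γ2 (k - d x z))
        have t2 := hd.tri x (γ1 i) y
        have t3 := hd.tri (γ1 i) (γ2 (k - d x z)) y
        omega
      · simp only [hkz, hiz, if_false]
        have := b2 (i - d x z) (k - d x z) (by omega) (by omega)
        omega

end HQ_

open HQ_ in
theorem p_HQ (hLIFT : T_LIFT) (hWIN : T_WIN) (hCLOSE : T_CLOSE) (hPD : T_PD) (hYR : T_YR)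
    (hCINV : T_CINV) : T_HQ := by
  intro Γ _ V _ d x0 H e δ κ c B hKE κH hH D hD K hK
  classical
  obtain ⟨E1, hE1⟩ := hPD δ κ B
  obtain ⟨t, ht⟩ := hCLOSE δ κ
  
  have hPDj := fun j => hE1 V (Γ ⧸ zpowers e) d (Yf e x0) hKE.fam j
  refine ⟨101 * K + 13 * K + 3 * (K + (B + E1)) + E1 + 1, ?_⟩
  intro N hN hE hSpin M _ hM P' _ d' q hQ
  have hsup : M = (⨆ j, Rf e N j : Subgroup Γ) := by
    rw [hM, (hYR Γ V e x0).2.2.2 N]
  -- representatives
  have hrep : ∀ u : V ⊕ (Γ ⧸ zpowers e), ∃ x : V, Sum.elim (fun y => x = y)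
      (fun j => x ∈ Yf e x0 j) u := by
    intro u
    rcases u with y | j
    · exact ⟨y, rfl⟩
    · exact hKE.fam.ne j
  choose rep hrep using hrep
  have hrep1 : ∀ x : V, rep (Sum.inl x) = x := fun x => hrep (Sum.inl x)
  have hrep2 : ∀ j, rep (Sum.inr j) ∈ Yf e x0 j := fun j => hrep (Sum.inr j)
  -- the quotient map is invariant
  have hqinv : ∀ r ∈ M, ∀ u, q (r • u) = q u := by
    intro r hr u
    rw [hQ.equi, (QuotientGroup.eq_one_iff r).2 hr, one_smul]
  have htight : ∀ u w : V ⊕ (Γ ⧸ zpowers e), ∃ r ∈ M, D u (r • w) = d' (q u) (q w) ∧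
      Tight D M u (r • w) := by
    intro u w
    obtain ⟨r, hr, hr'⟩ := hQ.att u w
    refine ⟨r, hr, hr'.symm, ?_⟩
    intro s hs
    rw [← hr', ← hqinv r hr w, ← hqinv s hs (r • w)]
    exact hQ.le _ _
  refine ⟨t + κH, ?_⟩
  intro h hh p hp
  obtain ⟨v1, hv1⟩ := hQ.surj p
  obtain ⟨r1, hr1, hd1, ht1⟩ := htight (Sum.inl x0) v1
  obtain ⟨r2, hr2, hd2, ht2⟩ := htight (r1 • v1) (Sum.inl (h • x0))
  rw [hqinv r1 hr1, hv1] at hd2
  rw [hv1] at hd1
  -- the polygon
  let u : ℕ → V ⊕ (Γ ⧸ zpowers e) := fun i =>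
    if i = 0 then Sum.inl x0 else if i = 1 then r1 • v1 else
      if i = 2 then r2 • Sum.inl (h • x0) else r2 • Sum.inl x0
  have u0 : u 0 = Sum.inl x0 := rfl
  have u1 : u 1 = r1 • v1 := rfl
  have u2 : u 2 = r2 • Sum.inl (h • x0) := rfl
  have u3 : u 3 = r2 • Sum.inl x0 := rfl
  have hmax : max K (B + E1) ≤ K + (B + E1) := by
    apply max_le <;> omega
  obtain ⟨u', w0, w3, wM, wT, wN⟩ := hLIFT (V ⊕ (Γ ⧸ zpowers e)) (Γ ⧸ zpowers e) Γ D Sum.inr
    (PD d (Yf e x0)) (Rf e N) K (d x0 (e ^ N • x0) - K) hK (by omega) hSpin M hsup 3 (B + E1)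
    (fun i => i ≤ 1) u (by omega)
    (by
      intro i hi hTi
      have hi' : i = 0 ∨ i = 1 := by omega
      rcases hi' with rfl | rfl
      · exact ht1
      · exact ht2)
    (by
      intro i hi hTi j _ _
      have hi' : i = 2 := by omega
      subst hi'
      show PD d (Yf e x0) j (u 2) (u 3) ≤ B + E1
      rw [u2, u3, Sum.smul_inl, Sum.smul_inl]
      obtain ⟨pd1, pd2, pd3, _⟩ := hPDj j
      obtain ⟨y, hy⟩ := pd1 (Sum.inl (r2 • h • x0))
      obtain ⟨y', hy'⟩ := pd1 (Sum.inl (r2 • x0))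
      have h1 := (pd3 (Sum.inl (r2 • h • x0)) (Sum.inl (r2 • x0)) (by simp) (by simp) y y'
        hy hy').2
      have h2 : d y y' ≤ B := by
        refine hKE.nb (Quotient.out j) r2 (r2 • h • x0) ⟨h, hh, by rw [mul_smul]⟩
          (r2 • x0) ⟨1, H.one_mem, by rw [mul_one]⟩ y y' hy hy'
      omega)
    r2 hr2 (by rw [u3, u0])
  -- the last side
  obtain ⟨s, hs, hs2, hs3⟩ := wN 2 (by omega) (by omega)
  rw [show (2 : ℕ) + 1 = 3 from rfl, w3, u3, u0, smul_smul, Sum.smul_inl] at hs3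
  rw [u2, smul_smul] at hs2
  have hfixx : (s * r2) • x0 = x0 := (Sum.inl.inj hs3).symm
  have hsr : s * r2 = 1 := by
    have hred := hWIN (V ⊕ (Γ ⧸ zpowers e)) (Γ ⧸ zpowers e) Γ D Sum.inr
      (PD d (Yf e x0)) (Rf e N) K (d x0 (e ^ N • x0) - K) hK (by omega) hSpin (Sum.inl x0)
      (s * r2) (by rw [← hsup]; exact M.mul_mem hs hr2)
    generalize s * r2 = rr at hred hfixx
    cases hred with
    | one => rfl
    | base j _ hx _ => exact absurd hx (by simp)
    | step j ρ _ hx hrx hρ hbig _ =>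
      exfalso
      rw [Sum.smul_inl, hfixx] at hbig
      obtain ⟨pd1, pd2, pd3, _⟩ := hPDj j
      obtain ⟨y, hy⟩ := pd1 (Sum.inl x0)
      have h1 := (pd3 (Sum.inl x0) (Sum.inl x0) (by simp) (by simp) y y hy hy).2
      have h2 := hKE.fam.geo.self y
      omega
  rw [hsr, one_smul] at hs2
  -- lengths of the two other sides
  have l0 := wT 0 (by omega) (by omega)
  have l1 := wT 1 (by omega) (by omega)
  rw [show (0 : ℕ) + 1 = 1 from rfl, w0, u0, u1, hd1] at l0
  rw [show (1 : ℕ) + 1 = 2 from rfl, hs2, u1, u2, hd2] at l1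
  have hbtw : Btw D (Sum.inl x0) (u' 1) (Sum.inl (h • x0)) := by
    unfold Btw at hp ⊢
    have h1 := hQ.le (Sum.inl x0) (Sum.inl (h • x0))
    have h2 := hD.geo.tri (Sum.inl x0) (u' 1) (Sum.inl (h • x0))
    omega
  obtain ⟨γ, g0, g1, g2, g3⟩ := geod_through hD.geo hbtw
  obtain ⟨_, hc⟩ := ht V (Γ ⧸ zpowers e) d (Yf e x0) D B rep hKE.fam hD hrep1 hrep2
    (D (Sum.inl x0) (Sum.inl (h • x0))) γ g3
  have hle : D (Sum.inl x0) (u' 1) ≤ D (Sum.inl x0) (Sum.inl (h • x0)) := by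
    unfold Btw at hbtw
    omega
  obtain ⟨z, hz, hz'⟩ := hc (D (Sum.inl x0) (u' 1)) hle
  rw [g0, g1, hrep1, hrep1] at hz
  rw [g2] at hz'
  obtain ⟨h', hh', hzh⟩ := hH h hh z hz
  have hinv := (hCINV V (Γ ⧸ zpowers e) d (Yf e x0) D hKE.fam.geo hD).1 z (h' • x0)
  refine ⟨h', hh', ?_⟩
  obtain ⟨s1, hs1, hs1'⟩ := wM 1 (by omega)
  have hq1 : q (u' 1) = p := by
    rw [hs1', hqinv s1 hs1, u1, hqinv r1 hr1, hv1]
  rw [← hq1]
  have f1 := hQ.le (u' 1) (Sum.inl (h' • x0))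
  have f2 := hD.geo.tri (u' 1) (Sum.inl z) (Sum.inl (h' • x0))
  have f3 := hD.geo.symm (u' 1) (Sum.inl z)
  omega

end TK
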