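import Pool.Agent.TK.Targets2

set_option autoImplicit false
set_option linter.unusedVariables false

/-!
# Project TK (MP_3ae405_al, `k = 5`): target TK-KILL, the kill step
-/

namespace TK

open Subgroup

namespace KILL_

theorem map_vw {G G' : Type} [Group G] [Group G'] (φ : G →* G') (a b : G) :
    φ (vw a b) = vw (φ a) (φ b) := by
  simp only [vw, map_mul, map_inv]

theorem fix_coset {Γ : Type} [Group Γ] {e t : Γ} {j : Γ ⧸ zpowers e} (h : t • j = j) :
    ∃ (g : Γ) (i : ℤ), t = g * e ^ i * g⁻¹ := by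
  obtain ⟨g, rfl⟩ := QuotientGroup.mk_surjective j
  have h1 : (QuotientGroup.mk (t * g) : Γ ⧸ zpowers e) = QuotientGroup.mk g := h
  have h2 := QuotientGroup.eq.1 h1.symm
  obtain ⟨i, hi⟩ := mem_zpowers_iff.1 h2
  refine ⟨g, i, ?_⟩
  rw [hi]
  group

theorem pow_mem_nc {Γ : Type} [Group Γ] {e t g : Γ} {i : ℤ} (N : ℕ) (h : t = g * e ^ i * g⁻¹) :
    t ^ N ∈ normalClosure ({e ^ N} : Set Γ) := by
  have h1 : t ^ N = g * (e ^ N) ^ i * g⁻¹ := by
    rw [h, conj_pow]
    congr 2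
    rw [← zpow_natCast, ← zpow_mul, ← zpow_natCast e N, ← zpow_mul, mul_comm]
  rw [h1]
  exact normalClosure_normal.conj_mem _
    (zpow_mem (subset_normalClosure (Set.mem_singleton _)) i) g

theorem exists_min {Γ : Type} [Group Γ] (M : Subgroup Γ) (f : Γ → ℕ) :
    ∃ r ∈ M, ∀ s ∈ M, f r ≤ f s := by
  classical
  have h : ∃ n, ∃ r ∈ M, f r = n := ⟨_, 1, M.one_mem, rfl⟩
  obtain ⟨r, hr, hn⟩ := Nat.find_spec h
  refine ⟨r, hr, fun s hs => ?_⟩
  rw [hn]
  exact Nat.find_min' h ⟨s, hs, rfl⟩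

theorem qc_orb {Γ : Type} [Group Γ] {V : Type} [MulAction Γ V] {d : V → V → ℕ} {x0 : V}
    (hinv : ∀ (g : Γ) (x y : V), d (g • x) (g • y) = d x y) (H : Subgroup Γ) {κ : ℕ}
    (h : ∀ h ∈ H, ∀ p, Btw d x0 p (h • x0) → ∃ h' ∈ H, d p (h' • x0) ≤ κ) :
    QC d κ (orb H 1 x0) := by
  rintro y ⟨p1, hp1, rfl⟩ y' ⟨p2, hp2, rfl⟩ p hp
  rw [one_mul] at hp
  rw [one_mul] at hp
  have h1 : Btw d x0 (p1⁻¹ • p) ((p1⁻¹ * p2) • x0) := by
    unfold Btw at hp ⊢
    rw [← hinv p1 x0, ← hinv p1 (p1⁻¹ • p), ← hinv p1 x0 ((p1⁻¹ * p2) • x0)]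
    simp only [smul_smul, mul_inv_cancel_left, mul_inv_cancel, one_smul]
    exact hp
  obtain ⟨h', hh', hd⟩ := h _ (H.mul_mem (H.inv_mem hp1) hp2) _ h1
  refine ⟨(1 * (p1 * h')) • x0, ⟨p1 * h', H.mul_mem hp1 hh', rfl⟩, ?_⟩
  rw [← hinv p1⁻¹]
  simpa [smul_smul] using hd

theorem smul_pow_mem {Γ : Type} [Group Γ] {V : Type} [MulAction Γ V] {A : Set V} {v : Γ}
    (h : ∀ u ∈ A, v • u ∈ A ∧ v⁻¹ • u ∈ A) (l : ℕ) :
    ∀ u ∈ A, v ^ l • u ∈ A ∧ (v ^ l)⁻¹ • u ∈ A := by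
  induction l with
  | zero => intro u hu; simp [hu]
  | succ l ih =>
    intro u hu
    constructor
    · rw [pow_succ, mul_smul]
      exact (ih _ (h u hu).1).1
    · rw [pow_succ', mul_inv_rev, mul_smul]
      exact (ih _ (h u hu).2).2

/-- a long odd power -/
theorem exists_odd {f : ℕ → ℕ} {A : ℕ} (h : ∀ i : ℕ, i ≤ A * f i + A) (E : ℕ) :
    ∃ N, 1 ≤ N ∧ Odd N ∧ E ≤ f N := by
  refine ⟨2 * (A * E + A) + 1, by omega, ⟨_, rfl⟩, ?_⟩
  by_contra hcon
  push Not at hcon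
  have h1 := h (2 * (A * E + A) + 1)
  have h2 : A * f (2 * (A * E + A) + 1) ≤ A * E := Nat.mul_le_mul_left _ hcon.le
  omega

theorem mem_map_iff {Γ : Type} [Group Γ] {M H : Subgroup Γ} [M.Normal] {f : Γ}
    (h : QuotientGroup.mk' M f ∈ H.map (QuotientGroup.mk' M)) :
    ∃ h ∈ H, ∃ r ∈ M, f = h * r := by
  obtain ⟨h, hh, he⟩ := Subgroup.mem_map.1 h
  refine ⟨h, hh, h⁻¹ * f, ?_, by group⟩
  exact QuotientGroup.eq.1 he

end KILL_

open KILL_ in
theorem p_KILL (hQL : T_QL) (hCOM : T_COM) (hALG : T_ALG) (hAX : T_AX) (hSPIN : T_SPIN)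
    (hWIN : T_WIN) (hORB : T_ORB) (hQTHIN : T_QTHIN) (hQGEO : T_QGEO) (hTOR : T_TOR)
    (hAW : T_AW) (hCONJ : T_CONJ) (hSEP : T_SEP) (hCENT : T_CENT) (hHQ : T_HQ) (hYR : T_YR)
    (hPD : T_PD) (hCINV : T_CINV) : T_KILL := by
  intro Γ _ H a b hG w F hF
  set h : Γ := vw a (w * b * w⁻¹) with hh
  by_cases hfin : IsOfFinOrder h
  · refine ⟨Γ, inferInstance, MonoidHom.id Γ, H, hG, Function.surjective_id, fun h hh => hh, hF,
      orderOf h, hG.odd h hfin, ?_⟩
    simp only [MonoidHom.id_apply]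
    exact pow_orderOf_eq_one h
  obtain ⟨V, instV, d, x0, hact, hfix, κH, hκH⟩ := hG.act
  obtain ⟨e, hhe, mal⟩ := hALG Γ h hfin hG.odd hG.cent (hCOM Γ V d x0 hact h hfin)
  obtain ⟨s, hs⟩ := mem_zpowers_iff.1 hhe
  have heinf : ¬ IsOfFinOrder e := by
    intro hfe
    apply hfin
    rw [← hs]
    exact hfe.zpow
  have hez : ∀ i : ℤ, e ^ i = 1 → i = 0 := by
    intro i hi
    by_contra hi0
    exact heinf (isOfFinOrder_iff_zpow_eq_one.2 ⟨i, hi0, hi⟩)
  have hs0 : s ≠ 0 := by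
    rintro rfl
    apply hfin
    rw [← hs, zpow_zero]
    exact IsOfFinOrder.one
  -- the axes do not meet `H`
  have hdisj : ∀ (g : Γ) (i : ℤ), i ≠ 0 → g⁻¹ * e ^ i * g ∉ H := by
    intro g i hi hmem
    apply hfin
    have h1 : g⁻¹ * h ^ i * g ∈ H := by
      have h2 := H.zpow_mem hmem s
      have h3 : (g⁻¹ * e ^ i * g) ^ s = g⁻¹ * h ^ i * g := by
        have := conj_zpow (a := g⁻¹) (b := e ^ i) (i := s)
        rw [inv_inv] at this
        rw [this, ← hs, ← zpow_mul, ← zpow_mul, mul_comm]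
      rwa [h3] at h2
    have h4 : g⁻¹ * h ^ i.natAbs * g ∈ H := by
      rcases Int.natAbs_eq i with hi' | hi'
      · rw [hi', zpow_natCast] at h1
        exact h1
      · rw [hi', zpow_neg, zpow_natCast] at h1
        have h5 := H.inv_mem h1
        have h6 : (g⁻¹ * (h ^ i.natAbs)⁻¹ * g)⁻¹ = g⁻¹ * h ^ i.natAbs * g := by group
        rwa [h6] at h5
    exact hG.vfree w g i.natAbs (by omega) h4
  obtain ⟨κ, c, B, hql, hqc, hB1, hB2, hinf⟩ := hAX Γ V d x0 hact H e heinf mal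
    ⟨κH, qc_orb hact.inv H hκH⟩ hdisj
  obtain ⟨D, K, δ, δ', hK, hfam, hcone, hthinD, hspin⟩ :=
    hSPIN Γ V d x0 hact e heinf κ c B hql hqc hB1
  have hKE : KE Γ V d x0 H e δ κ c B := ⟨hact, heinf, mal, hql, hfam, hB2, hinf⟩
  -- fixed points of `a` and `b`
  have hafin : IsOfFinOrder a := isOfFinOrder_iff_pow_eq_one.2 ⟨5, by norm_num, hG.a5⟩
  have hbfin : IsOfFinOrder b := isOfFinOrder_iff_pow_eq_one.2 ⟨3, by norm_num, hG.b3⟩
  obtain ⟨ca, hca⟩ := hfix a hafin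
  obtain ⟨cb, hcb⟩ := hfix b hbfin
  -- constants
  obtain ⟨ETOR, hETOR⟩ := hTOR Γ V d x0 H e δ κ c B hKE K
  obtain ⟨κA, EAW, hEAW⟩ := hAW Γ V d x0 H e δ κ c B hKE hG.cent a b ca cb hG.a5 hG.b3 hca hcb
  obtain ⟨ECONJ, hECONJ⟩ := hCONJ Γ V d x0 H e δ κ c B hKE κA K
  obtain ⟨ECENT, hECENT⟩ := hCENT Γ V d x0 H e δ κ c B hKE hG.cent hfix K
  obtain ⟨EHQ, hEHQ⟩ := hHQ Γ V d x0 H e δ κ c B hKE κH hκH D hcone K hK
  obtain ⟨EPD, hEPD⟩ := hPD δ κ B
  have hSEP' := fun (f : Γ) (hf : f ∉ H) => hSEP Γ V d x0 H e δ κ c B hKE K f hf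
  choose! Ef hEf using hSEP'
  obtain ⟨AQ, hAQ⟩ := (hQL Γ V d x0 hact e heinf x0).2.1
  obtain ⟨N, hN1, hNodd, hNbig⟩ := exists_odd (f := fun i => d x0 (e ^ i • x0)) (A := AQ)
    (fun i => by
      have := hAQ i
      rw [zpow_natCast] at this
      simpa using this)
    (ETOR + EAW + ECONJ + ECENT + EHQ + 4 * EPD + F.sup Ef + 200 * K)
  set ℓ : ℕ := d x0 (e ^ N • x0) with hℓ
  have hNbig' : ETOR + EAW + ECONJ + ECENT + EHQ + 4 * EPD + F.sup Ef + 200 * K ≤ ℓ := hNbig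
  set M : Subgroup Γ := normalClosure ({e ^ N} : Set Γ) with hM
  have hspinN : Spin D Sum.inr (PD d (Yf e x0)) (Rf e N) K (ℓ - K) := hspin N (ℓ - K) (by omega)
  have h100 : 100 * K ≤ ℓ - K := by omega
  obtain ⟨hYR1, hYR2, hYR3, hYR4⟩ := hYR Γ V e x0
  have hMsup : M = (⨆ j, Rf e N j : Subgroup Γ) := (hYR4 N).symm
  have hwind : Wind d x0 e K N := by
    intro x r hr
    have h1 := hWIN _ _ Γ D Sum.inr (PD d (Yf e x0)) (Rf e N) K (ℓ - K) hK h100 hspinN x r
      (by rw [← hMsup]; exact hr)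
    rw [show ℓ - K - 12 * K = ℓ - 13 * K by omega] at h1
    exact h1
  have hDinv := ((hCINV V (Γ ⧸ zpowers e) d (Yf e x0) D hact.geo hcone).2 Γ hact.inv hYR2).1
  obtain ⟨P', instP, d', q, hquot⟩ := hORB _ Γ D M hcone.geo hDinv
  have hthin' := hQTHIN _ _ Γ D Sum.inr (PD d (Yf e x0)) (Rf e N) K (ℓ - K) hK h100 hspinN M hMsup
    P' d' q hquot δ' hthinD
  have hgeo' := hQGEO Γ V d x0 hact e N hN1 D hcone M rfl P' d' q hquot ⟨δ', hthin'⟩
  have mk_one : ∀ {r : Γ}, r ∈ M → (QuotientGroup.mk r : Γ ⧸ M) = 1 := fun {r} hr =>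
    (QuotientGroup.eq_one_iff r).2 hr
  have mk_mul : ∀ {r : Γ} (t : Γ), r ∈ M → (QuotientGroup.mk (r * t) : Γ ⧸ M) =
      QuotientGroup.mk t := fun {r} t hr => by
    rw [QuotientGroup.mk_mul, mk_one hr, one_mul]
  -- torsion of the quotient
  have htor : ∀ t : Γ ⧸ M, IsOfFinOrder t → ∃ t1 : Γ, (QuotientGroup.mk t1 : Γ ⧸ M) = t ∧
      (IsOfFinOrder t1 ∨ ∃ j : Γ ⧸ zpowers e, t1 • j = j) := by
    intro t ht
    obtain ⟨t0, rfl⟩ := QuotientGroup.mk_surjective t
    obtain ⟨n, hn, hn1⟩ := isOfFinOrder_iff_pow_eq_one.1 ht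
    have h1 : t0 ^ n ∈ normalClosure ({e ^ N} : Set Γ) := by
      rw [← QuotientGroup.mk_pow] at hn1
      exact (QuotientGroup.eq_one_iff _).1 hn1
    obtain ⟨r, hr, h2⟩ := hETOR N hN1 (by omega) hwind t0 n hn h1
    exact ⟨r * t0, mk_mul t0 hr, h2⟩
  have finmk : ∀ t1 : Γ, t1 ^ N ∈ M → (QuotientGroup.mk t1 : Γ ⧸ M) ^ N = 1 := by
    intro t1 ht1
    rw [← QuotientGroup.mk_pow]
    exact mk_one ht1
  have finmk' : ∀ t1 : Γ, t1 ^ N ∈ M → IsOfFinOrder (QuotientGroup.mk t1 : Γ ⧸ M) := by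
    intro t1 ht1
    exact isOfFinOrder_iff_pow_eq_one.2 ⟨N, by omega, finmk t1 ht1⟩
  have finmap : ∀ t1 : Γ, IsOfFinOrder t1 → IsOfFinOrder (QuotientGroup.mk t1 : Γ ⧸ M) :=
    fun t1 ht1 => (QuotientGroup.mk' M).isOfFinOrder ht1
  -- the elements `a`, `b` are not conjugate into the image of `H`
  have sfree : ∀ (s : Γ) (m : ℕ) (cs : V), 1 ≤ m → s ^ m = 1 → s • cs = cs →
      (∀ g : Γ, g⁻¹ * s * g ∉ H) → ∀ g : Γ ⧸ M,
      g⁻¹ * (QuotientGroup.mk' M s) * g ∉ H.map (QuotientGroup.mk' M) := by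
    intro s m cs hm hsm hcs hsfree g hmem
    obtain ⟨g, rfl⟩ := QuotientGroup.mk_surjective g
    have h1 : QuotientGroup.mk' M (g⁻¹ * s * g) ∈ H.map (QuotientGroup.mk' M) := by
      rw [map_mul, map_mul, map_inv]
      exact hmem
    obtain ⟨h1, hh1, r, hr, hgs⟩ := mem_map_iff h1
    have h2 := hECONJ N hN1 (by omega) hwind s {cs} (Set.singleton_nonempty _) ?_ ?_ ?_ g h1 r hh1
      hr hgs
    · rcases h2 with ⟨g1, hg1⟩ | ⟨j, hj⟩
      · exact hsfree g1 hg1
      · obtain ⟨g2, i, hi⟩ := fix_coset hj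
        have h3 : e ^ (i * m) = 1 := by
          have h4 : g2 * e ^ (i * m) * g2⁻¹ = 1 := by
            rw [zpow_mul, zpow_natCast, ← conj_pow, ← hi, hsm]
          have h5 := congrArg (fun z => g2⁻¹ * z * g2) h4
          simpa [mul_assoc] using h5
        have h4 := hez _ h3
        have h5 : i = 0 := by
          rcases mul_eq_zero.1 h4 with h5 | h5
          · exact h5
          · exfalso
            have : m = 0 := by exact_mod_cast h5
            omega
        subst h5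
        have h6 : s = 1 := by
          rw [hi]
          simp
        apply hsfree 1
        rw [h6]
        simp
    · rintro y rfl y' rfl p hp
      refine ⟨_, rfl, ?_⟩
      unfold Btw at hp
      rw [hact.geo.self] at hp
      omega
    · rintro u rfl
      refine ⟨hcs, ?_⟩
      rw [Set.mem_singleton_iff, inv_smul_eq_iff, hcs]
    · rintro u rfl j
      rw [hcs]
      have h3 := (hEPD V (Γ ⧸ zpowers e) d (Yf e x0) hfam j).2.2.2.2.2 u u
      rw [hact.geo.self] at h3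
      omega
  refine ⟨Γ ⧸ M, inferInstance, QuotientGroup.mk' M, H.map (QuotientGroup.mk' M), ?_,
    QuotientGroup.mk'_surjective M, fun h hh => Subgroup.mem_map_of_mem _ hh, ?_, N, hNodd, ?_⟩
  · constructor
    · -- act
      refine ⟨P', instP, d', q (Sum.inl x0), hgeo', ?_, ?_⟩
      · intro t ht
        obtain ⟨t1, rfl, h1⟩ := htor t ht
        rcases h1 with h1 | ⟨j, hj⟩
        · obtain ⟨v, hv⟩ := hfix t1 h1
          refine ⟨q (Sum.inl v), ?_⟩
          rw [← hquot.equi]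
          congr 1
          exact congrArg Sum.inl hv
        · refine ⟨q (Sum.inr j), ?_⟩
          rw [← hquot.equi]
          congr 1
          exact congrArg Sum.inr hj
      · obtain ⟨κ', hκ'⟩ := hEHQ N hN1 (by omega) hspinN M rfl P' d' q hquot
        refine ⟨κ', ?_⟩
        intro h' hh' p hp
        obtain ⟨h1, hh1, rfl⟩ := Subgroup.mem_map.1 hh'
        have h2 : (QuotientGroup.mk' M h1) • q (Sum.inl x0) = q (Sum.inl (h1 • x0)) := by
          have := hquot.equi h1 (Sum.inl x0)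
          exact this.symm
        rw [h2] at hp
        obtain ⟨h3, hh3, h4⟩ := hκ' h1 hh1 p hp
        refine ⟨QuotientGroup.mk' M h3, Subgroup.mem_map_of_mem _ hh3, ?_⟩
        have h5 : (QuotientGroup.mk' M h3) • q (Sum.inl x0) = q (Sum.inl (h3 • x0)) := by
          have := hquot.equi h3 (Sum.inl x0)
          exact this.symm
        rw [h5]
        exact h4
    · -- odd
      intro t ht
      obtain ⟨t1, rfl, h1⟩ := htor t ht
      rcases h1 with h1 | ⟨j, hj⟩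
      · refine Odd.of_dvd_nat (hG.odd t1 h1) ?_
        exact orderOf_map_dvd (QuotientGroup.mk' M) t1
      · obtain ⟨g, i, hi⟩ := fix_coset hj
        exact Odd.of_dvd_nat hNodd (orderOf_dvd_of_pow_eq_one (finmk t1 (pow_mem_nc N hi)))
    · -- cent
      exact hECENT N hN1 (by omega) hwind M rfl
    · rw [← map_pow, hG.a5, map_one]
    · rw [← map_pow, hG.b3, map_one]
    · exact sfree a 5 ca (by norm_num) hG.a5 hca hG.afree
    · exact sfree b 3 cb (by norm_num) hG.b3 hcb hG.bfree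
    · -- vfree
      intro w' g' l hl hmem
      obtain ⟨w1, rfl⟩ := QuotientGroup.mk_surjective w'
      obtain ⟨g, rfl⟩ := QuotientGroup.mk_surjective g'
      obtain ⟨r0, hr0, hmin⟩ := exists_min M (fun r => d ca ((r * w1) • cb))
      set w2 : Γ := r0 * w1 with hw2
      have hmk : (QuotientGroup.mk w1 : Γ ⧸ M) = QuotientGroup.mk w2 := (mk_mul w1 hr0).symm
      set v : Γ := vw a (w2 * b * w2⁻¹) with hv
      have hvmk : vw (QuotientGroup.mk' M a) ((QuotientGroup.mk w1 : Γ ⧸ M) *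
          QuotientGroup.mk' M b * (QuotientGroup.mk w1 : Γ ⧸ M)⁻¹) = QuotientGroup.mk' M v := by
        rw [hmk, hv, map_vw, map_mul, map_mul, map_inv]
        rfl
      rw [hvmk] at hmem ⊢
      have hAW2 := hEAW N hN1 (by omega) w2 (by
        intro r hr
        have := hmin (r * r0) (M.mul_mem hr hr0)
        simpa only [hw2, mul_assoc] using this)
      rcases hAW2 with h1 | ⟨j, hj⟩ | ⟨A, hA1, hA2, hA3, hA4⟩
      · exact finmap v h1
      · obtain ⟨g2, i, hi⟩ := fix_coset hj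
        exact finmk' v (pow_mem_nc N hi)
      · have h1 : QuotientGroup.mk' M (g⁻¹ * v ^ l * g) ∈ H.map (QuotientGroup.mk' M) := by
          rw [map_mul, map_mul, map_inv, map_pow]
          exact hmem
        obtain ⟨h1, hh1, r, hr, hgs⟩ := mem_map_iff h1
        have h2 := hECONJ N hN1 (by omega) hwind (v ^ l) A hA1 hA2 (smul_pow_mem hA3 l) (by
          intro u hu j
          have := hA4 u hu l j
          rw [zpow_natCast] at this
          exact this) g h1 r hh1 hr hgs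
        rcases h2 with ⟨g1, hg1⟩ | ⟨j, hj⟩
        · exact finmap v (hG.vfree w2 g1 l hl hg1)
        · obtain ⟨g2, i, hi⟩ := fix_coset hj
          by_cases hi0 : i = 0
          · subst hi0
            have h3 : v ^ l = 1 := by
              rw [hi]
              simp
            exact finmap v (isOfFinOrder_iff_pow_eq_one.2 ⟨l, hl, h3⟩)
          · have hcomm : v * v ^ l = v ^ l * v := (Commute.self_pow v l).eq
            have h3 : (g2⁻¹ * v * g2) * e ^ i * (g2⁻¹ * v * g2)⁻¹ = e ^ i := by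
              have h4 : e ^ i = g2⁻¹ * v ^ l * g2 := by
                rw [hi]
                group
              rw [h4]
              have h5 : g2⁻¹ * v * g2 * (g2⁻¹ * v ^ l * g2) * (g2⁻¹ * v * g2)⁻¹ =
                  g2⁻¹ * (v * v ^ l) * v⁻¹ * g2 := by group
              rw [h5, hcomm]
              group
            have h4 := mal _ i i hi0 h3
            obtain ⟨i', hi'⟩ := mem_zpowers_iff.1 h4
            have h5 : v = g2 * e ^ i' * g2⁻¹ := by
              rw [hi']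
              group
            exact finmk' v (pow_mem_nc N h5)
  · -- separation
    intro f hf hmem
    obtain ⟨h1, hh1, r, hr, hfr⟩ := mem_map_iff hmem
    have hle : Ef f ≤ F.sup Ef := Finset.le_sup hf
    exact hEf f (hF f hf) N hN1 (by omega) hwind h1 hh1 r hr hfr
  · -- the relation
    have h1 : vw (QuotientGroup.mk' M a) (QuotientGroup.mk' M w * QuotientGroup.mk' M b *
        (QuotientGroup.mk' M w)⁻¹) = QuotientGroup.mk' M h := by
      rw [hh, map_vw, map_mul, map_mul, map_inv]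
    rw [h1]
    refine finmk h ?_
    have h2 : h = 1 * e ^ s * 1⁻¹ := by
      rw [hs]
      simp
    exact pow_mem_nc N h2

end TK
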