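import Pool.Agent.TK.Targets2

set_option autoImplicit false
set_option linter.unusedVariables false

/-!
# Project TK, job TK-LG: local geodesics
-/

namespace TK

namespace LG_

theorem ceil_exists (a s : ℕ) (hs : 0 < s) (ha : 1 ≤ a) :
    ∃ L, 1 ≤ L ∧ a ≤ L * s ∧ (L - 1) * s < a := by
  refine ⟨(a - 1) / s + 1, Nat.le_add_left 1 _, ?_, ?_⟩
  · have h1 := Nat.div_add_mod (a - 1) s
    have h2 := Nat.mod_lt (a - 1) hs
    have h3 : ((a - 1) / s + 1) * s = s * ((a - 1) / s) + s := by ring
    omega
  · have h1 := Nat.div_mul_le_self (a - 1) s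
    rw [Nat.add_sub_cancel]
    omega

/-- the break points -/
def idx (i j k L s t : ℕ) : ℕ :=
  if t ≤ L then max i (j - (L - t) * s) else min k (j + (t - L) * s)

theorem idx_left {i j k L s u : ℕ} (hu : u ≤ L) : idx i j k L s (L - u) = max i (j - u * s) := by
  unfold idx
  rw [if_pos (by omega)]
  have : L - (L - u) = u := by omega
  rw [this]

theorem idx_right {i j k L s : ℕ} (hij : i ≤ j) (hjk : j ≤ k) (v : ℕ) :
    idx i j k L s (L + v) = min k (j + v * s) := by
  unfold idx
  by_cases hv : v = 0
  · subst hv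
    simp [hij, hjk]
  · rw [if_neg (by omega)]
    have : L + v - L = v := by omega
    rw [this]

theorem step {i j k L s t : ℕ} (hij : i ≤ j) (hjk : j ≤ k) :
    idx i j k L s t ≤ idx i j k L s (t + 1) ∧ idx i j k L s (t + 1) ≤ idx i j k L s t + s := by
  rcases Nat.lt_or_ge t L with h | h
  · obtain ⟨u, hu⟩ : ∃ u, L = t + 1 + u := ⟨L - (t + 1), by omega⟩
    have e1 : t = L - (u + 1) := by omega
    have e2 : t + 1 = L - u := by omega
    have a1 : idx i j k L s t = max i (j - (u + 1) * s) := by
      rw [e1]; exact idx_left (by omega)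
    have a2 : idx i j k L s (t + 1) = max i (j - u * s) := by
      rw [e2]; exact idx_left (by omega)
    rw [a1, a2]
    have : (u + 1) * s = u * s + s := by ring
    omega
  · obtain ⟨v, rfl⟩ : ∃ v, t = L + v := ⟨t - L, by omega⟩
    rw [idx_right hij hjk, add_assoc, idx_right hij hjk]
    have : (v + 1) * s = v * s + s := by ring
    omega

theorem interior {i j k L R s t : ℕ} (hij : i ≤ j) (hjk : j ≤ k) (hL : (L - 1) * s < j - i)
    (hR : (R - 1) * s < k - j) (h1 : 1 ≤ t) (h2 : t + 2 ≤ L + R) :
    idx i j k L s (t + 1) = idx i j k L s t + s := by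
  rcases Nat.lt_or_ge t L with h | h
  · obtain ⟨u, hu⟩ : ∃ u, L = t + 1 + u := ⟨L - (t + 1), by omega⟩
    have e1 : t = L - (u + 1) := by omega
    have e2 : t + 1 = L - u := by omega
    have a1 : idx i j k L s t = max i (j - (u + 1) * s) := by
      rw [e1]; exact idx_left (by omega)
    have a2 : idx i j k L s (t + 1) = max i (j - u * s) := by
      rw [e2]; exact idx_left (by omega)
    rw [a1, a2]
    have e3 : (u + 1) * s = u * s + s := by ring
    have e4 : (u + 1) * s ≤ (L - 1) * s := Nat.mul_le_mul_right _ (by omega)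
    omega
  · obtain ⟨v, rfl⟩ : ∃ v, t = L + v := ⟨t - L, by omega⟩
    rw [idx_right hij hjk, add_assoc, idx_right hij hjk]
    have e3 : (v + 1) * s = v * s + s := by ring
    have e4 : (v + 1) * s ≤ (R - 1) * s := Nat.mul_le_mul_right _ (by omega)
    omega

end LG_

open LG_ in
/-- TK-LG local geodesics -/
theorem p_LG (hBRK : T_BRK) : T_LG := by
  intro V d C m n z hd hC hm hloc i j k hij hjk hkn
  rcases Nat.eq_or_lt_of_le hij with h | hij'
  · subst h
    rw [hd.self]; omega
  rcases Nat.eq_or_lt_of_le hjk with h | hjk'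
  · subst h
    rw [hd.self]; omega
  set s := m / 2 with hs
  have hs2 : 2 * C < s := by omega
  have hsm : 2 * s ≤ m := by omega
  obtain ⟨L, hL1, hL2, hL3⟩ := ceil_exists (j - i) s (by omega) (by omega)
  obtain ⟨R, hR1, hR2, hR3⟩ := ceil_exists (k - j) s (by omega) (by omega)
  have hidxn : ∀ t, idx i j k L s t ≤ k := by
    intro t
    unfold idx
    split_ifs
    · omega
    · exact min_le_left _ _
  have hst : ∀ t, _ := fun t => step (i := i) (j := j) (k := k) (L := L) (s := s) (t := t) hij hjk
  have hdist1 : ∀ t, d (z (idx i j k L s t)) (z (idx i j k L s (t + 1))) =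
      idx i j k L s (t + 1) - idx i j k L s t := by
    intro t
    have h1 := hst t
    have h2 := hidxn (t + 1)
    exact hloc _ _ h1.1 (by omega) (by omega)
  have hdist2 : ∀ t, d (z (idx i j k L s t)) (z (idx i j k L s (t + 2))) =
      idx i j k L s (t + 2) - idx i j k L s t := by
    intro t
    have h1 := hst t
    have h2 := hst (t + 1)
    have h3 := hidxn (t + 2)
    have e : t + 1 + 1 = t + 2 := by omega
    rw [e] at h2
    exact hloc _ _ (by omega) (by omega) (by omega)
  have key := (hBRK V d C 0 (L + R) (fun t => z (idx i j k L s t)) hd hC ?_ ?_).1 0 L (L + R)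
    (by omega) (by omega) le_rfl
  · have e0 : idx i j k L s 0 = i := by
      have := idx_left (i := i) (j := j) (k := k) (L := L) (s := s) (u := L) le_rfl
      rw [Nat.sub_self] at this
      rw [this]
      omega
    have e1 : idx i j k L s L = j := by
      have := idx_left (i := i) (j := j) (k := k) (L := L) (s := s) (u := 0) (by omega)
      rw [Nat.sub_zero] at this
      rw [this]
      omega
    have e2 : idx i j k L s (L + R) = k := by
      rw [idx_right hij hjk]
      omega
    simp only [e0, e1, e2] at key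
    omega
  · intro t ht
    show d (z (idx i j k L s t)) (z (idx i j k L s (t + 1))) +
      d (z (idx i j k L s (t + 1))) (z (idx i j k L s (t + 2))) ≤
      d (z (idx i j k L s t)) (z (idx i j k L s (t + 2))) + 0
    have h1 := hst t
    have h2 := hst (t + 1)
    have e : t + 1 + 1 = t + 2 := by omega
    have h3 := hdist1 (t + 1)
    rw [e] at h2 h3
    rw [hdist1 t, h3, hdist2 t]
    omega
  · intro t ht1 ht2
    show 0 + 2 * C < d (z (idx i j k L s t)) (z (idx i j k L s (t + 1)))
    rw [hdist1 t, interior hij hjk hL3 hR3 ht1 ht2]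
    omega

end TK
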