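import Pool.Agent.TK.Targets1

set_option autoImplicit false
set_option linter.unusedVariables false

/-!
# TK-LOG: geodesics and paths of the cone-off
-/

namespace TK

namespace LOG_

variable {V J : Type} {d : V → V → ℕ} {Y : J → Set V} {D : V ⊕ J → V ⊕ J → ℕ} {δ κ B : ℕ}

theorem rep_le (hD : IsCone d Y D) (rep : V ⊕ J → V) (h1 : ∀ x : V, rep (Sum.inl x) = x)
    (h2 : ∀ j : J, rep (Sum.inr j) ∈ Y j) (u : V ⊕ J) : D (Sum.inl (rep u)) u ≤ 1 := by
  rcases u with x | j
  · rw [h1, hD.geo.self]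
    omega
  · rw [(hD.vj _ _).2 (h2 j)]

/-- one step -/
theorem step (hF : Fam d Y δ κ B) (hD : IsCone d Y D)
    (hle : ∀ x y : V, D (Sum.inl x) (Sum.inl y) ≤ d x y) (rep : V ⊕ J → V)
    (h1 : ∀ x : V, rep (Sum.inl x) = x) (h2 : ∀ j : J, rep (Sum.inr j) ∈ Y j) (u w : V ⊕ J)
    (huw : D u w ≤ 1) (p : V) (hp : Btw d (rep u) p (rep w)) :
    D (Sum.inl p) u ≤ κ + 2 ∨ D (Sum.inl p) w ≤ κ + 2 := by
  have hself : u = w → D (Sum.inl p) u ≤ κ + 2 := by
    intro h
    subst h
    unfold Btw at hp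
    rw [hF.geo.self] at hp
    have h3 : rep u = p := hF.geo.eq _ _ (by omega)
    have h4 := rep_le hD rep h1 h2 u
    rw [h3] at h4
    omega
  have key : ∀ (x : V) (j : J), x ∈ Y j → Btw d x p (rep (Sum.inr j)) →
      D (Sum.inl p) (Sum.inr j) ≤ κ + 2 := by
    intro x j hx hb
    obtain ⟨q, hq, hpq⟩ := hF.qc j x hx _ (h2 j) p hb
    have h3 := hD.geo.tri (Sum.inl p) (Sum.inl q) (Sum.inr j)
    have h4 := hle p q
    have h5 := (hD.vj q j).2 hq
    omega
  rcases Nat.eq_zero_or_pos (D u w) with h0 | h0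
  · exact Or.inl (hself (hD.geo.eq _ _ h0))
  have h1' : D u w = 1 := by omega
  rcases u with x | i <;> rcases w with y | j
  · have h3 := (hD.vv x y).1 h1'
    rw [h1, h1] at hp
    unfold Btw at hp
    rcases Nat.eq_zero_or_pos (d x p) with h4 | h4
    · left
      rw [← hF.geo.eq _ _ h4, hD.geo.self]
      omega
    · right
      have h5 : d p y = 0 := by omega
      rw [hF.geo.eq _ _ h5, hD.geo.self]
      omega
  · right
    rw [h1] at hp
    exact key x j ((hD.vj x j).1 h1') hp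
  · left
    rw [h1] at hp
    rw [hD.geo.symm] at h1'
    exact key y i ((hD.vj y i).1 h1') (hp.symm hF.geo)
  · exact absurd h1' (hD.jj i j)

end LOG_

open LOG_ in
theorem p_LOG (h : T_CINV) : T_LOG := by
  intro V J d Y D δ κ B rep hF hD h1 h2 k
  have hle := (h V J d Y D hF.geo hD).1
  induction k with
  | zero =>
    intro n γ hn hγ p hp
    have hn' : n = 0 ∨ n = 1 := by
      simp only [pow_zero] at hn
      omega
    rcases hn' with rfl | rfl
    · have h3 := step hF hD hle rep h1 h2 (γ 0) (γ 0) (by rw [hD.geo.self]; omega) p hp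
      exact ⟨0, le_rfl, by omega⟩
    · rcases step hF hD hle rep h1 h2 (γ 0) (γ 1) (hγ 0 (by omega)) p hp with h3 | h3
      · exact ⟨0, by omega, by omega⟩
      · exact ⟨1, by omega, by omega⟩
  | succ k ih =>
    intro n γ hn hγ p hp
    have hpow : 2 ^ (k + 1) = 2 ^ k + 2 ^ k := by ring
    rw [hpow] at hn
    set m := min n (2 ^ k) with hm
    have hmn : m ≤ n := min_le_left _ _
    have hmk : m ≤ 2 ^ k := min_le_right _ _
    have hnm : n - m ≤ 2 ^ k := by omega
    have harith : (k + 1) * δ + κ + 2 = δ + (k * δ + κ + 2) := by ring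
    obtain ⟨q, hq, hpq⟩ := hF.thin _ _ (rep (γ m)) p hp
    rcases hq with hq | hq
    · obtain ⟨i, hi, hDi⟩ := ih m γ hmk (fun i hi => hγ i (by omega)) q hq
      refine ⟨i, by omega, ?_⟩
      have h3 := hD.geo.tri (Sum.inl p) (Sum.inl q) (γ i)
      have h4 := hle p q
      omega
    · obtain ⟨i, hi, hDi⟩ := ih (n - m) (fun i => γ (m + i)) hnm
        (fun i hi => hγ (m + i) (by omega)) q (by
          show Btw d (rep (γ (m + 0))) q (rep (γ (m + (n - m))))
          rw [Nat.add_zero, Nat.add_sub_cancel' hmn]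
          exact hq)
      refine ⟨m + i, by omega, ?_⟩
      have h3 := hD.geo.tri (Sum.inl p) (Sum.inl q) (γ (m + i))
      have h4 := hle p q
      have h5 : D (Sum.inl q) (γ (m + i)) ≤ k * δ + κ + 2 := hDi
      omega

end TK
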