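import Pool.Agent.TK.Targets1

set_option autoImplicit false
set_option linter.unusedVariables false

/-!
# TK-ORB: the quotient of a graph metric by a normal subgroup
-/

namespace TK

namespace ORB_

variable {P G : Type} [Group G] [MulAction G P]

/-- the orbit relation of the subgroup `N` -/
def st (P : Type) {G : Type} [Group G] [MulAction G P] (N : Subgroup G) : Setoid P where
  r := fun x y => ∃ r ∈ N, y = r • x
  iseqv :=
    { refl := fun x => ⟨1, N.one_mem, (one_smul G x).symm⟩
      symm := by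
        rintro x y ⟨r, hr, h⟩
        exact ⟨r⁻¹, N.inv_mem hr, by rw [h, inv_smul_smul]⟩
      trans := by
        rintro x y z ⟨r, hr, h⟩ ⟨s, hs, h'⟩
        exact ⟨s * r, N.mul_mem hs hr, by rw [h', h, mul_smul]⟩ }

/-- the quotient map -/
def qm (P : Type) {G : Type} [Group G] [MulAction G P] (N : Subgroup G) (x : P) :
    Quotient (st P N) := Quotient.mk (st P N) x

theorem qm_eq {N : Subgroup G} {x y : P} (h : qm P N x = qm P N y) : ∃ r ∈ N, y = r • x :=
  Quotient.exact h

theorem qm_smul {N : Subgroup G} {r : G} (hr : r ∈ N) (x : P) : qm P N (r • x) = qm P N x :=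
  (Quotient.sound (s := st P N) ⟨r, hr, rfl⟩).symm

/-- the action of the quotient group -/
def sm (P : Type) {G : Type} [Group G] [MulAction G P] (N : Subgroup G) [N.Normal] :
    G ⧸ N → Quotient (st P N) → Quotient (st P N) :=
  Quotient.map₂ (fun (g : G) (x : P) => g • x) (by
    intro g g' hg x x' hx
    obtain ⟨r, hr, h⟩ := hx
    have hn : g⁻¹ * g' ∈ N := QuotientGroup.leftRel_apply.1 hg
    refine ⟨g * ((g⁻¹ * g') * r) * g⁻¹, ?_, ?_⟩
    · exact Subgroup.Normal.conj_mem inferInstance _ (N.mul_mem hn hr) g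
    · rw [h, smul_smul, smul_smul]
      congr 1
      group)

theorem sm_mk (N : Subgroup G) [N.Normal] (g : G) (x : P) :
    sm P N (QuotientGroup.mk g) (qm P N x) = qm P N (g • x) := rfl

/-- the action -/
def act (P : Type) {G : Type} [Group G] [MulAction G P] (N : Subgroup G) [N.Normal] :
    MulAction (G ⧸ N) (Quotient (st P N)) where
  smul := sm P N
  one_smul := by
    intro p
    induction p using Quotient.inductionOn with
    | _ x =>
      change sm P N (QuotientGroup.mk 1) (qm P N x) = qm P N x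
      rw [sm_mk, one_smul]
  mul_smul := by
    intro a b p
    induction p using Quotient.inductionOn with
    | _ x =>
      induction a using QuotientGroup.induction_on with
      | H g =>
        induction b using QuotientGroup.induction_on with
        | H h =>
          change sm P N (QuotientGroup.mk (g * h)) (qm P N x) =
            sm P N (QuotientGroup.mk g) (sm P N (QuotientGroup.mk h) (qm P N x))
          rw [sm_mk, sm_mk, sm_mk, mul_smul]

/-- the quotient metric -/
noncomputable def dd (d : P → P → ℕ) (N : Subgroup G) (p p' : Quotient (st P N)) : ℕ :=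
  sInf {n | ∃ x y : P, qm P N x = p ∧ qm P N y = p' ∧ d x y = n}

theorem dd_le (d : P → P → ℕ) (N : Subgroup G) (x y : P) :
    dd d N (qm P N x) (qm P N y) ≤ d x y :=
  Nat.sInf_le ⟨x, y, rfl, rfl, rfl⟩

theorem dd_att {d : P → P → ℕ} {N : Subgroup G}
    (hinv : ∀ (g : G) x y, d (g • x) (g • y) = d x y) (x y : P) :
    ∃ r ∈ N, dd d N (qm P N x) (qm P N y) = d x (r • y) := by
  have hne : {n | ∃ x' y' : P, qm P N x' = qm P N x ∧ qm P N y' = qm P N y ∧
      d x' y' = n}.Nonempty := ⟨d x y, x, y, rfl, rfl, rfl⟩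
  obtain ⟨x', y', hx, hy, h⟩ := Nat.sInf_mem hne
  obtain ⟨r, hr, h1⟩ := qm_eq hx.symm
  obtain ⟨s, hs, h2⟩ := qm_eq hy.symm
  refine ⟨r⁻¹ * s, N.mul_mem (N.inv_mem hr) hs, ?_⟩
  unfold dd
  rw [← h, h1, h2, ← hinv r x ((r⁻¹ * s) • y), smul_smul]
  congr 2
  group

theorem surj (N : Subgroup G) : Function.Surjective (qm P N) := fun p =>
  Quotient.exists_rep p

theorem geo {d : P → P → ℕ} {N : Subgroup G} (hd : Geo d)
    (hinv : ∀ (g : G) x y, d (g • x) (g • y) = d x y) : Geo (dd d N) := by
  have htri : ∀ x y z : P, dd d N (qm P N x) (qm P N z) ≤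
      dd d N (qm P N x) (qm P N y) + dd d N (qm P N y) (qm P N z) := by
    intro x y z
    obtain ⟨r, hr, h1⟩ := dd_att (N := N) hinv x y
    obtain ⟨s, hs, h2⟩ := dd_att (N := N) hinv y z
    have h3 := dd_le d N x ((r * s) • z)
    rw [qm_smul (N.mul_mem hr hs)] at h3
    have h4 := hd.tri x (r • y) ((r * s) • z)
    have h5 := hinv r y (s • z)
    rw [smul_smul] at h5
    omega
  have hsy : ∀ x y : P, dd d N (qm P N x) (qm P N y) ≤ dd d N (qm P N y) (qm P N x) := by
    intro x y
    obtain ⟨r, hr, h1⟩ := dd_att (N := N) hinv y x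
    have h2 := dd_le d N (r • x) y
    rw [qm_smul hr, hd.symm] at h2
    omega
  refine ⟨fun p => ?_, fun p p' h => ?_, fun p p' => ?_, fun p p' p'' => ?_,
    fun p p' n hn => ?_⟩
  · obtain ⟨x, rfl⟩ := surj N p
    have h1 := dd_le d N x x
    rw [hd.self] at h1
    omega
  · obtain ⟨x, rfl⟩ := surj N p
    obtain ⟨y, rfl⟩ := surj N p'
    obtain ⟨r, hr, h1⟩ := dd_att (N := N) hinv x y
    rw [h] at h1
    have h2 := hd.eq _ _ h1.symm
    rw [h2, qm_smul hr]
  · obtain ⟨x, rfl⟩ := surj N p
    obtain ⟨y, rfl⟩ := surj N p'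
    exact le_antisymm (hsy x y) (hsy y x)
  · obtain ⟨x, rfl⟩ := surj N p
    obtain ⟨y, rfl⟩ := surj N p'
    obtain ⟨z, rfl⟩ := surj N p''
    exact htri x y z
  · obtain ⟨x, rfl⟩ := surj N p
    obtain ⟨y, rfl⟩ := surj N p'
    obtain ⟨r, hr, h1⟩ := dd_att (N := N) hinv x y
    obtain ⟨z, hz1, hz2⟩ := hd.geod x (r • y) n (by omega)
    have h2 := dd_le d N x z
    have h3 := dd_le d N z (r • y)
    rw [qm_smul hr] at h3
    have h4 := htri x z y
    refine ⟨qm P N z, ?_, ?_⟩ <;> omega

end ORB_

open ORB_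

/-- TK-ORB the quotient graph -/
theorem p_ORB : T_ORB := by
  intro P G _ _ d N _ hd hinv
  refine ⟨Quotient (st P N), act P N, dd d N, qm P N, ?_⟩
  let _ := act P N
  have hle : ∀ (g : G) (x y : P), dd d N (qm P N (g • x)) (qm P N (g • y)) ≤
      dd d N (qm P N x) (qm P N y) := by
    intro g x y
    obtain ⟨r, hr, h1⟩ := dd_att (N := N) hinv x y
    have h2 := dd_le d N (g • x) (g • r • y)
    have h3 : qm P N (g • r • y) = qm P N (g • y) := by
      have e : g • r • y = (g * r * g⁻¹) • g • y := by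
        rw [smul_smul, smul_smul]
        congr 1
        group
      rw [e, qm_smul (Subgroup.Normal.conj_mem inferInstance _ hr g)]
    rw [h3, hinv] at h2
    omega
  refine ⟨geo hd hinv, surj N, fun g x => rfl, fun x y h => qm_eq h, dd_le d N,
    dd_att hinv, fun a p p' => ?_⟩
  obtain ⟨x, rfl⟩ := surj N p
  obtain ⟨y, rfl⟩ := surj N p'
  induction a using QuotientGroup.induction_on with
  | H g =>
    change dd d N (qm P N (g • x)) (qm P N (g • y)) = dd d N (qm P N x) (qm P N y)
    refine le_antisymm (hle g x y) ?_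
    have h1 := hle g⁻¹ (g • x) (g • y)
    rwa [inv_smul_smul, inv_smul_smul] at h1

end TK
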