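import Pool.Agent.TK.Targets2

set_option autoImplicit false
set_option linter.unusedVariables false

/-!
# Project TK (MP_3ae405_al, `k = 5`): broken paths in the tree-like set
-/

namespace TK

namespace PATH_

open Subgroup

/-- the letter given by a type and an exponent -/
def ltr {G : Type} [Group G] (a b : G) (p : Bool × ℤ) : G := (cond p.1 a b) ^ p.2

/-- alternating lists of non trivial letters -/
def Alt {G : Type} [Group G] (a b : G) (l : List (Bool × ℤ)) : Prop :=
  l.IsChain (fun p q => p.1 ≠ q.1) ∧ ∀ p ∈ l, ltr a b p ≠ 1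

theorem alt_tail {G : Type} [Group G] {a b : G} {p : Bool × ℤ} {l : List (Bool × ℤ)}
    (h : Alt a b (p :: l)) : Alt a b l :=
  ⟨h.1.tail, fun q hq => h.2 q (List.mem_cons_of_mem _ hq)⟩

/-- multiplying by a power of a generator on the left -/
theorem mul_left {G : Type} [Group G] (a b : G) (t : Bool) (i : ℤ) (l : List (Bool × ℤ))
    (h : Alt a b l) : ∃ l', Alt a b l' ∧
      (l'.map (ltr a b)).prod = (cond t a b) ^ i * (l.map (ltr a b)).prod := by
  by_cases h1 : (cond t a b) ^ i = 1
  · exact ⟨l, h, by rw [h1, one_mul]⟩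
  · cases l with
    | nil =>
      refine ⟨[(t, i)], ⟨List.isChain_singleton _, ?_⟩, ?_⟩
      · intro p hp
        rw [List.mem_singleton] at hp
        subst hp
        exact h1
      · simp [ltr]
    | cons q l =>
      by_cases hq : q.1 = t
      · by_cases h2 : (cond t a b) ^ (i + q.2) = 1
        · refine ⟨l, alt_tail h, ?_⟩
          rw [List.map_cons, List.prod_cons, ← mul_assoc]
          have : (cond t a b) ^ i * ltr a b q = 1 := by
            unfold ltr
            rw [hq, ← zpow_add, h2]
          rw [this, one_mul]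
        · refine ⟨(t, i + q.2) :: l, ⟨?_, ?_⟩, ?_⟩
          · have h3 := h.1
            cases l with
            | nil => exact List.isChain_singleton _
            | cons r l =>
              rw [List.isChain_cons_cons] at h3 ⊢
              exact ⟨by rw [← hq]; exact h3.1, h3.2⟩
          · intro p hp
            rw [List.mem_cons] at hp
            rcases hp with hp | hp
            · subst hp
              exact h2
            · exact h.2 p (List.mem_cons_of_mem _ hp)
          · rw [List.map_cons, List.prod_cons, List.map_cons, List.prod_cons, ← mul_assoc]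
            have : ltr a b (t, i + q.2) = (cond t a b) ^ i * ltr a b q := by
              unfold ltr
              rw [hq, ← zpow_add]
            rw [this]
      · refine ⟨(t, i) :: q :: l, ⟨?_, ?_⟩, ?_⟩
        · rw [List.isChain_cons_cons]
          exact ⟨fun h => hq h.symm, h.1⟩
        · intro p hp
          rw [List.mem_cons] at hp
          rcases hp with hp | hp
          · subst hp
            exact h1
          · exact h.2 p hp
        · rw [List.map_cons, List.prod_cons]
          rfl

/-- normal forms -/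
theorem exists_alt {G : Type} [Group G] (a b : G) (g : G)
    (hg : g ∈ closure ({a, b} : Set G)) : ∃ l, Alt a b l ∧ (l.map (ltr a b)).prod = g := by
  induction hg using closure_induction_left with
  | one => exact ⟨[], ⟨List.isChain_nil, by simp⟩, by simp⟩
  | mul_left x hx y hy ih =>
    obtain ⟨l, hl, hly⟩ := ih
    rcases hx with hx | hx
    · obtain ⟨l', h1, h2⟩ := mul_left a b true 1 l hl
      refine ⟨l', h1, ?_⟩
      rw [h2, hly, hx]
      simp
    · obtain ⟨l', h1, h2⟩ := mul_left a b false 1 l hl
      refine ⟨l', h1, ?_⟩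
      rw [Set.mem_singleton_iff] at hx
      rw [h2, hly, hx]
      simp
  | inv_mul_cancel x hx y hy ih =>
    obtain ⟨l, hl, hly⟩ := ih
    rcases hx with hx | hx
    · obtain ⟨l', h1, h2⟩ := mul_left a b true (-1) l hl
      refine ⟨l', h1, ?_⟩
      rw [h2, hly, hx]
      simp
    · obtain ⟨l', h1, h2⟩ := mul_left a b false (-1) l hl
      refine ⟨l', h1, ?_⟩
      rw [Set.mem_singleton_iff] at hx
      rw [h2, hly, hx]
      simp

theorem ltr_mem {G : Type} [Group G] (a b : G) (p : Bool × ℤ) :
    ltr a b p ∈ closure ({a, b} : Set G) := by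
  unfold ltr
  apply zpow_mem
  apply Subgroup.subset_closure
  cases p.1 <;> simp

theorem zfix {G V : Type} [Group G] [MulAction G V] (g : G) (x : V) (h : g • x = x) (i : ℤ) :
    g ^ i • x = x := by
  have h1 : g ∈ MulAction.stabilizer G x := h
  exact (zpow_mem h1 i : g ^ i ∈ MulAction.stabilizer G x)

theorem ltr_fix {G V : Type} [Group G] [MulAction G V] {a b : G} {ca c' : V} (ha : a • ca = ca)
    (hb : b • c' = c') (p : Bool × ℤ) : ltr a b p • (cond p.1 ca c') = cond p.1 ca c' := by
  unfold ltr
  apply zfix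
  cases p.1
  · exact hb
  · exact ha

/-- sequence with a prescribed first term -/
def cns {α : Type} (x : α) (y : ℕ → α) : ℕ → α
  | 0 => x
  | k + 1 => y k

/-- the main induction -/
theorem main {V G : Type} [Group G] [MulAction G V] (d : V → V → ℕ) (hd : Geo d)
    (hinv : ∀ (g : G) x y, d (g • x) (g • y) = d x y) (a b : G) (ca c' : V) (ha : a • ca = ca)
    (hb : b • c' = c') (u' : V) (l : List (Bool × ℤ)) :
    Alt a b l → ∀ (g0 : G) (u : V), g0 ∈ closure ({a, b} : Set G) →
    Btw d (g0 • ca) u (g0 • c') →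
    Btw d ((g0 * (l.map (ltr a b)).prod) • ca) u' ((g0 * (l.map (ltr a b)).prod) • c') →
    ∃ (n : ℕ) (y : ℕ → V) (g : ℕ → G),
    y 0 = u ∧ y (n+1) = u' ∧
    (∀ k, k ≤ n → g k ∈ closure ({a, b} : Set G) ∧ Btw d (g k • ca) (y k) (g k • c') ∧
      Btw d (g k • ca) (y (k+1)) (g k • c')) ∧
    (∀ k, k + 1 ≤ n → (y (k+1) = g k • ca ∧ y (k+1) = g (k+1) • ca ∧
        ∃ i : ℤ, a ^ i ≠ 1 ∧ g (k+1) = g k * a ^ i) ∨
      (y (k+1) = g k • c' ∧ y (k+1) = g (k+1) • c' ∧
        ∃ i : ℤ, b ^ i ≠ 1 ∧ g (k+1) = g k * b ^ i)) ∧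
    (∀ k, 1 ≤ k → k + 1 ≤ n → (y k = g k • ca ∧ y (k+1) = g k • c') ∨
      (y k = g k • c' ∧ y (k+1) = g k • ca)) ∧
    g 0 = g0 ∧ (l = [] → n = 0) ∧
    (∀ p t, l = p :: t → y 1 = g0 • (cond p.1 ca c')) := by
  induction l with
  | nil =>
    intro hl g0 u hg0 hu hu'
    refine ⟨0, cns u (fun _ => u'), fun _ => g0, rfl, rfl, ?_, ?_, ?_, rfl, fun _ => rfl, ?_⟩
    · intro k hk
      have hk0 : k = 0 := by omega
      subst hk0
      simp only [List.map_nil, List.prod_nil, mul_one] at hu'
      exact ⟨hg0, hu, hu'⟩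
    · intro k hk
      omega
    · intro k h1 h2
      omega
    · intro p t h
      exact absurd h (by simp)
  | cons p t ih =>
    intro hl g0 u hg0 hu hu'
    have hfix := ltr_fix ha hb p
    have hg1 : g0 * ltr a b p ∈ closure ({a, b} : Set G) := mul_mem hg0 (ltr_mem a b p)
    have hy1 : (g0 * ltr a b p) • (cond p.1 ca c') = g0 • (cond p.1 ca c') := by
      rw [mul_smul, hfix]
    have hb1 : ∀ g : G, Btw d (g • ca) (g • (cond p.1 ca c')) (g • c') := by
      intro g
      cases p.1
      · exact btw_right hd _ _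
      · exact btw_left hd _ _
    obtain ⟨n, y, g, h0, h1, h2, h3, h4, h5, h6, h7⟩ := ih (alt_tail hl) (g0 * ltr a b p)
      (g0 • (cond p.1 ca c')) hg1 (by rw [← hy1]; exact hb1 _)
      (by rw [List.map_cons, List.prod_cons, ← mul_assoc] at hu'; exact hu')
    refine ⟨n + 1, cns u y, cns g0 g, rfl, h1, ?_, ?_, ?_, rfl, ?_, ?_⟩
    · intro k hk
      cases k with
      | zero =>
        refine ⟨hg0, hu, ?_⟩
        show Btw d (g0 • ca) (y 0) (g0 • c')
        rw [h0]
        exact hb1 _
      | succ k => exact h2 k (by omega)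
    · intro k hk
      cases k with
      | zero =>
        show (y 0 = g0 • ca ∧ y 0 = g 0 • ca ∧ ∃ i : ℤ, a ^ i ≠ 1 ∧ g 0 = g0 * a ^ i) ∨
          (y 0 = g0 • c' ∧ y 0 = g 0 • c' ∧ ∃ i : ℤ, b ^ i ≠ 1 ∧ g 0 = g0 * b ^ i)
        have hne := hl.2 p (List.mem_cons_self)
        obtain ⟨c, i⟩ := p
        rw [h0, h5]
        cases c
        · right
          exact ⟨rfl, hy1.symm, i, hne, rfl⟩
        · left
          exact ⟨rfl, hy1.symm, i, hne, rfl⟩
      | succ k => exact h3 k (by omega)
    · intro k hk1 hk2
      cases k with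
      | zero => omega
      | succ k =>
        cases k with
        | zero =>
          show (y 0 = g 0 • ca ∧ y 1 = g 0 • c') ∨ (y 0 = g 0 • c' ∧ y 1 = g 0 • ca)
          cases t with
          | nil =>
            have := h6 rfl
            omega
          | cons q t =>
            have h8 := h7 q t rfl
            have h9 := hl.1
            rw [List.isChain_cons_cons] at h9
            have h10 := h9.1
            rw [h0, h5, h8, ← hy1]
            cases hp : p.1 <;> cases hq : q.1
            · exact absurd (hp.trans hq.symm) h10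
            · right
              exact ⟨rfl, rfl⟩
            · left
              exact ⟨rfl, rfl⟩
            · exact absurd (hp.trans hq.symm) h10
        | succ k => exact h4 (k + 1) (by omega) (by omega)
    · intro h
      exact absurd h (by simp)
    · intro q s h
      show y 0 = g0 • (cond q.1 ca c')
      rw [h0]
      have : p = q := (List.cons.inj h).1
      rw [this]

end PATH_

theorem p_PATH : T_PATH := by
  intro V G _ _ d hd hinv a b ca c' ha hb u hu u' hu'
  obtain ⟨g, hg, hgu⟩ := hu
  obtain ⟨g', hg', hgu'⟩ := hu'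
  obtain ⟨l, hl, hlg⟩ := PATH_.exists_alt a b (g⁻¹ * g')
    (Subgroup.mul_mem _ (Subgroup.inv_mem _ hg) hg')
  obtain ⟨n, y, G', h0, h1, h2, h3, h4, -⟩ := PATH_.main d hd hinv a b ca c' ha hb u' l hl g u hg
    hgu (by rw [hlg]; simpa using hgu')
  exact ⟨n, y, G', h0, h1, h2, h3, h4⟩

end TK
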