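import Pool.Agent.TK.Targets1

set_option autoImplicit false
set_option linter.unusedVariables false

/-!
# Project TK: TK-PD, properties of the projection distance
-/

namespace TK

namespace PD_

variable {V J : Type} {d : V → V → ℕ} {Y : J → Set V} {δ κ B : ℕ}

theorem ex (hF : Fam d Y δ κ B) (j : J) (u : V ⊕ J) : ∃ y, Pr d Y j u y := by
  rcases u with x | i
  · obtain ⟨y, hy⟩ := exists_near (d := d) (hF.ne j) x
    exact ⟨y, hy⟩
  · obtain ⟨x, hx⟩ := hF.ne i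
    obtain ⟨y, hy⟩ := exists_near (d := d) (hF.ne j) x
    exact ⟨y, x, hx, hy⟩

theorem dia (hF : Fam d Y δ κ B) (j : J) (u : V ⊕ J) (hu : u ≠ Sum.inr j) (y y' : V)
    (hy : Pr d Y j u y) (hy' : Pr d Y j u y') :
    d y y' ≤ max (2 * (4 * δ + 2) + 2 * κ + 1) B := by
  rcases u with x | i
  · exact (P2 hF.geo (four_of_thin hF.geo hF.thin) (hF.qc j) hy hy').trans (le_max_left _ _)
  · have hij : i ≠ j := fun h => hu (by rw [h])
    obtain ⟨x, hx, hn⟩ := hy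
    obtain ⟨x', hx', hn'⟩ := hy'
    exact (hF.bo i j hij x hx x' hx' y y' hn hn').trans (le_max_right _ _)

theorem bdd (hF : Fam d Y δ κ B) (j : J) (u w : V ⊕ J) (hu : u ≠ Sum.inr j)
    (hw : w ≠ Sum.inr j) (y y' : V) (hy : Pr d Y j u y) (hy' : Pr d Y j w y') (n : ℕ)
    (hn : ∃ z z', Pr d Y j u z ∧ Pr d Y j w z' ∧ d z z' = n) :
    n ≤ d y y' + 2 * max (2 * (4 * δ + 2) + 2 * κ + 1) B := by
  obtain ⟨z, z', hz, hz', rfl⟩ := hn
  have h1 := dia hF j u hu z y hz hy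
  have h2 := dia hF j w hw y' z' hy' hz'
  have h3 := hF.geo.tri z y z'
  have h4 := hF.geo.tri y y' z'
  omega

theorem le_PD (hF : Fam d Y δ κ B) (j : J) (u w : V ⊕ J) (hu : u ≠ Sum.inr j)
    (hw : w ≠ Sum.inr j) (y y' : V) (hy : Pr d Y j u y) (hy' : Pr d Y j w y') :
    d y y' ≤ PD d Y j u w := by
  apply le_csSup
  · exact ⟨_, fun n hn => bdd hF j u w hu hw y y' hy hy' n hn⟩
  · exact ⟨y, y', hy, hy', rfl⟩

theorem PD_le (hF : Fam d Y δ κ B) (j : J) (u w : V ⊕ J) (K : ℕ)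
    (h : ∀ y y', Pr d Y j u y → Pr d Y j w y' → d y y' ≤ K) : PD d Y j u w ≤ K := by
  apply csSup_le
  · obtain ⟨y, hy⟩ := ex hF j u
    obtain ⟨y', hy'⟩ := ex hF j w
    exact ⟨_, y, y', hy, hy', rfl⟩
  · rintro n ⟨y, y', hy, hy', rfl⟩
    exact h y y' hy hy'

end PD_

open PD_ in
theorem p_PD : T_PD := by
  intro δ κ B
  refine ⟨2 * max (2 * (4 * δ + 2) + 2 * κ + 1) B + (5 * (4 * δ + 2) + 4 * κ + 2), ?_⟩
  intro V J d Y hF j
  refine ⟨ex hF j, ?_, ?_, ?_, ?_, ?_⟩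
  · intro u hu y y' hy hy'
    have := dia hF j u hu y y' hy hy'
    omega
  · intro u w hu hw y y' hy hy'
    refine ⟨le_PD hF j u w hu hw y y' hy hy', ?_⟩
    have h := PD_le hF j u w (d y y' + 2 * max (2 * (4 * δ + 2) + 2 * κ + 1) B)
      (fun z z' hz hz' => bdd hF j u w hu hw y y' hy hy' _ ⟨z, z', hz, hz', rfl⟩)
    omega
  · intro u w
    unfold PD
    congr 1
    ext n
    constructor
    · rintro ⟨y, y', hy, hy', rfl⟩
      exact ⟨y', y, hy', hy, hF.geo.symm _ _⟩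
    · rintro ⟨y, y', hy, hy', rfl⟩
      exact ⟨y', y, hy', hy, hF.geo.symm _ _⟩
  · intro u z w hu hz hw
    apply PD_le hF
    intro y y' hy hy'
    obtain ⟨p, hp⟩ := ex hF j z
    have h1 := le_PD hF j u z hu hz y p hy hp
    have h2 := le_PD hF j z w hz hw p y' hp hy'
    have h3 := hF.geo.tri y p y'
    omega
  · intro x y
    apply PD_le hF
    intro p p' hp hp'
    have h1 := P4 hF.geo (four_of_thin hF.geo hF.thin) (hF.qc j) hp hp'
    omega

end TK
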