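import Pool.Agent.TK.Targets1

set_option autoImplicit false
set_option linter.unusedVariables false

/-!
# Project TK: TK-PH, long projections give intersecting conjugates
-/

namespace TK

open Subgroup

namespace PH_

/-- translates of quasiconvex orbits are quasiconvex -/
theorem qc_orb {Γ V : Type} [Group Γ] [MulAction Γ V] {d : V → V → ℕ} {x0 : V}
    (hinv : ∀ (g : Γ) (x y : V), d (g • x) (g • y) = d x y) {κ : ℕ} {P : Subgroup Γ}
    (h : QC d κ (orb P 1 x0)) (g : Γ) : QC d κ (orb P g x0) := by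
  rintro y ⟨p, hp, rfl⟩ y' ⟨p', hp', rfl⟩ u hu
  have e1 : (g⁻¹ • ((g * p) • x0) : V) = (1 * p) • x0 := by
    rw [smul_smul]; congr 1; group
  have e2 : (g⁻¹ • ((g * p') • x0) : V) = (1 * p') • x0 := by
    rw [smul_smul]; congr 1; group
  have hu' : Btw d ((1 * p) • x0) (g⁻¹ • u) ((1 * p') • x0) := by
    unfold Btw at *
    rw [← e1, ← e2, hinv, hinv, hinv]
    exact hu
  obtain ⟨w, ⟨r, hr, rfl⟩, hw⟩ := h _ ⟨p, hp, rfl⟩ _ ⟨p', hp', rfl⟩ _ hu'
  refine ⟨(g * r) • x0, ⟨r, hr, rfl⟩, ?_⟩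
  have e3 : ((g * r) • x0 : V) = g • ((1 * r) • x0) := by
    rw [smul_smul]; congr 1; group
  have e4 : u = g • (g⁻¹ • u) := by rw [smul_smul]; simp
  rw [e3, e4, hinv]
  exact hw

end PH_

open PH_ in
theorem p_PH (hCNT : T_CNT) : T_PH := by
  intro Γ _ V _ d x0 hG κ
  obtain ⟨δ, hδ⟩ := hG.thin
  have hd := hG.geo
  have hC : Four d (4 * δ + 2) := four_of_thin hd hδ
  generalize 4 * δ + 2 = C at hC
  obtain ⟨N, hN, -⟩ := hCNT Γ V d x0 hG (2 * κ + 2 * (5 * C + 4 * κ + 2) + C)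
  refine ⟨N * (2 * κ + 1) + (3 * C + 2 * κ + 1), ?_⟩
  intro P Q hP hQ g g' z hz z' hz' y y' hy hy' hM
  have hPg := qc_orb hG.inv hP g
  have hQg := qc_orb hG.inv hQ g'
  have h3 := P3 hd hC hPg hy hy' (by omega)
  obtain ⟨γ, g0, g1, g2⟩ := exists_geod hd y y'
  have key : ∀ i : ℕ, i ≤ d y y' → ∃ p ∈ P, ∃ q ∈ Q, d (γ i) ((g * p) • x0) ≤ κ ∧
      d x0 (((g * p)⁻¹ * (g' * q)) • x0) ≤ 2 * κ + 2 * (5 * C + 4 * κ + 2) + C := by
    intro i hi
    have a1 : d y (γ i) = i := by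
      have := g2 0 i (by omega) hi
      rw [g0] at this
      simpa using this
    have a2 : d (γ i) y' = d y y' - i := by
      have := g2 i _ hi le_rfl
      rwa [g1] at this
    -- the point `w` of a geodesic from `z` to `z'`
    have b1 : d z (γ i) + d (γ i) z' ≤ d z z' + (5 * C + 4 * κ + 2) := by
      have := hd.tri z y (γ i)
      have := hd.tri (γ i) y' z'
      omega
    obtain ⟨w, w1, w2⟩ := hd.geod z z' (min (d z (γ i)) (d z z')) (min_le_right _ _)
    have b2 : d (γ i) w ≤ (5 * C + 4 * κ + 2) + (5 * C + 4 * κ + 2) + C := by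
      refine fellow hd hC b1 (by omega) ?_ ?_
      · rw [w1]
        rcases le_total (d z (γ i)) (d z z') with h | h
        · rw [min_eq_left h]; omega
        · rw [min_eq_right h]; omega
      · rw [w1]
        have := min_le_left (d z (γ i)) (d z z')
        omega
    obtain ⟨a, ⟨p, hp, rfl⟩, ha⟩ := hPg y hy.1 y' hy'.1 (γ i) (by unfold Btw; omega)
    obtain ⟨b, ⟨q, hq, rfl⟩, hb⟩ := hQg z hz z' hz' w (by unfold Btw; omega)
    refine ⟨p, hp, q, hq, ha, ?_⟩
    have e1 : d x0 (((g * p)⁻¹ * (g' * q)) • x0) = d ((g * p) • x0) ((g' * q) • x0) := by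
      rw [← hG.inv (g * p) x0 (((g * p)⁻¹ * (g' * q)) • x0), smul_smul, mul_inv_cancel_left]
    rw [e1]
    have t1 := hd.tri ((g * p) • x0) (γ i) ((g' * q) • x0)
    have t2 := hd.tri (γ i) w ((g' * q) • x0)
    have t3 := hd.symm ((g * p) • x0) (γ i)
    omega
  choose! p hp q hq h1 h2 using key
  obtain ⟨hfin, hcard⟩ := hN x0 x0
  -- pigeonhole
  have hmaps : ∀ j ∈ Finset.range (N + 1),
      (g * p (j * (2 * κ + 1)))⁻¹ * (g' * q (j * (2 * κ + 1))) ∈ hfin.toFinset := by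
    intro j hj
    rw [Set.Finite.mem_toFinset]
    have hj' : j ≤ N := by
      have := Finset.mem_range.1 hj
      omega
    have : j * (2 * κ + 1) ≤ N * (2 * κ + 1) := Nat.mul_le_mul_right _ hj'
    exact h2 _ (by omega)
  obtain ⟨j, hj, k, hk, hjk, heq⟩ := Finset.exists_ne_map_eq_of_card_lt_of_maps_to
    (s := Finset.range (N + 1)) (t := hfin.toFinset) (by
      rw [← Set.ncard_eq_toFinset_card _ hfin, Finset.card_range]
      omega) hmaps
  -- distinct indices give distinct elements of `P`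
  have hne : ∀ j k, j < k → k ≤ N → p (j * (2 * κ + 1)) ≠ p (k * (2 * κ + 1)) := by
    intro j k hjk hk hpp
    have l1 : k * (2 * κ + 1) ≤ N * (2 * κ + 1) := Nat.mul_le_mul_right _ hk
    have l2 : (j + 1) * (2 * κ + 1) ≤ k * (2 * κ + 1) := Nat.mul_le_mul_right _ hjk
    have l3 : (j + 1) * (2 * κ + 1) = j * (2 * κ + 1) + (2 * κ + 1) := by ring
    have m1 := h1 (j * (2 * κ + 1)) (by omega)
    have m2 := h1 (k * (2 * κ + 1)) (by omega)
    rw [← hpp] at m2
    have m3 := g2 (j * (2 * κ + 1)) (k * (2 * κ + 1)) (by omega) (by omega)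
    have m4 := hd.tri (γ (j * (2 * κ + 1))) ((g * p (j * (2 * κ + 1))) • x0)
      (γ (k * (2 * κ + 1)))
    have m5 := hd.symm ((g * p (j * (2 * κ + 1))) • x0) (γ (k * (2 * κ + 1)))
    omega
  have hjN : j ≤ N := by
    have := Finset.mem_range.1 hj
    omega
  have hkN : k ≤ N := by
    have := Finset.mem_range.1 hk
    omega
  have hpne : p (j * (2 * κ + 1)) ≠ p (k * (2 * κ + 1)) := by
    rcases lt_or_gt_of_ne hjk with h | h
    · exact hne j k h hkN
    · exact (hne k j h hjN).symm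
  have hjT : j * (2 * κ + 1) ≤ d y y' := by
    have : j * (2 * κ + 1) ≤ N * (2 * κ + 1) := Nat.mul_le_mul_right _ hjN
    omega
  have hkT : k * (2 * κ + 1) ≤ d y y' := by
    have : k * (2 * κ + 1) ≤ N * (2 * κ + 1) := Nat.mul_le_mul_right _ hkN
    omega
  refine ⟨p (k * (2 * κ + 1)) * (p (j * (2 * κ + 1)))⁻¹,
    P.mul_mem (hp _ hkT) (P.inv_mem (hp _ hjT)),
    q (k * (2 * κ + 1)) * (q (j * (2 * κ + 1)))⁻¹,
    Q.mul_mem (hq _ hkT) (Q.inv_mem (hq _ hjT)), ?_, ?_⟩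
  · intro h
    exact hpne (mul_inv_eq_one.1 h).symm
  · generalize p (k * (2 * κ + 1)) = pk at *
    generalize p (j * (2 * κ + 1)) = pj at *
    generalize q (k * (2 * κ + 1)) = qk at *
    generalize q (j * (2 * κ + 1)) = qj at *
    have e : pj⁻¹ * g⁻¹ * g' * qj = pk⁻¹ * g⁻¹ * g' * qk := by
      have := heq
      simp only [mul_inv_rev] at this
      simpa [mul_assoc] using this
    calc g * (pk * pj⁻¹) * g⁻¹ = g * pk * (pj⁻¹ * g⁻¹ * g' * qj) * qj⁻¹ * g'⁻¹ := by group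
      _ = g * pk * (pk⁻¹ * g⁻¹ * g' * qk) * qj⁻¹ * g'⁻¹ := by rw [e]
      _ = g' * (qk * qj⁻¹) * g'⁻¹ := by group

end TK
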