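import Pool.Agent.TK.Targets2

set_option autoImplicit false
set_option linter.unusedVariables false

/-!
# Project TK: entry QBO, overlaps of the tree-like set with a quasiconvex set
-/

namespace TK

open Subgroup

namespace QBO_

variable {V : Type} {d : V → V → ℕ}

/-- points almost between `u` and `u'`, at a position between the two projections, are close to
`Y` -/
theorem close {C κ : ℕ} (hd : Geo d) (hC : Four d C) {Y : Set V} (hY : QC d κ Y)
    {u u' q q' x : V} {c e e' : ℕ} (hq : q ∈ Y) (hq' : q' ∈ Y)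
    (h3 : d u q + d q q' + d q' u' ≤ d u u' + c)
    (hx : d u x + d x u' ≤ d u u' + e) (h1 : d u q ≤ d u x + e') (h2 : d u x ≤ d u q' + e') :
    ∃ z ∈ Y, d x z ≤ e + 2 * c + e' + C + κ := by
  obtain ⟨p, hp1, hp2⟩ := hd.geod q q' (min (d u x - d u q) (d q q')) (min_le_right _ _)
  obtain ⟨z, hz, hpz⟩ := hY q hq q' hq' p (by unfold Btw; omega)
  refine ⟨z, hz, ?_⟩
  have t1 := hd.tri u q p
  have t2 := hd.tri p q' u'
  have t3 := hd.tri u p u'
  have t4 := hd.tri u q q'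
  have hfp : d u p + d p u' ≤ d u u' + (e + c) := by omega
  have hfx : d u x + d x u' ≤ d u u' + (e + c) := by omega
  have a1 : d u x ≤ d u p + (e' + c) := by omega
  have a2 : d u p ≤ d u x + (e' + c) := by omega
  have hf := fellow hd hC hfx hfp a1 a2
  have t5 := hd.tri x p z
  omega

/-- corner lemma -/
theorem corner (hd : Geo d) {A0 A1 A1' x x' : V} {E1 : ℕ} (hx : Btw d A0 x A1)
    (hx' : Btw d A0 x' A1') (h : d A1 A0 + d A0 A1' ≤ d A1 A1' + E1) :
    d x A0 + d A0 x' ≤ d x x' + E1 := by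
  unfold Btw at hx hx'
  have t1 := hd.tri A1 x A1'
  have t2 := hd.tri x x' A1'
  have s1 := hd.symm A0 x
  have s2 := hd.symm A1 x
  have s3 := hd.symm A1 A0
  omega

/-- there is no corner deep inside the overlap -/
theorem nocorner {G : Type} [Group G] [MulAction G V] {C κ B E2 E3 c3 l' l : ℕ} (hd : Geo d)
    (hC : Four d C) (hinv : ∀ (g : G) x y, d (g • x) (g • y) = d x y) {Y : Set V} (hY : QC d κ Y)
    {s : G} {P A1 x x' u u' q q' : V} (hsP : s • P = P) (hx : Btw d P x A1)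
    (hx' : Btw d P x' (s • A1))
    (h1 : d u x + d x P ≤ d u P + E2) (h2 : d u P + d P u' ≤ d u u' + E2)
    (h3 : d P x' + d x' u' ≤ d P u' + E2)
    (hE3 : E3 = 4 * E2 + 2 * c3 + C + κ) (hl' : l' = B + 6 * E3 + 2 * C + 1) (hl : l = l' + c3)
    (hb : l' ≤ d x P) (hb' : l' ≤ d P x') (hq : q ∈ Y) (hq' : q' ∈ Y)
    (hqq : d u q + d q q' + d q' u' ≤ d u u' + c3)
    (hYs : ∀ z ∈ Y, ∀ z' ∈ Y, ∀ w w' : V, Near d Y (s • z) w → Near d Y (s • z') w' → d w w' ≤ B)
    (hp1 : d u q + l ≤ d u P) (hp2 : d u P + l ≤ d u q') : False := by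
  -- the points `v₋` and `v₊`
  have sxP := hd.symm x P
  obtain ⟨v, hv1, hv2⟩ := hd.geod P x l' (by omega)
  obtain ⟨v', hv'1, hv'2⟩ := hd.geod P x' l' hb'
  have sPv := hd.symm P v
  have sxv := hd.symm v x
  have t1 := hd.tri u x v
  have t2 := hd.tri v P u'
  have t3 := hd.tri u v P
  have t4 := hd.tri u P v'
  have t5 := hd.tri v' x' u'
  have t6 := hd.tri u v' u'
  obtain ⟨z1, hz1, dz1⟩ := close (e := 2 * E2) (e' := 2 * E2) hd hC hY hq hq' hqq (x := v)
    (by omega) (by omega) (by omega)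
  obtain ⟨z2, hz2, dz2⟩ := close (e := 2 * E2) (e' := 2 * E2) hd hC hY hq hq' hqq (x := v')
    (by omega) (by omega) (by omega)
  obtain ⟨z0, hz0, dz0⟩ := close (e := 2 * E2) (e' := 2 * E2) hd hC hY hq hq' hqq (x := P)
    (by omega) (by omega) (by omega)
  -- `s v` and `v'` are close
  have hbv : Btw d P v A1 := (hx.trans_left hd (by unfold Btw; omega)).1
  have hbv' : Btw d P v' (s • A1) := (hx'.trans_left hd (by unfold Btw; omega)).1
  have hbsv : Btw d P (s • v) (s • A1) := by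
    have e1 := hinv s P v
    have e2 := hinv s v A1
    have e3 := hinv s P A1
    rw [hsP] at e1 e3
    unfold Btw at hbv ⊢
    omega
  have hsv : d P (s • v) = l' := by
    have e1 := hinv s P v
    rw [hsP] at e1
    omega
  have hfe : d (s • v) v' ≤ 0 + 0 + C := by
    unfold Btw at hbsv hbv'
    exact fellow hd hC (x := P) (y := s • A1) (by omega) (by omega) (by omega) (by omega)
  -- nearest points
  obtain ⟨w, hw⟩ := exists_near ⟨z0, hz0⟩ (s • z0)
  obtain ⟨w', hw'⟩ := exists_near ⟨z0, hz0⟩ (s • z1)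
  have hB := hYs z0 hz0 z1 hz1 w w' hw hw'
  have n1 := hw.2 z0 hz0
  have n2 := hw'.2 z2 hz2
  have i1 : d P (s • z0) = d P z0 := by
    have e1 := hinv s P z0
    rw [hsP] at e1
    exact e1
  have i2 : d (s • v) (s • z1) = d v z1 := hinv s v z1
  have r1 := hd.tri (s • z0) P z0
  have r2 := hd.symm (s • z0) P
  have r3 := hd.tri P (s • z0) w
  have r4 := hd.tri (s • z1) (s • v) z2
  have r5 := hd.symm (s • z1) (s • v)
  have r6 := hd.tri (s • v) v' z2
  have r7 := hd.tri v' (s • z1) w'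
  have r8 := hd.tri v' (s • v) (s • z1)
  have r9 := hd.symm v' (s • v)
  have r10 := hd.tri P w v'
  have r11 := hd.tri w w' v'
  have r12 := hd.symm w' v'
  omega

/-- the final estimate -/
theorem final {C κ E2 E3 c3 l : ℕ} (hd : Geo d) (hC : Four d C) {Y : Set V} (hY : QC d κ Y)
    {A0 A1 x x' u u' q q' r r' : V} (hx : Btw d A0 x A1) (hx' : Btw d A0 x' A1)
    (hle : d A0 x ≤ d A0 x')
    (h1 : d u x + d x x' ≤ d u x' + E2) (h2 : d u x' + d x' u' ≤ d u u' + E2)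
    (hE3 : E3 = 4 * E2 + 2 * c3 + C + κ) (hq : q ∈ Y) (hq' : q' ∈ Y)
    (hqq : d u q + d q q' + d q' u' ≤ d u u' + c3)
    (hD : 2 * l + 2 * c3 ≤ d q q')
    (hp1 : d u x ≤ d u q + l) (hp2 : d u q' ≤ d u x' + l + c3)
    (hr : Near d Y A0 r) (hr' : Near d Y A1 r') :
    d q q' ≤ d r r' + 2 * c3 + 2 * l + C + 2 * E3 := by
  have a0 := hd.tri u q' u'
  have b0 := hd.tri u x x'
  obtain ⟨f, hf1, hf2⟩ := hd.geod x x' (d u q - d u x) (by omega)
  obtain ⟨f', hf1', hf2'⟩ := hd.geod x' x (d u x' - d u q') (by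
    have := hd.symm x' x
    omega)
  have sx := hd.symm x' x
  have t1 := hd.tri u x f
  have t2 := hd.tri f x' u'
  have t3 := hd.tri u f x'
  have s1 := hd.symm f' x'
  have s2 := hd.symm f' x
  have t1' := hd.tri u x f'
  have t2' := hd.tri f' x' u'
  have t3' := hd.tri u f' x'
  obtain ⟨z, hz, dz⟩ := close (e := 2 * E2) (e' := 2 * E2) hd hC hY hq hq' hqq (x := f)
    (by omega) (by omega) (by omega)
  obtain ⟨z', hz', dz'⟩ := close (e := 2 * E2) (e' := 2 * E2) hd hC hY hq hq' hqq (x := f')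
    (by omega) (by omega) (by omega)
  unfold Btw at hx hx'
  have four := hC A0 A1 x x'
  have v1 := hd.symm A1 x
  have v2 := hd.symm A1 x'
  have n1 := hr.2 z hz
  have n2 := hr'.2 z' hz'
  have m1 := hd.tri A0 f z
  have m2 := hd.tri A0 x f
  have m3 := hd.tri A1 f' z'
  have m4 := hd.tri A1 x' f'
  have m5 := hd.tri A0 r A1
  have m6 := hd.tri r r' A1
  have m7 := hd.symm r' A1
  omega

end QBO_

open QBO_ in
theorem p_QBO (hPATH : T_PATH) (hBRK : T_BRK) : T_QBO := by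
  intro δ κ B E1 C1
  obtain ⟨C, hCd⟩ : ∃ C, C = 4 * δ + 2 := ⟨_, rfl⟩
  obtain ⟨c3, hc3⟩ : ∃ c3, c3 = 5 * C + 4 * κ + 2 := ⟨_, rfl⟩
  obtain ⟨E2, hE2⟩ : ∃ E2, E2 = E1 + 2 * C := ⟨_, rfl⟩
  obtain ⟨E3, hE3⟩ : ∃ E3, E3 = 4 * E2 + 2 * c3 + C + κ := ⟨_, rfl⟩
  obtain ⟨l', hl'⟩ : ∃ l', l' = B + 6 * E3 + 2 * C + 1 := ⟨_, rfl⟩
  obtain ⟨l, hl⟩ : ∃ l, l = l' + c3 := ⟨_, rfl⟩
  refine ⟨l + E2 + 1, 2 * C1 + 4 * (2 * c3 + 2 * l + C + 2 * E3), ?_⟩
  intro V G _ _ d hd hthin hinv a b ca c' haca hbc' hEa hEb hM0 Y ℓ hY hℓ hseg hproj u hu u' hu'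
    q q' hq hq'
  have hC : Four d C := by rw [hCd]; exact four_of_thin hd hthin
  by_contra hcon
  push Not at hcon
  have hP3 := P3 hd hC hY hq hq' (by omega)
  rw [← hc3] at hP3
  obtain ⟨n, y, g, hy0, hyn, hg, hcor, hint⟩ := hPATH V G d hd hinv a b ca c' haca hbc' u hu u' hu'
  have hai : ∀ i : ℤ, a ^ i • ca = ca := by
    intro i
    have : a ∈ MulAction.stabilizer G ca := haca
    exact (MulAction.stabilizer G ca).zpow_mem this i
  have hbi : ∀ i : ℤ, b ^ i • c' = c' := by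
    intro i
    have : b ∈ MulAction.stabilizer G c' := hbc'
    exact (MulAction.stabilizer G c').zpow_mem this i
  -- uniform description of the corners
  have hcorner : ∀ k, k + 1 ≤ n → ∃ (s : G) (A1 : V), s • y (k+1) = y (k+1) ∧
      Btw d (y (k+1)) (y k) A1 ∧ Btw d (y (k+1)) (y (k+2)) (s • A1) ∧
      d A1 (y (k+1)) + d (y (k+1)) (s • A1) ≤ d A1 (s • A1) + E1 ∧
      (∀ z ∈ Y, ∀ z' ∈ Y, ∀ w w' : V, Near d Y (s • z) w → Near d Y (s • z') w' → d w w' ≤ B) := by
    intro k hk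
    obtain ⟨gk, gk1, gk2⟩ := hg k (by omega)
    obtain ⟨gk', gk1', gk2'⟩ := hg (k+1) hk
    rcases hcor k hk with ⟨e1, e2, i, hi, hgi⟩ | ⟨e1, e2, i, hi, hgi⟩
    · refine ⟨g k * a ^ i * (g k)⁻¹, g k • c', ?_, ?_, ?_, ?_, ?_⟩
      · rw [e1, ← mul_smul, inv_mul_cancel_right, mul_smul, hai]
      · rw [← e1] at gk1; exact gk1
      · rw [← mul_smul, inv_mul_cancel_right, ← hgi]
        rw [← e2] at gk1' gk2'
        exact gk2'
      · have h := hEa i hi
        rw [← hinv (g k) c' ca, ← hinv (g k) ca, ← hinv (g k) c' (a ^ i • c')] at h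
        rw [← mul_smul (g k * a ^ i * (g k)⁻¹), inv_mul_cancel_right, e1, mul_smul]
        exact h
      · exact hproj (g k) gk _ ⟨i, Or.inl ⟨hi, rfl⟩⟩
    · refine ⟨g k * b ^ i * (g k)⁻¹, g k • ca, ?_, ?_, ?_, ?_, ?_⟩
      · rw [e1, ← mul_smul, inv_mul_cancel_right, mul_smul, hbi]
      · rw [← e1] at gk1; exact gk1.symm hd
      · rw [← mul_smul, inv_mul_cancel_right, ← hgi]
        rw [← e2] at gk1' gk2'
        exact gk2'.symm hd
      · have h := hEb i hi
        rw [← hinv (g k) ca c', ← hinv (g k) c', ← hinv (g k) ca (b ^ i • ca)] at h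
        rw [← mul_smul (g k * b ^ i * (g k)⁻¹), inv_mul_cancel_right, e1, mul_smul]
        exact h
      · exact hproj (g k) gk _ ⟨i, Or.inr ⟨hi, rfl⟩⟩
  have hlen : ∀ k, 1 ≤ k → k + 1 ≤ n → l + E2 + 1 ≤ d (y k) (y (k+1)) := by
    intro k hk1 hk2
    rcases hint k hk1 hk2 with ⟨e1, e2⟩ | ⟨e1, e2⟩
    · rw [e1, e2, hinv]; exact hM0
    · rw [e1, e2, hinv, hd.symm]; exact hM0
  obtain ⟨hexc, -⟩ := hBRK V d C E1 (n + 1) y hd hC (by
      intro i hi
      obtain ⟨s, A1, h1, h2, h3, h4, h5⟩ := hcorner i (by omega)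
      exact corner hd h2 h3 h4) (by
      intro i hi1 hi2
      have := hlen i hi1 (by omega)
      omega)
  rw [← hE2] at hexc
  have hexc1 : ∀ k, k ≤ n → d u (y k) + d (y k) (y (k+1)) ≤ d u (y (k+1)) + E2 := by
    intro k hk
    have := hexc 0 k (k+1) (by omega) (by omega) (by omega)
    rw [hy0] at this
    exact this
  have hexc2 : ∀ k, k ≤ n + 1 → d u (y k) + d (y k) u' ≤ d u u' + E2 := by
    intro k hk
    have := hexc 0 k (n+1) (by omega) (by omega) (by omega)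
    rw [hy0, hyn] at this
    exact this
  have hexc3 : ∀ k, k ≤ n → d (y k) (y (k+1)) + d (y (k+1)) u' ≤ d (y k) u' + E2 := by
    intro k hk
    have := hexc k (k+1) (n+1) (by omega) (by omega) (by omega)
    rw [hyn] at this
    exact this
  have a0 := hd.tri u q' u'
  have a1 := hd.tri u q q'
  -- step 1: no corner deep inside the overlap
  have step1 : ∀ k, k + 1 ≤ n → d u q + l ≤ d u (y (k+1)) → d u (y (k+1)) + l ≤ d u q' →
      False := by
    intro k hk h1 h2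
    obtain ⟨s, A1, g1, g2, g3, g4, g5⟩ := hcorner k hk
    have x1 := hexc1 k (by omega)
    have x2 := hexc2 (k+1) (by omega)
    have x3 := hexc3 (k+1) hk
    have hb : l' ≤ d (y k) (y (k+1)) := by
      rcases Nat.eq_zero_or_pos k with hk0 | hk0
      · subst hk0
        rw [hy0]; omega
      · have := hlen k hk0 hk; omega
    have hb' : l' ≤ d (y (k+1)) (y (k+2)) := by
      by_cases hkn : k + 2 ≤ n
      · have h := hlen (k+1) (by omega) hkn
        have h' : l + E2 + 1 ≤ d (y (k+1)) (y (k+2)) := h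
        omega
      · have : k + 2 = n + 1 := by omega
        rw [this, hyn]
        have t := hd.tri u (y (k+1)) u'
        omega
    exact nocorner hd hC hinv hY g1 g2 g3 x1 x2 x3 hE3 hl' hl hb hb' hq.1 hq'.1 hP3 g5 h1 h2
  -- step 2: the last corner before the overlap
  obtain ⟨k, hk, hk1, hk2⟩ : ∃ k, k ≤ n ∧ d u (y k) ≤ d u q + l ∧
      d u q' ≤ d u (y (k+1)) + l + c3 := by
    classical
    have hex : ∃ k, k ≤ n ∧ d u (y k) ≤ d u q + l := ⟨0, by omega, by rw [hy0, hd.self]; omega⟩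
    obtain ⟨k, ⟨hk, hk1⟩, hmax⟩ : ∃ k, (k ≤ n ∧ d u (y k) ≤ d u q + l) ∧
        ∀ m, m ≤ n → d u (y m) ≤ d u q + l → m ≤ k := by
      refine ⟨Nat.findGreatest (fun m => m ≤ n ∧ d u (y m) ≤ d u q + l) n, ?_, ?_⟩
      · exact Nat.findGreatest_spec (P := fun m => m ≤ n ∧ d u (y m) ≤ d u q + l) (m := 0)
          (by omega) ⟨by omega, by rw [hy0, hd.self]; omega⟩
      · intro m hm hm2
        exact Nat.le_findGreatest hm ⟨hm, hm2⟩
    refine ⟨k, hk, hk1, ?_⟩
    by_cases hkn : k + 1 ≤ n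
    · have h1 : d u q + l ≤ d u (y (k+1)) := by
        by_contra hc
        have := hmax (k+1) hkn (by omega)
        omega
      by_contra hc
      exact step1 k hkn h1 (by omega)
    · have : k + 1 = n + 1 := by omega
      rw [this, hyn]
      omega
  -- conclusion
  obtain ⟨gk, gk1, gk2⟩ := hg k hk
  obtain ⟨r, hr⟩ := exists_near ⟨q, hq.1⟩ (g k • ca)
  obtain ⟨r', hr'⟩ := exists_near ⟨q, hq.1⟩ (g k • c')
  have hrr := hseg (g k) gk r r' hr hr'
  have x1 := hexc1 k hk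
  have x2 := hexc2 (k+1) (by omega)
  by_cases hle : d (g k • ca) (y k) ≤ d (g k • ca) (y (k+1))
  · have := final hd hC hY gk1 gk2 hle x1 x2 hE3 hq.1 hq'.1 hP3 (by omega) hk1 hk2 hr hr'
    omega
  · have s1 := hd.symm (g k • c') (y k)
    have s2 := hd.symm (g k • c') (y (k+1))
    have hle' : d (g k • c') (y k) ≤ d (g k • c') (y (k+1)) := by
      unfold Btw at gk1 gk2
      omega
    have := final hd hC hY (gk1.symm hd) (gk2.symm hd) hle' x1 x2 hE3 hq.1 hq'.1 hP3 (by omega)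
      hk1 hk2 hr' hr
    have s3 := hd.symm r r'
    omega

end TK
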