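import Pool.Agent.TK.Targets2

set_option autoImplicit false
set_option linter.unusedVariables false

/-!
# TK-QBQ: the tree-like set is quasiconvex
-/

namespace TK

open Subgroup

namespace QBQ_

variable {V : Type} {d : V → V → ℕ}

/-- a corner -/
theorem corner {E1 : ℕ} (hd : Geo d) {P A B u w : V} (h : d A P + d P B ≤ d A B + E1)
    (hu : Btw d P u A) (hw : Btw d P w B) : d u P + d P w ≤ d u w + E1 := by
  unfold Btw at hu hw
  have h1 := hd.tri A u B
  have h2 := hd.tri u w B
  have := hd.symm A P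
  have := hd.symm u P
  have := hd.symm A u
  omega

/-- a point between two points of an interval is close to the interval -/
theorem interval {C : ℕ} (hd : Geo d) (hC : Four d C) {X Z α β q : V} (hα : Btw d X α Z)
    (hβ : Btw d X β Z) (hq : Btw d α q β) : ∃ t, Btw d X t Z ∧ d q t ≤ 3 * C := by
  have key : d X q + d q Z ≤ d X Z + C := by
    unfold Btw at hα hβ hq
    have h1 := hC α β X Z
    have := hd.symm α X
    have := hd.symm β X
    have := hd.symm α q
    have := hd.symm β q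
    have := hd.symm β α
    have := hd.tri X α q
    have := hd.tri X β q
    have := hd.tri q β Z
    have := hd.tri q α Z
    omega
  obtain ⟨t, ht1, ht2⟩ := hd.geod X Z (min (d X q) (d X Z)) (min_le_right _ _)
  refine ⟨t, by unfold Btw; omega, ?_⟩
  have h1 := hd.tri X q Z
  have h2 := fellow (c := C) (e := C) hd hC (x := X) (y := Z) (p := q) (q := t) key
    (by omega) (by omega) (by omega)
  omega

end QBQ_

open QBQ_

theorem p_QBQ (hPATH : T_PATH) (hBRK : T_BRK) : T_QBQ := by
  intro δ E1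
  refine ⟨3 * E1 + 7 * (4 * δ + 2) + 3 * (4 * δ + 2), E1 + 2 * (4 * δ + 2) + 1, ?_⟩
  intro V G _ _ d hd hT hinv a b ca c' hca hc' hEa hEb hM u hu u' hu' p hp
  have hC : Four d (4 * δ + 2) := four_of_thin hd hT
  obtain ⟨n, y, g, hy0, hyn, hI, hcor, hint⟩ := hPATH V G d hd hinv a b ca c' hca hc' u hu u' hu'
  have hbrk := hBRK V d (4 * δ + 2) E1 (n + 1) y hd hC (by
    intro i hi
    obtain ⟨-, hi1, -⟩ := hI i (by omega)
    obtain ⟨-, -, hi2⟩ := hI (i + 1) (by omega)
    rcases hcor i (by omega) with ⟨e1, e2, m, hm, e3⟩ | ⟨e1, e2, m, hm, e3⟩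
    · have h1 := hEa m hm
      rw [← hinv (g i) c' ca, ← hinv (g i) ca (a ^ m • c'), ← hinv (g i) c' (a ^ m • c'),
        ← mul_smul, ← e3, ← e1] at h1
      rw [← e1] at hi1
      rw [← e2] at hi2
      exact corner hd h1 hi1 hi2
    · have h1 := hEb m hm
      rw [← hinv (g i) ca c', ← hinv (g i) c' (b ^ m • ca), ← hinv (g i) ca (b ^ m • ca),
        ← mul_smul, ← e3, ← e1] at h1
      rw [← e1] at hi1
      rw [← e2] at hi2
      exact corner hd h1 (hi1.symm hd) (hi2.symm hd)) (by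
    intro i hi1 hi2
    rcases hint i hi1 (by omega) with ⟨e1, e2⟩ | ⟨e1, e2⟩
    · rw [e1, e2, hinv]
      omega
    · rw [e1, e2, hinv, hd.symm]
      omega)
  obtain ⟨j, hj, q, hq, hpq⟩ := hbrk.2 (by omega) p (by rw [hy0, hyn]; exact hp)
  obtain ⟨hg, hj1, hj2⟩ := hI j (by omega)
  obtain ⟨t, ht1, ht2⟩ := interval hd hC hj1 hj2 hq
  refine ⟨t, ⟨g j, hg, ht1⟩, ?_⟩
  have := hd.tri p q t
  omega

end TK
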