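import Pool.Agent.TK.Targets1

set_option autoImplicit false
set_option linter.unusedVariables false

/-!
# Project TK (MP_3ae405_al, `k = 5`): TK-QGEO, the quotient action is geometric
-/

namespace TK

open Subgroup

namespace QGEO_

section

variable {Γ : Type} [Group Γ] {V : Type} [MulAction Γ V]

theorem mem_Yf {e : Γ} {x0 x : V} {j : Γ ⧸ zpowers e} (h : x ∈ Yf e x0 j) :
    ∃ m : ℤ, x = (Quotient.out j * e ^ m) • x0 := by
  obtain ⟨p, hp, hx⟩ := h
  obtain ⟨m, rfl⟩ := mem_zpowers_iff.mp hp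
  exact ⟨m, hx⟩

theorem mk_out_mul (e : Γ) (j : Γ ⧸ zpowers e) (m : ℤ) :
    (QuotientGroup.mk (Quotient.out j * e ^ m) : Γ ⧸ zpowers e) = j := by
  have h : (QuotientGroup.mk (Quotient.out j * e ^ m) : Γ ⧸ zpowers e) =
      QuotientGroup.mk (Quotient.out j) := by
    rw [QuotientGroup.eq]
    have : (Quotient.out j * e ^ m)⁻¹ * Quotient.out j = e ^ (-m) := by
      rw [zpow_neg]; group
    rw [this]
    exact zpow_mem (mem_zpowers e) _
  rw [h]
  exact QuotientGroup.out_eq' j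

theorem finite_trans {x0 : V} (hs : {g : Γ | g • x0 = x0}.Finite) (x : V) :
    {k : Γ | k • x0 = x}.Finite := by
  rcases Set.eq_empty_or_nonempty {k : Γ | k • x0 = x} with h | ⟨k0, hk0⟩
  · rw [h]; exact Set.finite_empty
  · refine (hs.image fun s => k0 * s).subset ?_
    intro k hk
    refine ⟨k0⁻¹ * k, ?_, by simp⟩
    have h1 : k • x0 = x := hk
    have h2 : k0 • x0 = x := hk0
    change (k0⁻¹ * k) • x0 = x0
    rw [mul_smul, h1, ← h2, inv_smul_smul]

theorem finite_apex {e : Γ} {x0 : V} (hs : {g : Γ | g • x0 = x0}.Finite) (x : V) :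
    {j : Γ ⧸ zpowers e | x ∈ Yf e x0 j}.Finite := by
  refine ((finite_trans hs x).image fun k => (QuotientGroup.mk k : Γ ⧸ zpowers e)).subset ?_
  intro j hj
  obtain ⟨m, hm⟩ := mem_Yf hj
  exact ⟨Quotient.out j * e ^ m, hm.symm, mk_out_mul e j m⟩

theorem conj_mem_M {e : Γ} {N : ℕ} {M : Subgroup Γ} (hM : M = normalClosure {e ^ N}) (g : Γ)
    (k : ℤ) : g * e ^ ((N : ℤ) * k) * g⁻¹ ∈ M := by
  subst hM
  have h1 : e ^ N ∈ normalClosure {e ^ N} := subset_normalClosure rfl
  have h2 : e ^ ((N : ℤ) * k) ∈ normalClosure {e ^ N} := by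
    rw [zpow_mul, zpow_natCast]
    exact zpow_mem h1 k
  exact normalClosure_normal.conj_mem _ h2 g

theorem smul_eq_iff_apex {e : Γ} {g : Γ} {j : Γ ⧸ zpowers e} (h : g • j = j) :
    ∃ m : ℤ, g = Quotient.out j * e ^ m * (Quotient.out j)⁻¹ := by
  have h1 : (QuotientGroup.mk (g * Quotient.out j) : Γ ⧸ zpowers e) =
      QuotientGroup.mk (Quotient.out j) := by
    have h2 : (QuotientGroup.mk (Quotient.out j) : Γ ⧸ zpowers e) = j := QuotientGroup.out_eq' j
    calc (QuotientGroup.mk (g * Quotient.out j) : Γ ⧸ zpowers e)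
        = g • (QuotientGroup.mk (Quotient.out j) : Γ ⧸ zpowers e) := rfl
      _ = QuotientGroup.mk (Quotient.out j) := by rw [h2, h]
  rw [QuotientGroup.eq] at h1
  obtain ⟨m, hm⟩ := mem_zpowers_iff.mp h1
  refine ⟨-m, ?_⟩
  rw [zpow_neg, hm]
  group

end

section

variable {Γ : Type} [Group Γ] {P P' : Type} [MulAction Γ P] {M : Subgroup Γ} [M.Normal]
  [MulAction (Γ ⧸ M) P'] {D : P → P → ℕ} {d' : P' → P' → ℕ} {q : P → P'}

theorem q_smul (hq : IsQuot D M d' q) {r : Γ} (hr : r ∈ M) (u : P) : q (r • u) = q u := by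
  rw [hq.equi, (QuotientGroup.eq_one_iff r).mpr hr, one_smul]

theorem lift_nb (hq : IsQuot D M d' q) (u : P) {y' : P'} (h : d' (q u) y' ≤ 1) :
    ∃ w, D u w ≤ 1 ∧ q w = y' := by
  obtain ⟨w0, rfl⟩ := hq.surj y'
  obtain ⟨r, hr, he⟩ := hq.att u w0
  exact ⟨r • w0, by rw [← he]; exact h, q_smul hq hr w0⟩

theorem ball_finite (hg : Geo d') (h1 : ∀ x : P', {y | d' x y ≤ 1}.Finite) (x : P') (n : ℕ) :
    {y | d' x y ≤ n}.Finite := by
  induction n with
  | zero => exact (h1 x).subset fun y hy => le_trans (b := 0) hy (Nat.zero_le 1)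
  | succ n ih =>
    refine (ih.biUnion fun z _ => h1 z).subset ?_
    intro y hy
    have hy' : d' x y ≤ n + 1 := hy
    rw [Set.mem_iUnion₂]
    rcases Nat.lt_or_ge (d' x y) (n + 1) with h | h
    · refine ⟨y, Nat.lt_succ_iff.mp h, ?_⟩
      change d' y y ≤ 1
      rw [hg.self]; omega
    · obtain ⟨z, hz1, hz2⟩ := hg.geod x y n (by omega)
      refine ⟨z, hz1.le, ?_⟩
      change d' z y ≤ 1
      omega

theorem stab_sub (hq : IsQuot D M d' q) (u : P) :
    {g : Γ ⧸ M | g • q u = q u} ⊆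
      (fun g : Γ => (QuotientGroup.mk g : Γ ⧸ M)) '' {g : Γ | g • u = u} := by
  intro gb hgb
  obtain ⟨g, rfl⟩ := QuotientGroup.mk_surjective gb
  have h1 : (QuotientGroup.mk g : Γ ⧸ M) • q u = q u := hgb
  rw [← hq.equi] at h1
  obtain ⟨r, hr, he⟩ := hq.fib u (g • u) h1.symm
  refine ⟨r⁻¹ * g, ?_, ?_⟩
  · change (r⁻¹ * g) • u = u
    rw [mul_smul, he, inv_smul_smul]
  · change ((r⁻¹ * g : Γ) : Γ ⧸ M) = (g : Γ ⧸ M)
    rw [QuotientGroup.mk_mul, (QuotientGroup.eq_one_iff (r⁻¹)).mpr (M.inv_mem hr), one_mul]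

end

end QGEO_

open QGEO_ in
/-- TK-QGEO -/
theorem p_QGEO (hCINV : T_CINV) (hYR : T_YR) : T_QGEO := by
  intro Γ _ V _ d x0 hact e N hN D hcone M _ hM P' _ d' q hq hthin
  have hcinv := (hCINV V (Γ ⧸ zpowers e) d (Yf e x0) D hact.geo hcone).1
  have hmod : ∀ m : ℤ, ∃ m0 : ℕ, m0 < N ∧ ∃ k : ℤ, m = m0 + (N : ℤ) * k := by
    intro m
    have hN' : (0 : ℤ) < N := by exact_mod_cast hN
    refine ⟨(m % N).toNat, ?_, m / N, ?_⟩
    · have h1 := Int.emod_nonneg m hN'.ne'
      have h2 := Int.emod_lt_of_pos m hN'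
      omega
    · rw [Int.toNat_of_nonneg (Int.emod_nonneg m hN'.ne')]
      exact (Int.emod_add_mul_ediv m N).symm
  -- balls of radius one
  have hnb : ∀ u : V ⊕ (Γ ⧸ zpowers e), (q '' {w | D u w ≤ 1}).Finite := by
    intro u
    rcases u with x | j
    · refine Set.Finite.image q ?_
      refine (((hact.ball x 1).image Sum.inl).union
        ((finite_apex (e := e) (hact.stab x0) x).image Sum.inr)).subset ?_
      intro w hw
      have hw' : D (Sum.inl x) w ≤ 1 := hw
      rcases w with y | i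
      · left
        refine ⟨y, ?_, rfl⟩
        change d x y ≤ 1
        rcases Nat.le_one_iff_eq_zero_or_eq_one.mp hw' with h | h
        · have h2 : x = y := Sum.inl_injective (hcone.geo.eq _ _ h)
          rw [h2, hact.geo.self]; omega
        · rw [(hcone.vv x y).mp h]
      · right
        refine ⟨i, ?_, rfl⟩
        rcases Nat.le_one_iff_eq_zero_or_eq_one.mp hw' with h | h
        · exact absurd (hcone.geo.eq _ _ h) (by simp)
        · exact (hcone.vj x i).mp h
    · refine ((Set.finite_singleton (q (Sum.inr j))).union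
        ((Set.finite_lt_nat N).image
          fun m : ℕ => q (Sum.inl ((Quotient.out j * e ^ m) • x0)))).subset ?_
      rintro _ ⟨w, hw, rfl⟩
      have hw' : D (Sum.inr j) w ≤ 1 := hw
      rcases w with y | i
      · right
        rcases Nat.le_one_iff_eq_zero_or_eq_one.mp hw' with h | h
        · exact absurd (hcone.geo.eq _ _ h) (by simp)
        · rw [hcone.geo.symm] at h
          obtain ⟨m, hm⟩ := mem_Yf ((hcone.vj y j).mp h)
          obtain ⟨m0, hm0, k, hk⟩ := hmod m
          refine ⟨m0, hm0, ?_⟩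
          have h1 : (Sum.inl y : V ⊕ (Γ ⧸ zpowers e)) =
              (Quotient.out j * e ^ ((N : ℤ) * k) * (Quotient.out j)⁻¹) •
                (Sum.inl ((Quotient.out j * e ^ m0) • x0) : V ⊕ (Γ ⧸ zpowers e)) := by
            rw [Sum.smul_inl, hm, smul_smul]
            congr 2
            rw [hk, zpow_add, zpow_natCast]
            have hc : Commute (e ^ m0) (e ^ ((N : ℤ) * k)) :=
              (Commute.refl e).pow_left m0 |>.zpow_right _
            rw [hc.eq]
            group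
          change q (Sum.inl ((Quotient.out j * e ^ m0) • x0)) = q (Sum.inl y)
          rw [h1]
          exact (q_smul hq (conj_mem_M hM _ k) _).symm
      · left
        rcases Nat.le_one_iff_eq_zero_or_eq_one.mp hw' with h | h
        · rw [hcone.geo.eq _ _ h]; rfl
        · exact absurd h (hcone.jj j i)
  have hball1 : ∀ x : P', {y | d' x y ≤ 1}.Finite := by
    intro x
    obtain ⟨u, rfl⟩ := hq.surj x
    refine (hnb u).subset ?_
    intro y' hy'
    obtain ⟨w, hw1, hw2⟩ := lift_nb hq u hy'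
    exact ⟨w, hw1, hw2⟩
  refine ⟨hq.geo, hthin, hq.inv, ball_finite hq.geo hball1, ?_, ?_⟩
  · -- stabilizers
    intro x
    obtain ⟨u, rfl⟩ := hq.surj x
    refine Set.Finite.subset ?_ (stab_sub hq u)
    rcases u with x | j
    · refine ((hact.stab x).image fun g : Γ => (QuotientGroup.mk g : Γ ⧸ M)).subset ?_
      refine Set.image_mono ?_
      intro g hg
      have hg' : g • (Sum.inl x : V ⊕ (Γ ⧸ zpowers e)) = Sum.inl x := hg
      rw [Sum.smul_inl] at hg'
      exact Sum.inl_injective hg'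
    · refine ((Set.finite_lt_nat N).image
        fun m : ℕ => (QuotientGroup.mk (Quotient.out j * e ^ m * (Quotient.out j)⁻¹) :
          Γ ⧸ M)).subset ?_
      rintro _ ⟨g, hg, rfl⟩
      have hg' : g • (Sum.inr j : V ⊕ (Γ ⧸ zpowers e)) = Sum.inr j := hg
      rw [Sum.smul_inr] at hg'
      obtain ⟨m, hm⟩ := smul_eq_iff_apex (Sum.inr_injective hg')
      obtain ⟨m0, hm0, k, hk⟩ := hmod m
      refine ⟨m0, hm0, ?_⟩
      change ((Quotient.out j * e ^ m0 * (Quotient.out j)⁻¹ : Γ) : Γ ⧸ M) = ((g : Γ) : Γ ⧸ M)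
      rw [QuotientGroup.eq]
      have h1 : (Quotient.out j * e ^ m0 * (Quotient.out j)⁻¹)⁻¹ * g =
          Quotient.out j * e ^ ((N : ℤ) * k) * (Quotient.out j)⁻¹ := by
        rw [hm, hk, zpow_add, zpow_natCast]
        group
      rw [h1]
      exact conj_mem_M hM _ k
  · -- cocompactness
    obtain ⟨D0, hD0⟩ := hact.coc
    refine ⟨D0 + 1, fun y' => ?_⟩
    obtain ⟨u, rfl⟩ := hq.surj y'
    rcases u with y | j
    · obtain ⟨g, hg⟩ := hD0 y
      refine ⟨QuotientGroup.mk g, ?_⟩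
      rw [← hq.equi, Sum.smul_inl]
      have h1 := hq.le (Sum.inl y) (Sum.inl (g • x0))
      have h2 := hcinv y (g • x0)
      omega
    · refine ⟨QuotientGroup.mk (Quotient.out j), ?_⟩
      rw [← hq.equi, Sum.smul_inl]
      have h1 := hq.le (Sum.inr j) (Sum.inl (Quotient.out j • x0))
      have h2 : D (Sum.inl (Quotient.out j • x0)) (Sum.inr j) = 1 := by
        rw [hcone.vj]
        exact ⟨1, one_mem _, by rw [mul_one]⟩
      rw [hcone.geo.symm] at h2
      omega

end TK
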