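import Pool.Agent.TK.Targets1

set_option autoImplicit false
set_option linter.unusedVariables false

/-!
# Project TK: orbits of elements of infinite order are quasi-lines
-/

namespace TK

namespace QL_

variable {Γ : Type} [Group Γ] {V : Type} [MulAction Γ V] {d : V → V → ℕ}

theorem shift (hinv : ∀ (g : Γ) (x y : V), d (g • x) (g • y) = d x y) (h : Γ) (x : V) (i j : ℤ) :
    d (h ^ i • x) (h ^ j • x) = d x (h ^ (j - i) • x) := by
  have := hinv (h ^ i) x (h ^ (j - i) • x)
  rw [← this, smul_smul, ← zpow_add]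
  congr 3
  ring

theorem neg (hg : Geo d) (hinv : ∀ (g : Γ) (x y : V), d (g • x) (g • y) = d x y) (h : Γ) (x : V)
    (i : ℤ) : d x (h ^ (-i) • x) = d x (h ^ i • x) := by
  have h1 := shift hinv h x i 0
  simp only [zpow_zero, one_smul, zero_sub] at h1
  rw [← h1, hg.symm]

theorem subadd (hg : Geo d) (hinv : ∀ (g : Γ) (x y : V), d (g • x) (g • y) = d x y) (h : Γ) (x : V)
    (m n : ℕ) : d x (h ^ ((m + n : ℕ) : ℤ) • x) ≤ d x (h ^ (m : ℤ) • x) + d x (h ^ (n : ℤ) • x) := by
  have h1 := hg.tri x (h ^ (m : ℤ) • x) (h ^ ((m + n : ℕ) : ℤ) • x)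
  have h2 := shift hinv h x (m : ℤ) ((m + n : ℕ) : ℤ)
  have e : (((m + n : ℕ) : ℤ) - (m : ℤ)) = (n : ℤ) := by push_cast; ring
  rw [e] at h2
  omega

end QL_

open QL_ in
theorem p_QL (hBRK : T_BRK) (hCYC : T_CYC) (hDBL : T_DBL) : T_QL := by
  intro Γ _ V _ d x0 hact h hh x
  have hg := hact.geo
  have hinv := hact.inv
  obtain ⟨δ, hδ⟩ := hact.thin
  obtain ⟨C, hC⟩ : ∃ C, Four d C := ⟨_, four_of_thin hg hδ⟩
  -- the function f
  set f : ℕ → ℕ := fun m => d x (h ^ (m : ℤ) • x) with hf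
  have fdef : ∀ m : ℕ, d x (h ^ (m : ℤ) • x) = f m := fun m => rfl
  have fsub : ∀ m n, f (m + n) ≤ f m + f n := fun m n => subadd hg hinv h x m n
  have fcnt : ∃ A : ℕ, ∀ L : ℕ, {m : ℕ | f m ≤ L}.Finite ∧ {m : ℕ | f m ≤ L}.ncard ≤ A * L + A := by
    obtain ⟨A, hA⟩ := hCYC Γ V d x0 hact h hh x
    refine ⟨A, fun L => ?_⟩
    obtain ⟨h1, h2⟩ := hA L
    have himg : (fun m : ℕ => (m : ℤ)) '' {m : ℕ | f m ≤ L} ⊆ {m : ℤ | d x (h ^ m • x) ≤ L} := by
      rintro _ ⟨m, hm, rfl⟩
      exact hm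
    have hinj : Function.Injective (fun m : ℕ => (m : ℤ)) := fun a b hab => by
      simpa using hab
    have hfin : {m : ℕ | f m ≤ L}.Finite :=
      Set.Finite.of_finite_image (h1.subset himg) hinj.injOn
    refine ⟨hfin, ?_⟩
    have h3 := Set.ncard_le_ncard himg h1
    rw [Set.ncard_image_of_injective _ hinj] at h3
    omega
  obtain ⟨n, hn1, hn2⟩ := hDBL f fsub fcnt (4 * C)
  have h2n : f (2 * n) ≤ 2 * f n := by
    have := fsub n n
    have e : n + n = 2 * n := by ring
    rw [e] at this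
    omega
  obtain ⟨a, ha⟩ : ∃ a, a + f (2 * n) = 2 * f n := ⟨2 * f n - f (2 * n), by omega⟩
  have ha2 : a + 4 * C < f n := by omega
  -- the sequence y
  have ydist : ∀ i j : ℤ, d (h ^ ((n : ℤ) * i) • x) (h ^ ((n : ℤ) * j) • x) =
      d x (h ^ ((n : ℤ) * (j - i)) • x) := by
    intro i j
    rw [shift hinv h x]
    congr 3
    ring
  have y1 : ∀ i : ℤ, d (h ^ ((n : ℤ) * i) • x) (h ^ ((n : ℤ) * (i + 1)) • x) = f n := by
    intro i
    rw [ydist, ← fdef]
    congr 3
    ring
  have y2 : ∀ i : ℤ, d (h ^ ((n : ℤ) * i) • x) (h ^ ((n : ℤ) * (i + 2)) • x) = f (2 * n) := by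
    intro i
    rw [ydist, ← fdef]
    congr 3
    push_cast
    ring
  have yQL : ∀ i j k : ℤ, i ≤ j → j ≤ k →
      d (h ^ ((n : ℤ) * i) • x) (h ^ ((n : ℤ) * j) • x) +
      d (h ^ ((n : ℤ) * j) • x) (h ^ ((n : ℤ) * k) • x) ≤
      d (h ^ ((n : ℤ) * i) • x) (h ^ ((n : ℤ) * k) • x) + (a + 2 * C) := by
    intro i j k hij hjk
    obtain ⟨jj, hjj⟩ := Int.eq_ofNat_of_zero_le (sub_nonneg.mpr hij)
    obtain ⟨kk, hkk⟩ := Int.eq_ofNat_of_zero_le (sub_nonneg.mpr (hij.trans hjk))
    have hb := (hBRK V d C a kk (fun m : ℕ => h ^ ((n : ℤ) * (i + m)) • x) hg hC (by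
      intro m hm
      have e1 := y1 (i + m)
      have e2 := y1 (i + m + 1)
      have e3 := y2 (i + m)
      have c1 : (i + (m : ℤ) + 1) = i + ((m + 1 : ℕ) : ℤ) := by push_cast; ring
      have c2 : (i + (m : ℤ) + 1 + 1) = i + ((m + 2 : ℕ) : ℤ) := by push_cast; ring
      have c3 : (i + (m : ℤ) + 2) = i + ((m + 2 : ℕ) : ℤ) := by push_cast; ring
      rw [c2, c1] at e2
      rw [c1] at e1
      rw [c3] at e3
      rw [e1, e2, e3]
      omega) (by
      intro m hm hm2
      have e1 := y1 (i + m)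
      have c1 : (i + (m : ℤ) + 1) = i + ((m + 1 : ℕ) : ℤ) := by push_cast; ring
      rw [c1] at e1
      rw [e1]
      omega)).1 0 jj kk (by omega) (by omega) le_rfl
    have z0 : i + ((0 : ℕ) : ℤ) = i := by simp
    have zj : i + (jj : ℤ) = j := by
      have : (jj : ℤ) = j - i := hjj.symm
      rw [this]; ring
    have zk : i + (kk : ℤ) = k := by
      have : (kk : ℤ) = k - i := hkk.symm
      rw [this]; ring
    simp only [z0, zj, zk] at hb
    exact hb
  -- bound of the remainders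
  obtain ⟨ρ, hρ⟩ : ∃ ρ, ∀ r, r < n → f r ≤ ρ :=
    ⟨∑ r ∈ Finset.range n, f r, fun r hr =>
      Finset.single_le_sum (f := f) (fun _ _ => Nat.zero_le _) (Finset.mem_range.mpr hr)⟩
  have hn0 : (0 : ℤ) < (n : ℤ) := by exact_mod_cast hn1
  have close : ∀ i : ℤ, d (h ^ i • x) (h ^ ((n : ℤ) * (i / n)) • x) ≤ ρ := by
    intro i
    rw [hg.symm, shift hinv h x]
    have e : i - (n : ℤ) * (i / n) = i % n := by
      have := Int.emod_def i n
      rw [this]
    rw [e]
    obtain ⟨r, hr⟩ := Int.eq_ofNat_of_zero_le (Int.emod_nonneg i hn0.ne')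
    rw [hr]
    refine hρ r ?_
    have := Int.emod_lt_of_pos i hn0
    rw [hr] at this
    exact_mod_cast this
  have hQL : QL d (a + 2 * C + 6 * ρ) (fun i : ℤ => h ^ i • x) := by
    intro i j k hij hjk
    simp only
    have m1 : i / (n : ℤ) ≤ j / n := Int.ediv_le_ediv hn0 hij
    have m2 : j / (n : ℤ) ≤ k / n := Int.ediv_le_ediv hn0 hjk
    have hy := yQL _ _ _ m1 m2
    have ci := close i
    have cj := close j
    have ck := close k
    generalize h ^ ((n : ℤ) * (i / n)) • x = yi at *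
    generalize h ^ ((n : ℤ) * (j / n)) • x = yj at *
    generalize h ^ ((n : ℤ) * (k / n)) • x = yk at *
    generalize h ^ i • x = xi at *
    generalize h ^ j • x = xj at *
    generalize h ^ k • x = xk at *
    have t1 := hg.tri xi yi xj
    have t2 := hg.tri yi yj xj
    have t3 := hg.symm yj xj
    have t4 := hg.tri xj yj xk
    have t5 := hg.tri yj yk xk
    have t6 := hg.symm yk xk
    have t7 := hg.tri yi xi yk
    have t8 := hg.tri xi xk yk
    have t9 := hg.symm yi xi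
    omega
  -- linear growth
  have grow : ∀ k : ℕ, k ≤ d x (h ^ ((n : ℤ) * (k : ℤ)) • x) := by
    intro k
    induction k with
    | zero => simp
    | succ k ih =>
      have h1 := yQL 0 (k : ℤ) ((k : ℤ) + 1) (by positivity) (by omega)
      rw [y1 (k : ℤ)] at h1
      simp only [mul_zero, zpow_zero, one_smul] at h1
      push_cast
      omega
  have lin : ∀ i : ℕ, i ≤ (n * (ρ + 1)) * f i + n * (ρ + 1) := by
    intro i
    have h1 := close (i : ℤ)
    have h2 := grow (i / n)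
    have e : ((i : ℤ) / (n : ℤ)) = ((i / n : ℕ) : ℤ) := by push_cast; rfl
    rw [e] at h1
    have h3 := hg.tri x (h ^ (i : ℤ) • x) (h ^ ((n : ℤ) * ((i / n : ℕ) : ℤ)) • x)
    rw [fdef] at h3
    have h4 : i / n ≤ f i + ρ := by omega
    have h5 : i < n * (i / n) + n := by
      have := Nat.div_add_mod i n
      have := Nat.mod_lt i (show 0 < n by omega)
      omega
    have h6 : n * (i / n) ≤ n * (f i + ρ) := Nat.mul_le_mul_left n h4
    have h7 : n * (f i + ρ) + n ≤ (n * (ρ + 1)) * f i + n * (ρ + 1) := by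
      have : n * (f i + ρ) + n = n * f i + n * (ρ + 1) := by ring
      rw [this]
      have : n * f i ≤ (n * (ρ + 1)) * f i :=
        Nat.mul_le_mul_right _ (Nat.le_mul_of_pos_right n (by omega))
      omega
    omega
  refine ⟨⟨_, hQL⟩, ⟨n * (ρ + 1), fun i => ?_⟩, ?_⟩
  · have h1 := lin i.natAbs
    have h2 : f i.natAbs = d x (h ^ i • x) := by
      rw [← fdef]
      rcases Int.natAbs_eq i with h3 | h3
      · rw [← h3]
      · conv_rhs => rw [h3]
        rw [neg hg hinv]
    rw [← h2]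
    exact h1
  · -- quasiconvexity
    have hQC : ∀ i k : ℤ, i ≤ k → ∀ p, Btw d (h ^ i • x) p (h ^ k • x) →
        ∃ j : ℤ, d p (h ^ j • x) ≤ a + 2 * C + 6 * ρ + f 1 + C := by
      intro i k hik p hp
      obtain ⟨m, hm⟩ := Int.eq_ofNat_of_zero_le (sub_nonneg.mpr hik)
      have hk : k = i + (m : ℤ) := by
        have : (m : ℤ) = k - i := hm.symm
        rw [this]; ring
      have hex : ∃ s : ℕ, d (h ^ i • x) p ≤ d (h ^ i • x) (h ^ (i + (s : ℤ)) • x) := by
        refine ⟨m, ?_⟩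
        rw [← hk]
        unfold Btw at hp
        omega
      classical
      have hs := Nat.find_spec hex
      have hmin : ∀ t, t < Nat.find hex →
          ¬ d (h ^ i • x) p ≤ d (h ^ i • x) (h ^ (i + (t : ℤ)) • x) :=
        fun t ht => Nat.find_min hex ht
      have hle : Nat.find hex ≤ m := by
        refine Nat.find_min' hex ?_
        rw [← hk]
        unfold Btw at hp
        omega
      generalize Nat.find hex = s at hs hmin hle
      have hup : d (h ^ i • x) (h ^ (i + (s : ℤ)) • x) ≤ d (h ^ i • x) p + f 1 := by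
        rcases Nat.eq_zero_or_pos s with h0 | h0
        · subst h0
          simp only [Nat.cast_zero, add_zero]
          rw [hg.self]
          omega
        · have h1 := hmin (s - 1) (by omega)
          have h2 := hg.tri (h ^ i • x) (h ^ (i + ((s - 1 : ℕ) : ℤ)) • x) (h ^ (i + (s : ℤ)) • x)
          have h3 := shift hinv h x (i + ((s - 1 : ℕ) : ℤ)) (i + (s : ℤ))
          have e : i + (s : ℤ) - (i + ((s - 1 : ℕ) : ℤ)) = ((1 : ℕ) : ℤ) := by
            push_cast [Nat.cast_sub (show 1 ≤ s by omega)]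
            ring
          rw [e, fdef] at h3
          omega
      refine ⟨i + s, ?_⟩
      have hq := hQL i (i + s) k (by omega) (by omega)
      simp only at hq
      have := fellow (c := a + 2 * C + 6 * ρ) (e := f 1) hg hC
        (x := h ^ i • x) (y := h ^ k • x) (p := p) (q := h ^ (i + (s : ℤ)) • x)
        (by unfold Btw at hp; omega) hq (by omega) (by omega)
      omega
    refine ⟨a + 2 * C + 6 * ρ + f 1 + C, ?_⟩
    rintro _ ⟨i, rfl⟩ _ ⟨k, rfl⟩ p hp
    simp only at hp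
    rcases le_total i k with hik | hik
    · obtain ⟨j, hj⟩ := hQC i k hik p hp
      exact ⟨_, ⟨j, rfl⟩, hj⟩
    · obtain ⟨j, hj⟩ := hQC k i hik p (hp.symm hg)
      exact ⟨_, ⟨j, rfl⟩, hj⟩

end TK
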