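import Pool.Agent.TK.Targets1

set_option autoImplicit false

/-!
# Project TK (MP_3ae405_al, `k = 5`): the quotient of a spinning family is thin
-/

namespace TK

namespace QTHIN_

variable {P G P' : Type} [Group G] [MulAction G P] {d : P → P → ℕ} {N : Subgroup G} [N.Normal]
  [MulAction (G ⧸ N) P'] {d' : P' → P' → ℕ} {q : P → P'}

theorem q_smul (hq : IsQuot d N d' q) {r : G} (hr : r ∈ N) (x : P) : q (r • x) = q x := by
  rw [hq.equi, (QuotientGroup.eq_one_iff r).2 hr, one_smul]

/-- a tight lift of `y` -/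
theorem exists_tight (hq : IsQuot d N d' q) (x y : P) : ∃ r ∈ N, q (r • y) = q y ∧
    d x (r • y) = d' (q x) (q y) ∧ Tight d N x (r • y) := by
  obtain ⟨r, hr, h⟩ := hq.att x y
  refine ⟨r, hr, q_smul hq hr y, h.symm, fun s hs => ?_⟩
  have h1 := hq.le x (s • r • y)
  rw [q_smul hq hs, q_smul hq hr] at h1
  omega

end QTHIN_

open QTHIN_ in
theorem p_QTHIN (hLIFT : T_LIFT) : T_QTHIN := by
  intro P J G _ _ _ d v D R K L hK hL hS N _ hN P' _ d' q hq δ hδ x' y' z' p' hp
  obtain ⟨x, rfl⟩ := hq.surj x'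
  obtain ⟨y, rfl⟩ := hq.surj y'
  obtain ⟨z, rfl⟩ := hq.surj z'
  obtain ⟨p, rfl⟩ := hq.surj p'
  obtain ⟨r1, hr1, q1, l1, t1⟩ := exists_tight hq x p
  obtain ⟨r2, hr2, q2, l2, t2⟩ := exists_tight hq (r1 • p) y
  obtain ⟨r3, hr3, q3, l3, t3⟩ := exists_tight hq (r2 • y) z
  obtain ⟨r4, hr4, q4, l4, t4⟩ := exists_tight hq (r3 • z) x
  rw [q1] at l2
  rw [q2] at l3
  rw [q3] at l4
  obtain ⟨u', u0, u4, uq, ud, -⟩ := hLIFT P J G d v D R K L hK hL hS N hN 4 0 (fun _ => True)
    (fun i => match i with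
      | 0 => x
      | 1 => r1 • p
      | 2 => r2 • y
      | 3 => r3 • z
      | _ => r4 • x)
    (by rw [Nat.max_eq_left (by omega)]; omega)
    (fun i hi _ => by
      interval_cases i
      · exact t1
      · exact t2
      · exact t3
      · exact t4)
    (fun i hi h => absurd trivial h) r4 hr4 rfl
  have e0 := ud 0 (by norm_num) trivial
  have e1 := ud 1 (by norm_num) trivial
  have e2 := ud 2 (by norm_num) trivial
  have e3 := ud 3 (by norm_num) trivial
  simp only [Nat.reduceAdd, zero_add] at e0 e1 e2 e3 u0 u4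
  obtain ⟨s1, hs1, w1⟩ := uq 1 (by norm_num)
  obtain ⟨s2, hs2, w2⟩ := uq 2 (by norm_num)
  obtain ⟨s3, hs3, w3⟩ := uq 3 (by norm_num)
  simp only at w1 w2 w3
  have v1 : q (u' 1) = q p := by rw [w1, q_smul hq hs1, q1]
  have v2 : q (u' 2) = q y := by rw [w2, q_smul hq hs2, q2]
  have v3 : q (u' 3) = q z := by rw [w3, q_smul hq hs3, q3]
  rw [u0, l1] at e0
  rw [l2] at e1
  rw [l3] at e2
  rw [u4, l4] at e3
  have hd := hS.geo
  have hd' := hq.geo
  unfold Btw at hp
  -- the lifted point lies on a geodesic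
  have hb : Btw d x (u' 1) (u' 2) := by
    have h1 := hq.le x (u' 2)
    rw [v2] at h1
    have h2 := hd.tri x (u' 1) (u' 2)
    unfold Btw
    omega
  obtain ⟨m, hm, hpm⟩ := hδ x (u' 2) (u' 3) (u' 1) hb
  refine ⟨q m, ?_, ?_⟩
  · rcases hm with hm | hm
    · left
      have h1 := hq.le x m
      have h2 := hq.le m (u' 3)
      rw [v3] at h2
      have h3 := hd'.tri (q x) (q m) (q z)
      have h4 := hd.symm (u' 3) x
      have h5 := hd'.symm (q z) (q x)
      unfold Btw at *
      omega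
    · right
      have h1 := hq.le (u' 3) m
      have h2 := hq.le m (u' 2)
      rw [v3] at h1
      rw [v2] at h2
      have h3 := hd'.tri (q z) (q m) (q y)
      have h4 := hd.symm (u' 3) (u' 2)
      have h5 := hd'.symm (q z) (q y)
      unfold Btw at *
      omega
  · have h1 := hq.le (u' 1) m
    rw [v1] at h1
    omega

end TK
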