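import Pool.Agent.TK.Targets2

set_option autoImplicit false
set_option linter.unusedVariables false

/-!
# TK-SEP: separation from `H`
-/

namespace TK

open Subgroup

theorem p_SEP (hPD : T_PD) (hYR : T_YR) : T_SEP := by
  intro Γ _ V _ d x0 H e δ κ c B hK K f hf
  obtain ⟨E, hE⟩ := hPD δ κ B
  refine ⟨2 * E + B + d x0 (f • x0) + 13 * K + 1, ?_⟩
  intro N _ hl hW h hh r hr heq
  have hr' : h * r * h⁻¹ ∈ normalClosure ({e ^ N} : Set Γ) :=
    normalClosure_normal.conj_mem r hr h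
  have hact : (h * r * h⁻¹) • (Sum.inl (h • x0) : V ⊕ (Γ ⧸ zpowers e)) = Sum.inl (f • x0) := by
    rw [Sum.smul_inl, smul_smul, inv_mul_cancel_right, ← heq]
  have hred := hW (Sum.inl (h • x0)) _ hr'
  have key : ∀ j : Γ ⧸ zpowers e, ¬ (d x0 (e ^ N • x0) - 13 * K ≤
      PD d (Yf e x0) j (Sum.inl (h • x0)) (Sum.inl (f • x0))) := by
    intro j hj
    obtain ⟨p1, p2, p3, p4, p5, p6⟩ := hE V (Γ ⧸ zpowers e) d (Yf e x0) hK.fam j
    obtain ⟨g, rfl⟩ := QuotientGroup.mk_surjective j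
    obtain ⟨y, hy⟩ := p1 (Sum.inl (h • x0))
    obtain ⟨y', hy'⟩ := p1 (Sum.inl x0)
    have hY := (hYR Γ V e x0).1 g
    have h1 : Near d (orb (zpowers e) g x0) (h • x0) y := by
      rw [← hY]; exact hy
    have h2 : Near d (orb (zpowers e) g x0) x0 y' := by
      rw [← hY]; exact hy'
    have h3 := hK.nb g 1 (h • x0) ⟨h, hh, by rw [one_mul]⟩ x0 ⟨1, H.one_mem, by simp⟩ y y' h1 h2
    have h4 := (p3 (Sum.inl (h • x0)) (Sum.inl x0) (by simp) (by simp) y y' hy hy').2
    have h5 := p5 (Sum.inl (h • x0)) (Sum.inl x0) (Sum.inl (f • x0)) (by simp) (by simp) (by simp)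
    have h6 := p6 x0 (f • x0)
    omega
  generalize hx : (Sum.inl (h • x0) : V ⊕ (Γ ⧸ zpowers e)) = x at *
  generalize hrr : h * r * h⁻¹ = r' at *
  cases hred with
  | one =>
    apply hf
    have h1 : h * r = h := by
      have := congrArg (fun t => t * h) hrr
      simpa using this
    rw [heq, h1]
    exact hh
  | base j _ hxj _ =>
    rw [← hx] at hxj
    exact absurd hxj (by simp)
  | step j ρ _ _ _ _ hM _ =>
    rw [hact] at hM
    exact key j hM

end TK
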