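import Pool.Agent.TK.Targets2

set_option autoImplicit false
set_option linter.unusedVariables false

/-!
# Project TK: TK-SHAD, the shadow lemma
-/

namespace TK

namespace SHAD_

variable {V G : Type} [Group G] [MulAction G V] {d : V → V → ℕ}

/-- the point `v` is almost between `a, a'` in the quasiconvex set `A`: it is close to `A` -/
theorem clos {C κA : ℕ} (hd : Geo d) (hC : Four d C) {A : Set V} (hA : QC d κA A) {a a' v : V}
    (ha : a ∈ A) (ha' : a' ∈ A) {f : ℕ} (h : d a v + d v a' ≤ d a a' + f) :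
    ∃ u ∈ A, d v u ≤ 2 * f + C + κA := by
  obtain ⟨z, hz1, hz2⟩ := hd.geod a a' (min (d a v) (d a a')) (min_le_right _ _)
  have hf : d v z ≤ f + f + C := by
    apply fellow hd hC (x := a) (y := a')
    · exact h
    · omega
    · omega
    · omega
  obtain ⟨u, hu, hzu⟩ := hA a ha a' ha' z (by unfold Btw; omega)
  refine ⟨u, hu, ?_⟩
  have := hd.tri v z u
  omega

/-- the core of the lemma: `p` before `q` on the quasi-line -/
theorem core {δ κ c κA : ℕ} (hd : Geo d) (ht : Thin d δ)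
    (inv : ∀ (g : G) (x y : V), d (g • x) (g • y) = d x y) {y : ℤ → V} {ρ : G} {N : ℤ} {ℓ : ℕ}
    (hax : Axis d κ c y ρ N ℓ) {CC c3 EA Λ : ℕ} (hCC : CC = 4 * δ + 2)
    (hc3 : c3 = 5 * CC + 4 * κ + 2) (hEA : EA = 2 * (c + c3) + CC + κA)
    (hΛ : Λ = c + c3 + EA + (3 * CC + 2 * κ + 1)) (hE : 2 * Λ + 2 * c + c3 + EA + 1 ≤ ℓ)
    {A : Set V} (hA : QC d κA A) {x a a' : V} (hn : Near d A x a) (ha' : a' ∈ A)
    (hu : ∀ u ∈ A, d x a ≤ d (ρ • x) u) {ip iq iq' : ℤ}
    (hp : Near d (Set.range y) x (y ip)) (hq : Near d (Set.range y) a (y iq))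
    (hq' : Near d (Set.range y) a' (y iq')) (h34 : 4 * d (y iq) (y iq') ≤ 3 * ℓ)
    (hlt : ip < iq) :
    2 * d (y ip) (y iq) + d (y iq) (y iq') ≤ ℓ + (2 * Λ + 2 * c + c3 + EA + 1) := by
  have hC : Four d CC := by
    rw [hCC]
    exact four_of_thin hd ht
  by_cases hb1 : d (y ip) (y iq) ≤ Λ
  · omega
  push Not at hb1
  have hP := P3 hd hC hax.qc hp hq (by omega)
  rw [← hc3] at hP
  have hk : d (ρ • x) (y (ip + N)) = d x (y ip) := by rw [← hax.shift, inv]
  have hN := hax.pos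
  have hlen := hax.len ip
  have ha := hn.1
  have hxa := hu a ha
  have s1 := hd.symm (y iq) a
  -- (A)
  by_cases hkq : ip + N ≤ iq
  · exfalso
    have h1 := hax.ql ip (ip + N) iq (by omega) hkq
    have h2 := hd.tri (ρ • x) (y (ip + N)) a
    have h3 := hd.tri (y (ip + N)) (y iq) a
    omega
  push Not at hkq
  have h4 := hax.ql ip iq (ip + N) hlt.le hkq.le
  by_cases hb2 : d (y iq) (y iq') ≤ Λ
  · have h2 := hd.tri (ρ • x) (y (ip + N)) a
    have h3 := hd.tri (y (ip + N)) (y iq) a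
    have h5 := hd.symm (y (ip + N)) (y iq)
    omega
  push Not at hb2
  have hQ := P3 hd hC hax.qc hq hq' (by omega)
  rw [← hc3] at hQ
  -- (2)
  have h2 : ∀ l : ℤ, d (y iq) (y l) + d (y l) (y iq') ≤ d (y iq) (y iq') + c →
      ∃ u ∈ A, d (y l) u ≤ EA := by
    intro l hl
    have h5 := hd.tri a (y iq) (y l)
    have h6 := hd.tri (y l) (y iq') a'
    rw [hEA]
    exact clos hd hC hA ha ha' (f := c + c3) (by omega)
  -- (3)
  have h3 : iq < iq' := by
    by_contra hcon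
    push Not at hcon
    by_cases hl : iq' ≤ ip
    · have h5 := hax.ql iq' ip iq hl hlt.le
      have e1 := hd.symm (y iq) (y ip)
      have e2 := hd.symm (y ip) (y iq')
      have e3 := hd.symm (y iq) (y iq')
      obtain ⟨u, huA, hul⟩ := h2 ip (by omega)
      have h6 := hn.2 u huA
      have h7 := hd.tri x (y ip) u
      omega
    · push Not at hl
      have h5 := hax.ql ip iq' iq hl.le hcon
      have e3 := hd.symm (y iq) (y iq')
      have e4 := hd.self (y iq')
      obtain ⟨u, huA, hul⟩ := h2 iq' (by omega)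
      have h6 := hn.2 u huA
      have h7 := hd.tri x (y ip) u
      have h8 := hd.tri (y ip) (y iq') u
      omega
  by_cases hkq' : ip + N ≤ iq'
  · exfalso
    have h5 := hax.ql iq (ip + N) iq' hkq.le hkq'
    obtain ⟨u, huA, hul⟩ := h2 (ip + N) h5
    have h6 := hu u huA
    have h7 := hd.tri (ρ • x) (y (ip + N)) u
    omega
  push Not at hkq'
  have e4 := hd.self (y iq')
  obtain ⟨u, huA, hul⟩ := h2 iq' (by omega)
  have h6 := hu u huA
  have h7 := hd.tri (ρ • x) (y (ip + N)) u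
  have h8 := hd.tri (y (ip + N)) (y iq') u
  have e5 := hd.symm (y (ip + N)) (y iq')
  have h9 := hax.ql ip iq' (ip + N) (by omega) hkq'.le
  have h10 := hax.ql ip iq iq' hlt.le h3.le
  omega

/-- the reversed axis -/
theorem rev {κ c : ℕ} (hd : Geo d) {y : ℤ → V} {ρ : G} {N : ℤ} {ℓ : ℕ}
    (hax : Axis d κ c y ρ N ℓ) : Axis d κ c (fun m => y (-m)) ρ⁻¹ N ℓ where
  ql := by
    intro i j k hij hjk
    have h := hax.ql (-k) (-j) (-i) (by omega) (by omega)
    simp only at h ⊢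
    have e1 := hd.symm (y (-i)) (y (-j))
    have e2 := hd.symm (y (-j)) (y (-k))
    have e3 := hd.symm (y (-i)) (y (-k))
    omega
  qc := by
    have h : Set.range (fun m : ℤ => y (-m)) = Set.range y := by
      ext v
      constructor
      · rintro ⟨m, rfl⟩
        exact ⟨-m, rfl⟩
      · rintro ⟨m, rfl⟩
        exact ⟨-m, by simp⟩
    rw [h]
    exact hax.qc
  pos := hax.pos
  shift := by
    intro m
    have e : -(m + N) + N = -m := by ring
    show ρ⁻¹ • y (-m) = y (-(m + N))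
    rw [inv_smul_eq_iff, hax.shift, e]
  len := by
    intro m
    have h := hax.len (-m - N)
    have e : -m - N + N = -m := by ring
    rw [e] at h
    have e2 : -(m + N) = -m - N := by ring
    show d (y (-m)) (y (-(m + N))) = ℓ
    rw [hd.symm, e2, h]

end SHAD_

open SHAD_ in
theorem p_SHAD : T_SHAD := by
  intro δ κ c κA
  refine ⟨2 * (c + (5 * (4 * δ + 2) + 4 * κ + 2) + (2 * (c + (5 * (4 * δ + 2) + 4 * κ + 2)) +
    (4 * δ + 2) + κA) + (3 * (4 * δ + 2) + 2 * κ + 1)) + 2 * c + (5 * (4 * δ + 2) + 4 * κ + 2) +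
    (2 * (c + (5 * (4 * δ + 2) + 4 * κ + 2)) + (4 * δ + 2) + κA) + 1, ?_⟩
  intro V G _ _ d hd ht inv y ρ N ℓ hax hE A hA x a a' hn ha' hu p q q' hp hq hq' h34
  obtain ⟨⟨ip, rfl⟩, hp2⟩ := hp
  obtain ⟨⟨iq, rfl⟩, hq2⟩ := hq
  obtain ⟨⟨iq', rfl⟩, hq2'⟩ := hq'
  rcases lt_trichotomy ip iq with h | h | h
  · exact core hd ht inv hax rfl rfl rfl rfl hE hA hn ha' (fun u hu' => (hu u hu').1)
      ⟨⟨ip, rfl⟩, hp2⟩ ⟨⟨iq, rfl⟩, hq2⟩ ⟨⟨iq', rfl⟩, hq2'⟩ h34 h
  · subst h
    rw [hd.self]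
    omega
  · have hr : Set.range (fun m : ℤ => y (-m)) = Set.range y := by
      ext v
      constructor
      · rintro ⟨m, rfl⟩
        exact ⟨-m, rfl⟩
      · rintro ⟨m, rfl⟩
        exact ⟨-m, by simp⟩
    have h1 : Near d (Set.range fun m : ℤ => y (-m)) x ((fun m : ℤ => y (-m)) (-ip)) := by
      rw [hr]
      simp only [neg_neg]
      exact ⟨⟨ip, rfl⟩, hp2⟩
    have h2 : Near d (Set.range fun m : ℤ => y (-m)) a ((fun m : ℤ => y (-m)) (-iq)) := by
      rw [hr]
      simp only [neg_neg]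
      exact ⟨⟨iq, rfl⟩, hq2⟩
    have h3 : Near d (Set.range fun m : ℤ => y (-m)) a' ((fun m : ℤ => y (-m)) (-iq')) := by
      rw [hr]
      simp only [neg_neg]
      exact ⟨⟨iq', rfl⟩, hq2'⟩
    have h4 := core hd ht inv (rev hd hax) rfl rfl rfl rfl hE hA hn ha'
      (fun u hu' => (hu u hu').2) h1 h2 h3 (by simpa only [neg_neg] using h34) (by omega)
    simpa only [neg_neg] using h4

end TK
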