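import Pool.Agent.TK.Targets1

set_option autoImplicit false
set_option linter.unusedVariables false

/-!
# Project TK: TK-SPIN, the concrete spinning family
-/

namespace TK

open Subgroup

namespace SPIN_

variable {Γ V : Type} [Group Γ] [MulAction Γ V]

lemma near_smul {J : Type} [MulAction Γ J] {d : V → V → ℕ} {Y : J → Set V}
    (hinv : ∀ (g : Γ) (x y : V), d (g • x) (g • y) = d x y)
    (hY : ∀ (g : Γ) (x : V) (j : J), x ∈ Y j → g • x ∈ Y (g • j))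
    (g : Γ) (j : J) {x y : V} (h : Near d (Y j) x y) : Near d (Y (g • j)) (g • x) (g • y) := by
  refine ⟨hY g y j h.1, fun y' hy' => ?_⟩
  have h1 : g⁻¹ • y' ∈ Y j := by
    have := hY g⁻¹ y' (g • j) hy'
    rwa [inv_smul_smul] at this
  have h2 := h.2 _ h1
  have h3 : d (g • x) y' = d x (g⁻¹ • y') := by
    rw [← hinv g x (g⁻¹ • y'), smul_inv_smul]
  rw [hinv, h3]
  exact h2

lemma pr_smul {J : Type} [MulAction Γ J] {d : V → V → ℕ} {Y : J → Set V}
    (hinv : ∀ (g : Γ) (x y : V), d (g • x) (g • y) = d x y)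
    (hY : ∀ (g : Γ) (x : V) (j : J), x ∈ Y j → g • x ∈ Y (g • j))
    (g : Γ) (j : J) {u : V ⊕ J} {y : V} (h : Pr d Y j u y) : Pr d Y (g • j) (g • u) (g • y) := by
  rcases u with x | i
  · rw [Sum.smul_inl]
    exact near_smul hinv hY g j h
  · rw [Sum.smul_inr]
    obtain ⟨x, hx, hn⟩ := h
    exact ⟨g • x, hY g x i hx, near_smul hinv hY g j hn⟩

lemma pr_mem {J : Type} {d : V → V → ℕ} {Y : J → Set V} {j : J} {u : V ⊕ J} {y : V}
    (h : Pr d Y j u y) : y ∈ Y j := by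
  rcases u with x | i
  · exact h.1
  · obtain ⟨x, hx, hn⟩ := h
    exact hn.1

lemma qc_orb {d : V → V → ℕ} {x0 : V} {κ : ℕ} {P : Subgroup Γ}
    (hinv : ∀ (g : Γ) (x y : V), d (g • x) (g • y) = d x y)
    (h : QC d κ (orb P 1 x0)) (g : Γ) : QC d κ (orb P g x0) := by
  rintro y ⟨p, hp, rfl⟩ y' ⟨p', hp', rfl⟩ q hq
  have h1 : Btw d ((1 * p) • x0) (g⁻¹ • q) ((1 * p') • x0) := by
    unfold Btw at *
    have e1 : (1 * p) • x0 = g⁻¹ • ((g * p) • x0) := by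
      rw [smul_smul]; congr 1; group
    have e2 : (1 * p') • x0 = g⁻¹ • ((g * p') • x0) := by
      rw [smul_smul]; congr 1; group
    rw [e1, e2, hinv, hinv, hinv]
    exact hq
  obtain ⟨q', ⟨p'', hp'', rfl⟩, hd⟩ := h _ ⟨p, hp, rfl⟩ _ ⟨p', hp', rfl⟩ _ h1
  refine ⟨(g * p'') • x0, ⟨p'', hp'', rfl⟩, ?_⟩
  have e3 : (g * p'') • x0 = g • ((1 * p'') • x0) := by
    rw [smul_smul]; congr 1; group
  rw [e3, ← hinv g⁻¹, inv_smul_smul]
  exact hd

lemma far {d : V → V → ℕ} {x0 : V} {e : Γ} {c N : ℕ} (hd : Geo d)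
    (hinv : ∀ (g : Γ) (x y : V), d (g • x) (g • y) = d x y)
    (hql : QL d c (fun i : ℤ => e ^ i • x0)) {k : ℤ} (hk : k ≠ 0) :
    d x0 (e ^ N • x0) ≤ d x0 (e ^ ((N : ℤ) * k) • x0) + c := by
  have pos : ∀ k : ℤ, 1 ≤ k → d x0 (e ^ N • x0) ≤ d x0 (e ^ ((N : ℤ) * k) • x0) + c := by
    intro k hk
    have h := hql 0 N ((N : ℤ) * k) (by positivity) (by nlinarith)
    simp only [zpow_zero, one_smul, zpow_natCast] at h
    omega
  rcases lt_or_gt_of_ne hk with h | h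
  · have h1 := pos (-k) (by omega)
    have h2 : d x0 (e ^ ((N : ℤ) * (-k)) • x0) = d x0 (e ^ ((N : ℤ) * k) • x0) := by
      rw [← hinv (e ^ ((N : ℤ) * k)) x0 (e ^ ((N : ℤ) * (-k)) • x0), smul_smul, ← zpow_add]
      have : (N : ℤ) * k + (N : ℤ) * (-k) = 0 := by ring
      rw [this, zpow_zero, one_smul, hd.symm]
    rw [h2] at h1
    exact h1
  · exact pos k (by omega)

end SPIN_

open SPIN_

theorem p_SPIN (hPD : T_PD) (hCONE : T_CONE) (hCINV : T_CINV) (hCTHIN : T_CTHIN)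
    (hBGI : T_BGI) (hYR : T_YR) : T_SPIN := by
  intro Γ _ V _ d x0 hA e he κ c B hql hqc hbo
  obtain ⟨δ, hδ⟩ := hA.thin
  obtain ⟨yr1, yr2, yr3, -⟩ := hYR Γ V e x0
  have hne : ∀ j, (Yf e x0 j).Nonempty := fun j =>
    ⟨(Quotient.out j * 1) • x0, 1, one_mem _, rfl⟩
  have hFam : Fam d (Yf e x0) δ κ B := by
    refine ⟨hA.geo, hδ, hne, fun j => qc_orb hA.inv hqc _, ?_⟩
    intro i j hij z hz z' hz' y y' hy hy'
    refine hbo (Quotient.out j) (Quotient.out i) ?_ z hz z' hz' y y' hy hy'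
    intro hmem
    apply hij
    have h1 : (QuotientGroup.mk (Quotient.out j) : Γ ⧸ zpowers e) =
        QuotientGroup.mk (Quotient.out i) := QuotientGroup.eq.mpr hmem
    have h2 : ∀ j : Γ ⧸ zpowers e, (QuotientGroup.mk (Quotient.out j) : Γ ⧸ zpowers e) = j :=
      fun j => Quotient.out_eq j
    rw [h2, h2] at h1
    exact h1.symm
  obtain ⟨D, hD⟩ := hCONE V (Γ ⧸ zpowers e) d (Yf e x0) hA.geo hne
  obtain ⟨δ', hδ'⟩ := hCTHIN δ κ
  obtain ⟨K0, hK0⟩ := hBGI δ κ B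
  obtain ⟨E, hE⟩ := hPD δ κ B
  have hE' := hE V (Γ ⧸ zpowers e) d (Yf e x0) hFam
  obtain ⟨-, hci⟩ := hCINV V (Γ ⧸ zpowers e) d (Yf e x0) D hA.geo hD
  obtain ⟨hDinv, hPinv⟩ := hci Γ hA.inv yr2
  refine ⟨D, K0 + c + 1, δ, δ', by omega, hFam, hD, hδ' V _ d _ D B hFam hD, ?_⟩
  intro N L hL
  have hfix : ∀ (j : Γ ⧸ zpowers e) (r : Γ), r ∈ Rf e N j → r • j = j := by
    intro j r hr
    obtain ⟨g, rfl⟩ := QuotientGroup.mk_surjective j
    obtain ⟨k, rfl⟩ := (yr3 N g r).mp hr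
    rw [MulAction.Quotient.smul_mk]
    apply QuotientGroup.eq.mpr
    have : (((g * e ^ ((N : ℤ) * k) * g⁻¹) • g)⁻¹ * g) = (e ^ ((N : ℤ) * k))⁻¹ := by
      rw [smul_eq_mul]; group
    rw [this]
    exact inv_mem (zpow_mem (mem_zpowers e) _)
  refine ⟨hD.geo, Sum.inr_injective, ?_, ?_, ?_, hDinv, ?_, hPinv, ?_, hfix, ?_⟩
  · intro j u w
    exact (hE' j).2.2.2.1 u w
  · intro j u z w hu hz hw
    exact (hE' j).2.2.2.2.1 u z w hu hz hw
  · intro j u w hu hw hK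
    exact hK0 V _ d _ D hFam hD j u w hu hw (by omega)
  · intro g j
    rw [Sum.smul_inr]
  · intro g j r hr
    obtain ⟨g0, rfl⟩ := QuotientGroup.mk_surjective j
    obtain ⟨k, rfl⟩ := (yr3 N g0 r).mp hr
    rw [MulAction.Quotient.smul_mk, smul_eq_mul]
    exact (yr3 N (g * g0) _).mpr ⟨k, by group⟩
  · intro j r u hr hr1 hu
    obtain ⟨y, hy⟩ := (hE' j).1 u
    have hrj := hfix j r hr
    have hy' : Pr d (Yf e x0) j (r • u) (r • y) := by
      have := pr_smul hA.inv yr2 r j hy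
      rwa [hrj] at this
    have hru : r • u ≠ Sum.inr j := by
      intro h
      apply hu
      have : u = r⁻¹ • (Sum.inr j : V ⊕ (Γ ⧸ zpowers e)) := by
        rw [← h, inv_smul_smul]
      rw [this, Sum.smul_inr]
      congr 1
      rw [inv_smul_eq_iff, hrj]
    have h1 := ((hE' j).2.2.1 u (r • u) hu hru y (r • y) hy hy').1
    have hyY := pr_mem hy
    obtain ⟨g, rfl⟩ := QuotientGroup.mk_surjective j
    obtain ⟨k, rfl⟩ := (yr3 N g r).mp hr
    rw [yr1] at hyY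
    obtain ⟨p, hp, rfl⟩ := hyY
    obtain ⟨m, rfl⟩ := mem_zpowers_iff.mp hp
    have hk : k ≠ 0 := by
      rintro rfl
      apply hr1
      simp
    have h2 : (g * e ^ ((N : ℤ) * k) * g⁻¹) • ((g * e ^ m) • x0) =
        (g * e ^ m) • (e ^ ((N : ℤ) * k) • x0) := by
      rw [smul_smul, smul_smul]
      congr 1
      rw [mul_assoc g (e ^ m), ← zpow_add, add_comm m, zpow_add]
      group
    rw [h2, hA.inv] at h1
    have h3 := far (N := N) hA.geo hA.inv hql hk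
    omega

end TK
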