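import Pool.Agent.TK.Targets2
import Pool.Agent.TK.SHAD

set_option autoImplicit false
set_option linter.unusedVariables false

/-!
# Project TK: TK-TB, the translation lemma
-/

namespace TK

namespace TB_

variable {V G : Type} [Group G] [MulAction G V] {d : V → V → ℕ}

/-- discrete intermediate value theorem -/
theorem ivt (f : ℕ → ℕ) (h0 : f 0 = 0) (hs : ∀ k, f (k+1) ≤ f k + 1) (L T : ℕ) (hT : T ≤ f L) :
    ∃ k, k ≤ L ∧ f k = T := by
  classical
  have h : ∃ k, T ≤ f k := ⟨L, hT⟩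
  have h1 := Nat.find_spec h
  have h2 : Nat.find h ≤ L := Nat.find_min' h hT
  refine ⟨Nat.find h, h2, ?_⟩
  rcases Nat.eq_zero_or_pos (Nat.find h) with h3 | h3
  · rw [h3] at h1 ⊢
    omega
  · have h4 := Nat.find_min h (m := Nat.find h - 1) (by omega)
    have h5 := hs (Nat.find h - 1)
    have e : Nat.find h - 1 + 1 = Nat.find h := by omega
    rw [e] at h5
    omega

/-- the sequence through the orbit of `p`, a local geodesic -/
theorem exists_seq (hd : Geo d) (inv : ∀ (g : G) (x y : V), d (g • x) (g • y) = d x y) (t : G)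
    (p : V) {m : ℕ} (hm : m = d p (t • p)) (hm1 : 1 ≤ m) (hmin : ∀ u : V, m ≤ d u (t • u)) :
    ∃ z : ℕ → V, z 0 = p ∧ (∀ k, z (k + m) = t • z k) ∧
      (∀ i k, i ≤ k → d (z i) (z k) ≤ k - i) ∧
      (∀ i k, i ≤ k → k ≤ i + m → d (z i) (z k) = k - i) := by
  obtain ⟨γ, h0, h1, h2⟩ := exists_geod hd p (t • p)
  rw [← hm] at h1 h2
  let z : ℕ → V := fun k => t ^ (k / m) • γ (k % m)
  have hz0 : z 0 = p := by
    show t ^ (0 / m) • γ (0 % m) = p
    rw [Nat.zero_div, Nat.zero_mod, pow_zero, one_smul, h0]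
  have hzm : ∀ k, z (k + m) = t • z k := by
    intro k
    show t ^ ((k + m) / m) • γ ((k + m) % m) = t • t ^ (k / m) • γ (k % m)
    rw [Nat.add_div_right k (by omega), Nat.add_mod_right, pow_succ', mul_smul]
  have hstep : ∀ k, d (z k) (z (k+1)) = 1 := by
    intro k
    show d (t ^ (k / m) • γ (k % m)) (t ^ ((k+1) / m) • γ ((k+1) % m)) = 1
    have hlt : k % m < m := Nat.mod_lt _ (by omega)
    have hk : k = m * (k / m) + k % m := (Nat.div_add_mod k m).symm
    by_cases h : k % m + 1 < m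
    · have e1 : (k+1) / m = k / m := by
        rw [Nat.div_eq_iff (by omega)]
        constructor
        · have : k / m * m ≤ k := Nat.div_mul_le_self k m
          omega
        · have : k / m * m = m * (k / m) := Nat.mul_comm _ _
          omega
      have e2 : (k+1) % m = k % m + 1 := by
        have h3 := Nat.div_add_mod (k+1) m
        rw [e1] at h3
        omega
      rw [e1, e2, inv, h2 (k % m) (k % m + 1) (by omega) (by omega)]
      omega
    · have e0 : k + 1 = (k / m + 1) * m := by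
        have : (k / m + 1) * m = m * (k / m) + m := by ring
        omega
      have e1 : (k+1) / m = k / m + 1 := by
        rw [e0, Nat.mul_div_cancel _ (by omega)]
      have e2 : (k+1) % m = 0 := by
        rw [e0, Nat.mul_mod_left]
      rw [e1, e2, h0, pow_succ, mul_smul, inv, ← h1, h2 (k % m) m (by omega) le_rfl]
      omega
  have hle : ∀ i k, i ≤ k → d (z i) (z k) ≤ k - i := by
    intro i k hik
    obtain ⟨j, rfl⟩ := Nat.exists_eq_add_of_le hik
    clear hik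
    induction j with
    | zero =>
      rw [Nat.add_zero, hd.self]; omega
    | succ j ih =>
      have h3 := hd.tri (z i) (z (i + j)) (z (i + j + 1))
      have h4 := hstep (i + j)
      have e : i + (j + 1) = i + j + 1 := by omega
      rw [e]
      omega
  refine ⟨z, hz0, hzm, hle, fun i k hik hkm => ?_⟩
  have h3 := hle i k hik
  have h4 := hle k (i + m) hkm
  have h5 := hmin (z i)
  rw [← hzm] at h5
  have h6 := hd.tri (z i) (z k) (z (i + m))
  omega

theorem seq_pow {z : ℕ → V} {t : G} {p : V} {m : ℕ} (h0 : z 0 = p)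
    (hm : ∀ k, z (k + m) = t • z k) (n : ℕ) : z (n * m) = t ^ n • p := by
  induction n with
  | zero => rw [Nat.zero_mul, h0, pow_zero, one_smul]
  | succ n ih =>
    have e : (n + 1) * m = n * m + m := by ring
    rw [e, hm, ih, pow_succ', mul_smul]

theorem qc_single (hd : Geo d) (a : V) : QC d 0 ({a} : Set V) := by
  intro y hy y' hy' p hp
  rw [Set.mem_singleton_iff] at hy hy'
  subst hy
  subst hy'
  refine ⟨y', rfl, ?_⟩
  unfold Btw at hp
  rw [hd.self] at hp
  omega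

theorem core {δ κ c B E1 : ℕ} (hd : Geo d) (ht : Thin d δ)
    (inv : ∀ (g : G) (x y : V), d (g • x) (g • y) = d x y) {y : ℤ → V} {ρ t : G} {N : ℤ} {ℓ : ℕ}
    (hax : Axis d κ c y ρ N ℓ) (hLG : T_LG) {C c3 C3 C4 Λ E : ℕ} (hCC : C = 4 * δ + 2)
    (hc3 : c3 = 5 * C + 4 * κ + 2) (hC3 : C3 = 2 * c3 + C)
    (hC4 : C4 = 2 * (4 * C3 + 2 * C) + C + κ) (hΛ : Λ = B + 6 * C4 + 1)
    (hE : E = 2 * (E1 + 4 * C3 + 2 * Λ + 4 * C4) + 4 * (c3 + 2 * C + 1))
    (hEℓ : E ≤ ℓ) {p : V} {m : ℕ} (hm : m = d p (t • p)) (hm1 : 4 * C + 2 ≤ m) (hm2 : Λ ≤ m)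
    (hmin : ∀ u : V, m ≤ d u (t • u))
    (hS : ∀ x p0 w0 : V, d x (t • x) = m → Near d (Set.range y) x p0 →
      Near d (Set.range y) (t • x) w0 → 2 * d p0 w0 ≤ ℓ + E1)
    (hB : ∀ z ∈ Set.range y, ∀ z' ∈ Set.range y, ∀ w w' : V, Near d (Set.range y) (t • z) w →
      Near d (Set.range y) (t • z') w' → d w w' ≤ B) (n : ℕ) {q q' : V}
    (hq : Near d (Set.range y) p q) (hq' : Near d (Set.range y) (t ^ n • p) q')
    (hcon : 3 * ℓ < 4 * d q q') : False := by
  have hC : Four d C := by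
    rw [hCC]
    exact four_of_thin hd ht
  obtain ⟨z, hz0, hzm, hzle, hzloc⟩ := exists_seq hd inv t p hm (by omega) hmin
  have hzn := seq_pow hz0 hzm n
  generalize hL : n * m = L at hzn
  have hlg : ∀ i j k, i ≤ j → j ≤ k → k ≤ L →
      d (z i) (z j) + d (z j) (z k) ≤ d (z i) (z k) + 2 * C :=
    hLG V d C m L z hd hC hm1 (fun i k hik hkm _ => hzloc i k hik hkm)
  have hY : QC d κ (Set.range y) := hax.qc
  rw [← hzn] at hq'
  have hP := P3 hd hC hY hq hq' (by omega)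
  rw [← hc3] at hP
  -- the two indices
  have hstep : ∀ k, d p (z (k+1)) ≤ d p (z k) + 1 := by
    intro k
    have h1 := hd.tri p (z k) (z (k+1))
    have h2 := hzle k (k+1) (by omega)
    omega
  have hf0 : d p (z 0) = 0 := by rw [hz0, hd.self]
  obtain ⟨km, hkmL, hkm⟩ := ivt (fun k => d p (z k)) hf0 hstep L (d p q) (by
    show d p q ≤ d p (z L)
    omega)
  obtain ⟨kp, hkpL, hkp⟩ := ivt (fun k => d p (z k)) hf0 hstep L (min (d p q') (d p (z L)))
    (by
      show min (d p q') (d p (z L)) ≤ d p (z L)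
      omega)
  have hkm : d p (z km) = d p q := hkm
  have hkp : d p (z kp) = min (d p q') (d p (z L)) := hkp
  have t1 := hd.tri q q' (z L)
  have t2 := hd.tri p q q'
  have t3 := hd.tri p q' (z L)
  have l1 := hlg 0 km L (by omega) hkmL le_rfl
  have l2 := hlg 0 kp L (by omega) hkpL le_rfl
  rw [hz0] at l1 l2
  have f1 : d q (z km) ≤ C3 := by
    have h := fellow hd hC (x := p) (y := z L) (p := q) (q := z km) (c := c3) (e := 0)
      (by omega) (by omega) (by omega) (by omega)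
    omega
  have f2 : d q' (z kp) ≤ C3 := by
    have h := fellow hd hC (x := p) (y := z L) (p := q') (q := z kp) (c := c3) (e := c3)
      (by omega) (by omega) (by omega) (by omega)
    omega
  have hord : km < kp := by
    by_contra hc
    push Not at hc
    have l3 := hlg 0 kp km (by omega) hc hkmL
    rw [hz0] at l3
    omega
  have s1 := hd.symm q (z km)
  have s2 := hd.symm q' (z kp)
  have hlen : d q q' ≤ (kp - km) + 2 * C3 := by
    have h1 := hd.tri q (z km) q'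
    have h2 := hd.tri (z km) (z kp) q'
    have h3 := hzle km kp hord.le
    omega
  -- the points in between are close to `Y`
  have hclose : ∀ k, km ≤ k → k ≤ kp → ∃ u ∈ Set.range y, d (z k) u ≤ C4 := by
    intro k h1 h2
    have l3 := hlg km k kp h1 h2 hkpL
    have h3 := hd.tri q (z km) (z k)
    have h4 := hd.tri (z k) (z kp) q'
    have h5 := hd.tri (z km) q (z kp)
    have h6 := hd.tri q q' (z kp)
    obtain ⟨u, hu, hu2⟩ := SHAD_.clos hd hC hY hq.1 hq'.1 (v := z k) (f := 4 * C3 + 2 * C)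
      (by omega)
    exact ⟨u, hu, by omega⟩
  -- (a)
  have ha : kp - km < m + Λ := by
    by_contra hc
    push Not at hc
    obtain ⟨u1, hu1, hu1'⟩ := hclose km le_rfl hord.le
    obtain ⟨u2, hu2, hu2'⟩ := hclose (km + Λ) (by omega) (by omega)
    obtain ⟨v1, hv1, hv1'⟩ := hclose (km + m) (by omega) (by omega)
    obtain ⟨v2, hv2, hv2'⟩ := hclose (km + Λ + m) (by omega) (by omega)
    obtain ⟨w1, hw1⟩ := exists_near (d := d) (Y := Set.range y) ⟨u1, hu1⟩ (t • u1)
    obtain ⟨w2, hw2⟩ := exists_near (d := d) (Y := Set.range y) ⟨u1, hu1⟩ (t • u2)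
    have hb := hB u1 hu1 u2 hu2 w1 w2 hw1 hw2
    have e1 : d (t • z km) (t • u1) ≤ C4 := by rw [inv]; exact hu1'
    have e2 : d (t • z (km + Λ)) (t • u2) ≤ C4 := by rw [inv]; exact hu2'
    rw [← hzm] at e1 e2
    have n1 := hw1.2 v1 hv1
    have n2 := hw2.2 v2 hv2
    have a1 := hd.tri (t • u1) (z (km + m)) v1
    have a2 := hd.tri (t • u2) (z (km + Λ + m)) v2
    have b1 := hd.symm (t • u1) (z (km + m))
    have b2 := hd.symm (t • u2) (z (km + Λ + m))
    have hd12 := hzloc (km + m) (km + Λ + m) (by omega) (by omega)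
    have c1 := hd.tri (z (km + m)) (t • u1) (z (km + Λ + m))
    have c2 := hd.tri (t • u1) w1 (z (km + Λ + m))
    have c4 := hd.tri w1 w2 (z (km + Λ + m))
    have c5 := hd.tri w2 (t • u2) (z (km + Λ + m))
    have b3 := hd.symm w2 (t • u2)
    omega
  -- (b)
  obtain ⟨k', hk'⟩ : ∃ k', k' = min kp (km + m) := ⟨_, rfl⟩
  obtain ⟨p0, hp0⟩ := exists_near (d := d) (Y := Set.range y) ⟨_, hq.1⟩ (z km)
  obtain ⟨w0, hw0⟩ := exists_near (d := d) (Y := Set.range y) ⟨_, hq.1⟩ (t • z km)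
  have hx := hS (z km) p0 w0 (by rw [← hzm, hzloc km (km + m) (by omega) le_rfl]; omega) hp0 hw0
  obtain ⟨u1, hu1, hu1'⟩ := hclose km le_rfl hord.le
  obtain ⟨u2, hu2, hu2'⟩ := hclose k' (by omega) (by omega)
  have n1 := hp0.2 u1 hu1
  have n2 := hw0.2 u2 hu2
  rw [← hzm] at n2
  have a1 := hd.tri (z (km + m)) (z k') u2
  have a2 := hzloc k' (km + m) (by omega) (by omega)
  have a3 := hzloc km (km + m) (by omega) le_rfl
  have a4 := hd.symm (z (km + m)) (z k')
  have a5 := hd.tri (z km) p0 (z (km + m))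
  have a6 := hd.tri p0 w0 (z (km + m))
  have a7 := hd.symm w0 (z (km + m))
  rw [hzm] at a7
  rw [← hzm] at a7
  omega

end TB_

open TB_ in
theorem p_TB (hLG : T_LG) (hSHAD : T_SHAD) : T_TB := by
  intro δ κ c B
  obtain ⟨E1, hE1⟩ := hSHAD δ κ c 0
  obtain ⟨C, hC⟩ : ∃ C, C = 4 * δ + 2 := ⟨_, rfl⟩
  obtain ⟨c3, hc3⟩ : ∃ c3, c3 = 5 * C + 4 * κ + 2 := ⟨_, rfl⟩
  obtain ⟨C3, hC3⟩ : ∃ C3, C3 = 2 * c3 + C := ⟨_, rfl⟩
  obtain ⟨C4, hC4⟩ : ∃ C4, C4 = 2 * (4 * C3 + 2 * C) + C + κ := ⟨_, rfl⟩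
  obtain ⟨Λ, hΛ⟩ : ∃ Λ, Λ = B + 6 * C4 + 1 := ⟨_, rfl⟩
  obtain ⟨E, hE⟩ : ∃ E, E = 2 * (E1 + 4 * C3 + 2 * Λ + 4 * C4) + 4 * (c3 + 2 * C + 1) := ⟨_, rfl⟩
  refine ⟨4 * C + 2 + Λ, E, ?_⟩
  intro V G _ _ d hd ht inv y ρ t N ℓ hax hEℓ p hM hmin hB n q q' hq hq'
  by_contra hcon
  push Not at hcon
  refine core hd ht inv hax hLG hC hc3 hC3 hC4 hΛ hE hEℓ (m := d p (t • p)) rfl (by omega)
    (by omega) (fun u => (hmin u).1) ?_ hB n hq hq' hcon
  intro x p0 w0 hx hp0 hw0
  have h := hE1 V G d hd ht inv y ρ N ℓ hax (by omega) {t • x} (qc_single hd _) x (t • x) (t • x)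
    ⟨rfl, fun y' hy' => by rw [Set.mem_singleton_iff.1 hy']⟩ rfl ?_ p0 w0 w0 hp0 hw0 hw0
    (by rw [hd.self]; omega)
  · rw [hd.self] at h
    omega
  · intro u hu
    rw [Set.mem_singleton_iff.1 hu, hx]
    have h1 := (hmin x).2.1
    have h2 := (hmin x).2.2
    have e1 : d (ρ • x) (t • x) = d x ((ρ⁻¹ * t) • x) := by
      rw [mul_smul, ← inv ρ x (ρ⁻¹ • t • x), smul_inv_smul]
    have e2 : d (ρ⁻¹ • x) (t • x) = d x ((ρ * t) • x) := by
      rw [mul_smul, ← inv ρ⁻¹ x (ρ • t • x), inv_smul_smul]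
    rw [e1, e2]
    exact ⟨h2, h1⟩

end TK
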