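import Pool.Agent.TK.Targets2

set_option autoImplicit false
set_option linter.unusedVariables false

/-!
# Project TK: TK-TBG, group level version of the translation lemma
-/

namespace TK

open Subgroup

namespace TBG_

/-- bound for the projection distance of two vertices -/
theorem pd_le {V J : Type} (d : V → V → ℕ) (Y : J → Set V) (j : J) (u w : V ⊕ J) (a : ℕ)
    (h : ∀ y y', Pr d Y j u y → Pr d Y j w y' → d y y' ≤ a) : PD d Y j u w ≤ a := by
  unfold PD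
  rcases Set.eq_empty_or_nonempty {n | ∃ y y', Pr d Y j u y ∧ Pr d Y j w y' ∧ d y y' = n} with h0 | h0
  · rw [h0]; simp
  · refine csSup_le h0 ?_
    rintro n ⟨y, y', h1, h2, rfl⟩
    exact h y y' h1 h2

theorem yf_eq {Γ V : Type} [Group Γ] [MulAction Γ V] (e : Γ) (x0 : V) (j : Γ ⧸ zpowers e) :
    Yf e x0 j = Set.range (fun m : ℤ => (Quotient.out j * e ^ m) • x0) := by
  ext z
  constructor
  · rintro ⟨p, hp, rfl⟩
    obtain ⟨m, rfl⟩ := mem_zpowers_iff.mp hp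
    exact ⟨m, rfl⟩
  · rintro ⟨m, rfl⟩
    exact ⟨e ^ m, zpow_mem (mem_zpowers e) m, rfl⟩

theorem axis {Γ : Type} [Group Γ] {V : Type} [MulAction Γ V] {d : V → V → ℕ} {x0 : V}
    {H : Subgroup Γ} {e : Γ} {δ κ c B : ℕ} (hK : KE Γ V d x0 H e δ κ c B) (N : ℕ) (hN : 1 ≤ N)
    (j : Γ ⧸ zpowers e) :
    Axis d κ c (fun m : ℤ => (Quotient.out j * e ^ m) • x0)
      (Quotient.out j * e ^ N * (Quotient.out j)⁻¹) (N : ℤ) (d x0 (e ^ N • x0)) := by
  refine ⟨?_, ?_, by exact_mod_cast hN, ?_, ?_⟩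
  · intro a b k hab hbk
    have h := hK.ql a b k hab hbk
    simp only [mul_smul, hK.act.inv]
    exact h
  · rw [← yf_eq]
    exact hK.fam.qc j
  · intro m
    show _ • _ • x0 = _ • x0
    rw [smul_smul]
    congr 1
    rw [add_comm m, zpow_add, zpow_natCast]
    group
  · intro m
    show d ((Quotient.out j * e ^ m) • x0) ((Quotient.out j * e ^ (m + (N : ℤ))) • x0) = _
    rw [zpow_add, ← mul_assoc, mul_smul (Quotient.out j * e ^ m), hK.act.inv, zpow_natCast]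

theorem rho_mem {Γ : Type} [Group Γ] (e g : Γ) (N : ℕ) :
    g * e ^ N * g⁻¹ ∈ normalClosure ({e ^ N} : Set Γ) :=
  Subgroup.Normal.conj_mem (Subgroup.normalClosure_normal (s := ({e ^ N} : Set Γ))) (e ^ N)
    (Subgroup.subset_normalClosure (Set.mem_singleton (e ^ N))) g

theorem pos (hTB : T_TB) (hYR : T_YR) (Γ : Type) [Group Γ] (V : Type) [MulAction Γ V]
    (d : V → V → ℕ) (x0 : V)
    (H : Subgroup Γ) (e : Γ) (δ κ c B : ℕ) (hK : KE Γ V d x0 H e δ κ c B) : ∃ M0 E : ℕ,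
    ∀ N : ℕ, 1 ≤ N → E ≤ d x0 (e ^ N • x0) → ∀ (t : Γ) (p : V), M0 ≤ d p (t • p) →
    (∀ r ∈ normalClosure ({e ^ N} : Set Γ), ∀ u : V, d p (t • p) ≤ d u ((r * t) • u)) →
    ∀ j : Γ ⧸ zpowers e, t • j ≠ j → ∀ n : ℕ,
      4 * PD d (Yf e x0) j (Sum.inl p) (Sum.inl (t ^ n • p)) ≤ 3 * d x0 (e ^ N • x0) := by
  obtain ⟨M0, E, hE⟩ := hTB δ κ c B
  refine ⟨M0, E, fun N hN hl t p hM hmin j hj n => ?_⟩
  obtain ⟨-, yr2, -, -⟩ := hYR Γ V e x0
  have hax := axis hK N hN j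
  have hr := rho_mem e (Quotient.out j) N
  have h1 := hE V Γ d hK.act.geo hK.fam.thin hK.act.inv _ _ t _ _ hax hl p hM
    (fun u => ⟨by simpa using hmin 1 (one_mem _) u, hmin _ hr u, hmin _ (inv_mem hr) u⟩)
  rw [← yf_eq] at h1
  have h2 := h1 (by
    intro z hz z' hz' w w' hw hw'
    exact hK.fam.bo (t • j) j hj (t • z) (yr2 t z j hz) (t • z') (yr2 t z' j hz') w w' hw hw') n
  have h3 : PD d (Yf e x0) j (Sum.inl p) (Sum.inl (t ^ n • p)) ≤ 3 * d x0 (e ^ N • x0) / 4 := by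
    refine pd_le _ _ _ _ _ _ fun y y' hy hy' => ?_
    have h4 := h2 y y' hy hy'
    omega
  omega

end TBG_

open TBG_ in
theorem p_TBG (hTB : T_TB) (hPD : T_PD) (hYR : T_YR) (hCINV : T_CINV) (hCONE : T_CONE) :
    T_TBG := by
  intro Γ _ V _ d x0 H e δ κ c B hK
  obtain ⟨M0, E, hE⟩ := pos hTB hYR Γ V d x0 H e δ κ c B hK
  refine ⟨M0, E, fun N hN hl t p hM hmin j hj n => ?_⟩
  obtain ⟨-, yr2, -, -⟩ := hYR Γ V e x0
  obtain ⟨D, hD⟩ := hCONE V (Γ ⧸ zpowers e) d (Yf e x0) hK.act.geo hK.fam.ne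
  obtain ⟨-, hci⟩ := hCINV V (Γ ⧸ zpowers e) d (Yf e x0) D hK.act.geo hD
  obtain ⟨-, hPinv⟩ := hci Γ hK.act.inv yr2
  obtain ⟨E1, hE1⟩ := hPD δ κ B
  have hE' := hE1 V (Γ ⧸ zpowers e) d (Yf e x0) hK.fam
  rcases n with n | n
  · simpa using hE N hN hl t p hM hmin j hj n
  · have hj' : t • (t ^ (n + 1) • j) ≠ t ^ (n + 1) • j := by
      intro h
      apply hj
      have h2 : t ^ (n + 1) • (t • j) = t ^ (n + 1) • j := by
        rw [smul_smul, ← pow_succ, pow_succ', ← smul_smul]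
        exact h
      exact MulAction.injective (t ^ (n + 1)) h2
    have h1 := hE N hN hl t p hM hmin (t ^ (n + 1) • j) hj' (n + 1)
    have h2 := hPinv (t ^ (n + 1)) j (Sum.inl p) (Sum.inl (t ^ (Int.negSucc n) • p))
    rw [Sum.smul_inl, Sum.smul_inl, smul_smul] at h2
    have h3 : t ^ (n + 1) * t ^ (Int.negSucc n) = 1 := by
      rw [zpow_negSucc, mul_inv_cancel]
    rw [h3, one_smul] at h2
    rw [← h2, (hE' (t ^ (n + 1) • j)).2.2.2.1]
    exact h1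

end TK
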