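import Pool.Agent.TK.Targets1

set_option autoImplicit false
set_option linter.unusedVariables false
set_option linter.unusedSectionVars false

/-!
# Project TK: the windmill
-/

namespace TK

namespace WIN_

variable {P J G : Type} [Group G] [MulAction G P] [MulAction G J] {d : P → P → ℕ}
  {v : J → P} {D : J → P → P → ℕ} {R : J → Subgroup G} {K L : ℕ}

/-! ## projection distances -/

theorem eq_of_le (S : Spin d v D R K L) {x y : P} (h : d x y ≤ 0) : x = y :=
  S.geo.eq x y (Nat.le_zero.1 h)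

theorem lt_self (S : Spin d v D R K L) {j : J} {u : P} (h : u ≠ v j) : D j u u < K := by
  by_contra hcon
  push Not at hcon
  have h1 := S.bgi j u u h h hcon
  unfold Btw at h1
  have h2 := S.geo.self u
  exact h (eq_of_le S (by omega))

theorem lt_adj (S : Spin d v D R K L) {j : J} {u w : P} (hu : u ≠ v j) (hw : w ≠ v j)
    (h : d u w ≤ 1) : D j u w < K := by
  by_contra hcon
  push Not at hcon
  have h1 := S.bgi j u w hu hw hcon
  unfold Btw at h1
  rcases Nat.eq_zero_or_pos (d u (v j)) with h2 | h2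
  · exact hu (S.geo.eq _ _ h2)
  · have h3 : d (v j) w = 0 := by omega
    exact hw (S.geo.eq _ _ h3).symm

theorem lt_btw (S : Spin d v D R K L) {j : J} {a z b : P} (ha : a ≠ v j) (hz : z ≠ v j)
    (hb : b ≠ v j) (h : Btw d a z b) : D j z a < K ∨ D j z b < K := by
  by_contra hcon
  push Not at hcon
  have h1 := S.bgi j z a hz ha hcon.1
  have h2 := S.bgi j z b hz hb hcon.2
  unfold Btw at h h1 h2
  have h3 := S.geo.symm a z
  have h4 := S.geo.tri a (v j) b
  have h5 := S.geo.symm a (v j)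
  exact hz (eq_of_le S (by omega))

theorem behrstock (S : Spin d v D R K L) {i j : J} {u : P} (hij : i ≠ j) (hi : u ≠ v i)
    (hj : u ≠ v j) (h : K ≤ D j u (v i)) : D i u (v j) < K := by
  by_contra hcon
  push Not at hcon
  have hne : v i ≠ v j := fun h => hij (S.inj h)
  have h1 := S.bgi j u (v i) hj hne h
  have h2 := S.bgi i u (v j) hi hne.symm hcon
  unfold Btw at h1 h2
  have h3 := S.geo.symm (v i) (v j)
  exact hne (eq_of_le S (by omega))

theorem rfix (S : Spin d v D R K L) {j : J} {r : G} (hr : r ∈ R j) : r • v j = v j := by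
  rw [S.vinv, S.Rfix j r hr]

theorem dfix (S : Spin d v D R K L) {j : J} {r : G} (hr : r ∈ R j) (u w : P) :
    D j (r • u) (r • w) = D j u w := by
  have := S.Dinv r j u w
  rwa [S.Rfix j r hr] at this

theorem ne_smul (S : Spin d v D R K L) {j : J} {r : G} (hr : r ∈ R j) {u : P} (h : u ≠ v j) :
    r • u ≠ v j := by
  intro h1
  apply h
  have h2 : r • u = r • v j := by rw [h1, rfix S hr]
  exact smul_left_cancel r h2

theorem btw_smul (S : Spin d v D R K L) (g : G) {a z b : P} (h : Btw d a z b) :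
    Btw d (g • a) (g • z) (g • b) := by
  unfold Btw at *
  rw [S.inv, S.inv, S.inv]
  exact h

/-! ## the groups and the sets -/

/-- the group generated by the rotations about apices in `W` -/
def RW (v : J → P) (R : J → Subgroup G) (W : Set P) : Subgroup G :=
  Subgroup.closure {g | ∃ j, v j ∈ W ∧ g ∈ R j}

theorem mem_RW {W : Set P} {j : J} {g : G} (h : v j ∈ W) (hg : g ∈ R j) : g ∈ RW v R W :=
  Subgroup.subset_closure ⟨j, h, hg⟩

theorem RW_mono {W W' : Set P} (h : W ⊆ W') : RW v R W ≤ RW v R W' :=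
  Subgroup.closure_mono fun _ ⟨j, hj, hg⟩ => ⟨j, h hj, hg⟩

/-- good sets -/
structure Gd (d : P → P → ℕ) (v : J → P) (D : J → P → P → ℕ) (R : J → Subgroup G) (K L : ℕ)
    (x : P) (W : Set P) : Prop where
  h0 : ∀ r ∈ RW v R W, ∀ u ∈ W, r • u ∈ W
  h2 : ∀ j, v j ∉ W → ∀ a ∈ W, ∀ b ∈ W, D j a b ≤ 7 * K
  h3 : ∀ r ∈ RW v R W, Red v D R (L - 12 * K) x r
  h4 : x ∈ W

/-- hull -/
def Wh (d : P → P → ℕ) (W : Set P) : Set P := {z | ∃ a ∈ W, ∃ b ∈ W, Btw d a z b}

/-- outside apices -/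
def OA (v : J → P) (W : Set P) (w : P) : Prop := ∃ j, w = v j ∧ v j ∉ W

/-- thickened hull -/
def Wf (d : P → P → ℕ) (v : J → P) (W : Set P) : Set P :=
  {u | u ∈ Wh d W ∨ ∃ w ∈ Wh d W, d w u ≤ 1 ∧ ¬ OA v W w}

/-- the next set -/
def Wn (d : P → P → ℕ) (v : J → P) (R : J → Subgroup G) (W : Set P) : Set P :=
  {y | ∃ r ∈ RW v R (Wf d v W), ∃ u ∈ Wf d v W, y = r • u}

theorem sub_Wh (S : Spin d v D R K L) (W : Set P) : W ⊆ Wh d W :=
  fun a ha => ⟨a, ha, a, ha, btw_left S.geo a a⟩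

theorem sub_Wf (S : Spin d v D R K L) (W : Set P) : W ⊆ Wf d v W :=
  fun a ha => Or.inl (sub_Wh S W ha)

theorem sub_Wn (S : Spin d v D R K L) (W : Set P) : Wf d v W ⊆ Wn d v R W :=
  fun a ha => ⟨1, Subgroup.one_mem _, a, ha, (one_smul G a).symm⟩

theorem nbhd (S : Spin d v D R K L) (W : Set P) {w u : P} (hw : w ∈ W) (h : d w u ≤ 1) :
    u ∈ Wn d v R W := by
  refine sub_Wn S W (Or.inr ⟨w, sub_Wh S W hw, h, ?_⟩)
  rintro ⟨j, hj, hj'⟩
  rw [hj] at hw
  exact hj' hw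

theorem Wn_inv (W : Set P) {r : G} (hr : r ∈ RW v R (Wf d v W)) {u : P} (hu : u ∈ Wn d v R W) :
    r • u ∈ Wn d v R W := by
  obtain ⟨s, hs, w, hw, rfl⟩ := hu
  exact ⟨r * s, Subgroup.mul_mem _ hr hs, w, hw, (mul_smul r s w).symm⟩

theorem Wn_apex (S : Spin d v D R K L) (W : Set P) {r : G} (hr : r ∈ RW v R (Wf d v W)) {j : J}
    (hj : v j ∉ Wn d v R W) : v (r⁻¹ • j) ∉ Wn d v R W := by
  intro h
  apply hj
  have h1 := Wn_inv W hr h
  rwa [S.vinv, smul_inv_smul] at h1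

section Step

variable {x : P} {W : Set P}

theorem W_iff (hW : Gd d v D R K L x W) {r : G} (hr : r ∈ RW v R W) (u : P) :
    r • u ∈ W ↔ u ∈ W := by
  constructor
  · intro h
    have := hW.h0 r⁻¹ (Subgroup.inv_mem _ hr) _ h
    rwa [inv_smul_smul] at this
  · exact hW.h0 r hr u

theorem Wh_smul (S : Spin d v D R K L) (hW : Gd d v D R K L x W) {r : G} (hr : r ∈ RW v R W)
    {u : P} (hu : u ∈ Wh d W) : r • u ∈ Wh d W := by
  obtain ⟨a, ha, b, hb, h⟩ := hu
  exact ⟨r • a, hW.h0 r hr a ha, r • b, hW.h0 r hr b hb, btw_smul S r h⟩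

theorem Wf_smul (S : Spin d v D R K L) (hW : Gd d v D R K L x W) {r : G} (hr : r ∈ RW v R W)
    {u : P} (hu : u ∈ Wf d v W) : r • u ∈ Wf d v W := by
  rcases hu with hu | ⟨w, hw, h1, h2⟩
  · exact Or.inl (Wh_smul S hW hr hu)
  · refine Or.inr ⟨r • w, Wh_smul S hW hr hw, by rw [S.inv]; exact h1, ?_⟩
    rintro ⟨j, hj, hj'⟩
    apply h2
    refine ⟨r⁻¹ • j, ?_, ?_⟩
    · rw [← S.vinv, ← hj, inv_smul_smul]
    · rw [← S.vinv, W_iff hW (Subgroup.inv_mem _ hr)]
      exact hj'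

/-- points of the thickened hull are close to `W` -/
theorem close (S : Spin d v D R K L) (hW : Gd d v D R K L x W) {j : J} (hj : v j ∉ W) {u : P}
    (hu : u ∈ Wf d v W) (huj : u ≠ v j) : ∃ a ∈ W, D j u a < 2 * K := by
  have key : ∀ w ∈ Wh d W, w ≠ v j → ∃ a ∈ W, D j w a < K := by
    rintro w ⟨a, ha, b, hb, h⟩ hw
    have ha' : a ≠ v j := fun h => hj (h ▸ ha)
    have hb' : b ≠ v j := fun h => hj (h ▸ hb)
    rcases lt_btw S ha' hw hb' h with h1 | h1
    · exact ⟨a, ha, h1⟩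
    · exact ⟨b, hb, h1⟩
  rcases hu with hu | ⟨w, hw, h1, h2⟩
  · obtain ⟨a, ha, h⟩ := key u hu huj
    exact ⟨a, ha, by omega⟩
  · have hwj : w ≠ v j := fun h => h2 ⟨j, h, hj⟩
    obtain ⟨a, ha, h⟩ := key w hw hwj
    have ha' : a ≠ v j := fun h => hj (h ▸ ha)
    have h3 : D j u w < K := lt_adj S huj hwj (by rw [S.geo.symm]; exact h1)
    have h4 := S.tri j u w a huj hwj ha'
    exact ⟨a, ha, by omega⟩

theorem diam (S : Spin d v D R K L) (hW : Gd d v D R K L x W) {j : J} (hj : v j ∉ W) {u w : P}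
    (hu : u ∈ Wf d v W) (hw : w ∈ Wf d v W) (huj : u ≠ v j) (hwj : w ≠ v j) :
    D j u w ≤ 11 * K := by
  obtain ⟨a, ha, h1⟩ := close S hW hj hu huj
  obtain ⟨b, hb, h2⟩ := close S hW hj hw hwj
  have ha' : a ≠ v j := fun h => hj (h ▸ ha)
  have hb' : b ≠ v j := fun h => hj (h ▸ hb)
  have h3 := hW.h2 j hj a ha b hb
  have h4 := S.tri j u a w huj ha' hwj
  have h5 := S.tri j a b w ha' hb' hwj
  have h6 := S.symm j w b
  omega

theorem diam' (S : Spin d v D R K L) (hW : Gd d v D R K L x W) {j : J} (hj : v j ∉ Wf d v W)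
    {u w : P} (hu : u ∈ Wf d v W) (hw : w ∈ Wf d v W) : D j u w < 5 * K := by
  have hj' : v j ∉ W := fun h => hj (sub_Wf S W h)
  have huj : u ≠ v j := fun h => hj (h ▸ hu)
  have hwj : w ≠ v j := fun h => hj (h ▸ hw)
  obtain ⟨a, ha, h1⟩ := close S hW hj' hu huj
  obtain ⟨b, hb, h2⟩ := close S hW hj' hw hwj
  have ha' : a ≠ v j := fun h => hj' (h ▸ ha)
  have hb' : b ≠ v j := fun h => hj' (h ▸ hb)
  have h3 : D j a b < K := by
    by_contra hcon
    push Not at hcon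
    exact hj (Or.inl ⟨a, ha, b, hb, S.bgi j a b ha' hb' hcon⟩)
  have h4 := S.tri j u a w huj ha' hwj
  have h5 := S.tri j a b w ha' hb' hwj
  have h6 := S.symm j w b
  omega

/-! ## syllables -/

/-- products with at most `m` syllables -/
def Syl (d : P → P → ℕ) (v : J → P) (R : J → Subgroup G) (W : Set P) : ℕ → Set G
  | 0 => {g | g ∈ RW v R W}
  | (m + 1) => {g | g ∈ Syl d v R W m ∨ ∃ j, v j ∈ Wf d v W ∧ v j ∉ W ∧ ∃ ρ ∈ R j,
      ∃ g1 ∈ Syl d v R W m, g = ρ * g1}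

theorem Syl_sub (S : Spin d v D R K L) (m : ℕ) : ∀ g ∈ Syl d v R W m, g ∈ RW v R (Wf d v W) := by
  induction m with
  | zero => exact fun g hg => RW_mono (sub_Wf S W) hg
  | succ m ih =>
    rintro g (hg | ⟨j, hj, -, ρ, hρ, g1, hg1, rfl⟩)
    · exact ih g hg
    · exact Subgroup.mul_mem _ (mem_RW hj hρ) (ih g1 hg1)

theorem Syl_left (S : Spin d v D R K L) (hW : Gd d v D R K L x W) {r : G} (hr : r ∈ RW v R W)
    (m : ℕ) : ∀ g ∈ Syl d v R W m, r * g ∈ Syl d v R W m := by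
  induction m with
  | zero => exact fun g hg => Subgroup.mul_mem _ hr hg
  | succ m ih =>
    rintro g (hg | ⟨j, hj, hj', ρ, hρ, g1, hg1, rfl⟩)
    · exact Or.inl (ih g hg)
    · refine Or.inr ⟨r • j, ?_, ?_, r * ρ * r⁻¹, S.Rinv r j ρ hρ, r * g1, ih g1 hg1, by group⟩
      · rw [← S.vinv]
        exact Wf_smul S hW hr hj
      · rw [← S.vinv, W_iff hW hr]
        exact hj'

theorem exists_Syl (S : Spin d v D R K L) (hW : Gd d v D R K L x W) {g : G}
    (hg : g ∈ RW v R (Wf d v W)) : ∃ m, g ∈ Syl d v R W m := by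
  have key : ∀ g ∈ RW v R (Wf d v W), ∀ h m, h ∈ Syl d v R W m →
      ∃ m', g * h ∈ Syl d v R W m' := by
    intro g hg
    have hgen : ∀ j, v j ∈ Wf d v W → ∀ ρ ∈ R j, ∀ h m, h ∈ Syl d v R W m →
        ∃ m', ρ * h ∈ Syl d v R W m' := by
      intro j hj ρ hρ h m hh
      by_cases hj' : v j ∈ W
      · exact ⟨m, Syl_left S hW (mem_RW hj' hρ) m h hh⟩
      · exact ⟨m + 1, Or.inr ⟨j, hj, hj', ρ, hρ, h, hh, rfl⟩⟩
    unfold RW at hg
    induction hg using Subgroup.closure_induction'' with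
    | mem y hy =>
      obtain ⟨j, hj, hρ⟩ := hy
      exact hgen j hj y hρ
    | inv_mem y hy =>
      obtain ⟨j, hj, hρ⟩ := hy
      exact hgen j hj y⁻¹ (Subgroup.inv_mem _ hρ)
    | one =>
      intro h m hh
      exact ⟨m, by rwa [one_mul]⟩
    | mul a b _ _ iha ihb =>
      intro h m hh
      obtain ⟨m1, h1⟩ := ihb h m hh
      obtain ⟨m2, h2⟩ := iha _ m1 h1
      exact ⟨m2, by rwa [mul_assoc]⟩
  obtain ⟨m', h⟩ := key g hg 1 0 (show (1 : G) ∈ RW v R W from Subgroup.one_mem _)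
  exact ⟨m', by rwa [mul_one] at h⟩

/-- the last syllable is seen -/
theorem see (S : Spin d v D R K L) (hK : 1 ≤ K) (hL : 100 * K ≤ L)
    (hW : Gd d v D R K L x W) (m : ℕ) : ∀ g1 ∈ Syl d v R W m, ∀ j, v j ∈ Wf d v W → v j ∉ W →
    ∀ ρ ∈ R j, ρ * g1 ∉ Syl d v R W m → ∀ y0 ∈ Wf d v W, g1 • y0 ≠ v j →
    ∀ u ∈ Wf d v W, u ≠ v j → D j (g1 • y0) u ≤ 12 * K := by
  induction m with
  | zero =>
    intro g1 hg1 j hj hj' ρ hρ hn y0 hy0 hy1 u hu huj
    have := diam S hW hj' (Wf_smul S hW hg1 hy0) hu hy1 huj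
    omega
  | succ m ih =>
    intro g1 hg1 j hj hj' ρ hρ hn y0 hy0 hy1 u hu huj
    have hg1' : g1 ∉ Syl d v R W m := fun h =>
      hn (Or.inr ⟨j, hj, hj', ρ, hρ, g1, h, rfl⟩)
    rcases hg1 with hg1 | ⟨j2, hj2, hj2', ρ2, hρ2, g2, hg2, rfl⟩
    · exact absurd hg1 hg1'
    have hne : j ≠ j2 := by
      rintro rfl
      exact hn (Or.inr ⟨j, hj, hj', ρ * ρ2, Subgroup.mul_mem _ hρ hρ2, g2, hg2,
        by rw [mul_assoc]⟩)
    have hvne : v j2 ≠ v j := fun h => hne (S.inj h).symm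
    have hρ2' : ρ2 ≠ 1 := by
      rintro rfl
      rw [one_mul] at hg1'
      exact hg1' hg2
    by_cases hy2 : (ρ2 * g2) • y0 = v j2
    · rw [hy2]
      have := diam S hW hj' hj2 hu hvne huj
      omega
    · have hy3 : g2 • y0 ≠ v j2 := by
        intro h
        apply hy2
        rw [mul_smul, h, rfix S hρ2]
      have h1 := ih g2 hg2 j2 hj2 hj2' ρ2 hρ2 hg1' y0 hy0 hy3 (v j) hj hvne.symm
      have h2 : D j2 ((ρ2 * g2) • y0) (ρ2 • v j) ≤ 12 * K := by
        rw [mul_smul, dfix S hρ2]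
        exact h1
      have h3 := S.big j2 ρ2 (v j) hρ2 hρ2' hvne.symm
      have h4 := S.tri j2 (v j) ((ρ2 * g2) • y0) (ρ2 • v j) hvne.symm hy2
        (ne_smul S hρ2 hvne.symm)
      have h5 := S.symm j2 (v j) ((ρ2 * g2) • y0)
      have h6 := behrstock S hne hy1 hy2 (by omega)
      have h7 := S.tri j ((ρ2 * g2) • y0) (v j2) u hy1 hvne huj
      have h8 := diam S hW hj' hj2 hu hvne huj
      omega

/-- consequence for `y = ρ g₁ y₀` -/
theorem see' (S : Spin d v D R K L) (hK : 1 ≤ K) (hL : 100 * K ≤ L)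
    (hW : Gd d v D R K L x W) {m : ℕ} {g1 : G} (hg1 : g1 ∈ Syl d v R W m) {j : J}
    (hj : v j ∈ Wf d v W) (hj' : v j ∉ W) {ρ : G} (hρ : ρ ∈ R j)
    (hn : ρ * g1 ∉ Syl d v R W m) {y0 : P} (hy0 : y0 ∈ Wf d v W) (hy : (ρ * g1) • y0 ≠ v j)
    {u : P} (hu : u ∈ Wf d v W) (huj : u ≠ v j) : D j ((ρ * g1) • y0) (ρ • u) ≤ 12 * K := by
  rw [mul_smul, dfix S hρ]
  refine see S hK hL hW m g1 hg1 j hj hj' ρ hρ hn y0 hy0 ?_ u hu huj
  intro h
  apply hy
  rw [mul_smul, h, rfix S hρ]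

/-- apices between the thickened hull and its translates -/
theorem between (S : Spin d v D R K L) (hK : 1 ≤ K) (hL : 100 * K ≤ L)
    (hW : Gd d v D R K L x W) (m : ℕ) : ∀ g ∈ Syl d v R W m, ∀ j, v j ∉ Wn d v R W →
    ∀ y ∈ Wf d v W, ∀ z0 ∈ Wf d v W, Btw d y (v j) (g • z0) →
    ∃ h ∈ RW v R (Wf d v W), ∃ a0 ∈ Wf d v W, ∃ b0 ∈ Wf d v W,
      Btw d y (h • a0) (v j) ∧ Btw d (v j) (h • b0) (g • z0) := by
  induction m with
  | zero =>
    intro g hg j hj y hy z0 hz0 hb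
    refine ⟨1, Subgroup.one_mem _, y, hy, g • z0, Wf_smul S hW hg hz0, ?_, ?_⟩
    · rw [one_smul]
      exact btw_left S.geo _ _
    · rw [one_smul]
      exact btw_right S.geo _ _
  | succ m ih =>
    intro g hg j hj y hy z0 hz0 hb
    by_cases hgm : g ∈ Syl d v R W m
    · exact ih g hgm j hj y hy z0 hz0 hb
    rcases hg with hg | ⟨i, hi, hi', ρ, hρ, g1, hg1, rfl⟩
    · exact absurd hg hgm
    have hρ1 : ρ ≠ 1 := by
      rintro rfl
      rw [one_mul] at hgm
      exact hgm hg1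
    have hρW : ρ ∈ RW v R (Wf d v W) := mem_RW hi hρ
    have hji : v j ≠ v i := fun h => hj (h ▸ sub_Wn S W hi)
    -- the reduction to the previous step
    have red : Btw d (v i) (v j) ((ρ * g1) • z0) → ∃ h ∈ RW v R (Wf d v W), ∃ a0 ∈ Wf d v W,
        ∃ b0 ∈ Wf d v W, Btw d (v i) (h • a0) (v j) ∧ Btw d (v j) (h • b0) ((ρ * g1) • z0) := by
      intro hb'
      have h1 := btw_smul S ρ⁻¹ hb'
      have e1 : ρ⁻¹ • v i = v i := rfix S (Subgroup.inv_mem _ hρ)
      have e2 : ρ⁻¹ • (ρ * g1) • z0 = g1 • z0 := by rw [mul_smul, inv_smul_smul]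
      rw [e1, e2, S.vinv] at h1
      obtain ⟨h, hh, a0, ha0, b0, hb0, h2, h3⟩ :=
        ih g1 hg1 (ρ⁻¹ • j) (Wn_apex S W hρW hj) (v i) hi z0 hz0 h1
      refine ⟨ρ * h, Subgroup.mul_mem _ hρW hh, a0, ha0, b0, hb0, ?_, ?_⟩
      · have h4 := btw_smul S ρ h2
        rwa [rfix S hρ, ← mul_smul, S.vinv, smul_inv_smul] at h4
      · have h4 := btw_smul S ρ h3
        rwa [← mul_smul, ← mul_smul, S.vinv, smul_inv_smul] at h4
    by_cases hzi : (ρ * g1) • z0 = v i
    · refine ⟨1, Subgroup.one_mem _, y, hy, v i, hi, ?_, ?_⟩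
      · rw [one_smul]
        exact btw_left S.geo _ _
      · rw [one_smul, hzi]
        exact btw_right S.geo _ _
    by_cases hyi : y = v i
    · subst hyi
      exact red hb
    have h1 := see' S hK hL hW hg1 hi hi' hρ hgm hz0 hzi hy hyi
    have h2 := S.big i ρ y hρ hρ1 hyi
    have h3 := S.tri i y ((ρ * g1) • z0) (ρ • y) hyi hzi (ne_smul S hρ hyi)
    have h4 := S.tri i y (v j) ((ρ * g1) • z0) hyi hji hzi
    by_cases h5 : K ≤ D i (v j) ((ρ * g1) • z0)
    · have h6 := S.bgi i (v j) _ hji hzi h5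
      refine ⟨1, Subgroup.one_mem _, y, hy, v i, hi, ?_, ?_⟩
      · rw [one_smul]
        exact btw_left S.geo _ _
      · rw [one_smul]
        exact h6
    · have h6 := S.bgi i y (v j) hyi hji (by omega)
      have h7 := Btw.trans_left S.geo hb h6
      obtain ⟨h, hh, a0, ha0, b0, hb0, h8, h9⟩ := red h7.2
      exact ⟨h, hh, a0, ha0, b0, hb0, (Btw.trans_right S.geo h6 h8).1, h9⟩

/-- diameter of the next set -/
theorem next_diam (S : Spin d v D R K L) (hK : 1 ≤ K) (hL : 100 * K ≤ L)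
    (hW : Gd d v D R K L x W) (j : J) (hj : v j ∉ Wn d v R W) :
    ∀ a ∈ Wn d v R W, ∀ b ∈ Wn d v R W, D j a b ≤ 7 * K := by
  -- first point in the thickened hull
  have key : ∀ j, v j ∉ Wn d v R W → ∀ y ∈ Wf d v W, ∀ g ∈ RW v R (Wf d v W),
      ∀ z0 ∈ Wf d v W, D j y (g • z0) ≤ 7 * K := by
    intro j hj y hy g hg z0 hz0
    by_contra hcon
    push Not at hcon
    have hne : ∀ w ∈ Wn d v R W, w ≠ v j := fun w hw h => hj (h ▸ hw)
    have hyj : y ≠ v j := hne y (sub_Wn S W hy)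
    have hzj : g • z0 ≠ v j := hne _ ⟨g, hg, z0, hz0, rfl⟩
    have h1 := S.bgi j y (g • z0) hyj hzj (by omega)
    obtain ⟨m, hm⟩ := exists_Syl S hW hg
    obtain ⟨h, hh, a0, ha0, b0, hb0, h2, h3⟩ := between S hK hL hW m g hm j hj y hy z0 hz0 h1
    have haj : h • a0 ≠ v j := hne _ ⟨h, hh, a0, ha0, rfl⟩
    have hbj : h • b0 ≠ v j := hne _ ⟨h, hh, b0, hb0, rfl⟩
    have h4 : D j y (h • a0) < K := by
      by_contra hc
      push Not at hc
      have h5 := S.bgi j y (h • a0) hyj haj hc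
      unfold Btw at h2 h5
      exact haj (eq_of_le S (by omega))
    have h5 : D j (h • b0) (g • z0) < K := by
      by_contra hc
      push Not at hc
      have h6 := S.bgi j (h • b0) (g • z0) hbj hzj hc
      unfold Btw at h3 h6
      exact hbj (eq_of_le S (by omega))
    have h6 : D j (h • a0) (h • b0) < 5 * K := by
      have h7 : v (h⁻¹ • j) ∉ Wf d v W := fun h8 =>
        Wn_apex S W hh hj (sub_Wn S W h8)
      have h8 := diam' S hW h7 ha0 hb0
      have h9 := S.Dinv h (h⁻¹ • j) a0 b0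
      rw [smul_inv_smul] at h9
      rw [h9]
      exact h8
    have h7 := S.tri j y (h • a0) (g • z0) hyj haj hzj
    have h8 := S.tri j (h • a0) (h • b0) (g • z0) haj hbj hzj
    omega
  rintro a ⟨r, hr, y, hy, rfl⟩ b ⟨s, hs, z0, hz0, rfl⟩
  have h1 := key (r⁻¹ • j) (Wn_apex S W hr hj) y hy (r⁻¹ * s)
    (Subgroup.mul_mem _ (Subgroup.inv_mem _ hr) hs) z0 hz0
  have h2 := S.Dinv r (r⁻¹ • j) y ((r⁻¹ * s) • z0)
  rw [smul_inv_smul, ← mul_smul, mul_inv_cancel_left] at h2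
  rw [h2]
  exact h1

theorem next_group (S : Spin d v D R K L) : RW v R (Wn d v R W) ≤ RW v R (Wf d v W) := by
  unfold RW
  rw [Subgroup.closure_le]
  rintro g ⟨j, ⟨r, hr, u, hu, hju⟩, hg⟩
  have h1 : v (r⁻¹ • j) ∈ Wf d v W := by
    rw [← S.vinv, hju, inv_smul_smul]
    exact hu
  have h2 := S.Rinv r⁻¹ j g hg
  have h3 : r⁻¹ * g * r⁻¹⁻¹ ∈ RW v R (Wf d v W) := mem_RW h1 h2
  have h4 : g = r * (r⁻¹ * g * r⁻¹⁻¹) * r⁻¹ := by group
  have h5 : g ∈ RW v R (Wf d v W) := by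
    rw [h4]
    exact Subgroup.mul_mem _ (Subgroup.mul_mem _ hr h3) (Subgroup.inv_mem _ hr)
  exact h5

/-- multiplication by a rotation about the base point -/
theorem red_mul (S : Spin d v D R K L) {M : ℕ} {x : P} {r : G} (h : Red v D R M x r) {i : J}
    (hx : x = v i) {s : G} (hs : s ∈ R i) : Red v D R M x (r * s) := by
  have hsx : s • x = x := by rw [hx, rfix S hs]
  induction h with
  | one =>
    rw [one_mul]
    exact Red.base i s hx hs
  | base j r hj hr =>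
    have : j = i := S.inj (hj.symm.trans hx)
    subst this
    exact Red.base j (r * s) hj (Subgroup.mul_mem _ hr hs)
  | step j ρ r h1 h2 h3 h4 h5 ih =>
    have e : (r * s) • x = r • x := by rw [mul_smul, hsx]
    refine Red.step j ρ (r * s) h1 (by rw [e]; exact h2) h3 (by rw [e]; exact h4) ?_
    rw [← mul_assoc]
    exact ih

theorem next_red (S : Spin d v D R K L) (hK : 1 ≤ K) (hL : 100 * K ≤ L)
    (hW : Gd d v D R K L x W) (m : ℕ) : ∀ g ∈ Syl d v R W m, Red v D R (L - 12 * K) x g := by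
  induction m with
  | zero => exact fun g hg => hW.h3 g hg
  | succ m ih =>
    intro g hg
    by_cases hgm : g ∈ Syl d v R W m
    · exact ih g hgm
    rcases hg with hg | ⟨j, hj, hj', ρ, hρ, g1, hg1, rfl⟩
    · exact absurd hg hgm
    have hρ1 : ρ ≠ 1 := by
      rintro rfl
      rw [one_mul] at hgm
      exact hgm hg1
    have hxj : x ≠ v j := fun h => hj' (h ▸ hW.h4)
    have hxf : x ∈ Wf d v W := sub_Wf S W hW.h4
    by_cases hgx : (ρ * g1) • x = v j
    · have h1 : g1 • x = v j := by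
        rw [mul_smul] at hgx
        have h2 : ρ • g1 • x = ρ • v j := by rw [hgx, rfix S hρ]
        exact smul_left_cancel ρ h2
      have h2 : x = v (g1⁻¹ • j) := by rw [← S.vinv, ← h1, inv_smul_smul]
      have h3 := S.Rinv g1⁻¹ j ρ hρ
      have h4 : ρ * g1 = g1 * (g1⁻¹ * ρ * g1⁻¹⁻¹) := by group
      rw [h4]
      exact red_mul S (ih g1 hg1) h2 h3
    · have h1 := see' S hK hL hW hg1 hj hj' hρ hgm hxf hgx hxf hxj
      have h2 := S.big j ρ x hρ hρ1 hxj
      have h3 := S.tri j x ((ρ * g1) • x) (ρ • x) hxj hgx (ne_smul S hρ hxj)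
      refine Red.step j ρ⁻¹ (ρ * g1) hxj hgx (Subgroup.inv_mem _ hρ) (by omega) ?_
      rw [inv_mul_cancel_left]
      exact ih g1 hg1

/-- the next set is good -/
theorem next_good (S : Spin d v D R K L) (hK : 1 ≤ K) (hL : 100 * K ≤ L)
    (hW : Gd d v D R K L x W) : Gd d v D R K L x (Wn d v R W) where
  h0 := fun r hr u hu => Wn_inv W (next_group S hr) hu
  h2 := next_diam S hK hL hW
  h3 := fun r hr => by
    obtain ⟨m, hm⟩ := exists_Syl S hW (next_group S hr)
    exact next_red S hK hL hW m r hm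
  h4 := sub_Wn S W (sub_Wf S W hW.h4)

end Step

theorem start_group (S : Spin d v D R K L) {x : P} {r : G} (hr : r ∈ RW v R {x}) :
    r = 1 ∨ ∃ j, x = v j ∧ r ∈ R j := by
  unfold RW at hr
  induction hr using Subgroup.closure_induction with
  | mem g hg =>
    obtain ⟨j, hj, hg⟩ := hg
    exact Or.inr ⟨j, (Set.mem_singleton_iff.1 hj).symm, hg⟩
  | one => exact Or.inl rfl
  | mul a b _ _ iha ihb =>
    rcases iha with rfl | ⟨i, hi, ha⟩
    · rw [one_mul]
      exact ihb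
    · rcases ihb with rfl | ⟨j, hj, hb⟩
      · rw [mul_one]
        exact Or.inr ⟨i, hi, ha⟩
      · have : i = j := S.inj (hi.symm.trans hj)
        subst this
        exact Or.inr ⟨i, hi, Subgroup.mul_mem _ ha hb⟩
  | inv a _ iha =>
    rcases iha with rfl | ⟨i, hi, ha⟩
    · exact Or.inl inv_one
    · exact Or.inr ⟨i, hi, Subgroup.inv_mem _ ha⟩

theorem start_good (S : Spin d v D R K L) (hK : 1 ≤ K) (x : P) : Gd d v D R K L x {x} where
  h0 := fun r hr u hu => by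
    rw [Set.mem_singleton_iff] at hu ⊢
    subst hu
    rcases start_group S hr with rfl | ⟨j, hj, hr⟩
    · exact one_smul _ _
    · rw [hj, rfix S hr]
  h2 := fun j hj a ha b hb => by
    rw [Set.mem_singleton_iff] at ha hb hj
    subst ha
    subst hb
    have := lt_self S (j := j) (u := b) (fun h => hj h.symm)
    omega
  h3 := fun r hr => by
    rcases start_group S hr with rfl | ⟨j, hj, hr⟩
    · exact Red.one
    · exact Red.base j r hj hr
  h4 := rfl

/-- the exhaustion -/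
def Ws (d : P → P → ℕ) (v : J → P) (R : J → Subgroup G) (x : P) : ℕ → Set P
  | 0 => {x}
  | (n + 1) => Wn d v R (Ws d v R x n)

theorem Ws_good (S : Spin d v D R K L) (hK : 1 ≤ K) (hL : 100 * K ≤ L) (x : P) (n : ℕ) :
    Gd d v D R K L x (Ws d v R x n) := by
  induction n with
  | zero => exact start_good S hK x
  | succ n ih => exact next_good S hK hL ih

theorem Ws_mono (S : Spin d v D R K L) (x : P) {m n : ℕ} (h : m ≤ n) :
    Ws d v R x m ⊆ Ws d v R x n := by
  induction h with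
  | refl => exact subset_rfl
  | step _ ih => exact ih.trans ((sub_Wf S _).trans (sub_Wn S _))

theorem Ws_ball (S : Spin d v D R K L) (x : P) (n : ℕ) : ∀ u, d x u ≤ n → u ∈ Ws d v R x n := by
  induction n with
  | zero =>
    intro u hu
    exact (eq_of_le S hu).symm
  | succ n ih =>
    intro u hu
    by_cases h : d x u ≤ n
    · exact Ws_mono S x (Nat.le_succ n) (ih u h)
    · obtain ⟨z, hz1, hz2⟩ := S.geo.geod x u n (by omega)
      exact nbhd S _ (ih z (by omega)) (by omega)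

end WIN_

open WIN_ in
theorem p_WIN : T_WIN := by
  intro P J G _ _ _ d v D R K L hK hL S x r hr
  have key : ∃ n, r ∈ RW v R (Ws d v R x n) := by
    induction hr using Subgroup.iSup_induction' with
    | hp j g hg => exact ⟨d x (v j), mem_RW (Ws_ball S x _ _ le_rfl) hg⟩
    | h1 => exact ⟨0, Subgroup.one_mem _⟩
    | hmul a b _ _ iha ihb =>
      obtain ⟨m, hm⟩ := iha
      obtain ⟨n, hn⟩ := ihb
      exact ⟨max m n, Subgroup.mul_mem _ (RW_mono (Ws_mono S x (le_max_left m n)) hm)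
        (RW_mono (Ws_mono S x (le_max_right m n)) hn)⟩
  obtain ⟨n, hn⟩ := key
  exact (Ws_good S hK hL x n).h3 r hn

end TK
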