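import Pool.Agent.TK.Targets1

set_option autoImplicit false
set_option linter.unusedVariables false

/-!
# Project TK: target TK-YR, elementary facts on cosets, axes and rotation groups
-/

namespace TK
namespace YR_

open Subgroup

variable {Γ V : Type} [Group Γ] [MulAction Γ V]

theorem orb_mul (P : Subgroup Γ) (g p : Γ) (hp : p ∈ P) (x : V) :
    orb P (g * p) x = orb P g x := by
  ext y
  constructor
  · rintro ⟨q, hq, rfl⟩
    exact ⟨p * q, P.mul_mem hp hq, by rw [mul_assoc]⟩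
  · rintro ⟨q, hq, rfl⟩
    exact ⟨p⁻¹ * q, P.mul_mem (P.inv_mem hp) hq, by
      rw [mul_assoc, mul_inv_cancel_left]⟩

theorem out_mk (e g : Γ) : ∃ m : ℤ,
    Quotient.out (QuotientGroup.mk g : Γ ⧸ zpowers e) = g * e ^ m := by
  obtain ⟨⟨h, hh⟩, hm⟩ := QuotientGroup.mk_out_eq_mul (zpowers e) g
  obtain ⟨m, rfl⟩ := mem_zpowers_iff.mp hh
  exact ⟨m, hm⟩

theorem yf_mk (e : Γ) (x0 : V) (g : Γ) :
    Yf e x0 (QuotientGroup.mk g) = orb (zpowers e) g x0 := by
  obtain ⟨m, hm⟩ := out_mk e g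
  rw [Yf, hm]
  exact orb_mul _ _ _ (zpow_mem (mem_zpowers e) m) _

theorem rf_mk (e : Γ) (N : ℕ) (g r : Γ) :
    r ∈ Rf e N (QuotientGroup.mk g) ↔ ∃ k : ℤ, r = g * e ^ (N * k) * g⁻¹ := by
  obtain ⟨m, hm⟩ := out_mk e g
  have key : ∀ k : ℤ, (g * e ^ m) * (e ^ N) ^ k * (g * e ^ m)⁻¹ = g * e ^ (N * k) * g⁻¹ := by
    intro k
    have h1 : (e ^ N) ^ k = e ^ ((N : ℤ) * k) := by
      rw [zpow_mul, zpow_natCast]
    rw [h1, mul_inv_rev, ← zpow_neg]
    have h2 : g * e ^ m * e ^ ((N : ℤ) * k) * (e ^ (-m) * g⁻¹) =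
        g * (e ^ m * e ^ ((N : ℤ) * k) * e ^ (-m)) * g⁻¹ := by group
    rw [h2, ← zpow_add, ← zpow_add]
    congr 3
    ring
  rw [Rf, hm]
  constructor
  · intro h
    obtain ⟨y, hy, rfl⟩ := Subgroup.mem_map.mp h
    obtain ⟨k, rfl⟩ := mem_zpowers_iff.mp hy
    exact ⟨k, key k⟩
  · rintro ⟨k, rfl⟩
    exact Subgroup.mem_map.mpr ⟨(e ^ N) ^ k, zpow_mem (mem_zpowers _) k, key k⟩

theorem sup_eq (e : Γ) (N : ℕ) :
    (⨆ j, Rf e N j : Subgroup Γ) = normalClosure {e ^ N} := by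
  apply le_antisymm
  · refine iSup_le fun j => ?_
    obtain ⟨g, rfl⟩ := QuotientGroup.mk_surjective j
    intro r hr
    obtain ⟨k, rfl⟩ := (rf_mk e N g r).mp hr
    have h1 : e ^ ((N : ℤ) * k) ∈ normalClosure ({e ^ N} : Set Γ) := by
      rw [zpow_mul, zpow_natCast]
      exact zpow_mem (subset_normalClosure (Set.mem_singleton _)) k
    exact normalClosure_normal.conj_mem _ h1 g
  · have hn : (⨆ j, Rf e N j : Subgroup Γ).Normal := by
      constructor
      intro x hx g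
      refine Subgroup.iSup_induction (fun j => Rf e N j)
        (C := fun x => g * x * g⁻¹ ∈ (⨆ j, Rf e N j : Subgroup Γ)) hx ?_ ?_ ?_
      · intro j x hx
        obtain ⟨c, rfl⟩ := QuotientGroup.mk_surjective j
        obtain ⟨k, rfl⟩ := (rf_mk e N c x).mp hx
        refine Subgroup.mem_iSup_of_mem (QuotientGroup.mk (g * c)) ?_
        exact (rf_mk e N (g * c) _).mpr ⟨k, by group⟩
      · simp
      · intro x y hx hy
        have : g * (x * y) * g⁻¹ = (g * x * g⁻¹) * (g * y * g⁻¹) := by group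
        rw [this]
        exact mul_mem hx hy
    refine normalClosure_le_normal ?_
    rintro x rfl
    refine Subgroup.mem_iSup_of_mem (QuotientGroup.mk 1) ?_
    exact (rf_mk e N 1 _).mpr ⟨1, by simp⟩

end YR_

theorem p_YR : T_YR := by
  intro Γ _ V _ e x0
  refine ⟨YR_.yf_mk e x0, ?_, YR_.rf_mk e, YR_.sup_eq e⟩
  intro g x j hx
  obtain ⟨c, rfl⟩ := QuotientGroup.mk_surjective j
  rw [YR_.yf_mk] at hx
  obtain ⟨p, hp, rfl⟩ := hx
  have h1 : (g • (QuotientGroup.mk c : Γ ⧸ Subgroup.zpowers e)) =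
      QuotientGroup.mk (g * c) := rfl
  rw [h1, YR_.yf_mk]
  exact ⟨p, hp, by rw [smul_smul, mul_assoc]⟩

end TK
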