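import Pool.Agent.TK.BRK
import Pool.Agent.TK.CNT
import Pool.Agent.TK.CYC
import Pool.Agent.TK.DBL
import Pool.Agent.TK.QL
import Pool.Agent.TK.COM
import Pool.Agent.TK.ALG
import Pool.Agent.TK.PH
import Pool.Agent.TK.AX
import Pool.Agent.TK.CONE
import Pool.Agent.TK.CINV
import Pool.Agent.TK.PD
import Pool.Agent.TK.LOG
import Pool.Agent.TK.CLOSE
import Pool.Agent.TK.CTHIN
import Pool.Agent.TK.BGI
import Pool.Agent.TK.WIN
import Pool.Agent.TK.LIFT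
import Pool.Agent.TK.ORB
import Pool.Agent.TK.QTHIN
import Pool.Agent.TK.YR
import Pool.Agent.TK.SPIN
import Pool.Agent.TK.QGEO
import Pool.Agent.TK.LG
import Pool.Agent.TK.SHAD
import Pool.Agent.TK.GPB
import Pool.Agent.TK.GP
import Pool.Agent.TK.TB
import Pool.Agent.TK.PATH
import Pool.Agent.TK.QBQ
import Pool.Agent.TK.QBO
import Pool.Agent.TK.CB
import Pool.Agent.TK.FIX
import Pool.Agent.TK.GPG
import Pool.Agent.TK.TBG
import Pool.Agent.TK.TOR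
import Pool.Agent.TK.AW
import Pool.Agent.TK.CONJ
import Pool.Agent.TK.SEP
import Pool.Agent.TK.CENT
import Pool.Agent.TK.HQ
import Pool.Agent.TK.KILL

set_option autoImplicit false

/-! Project TK: the kill step, assembled. -/

namespace TK

theorem m_QL : T_QL := p_QL p_BRK (p_CYC p_CNT) p_DBL
theorem m_COM : T_COM := p_COM m_QL p_CNT
theorem m_AX : T_AX := p_AX m_QL (p_PH p_CNT) p_CNT
theorem m_CLOSE : T_CLOSE := p_CLOSE (p_LOG p_CINV) p_CINV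
theorem m_SPIN : T_SPIN := p_SPIN p_PD p_CONE p_CINV (p_CTHIN m_CLOSE p_CINV)
  (p_BGI m_CLOSE p_PD p_CINV) p_YR
theorem m_LIFT : T_LIFT := p_LIFT p_WIN
theorem m_QTHIN : T_QTHIN := p_QTHIN m_LIFT
theorem m_QGEO : T_QGEO := p_QGEO p_CINV p_YR
theorem m_GPG : T_GPG := p_GPG p_SHAD (p_GP p_SHAD p_GPB) p_PD p_YR
theorem m_TBG : T_TBG := p_TBG (p_TB (p_LG p_BRK) p_SHAD) p_PD p_YR p_CINV p_CONE
theorem m_TOR : T_TOR := p_TOR m_TBG p_PD
theorem m_AW : T_AW := p_AW (p_CB p_CNT) (p_QBQ p_PATH p_BRK) (p_QBO p_PATH p_BRK) m_GPG p_PD p_YR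
  p_CINV p_CONE
theorem m_CONJ : T_CONJ := p_CONJ m_GPG p_PD p_YR
theorem m_SEP : T_SEP := p_SEP p_PD p_YR
theorem m_CENT : T_CENT := p_CENT m_TOR (p_FIX p_CNT) m_GPG p_PD p_YR p_CINV p_CONE
theorem m_HQ : T_HQ := p_HQ m_LIFT p_WIN m_CLOSE p_PD p_YR p_CINV

theorem m_KILL : T_KILL := p_KILL m_QL m_COM p_ALG m_AX m_SPIN p_WIN p_ORB m_QTHIN m_QGEO m_TOR
  m_AW m_CONJ m_SEP m_CENT m_HQ p_YR p_PD p_CINV

end TK

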