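import Pool.Agent.TK.Reduce

set_option autoImplicit false

/-! Circle symmetric tight surfaces: assembly (MP_336b57_gt). -/

namespace Pool.Agent.TK

open Complex Set Filter Topology MeasureTheory
open scoped ComplexConjugate RealInnerProductSpace

noncomputable section

theorem inner_an {n : V4} {g : ℝ → V4} (hg : AnalyticOnNhd ℝ g univ) :
    AnalyticOnNhd ℝ (fun t => ⟪n, g t⟫) univ := by
  intro t ht
  exact ((innerSL ℝ n).analyticAt _).comp (hg t ht)

theorem pair_an {n m : V4} {g : ℝ → V4} (hg : AnalyticOnNhd ℝ g univ) :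
    AnalyticOnNhd ℝ (fun t => (⟪n, g t⟫ : ℂ) + I * (⟪m, g t⟫ : ℝ)) univ := by
  intro t ht
  have h1 : AnalyticAt ℝ (fun t => ((⟪n, g t⟫ : ℝ) : ℂ)) t :=
    (Complex.ofRealCLM.analyticAt _).comp (inner_an hg t ht)
  have h2 : AnalyticAt ℝ (fun t => ((⟪m, g t⟫ : ℝ) : ℂ)) t :=
    (Complex.ofRealCLM.analyticAt _).comp (inner_an hg t ht)
  exact h1.add (analyticAt_const.mul h2)

/-- there is no circle symmetric tight analytic immersion of the Klein bottle in four-space -/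
theorem assemble (F : ℝ × ℝ → V4) (hF : AnalyticOnNhd ℝ F univ)
    (himm : ∀ p, Function.Injective (fderiv ℝ F p))
    (h1 : ∀ s t, F (s + Real.pi, -t) = F (s, t)) (h2 : ∀ s t, F (s, t + 2 * Real.pi) = F (s, t))
    (hsub : ∀ n : V4, n ≠ 0 → ∀ c : ℝ, ∃ p, ⟪n, F p⟫ ≠ c)
    (hsym : ∀ c : ℝ, ∃ ρ : V4 ≃ᵢ V4, ∀ s t, F (s + c, t) = ρ (F (s, t)))
    (ht : ∀ (n : V4) (c : ℝ), n ≠ 0 → ∀ G : ℝ × ℝ → ℂ, Continuous G → Ginv G →
      IsPreconnected (G '' {p | c ≤ ⟪n, F p⟫})) : False := by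
  have hcont : Continuous F := continuousOn_univ.1 hF.continuousOn
  have hper : ∀ s t, F (s + 2 * Real.pi, t) = F (s, t) := by
    intro s t
    have := h1 (s + Real.pi) (-t)
    rw [neg_neg, show s + Real.pi + Real.pi = s + 2 * Real.pi by ring] at this
    rw [this, h1]
  obtain ⟨x₀, hx₀⟩ := center hcont hper hsym
  -- the derivative along the circles
  have hdiff : ∀ p, DifferentiableAt ℝ F p := fun p => (hF p (mem_univ p)).differentiableAt
  have hds : ∀ s t, HasDerivAt (fun r => F (r, t)) (fderiv ℝ F (s, t) (1, 0)) s := by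
    intro s t
    have h3 : HasDerivAt (fun r : ℝ => ((r, t) : ℝ × ℝ)) (1, 0) s :=
      (hasDerivAt_id s).prodMk (hasDerivAt_const s t)
    exact (hdiff (s, t)).hasFDerivAt.comp_hasDerivAt s h3
  have hdt : ∀ s t, HasDerivAt (fun r => F (s, r)) (fderiv ℝ F (s, t) (0, 1)) t := by
    intro s t
    have h3 : HasDerivAt (fun r : ℝ => ((s, r) : ℝ × ℝ)) (0, 1) t :=
      (hasDerivAt_const t s).prodMk (hasDerivAt_id t)
    exact (hdiff (s, t)).hasFDerivAt.comp_hasDerivAt t h3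
  -- the span
  have hspan : Submodule.span ℝ (range fun p => F p - x₀) = ⊤ := by
    by_contra hn
    obtain ⟨n, hn0, hn1⟩ : ∃ n : V4, n ≠ 0 ∧ ∀ x ∈ Submodule.span ℝ (range fun p => F p - x₀),
        ⟪n, x⟫ = (0 : ℝ) := by
      have h3 : (Submodule.span ℝ (range fun p => F p - x₀))ᗮ ≠ ⊥ := by
        intro h4
        exact hn ((Submodule.orthogonal_eq_bot_iff).1 h4)
      obtain ⟨n, hn, hn0⟩ := Submodule.exists_mem_ne_zero_of_ne_bot h3
      refine ⟨n, hn0, fun x hx => ?_⟩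
      rw [real_inner_comm]
      exact (Submodule.mem_orthogonal _ _).1 hn x hx
    obtain ⟨p, hp⟩ := hsub n hn0 ⟪n, x₀⟫
    have := hn1 (F p - x₀) (Submodule.subset_span ⟨p, rfl⟩)
    rw [inner_sub_right, sub_eq_zero] at this
    exact hp this
  obtain ⟨A, hA, hFA⟩ := generator (F := fun p => F p - x₀)
    (F' := fun p => fderiv ℝ F p (1, 0)) (fun s t => by simpa using (hds s t).sub_const x₀)
    hspan hx₀
  have hA0 : A ≠ 0 := by
    rintro rfl
    have h3 := hFA 0 0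
    rw [LinearMap.zero_apply] at h3
    have h4 : ((1, 0) : ℝ × ℝ) = 0 := by
      apply himm (0, 0)
      rw [map_zero]
      exact h3
    have h5 := congrArg Prod.fst h4
    simp at h5
  obtain ⟨b, lam, mu, hlam, b0, b1, b2, b3⟩ := skew_form A hA hA0
  -- complex coordinates
  have coord : ∀ (i j : Fin 4) (l : ℝ), i ≠ j → (∀ y, ⟪b i, A y⟫ = -(l * ⟪b j, y⟫)) →
      (∀ y, ⟪b j, A y⟫ = l * ⟪b i, y⟫) →
      ∃ a : ℤ, (a : ℝ) = l ∧ ∀ s t, ((⟪b i, F (s, t) - x₀⟫ : ℝ) : ℂ) + I * (⟪b j, F (s, t) - x₀⟫ : ℝ) =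
        (((⟪b i, F (0, t) - x₀⟫ : ℝ) : ℂ) + I * (⟪b j, F (0, t) - x₀⟫ : ℝ)) * cexp (I * a * s) := by
    intro i j l hij hi hj
    refine weight (U := fun p => ((⟪b i, F p - x₀⟫ : ℝ) : ℂ) + I * (⟪b j, F p - x₀⟫ : ℝ))
      (lam := l) (fun s t => ?_) (fun s t => ?_) ?_
    · have h3 := (hds s t).sub_const x₀
      have h4 : ∀ n : V4, HasDerivAt (fun r => ((⟪n, F (r, t) - x₀⟫ : ℝ) : ℂ))
          ((⟪n, A (F (s, t) - x₀)⟫ : ℝ) : ℂ) s := by
        intro n
        have h5 := (innerSL ℝ n).hasFDerivAt.comp_hasDerivAt s h3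
        have h6 := Complex.ofRealCLM.hasFDerivAt.comp_hasDerivAt s h5
        rw [hFA] at h6
        exact h6
      refine ((h4 (b i)).add ((h4 (b j)).const_mul I)).congr_deriv ?_
      rw [hi, hj]
      push_cast
      linear_combination (-(l : ℂ) * (⟪b j, F (s, t) - x₀⟫ : ℝ)) * Complex.I_sq
    · simp only [hper]
    · obtain ⟨p, hp⟩ := hsub (b i) (by
        intro h0
        have := b.norm_eq_one i
        rw [h0, norm_zero] at this
        exact zero_ne_one this) ⟪b i, x₀⟫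
      refine ⟨p, fun h0 => hp ?_⟩
      have h3 := congrArg Complex.re h0
      simp only [Complex.add_re, Complex.ofReal_re, Complex.mul_re, Complex.I_re, zero_mul,
        Complex.I_im, Complex.ofReal_im, mul_zero, sub_zero, add_zero, Complex.zero_re] at h3
      rw [inner_sub_right, sub_eq_zero] at h3
      exact h3
  obtain ⟨a, ha, hU⟩ := coord 0 1 lam (by decide) b0 b1
  obtain ⟨c, hc, hW⟩ := coord 2 3 mu (by decide) b2 b3
  set u : ℝ → ℂ := fun t => ((⟪b 0, F (0, t) - x₀⟫ : ℝ) : ℂ) + I * (⟪b 1, F (0, t) - x₀⟫ : ℝ) with hu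
  set v : ℝ → ℂ := fun t => ((⟪b 2, F (0, t) - x₀⟫ : ℝ) : ℂ) + I * (⟪b 3, F (0, t) - x₀⟫ : ℝ) with hv
  have hg : AnalyticOnNhd ℝ (fun t => F (0, t) - x₀) univ := by
    intro t _
    have h3 : AnalyticAt ℝ (fun t : ℝ => ((0, t) : ℝ × ℝ)) t := by fun_prop
    exact ((hF (0, t) (mem_univ _)).comp h3).sub analyticAt_const
  have hdg : ∀ t, HasDerivAt (fun t => F (0, t) - x₀) (fderiv ℝ F (0, t) (0, 1)) t := fun t =>
    (hdt 0 t).sub_const x₀
  have hdU : ∀ (i j : Fin 4) (t : ℝ),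
      deriv (fun t => ((⟪b i, F (0, t) - x₀⟫ : ℝ) : ℂ) + I * (⟪b j, F (0, t) - x₀⟫ : ℝ)) t =
      ((⟪b i, fderiv ℝ F (0, t) (0, 1)⟫ : ℝ) : ℂ) + I * (⟪b j, fderiv ℝ F (0, t) (0, 1)⟫ : ℝ) := by
    intro i j t
    have h4 : ∀ n : V4, HasDerivAt (fun r => ((⟪n, F (0, r) - x₀⟫ : ℝ) : ℂ))
        ((⟪n, fderiv ℝ F (0, t) (0, 1)⟫ : ℝ) : ℂ) t := by
      intro n
      have h5 := (innerSL ℝ n).hasFDerivAt.comp_hasDerivAt t (hdg t)
      exact Complex.ofRealCLM.hasFDerivAt.comp_hasDerivAt t h5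
    exact ((h4 (b i)).add ((h4 (b j)).const_mul I)).deriv
  have par : ∀ (i j : Fin 4) (a : ℤ), (∀ s t, ((⟪b i, F (s, t) - x₀⟫ : ℝ) : ℂ) +
      I * (⟪b j, F (s, t) - x₀⟫ : ℝ) = (((⟪b i, F (0, t) - x₀⟫ : ℝ) : ℂ) +
        I * (⟪b j, F (0, t) - x₀⟫ : ℝ)) * cexp (I * a * s)) → ∀ t,
      ((⟪b i, F (0, -t) - x₀⟫ : ℝ) : ℂ) + I * (⟪b j, F (0, -t) - x₀⟫ : ℝ) =
        (-1) ^ a * (((⟪b i, F (0, t) - x₀⟫ : ℝ) : ℂ) + I * (⟪b j, F (0, t) - x₀⟫ : ℝ)) := by
    intro i j a hU t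
    have h3 := hU Real.pi (-t)
    have h4 := h1 0 t
    rw [zero_add] at h4
    rw [h4, exp_pi] at h3
    rw [h3, mul_comm _ ((-1 : ℂ) ^ a), ← mul_assoc, neg_one_zpow_sq, one_mul]
  refine Data.core (u := u) (v := v) (a := a) (b := c) ⟨?_, ?_, ?_, ?_, ?_, ?_, ?_, ?_⟩
  · exact pair_an hg
  · exact pair_an hg
  · intro t; simp only [hu, h2]
  · intro t; simp only [hv, h2]
  · exact par 0 1 a hU
  · exact par 2 3 c hW
  · intro t x y e1 e2
    rw [hu, hdU] at e1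
    rw [hv, hdU] at e2
    have hz : fderiv ℝ F (0, t) (x, y) = 0 := by
      have e : ((x, y) : ℝ × ℝ) = x • (1, 0) + y • (0, 1) := by simp
      rw [e, map_add, map_smul, map_smul]
      have hA1 : fderiv ℝ F (0, t) (1, 0) = A (F (0, t) - x₀) := hFA 0 t
      rw [hA1]
      have key : ∀ (i j : Fin 4) (l : ℝ) (a : ℤ), (a : ℝ) = l →
          (∀ y, ⟪b i, A y⟫ = -(l * ⟪b j, y⟫)) → (∀ y, ⟪b j, A y⟫ = l * ⟪b i, y⟫) →
          (x : ℂ) * (I * a * (((⟪b i, F (0, t) - x₀⟫ : ℝ) : ℂ) + I * (⟪b j, F (0, t) - x₀⟫ : ℝ))) +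
            y * (((⟪b i, fderiv ℝ F (0, t) (0, 1)⟫ : ℝ) : ℂ) +
              I * (⟪b j, fderiv ℝ F (0, t) (0, 1)⟫ : ℝ)) = 0 →
          ⟪b i, x • A (F (0, t) - x₀) + y • fderiv ℝ F (0, t) (0, 1)⟫ = (0 : ℝ) ∧
          ⟪b j, x • A (F (0, t) - x₀) + y • fderiv ℝ F (0, t) (0, 1)⟫ = (0 : ℝ) := by
        intro i j l a hal hi hj he
        have hre := congrArg Complex.re he
        have him := congrArg Complex.im he
        simp only [Complex.add_re, Complex.mul_re, Complex.ofReal_re, Complex.I_re, Complex.I_im,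
          Complex.ofReal_im, Complex.mul_im, Complex.add_im, Complex.intCast_re, Complex.intCast_im,
          Complex.zero_re, Complex.zero_im] at hre him
        rw [hal] at hre him
        rw [inner_add_right, inner_add_right, real_inner_smul_right, real_inner_smul_right,
          real_inner_smul_right, real_inner_smul_right, hi, hj]
        constructor
        · linarith
        · linarith
      obtain ⟨k0, k1⟩ := key 0 1 lam a ha b0 b1 e1
      obtain ⟨k2, k3⟩ := key 2 3 mu c hc b2 b3 e2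
      rw [← b.sum_repr' (x • A (F (0, t) - x₀) + y • fderiv ℝ F (0, t) (0, 1)),
        Fin.sum_univ_four, k0, k1, k2, k3]
      simp
    have h5 : ((x, y) : ℝ × ℝ) = 0 := by
      apply himm (0, t)
      rw [map_zero]; exact hz
    exact ⟨congrArg Prod.fst h5, congrArg Prod.snd h5⟩
  · intro z w c' G hG hGi
    obtain ⟨n, hn⟩ : ∃ n : V4, n = z.re • b 0 - z.im • b 1 + w.re • b 2 - w.im • b 3 := ⟨_, rfl⟩
    have hheq : ∀ p, hh u v a c z w p = ⟪n, F p⟫ - ⟪n, x₀⟫ := by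
      rintro ⟨s, t⟩
      have e : hh u v a c z w (s, t) = (z * (u t * cexp (I * a * s))).re +
        (w * (v t * cexp (I * c * s))).re := rfl
      rw [e, ← inner_sub_right]
      simp only [hu, hv]
      rw [← hU s t, ← hW s t, hn]
      simp only [inner_sub_left, inner_add_left, real_inner_smul_left, Complex.add_re,
        Complex.mul_re, Complex.ofReal_re, Complex.I_re, Complex.I_im, Complex.ofReal_im,
        Complex.mul_im, Complex.add_im]
      ring
    have hset : {p | c' ≤ hh u v a c z w p} = {p | c' + ⟪n, x₀⟫ ≤ ⟪n, F p⟫} := by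
      ext p
      simp only [mem_ofPred_eq]
      rw [hheq, le_sub_iff_add_le]
    rw [hset]
    by_cases hn0 : n = 0
    · rw [hn0]
      simp only [inner_zero_left, add_zero]
      by_cases hc' : c' ≤ 0
      · have : {p : ℝ × ℝ | c' ≤ 0} = univ := by ext p; simp [hc']
        rw [this]
        exact isPreconnected_univ.image _ hG.continuousOn
      · have : {p : ℝ × ℝ | c' ≤ 0} = ∅ := by ext p; simp [hc']
        rw [this, image_empty]
        exact isPreconnected_empty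
    · exact ht n _ hn0 G hG hGi

end

end Pool.Agent.TK
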