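import Pool.Agent.TK.Targets1

set_option autoImplicit false

/-!
# TK-BRK: broken geodesics
-/

namespace TK

namespace BRK_

variable {V : Type} {d : V → V → ℕ} {C a n : ℕ} {y : ℕ → V}

/-- the hypotheses with free indices -/
structure H (d : V → V → ℕ) (C a n : ℕ) (y : ℕ → V) : Prop where
  geo : Geo d
  four : Four d C
  cor : ∀ i j k, j = i + 1 → k = i + 2 → k ≤ n → d (y i) (y j) + d (y j) (y k) ≤ d (y i) (y k) + a
  len : ∀ i j, 1 ≤ i → j = i + 1 → i + 2 ≤ n → a + 2*C < d (y i) (y j)

theorem s1 (h : H d C a n y) : ∀ m i j k, j = i + m → k = j + 1 → k ≤ n →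
      d (y i) (y j) + d (y j) (y k) ≤ d (y i) (y k) + a + C := by
  intro m
  induction m with
  | zero =>
    intro i j k hj hk hn
    have : j = i := by omega
    subst this
    have := h.geo.self (y j)
    omega
  | succ m ih =>
    intro i j k hj hk hn
    by_cases hm : m = 0
    · have := h.cor i j k (by omega) (by omega) hn
      omega
    · obtain ⟨q, rfl⟩ : ∃ q, j = q + 1 := ⟨i + m, by omega⟩
      have i1 := ih i q (q + 1) (by omega) rfl (by omega)
      have c1 := h.cor q (q + 1) k rfl (by omega) hn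
      have l1 := h.len q (q + 1) (by omega) rfl (by omega)
      have f := h.four (y i) (y (q + 1)) (y q) (y k)
      have := h.geo.symm (y (q + 1)) (y q)
      omega

theorem s2 (h : H d C a n y) : ∀ m i j k, j = i + 1 → k = j + m → k ≤ n →
      d (y i) (y j) + d (y j) (y k) ≤ d (y i) (y k) + a + C := by
  intro m
  induction m with
  | zero =>
    intro i j k hj hk hn
    have : k = j := by omega
    subst this
    have := h.geo.self (y k)
    omega
  | succ m ih =>
    intro i j k hj hk hn
    by_cases hm : m = 0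
    · have := h.cor i j k (by omega) (by omega) hn
      omega
    · have i1 := ih j (j + 1) k rfl (by omega) (by omega)
      have c1 := h.cor i j (j + 1) (by omega) (by omega) (by omega)
      have l1 := h.len j (j + 1) (by omega) rfl (by omega)
      have f := h.four (y k) (y j) (y (j + 1)) (y i)
      have := h.geo.symm (y k) (y j)
      have := h.geo.symm (y k) (y i)
      have := h.geo.symm (y k) (y (j + 1))
      have := h.geo.symm (y j) (y i)
      have := h.geo.symm (y (j + 1)) (y i)
      omega

theorem s3 (h : H d C a n y) (i j k : ℕ) (hij : i ≤ j) (hjk : j ≤ k) (hn : k ≤ n) :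
    d (y i) (y j) + d (y j) (y k) ≤ d (y i) (y k) + (a + 2*C) := by
  by_cases h1 : j = i
  · subst h1
    have := h.geo.self (y j)
    omega
  by_cases h2 : k = j
  · subst h2
    have := h.geo.self (y k)
    omega
  by_cases h3 : j = i + 1
  · have := s2 h (k - j) i j k h3 (by omega) hn
    omega
  · obtain ⟨q, rfl⟩ : ∃ q, j = q + 1 := ⟨j - 1, by omega⟩
    have a1 := s1 h (q - i) i q (q + 1) (by omega) rfl (by omega)
    have a2 := s2 h (k - (q + 1)) q (q + 1) k rfl (by omega) hn
    have l1 := h.len q (q + 1) (by omega) rfl (by omega)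
    have f := h.four (y i) (y (q + 1)) (y q) (y k)
    have := h.geo.symm (y (q + 1)) (y q)
    omega

theorem s4 (h : H d C a n y) (hn : 1 ≤ n) (p : V) (hp : Btw d (y 0) p (y n)) :
    ∃ j, j + 1 ≤ n ∧ ∃ q, Btw d (y j) q (y (j+1)) ∧ d p q ≤ 3*a + 7*C := by
  classical
  have hex : ∃ j, j + 1 ≤ n ∧ d (y 0) (y j) ≤ d (y 0) p ∧ d (y 0) p ≤ d (y 0) (y (j + 1)) := by
    by_contra hcon
    push Not at hcon
    have key : ∀ j, j + 1 ≤ n → d (y 0) (y j) ≤ d (y 0) p := by
      intro j
      induction j with
      | zero =>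
        intro _
        rw [h.geo.self]
        omega
      | succ j ih =>
        intro hj
        exact (hcon j (by omega) (ih (by omega))).le
    obtain ⟨m, rfl⟩ : ∃ m, n = m + 1 := ⟨n - 1, by omega⟩
    have h1 := hcon m le_rfl (key m le_rfl)
    unfold Btw at hp
    omega
  obtain ⟨j, hj, h1, h2⟩ := hex
  have t1 := h.geo.tri (y 0) (y j) (y (j + 1))
  obtain ⟨q, hq1, hq2⟩ := h.geo.geod (y j) (y (j + 1)) (d (y 0) p - d (y 0) (y j)) (by omega)
  refine ⟨j, hj, q, by unfold Btw; omega, ?_⟩
  have a1 := s3 h 0 j (j + 1) (by omega) (by omega) hj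
  have a2 := s3 h 0 (j + 1) n (by omega) hj le_rfl
  have t2 := h.geo.tri (y 0) (y j) q
  have t3 := h.geo.tri (y 0) q (y (j + 1))
  have t4 := h.geo.tri q (y (j + 1)) (y n)
  unfold Btw at hp
  have f := fellow h.geo h.four (x := y 0) (y := y n) (p := p) (q := q) (c := 2 * a + 4 * C)
    (e := a + 2 * C) (by omega) (by omega) (by omega) (by omega)
  omega

end BRK_

/-- **TK-BRK** -/
theorem p_BRK : T_BRK := by
  intro V d C a n y hd hC h1 h2
  have h : BRK_.H d C a n y := by
    refine ⟨hd, hC, ?_, ?_⟩
    · rintro i j k rfl rfl hk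
      exact h1 i hk
    · rintro i j hi rfl hj
      exact h2 i hi hj
  exact ⟨BRK_.s3 h, fun hn p hp => BRK_.s4 h hn p hp⟩

end TK
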