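import Mathlib

set_option autoImplicit false
set_option linter.unusedVariables false

/-!
# Project TK (MP_3ae405_al, `k = 5`): basic definitions and the hyperbolic toolkit
-/

namespace TK

/-- The word `v = b a b⁻¹ a b a⁻¹ b⁻¹ a`. -/
def vw {G : Type} [Group G] (a b : G) : G := b * a * b⁻¹ * a * b * a⁻¹ * b⁻¹ * a

/-- An integer valued geodesic metric (distance of a connected graph). -/
structure Geo {V : Type} (d : V → V → ℕ) : Prop where
  self : ∀ x, d x x = 0
  eq : ∀ x y, d x y = 0 → x = y
  symm : ∀ x y, d x y = d y x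
  tri : ∀ x y z, d x z ≤ d x y + d y z
  geod : ∀ x y n, n ≤ d x y → ∃ z, d x z = n ∧ n + d z y = d x y

/-- `z` lies on a geodesic from `x` to `y`. -/
def Btw {V : Type} (d : V → V → ℕ) (x z y : V) : Prop := d x z + d z y = d x y

/-- Triangles are `δ`-thin. -/
def Thin {V : Type} (d : V → V → ℕ) (δ : ℕ) : Prop :=
  ∀ x y z p, Btw d x p y → ∃ q, (Btw d x q z ∨ Btw d z q y) ∧ d p q ≤ δ

/-- The four point inequality. -/
def Four {V : Type} (d : V → V → ℕ) (C : ℕ) : Prop :=
  ∀ x y z w, d x y + d z w ≤ max (d x z + d y w) (d x w + d y z) + C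

/-- `Y` is `κ`-quasiconvex. -/
def QC {V : Type} (d : V → V → ℕ) (κ : ℕ) (Y : Set V) : Prop :=
  ∀ y ∈ Y, ∀ y' ∈ Y, ∀ p, Btw d y p y' → ∃ q ∈ Y, d p q ≤ κ

/-- `y` is a point of `Y` nearest to `x`. -/
def Near {V : Type} (d : V → V → ℕ) (Y : Set V) (x y : V) : Prop :=
  y ∈ Y ∧ ∀ y' ∈ Y, d x y ≤ d x y'

section Toolkit

variable {V : Type} {d : V → V → ℕ}

theorem exists_near {Y : Set V} (hY : Y.Nonempty) (x : V) : ∃ y, Near d Y x y := by
  classical
  obtain ⟨y0, hy0⟩ := hY
  have h : ∃ n, ∃ y ∈ Y, d x y = n := ⟨_, y0, hy0, rfl⟩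
  obtain ⟨y, hy, hn⟩ := Nat.find_spec h
  refine ⟨y, hy, fun y' hy' => ?_⟩
  rw [hn]
  exact Nat.find_min' h ⟨y', hy', rfl⟩

theorem Btw.symm (hd : Geo d) {x z y : V} (h : Btw d x z y) : Btw d y z x := by
  unfold Btw at *
  rw [hd.symm y z, hd.symm z x, hd.symm y x]; omega

theorem btw_left (hd : Geo d) (x y : V) : Btw d x x y := by
  unfold Btw; rw [hd.self]; omega

theorem btw_right (hd : Geo d) (x y : V) : Btw d x y y := by
  unfold Btw; rw [hd.self]; omega

/-- nesting: `z ∈ [x,y]`, `w ∈ [x,z]` gives `w ∈ [x,y]` and `z ∈ [w,y]`. -/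
theorem Btw.trans_left (hd : Geo d) {x w z y : V} (h : Btw d x z y) (h' : Btw d x w z) :
    Btw d x w y ∧ Btw d w z y := by
  unfold Btw at *
  have h1 := hd.tri x w y
  have h2 := hd.tri w z y
  have h3 := hd.tri x w z
  constructor <;> omega

/-- nesting: `z ∈ [x,y]`, `w ∈ [z,y]` gives `w ∈ [x,y]` and `z ∈ [x,w]`. -/
theorem Btw.trans_right (hd : Geo d) {x w z y : V} (h : Btw d x z y) (h' : Btw d z w y) :
    Btw d x w y ∧ Btw d x z w := by
  unfold Btw at *
  have h1 := hd.tri x w y
  have h2 := hd.tri x z w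
  constructor <;> omega

/-- a geodesic sequence between two points -/
theorem exists_geod (hd : Geo d) (x y : V) : ∃ γ : ℕ → V, γ 0 = x ∧ γ (d x y) = y ∧
    ∀ i k, i ≤ k → k ≤ d x y → d (γ i) (γ k) = k - i := by
  have key : ∀ n x y, d x y = n → ∃ γ : ℕ → V, γ 0 = x ∧ γ n = y ∧
      ∀ i k, i ≤ k → k ≤ n → d (γ i) (γ k) = k - i := by
    intro n
    induction n with
    | zero =>
      intro x y h
      have := hd.eq x y h
      subst this
      refine ⟨fun _ => x, rfl, rfl, fun i k hik hk => ?_⟩
      rw [hd.self]; omega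
    | succ n ih =>
      intro x y h
      obtain ⟨z, hz1, hz2⟩ := hd.geod x y n (by omega)
      obtain ⟨γ, h0, h1, h2⟩ := ih x z hz1
      refine ⟨fun i => if i ≤ n then γ i else y, by simp [h0], by simp, fun i k hik hk => ?_⟩
      by_cases hkn : k ≤ n
      · have : i ≤ n := by omega
        simp only [this, hkn, if_true]
        exact h2 i k hik hkn
      · have hk' : k = n + 1 := by omega
        subst hk'
        by_cases hin : i ≤ n
        · simp only [hin, if_true, hkn, if_false]
          have a1 := h2 0 i (by omega) hin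
          have a2 := h2 i n hin le_rfl
          rw [h1] at a2
          rw [h0] at a1
          have a3 := hd.tri (γ i) z y
          have a4 := hd.tri x (γ i) y
          omega
        · have : i = n + 1 := by omega
          subst this
          simp only [hkn, if_false]
          rw [hd.self]; omega
  exact key _ x y rfl

/-- Four point inequality from thin triangles. -/
theorem four_of_thin {δ : ℕ} (hd : Geo d) (ht : Thin d δ) : Four d (4 * δ + 2) := by
  intro x y z w
  obtain ⟨γ, h0, h1, h2⟩ := exists_geod hd x y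
  -- there is `p` in `[x,y]` with `(x|z)`- and `(y|z)`-excess small
  have key : ∃ p, Btw d x p y ∧ d x p + d p z ≤ d x z + 2 * δ + 2 ∧
      d y p + d p z ≤ d y z + 2 * δ + 2 := by
    by_contra hcon
    have step : ∀ i, i ≤ d x y → d x (γ i) + d (γ i) z ≤ d x z + 2 * δ := by
      intro i
      induction i with
      | zero =>
        intro _
        rw [h0, hd.self]; omega
      | succ i ih =>
        intro hi
        have hb : ∀ j, j ≤ d x y → Btw d x (γ j) y := by
          intro j hj
          have a1 := h2 0 j (by omega) hj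
          have a2 := h2 j _ hj le_rfl
          rw [h0] at a1; rw [h1] at a2
          unfold Btw; omega
        have h3 := ih (by omega)
        obtain ⟨q, hq, hpq⟩ := ht x y z (γ (i+1)) (hb _ hi)
        rcases hq with hq | hq
        · unfold Btw at hq
          have := hd.tri x q (γ (i+1))
          have := hd.tri (γ (i+1)) q z
          have := hd.symm q (γ (i+1))
          omega
        · exfalso
          apply hcon
          refine ⟨γ i, hb i (by omega), by omega, ?_⟩
          unfold Btw at hq
          have e1 := h2 i (i+1) (by omega) hi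
          have := hd.tri (γ i) (γ (i+1)) q
          have := hd.tri y q (γ i)
          have := hd.tri (γ i) q z
          have := hd.symm q (γ i)
          have := hd.symm y q
          have := hd.symm y z
          have := hd.symm q z
          omega
    have h4 := step (d x y) le_rfl
    rw [h1] at h4
    apply hcon
    refine ⟨y, btw_right hd x y, by omega, ?_⟩
    rw [hd.self]; omega
  obtain ⟨p, hp, hp1, hp2⟩ := key
  obtain ⟨q, hq, hpq⟩ := ht x y w p hp
  unfold Btw at hp
  have s1 := hd.symm y p
  have s2 := hd.symm z p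
  have s3 := hd.symm q p
  have t1 := hd.tri z p w
  have t2 := hd.tri p q w
  rcases hq with hq | hq
  · unfold Btw at hq
    have := hd.tri x q p
    omega
  · unfold Btw at hq
    have := hd.tri p q y
    have := hd.symm q w
    have := hd.symm w y
    have := hd.symm y q
    have := hd.tri y q p
    omega

variable {C : ℕ}

/-- two almost-between points at comparable positions are close -/
theorem fellow (hd : Geo d) (hC : Four d C) {x y p q : V} {c e : ℕ}
    (hp : d x p + d p y ≤ d x y + c) (hq : d x q + d q y ≤ d x y + c)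
    (h1 : d x p ≤ d x q + e) (h2 : d x q ≤ d x p + e) : d p q ≤ c + e + C := by
  have h := hC p q x y
  have := hd.symm p x
  have := hd.symm q x
  have := hd.symm p y
  have := hd.symm q y
  omega

/-- projection lemma 1 -/
theorem P1 {κ : ℕ} (hd : Geo d) (hC : Four d C) {Y : Set V} (hY : QC d κ Y) {x y y' : V}
    (hn : Near d Y x y) (hy' : y' ∈ Y) :
    d x y + d y y' ≤ d x y' + (2 * C + 2 * κ + 1) := by
  by_contra hcon
  push Not at hcon
  obtain ⟨p, hp1, hp2⟩ := hd.geod y y' (C + κ + 1) (by
    have := hd.tri x y y'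
    have := hd.tri y x y'
    have := hd.symm y x
    by_contra h
    push Not at h
    have := hn.2 y' hy'
    omega)
  obtain ⟨q, hq, hpq⟩ := hY y hn.1 y' hy' p (by unfold Btw; omega)
  have h1 := hn.2 q hq
  have h2 := hd.tri x p q
  have h3 := hC x p y y'
  have h4 := hn.2 y' hy'
  have := hd.symm p y
  omega

/-- two nearest points -/
theorem P2 {κ : ℕ} (hd : Geo d) (hC : Four d C) {Y : Set V} (hY : QC d κ Y) {x y y' : V}
    (hn : Near d Y x y) (hn' : Near d Y x y') :
    d y y' ≤ 2 * C + 2 * κ + 1 := by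
  have h1 := P1 hd hC hY hn hn'.1
  have h2 := hn'.2 y hn.1
  omega

/-- projections of two points far apart -/
theorem P3 {κ : ℕ} (hd : Geo d) (hC : Four d C) {Y : Set V} (hY : QC d κ Y) {x y x' y' : V}
    (hn : Near d Y x y) (hn' : Near d Y x' y') (hbig : 3 * C + 2 * κ + 1 < d y y') :
    d x y + d y y' + d y' x' ≤ d x x' + (5 * C + 4 * κ + 2) := by
  have h1 := P1 hd hC hY hn hn'.1
  have h2 := P1 hd hC hY hn' hn.1
  have h3 := hC x y' y x'
  have := hd.symm y' x'
  have := hd.symm y' y
  have := hd.symm x' y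
  omega

/-- projections are coarsely Lipschitz -/
theorem P4 {κ : ℕ} (hd : Geo d) (hC : Four d C) {Y : Set V} (hY : QC d κ Y) {x y x' y' : V}
    (hn : Near d Y x y) (hn' : Near d Y x' y') :
    d y y' ≤ d x x' + (5 * C + 4 * κ + 2) := by
  by_cases h : 3 * C + 2 * κ + 1 < d y y'
  · have := P3 hd hC hY hn hn' h
    omega
  · omega

end Toolkit

end TK
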