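import Mathlib

set_option autoImplicit false

/-! Circle symmetric tight surfaces: the analytic core (MP_336b57_gt). -/

namespace Pool.Agent.TK

open Complex Set Filter Topology
open scoped ComplexConjugate

noncomputable section

/-- functions on the plane that descend to the Klein bottle -/
def Ginv (G : ℝ × ℝ → ℂ) : Prop :=
  (∀ s t, G (s + Real.pi, -t) = G (s, t)) ∧ ∀ s t, G (s, t + 2 * Real.pi) = G (s, t)

/-- the height functions -/
def hh (u v : ℝ → ℂ) (a b : ℤ) (z w : ℂ) (p : ℝ × ℝ) : ℝ :=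
  (z * (u p.2 * cexp (I * a * p.1))).re + (w * (v p.2 * cexp (I * b * p.1))).re

/-- tightness, tested with functions on the Klein bottle -/
def TP (u v : ℝ → ℂ) (a b : ℤ) : Prop :=
  ∀ (z w : ℂ) (c : ℝ) (G : ℝ × ℝ → ℂ), Continuous G → Ginv G →
    IsPreconnected (G '' {p | c ≤ hh u v a b z w p})

/-- the profile of a circle symmetric tight immersion -/
structure Data (u v : ℝ → ℂ) (a b : ℤ) : Prop where
  au : AnalyticOnNhd ℝ u univ
  av : AnalyticOnNhd ℝ v univ
  pu : ∀ t, u (t + 2 * Real.pi) = u t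
  pv : ∀ t, v (t + 2 * Real.pi) = v t
  eu : ∀ t, u (-t) = (-1) ^ a * u t
  ev : ∀ t, v (-t) = (-1) ^ b * v t
  imm : ∀ t x y : ℝ, (x : ℂ) * (I * a * u t) + y * deriv u t = 0 →
    (x : ℂ) * (I * b * v t) + y * deriv v t = 0 → x = 0 ∧ y = 0
  tp : TP u v a b

theorem exp_pi (a : ℤ) : cexp (I * a * Real.pi) = (-1) ^ a := by
  rw [show I * a * Real.pi = a * (Real.pi * I) by ring, Complex.exp_int_mul, Complex.exp_pi_mul_I]

theorem neg_one_zpow_sq (a : ℤ) : ((-1 : ℂ) ^ a) * (-1) ^ a = 1 := by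
  rw [← zpow_add₀ (by norm_num : (-1 : ℂ) ≠ 0)]
  exact Even.neg_one_zpow ⟨a, rfl⟩

section
variable {u v : ℝ → ℂ} {a b : ℤ}

theorem Data.swap (h : Data u v a b) : Data v u b a where
  au := h.av
  av := h.au
  pu := h.pv
  pv := h.pu
  eu := h.ev
  ev := h.eu
  imm t x y h1 h2 := h.imm t x y h2 h1
  tp z w c G hG hi := by
    have := h.tp w z c G hG hi
    have e : {p | c ≤ hh v u b a z w p} = {p | c ≤ hh u v a b w z p} := by
      ext p; simp only [mem_ofPred_eq, hh, add_comm]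
    rwa [e]

theorem deriv_conj (u : ℝ → ℂ) (t : ℝ) : deriv (fun t => conj (u t)) t = conj (deriv u t) := by
  by_cases h : DifferentiableAt ℝ u t
  · exact (Complex.conjCLE.toContinuousLinearMap.hasFDerivAt.comp_hasDerivAt t h.hasDerivAt).deriv
  · rw [deriv_zero_of_not_differentiableAt h, map_zero, deriv_zero_of_not_differentiableAt]
    intro h2
    apply h
    have := Complex.conjCLE.toContinuousLinearMap.differentiableAt.comp t h2
    have e : (fun t => conj (conj (u t))) = u := by funext t; simp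
    have e2 : (⇑(Complex.conjCLE.toContinuousLinearMap) ∘ fun t => conj (u t)) = u := by
      funext t; simp
    rwa [e2] at this

theorem Data.conj1 (h : Data u v a b) : Data (fun t => conj (u t)) v (-a) b where
  au := by
    intro t ht
    exact (Complex.conjCLE.toContinuousLinearMap.analyticAt _).comp (h.au t ht)
  av := h.av
  pu t := by rw [h.pu]
  pv := h.pv
  eu t := by
    rw [h.eu, map_mul, map_zpow₀, map_neg, map_one, zpow_neg, ← inv_zpow]
    norm_num
  ev := h.ev
  imm t x y h1 h2 := by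
    refine h.imm t x y ?_ h2
    rw [deriv_conj] at h1
    have := congrArg conj h1
    simpa using this
  tp z w c G hG hi := by
    have := h.tp (conj z) w c G hG hi
    have e : {p | c ≤ hh (fun t => conj (u t)) v (-a) b z w p} =
        {p | c ≤ hh u v a b (conj z) w p} := by
      ext p
      simp only [mem_ofPred_eq, hh]
      have : (z * (conj (u p.2) * cexp (I * ((-a : ℤ) : ℂ) * p.1))).re =
          (conj z * (u p.2 * cexp (I * a * p.1))).re := by
        rw [← Complex.conj_re (conj z * (u p.2 * cexp (I * a * p.1)))]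
        congr 1
        simp only [map_mul, Complex.conj_conj, ← Complex.exp_conj, Complex.conj_I,
          Complex.conj_ofReal, map_intCast]
        congr 3
        push_cast
        ring
      rw [this]
    rwa [e]

end

/-- zeros of analytic functions on compact intervals -/
theorem fin_zeros {f : ℝ → ℂ} (hf : AnalyticOnNhd ℝ f univ) {x₀ : ℝ} (hx : f x₀ ≠ 0) (c d : ℝ) :
    {x ∈ Icc c d | f x = 0}.Finite := by
  by_contra hinf
  obtain ⟨z, hz, hacc⟩ := Set.Infinite.exists_accPt_of_subset_isCompact hinf isCompact_Icc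
    (fun x hx => hx.1)
  have hfreq : ∃ᶠ w in 𝓝[≠] z, f w = 0 := by
    rw [accPt_iff_frequently_nhdsNE] at hacc
    exact hacc.mono fun w hw => hw.2
  have := hf.eqOn_zero_of_preconnected_of_frequently_eq_zero isPreconnected_univ (mem_univ z) hfreq
  exact hx (this (mem_univ x₀))

/-- the fundamental domain -/
def K0 : Set (ℝ × ℝ) := Icc 0 (2 * Real.pi) ×ˢ Icc (-Real.pi) Real.pi

theorem reduce (p : ℝ × ℝ) : ∃ q ∈ K0, ∃ m n : ℤ, p.1 = q.1 + m * (2 * Real.pi) ∧
    p.2 = q.2 + n * (2 * Real.pi) := by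
  have hpi := Real.pi_pos
  have key : ∀ x y : ℝ, ∃ (x' : ℝ) (m : ℤ), x' ∈ Icc y (y + 2 * Real.pi) ∧
      x = x' + m * (2 * Real.pi) := by
    intro x y
    refine ⟨x - ⌊(x - y) / (2 * Real.pi)⌋ * (2 * Real.pi), ⌊(x - y) / (2 * Real.pi)⌋, ?_, by ring⟩
    have h1 := Int.floor_le ((x - y) / (2 * Real.pi))
    have h2 := Int.lt_floor_add_one ((x - y) / (2 * Real.pi))
    rw [le_div_iff₀ (by positivity)] at h1
    rw [div_lt_iff₀ (by positivity)] at h2
    constructor
    · linarith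
    · linarith
  obtain ⟨x, m, hx, hxm⟩ := key p.1 0
  obtain ⟨y, n, hy, hyn⟩ := key p.2 (-Real.pi)
  refine ⟨(x, y), ⟨by simpa using hx, ?_⟩, m, n, hxm, hyn⟩
  have e : -Real.pi + 2 * Real.pi = Real.pi := by ring
  rwa [e] at hy

theorem exp_per (a : ℤ) (x : ℝ) (m : ℤ) :
    cexp (I * a * ((x + m * (2 * Real.pi) : ℝ) : ℂ)) = cexp (I * a * x) := by
  have : I * a * ((x + m * (2 * Real.pi) : ℝ) : ℂ) = I * a * x + ((a * m : ℤ) : ℂ) * (2 * Real.pi * I) := by
    push_cast; ring
  rw [this, Complex.exp_add, Complex.exp_int_mul_two_pi_mul_I, mul_one]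

theorem per_int {u : ℝ → ℂ} (hu : ∀ t, u (t + 2 * Real.pi) = u t) (t : ℝ) (n : ℤ) :
    u (t + n * (2 * Real.pi)) = u t := by
  have h : Function.Periodic u (2 * Real.pi) := hu
  exact h.int_mul n t

section
variable {u v : ℝ → ℂ} {a b : ℤ}

theorem Data.hh_per (h : Data u v a b) (z w : ℂ) (p : ℝ × ℝ) (m n : ℤ) :
    hh u v a b z w (p.1 + m * (2 * Real.pi), p.2 + n * (2 * Real.pi)) = hh u v a b z w p := by
  simp only [hh]
  rw [per_int h.pu, per_int h.pv, exp_per, exp_per]

theorem Data.hh_cont (h : Data u v a b) (z w : ℂ) : Continuous (hh u v a b z w) := by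
  have hu : Continuous u := continuousOn_univ.1 h.au.continuousOn
  have hv : Continuous v := continuousOn_univ.1 h.av.continuousOn
  unfold hh
  fun_prop

/-- if `exp (2 i s)` is not constant on a half space then an analytic function vanishes -/
theorem Data.inf (h : Data u v a b) (z w : ℂ) (c : ℝ) {D : ℝ → ℂ}
    (hD : AnalyticOnNhd ℝ D univ) (hz : ∀ p, c ≤ hh u v a b z w p → D p.2 = 0)
    (hfin : ∀ t, {s ∈ Icc (0 : ℝ) (2 * Real.pi) | c ≤ hh u v a b z w (s, t)}.Finite)
    {p q : ℝ × ℝ} (hp : c ≤ hh u v a b z w p) (hq : c ≤ hh u v a b z w q)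
    (hne : cexp (I * (2 : ℤ) * p.1) ≠ cexp (I * (2 : ℤ) * q.1)) (t : ℝ) : D t = 0 := by
  by_contra ht
  have hZ := fin_zeros hD ht (-Real.pi) Real.pi
  set G : ℝ × ℝ → ℂ := fun p => cexp (I * (2 : ℤ) * p.1) with hG
  have hGc : Continuous G := by rw [hG]; fun_prop
  have hGi : Ginv G := by
    refine ⟨fun s t => ?_, fun s t => rfl⟩
    simp only [hG]
    have : I * ((2 : ℤ) : ℂ) * ((s + Real.pi : ℝ) : ℂ) =
        I * ((2 : ℤ) : ℂ) * s + 2 * Real.pi * I := by push_cast; ring
    rw [this, Complex.exp_add, Complex.exp_two_pi_mul_I, mul_one]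
  have hpre := h.tp z w c G hGc hGi
  have hsub : G '' {p | c ≤ hh u v a b z w p} ⊆
      G '' (⋃ t ∈ {x ∈ Icc (-Real.pi) Real.pi | D x = 0},
        (fun s => (s, t)) '' {s ∈ Icc (0 : ℝ) (2 * Real.pi) | c ≤ hh u v a b z w (s, t)}) := by
    rintro _ ⟨p, hp, rfl⟩
    obtain ⟨q, hq, m, n, h1, h2⟩ := reduce p
    have e : hh u v a b z w q = hh u v a b z w p := by
      rw [← h.hh_per z w q m n, ← h1, ← h2]
    refine ⟨q, ?_, ?_⟩
    · simp only [mem_iUnion]
      refine ⟨q.2, ⟨hq.2, hz q (by rw [e]; exact hp)⟩, q.1, ⟨hq.1, ?_⟩, rfl⟩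
      rw [Prod.mk.eta, e]; exact hp
    · simp only [hG]
      rw [h1, exp_per]
  have hfin2 : (G '' {p | c ≤ hh u v a b z w p}).Finite := by
    refine Set.Finite.subset (Set.Finite.image _ ?_) hsub
    exact hZ.biUnion fun t _ => (hfin t).image _
  have hnt : (G '' {p | c ≤ hh u v a b z w p}).Nontrivial :=
    ⟨G p, ⟨p, hp, rfl⟩, G q, ⟨q, hq, rfl⟩, hne⟩
  exact (hpre.infinite_of_nontrivial hnt) hfin2

end

end

end Pool.Agent.TK
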