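import Pool.Agent.TK.Core1

set_option autoImplicit false

/-! Circle symmetric tight surfaces: maxima, logarithms, the weights (MP_336b57_gt). -/

namespace Pool.Agent.TK

open Complex Set Filter Topology
open scoped ComplexConjugate

noncomputable section

/-! ### General tools -/

theorem log_lift {X : Type*} [NormedAddCommGroup X] [NormedSpace ℝ X] {g : X → ℂ}
    (hg : Continuous g) (h0 : ∀ x, g x ≠ 0) : ∃ L : X → ℂ, Continuous L ∧ ∀ x, cexp (L x) = g x := by
  have hs : IsSimplyConnected (univ : Set X) := by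
    have : ContractibleSpace (univ : Set X) := convex_univ.contractibleSpace ⟨0, mem_univ _⟩
    exact SimplyConnectedSpace.ofContractible _
  obtain ⟨f, hf, he⟩ := Complex.exists_continuousOn_eqOn_exp_comp hs isOpen_univ
    hg.continuousOn (by rintro ⟨x, _, hx⟩; exact h0 x hx)
  exact ⟨f, continuousOn_univ.1 hf, fun x => he (mem_univ x)⟩

/-- a continuous function with values in a translate of `2 π i ℤ` is constant -/
theorem const_of_exp {X : Type*} [TopologicalSpace X] [PreconnectedSpace X] {f : X → ℂ}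
    (hf : Continuous f) {c : ℂ} (h : ∀ x, cexp (f x) = c) (x y : X) : f x = f y := by
  have key : ∀ x, ∃ n : ℤ, f x = f y + n * (2 * Real.pi * I) := by
    intro x
    exact Complex.exp_eq_exp_iff_exists_int.1 ((h x).trans (h y).symm)
  choose n hn using key
  have hnc : Continuous fun x => ((n x : ℤ) : ℝ) := by
    have : (fun x => ((n x : ℤ) : ℝ)) = fun x => ((f x - f y) / (2 * Real.pi * I)).re := by
      funext x
      rw [hn x]
      have hpi : (2 * (Real.pi : ℂ) * I) ≠ 0 := Complex.two_pi_I_ne_zero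
      rw [add_sub_cancel_left, mul_div_assoc, div_self hpi, mul_one, Complex.intCast_re]
    rw [this]
    fun_prop
  have hnc' : Continuous n := by
    have := Int.isClosedEmbedding_coe_real.isEmbedding.continuous_iff.2 hnc
    exact this
  have hc := PreconnectedSpace.constant inferInstance hnc' (x := x) (y := y)
  have h1 := hn x
  have h2 := hn y
  rw [hc] at h1
  rw [← h2] at h1
  exact h1

theorem align (ζ : ℂ) (b : ℤ) (hb : b ≠ 0) : ∃ s : ℝ, ζ * cexp (I * b * s) = ‖ζ‖ := by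
  refine ⟨-(Complex.arg ζ) / b, ?_⟩
  have hb' : (b : ℂ) ≠ 0 := by exact_mod_cast hb
  have e : I * (b : ℂ) * ((-(Complex.arg ζ) / b : ℝ) : ℂ) = -(Complex.arg ζ * I) := by
    push_cast
    field_simp
  nth_rw 1 [← Complex.norm_mul_exp_arg_mul_I ζ]
  rw [e, mul_assoc, ← Complex.exp_add, add_neg_cancel, Complex.exp_zero, mul_one]

theorem shift (b : ℤ) (hb : b ≠ 0) (s : ℝ) :
    cexp (I * b * ((s + 2 * Real.pi / b : ℝ) : ℂ)) = cexp (I * b * s) := by
  have hb' : (b : ℂ) ≠ 0 := by exact_mod_cast hb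
  have e : I * (b : ℂ) * ((s + 2 * Real.pi / b : ℝ) : ℂ) = I * b * s + 2 * Real.pi * I := by
    push_cast
    field_simp
  rw [e, Complex.exp_add, Complex.exp_two_pi_mul_I, mul_one]

theorem two_of_exp {b : ℤ} (hb : b ≠ 0) (s : ℝ)
    (h : cexp (I * (2 : ℤ) * s) = cexp (I * (2 : ℤ) * ((s + 2 * Real.pi / b : ℝ) : ℂ))) : b ∣ 2 := by
  have hb' : (b : ℂ) ≠ 0 := by exact_mod_cast hb
  obtain ⟨n, hn⟩ := Complex.exp_eq_exp_iff_exists_int.1 h
  have hpi : (Real.pi : ℂ) ≠ 0 := by exact_mod_cast Real.pi_ne_zero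
  have h1 : (2 : ℂ) = b * (-n) := by
    push_cast at hn
    have h2 : I * 2 * (2 * (Real.pi : ℂ) / b) = -(n * (2 * Real.pi * I)) := by
      linear_combination -hn
    have h3 : (2 * (Real.pi : ℂ) * I) * (2 / b) = (2 * (Real.pi : ℂ) * I) * (-n) := by
      linear_combination h2
    have h4 := mul_left_cancel₀ Complex.two_pi_I_ne_zero h3
    rw [div_eq_iff hb'] at h4
    rw [h4]; ring
  exact ⟨-n, by exact_mod_cast h1⟩

section
variable {u v : ℝ → ℂ} {a b : ℤ}

theorem Data.cu (h : Data u v a b) : Continuous u := continuousOn_univ.1 h.au.continuousOn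

theorem Data.cv (h : Data u v a b) : Continuous v := continuousOn_univ.1 h.av.continuousOn

theorem hh_cont2 {P : Type*} [TopologicalSpace P] (hu : Continuous u) (hv : Continuous v)
    {z w : P → ℂ} (hz : Continuous z) (hw : Continuous w) :
    Continuous fun x : P × (ℝ × ℝ) => hh u v a b (z x.1) (w x.1) x.2 := by
  unfold hh
  fun_prop

/-- height functions have maxima -/
theorem Data.exists_max (h : Data u v a b) (z w : ℂ) :
    ∃ p ∈ K0, ∀ q, hh u v a b z w q ≤ hh u v a b z w p := by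
  have hK : IsCompact K0 := isCompact_Icc.prod isCompact_Icc
  have hne : K0.Nonempty := ⟨(0, 0), ⟨⟨le_rfl, by positivity⟩, ⟨by linarith [Real.pi_pos], Real.pi_pos.le⟩⟩⟩
  obtain ⟨p, hp, hm⟩ := hK.exists_isMaxOn hne (h.hh_cont z w).continuousOn
  refine ⟨p, hp, fun q => ?_⟩
  obtain ⟨q', hq', m, n, h1, h2⟩ := reduce q
  have e : hh u v a b z w q = hh u v a b z w q' := by
    rw [← h.hh_per z w q' m n, ← h1, ← h2]
  rw [e]
  exact hm hq'

/-- a norm has a maximum -/
theorem max_norm {u : ℝ → ℂ} (hu : Continuous u) (hp : ∀ t, u (t + 2 * Real.pi) = u t) :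
    ∃ t₁, ∀ t, ‖u t‖ ≤ ‖u t₁‖ := by
  obtain ⟨t₁, _, hm⟩ := (isCompact_Icc (a := (0 : ℝ)) (b := 2 * Real.pi)).exists_isMaxOn
    ⟨0, le_rfl, by positivity⟩ hu.norm.continuousOn
  refine ⟨t₁, fun t => ?_⟩
  have hpi := Real.pi_pos
  have e : u t = u (t - ⌊t / (2 * Real.pi)⌋ * (2 * Real.pi)) := by
    rw [← per_int hp (t - ⌊t / (2 * Real.pi)⌋ * (2 * Real.pi)) ⌊t / (2 * Real.pi)⌋]
    congr 1; ring
  rw [e]
  refine hm ⟨?_, ?_⟩
  · have := Int.floor_le (t / (2 * Real.pi))
    rw [le_div_iff₀ (by positivity)] at this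
    linarith
  · have := Int.lt_floor_add_one (t / (2 * Real.pi))
    rw [div_lt_iff₀ (by positivity)] at this
    linarith

theorem exp_an (a : ℤ) : AnalyticOnNhd ℝ (fun s : ℝ => cexp (I * a * s)) univ := by
  intro s _
  have h1 : AnalyticAt ℝ (fun s : ℝ => I * (a : ℂ) * (s : ℂ)) s := by
    have : AnalyticAt ℝ (fun s : ℝ => (s : ℂ)) s := Complex.ofRealCLM.analyticAt s
    exact analyticAt_const.mul this
  have h2 : AnalyticAt ℝ cexp (I * (a : ℂ) * (s : ℂ)) := analyticAt_cexp.restrictScalars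
  exact AnalyticAt.comp (g := cexp) (f := fun s : ℝ => I * (a : ℂ) * (s : ℂ)) h2 h1

theorem ofRe_an {f : ℝ → ℂ} (hf : AnalyticOnNhd ℝ f univ) :
    AnalyticOnNhd ℝ (fun s => ((f s).re : ℂ)) univ := by
  intro s hs
  have h1 : AnalyticAt ℝ (fun s => (f s).re) s := (Complex.reCLM.analyticAt _).comp (hf s hs)
  exact (Complex.ofRealCLM.analyticAt _).comp h1

theorem conj_an {f : ℝ → ℂ} (hf : AnalyticOnNhd ℝ f univ) :
    AnalyticOnNhd ℝ (fun s => conj (f s)) univ := by
  intro s hs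
  exact (Complex.conjCLE.toContinuousLinearMap.analyticAt _).comp (hf s hs)

/-- four translates of a height function cancel -/
theorem four_sum (ha : Even a) (ha0 : a ≠ 0) (hb : Odd b) (z w : ℂ) (s t : ℝ) :
    hh u v a b z w (s, t) + hh u v a b z w (s + Real.pi, t) +
      (hh u v a b z w (s + Real.pi / a, t) + hh u v a b z w (s + Real.pi / a + Real.pi, t)) = 0 := by
  have ea : ∀ s : ℝ, cexp (I * a * ((s + Real.pi : ℝ) : ℂ)) = cexp (I * a * s) := by
    intro s
    have : I * (a : ℂ) * ((s + Real.pi : ℝ) : ℂ) = I * a * s + I * a * Real.pi := by push_cast; ring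
    rw [this, Complex.exp_add, exp_pi, ha.neg_one_zpow, mul_one]
  have eb : ∀ s : ℝ, cexp (I * b * ((s + Real.pi : ℝ) : ℂ)) = -cexp (I * b * s) := by
    intro s
    have : I * (b : ℂ) * ((s + Real.pi : ℝ) : ℂ) = I * b * s + I * b * Real.pi := by push_cast; ring
    rw [this, Complex.exp_add, exp_pi, hb.neg_one_zpow, mul_neg_one]
  have ec : ∀ s : ℝ, cexp (I * a * ((s + Real.pi / a : ℝ) : ℂ)) = -cexp (I * a * s) := by
    intro s
    have ha' : (a : ℂ) ≠ 0 := by exact_mod_cast ha0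
    have : I * (a : ℂ) * ((s + Real.pi / a : ℝ) : ℂ) = I * a * s + Real.pi * I := by
      push_cast; field_simp
    rw [this, Complex.exp_add, Complex.exp_pi_mul_I, mul_neg_one]
  simp only [hh, ea, eb, ec]
  simp only [mul_neg, Complex.neg_re]
  ring

/-- slices of level sets are finite -/
theorem slice_fin (ha : Even a) (ha0 : a ≠ 0) (hb : Odd b) (z w : ℂ) {c : ℝ} (hc : c ≠ 0) (t : ℝ) :
    {s ∈ Icc (0 : ℝ) (2 * Real.pi) | hh u v a b z w (s, t) = c}.Finite := by
  have hf : AnalyticOnNhd ℝ (fun s : ℝ => ((hh u v a b z w (s, t) : ℝ) : ℂ) - c) univ := by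
    have h1 := ofRe_an (f := fun s : ℝ => z * (u t * cexp (I * a * s)))
      (analyticOnNhd_const.mul (analyticOnNhd_const.mul (exp_an a)))
    have h2 := ofRe_an (f := fun s : ℝ => w * (v t * cexp (I * b * s)))
      (analyticOnNhd_const.mul (analyticOnNhd_const.mul (exp_an b)))
    have h3 : AnalyticOnNhd ℝ (fun _ : ℝ => (c : ℂ)) univ := analyticOnNhd_const
    refine ((h1.add h2).sub h3).congr isOpen_univ ?_
    intro s _
    simp [hh]
  have hx : ∃ x : ℝ, ((hh u v a b z w (x, t) : ℝ) : ℂ) - c ≠ 0 := by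
    by_contra hn
    push Not at hn
    have hn' : ∀ x : ℝ, hh u v a b z w (x, t) = c := by
      intro x
      have := hn x
      rw [sub_eq_zero] at this
      exact_mod_cast this
    have := four_sum (u := u) (v := v) ha ha0 hb z w 0 t
    simp only [hn'] at this
    apply hc; linarith
  obtain ⟨x, hx⟩ := hx
  refine (fin_zeros hf hx 0 (2 * Real.pi)).subset ?_
  rintro s ⟨hs, he⟩
  exact ⟨hs, by rw [he, sub_self]⟩

theorem Data.inf2 (h : Data u v a b) (ha : Even a) (ha0 : a ≠ 0) (hb : Odd b) (z w : ℂ) {c : ℝ}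
    (hc : c ≠ 0) (hle : ∀ p, hh u v a b z w p ≤ c) {D : ℝ → ℂ} (hD : AnalyticOnNhd ℝ D univ)
    (hz : ∀ p, hh u v a b z w p = c → D p.2 = 0) {p q : ℝ × ℝ} (hp : hh u v a b z w p = c)
    (hq : hh u v a b z w q = c)
    (hne : cexp (I * (2 : ℤ) * p.1) ≠ cexp (I * (2 : ℤ) * q.1)) (t : ℝ) : D t = 0 := by
  refine h.inf z w c hD (fun p hp => hz p (le_antisymm (hle p) hp)) (fun t => ?_) hp.ge hq.ge hne t
  refine (slice_fin (u := u) (v := v) ha ha0 hb z w hc t).subset ?_
  rintro s ⟨hs, he⟩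
  exact ⟨hs, le_antisymm (hle _) he⟩

/-- the norm squared of an analytic function is analytic -/
theorem normSq_an {f : ℝ → ℂ} (hf : AnalyticOnNhd ℝ f univ) (M : ℝ) :
    AnalyticOnNhd ℝ (fun s => conj (f s) * f s - (M : ℂ) ^ 2) univ :=
  ((conj_an hf).mul hf).sub analyticOnNhd_const

theorem normSq_zero {z : ℂ} {M : ℝ} (hM : 0 ≤ M) : conj z * z - (M : ℂ) ^ 2 = 0 ↔ ‖z‖ = M := by
  rw [Complex.conj_mul', sub_eq_zero]
  constructor
  · intro h
    have : ‖z‖ ^ 2 = M ^ 2 := by exact_mod_cast h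
    exact (pow_left_inj₀ (norm_nonneg _) hM two_ne_zero).1 this
  · intro h; rw [h]

end

end

end Pool.Agent.TK
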