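import Pool.Agent.TK.Core2

set_option autoImplicit false

/-! Circle symmetric tight surfaces: exclusion of the profiles (MP_336b57_gt). -/

namespace Pool.Agent.TK

open Complex Set Filter Topology
open scoped ComplexConjugate

noncomputable section

/-! ### Elementary facts -/

theorem norm_exp_I (b : ℤ) (s : ℝ) : ‖cexp (I * b * s)‖ = 1 := by
  rw [Complex.norm_exp]
  simp

theorem re_le_norm (w z : ℂ) (b : ℤ) (s : ℝ) : (w * (z * cexp (I * b * s))).re ≤ ‖w‖ * ‖z‖ := by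
  refine (Complex.re_le_norm _).trans ?_
  rw [norm_mul, norm_mul, norm_exp_I, mul_one]

section
variable {u v : ℝ → ℂ} {a b : ℤ}

theorem Data.ue (h : Data u v a b) (ha : Even a) (t : ℝ) : u (-t) = u t := by
  rw [h.eu, ha.neg_one_zpow, one_mul]

theorem Data.vo (h : Data u v a b) (hb : Odd b) (t : ℝ) : v (-t) = -v t := by
  rw [h.ev, hb.neg_one_zpow, neg_one_mul]

theorem Data.vnpi (h : Data u v a b) (hb : Odd b) (n : ℤ) : v (n * Real.pi) = 0 := by
  have h1 := h.vo hb (n * Real.pi)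
  have h2 := per_int h.pv (-(n * Real.pi)) n
  have e : -(n * Real.pi) + n * (2 * Real.pi) = n * Real.pi := by ring
  rw [e, h1] at h2
  exact self_eq_neg.1 h2

theorem Data.v0 (h : Data u v a b) (hb : Odd b) : v 0 = 0 := by
  simpa using h.vnpi hb 0

theorem Data.vpi (h : Data u v a b) (hb : Odd b) : v Real.pi = 0 := by
  simpa using h.vnpi hb 1

theorem deriv_even {u : ℝ → ℂ} (h : ∀ t, u (-t) = u t) : deriv u 0 = 0 := by
  have h1 := deriv_comp_neg u 0
  have h2 : (fun x => u (-x)) = u := funext h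
  rw [h2, neg_zero] at h1
  exact self_eq_neg.1 h1

theorem Data.u0 (h : Data u v a b) (hb : Odd b) : u 0 ≠ 0 := by
  intro h0
  have := h.imm 0 1 0 (by rw [h0]; simp) (by rw [h.v0 hb]; simp)
  exact one_ne_zero this.1

theorem Data.upi (h : Data u v a b) (hb : Odd b) : u Real.pi ≠ 0 := by
  intro h0
  have := h.imm Real.pi 1 0 (by rw [h0]; simp) (by rw [h.vpi hb]; simp)
  exact one_ne_zero this.1

theorem Data.ane (h : Data u v a b) (hb : Odd b) : a ≠ 0 := by
  intro h0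
  have := h.imm 0 1 0 (by rw [h0]; simp) (by rw [h.v0 hb]; simp)
  exact one_ne_zero this.1

theorem Data.dv0 (h : Data u v a b) (ha : Even a) : deriv v 0 ≠ 0 := by
  intro h0
  have := h.imm 0 0 1 (by rw [deriv_even (h.ue ha)]; simp) (by rw [h0]; simp)
  exact one_ne_zero this.2

theorem Data.exists_v (h : Data u v a b) (ha : Even a) : ∃ t ∈ Ioo 0 Real.pi, v t ≠ 0 := by
  by_contra hn
  push Not at hn
  have hmid : Real.pi / 2 ∈ Ioo 0 Real.pi := ⟨by positivity, by linarith [Real.pi_pos]⟩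
  have h1 : v =ᶠ[𝓝 (Real.pi / 2)] 0 := by
    filter_upwards [isOpen_Ioo.mem_nhds hmid] with t ht
    exact hn t ht
  have h2 := h.av.eqOn_zero_of_preconnected_of_eventuallyEq_zero isPreconnected_univ (mem_univ _) h1
  have h3 : v = fun _ => 0 := funext fun t => h2 (mem_univ t)
  exact h.dv0 ha (by rw [h3]; simp)

theorem parity (h : Data u v a b) : (Even a ∧ Odd b) ∨ (Odd a ∧ Even b) := by
  rcases Int.even_or_odd a with ha | ha
  · rcases Int.even_or_odd b with hb | hb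
    · exfalso
      exact h.dv0 ha (deriv_even (h.swap.ue hb))
    · exact Or.inl ⟨ha, hb⟩
  · rcases Int.even_or_odd b with hb | hb
    · exact Or.inr ⟨ha, hb⟩
    · exfalso
      exact h.u0 hb (h.swap.v0 ha)

/-- the weight of the odd part is one -/
theorem Data.b_one (h : Data u v a b) (ha : Even a) (hb : Odd b) (hb0 : 0 < b) : b = 1 := by
  obtain ⟨t₁, ht₁⟩ := max_norm h.cv h.pv
  obtain ⟨t₂, _, ht₂⟩ := h.exists_v ha
  have hM : 0 < ‖v t₁‖ := (norm_pos_iff.2 ht₂).trans_le (ht₁ t₂)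
  obtain ⟨s₁, hs₁⟩ := align (v t₁) b hb0.ne'
  by_contra hne
  have hhe : ∀ p : ℝ × ℝ, hh u v a b 0 1 p = (1 * (v p.2 * cexp (I * b * p.1))).re := by
    intro p; simp [hh]
  have hle : ∀ p : ℝ × ℝ, hh u v a b 0 1 p ≤ ‖v p.2‖ := by
    intro p
    rw [hhe]
    simpa using re_le_norm 1 (v p.2) b p.1
  have hp : hh u v a b 0 1 (s₁, t₁) = ‖v t₁‖ := by
    rw [hhe, one_mul]; simp only; rw [hs₁, Complex.ofReal_re]
  have hq : hh u v a b 0 1 (s₁ + 2 * Real.pi / b, t₁) = ‖v t₁‖ := by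
    rw [hhe, one_mul]; simp only; rw [shift b hb0.ne', hs₁, Complex.ofReal_re]
  have hexp : cexp (I * (2 : ℤ) * ((s₁, t₁) : ℝ × ℝ).1) ≠
      cexp (I * (2 : ℤ) * ((s₁ + 2 * Real.pi / b, t₁) : ℝ × ℝ).1) := by
    intro he
    have hd := two_of_exp hb0.ne' s₁ he
    have : b ≤ 2 := Int.le_of_dvd (by norm_num) hd
    obtain ⟨k, hk⟩ := hb
    omega
  have := h.inf2 ha (h.ane hb) hb 0 1 hM.ne' (fun p => (hle p).trans (ht₁ _))
    (normSq_an h.av ‖v t₁‖) (fun p hp => ?_) hp hq hexp 0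
  · rw [normSq_zero hM.le, h.v0 hb, norm_zero] at this
    exact hM.ne this
  · rw [normSq_zero hM.le]
    exact le_antisymm (ht₁ _) (by rw [← hp]; exact hle p)

/-- the weight of the even part is two, or its norm is constant -/
theorem Data.a_two (h : Data u v a b) (ha : Even a) (hb : Odd b) (ha0 : 0 < a) :
    a = 2 ∨ ∀ t, ‖u t‖ = ‖u 0‖ := by
  obtain ⟨t₁, ht₁⟩ := max_norm h.cu h.pu
  have hM : 0 < ‖u t₁‖ := (norm_pos_iff.2 (h.u0 hb)).trans_le (ht₁ 0)
  obtain ⟨s₁, hs₁⟩ := align (-u t₁) a ha0.ne'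
  by_cases hd : a ∣ 2
  · left
    have : a ≤ 2 := Int.le_of_dvd (by norm_num) hd
    obtain ⟨k, hk⟩ := ha
    omega
  right
  have hhe : ∀ p : ℝ × ℝ, hh u v a b (-1) 0 p = (-u p.2 * cexp (I * a * p.1)).re := by
    intro p; simp [hh]
  have hle : ∀ p : ℝ × ℝ, hh u v a b (-1) 0 p ≤ ‖u p.2‖ := by
    intro p
    have := re_le_norm (-1) (u p.2) a p.1
    rw [hhe]
    simpa using this
  have hp : hh u v a b (-1) 0 (s₁, t₁) = ‖u t₁‖ := by
    rw [hhe]; simp only; rw [hs₁, Complex.ofReal_re, norm_neg]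
  have hq : hh u v a b (-1) 0 (s₁ + 2 * Real.pi / a, t₁) = ‖u t₁‖ := by
    rw [hhe]; simp only; rw [shift a ha0.ne', hs₁, Complex.ofReal_re, norm_neg]
  have hexp : cexp (I * (2 : ℤ) * ((s₁, t₁) : ℝ × ℝ).1) ≠
      cexp (I * (2 : ℤ) * ((s₁ + 2 * Real.pi / a, t₁) : ℝ × ℝ).1) := by
    intro he
    exact hd (two_of_exp ha0.ne' s₁ he)
  have key := h.inf2 ha (h.ane hb) hb (-1) 0 hM.ne' (fun p => (hle p).trans (ht₁ _))
    (normSq_an h.au ‖u t₁‖) (fun p hp => by
      rw [normSq_zero hM.le]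
      exact le_antisymm (ht₁ _) (by rw [← hp]; exact hle p)) hp hq hexp
  intro t
  rw [(normSq_zero hM.le).1 (key t), (normSq_zero hM.le).1 (key 0)]

/-! ### The discriminant -/

/-- the discriminant of a quartic -/
def disc (a b c d e : ℂ) : ℂ :=
  256 * a ^ 3 * e ^ 3 - 192 * a ^ 2 * b * d * e ^ 2 - 128 * a ^ 2 * c ^ 2 * e ^ 2 +
    144 * a ^ 2 * c * d ^ 2 * e - 27 * a ^ 2 * d ^ 4 + 144 * a * b ^ 2 * c * e ^ 2 -
    6 * a * b ^ 2 * d ^ 2 * e - 80 * a * b * c ^ 2 * d * e + 18 * a * b * c * d ^ 3 +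
    16 * a * c ^ 4 * e - 4 * a * c ^ 3 * d ^ 2 - 27 * b ^ 4 * e ^ 2 + 18 * b ^ 3 * c * d * e -
    4 * b ^ 3 * d ^ 3 - 4 * b ^ 2 * c ^ 3 * e + b ^ 2 * c ^ 2 * d ^ 2

theorem disc_zero {a b c d e x : ℂ} (h1 : a * x ^ 4 + b * x ^ 3 + c * x ^ 2 + d * x + e = 0)
    (h2 : 4 * a * x ^ 3 + 3 * b * x ^ 2 + 2 * c * x + d = 0) : disc a b c d e = 0 := by
  have hd : d = -(4 * a * x ^ 3 + 3 * b * x ^ 2 + 2 * c * x) := by linear_combination h2
  have he : e = 3 * a * x ^ 4 + 2 * b * x ^ 3 + c * x ^ 2 := by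
    rw [hd] at h1; linear_combination h1
  subst hd; subst he
  unfold disc
  ring

theorem disc_an {f g : ℝ → ℂ} (hf : AnalyticOnNhd ℝ f univ) (hg : AnalyticOnNhd ℝ g univ) (c : ℂ) :
    AnalyticOnNhd ℝ (fun t => disc (f t) (g t) c (conj (g t)) (conj (f t))) univ := by
  intro t ht
  have a1 := hf t ht
  have a2 := hg t ht
  have a3 := conj_an hf t ht
  have a4 := conj_an hg t ht
  unfold disc
  fun_prop

/-- a maximum gives a multiple root -/
theorem crit (z w : ℂ) {p : ℝ × ℝ}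
    (hp : ∀ q, hh u v 2 1 z w q ≤ hh u v 2 1 z w p) :
    disc (z * u p.2) (w * v p.2) (-2 * (hh u v 2 1 z w p : ℂ)) (conj (w * v p.2))
      (conj (z * u p.2)) = 0 := by
  obtain ⟨s, t⟩ := p
  set P := z * u t with hP
  set Q := w * v t with hQ
  set c := hh u v 2 1 z w (s, t) with hc
  set x := cexp (I * s) with hx
  have hx0 : x ≠ 0 := Complex.exp_ne_zero _
  have hxc : conj x = x⁻¹ := by
    rw [hx, ← Complex.exp_conj, ← Complex.exp_neg]
    congr 1
    simp
  have e2 : ∀ s : ℝ, cexp (I * (2 : ℤ) * s) = cexp (I * s) ^ 2 := by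
    intro s
    rw [← Complex.exp_nat_mul]
    congr 1; push_cast; ring
  have e1 : ∀ s : ℝ, cexp (I * (1 : ℤ) * s) = cexp (I * s) := by
    intro s; simp
  have hfun : ∀ r : ℝ, hh u v 2 1 z w (r, t) = (P * cexp (I * r) ^ 2 + Q * cexp (I * r)).re := by
    intro r
    show (z * (u t * cexp (I * ((2 : ℤ) : ℂ) * r))).re +
      (w * (v t * cexp (I * ((1 : ℤ) : ℂ) * r))).re = _
    rw [e2, e1, ← Complex.add_re, hP, hQ]
    congr 1
    ring
  have h2c : (2 : ℂ) * c = (P * x ^ 2 + Q * x) + conj (P * x ^ 2 + Q * x) := by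
    rw [Complex.add_conj, hc, hfun]
    push_cast
    ring
  -- the derivative
  have hder : HasDerivAt (fun r : ℝ => P * cexp (I * r) ^ 2 + Q * cexp (I * r))
      (P * (2 * x * (x * I)) + Q * (x * I)) s := by
    have h1 : HasDerivAt (fun r : ℝ => I * (r : ℂ)) I s := by
      simpa using (Complex.ofRealCLM.hasDerivAt (x := s)).const_mul I
    have h2 : HasDerivAt (fun r : ℝ => cexp (I * r)) (x * I) s := h1.cexp
    have h3 := ((h2.pow 2).const_mul P).add (h2.const_mul Q)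
    refine h3.congr_deriv ?_
    push_cast
    ring
  have hder2 : HasDerivAt (fun r : ℝ => hh u v 2 1 z w (r, t))
      (P * (2 * x * (x * I)) + Q * (x * I)).re s := by
    have := Complex.reCLM.hasFDerivAt.comp_hasDerivAt s hder
    refine this.congr_of_eventuallyEq (Eventually.of_forall fun r => ?_)
    exact hfun r
  have hmax : IsLocalMax (fun r : ℝ => hh u v 2 1 z w (r, t)) s :=
    Eventually.of_forall fun r => hp (r, t)
  have h0 : (P * (2 * x * (x * I)) + Q * (x * I)).re = 0 := hmax.hasDerivAt_eq_zero hder2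
  have h0c : (P * (2 * x * (x * I)) + Q * (x * I)) + conj (P * (2 * x * (x * I)) + Q * (x * I)) = 0 := by
    rw [Complex.add_conj, h0]; simp
  simp only [map_add, map_mul, map_pow, hxc, Complex.conj_I, map_ofNat] at h2c h0c
  have f1 : P * x ^ 4 + Q * x ^ 3 - 2 * c * x ^ 2 + conj Q * x + conj P = 0 := by
    have := congrArg (fun y => y * x ^ 2) h2c
    field_simp at this
    linear_combination -this
  have f2 : 2 * P * x ^ 4 - 2 * conj P + Q * x ^ 3 - conj Q * x = 0 := by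
    have := congrArg (fun y => y * x ^ 2) h0c
    field_simp at this
    have h3 : I * (2 * P * x ^ 4 - 2 * conj P + Q * x ^ 3 - conj Q * x) = 0 := by
      linear_combination this
    exact (mul_eq_zero.1 h3).resolve_left Complex.I_ne_zero
  apply disc_zero (x := x)
  · linear_combination f1
  · have : (4 * P * x ^ 3 + 3 * Q * x ^ 2 + 2 * (-2 * c) * x + conj Q) * x = 0 := by
      linear_combination f2 + 2 * f1
    exact (mul_eq_zero.1 this).resolve_right hx0

end

end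

end Pool.Agent.TK
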