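import Pool.Agent.TK.Core3

set_option autoImplicit false

/-! Circle symmetric tight surfaces: the winding argument (MP_336b57_gt). -/

namespace Pool.Agent.TK

open Complex Set Filter Topology
open scoped ComplexConjugate

noncomputable section

section
variable {u v : ℝ → ℂ}

theorem e1 (s : ℝ) : cexp (I * ((1 : ℤ) : ℂ) * s) = cexp (I * s) := by simp

theorem e2 (s : ℝ) : cexp (I * ((2 : ℤ) : ℂ) * s) = cexp (I * s) ^ 2 := by
  rw [← Complex.exp_nat_mul]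
  congr 1; push_cast; ring

theorem hh_eq (u v : ℝ → ℂ) (z w : ℂ) (s t : ℝ) :
    hh u v 2 1 z w (s, t) = (z * u t * cexp (I * s) ^ 2).re + (w * v t * cexp (I * s)).re := by
  show (z * (u t * cexp (I * ((2 : ℤ) : ℂ) * s))).re +
    (w * (v t * cexp (I * ((1 : ℤ) : ℂ) * s))).re = _
  rw [e2, e1, mul_assoc, mul_assoc]

/-- over every parameter the height is at least `X |u|` somewhere -/
theorem exists_ge (u v : ℝ → ℂ) (X : ℝ) (w : ℂ) (t : ℝ) :
    ∃ s, X * ‖u t‖ ≤ hh u v 2 1 (-X) w (s, t) := by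
  obtain ⟨s, hs⟩ := align (-u t) 2 (by norm_num)
  rw [norm_neg, e2] at hs
  have key : ∀ r : ℝ, cexp (I * r) ^ 2 = cexp (I * s) ^ 2 →
      hh u v 2 1 (-X) w (r, t) = X * ‖u t‖ + (w * v t * cexp (I * r)).re := by
    intro r hr
    rw [hh_eq, hr]
    congr 1
    have : -(X : ℂ) * u t * cexp (I * s) ^ 2 = X * (-u t * cexp (I * s) ^ 2) := by ring
    rw [this, hs, ← Complex.ofReal_mul, Complex.ofReal_re]
  have hneg : cexp (I * ((s + Real.pi : ℝ) : ℂ)) = -cexp (I * s) := by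
    have : I * ((s + Real.pi : ℝ) : ℂ) = I * s + Real.pi * I := by push_cast; ring
    rw [this, Complex.exp_add, Complex.exp_pi_mul_I, mul_neg_one]
  by_cases h0 : 0 ≤ (w * v t * cexp (I * s)).re
  · exact ⟨s, by rw [key s rfl]; linarith⟩
  · refine ⟨s + Real.pi, ?_⟩
    rw [key _ (by rw [hneg]; ring), hneg, mul_neg, Complex.neg_re]
    linarith

/-- two ends of maximal norm: the norm is constant -/
theorem Data.const_of_ends (h : Data u v 2 1) (hle : ∀ t, ‖u t‖ ≤ ‖u 0‖)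
    (hpi : ‖u Real.pi‖ = ‖u 0‖) (t : ℝ) : ‖u t‖ = ‖u 0‖ := by
  have hG : Continuous fun p : ℝ × ℝ => ((Real.cos p.2 : ℝ) : ℂ) := by fun_prop
  have hpre := h.tp (-1) 0 ‖u 0‖ (fun p => ((Real.cos p.2 : ℝ) : ℂ)) hG
    ⟨fun s t => by simp, fun s t => by simp⟩
  have hpre2 := hpre.image re Complex.continuous_re.continuousOn
  obtain ⟨s₀, hs₀⟩ := exists_ge u v 1 0 0
  obtain ⟨s₁, hs₁⟩ := exists_ge u v 1 0 Real.pi
  rw [one_mul, Complex.ofReal_one] at hs₀ hs₁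
  have m0 : (1 : ℝ) ∈ re '' ((fun p : ℝ × ℝ => ((Real.cos p.2 : ℝ) : ℂ)) ''
      {p | ‖u 0‖ ≤ hh u v 2 1 (-1) 0 p}) := ⟨_, ⟨(s₀, 0), hs₀, rfl⟩, by simp⟩
  have m1 : (-1 : ℝ) ∈ re '' ((fun p : ℝ × ℝ => ((Real.cos p.2 : ℝ) : ℂ)) ''
      {p | ‖u 0‖ ≤ hh u v 2 1 (-1) 0 p}) :=
    ⟨_, ⟨(s₁, Real.pi), by rw [← hpi]; exact hs₁, rfl⟩, by simp⟩
  have hmem := hpre2.ordConnected.out m1 m0 (⟨Real.neg_one_le_cos t, Real.cos_le_one t⟩ :
    Real.cos t ∈ Icc (-1 : ℝ) 1)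
  obtain ⟨_, ⟨⟨s, r⟩, hp, rfl⟩, hcos⟩ := hmem
  rw [Complex.ofReal_re] at hcos
  simp only at hcos
  have hur : ‖u r‖ = ‖u t‖ := by
    obtain ⟨k, hk | hk⟩ := Real.cos_eq_cos_iff.1 hcos
    · rw [show t = r + k * (2 * Real.pi) by rw [hk]; ring, per_int h.pu]
    · rw [show t = -r + k * (2 * Real.pi) by rw [hk]; ring, per_int h.pu, h.ue (by decide)]
  refine le_antisymm (hle t) ?_
  rw [← hur]
  refine le_trans hp ?_
  rw [hh_eq, zero_mul, zero_mul, Complex.zero_re, add_zero]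
  refine (Complex.re_le_norm _).trans ?_
  have := norm_exp_I 1 s
  rw [e1] at this
  simp [this]

/-- for positive weight of the even part the top sets have constant `exp (2 i s)` -/
theorem Data.const2 (h : Data u v 2 1) (hu : ¬ ∀ t, ‖u t‖ = ‖u 0‖) {X : ℝ} (hX : 0 < X) (w : ℂ)
    {p q : ℝ × ℝ} (hp : ∀ r, hh u v 2 1 (-X) w r ≤ hh u v 2 1 (-X) w p)
    (hq : ∀ r, hh u v 2 1 (-X) w r ≤ hh u v 2 1 (-X) w q) :
    cexp (I * (2 : ℤ) * p.1) = cexp (I * (2 : ℤ) * q.1) := by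
  by_contra hne
  have h1 : Odd (1 : ℤ) := odd_one
  have h2 : Even (2 : ℤ) := even_two
  obtain ⟨c, hc⟩ : ∃ c, c = hh u v 2 1 (-X) w p := ⟨_, rfl⟩
  have hcq : hh u v 2 1 (-X) w q = c := by
    rw [hc]; exact le_antisymm (hp q) (hq p)
  have hge : ∀ t, X * ‖u t‖ ≤ c := by
    intro t
    obtain ⟨s, hs⟩ := exists_ge u v X w t
    exact hs.trans (by rw [hc]; exact hp _)
  have hu0 : 0 < ‖u 0‖ := norm_pos_iff.2 (h.u0 h1)
  have hcpos : 0 < c := (mul_pos hX hu0).trans_le (hge 0)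
  have key := h.inf2 h2 (by norm_num) h1 (-X) w hcpos.ne' (fun r => by rw [hc]; exact hp r)
    (D := fun t => disc (-(X : ℂ) * u t) (w * v t) (-2 * (c : ℂ)) (conj (w * v t))
      (conj (-(X : ℂ) * u t)))
    (disc_an (analyticOnNhd_const.mul h.au) (analyticOnNhd_const.mul h.av) _)
    (fun r hr => by
      have := crit (u := u) (v := v) (-X) w (p := r) (by rw [hr, hc]; exact hp)
      rw [hr] at this
      exact this) hc.symm hcq hne
  have ends : ∀ t, v t = 0 → u t ≠ 0 → X * ‖u t‖ = c := by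
    intro t hv hut
    have := key t
    simp only [hv, mul_zero, map_zero, disc] at this
    have e : (256 : ℂ) * (-(X : ℂ) * u t * conj (-(X : ℂ) * u t)) *
        ((-(X : ℂ) * u t * conj (-(X : ℂ) * u t)) - c ^ 2) ^ 2 = 0 := by
      linear_combination this
    have hA : -(X : ℂ) * u t * conj (-(X : ℂ) * u t) = ((X * ‖u t‖) ^ 2 : ℝ) := by
      rw [Complex.mul_conj']
      rw [norm_mul, norm_neg, Complex.norm_real, Real.norm_eq_abs, abs_of_pos hX]
      push_cast; ring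
    rw [hA] at e
    have hpos : 0 < X * ‖u t‖ := mul_pos hX (norm_pos_iff.2 hut)
    have h3 : (((X * ‖u t‖) ^ 2 : ℝ) : ℂ) ≠ 0 := by
      exact_mod_cast (pow_pos hpos 2).ne'
    have h4 : ((((X * ‖u t‖) ^ 2 : ℝ) : ℂ) - c ^ 2) ^ 2 = 0 :=
      (mul_eq_zero.1 e).resolve_left (mul_ne_zero (by norm_num) h3)
    have h5 : ((((X * ‖u t‖) ^ 2 : ℝ) : ℂ) - c ^ 2) = 0 := pow_eq_zero_iff (two_ne_zero) |>.1 h4
    have h6 : (X * ‖u t‖) ^ 2 = c ^ 2 := by
      rw [sub_eq_zero] at h5; exact_mod_cast h5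
    exact (pow_left_inj₀ hpos.le hcpos.le two_ne_zero).1 h6
  have E0 := ends 0 (h.v0 h1) (h.u0 h1)
  have E1 := ends Real.pi (h.vpi h1) (h.upi h1)
  apply hu
  refine h.const_of_ends (fun t => ?_) ?_
  · have := hge t
    rw [← E0] at this
    exact le_of_mul_le_mul_left this hX
  · exact mul_left_cancel₀ hX.ne' (E1.trans E0.symm)

/-- the same without the even part -/
theorem Data.const1 (h : Data u v 2 1) {w : ℂ} (hw : w ≠ 0)
    {p q : ℝ × ℝ} (hp : ∀ r, hh u v 2 1 0 w r ≤ hh u v 2 1 0 w p)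
    (hq : ∀ r, hh u v 2 1 0 w r ≤ hh u v 2 1 0 w q) :
    cexp (I * (2 : ℤ) * p.1) = cexp (I * (2 : ℤ) * q.1) := by
  by_contra hne
  have h1 : Odd (1 : ℤ) := odd_one
  have h2 : Even (2 : ℤ) := even_two
  obtain ⟨t₁, ht₁⟩ := max_norm h.cv h.pv
  obtain ⟨t₂, _, ht₂⟩ := h.exists_v h2
  have hM : 0 < ‖v t₁‖ := (norm_pos_iff.2 ht₂).trans_le (ht₁ t₂)
  have hw' : 0 < ‖w‖ := norm_pos_iff.2 hw
  have hle : ∀ r : ℝ × ℝ, hh u v 2 1 0 w r ≤ ‖w‖ * ‖v r.2‖ := by
    intro r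
    have := re_le_norm w (v r.2) 1 r.1
    simpa [hh] using this
  obtain ⟨s₁, hs₁⟩ := align (w * v t₁) 1 one_ne_zero
  have hc : hh u v 2 1 0 w p = ‖w‖ * ‖v t₁‖ := by
    refine le_antisymm ((hle p).trans (mul_le_mul_of_nonneg_left (ht₁ _) hw'.le)) ?_
    refine le_trans (le_of_eq ?_) (hp (s₁, t₁))
    rw [hh_eq, zero_mul, zero_mul, Complex.zero_re, zero_add, ← e1, hs₁, Complex.ofReal_re, norm_mul]
  have hcq : hh u v 2 1 0 w q = ‖w‖ * ‖v t₁‖ := by
    rw [← hc]; exact le_antisymm (hp q) (hq p)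
  have := h.inf2 h2 (by norm_num) h1 0 w (mul_pos hw' hM).ne' (fun r => by rw [← hc]; exact hp r)
    (normSq_an h.av ‖v t₁‖) (fun r hr => by
      rw [normSq_zero hM.le]
      refine le_antisymm (ht₁ _) ?_
      have h3 := hle r
      rw [hr] at h3
      exact le_of_mul_le_mul_left h3 hw') hc hcq hne 0
  rw [normSq_zero hM.le, h.v0 h1, norm_zero] at this
  exact hM.ne this

/-- the first weight -/
def zz (x : ℝ × ℝ) : ℂ := -((Real.sin x.1 ^ 2 : ℝ) : ℂ)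

/-- the second weight -/
def ww (x : ℝ × ℝ) : ℂ := ((Real.cos x.1 ^ 2 : ℝ) : ℂ) * cexp (I * x.2)

theorem zz_cont : Continuous zz := by unfold zz; fun_prop

theorem ww_cont : Continuous ww := by unfold ww; fun_prop

theorem H_cont (hu : Continuous u) (hv : Continuous v) :
    Continuous fun x : (ℝ × ℝ) × (ℝ × ℝ) => hh u v 2 1 (zz x.1) (ww x.1) x.2 :=
  hh_cont2 (a := 2) (b := 1) hu hv zz_cont ww_cont

theorem H_cont1 (hu : Continuous u) (hv : Continuous v) (q : ℝ × ℝ) :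
    Continuous fun y : (ℝ × ℝ) × K0 => hh u v 2 1 (zz y.1) (ww y.1) q := by
  have c : Continuous fun y : (ℝ × ℝ) × K0 => ((y.1, q) : (ℝ × ℝ) × (ℝ × ℝ)) :=
    continuous_fst.prodMk continuous_const
  exact Continuous.comp (g := fun x : (ℝ × ℝ) × (ℝ × ℝ) => hh u v 2 1 (zz x.1) (ww x.1) x.2)
    (f := fun y : (ℝ × ℝ) × K0 => ((y.1, q) : (ℝ × ℝ) × (ℝ × ℝ))) (H_cont hu hv) c

theorem H_cont2 (hu : Continuous u) (hv : Continuous v) :
    Continuous fun y : (ℝ × ℝ) × K0 => hh u v 2 1 (zz y.1) (ww y.1) y.2 := by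
  have c : Continuous fun y : (ℝ × ℝ) × K0 => ((y.1, (y.2 : ℝ × ℝ)) : (ℝ × ℝ) × (ℝ × ℝ)) :=
    continuous_fst.prodMk (continuous_subtype_val.comp continuous_snd)
  exact Continuous.comp (g := fun x : (ℝ × ℝ) × (ℝ × ℝ) => hh u v 2 1 (zz x.1) (ww x.1) x.2)
    (f := fun y : (ℝ × ℝ) × K0 => ((y.1, (y.2 : ℝ × ℝ)) : (ℝ × ℝ) × (ℝ × ℝ))) (H_cont hu hv) c

theorem H_cont3 : Continuous fun y : (ℝ × ℝ) × K0 => cexp (I * (2 : ℤ) * (y.2 : ℝ × ℝ).1) := by
  have c : Continuous fun y : (ℝ × ℝ) × K0 => (y.2 : ℝ × ℝ).1 :=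
    continuous_fst.comp (continuous_subtype_val.comp continuous_snd)
  exact Complex.continuous_exp.comp (continuous_const.mul (Complex.continuous_ofReal.comp c))

/-- maximum points -/
def Top (u v : ℝ → ℂ) (x : ℝ × ℝ) : Set (ℝ × ℝ) :=
  {p | ∀ q, hh u v 2 1 (zz x) (ww x) q ≤ hh u v 2 1 (zz x) (ww x) p}

theorem Data.uniq (h : Data u v 2 1) (hu : ¬ ∀ t, ‖u t‖ = ‖u 0‖) (x : ℝ × ℝ) {p q : ℝ × ℝ}
    (hp : p ∈ Top u v x) (hq : q ∈ Top u v x) :
    cexp (I * (2 : ℤ) * p.1) = cexp (I * (2 : ℤ) * q.1) := by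
  by_cases hs : Real.sin x.1 = 0
  · have hz : zz x = 0 := by simp [zz, hs]
    have hw : ww x ≠ 0 := by
      have : Real.cos x.1 ^ 2 = 1 := by
        have := Real.sin_sq_add_cos_sq x.1
        rw [hs] at this; linarith
      unfold ww
      rw [this, Complex.ofReal_one, one_mul]
      exact Complex.exp_ne_zero _
    simp only [Top, hz, mem_ofPred_eq] at hp hq
    exact h.const1 hw hp hq
  · have hX : 0 < Real.sin x.1 ^ 2 := by positivity
    exact h.const2 hu hX (ww x) hp hq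

/-- a tight profile with weights `2` and `1` has `|u|` constant -/
theorem Data.winding (h : Data u v 2 1) : ∀ t, ‖u t‖ = ‖u 0‖ := by
  by_contra hu
  have hex : ∀ x : ℝ × ℝ, ∃ p : ℝ × ℝ, p ∈ K0 ∧ p ∈ Top u v x := fun x => by
    obtain ⟨p, hp, hm⟩ := h.exists_max (zz x) (ww x)
    exact ⟨p, hp, hm⟩
  choose P hPK hPT using hex
  set g : ℝ × ℝ → ℂ := fun x => cexp (I * (2 : ℤ) * (P x).1) with hg
  have hgu : ∀ x, ∀ p ∈ Top u v x, cexp (I * (2 : ℤ) * p.1) = g x := fun x p hp =>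
    h.uniq hu x hp (hPT x)
  have hgc : Continuous g := by
    rw [continuous_iff_isClosed]
    intro C hC
    have hcs : CompactSpace K0 := isCompact_iff_compactSpace.1 (isCompact_Icc.prod isCompact_Icc)
    have e : g ⁻¹' C = Prod.fst '' {y : (ℝ × ℝ) × K0 |
        (∀ q, hh u v 2 1 (zz y.1) (ww y.1) q ≤ hh u v 2 1 (zz y.1) (ww y.1) y.2) ∧
          cexp (I * (2 : ℤ) * (y.2 : ℝ × ℝ).1) ∈ C} := by
      ext x
      constructor
      · intro hx
        exact ⟨(x, ⟨P x, hPK x⟩), ⟨hPT x, hx⟩, rfl⟩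
      · rintro ⟨⟨x', p⟩, ⟨h1, h2⟩, rfl⟩
        show g x' ∈ C
        rw [← hgu x' p h1]
        exact h2
    rw [e]
    refine isClosedMap_fst_of_compactSpace _ ?_
    have eI : {y : (ℝ × ℝ) × K0 |
        (∀ q, hh u v 2 1 (zz y.1) (ww y.1) q ≤ hh u v 2 1 (zz y.1) (ww y.1) y.2) ∧
          cexp (I * (2 : ℤ) * (y.2 : ℝ × ℝ).1) ∈ C} =
        (⋂ q, {y : (ℝ × ℝ) × K0 |
          hh u v 2 1 (zz y.1) (ww y.1) q ≤ hh u v 2 1 (zz y.1) (ww y.1) y.2}) ∩
        {y : (ℝ × ℝ) × K0 | cexp (I * (2 : ℤ) * (y.2 : ℝ × ℝ).1) ∈ C} := by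
      ext y
      simp only [mem_ofPred_eq, mem_inter_iff, mem_iInter]
    rw [eI]
    refine IsClosed.inter (isClosed_iInter fun q => ?_) ?_
    · exact isClosed_le (H_cont1 h.cu h.cv q) (H_cont2 h.cu h.cv)
    · exact hC.preimage H_cont3
  obtain ⟨L, hL, hLe⟩ := log_lift hgc (fun x => Complex.exp_ne_zero _)
  -- periodicity
  have hper : ∀ x : ℝ × ℝ, g (x.1, x.2 + 2 * Real.pi) = g x := by
    intro x
    have hw : ww (x.1, x.2 + 2 * Real.pi) = ww x := by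
      unfold ww
      have : I * ((x.2 + 2 * Real.pi : ℝ) : ℂ) = I * x.2 + 2 * Real.pi * I := by push_cast; ring
      simp only
      rw [this, Complex.exp_add, Complex.exp_two_pi_mul_I, mul_one]
    have hz : zz (x.1, x.2 + 2 * Real.pi) = zz x := rfl
    refine (hgu (x.1, x.2 + 2 * Real.pi) (P x) ?_).symm
    have := hPT x
    simp only [Top, mem_ofPred_eq, hw, hz] at this ⊢
    exact this
  have hN := const_of_exp (X := ℝ × ℝ) (f := fun x => L (x.1, x.2 + 2 * Real.pi) - L x) (by fun_prop)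
    (c := 1) (fun x => by
      rw [Complex.exp_sub, hLe, hLe, hper, div_self (Complex.exp_ne_zero _)])
    (Real.pi / 2, 0) (0, 0)
  -- the end with the even part only
  have hA : ∀ φ : ℝ, g (Real.pi / 2, φ) = g (Real.pi / 2, 0) := by
    intro φ
    have hw : ∀ φ : ℝ, ww (Real.pi / 2, φ) = 0 := by intro φ; simp [ww]
    refine (hgu (Real.pi / 2, φ) (P (Real.pi / 2, 0)) ?_).symm
    have := hPT (Real.pi / 2, 0)
    simp only [Top, mem_ofPred_eq, hw] at this ⊢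
    exact this
  have hA2 := const_of_exp (X := ℝ) (f := fun φ => L (Real.pi / 2, φ)) (by fun_prop)
    (c := g (Real.pi / 2, 0)) (fun φ => by rw [hLe, hA]) (0 + 2 * Real.pi) 0
  -- the end with the odd part only
  have hB : ∀ φ : ℝ, g (0, φ) * cexp (2 * I * φ) = g (0, 0) := by
    intro φ
    have hz : ∀ φ : ℝ, zz (0, φ) = 0 := by intro φ; simp [zz]
    have hw : ∀ φ : ℝ, ww (0, φ) = cexp (I * φ) := by intro φ; simp [ww]
    have hw0 : ww (0, 0) = 1 := by simp [ww]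
    have hsh : ∀ (φ s t : ℝ), hh u v 2 1 0 (cexp (I * φ)) (s, t) = hh u v 2 1 0 1 (s + φ, t) := by
      intro φ s t
      rw [hh_eq, hh_eq, zero_mul, zero_mul, zero_mul, Complex.zero_re, zero_add, zero_add]
      congr 1
      have : I * ((s + φ : ℝ) : ℂ) = I * φ + I * s := by push_cast; ring
      rw [this, Complex.exp_add]
      ring
    have hmem : ((P (0, 0)).1 - φ, (P (0, 0)).2) ∈ Top u v (0, φ) := by
      have := hPT (0, 0)
      simp only [Top, mem_ofPred_eq, hz, hw0] at this ⊢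
      rintro ⟨s, t⟩
      rw [hw, hsh, hsh, sub_add_cancel]
      exact this (s + φ, t)
    rw [← hgu (0, φ) _ hmem, hg, ← Complex.exp_add]
    congr 1
    push_cast
    ring
  have hB2 := const_of_exp (X := ℝ) (f := fun φ : ℝ => L (0, φ) + 2 * I * φ) (by fun_prop)
    (c := g (0, 0)) (fun φ => by rw [Complex.exp_add, hLe, hB]) (0 + 2 * Real.pi) 0
  simp only at hN hA2 hB2
  rw [hA2, sub_self] at hN
  have h4 : (4 * Real.pi * I : ℂ) = 0 := by
    push_cast at hB2 hN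
    linear_combination hB2 + hN
  have hpi : (Real.pi : ℂ) ≠ 0 := by exact_mod_cast Real.pi_ne_zero
  have : (4 * (Real.pi : ℂ) * I) ≠ 0 := mul_ne_zero (mul_ne_zero (by norm_num) hpi) Complex.I_ne_zero
  exact this h4

end

end

end Pool.Agent.TK
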