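import Pool.Agent.TK.Core4

set_option autoImplicit false

/-! Circle symmetric tight surfaces: even parts of constant norm, conclusion (MP_336b57_gt). -/

namespace Pool.Agent.TK

open Complex Set Filter Topology
open scoped ComplexConjugate

noncomputable section

section
variable {u v : ℝ → ℂ} {a : ℤ}

theorem finite_pow_eq (n : ℕ) (hn : 0 < n) (c : ℂ) : {x : ℂ | x ^ n = c}.Finite := by
  refine ((Polynomial.nthRoots n c).toFinset.finite_toSet).subset ?_
  intro x hx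
  rw [Finset.mem_coe, Multiset.mem_toFinset, Polynomial.mem_nthRoots hn]
  exact hx

theorem im_zero {z : ℂ} (h : z.re = ‖z‖) : z.im = 0 := by
  have h1 := Complex.sq_norm z
  rw [← h, Complex.normSq_apply] at h1
  have : z.im * z.im = 0 := by linarith
  exact mul_self_eq_zero.1 this

/-- an even periodic logarithm -/
theorem Data.log (h : Data u v a 1) (ha : Even a) (hM : ∀ t, ‖u t‖ = ‖u 0‖) :
    ∃ L : ℝ → ℂ, Continuous L ∧ (∀ t, cexp (L t) = u t) ∧ (∀ t, L (-t) = L t) ∧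
      ∀ t, L (t + 2 * Real.pi) = L t := by
  have hu0 : ∀ t, u t ≠ 0 := by
    intro t
    rw [← norm_ne_zero_iff, hM, norm_ne_zero_iff]
    exact h.u0 odd_one
  obtain ⟨L, hL, he⟩ := log_lift h.cu hu0
  have hev : ∀ t, L (-t) = L t := by
    intro t
    have := const_of_exp (X := ℝ) (f := fun t => L (-t) - L t) (by fun_prop) (c := 1) (fun t => by
      rw [Complex.exp_sub, he, he, h.ue ha, div_self (hu0 t)]) t 0
    simp only [neg_zero, sub_self] at this
    exact sub_eq_zero.1 this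
  refine ⟨L, hL, he, hev, fun t => ?_⟩
  have := const_of_exp (X := ℝ) (f := fun t => L (t + 2 * Real.pi) - L t) (by fun_prop) (c := 1)
    (fun t => by rw [Complex.exp_sub, he, he, h.pu, div_self (hu0 t)]) t (-Real.pi)
  have e : -Real.pi + 2 * Real.pi = Real.pi := by ring
  rw [e, hev, sub_self] at this
  exact sub_eq_zero.1 this

/-- the weight of an even part of constant norm is two -/
theorem Data.a_two' (h : Data u v a 1) (ha : Even a) (ha0 : 0 < a) (hM : ∀ t, ‖u t‖ = ‖u 0‖) :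
    a = 2 := by
  obtain ⟨L, hL, he, hev, hper⟩ := h.log ha hM
  obtain ⟨k, hk⟩ := id ha
  have hk0 : 0 < k := by omega
  have hkC : (k : ℂ) ≠ 0 := by exact_mod_cast hk0.ne'
  lift k to ℕ using hk0.le
  have hk0' : 0 < k := by exact_mod_cast hk0
  have hkC' : (k : ℂ) ≠ 0 := by exact_mod_cast hk0'.ne'
  set G : ℝ × ℝ → ℂ := fun p => cexp (2 * I * p.1 + L p.2 / k) with hG
  have hGc : Continuous G := by rw [hG]; fun_prop
  have hGi : Ginv G := by
    refine ⟨fun s t => ?_, fun s t => ?_⟩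
    · simp only [hG]
      rw [hev]
      have : 2 * I * ((s + Real.pi : ℝ) : ℂ) + L t / k = 2 * I * s + L t / k + 2 * Real.pi * I := by
        push_cast; ring
      rw [this, Complex.exp_add, Complex.exp_two_pi_mul_I, mul_one]
    · simp only [hG]
      rw [hper]
  have hpre := h.tp (-1) 0 ‖u 0‖ G hGc hGi
  have hfin : (G '' {p | ‖u 0‖ ≤ hh u v a 1 (-1) 0 p}).Finite := by
    refine (finite_pow_eq k hk0' (-(‖u 0‖ : ℂ))).subset ?_
    rintro _ ⟨⟨s, t⟩, hp, rfl⟩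
    have hp' : ‖u 0‖ ≤ (-(u t * cexp (I * a * s))).re := by
      have hp : ‖u 0‖ ≤ hh u v a 1 (-1) 0 (s, t) := hp
      simpa [hh] using hp
    have hn : ‖-(u t * cexp (I * a * s))‖ = ‖u 0‖ := by
      rw [norm_neg, norm_mul, norm_exp_I, mul_one, hM]
    have heq : -(u t * cexp (I * a * s)) = ‖u 0‖ := by
      have h1 : (-(u t * cexp (I * a * s))).re = ‖-(u t * cexp (I * a * s))‖ :=
        le_antisymm (Complex.re_le_norm _) (by rw [hn]; exact hp')
      rw [← hn, ← h1]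
      exact (Complex.ext rfl (by rw [Complex.ofReal_im]; exact im_zero h1))
    show G (s, t) ^ k = -(‖u 0‖ : ℂ)
    rw [← heq, neg_neg, hG, ← Complex.exp_nat_mul]
    have : (k : ℂ) * (2 * I * (s : ℂ) + L t / k) = L t + I * a * s := by
      rw [hk]; push_cast; field_simp; ring
    simp only
    rw [this, Complex.exp_add, he]
  obtain ⟨s₁, hs₁⟩ := align (-u 0) a ha0.ne'
  have hp : ((s₁, 0) : ℝ × ℝ) ∈ {p | ‖u 0‖ ≤ hh u v a 1 (-1) 0 p} := by
    show ‖u 0‖ ≤ hh u v a 1 (-1) 0 (s₁, 0)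
    have : hh u v a 1 (-1) 0 (s₁, 0) = (-u 0 * cexp (I * a * s₁)).re := by simp [hh]
    rw [this, hs₁, Complex.ofReal_re, norm_neg]
  have hq : ((s₁ + 2 * Real.pi / a, 0) : ℝ × ℝ) ∈ {p | ‖u 0‖ ≤ hh u v a 1 (-1) 0 p} := by
    show ‖u 0‖ ≤ hh u v a 1 (-1) 0 (s₁ + 2 * Real.pi / a, 0)
    have : hh u v a 1 (-1) 0 (s₁ + 2 * Real.pi / a, 0) =
      (-u 0 * cexp (I * a * ((s₁ + 2 * Real.pi / a : ℝ) : ℂ))).re := by simp [hh]
    rw [this, shift a ha0.ne', hs₁, Complex.ofReal_re, norm_neg]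
  have hsub : G (s₁, 0) = G (s₁ + 2 * Real.pi / a, 0) := by
    by_contra hne
    exact hpre.infinite_of_nontrivial ⟨_, ⟨_, hp, rfl⟩, _, ⟨_, hq, rfl⟩, hne⟩ hfin
  have h2 : cexp (I * (2 : ℤ) * s₁) = cexp (I * (2 : ℤ) * ((s₁ + 2 * Real.pi / a : ℝ) : ℂ)) := by
    simp only [hG] at hsub
    rw [Complex.exp_add, Complex.exp_add] at hsub
    have := mul_right_cancel₀ (Complex.exp_ne_zero _) hsub
    have e : ∀ x : ℂ, I * ((2 : ℤ) : ℂ) * x = 2 * I * x := by intro x; push_cast; ring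
    rw [e, e]; exact this
  have hd := two_of_exp ha0.ne' s₁ h2
  have : a ≤ 2 := Int.le_of_dvd (by norm_num) hd
  omega

/-- the values of the odd part at the tops of the even part are real multiples of each other -/
theorem Data.real_ratio (h : Data u v 2 1) {L : ℝ → ℂ} (hL : Continuous L)
    (he : ∀ t, cexp (L t) = u t) (hev : ∀ t, L (-t) = L t) (hper : ∀ t, L (t + 2 * Real.pi) = L t)
    (hM : ∀ t, ‖u t‖ = ‖u 0‖) {t₁ t₂ : ℝ} (h₁ : t₁ ∈ Ioo 0 Real.pi) (h₂ : t₂ ∈ Ioo 0 Real.pi) :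
    (v t₁ * (I * cexp (-(I * (L t₁).im / 2))) *
      conj (v t₂ * (I * cexp (-(I * (L t₂).im / 2))))).im = 0 := by
  by_contra him
  obtain ⟨V₁, hV₁⟩ : ∃ V, V = v t₁ * (I * cexp (-(I * (L t₁).im / 2))) := ⟨_, rfl⟩
  obtain ⟨V₂, hV₂⟩ : ∃ V, V = v t₂ * (I * cexp (-(I * (L t₂).im / 2))) := ⟨_, rfl⟩
  rw [← hV₁, ← hV₂] at him
  have hn1 : V₁ ≠ 0 := by rintro rfl; simp at him
  have hn2 : V₂ ≠ 0 := by rintro rfl; simp at him
  have p1 : 0 < ‖V₁‖ := norm_pos_iff.2 hn1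
  have p2 : 0 < ‖V₂‖ := norm_pos_iff.2 hn2
  -- the strict Cauchy-Schwarz inequality
  have hlt : (V₁ * conj V₂).re < ‖V₁‖ * ‖V₂‖ := by
    have hn : ‖V₁ * conj V₂‖ = ‖V₁‖ * ‖V₂‖ := by rw [norm_mul, Complex.norm_conj]
    rw [← hn]
    refine lt_of_le_of_ne (Complex.re_le_norm _) fun heq => him ?_
    exact im_zero heq
  obtain ⟨w, hw⟩ : ∃ w : ℂ, w = conj V₁ / ‖V₁‖ - conj V₂ / ‖V₂‖ := ⟨_, rfl⟩
  have hw1 : (w * V₁).re = ‖V₁‖ - (V₁ * conj V₂).re / ‖V₂‖ := by
    have : w * V₁ = ((‖V₁‖ : ℝ) : ℂ) - (V₁ * conj V₂) / (‖V₂‖ : ℂ) := by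
      rw [hw, sub_mul]
      congr 1
      · rw [div_mul_eq_mul_div, Complex.conj_mul', pow_two, mul_div_assoc, div_self, mul_one]
        exact_mod_cast p1.ne'
      · ring
    rw [this, Complex.sub_re, Complex.ofReal_re, Complex.div_ofReal_re]
  have hw2 : (w * V₂).re = (V₁ * conj V₂).re / ‖V₁‖ - ‖V₂‖ := by
    have : w * V₂ = conj (V₁ * conj V₂) / (‖V₁‖ : ℂ) - ((‖V₂‖ : ℝ) : ℂ) := by
      rw [hw, sub_mul]
      congr 1
      · simp only [map_mul, Complex.conj_conj]; ring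
      · rw [div_mul_eq_mul_div, Complex.conj_mul', pow_two, mul_div_assoc, div_self, mul_one]
        exact_mod_cast p2.ne'
    rw [this, Complex.sub_re, Complex.ofReal_re, Complex.div_ofReal_re, Complex.conj_re]
  have q1 : 0 < (w * V₁).re := by
    rw [hw1, sub_pos, div_lt_iff₀ p2]; exact hlt
  have q2 : (w * V₂).re < 0 := by
    rw [hw2, sub_neg, div_lt_iff₀ p1, mul_comm ‖V₂‖]; exact hlt
  obtain ⟨κ, hκ⟩ : ∃ κ, κ = min (w * V₁).re (-(w * V₂).re) := ⟨_, rfl⟩
  have hκ0 : 0 < κ := by rw [hκ]; exact lt_min q1 (by linarith)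
  have hκ1 : κ ≤ (w * V₁).re := by rw [hκ]; exact min_le_left _ _
  have hκ2 : κ ≤ -(w * V₂).re := by rw [hκ]; exact min_le_right _ _
  obtain ⟨t₃, ht₃⟩ := max_norm h.cv h.pv
  obtain ⟨M, hMd⟩ : ∃ M, M = ‖u 0‖ := ⟨_, rfl⟩
  have hM0 : 0 < M := by rw [hMd]; exact norm_pos_iff.2 (h.u0 odd_one)
  obtain ⟨ε, hε⟩ : ∃ ε, ε = M / (‖w‖ * ‖v t₃‖ + 1) := ⟨_, rfl⟩
  have hden : 0 < ‖w‖ * ‖v t₃‖ + 1 := by positivity
  have hε0 : 0 < ε := by rw [hε]; positivity
  have hεb : ε * (‖w‖ * ‖v t₃‖) ≤ M := by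
    have : ε * (‖w‖ * ‖v t₃‖ + 1) = M := by rw [hε]; field_simp
    linarith
  -- polar form
  have hre : ∀ t, Real.exp (L t).re = M := by
    intro t
    rw [← Complex.norm_exp, he, hM, hMd]
  have hpol : ∀ t, u t = M * cexp (I * (L t).im) := by
    intro t
    rw [← he t, ← hre t, Complex.ofReal_exp, ← Complex.exp_add]
    congr 1
    rw [mul_comm I]
    exact (Complex.re_add_im _).symm
  -- the test function
  have hτ : Continuous fun t => (L t).im := Complex.continuous_im.comp hL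
  set G : ℝ × ℝ → ℂ := fun p => ((Real.sin p.2 * Real.sin (p.1 + (L p.2).im / 2) : ℝ) : ℂ) with hG
  have hGc : Continuous G := by
    have h1 : Continuous fun p : ℝ × ℝ => (L p.2).im := hτ.comp continuous_snd
    rw [hG]
    fun_prop
  have hGi : Ginv G := by
    refine ⟨fun s t => ?_, fun s t => ?_⟩
    · simp only [hG]
      rw [hev, Real.sin_neg, show s + Real.pi + (L t).im / 2 = s + (L t).im / 2 + Real.pi by ring,
        Real.sin_add_pi]
      congr 1; ring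
    · simp only [hG]
      rw [hper, Real.sin_add_two_pi]
  have hpre := (h.tp (-1) (ε * w) (M + ε * κ) G hGc hGi).image re Complex.continuous_re.continuousOn
  have hval : ∀ s t, hh u v 2 1 (-1) (ε * w) (s, t) =
      -(u t * cexp (I * s) ^ 2).re + ε * (w * v t * cexp (I * s)).re := by
    intro s t
    rw [hh_eq]
    congr 1
    · rw [neg_one_mul, neg_mul, Complex.neg_re]
    · rw [mul_assoc, mul_assoc, Complex.re_ofReal_mul, mul_assoc]
  have key1 : M + ε * κ ≤ hh u v 2 1 (-1) (ε * w) (Real.pi / 2 - (L t₁).im / 2, t₁) := by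
    have e : cexp (I * ((Real.pi / 2 - (L t₁).im / 2 : ℝ) : ℂ)) =
        I * cexp (-(I * (L t₁).im / 2)) := by
      have : I * ((Real.pi / 2 - (L t₁).im / 2 : ℝ) : ℂ) = Real.pi / 2 * I + -(I * (L t₁).im / 2) := by
        push_cast; ring
      rw [this, Complex.exp_add, Complex.exp_pi_div_two_mul_I]
    rw [hval, e]
    have e3 : u t₁ * (I * cexp (-(I * (L t₁).im / 2))) ^ 2 = -M := by
      rw [hpol t₁, mul_pow, Complex.I_sq, ← Complex.exp_nat_mul]
      have : (M : ℂ) * cexp (I * (L t₁).im) * (-1 * cexp (((2 : ℕ) : ℂ) * -(I * (L t₁).im / 2))) =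
          -M * (cexp (I * (L t₁).im) * cexp (((2 : ℕ) : ℂ) * -(I * (L t₁).im / 2))) := by ring
      rw [this, ← Complex.exp_add]
      have : I * ((L t₁).im : ℂ) + ((2 : ℕ) : ℂ) * -(I * (L t₁).im / 2) = 0 := by push_cast; ring
      rw [this, Complex.exp_zero, mul_one]
    have e4 : w * v t₁ * (I * cexp (-(I * (L t₁).im / 2))) = w * V₁ := by rw [hV₁]; ring
    rw [e3, e4, Complex.neg_re, Complex.ofReal_re, neg_neg]
    have := mul_le_mul_of_nonneg_left hκ1 hε0.le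
    linarith
  have key2 : M + ε * κ ≤ hh u v 2 1 (-1) (ε * w) (-(Real.pi / 2) - (L t₂).im / 2, t₂) := by
    have e : cexp (I * ((-(Real.pi / 2) - (L t₂).im / 2 : ℝ) : ℂ)) =
        -(I * cexp (-(I * (L t₂).im / 2))) := by
      have : I * ((-(Real.pi / 2) - (L t₂).im / 2 : ℝ) : ℂ) =
          -Real.pi / 2 * I + -(I * (L t₂).im / 2) := by
        push_cast; ring
      rw [this, Complex.exp_add, Complex.exp_neg_pi_div_two_mul_I, neg_mul]
    rw [hval, e]
    have e3 : u t₂ * (-(I * cexp (-(I * (L t₂).im / 2)))) ^ 2 = -M := by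
      rw [hpol t₂, neg_sq, mul_pow, Complex.I_sq, ← Complex.exp_nat_mul]
      have : (M : ℂ) * cexp (I * (L t₂).im) * (-1 * cexp (((2 : ℕ) : ℂ) * -(I * (L t₂).im / 2))) =
          -M * (cexp (I * (L t₂).im) * cexp (((2 : ℕ) : ℂ) * -(I * (L t₂).im / 2))) := by ring
      rw [this, ← Complex.exp_add]
      have : I * ((L t₂).im : ℂ) + ((2 : ℕ) : ℂ) * -(I * (L t₂).im / 2) = 0 := by push_cast; ring
      rw [this, Complex.exp_zero, mul_one]
    have e4 : w * v t₂ * (-(I * cexp (-(I * (L t₂).im / 2)))) = -(w * V₂) := by rw [hV₂]; ring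
    rw [e3, e4, Complex.neg_re, Complex.ofReal_re, neg_neg, Complex.neg_re]
    have := mul_le_mul_of_nonneg_left hκ2 hε0.le
    linarith
  have m1 : Real.sin t₁ ∈ re '' (G '' {p | M + ε * κ ≤ hh u v 2 1 (-1) (ε * w) p}) := by
    refine ⟨_, ⟨_, key1, rfl⟩, ?_⟩
    simp only [hG]
    rw [Complex.ofReal_re, show Real.pi / 2 - (L t₁).im / 2 + (L t₁).im / 2 = Real.pi / 2 by ring,
      Real.sin_pi_div_two, mul_one]
  have m2 : -Real.sin t₂ ∈ re '' (G '' {p | M + ε * κ ≤ hh u v 2 1 (-1) (ε * w) p}) := by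
    refine ⟨_, ⟨_, key2, rfl⟩, ?_⟩
    simp only [hG]
    rw [Complex.ofReal_re,
      show -(Real.pi / 2) - (L t₂).im / 2 + (L t₂).im / 2 = -(Real.pi / 2) by ring,
      Real.sin_neg, Real.sin_pi_div_two]
    ring
  have s1 := Real.sin_pos_of_mem_Ioo h₁
  have s2 := Real.sin_pos_of_mem_Ioo h₂
  obtain ⟨_, ⟨⟨s, t⟩, hp, rfl⟩, hz⟩ := hpre.ordConnected.out m2 m1
    (⟨by linarith, by linarith⟩ : (0 : ℝ) ∈ Icc (-Real.sin t₂) (Real.sin t₁))
  have hp : M + ε * κ ≤ hh u v 2 1 (-1) (ε * w) (s, t) := hp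
  simp only [hG] at hz
  rw [Complex.ofReal_re, mul_eq_zero] at hz
  rw [hval] at hp
  have nexp : ‖cexp (I * (s : ℂ))‖ = 1 := by
    have := norm_exp_I 1 s
    rwa [Pool.Agent.TK.e1] at this
  have hbig : 0 < ε * κ := mul_pos hε0 hκ0
  rcases hz with hz | hz
  · obtain ⟨n, hn⟩ := Real.sin_eq_zero_iff.1 hz
    have hv0 : v t = 0 := by rw [← hn]; exact h.vnpi odd_one n
    rw [hv0, mul_zero, zero_mul, Complex.zero_re, mul_zero, add_zero] at hp
    have : -(u t * cexp (I * s) ^ 2).re ≤ M := by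
      refine (neg_le_abs _).trans ((Complex.abs_re_le_norm _).trans ?_)
      rw [norm_mul, norm_pow, nexp, hM, hMd]; simp
    linarith
  · obtain ⟨n, hn⟩ := Real.sin_eq_zero_iff.1 hz
    have hU : u t * cexp (I * s) ^ 2 = M := by
      rw [hpol t, mul_assoc, ← Complex.exp_nat_mul, ← Complex.exp_add]
      have : I * ((L t).im : ℂ) + ((2 : ℕ) : ℂ) * (I * s) = n * (2 * Real.pi * I) := by
        have hn' : (n : ℂ) * Real.pi = s + (L t).im / 2 := by exact_mod_cast hn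
        push_cast
        linear_combination (-2 * I) * hn'
      rw [this, Complex.exp_int_mul_two_pi_mul_I, mul_one]
    rw [hU, Complex.ofReal_re] at hp
    have h3 : (w * v t * cexp (I * s)).re ≤ ‖w‖ * ‖v t₃‖ := by
      refine (Complex.re_le_norm _).trans ?_
      rw [norm_mul, norm_mul, nexp, mul_one]
      exact mul_le_mul_of_nonneg_left (ht₃ t) (norm_nonneg _)
    have := mul_le_mul_of_nonneg_left h3 hε0.le
    linarith

end

end

end Pool.Agent.TK
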