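import Pool.Agent.TK.Core5

set_option autoImplicit false

/-! Circle symmetric tight surfaces: there is no profile (MP_336b57_gt). -/

namespace Pool.Agent.TK

open Complex Set Filter Topology
open scoped ComplexConjugate

noncomputable section

section
variable {u v : ℝ → ℂ} {a b : ℤ}

theorem hd_conj {f : ℝ → ℂ} {f' : ℂ} {t : ℝ} (hf : HasDerivAt f f' t) :
    HasDerivAt (fun t => conj (f t)) (conj f') t :=
  Complex.conjCLE.toContinuousLinearMap.hasFDerivAt.comp_hasDerivAt t hf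

theorem hd_re {f : ℝ → ℂ} {f' : ℂ} {t : ℝ} (hf : HasDerivAt f f' t) :
    HasDerivAt (fun t => (f t).re) f'.re t :=
  Complex.reCLM.hasFDerivAt.comp_hasDerivAt t hf

theorem hd_im {f : ℝ → ℂ} {f' : ℂ} {t : ℝ} (hf : HasDerivAt f f' t) :
    HasDerivAt (fun t => (f t).im) f'.im t :=
  Complex.imCLM.hasFDerivAt.comp_hasDerivAt t hf

/-- an even part of constant norm is impossible -/
theorem Data.caseC (h : Data u v 2 1) (hM : ∀ t, ‖u t‖ = ‖u 0‖) : False := by
  have h2 : Even (2 : ℤ) := even_two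
  have h1 : Odd (1 : ℤ) := odd_one
  obtain ⟨L, hL, he, hev, hper⟩ := h.log h2 hM
  obtain ⟨t₁, ht₁, hv₁⟩ := h.exists_v h2
  obtain ⟨M, hMd⟩ : ∃ M, M = ‖u 0‖ := ⟨_, rfl⟩
  have hM0 : 0 < M := by rw [hMd]; exact norm_pos_iff.2 (h.u0 h1)
  have hMC : (M : ℂ) ≠ 0 := by exact_mod_cast hM0.ne'
  have hre : ∀ t, Real.exp (L t).re = M := by
    intro t
    rw [← Complex.norm_exp, he, hM, hMd]
  have hpol : ∀ t, conj (u t) = M * cexp (-(I * (L t).im)) := by
    intro t
    have : u t = M * cexp (I * (L t).im) := by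
      rw [← he t, ← hre t, Complex.ofReal_exp, ← Complex.exp_add]
      congr 1
      rw [mul_comm I]
      exact (Complex.re_add_im _).symm
    rw [this, map_mul, Complex.conj_ofReal, ← Complex.exp_conj]
    congr 2
    simp
  obtain ⟨V₁, hV₁⟩ : ∃ V, V = v t₁ * (I * cexp (-(I * (L t₁).im / 2))) := ⟨_, rfl⟩
  have hV₁0 : V₁ ≠ 0 := by
    rw [hV₁]
    exact mul_ne_zero hv₁ (mul_ne_zero Complex.I_ne_zero (Complex.exp_ne_zero _))
  obtain ⟨K, hK⟩ : ∃ K, K = conj V₁ ^ 2 / M := ⟨_, rfl⟩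
  have hK0 : K ≠ 0 := by
    rw [hK]
    exact div_ne_zero (pow_ne_zero _ ((map_ne_zero _).2 hV₁0)) hMC
  set Ψ : ℝ → ℂ := fun t => -(v t ^ 2 * conj (u t)) * K with hΨ
  have hval : ∀ t ∈ Ioo 0 Real.pi, ∃ r : ℝ, Ψ t = ((r ^ 2 : ℝ) : ℂ) := by
    intro t ht
    have hr := h.real_ratio hL he hev hper hM ht ht₁
    rw [← hV₁] at hr
    refine ⟨(v t * (I * cexp (-(I * (L t).im / 2))) * conj V₁).re, ?_⟩
    have e : ((((v t * (I * cexp (-(I * (L t).im / 2))) * conj V₁).re : ℝ)) : ℂ) =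
        v t * (I * cexp (-(I * (L t).im / 2))) * conj V₁ :=
      Complex.ext (by simp) (by rw [Complex.ofReal_im, hr])
    rw [Complex.ofReal_pow, e]
    simp only [hΨ]
    rw [hpol, hK, mul_pow, mul_pow, mul_pow, Complex.I_sq, ← Complex.exp_nat_mul]
    have : ((2 : ℕ) : ℂ) * -(I * ((L t).im : ℂ) / 2) = -(I * (L t).im) := by push_cast; ring
    rw [this]
    field_simp
  have hΨ0 : Ψ 0 = 0 := by simp [hΨ, h.v0 h1]
  have hΨpi : Ψ Real.pi = 0 := by simp [hΨ, h.vpi h1]
  have hΨ1 : 0 < (Ψ t₁).re := by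
    obtain ⟨r, hr⟩ := hval t₁ ht₁
    have hne : Ψ t₁ ≠ 0 := by
      simp only [hΨ]
      refine mul_ne_zero (neg_ne_zero.2 (mul_ne_zero (pow_ne_zero _ hv₁) ?_)) hK0
      rw [map_ne_zero, ← norm_ne_zero_iff, hM, norm_ne_zero_iff]
      exact h.u0 h1
    rw [hr] at hne ⊢
    rw [Complex.ofReal_re]
    have : r ^ 2 ≠ 0 := by exact_mod_cast hne
    positivity
  have hΨc : Continuous Ψ := by
    have := h.cu
    have := h.cv
    rw [hΨ]
    fun_prop
  obtain ⟨t₀, ht₀, hmax⟩ := (isCompact_Icc (a := (0 : ℝ)) (b := Real.pi)).exists_isMaxOn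
    ⟨0, le_rfl, Real.pi_pos.le⟩ (Complex.continuous_re.comp hΨc).continuousOn
  have hm1 : (Ψ t₁).re ≤ (Ψ t₀).re := hmax ⟨ht₁.1.le, ht₁.2.le⟩
  have hne0 : Ψ t₀ ≠ 0 := by
    intro h0
    rw [h0, Complex.zero_re] at hm1
    linarith
  have hv0 : v t₀ ≠ 0 := by
    intro h0
    apply hne0
    simp [hΨ, h0]
  have hioo : t₀ ∈ Ioo 0 Real.pi := by
    refine ⟨lt_of_le_of_ne ht₀.1 ?_, lt_of_le_of_ne ht₀.2 ?_⟩
    · rintro rfl; exact hne0 hΨ0
    · rintro rfl; exact hne0 hΨpi
  -- derivatives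
  have du : HasDerivAt u (deriv u t₀) t₀ := (h.au t₀ (mem_univ _)).differentiableAt.hasDerivAt
  have dv : HasDerivAt v (deriv v t₀) t₀ := (h.av t₀ (mem_univ _)).differentiableAt.hasDerivAt
  have dΨ : HasDerivAt Ψ (-(2 * v t₀ * deriv v t₀ * conj (u t₀) +
      v t₀ ^ 2 * conj (deriv u t₀)) * K) t₀ := by
    have := (((dv.pow 2).mul (hd_conj du)).neg).mul_const K
    refine this.congr_deriv ?_
    simp only [Pi.pow_apply]
    push_cast
    ring
  have hlm : IsLocalMax (fun t => (Ψ t).re) t₀ := by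
    filter_upwards [isOpen_Ioo.mem_nhds hioo] with t ht
    exact hmax ⟨ht.1.le, ht.2.le⟩
  have r0 := hlm.hasDerivAt_eq_zero (hd_re dΨ)
  have i0 : (-(2 * v t₀ * deriv v t₀ * conj (u t₀) + v t₀ ^ 2 * conj (deriv u t₀)) * K).im = 0 := by
    have hz : (fun t => (Ψ t).im) =ᶠ[𝓝 t₀] fun _ => 0 := by
      filter_upwards [isOpen_Ioo.mem_nhds hioo] with t ht
      obtain ⟨r, hr⟩ := hval t ht
      rw [hr, Complex.ofReal_im]
    have := (hd_im dΨ).congr_of_eventuallyEq hz.symm
    exact this.unique (hasDerivAt_const t₀ 0)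
  have d0 : -(2 * v t₀ * deriv v t₀ * conj (u t₀) + v t₀ ^ 2 * conj (deriv u t₀)) * K = 0 :=
    Complex.ext (by rw [r0, Complex.zero_re]) (by rw [i0, Complex.zero_im])
  have d1 : 2 * deriv v t₀ * conj (u t₀) + v t₀ * conj (deriv u t₀) = 0 := by
    have := (mul_eq_zero.1 d0).resolve_right hK0
    have h3 : v t₀ * (2 * deriv v t₀ * conj (u t₀) + v t₀ * conj (deriv u t₀)) = 0 := by
      linear_combination -this
    exact (mul_eq_zero.1 h3).resolve_left hv0
  -- the norm is constant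
  have hsq : ∀ t, conj (u t) * u t = (M : ℂ) ^ 2 := by
    intro t
    rw [Complex.conj_mul', hM, hMd]
  have d2 : conj (deriv u t₀) * u t₀ + conj (u t₀) * deriv u t₀ = 0 := by
    have := (hd_conj du).mul du
    have e : (fun t => conj (u t)) * u = fun _ => (M : ℂ) ^ 2 := by
      funext t; exact hsq t
    rw [e] at this
    exact this.unique (hasDerivAt_const t₀ _)
  obtain ⟨ρ, hρ⟩ : ∃ ρ : ℝ, deriv u t₀ * conj (u t₀) = I * ρ := by
    refine ⟨(deriv u t₀ * conj (u t₀)).im, ?_⟩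
    have h3 : (deriv u t₀ * conj (u t₀)).re = 0 := by
      have h4 : deriv u t₀ * conj (u t₀) + conj (deriv u t₀ * conj (u t₀)) = 0 := by
        rw [map_mul, Complex.conj_conj]; linear_combination d2
      rw [Complex.add_conj] at h4
      have h5 : (2 : ℝ) * (deriv u t₀ * conj (u t₀)).re = 0 := by exact_mod_cast h4
      linarith
    apply Complex.ext
    · rw [h3]; simp
    · simp
  have du' : deriv u t₀ * (M : ℂ) ^ 2 = I * ρ * u t₀ := by
    rw [← hsq t₀]; linear_combination (u t₀) * hρ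
  have hρc : conj (deriv u t₀) * u t₀ = -(I * ρ) := by
    have := congrArg conj hρ
    simpa using this
  have dv' : 2 * deriv v t₀ * (M : ℂ) ^ 2 = I * ρ * v t₀ := by
    rw [← hsq t₀]
    linear_combination (u t₀) * d1 - (v t₀) * hρc
  have := h.imm t₀ (-(ρ / (2 * M ^ 2))) 1 (by
    push_cast
    field_simp
    linear_combination du') (by
    push_cast
    field_simp
    linear_combination dv')
  exact one_ne_zero this.2

theorem Data.core_aux (h : Data u v a b) (ha : Even a) (hb : Odd b) (ha0 : 0 < a) (hb0 : 0 < b) :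
    False := by
  have hb1 := h.b_one ha hb hb0
  subst hb1
  rcases h.a_two ha odd_one ha0 with h2 | hM
  · subst h2
    exact h.caseC h.winding
  · have h2 := h.a_two' ha ha0 hM
    subst h2
    exact h.caseC hM

theorem Data.core_aux2 (h : Data u v a b) (ha : Even a) (hb : Odd b) : False := by
  have key : ∀ {u v : ℝ → ℂ} {a b : ℤ}, Data u v a b → Even a → Odd b → 0 < b → False := by
    intro u v a b h ha hb hb0
    rcases lt_trichotomy a 0 with h0 | h0 | h0
    · exact h.conj1.core_aux ha.neg hb (by omega) hb0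
    · exact h.ane hb h0
    · exact h.core_aux ha hb h0 hb0
  rcases lt_trichotomy b 0 with h0 | h0 | h0
  · exact key (h.swap.conj1.swap) ha hb.neg (by omega)
  · subst h0; exact absurd hb (by decide)
  · exact key h ha hb h0

/-- there is no tight circle symmetric profile -/
theorem Data.core (h : Data u v a b) : False := by
  rcases parity h with ⟨ha, hb⟩ | ⟨ha, hb⟩
  · exact h.core_aux2 ha hb
  · exact h.swap.core_aux2 hb ha

end

end

end Pool.Agent.TK
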