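import Pool.Agent.TK.Basic

set_option autoImplicit false
set_option linter.unusedVariables false

/-!
# Project TK (MP_3ae405_al, `k = 5`): definitions
-/

namespace TK

/-- Geometric action on a hyperbolic graph: the group permutes the vertices, with finite vertex
stabilizers, cocompactly; the graph is locally finite and hyperbolic. -/
structure GeoAct (Γ : Type) [Group Γ] (V : Type) [MulAction Γ V] (d : V → V → ℕ) (x0 : V) :
    Prop where
  geo : Geo d
  thin : ∃ δ, Thin d δ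
  inv : ∀ (g : Γ) (x y : V), d (g • x) (g • y) = d x y
  ball : ∀ (x : V) (n : ℕ), {y | d x y ≤ n}.Finite
  stab : ∀ x : V, {g : Γ | g • x = x}.Finite
  coc : ∃ D, ∀ y : V, ∃ g : Γ, d y (g • x0) ≤ D

/-- The invariant of the construction. -/
structure Good (Γ : Type) [Group Γ] (H : Subgroup Γ) (a b : Γ) : Prop where
  act : ∃ (V : Type) (_ : MulAction Γ V) (d : V → V → ℕ) (x0 : V), GeoAct Γ V d x0 ∧
    (∀ t : Γ, IsOfFinOrder t → ∃ v : V, t • v = v) ∧
    ∃ κ, ∀ h ∈ H, ∀ p, Btw d x0 p (h • x0) → ∃ h' ∈ H, d p (h' • x0) ≤ κ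
  odd : ∀ t : Γ, IsOfFinOrder t → Odd (orderOf t)
  cent : ∀ t : Γ, t ≠ 1 → IsOfFinOrder t → {g : Γ | g * t = t * g}.Finite
  a5 : a ^ 5 = 1
  b3 : b ^ 3 = 1
  afree : ∀ g : Γ, g⁻¹ * a * g ∉ H
  bfree : ∀ g : Γ, g⁻¹ * b * g ∉ H
  vfree : ∀ (w g : Γ) (l : ℕ), 1 ≤ l → g⁻¹ * (vw a (w * b * w⁻¹)) ^ l * g ∈ H →
    IsOfFinOrder (vw a (w * b * w⁻¹))

/-- quasi-line -/
def QL {V : Type} (d : V → V → ℕ) (c : ℕ) (y : ℤ → V) : Prop :=
  ∀ i j k : ℤ, i ≤ j → j ≤ k → d (y i) (y j) + d (y j) (y k) ≤ d (y i) (y k) + c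

/-- translated orbit of a subgroup -/
def orb {Γ V : Type} [Group Γ] [MulAction Γ V] (P : Subgroup Γ) (g : Γ) (x : V) : Set V :=
  {y | ∃ p ∈ P, y = (g * p) • x}

/-! ## Families of quasiconvex sets and the cone-off -/

/-- family of quasiconvex sets with bounded mutual projections -/
structure Fam {V : Type} (d : V → V → ℕ) {J : Type} (Y : J → Set V) (δ κ B : ℕ) : Prop where
  geo : Geo d
  thin : Thin d δ
  ne : ∀ j, (Y j).Nonempty
  qc : ∀ j, QC d κ (Y j)
  bo : ∀ i j, i ≠ j → ∀ z ∈ Y i, ∀ z' ∈ Y i, ∀ y y', Near d (Y j) z y → Near d (Y j) z' y' →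
    d y y' ≤ B

/-- `D` is the metric of the cone-off of `(V, d)` along the sets `Y j`: vertices `V ⊕ J`, the
edges are the edges of `V` and the pairs `x — apex j`, `x ∈ Y j`. -/
structure IsCone {V J : Type} (d : V → V → ℕ) (Y : J → Set V) (D : V ⊕ J → V ⊕ J → ℕ) : Prop where
  geo : Geo D
  vv : ∀ x y : V, D (Sum.inl x) (Sum.inl y) = 1 ↔ d x y = 1
  vj : ∀ (x : V) (j : J), D (Sum.inl x) (Sum.inr j) = 1 ↔ x ∈ Y j
  jj : ∀ i j : J, D (Sum.inr i) (Sum.inr j) ≠ 1

/-- `y` is a projection to `Y j` of the vertex `u` of the cone-off -/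
def Pr {V J : Type} (d : V → V → ℕ) (Y : J → Set V) (j : J) (u : V ⊕ J) (y : V) : Prop :=
  Sum.elim (fun x => Near d (Y j) x y) (fun i => ∃ x ∈ Y i, Near d (Y j) x y) u

/-- projection distance -/
noncomputable def PD {V J : Type} (d : V → V → ℕ) (Y : J → Set V) (j : J) (u w : V ⊕ J) : ℕ :=
  sSup {n | ∃ y y', Pr d Y j u y ∧ Pr d Y j w y' ∧ d y y' = n}

/-! ## Spinning families (windmill) -/

/-- The abstract rotation structure: `P` a geodesic graph with apices `v j`, projection distances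
`D j`, rotation groups `R j`. -/
structure Spin {P J G : Type} [Group G] [MulAction G P] [MulAction G J] (d : P → P → ℕ) (v : J → P)
    (D : J → P → P → ℕ) (R : J → Subgroup G) (K L : ℕ) : Prop where
  geo : Geo d
  inj : Function.Injective v
  symm : ∀ j u w, D j u w = D j w u
  tri : ∀ j u z w, u ≠ v j → z ≠ v j → w ≠ v j → D j u w ≤ D j u z + D j z w
  bgi : ∀ j u w, u ≠ v j → w ≠ v j → K ≤ D j u w → Btw d u (v j) w
  inv : ∀ (g : G) x y, d (g • x) (g • y) = d x y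
  vinv : ∀ (g : G) j, g • v j = v (g • j)
  Dinv : ∀ (g : G) j u w, D (g • j) (g • u) (g • w) = D j u w
  Rinv : ∀ (g : G) j r, r ∈ R j → g * r * g⁻¹ ∈ R (g • j)
  Rfix : ∀ j r, r ∈ R j → r • j = j
  big : ∀ j r u, r ∈ R j → r ≠ 1 → u ≠ v j → L ≤ D j u (r • u)

/-- Reduction of a product of rotations, seen from `x`. -/
inductive Red {P J G : Type} [Group G] [MulAction G P] (v : J → P)
    (D : J → P → P → ℕ) (R : J → Subgroup G) (M : ℕ) (x : P) : G → Prop
  | one : Red v D R M x 1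
  | base (j : J) (r : G) : x = v j → r ∈ R j → Red v D R M x r
  | step (j : J) (ρ r : G) : x ≠ v j → r • x ≠ v j → ρ ∈ R j → M ≤ D j x (r • x) →
      Red v D R M x (ρ * r) → Red v D R M x r

/-- `w` is a nearest point to `u` in its `N`-orbit -/
def Tight {P G : Type} [Group G] [MulAction G P] (d : P → P → ℕ) (N : Subgroup G) (u w : P) :
    Prop := ∀ r ∈ N, d u w ≤ d u (r • w)

/-- `(P', d', q)` is the quotient of `(P, d)` by the normal subgroup `N` of `G`. -/
structure IsQuot {P G P' : Type} [Group G] [MulAction G P] (d : P → P → ℕ) (N : Subgroup G)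
    [N.Normal] [MulAction (G ⧸ N) P'] (d' : P' → P' → ℕ) (q : P → P') : Prop where
  geo : Geo d'
  surj : Function.Surjective q
  equi : ∀ (g : G) (x : P), q (g • x) = (QuotientGroup.mk g : G ⧸ N) • q x
  fib : ∀ x y : P, q x = q y → ∃ r ∈ N, y = r • x
  le : ∀ (x y : P), d' (q x) (q y) ≤ d x y
  att : ∀ x y : P, ∃ r ∈ N, d' (q x) (q y) = d x (r • y)
  inv : ∀ (g : G ⧸ N) (x y : P'), d' (g • x) (g • y) = d' x y

end TK
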