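import Pool.Agent.TK.Targets3

set_option autoImplicit false

/-!
# TK-FEX: existence of the free product with an infinite cyclic group, with normal forms

Van der Waerden's trick.
-/

namespace TK

open Subgroup

namespace FEX_

variable {Γ : Type} [Group Γ]

open Classical in
/-- left multiplication of a reduced word by `x` or its inverse -/
noncomputable def cx (ε : Bool) (w : Wd Γ) : Wd Γ :=
  match w.2 with
  | [] => (1, [(ε, w.1)])
  | q :: l => if w.1 = 1 ∧ q.1 = !ε then (q.2, l) else (1, (ε, w.1) :: q :: l)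

theorem cx_nil (ε : Bool) (g : Γ) : cx ε (g, []) = (1, [(ε, g)]) := rfl

theorem cx_pos (ε : Bool) (h : Γ) (l : List (Bool × Γ)) :
    cx ε ((1 : Γ), (!ε, h) :: l) = (h, l) := by
  simp [cx]

theorem cx_neg (ε : Bool) (g : Γ) (q : Bool × Γ) (l : List (Bool × Γ))
    (h : ¬ (g = 1 ∧ q.1 = !ε)) : cx ε (g, q :: l) = (1, (ε, g) :: q :: l) := by
  simp [cx, h]

/-- the two cases -/
theorem cx_cases (ε : Bool) (w : Wd Γ) :
    (∃ h l, w = (1, (!ε, h) :: l) ∧ cx ε w = (h, l)) ∨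
    ((∀ h l, w ≠ (1, (!ε, h) :: l)) ∧ cx ε w = (1, (ε, w.1) :: w.2)) := by
  obtain ⟨g, l⟩ := w
  cases l with
  | nil => exact Or.inr ⟨fun h l hh => by simp at hh, rfl⟩
  | cons q l =>
    by_cases h : g = 1 ∧ q.1 = !ε
    · left
      obtain ⟨rfl, hq⟩ := h
      refine ⟨q.2, l, ?_, ?_⟩
      · rw [← hq]
      · have : q = (!ε, q.2) := by rw [← hq]
        rw [this]
        exact cx_pos ε q.2 l
    · right
      refine ⟨fun h' l' hh => h ?_, cx_neg ε g q l h⟩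
      simp only [Prod.mk.injEq, List.cons.injEq] at hh
      exact ⟨hh.1, by rw [hh.2.1]⟩

theorem rdc_nil : Rdc ([] : List (Bool × Γ)) := by simp [Rdc]

theorem rdc_tail {q : Bool × Γ} {l : List (Bool × Γ)} (h : Rdc (q :: l)) : Rdc l := by
  unfold Rdc at h ⊢
  exact h.tail

theorem rdc_cx (ε : Bool) (w : Wd Γ) (hw : Rdc w.2) : Rdc (cx ε w).2 := by
  rcases cx_cases ε w with ⟨h, l, h1, h2⟩ | ⟨h1, h2⟩
  · rw [h2]
    rw [h1] at hw
    exact rdc_tail hw
  · rw [h2]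
    obtain ⟨g, l⟩ := w
    cases l with
    | nil => simp [Rdc]
    | cons q l =>
      show Rdc ((ε, g) :: q :: l)
      unfold Rdc at hw ⊢
      refine List.IsChain.cons_cons ?_ hw
      intro hg
      show ε = q.1
      have hg' : g = 1 := hg
      by_contra hne
      apply h1 q.2 l
      have : q.1 = !ε := by
        cases hq : q.1 <;> cases hε : ε <;> simp_all
      rw [hg', ← this]

theorem cx_cx (ε : Bool) (w : Wd Γ) (hw : Rdc w.2) : cx (!ε) (cx ε w) = w := by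
  rcases cx_cases ε w with ⟨h, l, h1, h2⟩ | ⟨h1, h2⟩
  · rw [h2, h1]
    rw [h1] at hw
    rcases cx_cases (!ε) (h, l) with ⟨h', l', h3, h4⟩ | ⟨h3, h4⟩
    · exfalso
      simp only [Bool.not_not, Prod.mk.injEq] at h3
      obtain ⟨rfl, rfl⟩ := h3
      unfold Rdc at hw
      have := (List.isChain_cons_cons.1 hw).1 rfl
      simp at this
    · rw [h4]
  · rw [h2]
    have := cx_pos (!ε) w.1 w.2
    rw [Bool.not_not] at this
    rw [this]

/-- reduced words -/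
abbrev RW (Γ : Type) [Group Γ] : Type := {w : Wd Γ // Rdc w.2}

/-- the permutation given by an element of `Γ` -/
def pg (g : Γ) : Equiv.Perm (RW Γ) where
  toFun w := ⟨(g * w.1.1, w.1.2), w.2⟩
  invFun w := ⟨(g⁻¹ * w.1.1, w.1.2), w.2⟩
  left_inv w := by simp
  right_inv w := by simp

/-- the permutation given by `x` -/
noncomputable def px : Equiv.Perm (RW Γ) where
  toFun w := ⟨cx true w.1, rdc_cx true w.1 w.2⟩
  invFun w := ⟨cx false w.1, rdc_cx false w.1 w.2⟩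
  left_inv w := Subtype.ext (cx_cx true w.1 w.2)
  right_inv w := Subtype.ext (cx_cx false w.1 w.2)

variable (Γ) in
/-- the homomorphism -/
def ph : Γ →* Equiv.Perm (RW Γ) where
  toFun := pg
  map_one' := by
    ext w <;> simp [pg]
  map_mul' g h := by
    ext w <;> simp [pg, mul_assoc]

variable (Γ) in
/-- the group -/
def G : Subgroup (Equiv.Perm (RW Γ)) := closure (Set.range (ph Γ) ∪ {px})

theorem ph_mem (g : Γ) : ph Γ g ∈ G Γ := subset_closure (Or.inl ⟨g, rfl⟩)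

theorem px_mem : (px : Equiv.Perm (RW Γ)) ∈ G Γ := subset_closure (Or.inr rfl)

variable (Γ) in
/-- the embedding -/
def phi : Γ →* G Γ := (ph Γ).codRestrict (G Γ) ph_mem

variable (Γ) in
/-- the letter -/
noncomputable def xx : G Γ := ⟨px, px_mem⟩

variable (Γ) in
/-- the empty word -/
def base : RW Γ := ⟨(1, []), rdc_nil⟩

variable (Γ) in
/-- the reduced word of an element -/
def rww (z : G Γ) : Wd Γ := ((z : Equiv.Perm (RW Γ)) (base Γ)).1

theorem phi_apply (g : Γ) (w : RW Γ) :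
    ((phi Γ g : G Γ) : Equiv.Perm (RW Γ)) w = ⟨(g * w.1.1, w.1.2), w.2⟩ := rfl

theorem sg_apply (ε : Bool) (w : RW Γ) :
    ((sg (xx Γ) ε : G Γ) : Equiv.Perm (RW Γ)) w = ⟨cx ε w.1, rdc_cx ε w.1 w.2⟩ := by
  cases ε
  · rfl
  · rfl

theorem sg_mul_not {Γ' : Type} [Group Γ'] (x : Γ') (ε : Bool) : sg x ε * sg x (!ε) = 1 := by
  cases ε <;> simp [sg]

theorem wprod_cx {Γ' : Type} [Group Γ'] (φ : Γ →* Γ') (x : Γ') (ε : Bool) (w : Wd Γ) :
    wprod φ x (cx ε w) = sg x ε * wprod φ x w := by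
  rcases cx_cases ε w with ⟨h, l, h1, h2⟩ | ⟨h1, h2⟩
  · rw [h2, h1]
    simp only [wprod, lprod, map_one, one_mul]
    rw [← mul_assoc, ← mul_assoc, sg_mul_not, one_mul]
  · rw [h2]
    simp only [wprod, lprod, map_one, one_mul]
    rw [mul_assoc]

theorem lprod_base (l : List (Bool × Γ)) (hl : Rdc l) :
    ((lprod (phi Γ) (xx Γ) l : G Γ) : Equiv.Perm (RW Γ)) (base Γ) = ⟨(1, l), hl⟩ := by
  induction l with
  | nil => rfl
  | cons p l ih =>
    have ih' := ih (rdc_tail hl)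
    simp only [lprod, Subgroup.coe_mul, Equiv.Perm.mul_apply]
    rw [ih', phi_apply, sg_apply]
    apply Subtype.ext
    show cx p.1 (p.2 * 1, l) = (1, p :: l)
    rw [mul_one]
    rcases cx_cases p.1 (p.2, l) with ⟨h, l', h1, h2⟩ | ⟨h1, h2⟩
    · exfalso
      simp only [Prod.mk.injEq] at h1
      obtain ⟨h3, rfl⟩ := h1
      unfold Rdc at hl
      have := (List.isChain_cons_cons.1 hl).1 h3
      simp at this
    · rw [h2]

theorem prod_rww (z : G Γ) : wprod (phi Γ) (xx Γ) (rww Γ z) = z := by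
  obtain ⟨z, hz⟩ := z
  induction hz using closure_induction_left with
  | one =>
    simp only [rww, base, wprod, lprod, Equiv.Perm.coe_one, id_eq, map_one, mul_one]
    rfl
  | mul_left y hy z hz ih =>
    rcases hy with ⟨g, rfl⟩ | hy
    · have h1 : rww Γ ⟨ph Γ g * z, mul_mem (ph_mem g) hz⟩ =
          (g * (rww Γ ⟨z, hz⟩).1, (rww Γ ⟨z, hz⟩).2) := rfl
      rw [show (⟨ph Γ g * z, _⟩ : G Γ) = ⟨ph Γ g * z, mul_mem (ph_mem g) hz⟩ from rfl, h1]
      have h2 : wprod (phi Γ) (xx Γ) (g * (rww Γ ⟨z, hz⟩).1, (rww Γ ⟨z, hz⟩).2) =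
          phi Γ g * wprod (phi Γ) (xx Γ) (rww Γ ⟨z, hz⟩) := by
        simp only [wprod, map_mul, mul_assoc]
      rw [h2, ih]
      rfl
    · rw [Set.mem_singleton_iff] at hy
      subst hy
      have h1 : rww Γ ⟨px * z, mul_mem px_mem hz⟩ = cx true (rww Γ ⟨z, hz⟩) := rfl
      rw [show (⟨px * z, _⟩ : G Γ) = ⟨px * z, mul_mem px_mem hz⟩ from rfl, h1, wprod_cx, ih]
      rfl
  | inv_mul_cancel y hy z hz ih =>
    rcases hy with ⟨g, rfl⟩ | hy
    · have h1 : rww Γ ⟨(ph Γ g)⁻¹ * z, mul_mem (inv_mem (ph_mem g)) hz⟩ =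
          (g⁻¹ * (rww Γ ⟨z, hz⟩).1, (rww Γ ⟨z, hz⟩).2) := rfl
      rw [show (⟨(ph Γ g)⁻¹ * z, _⟩ : G Γ) =
        ⟨(ph Γ g)⁻¹ * z, mul_mem (inv_mem (ph_mem g)) hz⟩ from rfl, h1]
      have h2 : wprod (phi Γ) (xx Γ) (g⁻¹ * (rww Γ ⟨z, hz⟩).1, (rww Γ ⟨z, hz⟩).2) =
          (phi Γ g)⁻¹ * wprod (phi Γ) (xx Γ) (rww Γ ⟨z, hz⟩) := by
        simp only [wprod, map_mul, map_inv, mul_assoc]
      rw [h2, ih]
      rfl
    · rw [Set.mem_singleton_iff] at hy
      subst hy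
      have h1 : rww Γ ⟨px⁻¹ * z, mul_mem (inv_mem px_mem) hz⟩ = cx false (rww Γ ⟨z, hz⟩) := rfl
      rw [show (⟨px⁻¹ * z, _⟩ : G Γ) = ⟨px⁻¹ * z, mul_mem (inv_mem px_mem) hz⟩ from rfl, h1,
        wprod_cx, ih]
      rfl

end FEX_

open FEX_ in
theorem p_FEX : T_FEX := by
  intro Γ _
  refine ⟨G Γ, inferInstance, phi Γ, xx Γ, rww Γ, ⟨fun z => ((z : Equiv.Perm (RW Γ)) (base Γ)).2,
    prod_rww, fun w hw => ?_⟩⟩
  have h1 : rww Γ (wprod (phi Γ) (xx Γ) w) =
      (w.1 * (((lprod (phi Γ) (xx Γ) w.2 : G Γ) : Equiv.Perm (RW Γ)) (base Γ)).1.1,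
        (((lprod (phi Γ) (xx Γ) w.2 : G Γ) : Equiv.Perm (RW Γ)) (base Γ)).1.2) := rfl
  rw [h1, lprod_base w.2 hw, mul_one]

end TK
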