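import Pool.Agent.TK.Targets1

set_option autoImplicit false
set_option linter.unusedVariables false

/-!
# Project TK (MP_3ae405_al, `k = 5`): TK-LIFT, closed polygons of the quotient lift
-/

namespace TK

open Subgroup

namespace LIFT_

section

variable {P J G : Type} [Group G] [MulAction G P] [MulAction G J] {d : P → P → ℕ}
  {v : J → P} {D : J → P → P → ℕ} {R : J → Subgroup G} {K L : ℕ}

/-- an apex is fixed by its rotation group -/
theorem fix_apex (hS : Spin d v D R K L) {j : J} {ρ : G} (hρ : ρ ∈ R j) : ρ • v j = v j := by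
  rw [hS.vinv, hS.Rfix j ρ hρ]

/-- the diagonal projection distance is small -/
theorem self_lt (hS : Spin d v D R K L) {j : J} {x : P} (hx : x ≠ v j) : D j x x < K := by
  by_contra h
  push Not at h
  have h1 := hS.bgi j x x hx hx h
  unfold Btw at h1
  rw [hS.geo.self x] at h1
  exact hx (hS.geo.eq x (v j) (by omega))

/-- the place where the polygon is cut -/
theorem exists_cut (hS : Spin d v D R K L) (hL : 100 * K ≤ L) (hK : 1 ≤ K)
    {k B0 : ℕ} {T : ℕ → Prop} {u : ℕ → P} {j : J} (hk : k * max K B0 < L - 12 * K)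
    (hB : ∀ i, i < k → ¬ T i → u i ≠ v j → u (i+1) ≠ v j → D j (u i) (u (i+1)) ≤ B0)
    (h0 : u 0 ≠ v j) (hend : u k ≠ v j) (hbig : L - 12 * K ≤ D j (u 0) (u k)) :
    ∃ i, i < k ∧ ((0 < i ∧ u i = v j) ∨
      (T i ∧ u i ≠ v j ∧ u (i+1) ≠ v j ∧ K ≤ D j (u i) (u (i+1)))) := by
  classical
  by_contra hcon
  push Not at hcon
  have hne : ∀ i, i ≤ k → u i ≠ v j := by
    intro i hi
    rcases Nat.eq_zero_or_pos i with h | h
    · subst h; exact h0
    · rcases Nat.lt_or_ge i k with h' | h'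
      · exact (hcon i h').1 h
      · have : i = k := by omega
        subst this; exact hend
  have hstep : ∀ i, i < k → D j (u i) (u (i+1)) ≤ max K B0 := by
    intro i hi
    by_cases hT : T i
    · have := (hcon i hi).2 hT (hne i (by omega)) (hne (i+1) (by omega))
      exact le_trans (le_of_lt this) (le_max_left _ _)
    · exact le_trans (hB i hi hT (hne i (by omega)) (hne (i+1) (by omega))) (le_max_right _ _)
  have hsum : ∀ m, 1 ≤ m → m ≤ k → D j (u 0) (u m) ≤ m * max K B0 := by
    intro m hm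
    induction m, hm using Nat.le_induction with
    | base =>
      intro h
      have := hstep 0 (by omega)
      simpa using this
    | succ m hm ih =>
      intro h
      have h1 := ih (by omega)
      have h2 := hstep m (by omega)
      have h3 := hS.tri j (u 0) (u m) (u (m+1)) h0 (hne m (by omega)) (hne (m+1) h)
      have h4 : (m + 1) * max K B0 = m * max K B0 + max K B0 := by ring
      omega
  rcases Nat.eq_zero_or_pos k with h | h
  · subst h
    have := self_lt hS h0
    omega
  · have := hsum k h le_rfl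
    omega

/-- the induction on the reduction -/
theorem main (hS : Spin d v D R K L) (hK : 1 ≤ K) (hL : 100 * K ≤ L) (N : Subgroup G)
    (hRN : ∀ j, R j ≤ N) (k B0 : ℕ) (T : ℕ → Prop) (hk : k * max K B0 < L - 12 * K) (x : P)
    (r : G) (hred : Red v D R (L - 12 * K) x r) : ∀ u : ℕ → P, u 0 = x →
    (∀ i, i < k → T i → Tight d N (u i) (u (i+1))) →
    (∀ i, i < k → ¬ T i → ∀ j, u i ≠ v j → u (i+1) ≠ v j → D j (u i) (u (i+1)) ≤ B0) →
    u k = r • u 0 →
    ∃ u' : ℕ → P, u' 0 = u 0 ∧ u' k = u 0 ∧ (∀ i, i ≤ k → ∃ s ∈ N, u' i = s • u i) ∧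
      (∀ i, i < k → T i → d (u' i) (u' (i+1)) = d (u i) (u (i+1))) ∧
      (∀ i, i < k → ¬ T i → ∃ s ∈ N, u' i = s • u i ∧ u' (i+1) = s • u (i+1)) := by
  classical
  induction hred with
  | one =>
    intro u h0 hT hB hend
    refine ⟨u, rfl, by simpa using hend, ?_, ?_, ?_⟩
    · intro i _
      exact ⟨1, N.one_mem, by simp⟩
    · intro i _ _; rfl
    · intro i _ _
      exact ⟨1, N.one_mem, by simp, by simp⟩
  | base j r hx hr =>
    intro u h0 hT hB hend
    refine ⟨u, rfl, ?_, ?_, ?_, ?_⟩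
    · rw [hend, h0, hx, fix_apex hS hr]
    · intro i _
      exact ⟨1, N.one_mem, by simp⟩
    · intro i _ _; rfl
    · intro i _ _
      exact ⟨1, N.one_mem, by simp, by simp⟩
  | step j ρ r hx hrx hρ hbig hred ih =>
    intro u h0 hT hB hend
    have hu0 : u 0 ≠ v j := by rw [h0]; exact hx
    have huk : u k ≠ v j := by rw [hend, h0]; exact hrx
    obtain ⟨i, hik, hi⟩ := exists_cut hS hL hK (u := u) (T := T) (B0 := B0) (k := k) (j := j) hk
      (fun i hi hTi => hB i hi hTi j) hu0 huk (by rw [hend, h0]; exact hbig)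
    have hρN : ρ ∈ N := hRN j hρ
    have hfix := fix_apex hS hρ
    -- the new polygon
    let w : ℕ → P := fun m => if m ≤ i then u m else ρ • u m
    have hw1 : ∀ m, m ≤ i → w m = u m := fun m hm => by simp only [w, hm, if_true]
    have hw2 : ∀ m, i < m → w m = ρ • u m := fun m hm => by
      have : ¬ m ≤ i := by omega
      simp only [w, this, if_false]
    have hcases : ∀ m, m < k → (w m = u m ∧ w (m+1) = u (m+1)) ∨
        (w m = ρ • u m ∧ w (m+1) = ρ • u (m+1)) ∨
        (T m ∧ w m = u m ∧ w (m+1) = ρ • u (m+1) ∧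
          d (w m) (w (m+1)) = d (u m) (u (m+1))) := by
      intro m hm
      rcases lt_trichotomy m i with h | h | h
      · left
        exact ⟨hw1 m (by omega), hw1 (m+1) (by omega)⟩
      · subst h
        rcases hi with ⟨_, hv⟩ | ⟨hTi, hn1, hn2, hKi⟩
        · right; left
          refine ⟨?_, hw2 (m+1) (by omega)⟩
          rw [hw1 m le_rfl, hv, hfix]
        · right; right
          refine ⟨hTi, hw1 m le_rfl, hw2 (m+1) (by omega), ?_⟩
          rw [hw1 m le_rfl, hw2 (m+1) (by omega)]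
          have hb := hS.bgi j (u m) (u (m+1)) hn1 hn2 hKi
          unfold Btw at hb
          have h1 := hS.geo.tri (u m) (v j) (ρ • u (m+1))
          have h2 : d (v j) (ρ • u (m+1)) = d (v j) (u (m+1)) := by
            have := hS.inv ρ (v j) (u (m+1))
            rwa [hfix] at this
          have h3 := hT m hm hTi ρ hρN
          omega
      · right; left
        exact ⟨hw2 m h, hw2 (m+1) (by omega)⟩
    have hw0 : w 0 = u 0 := hw1 0 (by omega)
    have hwk : w k = (ρ * r) • w 0 := by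
      rw [hw2 k hik, hend, hw0, mul_smul]
    have hTw : ∀ m, m < k → T m → Tight d N (w m) (w (m+1)) := by
      intro m hm hTm s hs
      rcases hcases m hm with ⟨e1, e2⟩ | ⟨e1, e2⟩ | ⟨_, e1, e2, e3⟩
      · rw [e1, e2]; exact hT m hm hTm s hs
      · rw [e1, e2, hS.inv]
        have h1 := hT m hm hTm (ρ⁻¹ * s * ρ) (N.mul_mem (N.mul_mem (N.inv_mem hρN) hs) hρN)
        have h2 := hS.inv ρ (u m) ((ρ⁻¹ * s * ρ) • u (m+1))
        have h3 : ρ • (ρ⁻¹ * s * ρ) • u (m+1) = s • ρ • u (m+1) := by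
          rw [smul_smul, smul_smul]
          congr 1
          group
        rw [h3] at h2
        omega
      · rw [e3]
        have h1 := hT m hm hTm (s * ρ) (N.mul_mem hs hρN)
        rw [e1, e2, smul_smul]
        exact h1
    have hBw : ∀ m, m < k → ¬ T m → ∀ j', w m ≠ v j' → w (m+1) ≠ v j' →
        D j' (w m) (w (m+1)) ≤ B0 := by
      intro m hm hTm j' hn1 hn2
      rcases hcases m hm with ⟨e1, e2⟩ | ⟨e1, e2⟩ | ⟨hTm', _⟩
      · rw [e1] at hn1 ⊢
        rw [e2] at hn2 ⊢
        exact hB m hm hTm j' hn1 hn2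
      · rw [e1] at hn1 ⊢
        rw [e2] at hn2 ⊢
        have h1 := hS.Dinv ρ (ρ⁻¹ • j') (u m) (u (m+1))
        rw [smul_inv_smul] at h1
        rw [h1]
        have h2 : ρ • v (ρ⁻¹ • j') = v j' := by rw [hS.vinv, smul_inv_smul]
        refine hB m hm hTm _ ?_ ?_
        · intro h; apply hn1; rw [h, h2]
        · intro h; apply hn2; rw [h, h2]
      · exact absurd hTm' hTm
    obtain ⟨u', h1, h2, h3, h4, h5⟩ := ih w (by rw [hw0, h0]) hTw hBw hwk
    refine ⟨u', by rw [h1, hw0], by rw [h2, hw0], ?_, ?_, ?_⟩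
    · intro m hm
      obtain ⟨s, hs, hs'⟩ := h3 m hm
      by_cases hmi : m ≤ i
      · exact ⟨s, hs, by rw [hs', hw1 m hmi]⟩
      · exact ⟨s * ρ, N.mul_mem hs hρN, by rw [hs', hw2 m (by omega), smul_smul]⟩
    · intro m hm hTm
      rw [h4 m hm hTm]
      rcases hcases m hm with ⟨e1, e2⟩ | ⟨e1, e2⟩ | ⟨_, e1, e2, e3⟩
      · rw [e1, e2]
      · rw [e1, e2, hS.inv]
      · exact e3
    · intro m hm hTm
      obtain ⟨s, hs, hs1, hs2⟩ := h5 m hm hTm
      rcases hcases m hm with ⟨e1, e2⟩ | ⟨e1, e2⟩ | ⟨hTm', _⟩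
      · exact ⟨s, hs, by rw [hs1, e1], by rw [hs2, e2]⟩
      · exact ⟨s * ρ, N.mul_mem hs hρN, by rw [hs1, e1, smul_smul], by rw [hs2, e2, smul_smul]⟩
      · exact absurd hTm' hTm

end

end LIFT_

theorem p_LIFT (hWIN : T_WIN) : T_LIFT := by
  intro P J G _ _ _ d v D R K L hK hL hS N hN k B0 T u hk hT hB r hr hend
  have hRN : ∀ j, R j ≤ N := fun j => by rw [hN]; exact le_iSup R j
  have hred := hWIN P J G d v D R K L hK hL hS (u 0) r (by rw [← hN]; exact hr)
  exact LIFT_.main hS hK hL N hRN k B0 T hk (u 0) r hred u rfl hT hB hend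

end TK
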