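import Pool.Agent.TK.Core6

set_option autoImplicit false

/-! Circle symmetric tight surfaces: from an isometric action to weights (MP_336b57_gt). -/

namespace Pool.Agent.TK

open Complex Set Filter Topology MeasureTheory
open scoped ComplexConjugate RealInnerProductSpace

noncomputable section

/-- Euclidean four-space -/
abbrev V4 := EuclideanSpace ℝ (Fin 4)

/-- the barycentre is fixed -/
theorem center {F : ℝ × ℝ → V4} (hF : Continuous F) (hper : ∀ s t, F (s + 2 * Real.pi, t) = F (s, t))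
    (hsym : ∀ c : ℝ, ∃ ρ : V4 ≃ᵢ V4, ∀ s t, F (s + c, t) = ρ (F (s, t))) :
    ∃ x₀ : V4, ∀ c : ℝ, ∃ R : V4 ≃ₗᵢ[ℝ] V4, ∀ s t, F (s + c, t) - x₀ = R (F (s, t) - x₀) := by
  have hpi := Real.pi_pos
  obtain ⟨x₀, hx₀⟩ : ∃ x₀ : V4, x₀ = (2 * Real.pi)⁻¹ • ∫ s in (0 : ℝ)..2 * Real.pi, F (s, 0) :=
    ⟨_, rfl⟩
  have hint : ∀ a b : ℝ, IntervalIntegrable (fun s => F (s, 0)) volume a b := fun a b =>
    (hF.comp (by fun_prop : Continuous fun s : ℝ => (s, (0 : ℝ)))).intervalIntegrable a b
  have hI : ∫ s in (0 : ℝ)..2 * Real.pi, F (s, 0) = (2 * Real.pi) • x₀ := by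
    rw [hx₀, smul_smul, mul_inv_cancel₀ (by positivity), one_smul]
  refine ⟨x₀, fun c => ?_⟩
  obtain ⟨ρ, hρ⟩ := hsym c
  set ρa := ρ.toRealAffineIsometryEquiv with hρa
  set R := ρa.linearIsometryEquiv with hR
  have hdiff : ∀ x y : V4, ρ x - ρ y = R (x - y) := by
    intro x y
    have := ρa.map_vsub x y
    rw [vsub_eq_sub, vsub_eq_sub] at this
    rw [hR, this]
    simp [hρa]
  have hfix : ρ x₀ = x₀ := by
    have h1 : ∫ s in (0 : ℝ)..2 * Real.pi, (ρ (F (s, 0)) - ρ x₀) = 0 := by
      have e : (fun s : ℝ => ρ (F (s, 0)) - ρ x₀) =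
          fun s : ℝ => R.toContinuousLinearEquiv.toContinuousLinearMap (F (s, 0) - x₀) := by
        funext s; exact hdiff _ _
      rw [e, ContinuousLinearMap.intervalIntegral_comp_comm _ ((hint _ _).sub intervalIntegrable_const),
        intervalIntegral.integral_sub (hint _ _) intervalIntegrable_const, hI,
        intervalIntegral.integral_const, sub_zero, sub_self, map_zero]
    have h2 : ∫ s in (0 : ℝ)..2 * Real.pi, ρ (F (s, 0)) = (2 * Real.pi) • x₀ := by
      have e : (fun s : ℝ => ρ (F (s, 0))) = fun s : ℝ => F (s + c, 0) := by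
        funext s; exact (hρ s 0).symm
      have hp : Function.Periodic (fun s : ℝ => F (s, 0)) (2 * Real.pi) := fun s => hper s 0
      have := hp.intervalIntegral_add_eq c 0
      rw [e, intervalIntegral.integral_comp_add_right (fun s : ℝ => F (s, 0)) c, zero_add,
        add_comm (2 * Real.pi) c, this, zero_add, hI]
    have hic : IntervalIntegrable (fun s => ρ (F (s, 0))) volume 0 (2 * Real.pi) :=
      (ρ.continuous.comp (hF.comp
        (by fun_prop : Continuous fun s : ℝ => (s, (0 : ℝ))))).intervalIntegrable _ _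
    rw [intervalIntegral.integral_sub hic intervalIntegrable_const, h2,
      intervalIntegral.integral_const, sub_zero, ← smul_sub, smul_eq_zero] at h1
    rcases h1 with h1 | h1
    · exact absurd h1 (by positivity)
    · exact (sub_eq_zero.1 h1).symm
  refine ⟨R, fun s t => ?_⟩
  rw [hρ, ← hdiff, hfix]

/-- the infinitesimal rotation -/
theorem generator {F : ℝ × ℝ → V4} {F' : ℝ × ℝ → V4}
    (hd : ∀ s t, HasDerivAt (fun r => F (r, t)) (F' (s, t)) s)
    (hspan : Submodule.span ℝ (range F) = ⊤)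
    (hsym : ∀ c : ℝ, ∃ R : V4 ≃ₗᵢ[ℝ] V4, ∀ s t, F (s + c, t) = R (F (s, t))) :
    ∃ A : V4 →ₗ[ℝ] V4, (∀ x y, ⟪A x, y⟫ = -⟪x, A y⟫) ∧ ∀ s t, F' (s, t) = A (F (s, t)) := by
  choose R hR using hsym
  have hR0 : ∀ x, R 0 x = x := by
    intro x
    have hx : x ∈ Submodule.span ℝ (range F) := by rw [hspan]; trivial
    induction hx using Submodule.span_induction with
    | mem x hx =>
      obtain ⟨⟨s, t⟩, rfl⟩ := hx
      rw [← hR, add_zero]
    | zero => exact map_zero _
    | add x y _ _ hx hy => rw [map_add, hx, hy]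
    | smul r x _ hx => rw [map_smul, hx]
  have hdF : ∀ s t, HasDerivAt (fun c => R c (F (s, t))) (F' (s, t)) 0 := by
    intro s t
    have h1 : (fun c => R c (F (s, t))) = fun c => F (s + c, t) := by
      funext c; exact (hR c s t).symm
    rw [h1]
    have h2 := hd s t
    have h3 : HasDerivAt (fun c : ℝ => s + c) 1 0 := by
      simpa using (hasDerivAt_id (0 : ℝ)).const_add s
    have h4 : HasDerivAt (fun r => F (r, t)) (F' (s, t)) (s + 0) := by rw [add_zero]; exact h2
    have := h4.scomp (0 : ℝ) h3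
    rw [one_smul] at this
    exact this
  have hex : ∀ x, DifferentiableAt ℝ (fun c => R c x) 0 := by
    intro x
    have hx : x ∈ Submodule.span ℝ (range F) := by rw [hspan]; trivial
    induction hx using Submodule.span_induction with
    | mem x hx =>
      obtain ⟨⟨s, t⟩, rfl⟩ := hx
      exact (hdF s t).differentiableAt
    | zero => simp
    | add x y _ _ hx hy =>
      simp only [map_add]
      exact hx.add hy
    | smul r x _ hx =>
      simp only [map_smul]
      exact hx.const_smul r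
  refine ⟨{ toFun := fun x => deriv (fun c => R c x) 0
            map_add' := fun x y => ?_
            map_smul' := fun r x => ?_ }, fun x y => ?_, fun s t => ?_⟩
  · simp only [map_add]
    exact ((hex x).hasDerivAt.add (hex y).hasDerivAt).deriv
  · simp only [map_smul, RingHom.id_apply]
    exact ((hex x).hasDerivAt.const_smul r).deriv
  · have h1 := (hex x).hasDerivAt.inner ℝ (hex y).hasDerivAt
    have h2 : (fun c => ⟪R c x, R c y⟫) = fun _ => ⟪x, y⟫ := by
      funext c; exact (R c).inner_map_map x y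
    rw [h2] at h1
    have h3 := h1.unique (hasDerivAt_const _ _)
    rw [hR0, hR0] at h3
    simp only [LinearMap.coe_mk, AddHom.coe_mk]
    linarith
  · exact (hdF s t).deriv.symm

/-- normal form of a skew map of four-space -/
theorem skew_form (A : V4 →ₗ[ℝ] V4) (hA : ∀ x y, ⟪A x, y⟫ = -⟪x, A y⟫) (hne : A ≠ 0) :
    ∃ (b : OrthonormalBasis (Fin 4) ℝ V4) (lam mu : ℝ), lam ≠ 0 ∧
      (∀ y, ⟪b 0, A y⟫ = -(lam * ⟪b 1, y⟫)) ∧ (∀ y, ⟪b 1, A y⟫ = lam * ⟪b 0, y⟫) ∧
      (∀ y, ⟪b 2, A y⟫ = -(mu * ⟪b 3, y⟫)) ∧ (∀ y, ⟪b 3, A y⟫ = mu * ⟪b 2, y⟫) := by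
  have hsymm : (A ∘ₗ A).IsSymmetric := by
    intro x y
    simp only [LinearMap.comp_apply]
    rw [hA, hA]; ring
  have hrank : Module.finrank ℝ V4 = 4 := by simp
  set e := hsymm.eigenvectorBasis hrank with he
  have happ : ∀ i, A (A (e i)) = hsymm.eigenvalues hrank i • e i := by
    intro i
    exact hsymm.apply_eigenvectorBasis hrank i
  have hi : ∃ i, A (e i) ≠ 0 := by
    by_contra hn
    push Not at hn
    apply hne
    refine e.toBasis.ext fun i => ?_
    simpa using hn i
  obtain ⟨i, hi⟩ := hi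
  obtain ⟨lam, hlam⟩ : ∃ lam, lam = ‖A (e i)‖ := ⟨_, rfl⟩
  have hlam0 : 0 < lam := by rw [hlam]; exact norm_pos_iff.2 hi
  have hev : hsymm.eigenvalues hrank i = -lam ^ 2 := by
    have h1 : ⟪A (A (e i)), e i⟫ = hsymm.eigenvalues hrank i := by
      rw [happ, real_inner_smul_left, real_inner_self_eq_norm_sq, e.norm_eq_one]; ring
    rw [← h1, hA, real_inner_self_eq_norm_sq, hlam]
  set f : V4 := lam⁻¹ • A (e i) with hf
  have hfn : ⟪f, f⟫ = (1 : ℝ) := by
    rw [hf, real_inner_smul_left, real_inner_smul_right, real_inner_self_eq_norm_sq, ← hlam]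
    field_simp
  have hself : ∀ x, ⟪x, A x⟫ = (0 : ℝ) := by
    intro x
    have := hA x x
    rw [real_inner_comm] at this
    linarith
  have hef : ⟪e i, f⟫ = (0 : ℝ) := by
    rw [hf, real_inner_smul_right, hself, mul_zero]
  have hee : ⟪e i, e i⟫ = (1 : ℝ) := by
    rw [real_inner_self_eq_norm_sq, e.norm_eq_one]; norm_num
  have hAe : A (e i) = lam • f := by
    rw [hf, smul_smul, mul_inv_cancel₀ hlam0.ne', one_smul]
  have hAf : A f = -(lam • e i) := by
    rw [hf, map_smul, happ, hev, smul_smul, ← neg_smul]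
    congr 1
    field_simp
  have horth : Orthonormal ℝ (({0, 1} : Set (Fin 4)).domRestrict ![e i, f, 0, 0]) := by
    rw [orthonormal_iff_ite]
    rintro ⟨x, hx⟩ ⟨y, hy⟩
    simp only [mem_insert_iff, mem_singleton_iff] at hx hy
    rcases hx with rfl | rfl <;> rcases hy with rfl | rfl
    · rw [if_pos rfl]; exact hee
    · rw [if_neg (by simp)]; exact hef
    · rw [if_neg (by simp), real_inner_comm]; exact hef
    · rw [if_pos rfl]; exact hfn
  obtain ⟨b, hb⟩ := horth.exists_orthonormalBasis_extension_of_card_eq (by simp)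
  have hb0 : b 0 = e i := by simpa using hb 0 (by simp)
  have hb1 : b 1 = f := by simpa using hb 1 (by simp)
  have hA0 : A (b 0) = lam • b 1 := by rw [hb0, hb1, hAe]
  have hA1 : A (b 1) = -(lam • b 0) := by rw [hb0, hb1, hAf]
  have hbi : ∀ i j, ⟪b i, b j⟫ = if i = j then (1 : ℝ) else 0 :=
    orthonormal_iff_ite.1 b.orthonormal
  obtain ⟨mu, hmu⟩ : ∃ mu, mu = ⟪b 3, A (b 2)⟫ := ⟨_, rfl⟩
  have h32 : ⟪b 3, A (b 2)⟫ = mu := hmu.symm
  have h23 : ⟪b 2, A (b 3)⟫ = -mu := by
    have := hA (b 2) (b 3)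
    rw [real_inner_comm] at this
    linarith
  have h02 : ⟪b 0, A (b 2)⟫ = (0 : ℝ) := by
    have := hA (b 0) (b 2)
    rw [hA0, real_inner_smul_left, hbi] at this
    simp at this
    linarith
  have h03 : ⟪b 0, A (b 3)⟫ = (0 : ℝ) := by
    have := hA (b 0) (b 3)
    rw [hA0, real_inner_smul_left, hbi] at this
    simp at this
    linarith
  have h12 : ⟪b 1, A (b 2)⟫ = (0 : ℝ) := by
    have := hA (b 1) (b 2)
    rw [hA1, inner_neg_left, real_inner_smul_left, hbi] at this
    simp at this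
    linarith
  have h13 : ⟪b 1, A (b 3)⟫ = (0 : ℝ) := by
    have := hA (b 1) (b 3)
    rw [hA1, inner_neg_left, real_inner_smul_left, hbi] at this
    simp at this
    linarith
  have hA2 : A (b 2) = mu • b 3 := by
    rw [← b.sum_repr' (A (b 2))]
    simp [Fin.sum_univ_four, h02, h12, h32, hself]
  have hA3 : A (b 3) = -(mu • b 2) := by
    rw [← b.sum_repr' (A (b 3))]
    simp [Fin.sum_univ_four, h03, h13, h23, hself]
  refine ⟨b, lam, mu, hlam0.ne', fun y => ?_, fun y => ?_, fun y => ?_, fun y => ?_⟩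
  · have := hA (b 0) y
    rw [hA0, real_inner_smul_left] at this
    linarith
  · have := hA (b 1) y
    rw [hA1, inner_neg_left, real_inner_smul_left] at this
    linarith
  · have := hA (b 2) y
    rw [hA2, real_inner_smul_left] at this
    linarith
  · have := hA (b 3) y
    rw [hA3, inner_neg_left, real_inner_smul_left] at this
    linarith

/-- a plane rotated with constant speed has an integral weight -/
theorem weight {U : ℝ × ℝ → ℂ} {lam : ℝ}
    (hd : ∀ s t, HasDerivAt (fun r => U (r, t)) (I * lam * U (s, t)) s)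
    (hper : ∀ s t, U (s + 2 * Real.pi, t) = U (s, t)) (hne : ∃ p, U p ≠ 0) :
    ∃ a : ℤ, (a : ℝ) = lam ∧ ∀ s t, U (s, t) = U (0, t) * cexp (I * a * s) := by
  have key : ∀ s t, U (s, t) = U (0, t) * cexp (I * lam * s) := by
    intro s t
    have hexp : ∀ s : ℝ, HasDerivAt (fun r : ℝ => cexp (-(I * lam * r)))
        (cexp (-(I * lam * s)) * -(I * lam)) s := by
      intro s
      have h1 : HasDerivAt (fun r : ℝ => -(I * lam * (r : ℂ))) (-(I * lam)) s :=
        ((Complex.ofRealCLM.hasDerivAt (x := s)).const_mul (I * (lam : ℂ))).neg.congr_deriv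
          (by simp)
      exact h1.cexp
    have hc : ∀ s : ℝ, HasDerivAt (fun r => U (r, t) * cexp (-(I * lam * r))) 0 s := by
      intro s
      refine ((hd s t).mul (hexp s)).congr_deriv ?_
      ring
    have hconst := is_const_of_deriv_eq_zero (f := fun r : ℝ => U (r, t) * cexp (-(I * lam * r)))
      (fun s => (hc s).differentiableAt) (fun s => (hc s).deriv) s 0
    simp only [Complex.ofReal_zero, mul_zero, neg_zero, Complex.exp_zero, mul_one] at hconst
    rw [← hconst, mul_assoc, ← Complex.exp_add, neg_add_cancel, Complex.exp_zero, mul_one]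
  obtain ⟨⟨s, t⟩, hst⟩ := hne
  have hU0 : U (0, t) ≠ 0 := by
    intro h0
    apply hst
    rw [key, h0, zero_mul]
  have h1 := hper 0 t
  rw [key, zero_add] at h1
  have h2 : cexp (I * lam * ((2 * Real.pi : ℝ) : ℂ)) = 1 := by
    have : U (0, t) * cexp (I * lam * ((2 * Real.pi : ℝ) : ℂ)) = U (0, t) * 1 := by
      rw [h1, mul_one]
    exact mul_left_cancel₀ hU0 this
  obtain ⟨n, hn⟩ := Complex.exp_eq_one_iff.1 h2
  have h3 : (lam : ℂ) = n := by
    have : (2 * (Real.pi : ℂ) * I) * lam = (2 * (Real.pi : ℂ) * I) * n := by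
      push_cast at hn
      linear_combination hn
    exact mul_left_cancel₀ Complex.two_pi_I_ne_zero this
  refine ⟨n, by exact_mod_cast h3.symm, fun s t => ?_⟩
  rw [key, h3]

end

end Pool.Agent.TK
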