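import Pool.Agent.TK.Targets2

set_option autoImplicit false
set_option linter.unusedVariables false

/-!
# Project TK: TK-TOR, torsion of the quotient
-/

namespace TK

open Subgroup

namespace TOR_

/-- bound for the projection distance of two vertices -/
theorem pd_le {V J : Type} (d : V → V → ℕ) (Y : J → Set V) (j : J) (u w : V ⊕ J) (a : ℕ)
    (h : ∀ y y', Pr d Y j u y → Pr d Y j w y' → d y y' ≤ a) : PD d Y j u w ≤ a := by
  unfold PD
  rcases Set.eq_empty_or_nonempty {n | ∃ y y', Pr d Y j u y ∧ Pr d Y j w y' ∧ d y y' = n} with h0 | h0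
  · rw [h0]; simp
  · refine csSup_le h0 ?_
    rintro n ⟨y, y', h1, h2, rfl⟩
    exact h y y' h1 h2

/-- minimal displacement among the lifts -/
theorem exists_min {Γ V : Type} [Group Γ] [MulAction Γ V] (d : V → V → ℕ) (x0 : V)
    (M : Subgroup Γ) (t : Γ) : ∃ r ∈ M, ∃ p : V, ∀ r' ∈ M, ∀ u : V,
      d p ((r * t) • p) ≤ d u ((r' * t) • u) := by
  classical
  have h : ∃ n, ∃ r ∈ M, ∃ p : V, d p ((r * t) • p) = n := ⟨_, 1, one_mem _, x0, rfl⟩
  obtain ⟨r, hr, p, hn⟩ := Nat.find_spec h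
  refine ⟨r, hr, p, fun r' hr' u => ?_⟩
  rw [hn]
  exact Nat.find_min' h ⟨r', hr', u, rfl⟩

theorem pow_mem_iff {Γ : Type} [Group Γ] (M : Subgroup Γ) [M.Normal] (r t : Γ) (hr : r ∈ M)
    (n : ℕ) (h : t ^ n ∈ M) : (r * t) ^ n ∈ M := by
  have h1 : ((r * t : Γ) : Γ ⧸ M) = (t : Γ ⧸ M) := by
    rw [QuotientGroup.mk_mul, (QuotientGroup.eq_one_iff r).2 hr, one_mul]
  rw [← QuotientGroup.eq_one_iff] at h ⊢
  rw [QuotientGroup.mk_pow] at h ⊢
  rw [h1, h]

end TOR_

open TOR_ in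
theorem p_TOR (hTBG : T_TBG) (hPD : T_PD) : T_TOR := by
  intro Γ _ V _ d x0 H e δ κ c B hK K
  obtain ⟨M0, E, hE⟩ := hTBG Γ V d x0 H e δ κ c B hK
  obtain ⟨B', hB'⟩ := hK.inf M0
  refine ⟨E + 52 * K + 13 * K + B' + 1, fun N hN hl hW t n hn htn => ?_⟩
  obtain ⟨r, hr, p, hmin⟩ := exists_min d x0 (normalClosure ({e ^ N} : Set Γ)) t
  refine ⟨r, hr, ?_⟩
  by_contra hcon
  rw [not_or] at hcon
  obtain ⟨hinf, hfix⟩ := hcon
  have hmem : (r * t) ^ n ∈ normalClosure ({e ^ N} : Set Γ) :=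
    pow_mem_iff _ r t hr n htn
  have hne : (r * t) ^ n ≠ 1 := fun h => hinf (isOfFinOrder_iff_pow_eq_one.2 ⟨n, hn, h⟩)
  have hred := hW (Sum.inl p) ((r * t) ^ n) hmem
  have hj : ∃ j : Γ ⧸ zpowers e, d x0 (e ^ N • x0) - 13 * K ≤
      PD d (Yf e x0) j (Sum.inl p) (Sum.inl ((r * t) ^ n • p)) := by
    generalize hg : (r * t) ^ n = g at hred hne
    cases hred with
    | one => exact absurd rfl hne
    | base j _ h1 _ => exact absurd h1 (by simp)
    | step j ρ _ h1 h2 h3 h4 h5 =>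
      rw [Sum.smul_inl] at h4
      exact ⟨j, h4⟩
  obtain ⟨j, hj⟩ := hj
  have htj : (r * t) • j ≠ j := fun h => hfix ⟨j, h⟩
  by_cases hM : M0 ≤ d p ((r * t) • p)
  · have h1 := hE N hN (by omega) (r * t) p hM (by
      intro r' hr' u
      rw [← mul_assoc]
      exact hmin (r' * r) (mul_mem hr' hr) u) j htj (n : ℤ)
    rw [zpow_natCast] at h1
    omega
  · have h1 := (hB' (r * t) hinf p (by omega)).2 (Quotient.out j) (by
      intro h
      apply htj
      have h2 : (QuotientGroup.mk (Quotient.out j) : Γ ⧸ zpowers e) = j := Quotient.out_eq j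
      have h3 : (r * t) • (QuotientGroup.mk (Quotient.out j) : Γ ⧸ zpowers e) =
          QuotientGroup.mk (Quotient.out j) := by
        rw [MulAction.Quotient.smul_mk, smul_eq_mul]
        refine (QuotientGroup.eq.2 ?_).symm
        rw [← mul_assoc]
        exact h
      rwa [h2] at h3) (n : ℤ)
    have h2 : PD d (Yf e x0) j (Sum.inl p) (Sum.inl ((r * t) ^ n • p)) ≤ B' := by
      refine pd_le _ _ _ _ _ _ fun y y' hy hy' => ?_
      exact h1 y y' hy (by rw [zpow_natCast]; exact hy')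
    omega

end TK
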