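import Pool.Agent.TK.Defs

set_option autoImplicit false
set_option linter.unusedVariables false

/-!
# Project TK (MP_3ae405_al, `k = 5`): targets, block 1 (hyperbolic geometry, cone-off, windmill)
-/

namespace TK

open Subgroup

/-! ## A. toolkit -/

/-- TK-BRK broken geodesics -/
def T_BRK : Prop := ∀ (V : Type) (d : V → V → ℕ) (C a n : ℕ) (y : ℕ → V), Geo d → Four d C →
  (∀ i, i + 2 ≤ n → d (y i) (y (i+1)) + d (y (i+1)) (y (i+2)) ≤ d (y i) (y (i+2)) + a) →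
  (∀ i, 1 ≤ i → i + 2 ≤ n → a + 2*C < d (y i) (y (i+1))) →
  (∀ i j k, i ≤ j → j ≤ k → k ≤ n →
    d (y i) (y j) + d (y j) (y k) ≤ d (y i) (y k) + (a + 2*C)) ∧
  (1 ≤ n → ∀ p, Btw d (y 0) p (y n) →
    ∃ j, j + 1 ≤ n ∧ ∃ q, Btw d (y j) q (y (j+1)) ∧ d p q ≤ 3*a + 7*C)

/-! ## B. groups acting geometrically -/

/-- TK-CNT uniform counting -/
def T_CNT : Prop := ∀ (Γ : Type) [Group Γ] (V : Type) [MulAction Γ V] (d : V → V → ℕ) (x0 : V),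
  GeoAct Γ V d x0 → ∀ n : ℕ, ∃ N : ℕ,
    (∀ x y : V, {g : Γ | d x (g • y) ≤ n}.Finite ∧ {g : Γ | d x (g • y) ≤ n}.ncard ≤ N) ∧
    ∀ x : V, {y | d x y ≤ n}.ncard ≤ N

/-- TK-CYC the orbit of an element of infinite order meets a ball of radius `L` in `O(L)` points -/
def T_CYC : Prop := ∀ (Γ : Type) [Group Γ] (V : Type) [MulAction Γ V] (d : V → V → ℕ) (x0 : V),
  GeoAct Γ V d x0 → ∀ h : Γ, ¬ IsOfFinOrder h → ∀ x : V, ∃ A : ℕ, ∀ L : ℕ,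
    {m : ℤ | d x (h ^ m • x) ≤ L}.Finite ∧ {m : ℤ | d x (h ^ m • x) ≤ L}.ncard ≤ A * L + A

/-- TK-DBL -/
def T_DBL : Prop := ∀ f : ℕ → ℕ, (∀ m n, f (m + n) ≤ f m + f n) →
  (∃ A : ℕ, ∀ L : ℕ, {m : ℕ | f m ≤ L}.Finite ∧ {m : ℕ | f m ≤ L}.ncard ≤ A * L + A) →
  ∀ c : ℕ, ∃ n, 1 ≤ n ∧ f n + c < f (2 * n)

/-- TK-QL orbits of elements of infinite order are quasi-lines -/
def T_QL : Prop := ∀ (Γ : Type) [Group Γ] (V : Type) [MulAction Γ V] (d : V → V → ℕ) (x0 : V),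
  GeoAct Γ V d x0 → ∀ h : Γ, ¬ IsOfFinOrder h → ∀ x : V,
    (∃ c : ℕ, QL d c (fun i : ℤ => h ^ i • x)) ∧
    (∃ A : ℕ, ∀ i : ℤ, i.natAbs ≤ A * d x (h ^ i • x) + A) ∧
    ∃ κ : ℕ, QC d κ (Set.range fun i : ℤ => h ^ i • x)

/-- TK-COM commensurating elements -/
def T_COM : Prop := ∀ (Γ : Type) [Group Γ] (V : Type) [MulAction Γ V] (d : V → V → ℕ) (x0 : V),
  GeoAct Γ V d x0 → ∀ h : Γ, ¬ IsOfFinOrder h →
    ∃ S : Finset Γ, ∀ (g : Γ) (i j : ℤ), i ≠ 0 → g * h ^ i * g⁻¹ = h ^ j →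
      (i = j ∨ i = -j) ∧ ∃ s ∈ S, ∃ k : ℤ, g = h ^ k * s

/-- TK-ALG the maximal cyclic subgroup (pure group theory) -/
def T_ALG : Prop := ∀ (Γ : Type) [Group Γ] (h : Γ), ¬ IsOfFinOrder h →
  (∀ t : Γ, IsOfFinOrder t → Odd (orderOf t)) →
  (∀ t : Γ, t ≠ 1 → IsOfFinOrder t → {g : Γ | g * t = t * g}.Finite) →
  (∃ S : Finset Γ, ∀ (g : Γ) (i j : ℤ), i ≠ 0 → g * h ^ i * g⁻¹ = h ^ j →
      (i = j ∨ i = -j) ∧ ∃ s ∈ S, ∃ k : ℤ, g = h ^ k * s) →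
  ∃ e : Γ, h ∈ zpowers e ∧ ∀ (g : Γ) (i j : ℤ), i ≠ 0 → g * e ^ i * g⁻¹ = e ^ j → g ∈ zpowers e

/-- TK-PH pigeonhole: long projections give intersecting conjugates -/
def T_PH : Prop := ∀ (Γ : Type) [Group Γ] (V : Type) [MulAction Γ V] (d : V → V → ℕ) (x0 : V),
  GeoAct Γ V d x0 → ∀ κ : ℕ, ∃ M : ℕ, ∀ P Q : Subgroup Γ,
    QC d κ (orb P 1 x0) → QC d κ (orb Q 1 x0) → ∀ g g' : Γ,
    ∀ z ∈ orb Q g' x0, ∀ z' ∈ orb Q g' x0, ∀ y y' : V,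
    Near d (orb P g x0) z y → Near d (orb P g x0) z' y' → M < d y y' →
    ∃ p ∈ P, ∃ q ∈ Q, p ≠ 1 ∧ g * p * g⁻¹ = g' * q * g'⁻¹

/-- TK-AX the axes of a maximal infinite order element -/
def T_AX : Prop := ∀ (Γ : Type) [Group Γ] (V : Type) [MulAction Γ V] (d : V → V → ℕ) (x0 : V),
  GeoAct Γ V d x0 → ∀ (H : Subgroup Γ) (e : Γ), ¬ IsOfFinOrder e →
  (∀ (g : Γ) (i j : ℤ), i ≠ 0 → g * e ^ i * g⁻¹ = e ^ j → g ∈ zpowers e) →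
  (∃ κ, QC d κ (orb H 1 x0)) → (∀ (g : Γ) (i : ℤ), i ≠ 0 → g⁻¹ * e ^ i * g ∉ H) →
  ∃ κ c B : ℕ, QL d c (fun i : ℤ => e ^ i • x0) ∧ QC d κ (orb (zpowers e) 1 x0) ∧
    (∀ g g' : Γ, g⁻¹ * g' ∉ zpowers e → ∀ z ∈ orb (zpowers e) g' x0,
      ∀ z' ∈ orb (zpowers e) g' x0, ∀ y y' : V, Near d (orb (zpowers e) g x0) z y →
      Near d (orb (zpowers e) g x0) z' y' → d y y' ≤ B) ∧
    (∀ g g' : Γ, ∀ z ∈ orb H g' x0, ∀ z' ∈ orb H g' x0, ∀ y y' : V,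
      Near d (orb (zpowers e) g x0) z y → Near d (orb (zpowers e) g x0) z' y' → d y y' ≤ B) ∧
    (∀ M0 : ℕ, ∃ B' : ℕ, ∀ t : Γ, ¬ IsOfFinOrder t → ∀ p : V, d p (t • p) ≤ M0 →
      (QC d B' (Set.range fun i : ℤ => t ^ i • p)) ∧
      ∀ g : Γ, g⁻¹ * t * g ∉ zpowers e → ∀ (n : ℤ) (y y' : V),
        Near d (orb (zpowers e) g x0) p y → Near d (orb (zpowers e) g x0) (t ^ n • p) y' →
        d y y' ≤ B')

/-! ## C. the cone-off -/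

/-- TK-CONE existence of the cone-off metric -/
def T_CONE : Prop := ∀ (V J : Type) (d : V → V → ℕ) (Y : J → Set V), Geo d →
  (∀ j, (Y j).Nonempty) → ∃ D : V ⊕ J → V ⊕ J → ℕ, IsCone d Y D

/-- TK-CINV comparison and invariance of the cone-off metric -/
def T_CINV : Prop := ∀ (V J : Type) (d : V → V → ℕ) (Y : J → Set V) (D : V ⊕ J → V ⊕ J → ℕ),
  Geo d → IsCone d Y D → (∀ x y : V, D (Sum.inl x) (Sum.inl y) ≤ d x y) ∧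
  ∀ (Γ : Type) [Group Γ] [MulAction Γ V] [MulAction Γ J],
    (∀ (g : Γ) (x y : V), d (g • x) (g • y) = d x y) →
    (∀ (g : Γ) (x : V) (j : J), x ∈ Y j → g • x ∈ Y (g • j)) →
    (∀ (g : Γ) (u w : V ⊕ J), D (g • u) (g • w) = D u w) ∧
    ∀ (g : Γ) (j : J) (u w : V ⊕ J), PD d Y (g • j) (g • u) (g • w) = PD d Y j u w

/-- TK-PD properties of the projection distance -/
def T_PD : Prop := ∀ (δ κ B : ℕ), ∃ E : ℕ, ∀ (V J : Type) (d : V → V → ℕ) (Y : J → Set V),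
  Fam d Y δ κ B → ∀ j : J,
  (∀ u : V ⊕ J, ∃ y, Pr d Y j u y) ∧
  (∀ u : V ⊕ J, u ≠ Sum.inr j → ∀ y y', Pr d Y j u y → Pr d Y j u y' → d y y' ≤ E) ∧
  (∀ u w : V ⊕ J, u ≠ Sum.inr j → w ≠ Sum.inr j → ∀ y y', Pr d Y j u y → Pr d Y j w y' →
    d y y' ≤ PD d Y j u w ∧ PD d Y j u w ≤ d y y' + E) ∧
  (∀ u w : V ⊕ J, PD d Y j u w = PD d Y j w u) ∧
  (∀ u z w : V ⊕ J, u ≠ Sum.inr j → z ≠ Sum.inr j → w ≠ Sum.inr j →
    PD d Y j u w ≤ PD d Y j u z + PD d Y j z w) ∧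
  (∀ x y : V, PD d Y j (Sum.inl x) (Sum.inl y) ≤ d x y + E)

/-- TK-LOG -/
def T_LOG : Prop := ∀ (V J : Type) (d : V → V → ℕ) (Y : J → Set V) (D : V ⊕ J → V ⊕ J → ℕ)
  (δ κ B : ℕ) (rep : V ⊕ J → V), Fam d Y δ κ B → IsCone d Y D →
  (∀ x : V, rep (Sum.inl x) = x) → (∀ j : J, rep (Sum.inr j) ∈ Y j) →
  ∀ (k n : ℕ) (γ : ℕ → V ⊕ J), n ≤ 2 ^ k → (∀ i, i < n → D (γ i) (γ (i+1)) ≤ 1) →
    ∀ p : V, Btw d (rep (γ 0)) p (rep (γ n)) →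
    ∃ i, i ≤ n ∧ D (Sum.inl p) (γ i) ≤ k * δ + κ + 2

/-- TK-CLOSE `V`-geodesics and cone-off geodesics are close in the cone-off metric -/
def T_CLOSE : Prop := ∀ (δ κ : ℕ), ∃ t : ℕ, ∀ (V J : Type) (d : V → V → ℕ) (Y : J → Set V)
  (D : V ⊕ J → V ⊕ J → ℕ) (B : ℕ) (rep : V ⊕ J → V), Fam d Y δ κ B → IsCone d Y D →
  (∀ x : V, rep (Sum.inl x) = x) → (∀ j : J, rep (Sum.inr j) ∈ Y j) →
  ∀ (n : ℕ) (γ : ℕ → V ⊕ J), (∀ i k, i ≤ k → k ≤ n → D (γ i) (γ k) = k - i) →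
    (∀ p : V, Btw d (rep (γ 0)) p (rep (γ n)) → ∃ i, i ≤ n ∧ D (Sum.inl p) (γ i) ≤ t) ∧
    (∀ i, i ≤ n → ∃ p : V, Btw d (rep (γ 0)) p (rep (γ n)) ∧ D (Sum.inl p) (γ i) ≤ t)

/-- TK-CTHIN the cone-off is hyperbolic -/
def T_CTHIN : Prop := ∀ (δ κ : ℕ), ∃ δ' : ℕ, ∀ (V J : Type) (d : V → V → ℕ) (Y : J → Set V)
  (D : V ⊕ J → V ⊕ J → ℕ) (B : ℕ), Fam d Y δ κ B → IsCone d Y D → Thin D δ'

/-- TK-BGI bounded geodesic image -/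
def T_BGI : Prop := ∀ (δ κ B : ℕ), ∃ K : ℕ, ∀ (V J : Type) (d : V → V → ℕ) (Y : J → Set V)
  (D : V ⊕ J → V ⊕ J → ℕ), Fam d Y δ κ B → IsCone d Y D →
  ∀ (j : J) (u w : V ⊕ J), u ≠ Sum.inr j → w ≠ Sum.inr j → K ≤ PD d Y j u w →
    Btw D u (Sum.inr j) w

/-! ## D. windmill -/

/-- TK-WIN the reduction theorem for spinning families -/
def T_WIN : Prop := ∀ (P J G : Type) [Group G] [MulAction G P] [MulAction G J] (d : P → P → ℕ)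
  (v : J → P) (D : J → P → P → ℕ) (R : J → Subgroup G) (K L : ℕ), 1 ≤ K → 100 * K ≤ L →
  Spin d v D R K L → ∀ x : P, ∀ r ∈ (⨆ j, R j : Subgroup G), Red v D R (L - 12 * K) x r

/-! ## E. quotient -/

/-- TK-LIFT closed polygons of the quotient lift to closed polygons -/
def T_LIFT : Prop := ∀ (P J G : Type) [Group G] [MulAction G P] [MulAction G J] (d : P → P → ℕ)
  (v : J → P) (D : J → P → P → ℕ) (R : J → Subgroup G) (K L : ℕ), 1 ≤ K → 100 * K ≤ L →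
  Spin d v D R K L → ∀ N : Subgroup G, N = (⨆ j, R j : Subgroup G) →
  ∀ (k B0 : ℕ) (T : ℕ → Prop) (u : ℕ → P), k * max K B0 < L - 12 * K →
  (∀ i, i < k → T i → Tight d N (u i) (u (i+1))) →
  (∀ i, i < k → ¬ T i → ∀ j, u i ≠ v j → u (i+1) ≠ v j → D j (u i) (u (i+1)) ≤ B0) →
  ∀ r ∈ N, u k = r • u 0 →
  ∃ u' : ℕ → P, u' 0 = u 0 ∧ u' k = u 0 ∧ (∀ i, i ≤ k → ∃ s ∈ N, u' i = s • u i) ∧
    (∀ i, i < k → T i → d (u' i) (u' (i+1)) = d (u i) (u (i+1))) ∧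
    (∀ i, i < k → ¬ T i → ∃ s ∈ N, u' i = s • u i ∧ u' (i+1) = s • u (i+1))

/-- TK-ORB the quotient graph -/
def T_ORB : Prop := ∀ (P G : Type) [Group G] [MulAction G P] (d : P → P → ℕ) (N : Subgroup G)
  [N.Normal], Geo d → (∀ (g : G) x y, d (g • x) (g • y) = d x y) →
  ∃ (P' : Type) (_ : MulAction (G ⧸ N) P') (d' : P' → P' → ℕ) (q : P → P'), IsQuot d N d' q

/-- TK-QTHIN the quotient of a spinning family is thin with the same constant -/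
def T_QTHIN : Prop := ∀ (P J G : Type) [Group G] [MulAction G P] [MulAction G J] (d : P → P → ℕ)
  (v : J → P) (D : J → P → P → ℕ) (R : J → Subgroup G) (K L : ℕ), 1 ≤ K → 100 * K ≤ L →
  Spin d v D R K L → ∀ (N : Subgroup G) [N.Normal], N = (⨆ j, R j : Subgroup G) →
  ∀ (P' : Type) [MulAction (G ⧸ N) P'] (d' : P' → P' → ℕ) (q : P → P'), IsQuot d N d' q →
  ∀ δ, Thin d δ → Thin d' δ

/-! ## the concrete spinning family -/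

/-- the axes -/
noncomputable def Yf {Γ V : Type} [Group Γ] [MulAction Γ V] (e : Γ) (x0 : V)
    (j : Γ ⧸ zpowers e) : Set V := orb (zpowers e) (Quotient.out j) x0

/-- the rotation groups -/
noncomputable def Rf {Γ : Type} [Group Γ] (e : Γ) (N : ℕ) (j : Γ ⧸ zpowers e) : Subgroup Γ :=
  (zpowers (e ^ N)).map (MulAut.conj (Quotient.out j)).toMonoidHom

/-- TK-YR elementary facts on `Yf`, `Rf` -/
def T_YR : Prop := ∀ (Γ : Type) [Group Γ] (V : Type) [MulAction Γ V] (e : Γ) (x0 : V),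
  (∀ (g : Γ), Yf e x0 (QuotientGroup.mk g) = orb (zpowers e) g x0) ∧
  (∀ (g : Γ) (x : V) (j : Γ ⧸ zpowers e), x ∈ Yf e x0 j → g • x ∈ Yf e x0 (g • j)) ∧
  (∀ (N : ℕ) (g r : Γ), r ∈ Rf e N (QuotientGroup.mk g) ↔ ∃ k : ℤ, r = g * e ^ (N * k) * g⁻¹) ∧
  (∀ (N : ℕ), (⨆ j, Rf e N j : Subgroup Γ) = normalClosure {e ^ N})

/-- TK-SPIN the concrete spinning family; `K` and `δ'` do not depend on `N` -/
def T_SPIN : Prop := ∀ (Γ : Type) [Group Γ] (V : Type) [MulAction Γ V] (d : V → V → ℕ) (x0 : V),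
  GeoAct Γ V d x0 → ∀ (e : Γ), ¬ IsOfFinOrder e →
  ∀ κ c B : ℕ, QL d c (fun i : ℤ => e ^ i • x0) → QC d κ (orb (zpowers e) 1 x0) →
    (∀ g g' : Γ, g⁻¹ * g' ∉ zpowers e → ∀ z ∈ orb (zpowers e) g' x0,
      ∀ z' ∈ orb (zpowers e) g' x0, ∀ y y' : V, Near d (orb (zpowers e) g x0) z y →
      Near d (orb (zpowers e) g x0) z' y' → d y y' ≤ B) →
  ∃ (D : V ⊕ (Γ ⧸ zpowers e) → V ⊕ (Γ ⧸ zpowers e) → ℕ) (K δ δ' : ℕ), 1 ≤ K ∧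
    Fam d (Yf e x0) δ κ B ∧ IsCone d (Yf e x0) D ∧ Thin D δ' ∧
    ∀ N L : ℕ, L + K ≤ d x0 (e ^ N • x0) →
      Spin D Sum.inr (PD d (Yf e x0)) (Rf e N) K L

/-- TK-QGEO the quotient action is geometric -/
def T_QGEO : Prop := ∀ (Γ : Type) [Group Γ] (V : Type) [MulAction Γ V] (d : V → V → ℕ) (x0 : V),
  GeoAct Γ V d x0 → ∀ (e : Γ) (N : ℕ), 1 ≤ N →
  ∀ (D : V ⊕ (Γ ⧸ zpowers e) → V ⊕ (Γ ⧸ zpowers e) → ℕ), IsCone d (Yf e x0) D →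
  ∀ (M : Subgroup Γ) [M.Normal], M = normalClosure {e ^ N} →
  ∀ (P' : Type) [MulAction (Γ ⧸ M) P'] (d' : P' → P' → ℕ) (q : V ⊕ (Γ ⧸ zpowers e) → P'),
  IsQuot D M d' q → (∃ δ, Thin d' δ) → GeoAct (Γ ⧸ M) P' d' (q (Sum.inl x0))

end TK
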