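import Pool.Agent.TK.Targets1

set_option autoImplicit false
set_option linter.unusedVariables false

/-!
# Project TK (MP_3ae405_al, `k = 5`): targets, block 2 (the kill step)
-/

namespace TK

open Subgroup

/-! ## F. pure hyperbolic geometry -/

/-- A quasi-line `y` with a rotation `ρ` acting on it as the shift by `N`. -/
structure Axis {G V : Type} [Group G] [MulAction G V] (d : V → V → ℕ) (κ c : ℕ) (y : ℤ → V)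
    (ρ : G) (N : ℤ) (ℓ : ℕ) : Prop where
  ql : QL d c y
  qc : QC d κ (Set.range y)
  pos : 0 < N
  shift : ∀ m : ℤ, ρ • y m = y (m + N)
  len : ∀ m : ℤ, d (y m) (y (m + N)) = ℓ

/-- TK-LG local geodesics -/
def T_LG : Prop := ∀ (V : Type) (d : V → V → ℕ) (C m n : ℕ) (z : ℕ → V), Geo d → Four d C →
  4 * C + 2 ≤ m → (∀ i k, i ≤ k → k ≤ i + m → k ≤ n → d (z i) (z k) = k - i) →
  ∀ i j k, i ≤ j → j ≤ k → k ≤ n → d (z i) (z j) + d (z j) (z k) ≤ d (z i) (z k) + 2 * C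

/-- TK-SHAD shadow lemma -/
def T_SHAD : Prop := ∀ (δ κ c κA : ℕ), ∃ E : ℕ, ∀ (V G : Type) [Group G] [MulAction G V]
  (d : V → V → ℕ), Geo d → Thin d δ → (∀ (g : G) x y, d (g • x) (g • y) = d x y) →
  ∀ (y : ℤ → V) (ρ : G) (N : ℤ) (ℓ : ℕ), Axis d κ c y ρ N ℓ → E ≤ ℓ →
  ∀ (A : Set V), QC d κA A → ∀ x a a' : V, Near d A x a → a' ∈ A →
  (∀ u ∈ A, d x a ≤ d (ρ • x) u ∧ d x a ≤ d (ρ⁻¹ • x) u) →
  ∀ p q q' : V, Near d (Set.range y) x p → Near d (Set.range y) a q →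
  Near d (Set.range y) a' q' → 4 * d q q' ≤ 3 * ℓ → 2 * d p q + d q q' ≤ ℓ + E

/-- TK-GPB -/
def T_GPB : Prop := ∀ (δ κ κA : ℕ), ∃ E : ℕ, ∀ (V : Type) (d : V → V → ℕ), Geo d → Thin d δ →
  ∀ (Y A : Set V), QC d κ Y → QC d κA A → ∀ x a a' p q q' : V, Near d A x a → a' ∈ A →
  Near d Y x p → Near d Y a q → Near d Y a' q' → E ≤ d p q → d a q ≤ d a' q' + E

/-- TK-GP Greendlinger-type propagation lemma -/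
def T_GP : Prop := ∀ (δ κ c B κA C1 : ℕ), ∃ E : ℕ, ∀ (V G : Type) [Group G] [MulAction G V]
  (d : V → V → ℕ), Geo d → Thin d δ → (∀ (g : G) x y, d (g • x) (g • y) = d x y) →
  ∀ (y y' : ℤ → V) (ρ ρ' g : G) (N : ℤ) (ℓ : ℕ), Axis d κ c y ρ N ℓ → Axis d κ c y' ρ' N ℓ →
  (∀ m, g • y' m ∈ Set.range y) → (∀ m, g⁻¹ • y m ∈ Set.range y') → E ≤ ℓ →
  ∀ (A : Set V), QC d κA A → (∀ u ∈ A, g • u ∈ A ∧ g⁻¹ • u ∈ A) → ∀ x a : V, Near d A x a →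
  (∀ u ∈ A, d x a ≤ d (ρ • x) u ∧ d x a ≤ d (ρ⁻¹ • x) u ∧ d x a ≤ d (ρ' • x) u ∧
    d x a ≤ d (ρ'⁻¹ • x) u) →
  ∀ p p' q q' : V, Near d (Set.range y) x p → Near d (Set.range y) (g • x) p' →
  Near d (Set.range y) a q → Near d (Set.range y) (g • a) q' →
  ℓ ≤ d p p' + C1 → 4 * d q q' ≤ 3 * ℓ →
  ∃ z ∈ Set.range y', ∃ z' ∈ Set.range y', ∃ w w' : V, Near d (Set.range y) z w ∧
    Near d (Set.range y) z' w' ∧ B < d w w'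

/-- TK-TB translation lemma -/
def T_TB : Prop := ∀ (δ κ c B : ℕ), ∃ M0 E : ℕ, ∀ (V G : Type) [Group G] [MulAction G V]
  (d : V → V → ℕ), Geo d → Thin d δ → (∀ (g : G) x y, d (g • x) (g • y) = d x y) →
  ∀ (y : ℤ → V) (ρ t : G) (N : ℤ) (ℓ : ℕ), Axis d κ c y ρ N ℓ → E ≤ ℓ → ∀ p : V,
  M0 ≤ d p (t • p) → (∀ u : V, d p (t • p) ≤ d u (t • u) ∧ d p (t • p) ≤ d u ((ρ * t) • u) ∧
    d p (t • p) ≤ d u ((ρ⁻¹ * t) • u)) →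
  (∀ z ∈ Set.range y, ∀ z' ∈ Set.range y, ∀ w w' : V, Near d (Set.range y) (t • z) w →
    Near d (Set.range y) (t • z') w' → d w w' ≤ B) →
  ∀ (n : ℕ) (q q' : V), Near d (Set.range y) p q → Near d (Set.range y) (t ^ n • p) q' →
    4 * d q q' ≤ 3 * ℓ

/-- the tree-like set `<a,b> · [ca,c']` -/
def AW {G V : Type} [Group G] [MulAction G V] (d : V → V → ℕ) (a b : G) (ca c' : V) : Set V :=
  {u | ∃ g ∈ closure ({a, b} : Set G), Btw d (g • ca) u (g • c')}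

/-- TK-PATH broken geodesics in the tree-like set -/
def T_PATH : Prop := ∀ (V G : Type) [Group G] [MulAction G V] (d : V → V → ℕ), Geo d →
  (∀ (g : G) x y, d (g • x) (g • y) = d x y) → ∀ (a b : G) (ca c' : V), a • ca = ca → b • c' = c' →
  ∀ u ∈ AW d a b ca c', ∀ u' ∈ AW d a b ca c', ∃ (n : ℕ) (y : ℕ → V) (g : ℕ → G),
    y 0 = u ∧ y (n+1) = u' ∧
    (∀ k, k ≤ n → g k ∈ closure ({a, b} : Set G) ∧ Btw d (g k • ca) (y k) (g k • c') ∧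
      Btw d (g k • ca) (y (k+1)) (g k • c')) ∧
    (∀ k, k + 1 ≤ n → (y (k+1) = g k • ca ∧ y (k+1) = g (k+1) • ca ∧
        ∃ i : ℤ, a ^ i ≠ 1 ∧ g (k+1) = g k * a ^ i) ∨
      (y (k+1) = g k • c' ∧ y (k+1) = g (k+1) • c' ∧
        ∃ i : ℤ, b ^ i ≠ 1 ∧ g (k+1) = g k * b ^ i)) ∧
    (∀ k, 1 ≤ k → k + 1 ≤ n → (y k = g k • ca ∧ y (k+1) = g k • c') ∨
      (y k = g k • c' ∧ y (k+1) = g k • ca))

/-- TK-QBQ the tree-like set is quasiconvex -/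
def T_QBQ : Prop := ∀ (δ E1 : ℕ), ∃ κA M0 : ℕ, ∀ (V G : Type) [Group G] [MulAction G V]
  (d : V → V → ℕ), Geo d → Thin d δ → (∀ (g : G) x y, d (g • x) (g • y) = d x y) →
  ∀ (a b : G) (ca c' : V), a • ca = ca → b • c' = c' →
  (∀ i : ℤ, a ^ i ≠ 1 → d c' ca + d ca (a ^ i • c') ≤ d c' (a ^ i • c') + E1) →
  (∀ i : ℤ, b ^ i ≠ 1 → d ca c' + d c' (b ^ i • ca) ≤ d ca (b ^ i • ca) + E1) →
  M0 ≤ d ca c' → QC d κA (AW d a b ca c')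

/-- TK-QBO overlaps of the tree-like set with a quasiconvex set -/
def T_QBO : Prop := ∀ (δ κ B E1 C1 : ℕ), ∃ M0 E : ℕ, ∀ (V G : Type) [Group G] [MulAction G V]
  (d : V → V → ℕ), Geo d → Thin d δ → (∀ (g : G) x y, d (g • x) (g • y) = d x y) →
  ∀ (a b : G) (ca c' : V), a • ca = ca → b • c' = c' →
  (∀ i : ℤ, a ^ i ≠ 1 → d c' ca + d ca (a ^ i • c') ≤ d c' (a ^ i • c') + E1) →
  (∀ i : ℤ, b ^ i ≠ 1 → d ca c' + d c' (b ^ i • ca) ≤ d ca (b ^ i • ca) + E1) →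
  M0 ≤ d ca c' → ∀ (Y : Set V) (ℓ : ℕ), QC d κ Y → E ≤ ℓ →
  (∀ g ∈ closure ({a, b} : Set G), ∀ q q' : V, Near d Y (g • ca) q → Near d Y (g • c') q' →
    2 * d q q' ≤ ℓ + C1) →
  (∀ g ∈ closure ({a, b} : Set G), ∀ s : G,
    (∃ i : ℤ, (a ^ i ≠ 1 ∧ s = g * a ^ i * g⁻¹) ∨ (b ^ i ≠ 1 ∧ s = g * b ^ i * g⁻¹)) →
    ∀ z ∈ Y, ∀ z' ∈ Y, ∀ w w' : V, Near d Y (s • z) w → Near d Y (s • z') w' → d w w' ≤ B) →
  ∀ u ∈ AW d a b ca c', ∀ u' ∈ AW d a b ca c', ∀ q q' : V, Near d Y u q → Near d Y u' q' →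
    4 * d q q' ≤ 3 * ℓ

/-! ## G. group level -/

/-- TK-CB corner bound -/
def T_CB : Prop := ∀ (Γ : Type) [Group Γ] (V : Type) [MulAction Γ V] (d : V → V → ℕ) (x0 : V),
  GeoAct Γ V d x0 → ∀ s : Γ, {g : Γ | g * s = s * g}.Finite →
  ∃ E1 : ℕ, ∀ c z : V, s • c = c → d z c + d c (s • z) ≤ d z (s • z) + E1

/-- TK-FIX -/
def T_FIX : Prop := ∀ (Γ : Type) [Group Γ] (V : Type) [MulAction Γ V] (d : V → V → ℕ) (x0 : V),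
  GeoAct Γ V d x0 → ∀ s : Γ, {g : Γ | g * s = s * g}.Finite → {x : V | s • x = x}.Finite

/-- environment of the kill step (independent of `N`) -/
structure KE (Γ : Type) [Group Γ] (V : Type) [MulAction Γ V] (d : V → V → ℕ) (x0 : V)
    (H : Subgroup Γ) (e : Γ) (δ κ c B : ℕ) : Prop where
  act : GeoAct Γ V d x0
  einf : ¬ IsOfFinOrder e
  mal : ∀ (g : Γ) (i j : ℤ), i ≠ 0 → g * e ^ i * g⁻¹ = e ^ j → g ∈ zpowers e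
  ql : QL d c (fun i : ℤ => e ^ i • x0)
  fam : Fam d (Yf e x0) δ κ B
  nb : ∀ g g' : Γ, ∀ z ∈ orb H g' x0, ∀ z' ∈ orb H g' x0, ∀ y y' : V,
      Near d (orb (zpowers e) g x0) z y → Near d (orb (zpowers e) g x0) z' y' → d y y' ≤ B
  inf : ∀ M0 : ℕ, ∃ B' : ℕ, ∀ t : Γ, ¬ IsOfFinOrder t → ∀ p : V, d p (t • p) ≤ M0 →
      (QC d B' (Set.range fun i : ℤ => t ^ i • p)) ∧
      ∀ g : Γ, g⁻¹ * t * g ∉ zpowers e → ∀ (n : ℤ) (y y' : V),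
        Near d (orb (zpowers e) g x0) p y → Near d (orb (zpowers e) g x0) (t ^ n • p) y' →
        d y y' ≤ B'

/-- the conclusion of the windmill theorem for the rotations `e ^ N` -/
def Wind {Γ : Type} [Group Γ] {V : Type} [MulAction Γ V] (d : V → V → ℕ) (x0 : V) (e : Γ)
    (K N : ℕ) : Prop :=
  ∀ (x : V ⊕ (Γ ⧸ zpowers e)), ∀ r ∈ normalClosure ({e ^ N} : Set Γ),
    Red Sum.inr (PD d (Yf e x0)) (Rf e N) (d x0 (e ^ N • x0) - 13 * K) x r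

/-- TK-GPG group level versions of SHAD and GP -/
def T_GPG : Prop := ∀ (Γ : Type) [Group Γ] (V : Type) [MulAction Γ V] (d : V → V → ℕ) (x0 : V)
  (H : Subgroup Γ) (e : Γ) (δ κ c B : ℕ), KE Γ V d x0 H e δ κ c B → ∀ κA C1 : ℕ, ∃ E : ℕ,
  ∀ N : ℕ, 1 ≤ N → E ≤ d x0 (e ^ N • x0) →
  (∀ (x w : V) (j : Γ ⧸ zpowers e), (∀ r ∈ normalClosure ({e ^ N} : Set Γ), d x w ≤ d x (r • w)) →
    2 * PD d (Yf e x0) j (Sum.inl x) (Sum.inl w) ≤ d x0 (e ^ N • x0) + E) ∧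
  (∀ (A : Set V) (g : Γ) (x a : V) (j : Γ ⧸ zpowers e), QC d κA A →
    (∀ u ∈ A, g • u ∈ A ∧ g⁻¹ • u ∈ A) → a ∈ A →
    (∀ r ∈ normalClosure ({e ^ N} : Set Γ), ∀ u ∈ A, d x a ≤ d (r • x) u) →
    d x0 (e ^ N • x0) ≤ PD d (Yf e x0) j (Sum.inl x) (Sum.inl (g • x)) + C1 →
    4 * PD d (Yf e x0) j (Sum.inl a) (Sum.inl (g • a)) ≤ 3 * d x0 (e ^ N • x0) → g • j = j)

/-- TK-TBG group level version of TB -/
def T_TBG : Prop := ∀ (Γ : Type) [Group Γ] (V : Type) [MulAction Γ V] (d : V → V → ℕ) (x0 : V)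
  (H : Subgroup Γ) (e : Γ) (δ κ c B : ℕ), KE Γ V d x0 H e δ κ c B → ∃ M0 E : ℕ,
  ∀ N : ℕ, 1 ≤ N → E ≤ d x0 (e ^ N • x0) → ∀ (t : Γ) (p : V), M0 ≤ d p (t • p) →
  (∀ r ∈ normalClosure ({e ^ N} : Set Γ), ∀ u : V, d p (t • p) ≤ d u ((r * t) • u)) →
  ∀ j : Γ ⧸ zpowers e, t • j ≠ j → ∀ n : ℤ,
    4 * PD d (Yf e x0) j (Sum.inl p) (Sum.inl (t ^ n • p)) ≤ 3 * d x0 (e ^ N • x0)

/-- TK-TOR torsion of the quotient -/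
def T_TOR : Prop := ∀ (Γ : Type) [Group Γ] (V : Type) [MulAction Γ V] (d : V → V → ℕ) (x0 : V)
  (H : Subgroup Γ) (e : Γ) (δ κ c B : ℕ), KE Γ V d x0 H e δ κ c B → ∀ K : ℕ, ∃ E : ℕ,
  ∀ N : ℕ, 1 ≤ N → E ≤ d x0 (e ^ N • x0) → Wind d x0 e K N →
  ∀ (t : Γ) (n : ℕ), 1 ≤ n → t ^ n ∈ normalClosure ({e ^ N} : Set Γ) →
  ∃ r ∈ normalClosure ({e ^ N} : Set Γ), IsOfFinOrder (r * t) ∨
    ∃ j : Γ ⧸ zpowers e, (r * t) • j = j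

/-- TK-AW invariant quasiconvex sets for the elements `v(a, w b w⁻¹)` -/
def T_AW : Prop := ∀ (Γ : Type) [Group Γ] (V : Type) [MulAction Γ V] (d : V → V → ℕ) (x0 : V)
  (H : Subgroup Γ) (e : Γ) (δ κ c B : ℕ), KE Γ V d x0 H e δ κ c B →
  (∀ t : Γ, t ≠ 1 → IsOfFinOrder t → {g : Γ | g * t = t * g}.Finite) →
  ∀ (a b : Γ) (ca cb : V), a ^ 5 = 1 → b ^ 3 = 1 → a • ca = ca → b • cb = cb →
  ∃ κA E : ℕ, ∀ N : ℕ, 1 ≤ N → E ≤ d x0 (e ^ N • x0) → ∀ w : Γ,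
  (∀ r ∈ normalClosure ({e ^ N} : Set Γ), d ca (w • cb) ≤ d ca ((r * w) • cb)) →
  IsOfFinOrder (vw a (w * b * w⁻¹)) ∨ (∃ j : Γ ⧸ zpowers e, vw a (w * b * w⁻¹) • j = j) ∨
  ∃ A : Set V, A.Nonempty ∧ QC d κA A ∧
    (∀ u ∈ A, vw a (w * b * w⁻¹) • u ∈ A ∧ (vw a (w * b * w⁻¹))⁻¹ • u ∈ A) ∧
    ∀ u ∈ A, ∀ (n : ℤ) (j : Γ ⧸ zpowers e),
      4 * PD d (Yf e x0) j (Sum.inl u) (Sum.inl (vw a (w * b * w⁻¹) ^ n • u)) ≤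
        3 * d x0 (e ^ N • x0)

/-- TK-CONJ conjugacy into `H` modulo the rotations -/
def T_CONJ : Prop := ∀ (Γ : Type) [Group Γ] (V : Type) [MulAction Γ V] (d : V → V → ℕ) (x0 : V)
  (H : Subgroup Γ) (e : Γ) (δ κ c B : ℕ), KE Γ V d x0 H e δ κ c B → ∀ κA K : ℕ, ∃ E : ℕ,
  ∀ N : ℕ, 1 ≤ N → E ≤ d x0 (e ^ N • x0) → Wind d x0 e K N →
  ∀ (s : Γ) (A : Set V), A.Nonempty → QC d κA A → (∀ u ∈ A, s • u ∈ A ∧ s⁻¹ • u ∈ A) →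
  (∀ u ∈ A, ∀ j : Γ ⧸ zpowers e,
    4 * PD d (Yf e x0) j (Sum.inl u) (Sum.inl (s • u)) ≤ 3 * d x0 (e ^ N • x0)) →
  ∀ g h r : Γ, h ∈ H → r ∈ normalClosure ({e ^ N} : Set Γ) → g⁻¹ * s * g = h * r →
  (∃ g1 : Γ, g1⁻¹ * s * g1 ∈ H) ∨ ∃ j : Γ ⧸ zpowers e, s • j = j

/-- TK-SEP separation from `H` -/
def T_SEP : Prop := ∀ (Γ : Type) [Group Γ] (V : Type) [MulAction Γ V] (d : V → V → ℕ) (x0 : V)
  (H : Subgroup Γ) (e : Γ) (δ κ c B : ℕ), KE Γ V d x0 H e δ κ c B → ∀ (K : ℕ) (f : Γ), f ∉ H →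
  ∃ E : ℕ, ∀ N : ℕ, 1 ≤ N → E ≤ d x0 (e ^ N • x0) → Wind d x0 e K N →
  ∀ h ∈ H, ∀ r ∈ normalClosure ({e ^ N} : Set Γ), f ≠ h * r

/-- TK-CENT centralizers in the quotient -/
def T_CENT : Prop := ∀ (Γ : Type) [Group Γ] (V : Type) [MulAction Γ V] (d : V → V → ℕ) (x0 : V)
  (H : Subgroup Γ) (e : Γ) (δ κ c B : ℕ), KE Γ V d x0 H e δ κ c B →
  (∀ t : Γ, t ≠ 1 → IsOfFinOrder t → {g : Γ | g * t = t * g}.Finite) →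
  (∀ t : Γ, IsOfFinOrder t → ∃ v : V, t • v = v) → ∀ K : ℕ, ∃ E : ℕ,
  ∀ N : ℕ, 1 ≤ N → E ≤ d x0 (e ^ N • x0) → Wind d x0 e K N →
  ∀ (M : Subgroup Γ) [M.Normal], M = normalClosure ({e ^ N} : Set Γ) →
  ∀ t : Γ ⧸ M, t ≠ 1 → IsOfFinOrder t → {g : Γ ⧸ M | g * t = t * g}.Finite

/-- TK-HQ quasiconvexity of the image of `H` -/
def T_HQ : Prop := ∀ (Γ : Type) [Group Γ] (V : Type) [MulAction Γ V] (d : V → V → ℕ) (x0 : V)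
  (H : Subgroup Γ) (e : Γ) (δ κ c B : ℕ), KE Γ V d x0 H e δ κ c B →
  ∀ κH : ℕ, (∀ h ∈ H, ∀ p, Btw d x0 p (h • x0) → ∃ h' ∈ H, d p (h' • x0) ≤ κH) →
  ∀ (D : V ⊕ (Γ ⧸ zpowers e) → V ⊕ (Γ ⧸ zpowers e) → ℕ), IsCone d (Yf e x0) D → ∀ K : ℕ, 1 ≤ K →
  ∃ E : ℕ, ∀ N : ℕ, 1 ≤ N → E ≤ d x0 (e ^ N • x0) →
  Spin D Sum.inr (PD d (Yf e x0)) (Rf e N) K (d x0 (e ^ N • x0) - K) →
  ∀ (M : Subgroup Γ) [M.Normal], M = normalClosure ({e ^ N} : Set Γ) →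
  ∀ (P' : Type) [MulAction (Γ ⧸ M) P'] (d' : P' → P' → ℕ) (q : V ⊕ (Γ ⧸ zpowers e) → P'),
  IsQuot D M d' q → ∃ κ' : ℕ, ∀ h ∈ H, ∀ p : P', Btw d' (q (Sum.inl x0)) p (q (Sum.inl (h • x0))) →
    ∃ h' ∈ H, d' p (q (Sum.inl (h' • x0))) ≤ κ'

/-- TK-KILL the kill step -/
def T_KILL : Prop := ∀ (Γ : Type) [Group Γ] (H : Subgroup Γ) (a b : Γ), Good Γ H a b →
  ∀ (w : Γ) (F : Finset Γ), (∀ f ∈ F, f ∉ H) →
  ∃ (Γ' : Type) (_ : Group Γ') (φ : Γ →* Γ') (H' : Subgroup Γ'), Good Γ' H' (φ a) (φ b) ∧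
    Function.Surjective φ ∧ (∀ h ∈ H, φ h ∈ H') ∧ (∀ f ∈ F, φ f ∉ H') ∧
    ∃ n : ℕ, Odd n ∧ vw (φ a) (φ w * φ b * (φ w)⁻¹) ^ n = 1

end TK
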