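import Pool.Agent.TK.Defs

set_option autoImplicit false
set_option linter.unusedVariables false

/-!
# Project TK (MP_3ae405_al, `k = 5`): targets, block 3 (the free step `Γ' = Γ * ⟨x⟩`)
-/

namespace TK

open Subgroup

/-! ## words in `Γ * ⟨x⟩` -/

/-- words `g₀ x^{ε₁} g₁ … x^{ε_k} g_k`: head `g₀` and the list of the `(ε_i, g_i)`;
`true` is `x`, `false` is `x⁻¹`. -/
abbrev Wd (Γ : Type) := Γ × List (Bool × Γ)

/-- `x` or `x⁻¹` -/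
def sg {Γ' : Type} [Group Γ'] (x : Γ') (ε : Bool) : Γ' := if ε then x else x⁻¹

/-- value of the tail -/
def lprod {Γ Γ' : Type} [Group Γ] [Group Γ'] (φ : Γ →* Γ') (x : Γ') : List (Bool × Γ) → Γ'
  | [] => 1
  | p :: l => sg x p.1 * φ p.2 * lprod φ x l

/-- value of a word -/
def wprod {Γ Γ' : Type} [Group Γ] [Group Γ'] (φ : Γ →* Γ') (x : Γ') (w : Wd Γ) : Γ' :=
  φ w.1 * lprod φ x w.2

/-- reduced tails: no `x^ε · 1 · x^{-ε}` -/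
def Rdc {Γ : Type} [Group Γ] (l : List (Bool × Γ)) : Prop :=
  l.IsChain (fun p q => p.2 = 1 → p.1 = q.1)

/-- `Γ'` is the free product of `Γ` and the infinite cyclic group generated by `x`; `rw z` is the
reduced word of `z`. -/
structure FreeExt {Γ Γ' : Type} [Group Γ] [Group Γ'] (φ : Γ →* Γ') (x : Γ') (rw : Γ' → Wd Γ) :
    Prop where
  red : ∀ z, Rdc (rw z).2
  prod : ∀ z, wprod φ x (rw z) = z
  uniq : ∀ w : Wd Γ, Rdc w.2 → rw (wprod φ x w) = w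

/-- concatenation `(g, l) * w` without cancellation -/
def cat {Γ : Type} [Group Γ] : Γ → List (Bool × Γ) → Wd Γ → Wd Γ
  | g, [], w => (g * w.1, w.2)
  | g, p :: l, w => (g, (p.1, (cat p.2 l w).1) :: (cat p.2 l w).2)

/-- formal inverse of a word -/
def winv {Γ : Type} [Group Γ] : Γ → List (Bool × Γ) → Wd Γ
  | g, [] => (g⁻¹, [])
  | g, p :: l => cat (winv p.2 l).1 (winv p.2 l).2 (1, [(!p.1, g⁻¹)])

/-- TK-FEX existence of the free product with normal forms -/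
def T_FEX : Prop := ∀ (Γ : Type) [Group Γ], ∃ (Γ' : Type) (_ : Group Γ') (φ : Γ →* Γ') (x : Γ')
  (rw : Γ' → Wd Γ), FreeExt φ x rw

/-- TK-FAPI basic facts on words -/
def T_FAPI : Prop := ∀ (Γ Γ' : Type) [Group Γ] [Group Γ'] (φ : Γ →* Γ') (x : Γ')
  (rw : Γ' → Wd Γ), FreeExt φ x rw →
  (∀ g, rw (φ g) = (g, [])) ∧
  (∀ (g : Γ) (z : Γ'), rw (φ g * z) = (g * (rw z).1, (rw z).2)) ∧
  (∀ (ε : Bool) (z : Γ') (h : Γ) (l : List (Bool × Γ)), rw z = (1, (!ε, h) :: l) →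
    rw (sg x ε * z) = (h, l)) ∧
  (∀ (ε : Bool) (z : Γ'), (∀ (h : Γ) (l : List (Bool × Γ)), rw z ≠ (1, (!ε, h) :: l)) →
    rw (sg x ε * z) = (1, (ε, (rw z).1) :: (rw z).2)) ∧
  (∀ (g : Γ) (l : List (Bool × Γ)) (w : Wd Γ), wprod φ x (cat g l w) = wprod φ x (g, l) *
    wprod φ x w ∧ (cat g l w).2.length = l.length + w.2.length) ∧
  (∀ (g : Γ) (l : List (Bool × Γ)), wprod φ x (winv g l) = (wprod φ x (g, l))⁻¹ ∧
    (winv g l).2.length = l.length ∧ (Rdc l → Rdc (winv g l).2)) ∧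
  (∀ z : Γ', (rw z⁻¹).2.length = (rw z).2.length) ∧
  -- no cancellation in `u⁻¹ u'` when the first branches differ
  (∀ (u u' : Γ') (g : Γ) (ε : Bool) (h : Γ) (l : List (Bool × Γ)), rw u = (g, (ε, h) :: l) →
    (∀ (h' : Γ) (l' : List (Bool × Γ)), rw u' ≠ (g, (ε, h') :: l')) →
    rw (u⁻¹ * u') = cat (winv g ((ε, h) :: l)).1 (winv g ((ε, h) :: l)).2 (rw u') ∧
    (rw (u⁻¹ * u')).2.length = (rw u).2.length + (rw u').2.length)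

/-! ## the tree of spaces -/

/-- length of the path from the point `v` of the copy `1` to the point `v'` of the copy of the
word: in each copy one enters and leaves at translates of `x0`. -/
def Ld {Γ V : Type} [Group Γ] [MulAction Γ V] (d : V → V → ℕ) (x0 : V) :
    V → Γ → List (Bool × Γ) → V → ℕ
  | v, g, [], v' => d v (g • v')
  | v, g, p :: l, v' => d v (g • x0) + 1 + Ld d x0 x0 p.2 l v'

/-- `X'` with `q : Γ' → V → X'` is the balanced product `Γ' ×_Γ V`. -/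
structure IsBal {Γ Γ' V X' : Type} [Group Γ] [Group Γ'] [MulAction Γ V] [MulAction Γ' X']
    (φ : Γ →* Γ') (q : Γ' → V → X') : Prop where
  surj : ∀ p : X', ∃ g v, p = q g v
  bal : ∀ (g : Γ') (γ : Γ) (v : V), q (g * φ γ) v = q g (γ • v)
  smul : ∀ (h g : Γ') (v : V), h • q g v = q (h * g) v
  inj : ∀ (g h : Γ') (v v' : V), q g v = q h v' → ∃ γ : Γ, h = g * φ γ ∧ v = γ • v'

/-- `D` is the metric of the tree of spaces -/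
structure IsTree {Γ Γ' V X' : Type} [Group Γ] [Group Γ'] [MulAction Γ V] [MulAction Γ' X']
    (φ : Γ →* Γ') (x : Γ') (rw : Γ' → Wd Γ) (d : V → V → ℕ) (x0 : V) (q : Γ' → V → X')
    (D : X' → X' → ℕ) : Prop where
  free : FreeExt φ x rw
  bal : IsBal φ q
  geo : Geo D
  formula : ∀ (g h : Γ') (v v' : V),
    D (q g v) (q h v') = Ld d x0 v (rw (g⁻¹ * h)).1 (rw (g⁻¹ * h)).2 v'

/-- TK-BAL existence of the balanced product -/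
def T_BAL : Prop := ∀ (Γ Γ' V : Type) [Group Γ] [Group Γ'] [MulAction Γ V] (φ : Γ →* Γ'),
  Function.Injective φ → ∃ (X' : Type) (_ : MulAction Γ' X') (q : Γ' → V → X'), IsBal φ q

/-- TK-TDIST the graph metric of the tree of spaces -/
def T_TDIST : Prop := ∀ (Γ Γ' V X' : Type) [Group Γ] [Group Γ'] [MulAction Γ V]
  [MulAction Γ' X'] (φ : Γ →* Γ') (x : Γ') (rw : Γ' → Wd Γ) (d : V → V → ℕ) (x0 : V)
  (q : Γ' → V → X'), FreeExt φ x rw → IsBal φ q → Geo d →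
  (∀ (g : Γ) (v v' : V), d (g • v) (g • v') = d v v') →
  ∃ D : X' → X' → ℕ, IsTree φ x rw d x0 q D

/-- TK-TGATE paths between different branches of the copy `1` pass through the gate -/
def T_TGATE : Prop := ∀ (Γ Γ' V X' : Type) [Group Γ] [Group Γ'] [MulAction Γ V]
  [MulAction Γ' X'] (φ : Γ →* Γ') (x : Γ') (rw : Γ' → Wd Γ) (d : V → V → ℕ) (x0 : V)
  (q : Γ' → V → X') (D : X' → X' → ℕ), IsTree φ x rw d x0 q D → Geo d →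
  (∀ (g : Γ) (v v' : V), d (g • v) (g • v') = d v v') →
  ∀ (z z' : Γ') (g : Γ) (ε : Bool) (h : Γ) (l : List (Bool × Γ)), rw z = (g, (ε, h) :: l) →
  (∀ (h' : Γ) (l' : List (Bool × Γ)), rw z' ≠ (g, (ε, h') :: l')) → ∀ v v' : V,
  D (q z v) (q z' v') = D (q z v) (q 1 (g • x0)) + D (q 1 (g • x0)) (q z' v')

/-- TK-TG abstract thinness lemma for tree-graded spaces -/
def T_TG : Prop := ∀ (X β : Type) (D : X → X → ℕ) (δ : ℕ), Geo D →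
  (∀ p : X, ∃ (S : Set X) (G : X → X) (br : X → Option β), p ∈ S ∧ (∀ u, G u ∈ S) ∧
    (∀ u, ∀ w ∈ S, D u w = D u (G u) + D (G u) w) ∧
    (∀ u w, (br u ≠ br w ∨ br u = none) → D u w = D u (G u) + D (G u) (G w) + D (G w) w) ∧
    (∀ u w, br u = br w → br u ≠ none → G u = G w ∧ D u w < D u (G u) + D (G u) w) ∧
    (∀ u ∈ S, ∀ w ∈ S, ∀ t ∈ S, ∀ p ∈ S, Btw D u p w →
      ∃ q ∈ S, (Btw D u q t ∨ Btw D t q w) ∧ D p q ≤ δ)) → Thin D δ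

/-- TK-TTHIN the tree of spaces is thin with the same constant -/
def T_TTHIN : Prop := ∀ (Γ Γ' V X' : Type) [Group Γ] [Group Γ'] [MulAction Γ V]
  [MulAction Γ' X'] (φ : Γ →* Γ') (x : Γ') (rw : Γ' → Wd Γ) (d : V → V → ℕ) (x0 : V)
  (q : Γ' → V → X') (D : X' → X' → ℕ) (δ : ℕ), IsTree φ x rw d x0 q D → Geo d →
  (∀ (g : Γ) (v v' : V), d (g • v) (g • v') = d v v') → Thin d δ → Thin D δ

/-- TK-TGEO the action on the tree of spaces is geometric -/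
def T_TGEO : Prop := ∀ (Γ Γ' V X' : Type) [Group Γ] [Group Γ'] [MulAction Γ V]
  [MulAction Γ' X'] (φ : Γ →* Γ') (x : Γ') (rw : Γ' → Wd Γ) (d : V → V → ℕ) (x0 : V)
  (q : Γ' → V → X') (D : X' → X' → ℕ), IsTree φ x rw d x0 q D → GeoAct Γ V d x0 →
  GeoAct Γ' X' D (q 1 x0)

/-- TK-TSTEP first step of a geodesic in the tree of spaces -/
def T_TSTEP : Prop := ∀ (Γ Γ' V X' : Type) [Group Γ] [Group Γ'] [MulAction Γ V]
  [MulAction Γ' X'] (φ : Γ →* Γ') (x : Γ') (rw : Γ' → Wd Γ) (d : V → V → ℕ) (x0 : V)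
  (q : Γ' → V → X') (D : X' → X' → ℕ), IsTree φ x rw d x0 q D → Geo d →
  (∀ (g : Γ) (v v' : V), d (g • v) (g • v') = d v v') →
  (∀ (g : Γ) (v v' : V) (p : X'), Btw D (q 1 v) p (q (φ g) v') →
    ∃ u, p = q 1 u ∧ Btw d v u (g • v')) ∧
  (∀ (g : Γ) (p1 : Bool × Γ) (l : List (Bool × Γ)) (v v' : V) (p : X'), Rdc (p1 :: l) →
    Btw D (q 1 v) p (q (wprod φ x (g, p1 :: l)) v') →
    (∃ u, p = q 1 u ∧ Btw d v u (g • x0)) ∨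
    ∃ p' : X', p = (φ g * sg x p1.1) • p' ∧ Btw D (q 1 x0) p' (q (wprod φ x (p1.2, l)) v'))

/-! ## the partial action -/

/-- the partial action of `x^ε` on the cosets: `s i H ↦ t i H` -/
def Xr {Γ : Type} [Group Γ] (H : Subgroup Γ) (s t : Fin 5 → Γ) (ε : Bool) (ω ω' : Γ ⧸ H) : Prop :=
  ∃ i, if ε then (ω = QuotientGroup.mk (s i) ∧ ω' = QuotientGroup.mk (t i))
    else (ω = QuotientGroup.mk (t i) ∧ ω' = QuotientGroup.mk (s i))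

/-- the word is readable from `ω` to `ω'` (acting from the right end) -/
def Rd {Γ : Type} [Group Γ] (H : Subgroup Γ) (s t : Fin 5 → Γ) :
    Γ → List (Bool × Γ) → Γ ⧸ H → Γ ⧸ H → Prop
  | g, [], ω, ω' => ω' = g • ω
  | g, p :: l, ω, ω' => ∃ ω1 ω2, Rd H s t p.2 l ω ω1 ∧ Xr H s t p.1 ω1 ω2 ∧ ω' = g • ω2

/-- the new subgroup -/
def Hn {Γ Γ' : Type} [Group Γ] [Group Γ'] (φ : Γ →* Γ') (x : Γ') (H : Subgroup Γ)
    (s t : Fin 5 → Γ) : Subgroup Γ' :=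
  closure ({z | ∃ h ∈ H, z = φ h} ∪ {z | ∃ i, z = (φ (t i))⁻¹ * x * φ (s i)})

/-- the data of the free step -/
structure FS {Γ Γ' : Type} [Group Γ] [Group Γ'] (φ : Γ →* Γ') (x : Γ') (rw : Γ' → Wd Γ)
    (H : Subgroup Γ) (s t : Fin 5 → Γ) : Prop where
  free : FreeExt φ x rw
  hs : ∀ i j, i ≠ j → (s i)⁻¹ * s j ∉ H
  ht : ∀ i j, i ≠ j → (t i)⁻¹ * t j ∉ H

/-- TK-RD the subgroup `Hn` is the stabilizer of the partial action -/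
def T_RD : Prop := ∀ (Γ Γ' : Type) [Group Γ] [Group Γ'] (φ : Γ →* Γ') (x : Γ')
  (rw : Γ' → Wd Γ) (H : Subgroup Γ) (s t : Fin 5 → Γ), FS φ x rw H s t →
  (∀ (z : Γ') (g g' : Γ), (φ g')⁻¹ * z * φ g ∈ Hn φ x H s t ↔
    Rd H s t (rw z).1 (rw z).2 (QuotientGroup.mk g) (QuotientGroup.mk g')) ∧
  (∀ (g : Γ) (l : List (Bool × Γ)) (w : Wd Γ) (ω ω' : Γ ⧸ H),
    Rd H s t (cat g l w).1 (cat g l w).2 ω ω' ↔
      ∃ ω1, Rd H s t w.1 w.2 ω ω1 ∧ Rd H s t g l ω1 ω') ∧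
  (∀ (g : Γ) (l : List (Bool × Γ)) (ω ω' : Γ ⧸ H),
    Rd H s t (winv g l).1 (winv g l).2 ω ω' ↔ Rd H s t g l ω' ω)

/-- TK-FH elementary properties of `Hn` -/
def T_FH : Prop := ∀ (Γ Γ' : Type) [Group Γ] [Group Γ'] (φ : Γ →* Γ') (x : Γ')
  (rw : Γ' → Wd Γ) (H : Subgroup Γ) (s t : Fin 5 → Γ), FS φ x rw H s t →
  (∀ g, φ g ∈ Hn φ x H s t ↔ g ∈ H) ∧
  (∀ i, (φ (t i))⁻¹ * x * φ (s i) ∈ Hn φ x H s t) ∧
  (∀ σ : Γ, (∀ i, (s i)⁻¹ * σ ∉ H) → ∀ i j : ℕ, i ≠ j →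
    (x ^ i * φ σ)⁻¹ * (x ^ j * φ σ) ∉ Hn φ x H s t)

/-- TK-FQC quasiconvexity of `Hn` -/
def T_FQC : Prop := ∀ (Γ Γ' V X' : Type) [Group Γ] [Group Γ'] [MulAction Γ V]
  [MulAction Γ' X'] (φ : Γ →* Γ') (x : Γ') (rw : Γ' → Wd Γ) (d : V → V → ℕ) (x0 : V)
  (q : Γ' → V → X') (D : X' → X' → ℕ) (H : Subgroup Γ) (s t : Fin 5 → Γ) (κ : ℕ),
  IsTree φ x rw d x0 q D → FS φ x rw H s t → GeoAct Γ V d x0 →
  (∀ h ∈ H, ∀ p, Btw d x0 p (h • x0) → ∃ h' ∈ H, d p (h' • x0) ≤ κ) →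
  ∃ κ' : ℕ, ∀ h ∈ Hn φ x H s t, ∀ p, Btw D (q 1 x0) p (h • q 1 x0) →
    ∃ h' ∈ Hn φ x H s t, D p (h' • q 1 x0) ≤ κ'

/-- TK-TORS torsion and centralizers in `Γ * ⟨x⟩` -/
def T_TORS : Prop := ∀ (Γ Γ' : Type) [Group Γ] [Group Γ'] (φ : Γ →* Γ') (x : Γ')
  (rw : Γ' → Wd Γ), FreeExt φ x rw →
  (∀ t : Γ', IsOfFinOrder t → ∃ (z : Γ') (g : Γ), t = z * φ g * z⁻¹) ∧
  (∀ g : Γ, g ≠ 1 → ∀ z : Γ', z * φ g = φ g * z → ∃ g' : Γ, z = φ g')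

/-- TK-BR minimal representatives of the cosets of `Hn` -/
def T_BR : Prop := ∀ (Γ Γ' : Type) [Group Γ] [Group Γ'] (φ : Γ →* Γ') (x : Γ')
  (rw : Γ' → Wd Γ) (H : Subgroup Γ) (s t : Fin 5 → Γ), FS φ x rw H s t →
  ∀ (z w : Γ') (g : Γ) (ε : Bool) (h : Γ) (l : List (Bool × Γ)),
  (∀ k ∈ Hn φ x H s t, (rw z).2.length ≤ (rw (z * k)).2.length) →
  rw z = (g, (ε, h) :: l) → (rw w).2 ≠ [] →
  (∀ (h' : Γ) (l' : List (Bool × Γ)), rw w ≠ (g, (ε, h') :: l')) →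
  ∀ k ∈ Hn φ x H s t, (rw w).2.length + (rw z).2.length ≤ (rw (w⁻¹ * z * k)).2.length

/-- TK-AFREE elements of `Γ` without fixed points keep having no fixed points -/
def T_AFREE : Prop := ∀ (Γ Γ' : Type) [Group Γ] [Group Γ'] (φ : Γ →* Γ') (x : Γ')
  (rw : Γ' → Wd Γ) (H : Subgroup Γ) (s t : Fin 5 → Γ), FS φ x rw H s t →
  ∀ c : Γ, (∀ g : Γ, g⁻¹ * c * g ∉ H) → ∀ z : Γ', z⁻¹ * φ c * z ∉ Hn φ x H s t

/-- TK-FIVE at most five points have depth zero seen from `1` and from `w` -/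
def T_FIVE : Prop := ∀ (Γ Γ' : Type) [Group Γ] [Group Γ'] (φ : Γ →* Γ') (x : Γ')
  (rw : Γ' → Wd Γ) (H : Subgroup Γ) (s t : Fin 5 → Γ), FS φ x rw H s t →
  ∀ w : Γ', (rw w).2 ≠ [] → ∃ S : Finset (Γ' ⧸ Hn φ x H s t), S.card ≤ 5 ∧
    ∀ g g' : Γ, (φ g')⁻¹ * w⁻¹ * φ g ∈ Hn φ x H s t → (QuotientGroup.mk (φ g)) ∈ S

/-- the suffixes of `v` -/
def sufs {G : Type} [Group G] (a b : G) : List G :=
  [1, a, b⁻¹ * a, a⁻¹ * b⁻¹ * a, b * a⁻¹ * b⁻¹ * a, a * b * a⁻¹ * b⁻¹ * a,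
    b⁻¹ * a * b * a⁻¹ * b⁻¹ * a, a * b⁻¹ * a * b * a⁻¹ * b⁻¹ * a]

/-- TK-E6 reading `v` repeatedly visits at least six points -/
def T_E6 : Prop := ∀ (G X : Type) [Group G] [MulAction G X] (a b : G), a ^ 5 = 1 → b ^ 3 = 1 →
  (∀ y : X, a • y ≠ y) → (∀ y : X, b • y ≠ y) → ∀ (y : X) (S : Finset X), S.card ≤ 5 →
  ¬ ∀ m : ℕ, ∀ u ∈ sufs a b, (u * vw a b ^ m) • y ∈ S

/-- TK-VFREE -/
def T_VFREE : Prop := ∀ (Γ Γ' : Type) [Group Γ] [Group Γ'] (φ : Γ →* Γ') (x : Γ')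
  (rw : Γ' → Wd Γ) (H : Subgroup Γ) (s t : Fin 5 → Γ), FS φ x rw H s t → ∀ a b : Γ,
  a ^ 5 = 1 → b ^ 3 = 1 → (∀ g : Γ, g⁻¹ * a * g ∉ H) → (∀ g : Γ, g⁻¹ * b * g ∉ H) →
  (∀ (w g : Γ) (l : ℕ), 1 ≤ l → g⁻¹ * (vw a (w * b * w⁻¹)) ^ l * g ∈ H →
    IsOfFinOrder (vw a (w * b * w⁻¹))) →
  ∀ (w g : Γ') (l : ℕ), 1 ≤ l →
    g⁻¹ * (vw (φ a) (w * φ b * w⁻¹)) ^ l * g ∈ Hn φ x H s t →
    IsOfFinOrder (vw (φ a) (w * φ b * w⁻¹))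

/-- TK-FREE the free step -/
def T_FREE : Prop := ∀ (Γ : Type) [Group Γ] (H : Subgroup Γ) (a b : Γ), Good Γ H a b →
  ∀ s t : Fin 5 → Γ, (∀ i j, i ≠ j → (s i)⁻¹ * s j ∉ H) → (∀ i j, i ≠ j → (t i)⁻¹ * t j ∉ H) →
  ∃ (Γ' : Type) (_ : Group Γ') (φ : Γ →* Γ') (H' : Subgroup Γ') (x : Γ'),
    Good Γ' H' (φ a) (φ b) ∧ (∀ g, φ g ∈ H' ↔ g ∈ H) ∧
    (∀ i, (φ (t i))⁻¹ * x * φ (s i) ∈ H') ∧
    (∀ z : Γ', z ∈ closure (Set.range φ ∪ {x})) ∧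
    ∀ σ : Γ, (∀ i, (s i)⁻¹ * σ ∉ H) → ∀ i j : ℕ, i ≠ j →
      (x ^ i * φ σ)⁻¹ * (x ^ j * φ σ) ∉ H'

end TK
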