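import Pool.Agent.TK.Targets3

set_option autoImplicit false
set_option linter.unusedVariables false
set_option linter.unusedSectionVars false

/-!
# Project TK (MP_3ae405_al, `k = 5`): block TK-VFREE
-/

namespace TK

open Subgroup

namespace VFREE

theorem map_vw {G G' : Type} [Group G] [Group G'] (φ : G →* G') (a b : G) :
    φ (vw a b) = vw (φ a) (φ b) := by
  simp only [vw, map_mul, map_inv]

theorem sufs_zero {G : Type} [Group G] (a b : G) : (1 : G) ∈ sufs a b := by
  simp [sufs]

/-- every suffix has an `a`-neighbour among the suffixes -/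
theorem sufs_a {G : Type} [Group G] (a b : G) (u : G) (hu : u ∈ sufs a b) :
    a * u ∈ sufs a b ∨ a⁻¹ * u ∈ sufs a b := by
  simp only [sufs, List.mem_cons, List.not_mem_nil, or_false] at hu
  rcases hu with h | h | h | h | h | h | h | h <;> subst h <;> simp only [sufs, List.mem_cons]
  · left; right; left; group
  · right; left; group
  · right; right; right; right; left; group
  · left; right; right; left; group
  · left; right; right; right; right; right; left; group
  · right; right; right; right; right; left; group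
  · left; right; right; right; right; right; right; right; left; group
  · right; right; right; right; right; right; right; left; group

/-- every suffix has a `b`-neighbour among the suffixes or `v` or `v⁻¹` times it -/
theorem sufs_b {G : Type} [Group G] (a b : G) (u : G) (hu : u ∈ sufs a b) :
    b * u ∈ sufs a b ∨ b⁻¹ * u ∈ sufs a b ∨ b * u = vw a b ∨
    (u = 1 ∧ ∃ u' ∈ sufs a b, b⁻¹ * vw a b = u') := by
  simp only [sufs, List.mem_cons, List.not_mem_nil, or_false] at hu
  rcases hu with h | h | h | h | h | h | h | h <;> subst h <;> simp only [sufs, List.mem_cons]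
  · right; right; right
    refine ⟨trivial, a * b⁻¹ * a * b * a⁻¹ * b⁻¹ * a, ?_, ?_⟩
    · simp
    · unfold vw; group
  · right; left; right; right; left; group
  · left; right; left; group
  · left; right; right; right; right; left; group
  · right; left; right; right; right; left; group
  · right; left; right; right; right; right; right; right; left; group
  · left; right; right; right; right; right; left; group
  · right; right; left
    unfold vw; group

end VFREE

open VFREE in
theorem tk_vfree (hAF : T_AFREE) (hBR : T_BR) (hFV : T_FIVE) (hE6 : T_E6) (hFA : T_FAPI) :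
    T_VFREE := by
  intro Γ Γ' _ _ φ x rw H s t hFS a b ha5 hb3 haf hbf hvf w g l hl hmem
  have hfree := hFS.free
  obtain ⟨f1, f2, f3, f4, f5, f6, f7, f8⟩ := hFA Γ Γ' φ x rw hfree
  have hphi : ∀ z : Γ', (rw z).2 = [] → z = φ (rw z).1 := by
    intro z hz
    have h1 := hfree.prod z
    unfold wprod at h1
    rw [hz] at h1
    simp only [lprod, mul_one] at h1
    exact h1.symm
  have hane : a ≠ 1 := by
    intro h
    apply haf 1
    rw [h]; simp
  have hbne : b ≠ 1 := by
    intro h
    apply hbf 1
    rw [h]; simp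
  by_cases hw : (rw w).2 = []
  · -- w in Γ
    have hw' := hphi w hw
    set w0 := (rw w).1 with hw0
    have hv : vw (φ a) (w * φ b * w⁻¹) = φ (vw a (w0 * b * w0⁻¹)) := by
      rw [map_vw, map_mul, map_mul, map_inv, ← hw']
    rw [hv] at hmem ⊢
    apply MonoidHom.isOfFinOrder
    rw [← map_pow] at hmem
    have h1 : ∃ g1 : Γ, g1⁻¹ * (vw a (w0 * b * w0⁻¹)) ^ l * g1 ∈ H := by
      by_contra hcon
      push Not at hcon
      exact hAF Γ Γ' φ x rw H s t hFS _ hcon g hmem
    obtain ⟨g1, hg1⟩ := h1
    exact hvf w0 g1 l hl hg1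
  · exfalso
    -- depth
    set K : Subgroup Γ' := Hn φ x H s t with hK
    have hex : ∀ y : Γ' ⧸ K, ∃ n : ℕ, ∃ z : Γ', (QuotientGroup.mk z : Γ' ⧸ K) = y ∧
        (rw z).2.length = n := by
      intro y
      obtain ⟨z, hz⟩ := QuotientGroup.mk_surjective y
      exact ⟨_, z, hz, rfl⟩
    classical
    obtain ⟨dep, hdep⟩ : ∃ dep : Γ' ⧸ K → ℕ, dep = fun y => Nat.find (hex y) := ⟨_, rfl⟩
    have hD1 : ∀ z : Γ', dep (QuotientGroup.mk z : Γ' ⧸ K) ≤ (rw z).2.length := by
      intro z
      rw [hdep]
      exact Nat.find_min' (hex _) ⟨z, rfl, rfl⟩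
    have hD2 : ∀ y : Γ' ⧸ K, ∃ z : Γ', (QuotientGroup.mk z : Γ' ⧸ K) = y ∧
        (rw z).2.length = dep y := by
      intro y
      rw [hdep]
      exact Nat.find_spec (hex y)
    have hmk : ∀ (z k : Γ'), k ∈ K → (QuotientGroup.mk (z * k) : Γ' ⧸ K) = QuotientGroup.mk z := by
      intro z k hk
      rw [QuotientGroup.eq]
      have : (z * k)⁻¹ * z = k⁻¹ := by group
      rw [this]; exact K.inv_mem hk
    -- the key step
    have key : ∀ (w1 : Γ') (hw1 : (rw w1).2 ≠ []) (y : Γ' ⧸ K) (hy : 0 < dep y) (c : Γ)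
        (hc : c ≠ 1), dep y < dep (w1⁻¹ • y) ∨ dep y < dep (w1⁻¹ • (φ c • y)) := by
      intro w1 hw1 y hy c hc
      obtain ⟨z, hz, hzn⟩ := hD2 y
      have hzmin : ∀ k ∈ K, (rw z).2.length ≤ (rw (z * k)).2.length := by
        intro k hk
        rw [hzn, ← hz, ← hmk z k hk]
        exact hD1 _
      have hw1l : 0 < (rw w1).2.length := List.length_pos_of_ne_nil hw1
      -- the form of `rw z`
      obtain ⟨g0, ll, hll⟩ : ∃ g0 ll, rw z = (g0, ll) := ⟨_, _, rfl⟩
      match ll, hll with
      | [], hll =>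
        rw [hll] at hzn
        simp only [List.length_nil] at hzn
        omega
      | (ε, h) :: l', hll =>
        have hgen : ∀ z1 : Γ', (∀ k ∈ K, (rw z1).2.length ≤ (rw (z1 * k)).2.length) →
            ∀ (g1 : Γ) (l1 : List (Bool × Γ)) (h1 : Γ), rw z1 = (g1, (ε, h1) :: l1) →
            (∀ (h' : Γ) (l' : List (Bool × Γ)), rw w1 ≠ (g1, (ε, h') :: l')) →
            (rw z1).2.length < dep (w1⁻¹ • (QuotientGroup.mk z1 : Γ' ⧸ K)) := by
          intro z1 hz1 g1 l1 h1 hr1 hbr
          obtain ⟨z2, hz2, hz2n⟩ := hD2 (w1⁻¹ • (QuotientGroup.mk z1 : Γ' ⧸ K))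
          have h2 : (QuotientGroup.mk (w1⁻¹ * z1) : Γ' ⧸ K) = QuotientGroup.mk z2 := by
            rw [hz2]; rfl
          rw [QuotientGroup.eq] at h2
          have h3 := hBR Γ Γ' φ x rw H s t hFS z1 w1 g1 ε h1 l1 hz1 hr1 hw1 hbr _ h2
          have h4 : w1⁻¹ * z1 * ((w1⁻¹ * z1)⁻¹ * z2) = z2 := by group
          rw [h4] at h3
          rw [← hz2n]
          omega
        by_cases hbr : ∀ (h' : Γ) (l' : List (Bool × Γ)), rw w1 ≠ (g0, (ε, h') :: l')
        · left
          have := hgen z hzmin g0 l' h hll hbr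
          rw [hz, hzn] at this
          exact this
        · right
          push Not at hbr
          obtain ⟨h'', l'', hw1r⟩ := hbr
          have hrz : rw (φ c * z) = (c * g0, (ε, h) :: l') := by
            rw [f2, hll]
          have hlen : (rw (φ c * z)).2.length = (rw z).2.length := by
            rw [f2]
          have := hgen (φ c * z) (by
            intro k hk
            rw [mul_assoc, f2, f2]
            exact hzmin k hk) (c * g0) l' h hrz (by
            intro h' l1 hcon
            rw [hw1r] at hcon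
            simp only [Prod.mk.injEq] at hcon
            apply hc
            have := hcon.1
            exact mul_eq_right.mp this.symm)
          rw [hlen, hzn] at this
          have h5 : (QuotientGroup.mk (φ c * z) : Γ' ⧸ K) = φ c • y := by
            rw [← hz]; rfl
          rw [h5] at this
          exact this
    -- visited points
    obtain ⟨b', hb'⟩ : ∃ b' : Γ', b' = w * φ b * w⁻¹ := ⟨_, rfl⟩
    rw [← hb'] at hmem
    obtain ⟨v, hv⟩ : ∃ v : Γ', v = vw (φ a) b' := ⟨_, rfl⟩
    rw [← hv] at hmem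
    obtain ⟨y0, hy0⟩ : ∃ y0 : Γ' ⧸ K, y0 = QuotientGroup.mk g := ⟨_, rfl⟩
    have hper : v ^ l • y0 = y0 := by
      rw [hy0]
      change (QuotientGroup.mk (v ^ l * g) : Γ' ⧸ K) = QuotientGroup.mk g
      rw [QuotientGroup.eq]
      have : (v ^ l * g)⁻¹ * g = (g⁻¹ * v ^ l * g)⁻¹ := by group
      rw [this]; exact K.inv_mem hmem
    obtain ⟨Y, hY⟩ : ∃ Y : Set (Γ' ⧸ K), Y = {y | ∃ m : ℕ, ∃ u ∈ sufs (φ a) b',
      y = (u * v ^ m) • y0} := ⟨_, rfl⟩
    have hYfin : Y.Finite := by
      have h1 : Y ⊆ Set.image2 (fun (m : ℕ) (u : Γ') => (u * v ^ m) • y0) (Set.Iio l)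
          {u | u ∈ sufs (φ a) b'} := by
        intro y hy
        rw [hY] at hy
        obtain ⟨m, u, hu, rfl⟩ := hy
        refine ⟨m % l, Nat.mod_lt _ (by omega), u, hu, ?_⟩
        have h2 : ∀ q : ℕ, (v ^ l) ^ q • y0 = y0 := by
          intro q
          induction q with
          | zero => simp
          | succ q ih => rw [pow_succ, mul_smul, hper, ih]
        have h3 : v ^ m • y0 = v ^ (m % l) • y0 := by
          conv_lhs => rw [← Nat.mod_add_div m l, pow_add, pow_mul, mul_smul, h2]
        show (u * v ^ (m % l)) • y0 = (u * v ^ m) • y0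
        rw [mul_smul, mul_smul, h3]
      exact ((Set.finite_Iio l).image2 _ (List.finite_toSet _)).subset h1
    have hYne : Y.Nonempty := by
      refine ⟨y0, ?_⟩
      rw [hY]
      exact ⟨0, 1, sufs_zero _ _, by simp⟩
    have hYa : ∀ y ∈ Y, ∃ c : Γ, c ≠ 1 ∧ φ c • y ∈ Y := by
      intro y hy
      rw [hY] at hy
      obtain ⟨m, u, hu, rfl⟩ := hy
      rcases sufs_a (φ a) b' u hu with h | h
      · refine ⟨a, hane, ?_⟩
        rw [hY]
        exact ⟨m, _, h, by rw [smul_smul, mul_assoc]⟩
      · refine ⟨a⁻¹, inv_ne_one.mpr hane, ?_⟩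
        rw [hY]
        exact ⟨m, _, h, by rw [map_inv, smul_smul, mul_assoc]⟩
    have hYb : ∀ y ∈ Y, ∃ c : Γ, c ≠ 1 ∧ (w * φ c * w⁻¹) • y ∈ Y := by
      intro y hy
      rw [hY] at hy
      obtain ⟨m, u, hu, rfl⟩ := hy
      have hbinv : w * φ b⁻¹ * w⁻¹ = b'⁻¹ := by rw [hb', map_inv]; group
      rcases sufs_b (φ a) b' u hu with h | h | h | ⟨h, u', hu', hb2⟩
      · refine ⟨b, hbne, ?_⟩
        rw [hY, ← hb']
        exact ⟨m, _, h, by rw [smul_smul, mul_assoc]⟩
      · refine ⟨b⁻¹, inv_ne_one.mpr hbne, ?_⟩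
        rw [hY, hbinv]
        exact ⟨m, _, h, by rw [smul_smul, mul_assoc]⟩
      · refine ⟨b, hbne, ?_⟩
        rw [hY, ← hb']
        refine ⟨m + 1, 1, sufs_zero _ _, ?_⟩
        rw [smul_smul, ← mul_assoc, h, ← hv, one_mul, pow_succ']
      · refine ⟨b⁻¹, inv_ne_one.mpr hbne, ?_⟩
        rw [hY, hbinv]
        refine ⟨m + l - 1, u', hu', ?_⟩
        subst h
        rw [← hb2, ← hv, one_mul]
        have h6 : v ^ m • y0 = (v * v ^ (m + l - 1)) • y0 := by
          rw [← pow_succ', show m + l - 1 + 1 = m + l by omega, pow_add, mul_smul, hper]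
        rw [h6, smul_smul, mul_assoc]
    -- the maximum
    obtain ⟨ym, hymY, hmax⟩ := Set.exists_max_image Y (fun y => max (dep y) (dep (w⁻¹ • y)))
      hYfin hYne
    have hwinv : (rw w⁻¹).2 ≠ [] := by
      intro h
      have := f7 w
      rw [h] at this
      apply hw
      exact List.length_eq_zero_iff.mp this.symm
    have hzero : max (dep ym) (dep (w⁻¹ • ym)) = 0 := by
      by_contra hne
      have hpos : 0 < max (dep ym) (dep (w⁻¹ • ym)) := Nat.pos_of_ne_zero hne
      rcases le_total (dep (w⁻¹ • ym)) (dep ym) with hle | hle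
      · rw [max_eq_left hle] at hpos
        obtain ⟨c, hc, hcY⟩ := hYa ym hymY
        rcases key w hw ym hpos c hc with h | h
        · omega
        · have := hmax _ hcY
          simp only [max_eq_left hle] at this
          have h2 := le_trans (le_max_right _ _) this
          omega
      · rw [max_eq_right hle] at hpos
        obtain ⟨c, hc, hcY⟩ := hYb ym hymY
        rcases key w⁻¹ hwinv (w⁻¹ • ym) hpos c hc with h | h
        · rw [inv_inv, smul_inv_smul] at h
          omega
        · have := hmax _ hcY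
          simp only [max_eq_right hle] at this
          have h2 := le_trans (le_max_left _ _) this
          rw [inv_inv, smul_smul, smul_smul] at h
          omega
    have hall : ∀ y ∈ Y, dep y = 0 ∧ dep (w⁻¹ • y) = 0 := by
      intro y hy
      have := hmax y hy
      simp only [hzero] at this
      have h1 := le_trans (le_max_left _ _) this
      have h2 := le_trans (le_max_right _ _) this
      omega
    obtain ⟨S, hS5, hS⟩ := hFV Γ Γ' φ x rw H s t hFS w hw
    have hYS : ∀ y ∈ Y, y ∈ S := by
      intro y hy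
      obtain ⟨h1, h2⟩ := hall y hy
      obtain ⟨z, hz, hzn⟩ := hD2 y
      obtain ⟨z', hz', hzn'⟩ := hD2 (w⁻¹ • y)
      rw [h1] at hzn
      rw [h2] at hzn'
      have e1 := hphi z (List.length_eq_zero_iff.mp hzn)
      have e2 := hphi z' (List.length_eq_zero_iff.mp hzn')
      rw [← hz, e1]
      apply hS (rw z).1 (rw z').1
      rw [← e1, ← e2]
      have h3 : (QuotientGroup.mk z' : Γ' ⧸ K) = QuotientGroup.mk (w⁻¹ * z) := by
        rw [hz', ← hz]; rfl
      rw [QuotientGroup.eq] at h3
      rw [mul_assoc]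
      exact h3
    refine hE6 Γ' (Γ' ⧸ K) (φ a) b' (by rw [← map_pow, ha5, map_one]) ?_ ?_ ?_ y0 S hS5 ?_
    · rw [hb', conj_pow, ← map_pow, hb3, map_one]; group
    · intro y hy
      obtain ⟨z, rfl⟩ := QuotientGroup.mk_surjective y
      have h1 : (QuotientGroup.mk z : Γ' ⧸ K) = QuotientGroup.mk (φ a * z) := hy.symm
      rw [QuotientGroup.eq] at h1
      apply hAF Γ Γ' φ x rw H s t hFS a haf z
      rw [mul_assoc]; exact h1
    · intro y hy
      obtain ⟨z, rfl⟩ := QuotientGroup.mk_surjective y
      have h1 : (QuotientGroup.mk z : Γ' ⧸ K) = QuotientGroup.mk (b' * z) := hy.symm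
      rw [QuotientGroup.eq] at h1
      apply hAF Γ Γ' φ x rw H s t hFS b hbf (w⁻¹ * z)
      have h2 : (w⁻¹ * z)⁻¹ * φ b * (w⁻¹ * z) = z⁻¹ * (b' * z) := by rw [hb']; group
      rw [h2]; exact h1
    · intro m u hu
      apply hYS
      rw [hY]
      exact ⟨m, u, hu, by rw [hv]⟩

end TK
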